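import Pool.Agent.Lib.MP_c95b3b_ag_PC.DefsK
import Pool.Agent.Lib.MP_c95b3b_ag_L3.Place2

/-! Project PC, module KA: the vectors of logarithms of the points of a plane curve are near the
rays of the curve. -/

namespace Pool.Agent.PC

open Pool.Agent.L3 Module MvPolynomial

/-- the error at a place -/
noncomputable def er {K : Type} [Field K] {S : Subring K} (P : Places K S)
    (f : MvPolynomial (Fin 2) ℤ) (w : P.Pl) : ℝ :=
  P.arch w * Real.log (f.support.card + 1) + ∑ b ∈ f.support, |P.lg w ((coeff b f : ℤ) : K)|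

private theorem near_log_card (f : MvPolynomial (Fin 2) ℤ) :
    0 ≤ Real.log ((f.support.card : ℝ) + 1) := by
  refine Real.log_nonneg ?_
  have h : (0 : ℝ) ≤ f.support.card := Nat.cast_nonneg _
  linarith

theorem er_nonneg {K : Type} [Field K] {S : Subring K} (P : Places K S)
    (f : MvPolynomial (Fin 2) ℤ) (w : P.Pl) : 0 ≤ er P f w :=
  add_nonneg (mul_nonneg (P.arch_nonneg w) (near_log_card f))
    (Finset.sum_nonneg fun _ _ => abs_nonneg _)

private theorem near_avg_int {K : Type} [Field K] {S : Subring K} (P : Places K S) (c : ℤ)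
    (hc : c ≠ 0) : P.avg (fun w => |P.lg w (c : K)|) ≤ 2 * Real.log |(c : ℝ)| := by
  have h0 : 0 ≤ Real.log |(c : ℝ)| := by
    refine Real.log_nonneg ?_
    have h : (1 : ℤ) ≤ |c| := Int.one_le_abs hc
    exact_mod_cast h
  have h1 : ∑ i, |P.lg (.inl i) (c : K)| = P.D * Real.log |(c : ℝ)| := by
    have h2 : ∀ i, |P.lg (.inl i) (c : K)| = Real.log |(c : ℝ)| := by
      intro i
      rw [P.lg_inl, map_intCast, Complex.norm_intCast, abs_of_nonneg h0]
    simp only [h2, Finset.sum_const, Finset.card_univ, Fintype.card_fin, nsmul_eq_mul]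
  have h3 : ∑ j, |P.lg (.inr j) (c : K)| ≤ P.D * Real.log |(c : ℝ)| := by
    refine le_trans (Finset.sum_le_sum fun j _ => ?_) (PL2.sum_int P c hc)
    rw [P.lg_inr, abs_of_nonpos (Real.log_nonpos ((P.v j).nonneg _) (P.v_int j c))]
  rw [Places.avg, div_le_iff₀ P.D_cast_pos, Fintype.sum_sum_type]
  linarith

theorem avg_er_le (f : MvPolynomial (Fin 2) ℤ) : ∃ E : ℝ, 0 ≤ E ∧
    ∀ (K : Type) [Field K] (S : Subring K) (P : Places K S), P.avg (er P f) ≤ E := by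
  refine ⟨Real.log (f.support.card + 1) + ∑ b ∈ f.support, 2 * Real.log |((coeff b f : ℤ) : ℝ)|,
    ?_, ?_⟩
  · refine add_nonneg (near_log_card f) (Finset.sum_nonneg fun b hb => ?_)
    refine mul_nonneg zero_le_two (Real.log_nonneg ?_)
    have h : (1 : ℤ) ≤ |coeff b f| := Int.one_le_abs (mem_support_iff.mp hb)
    exact_mod_cast h
  · intro K _ S P
    have h1 : P.avg (er P f) = P.avg (fun w => Real.log (f.support.card + 1) * P.arch w) +
        ∑ b ∈ f.support, P.avg (fun w => |P.lg w ((coeff b f : ℤ) : K)|) := by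
      rw [← P.avg_sum, ← P.avg_add]
      congr 1
      funext w
      unfold er
      ring
    rw [h1, P.avg_const_arch]
    refine add_le_add le_rfl (Finset.sum_le_sum fun b hb => ?_)
    exact near_avg_int P _ (mem_support_iff.mp hb)

/-- the geometry of the plane -/
private theorem near_geom (a b : ℤ) (hab : a ≠ 0 ∨ b ≠ 0) (l₁ l₂ e : ℝ)
    (h : |(a : ℝ) * l₁ + b * l₂| ≤ e) :
    ∃ (n : ℤ × ℤ) (t : ℝ), (n = (-b, a) ∨ n = (b, -a)) ∧ 0 ≤ t ∧
      |l₁ - t * n.1| ≤ e ∧ |l₂ - t * n.2| ≤ e := by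
  have ha2 : |(a : ℝ)| ≤ (a : ℝ) ^ 2 := by
    have h1 : |a| ≤ a ^ 2 := by
      rw [← sq_abs]
      exact_mod_cast Int.le_self_sq |a|
    exact_mod_cast h1
  have hb2 : |(b : ℝ)| ≤ (b : ℝ) ^ 2 := by
    have h1 : |b| ≤ b ^ 2 := by
      rw [← sq_abs]
      exact_mod_cast Int.le_self_sq |b|
    exact_mod_cast h1
  have hN : (0 : ℝ) < (a : ℝ) ^ 2 + (b : ℝ) ^ 2 := by
    rcases hab with h1 | h1
    · have : (0 : ℝ) < (a : ℝ) ^ 2 := by positivity
      have : (0 : ℝ) ≤ (b : ℝ) ^ 2 := by positivity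
      linarith
    · have : (0 : ℝ) < (b : ℝ) ^ 2 := by positivity
      have : (0 : ℝ) ≤ (a : ℝ) ^ 2 := by positivity
      linarith
  have he : 0 ≤ e := (abs_nonneg _).trans h
  have h1 : |l₁ - (-(b : ℝ) * l₁ + a * l₂) / ((a : ℝ) ^ 2 + (b : ℝ) ^ 2) * (-b)| ≤ e := by
    have h2 : l₁ - (-(b : ℝ) * l₁ + a * l₂) / ((a : ℝ) ^ 2 + (b : ℝ) ^ 2) * (-b) =
        ((a : ℝ) * l₁ + b * l₂) * (a / ((a : ℝ) ^ 2 + (b : ℝ) ^ 2)) := by
      field_simp
      ring
    rw [h2, abs_mul, abs_div, abs_of_pos hN]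
    have h3 : |(a : ℝ)| / ((a : ℝ) ^ 2 + (b : ℝ) ^ 2) ≤ 1 := by
      rw [div_le_one hN]
      nlinarith [sq_nonneg (b : ℝ)]
    calc _ ≤ e * 1 := mul_le_mul h h3 (by positivity) he
      _ = e := mul_one e
  have h2 : |l₂ - (-(b : ℝ) * l₁ + a * l₂) / ((a : ℝ) ^ 2 + (b : ℝ) ^ 2) * a| ≤ e := by
    have h2 : l₂ - (-(b : ℝ) * l₁ + a * l₂) / ((a : ℝ) ^ 2 + (b : ℝ) ^ 2) * a =
        ((a : ℝ) * l₁ + b * l₂) * (b / ((a : ℝ) ^ 2 + (b : ℝ) ^ 2)) := by
      field_simp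
      ring
    rw [h2, abs_mul, abs_div, abs_of_pos hN]
    have h3 : |(b : ℝ)| / ((a : ℝ) ^ 2 + (b : ℝ) ^ 2) ≤ 1 := by
      rw [div_le_one hN]
      nlinarith [sq_nonneg (a : ℝ)]
    calc _ ≤ e * 1 := mul_le_mul h h3 (by positivity) he
      _ = e := mul_one e
  rcases le_total 0 ((-(b : ℝ) * l₁ + a * l₂) / ((a : ℝ) ^ 2 + (b : ℝ) ^ 2)) with h3 | h3
  · refine ⟨(-b, a), _, Or.inl rfl, h3, ?_, ?_⟩
    · simpa using h1
    · simpa using h2
  · refine ⟨(b, -a), -((-(b : ℝ) * l₁ + a * l₂) / ((a : ℝ) ^ 2 + (b : ℝ) ^ 2)), Or.inr rfl,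
      neg_nonneg.mpr h3, ?_, ?_⟩
    · simpa using h1
    · simpa using h2

/-- if a sum of non-zero terms vanishes, the largest term is comparable to another one -/
private theorem near_dom {K : Type} [Field K] {S : Subring K} (P : Places K S) (w : P.Pl)
    {ι : Type} [DecidableEq ι] (s : Finset ι) (T : ι → K) (hT : ∀ b ∈ s, T b ≠ 0)
    (h0 : ∑ b ∈ s, T b = 0) (hs : s.Nonempty) :
    ∃ b ∈ s, ∃ b' ∈ s, b' ≠ b ∧ (∀ c ∈ s, P.lg w (T c) ≤ P.lg w (T b)) ∧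
      P.lg w (T b) ≤ P.lg w (T b') + P.arch w * Real.log (s.card + 1) := by
  obtain ⟨b, hb, hmax⟩ := Finset.exists_max_image s (fun c => P.lg w (T c)) hs
  have hne : (s.erase b).Nonempty := by
    rw [Finset.nonempty_iff_ne_empty]
    intro he
    rw [← Finset.add_sum_erase s T hb, he, Finset.sum_empty, add_zero] at h0
    exact hT b hb h0
  obtain ⟨b', hb', hmax'⟩ := Finset.exists_max_image (s.erase b) (fun c => P.lg w (T c)) hne
  have hb's := Finset.mem_erase.mp hb'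
  refine ⟨b, hb, b', hb's.2, hb's.1, hmax, ?_⟩
  have hsum : T b = -∑ c ∈ s.erase b, T c := by
    rw [← Finset.add_sum_erase s T hb] at h0
    exact eq_neg_of_add_eq_zero_left h0
  rcases w with i | j
  · have hpos : ∀ c ∈ s, 0 < ‖P.σ i (T c)‖ := fun c hc => by
      rw [norm_pos_iff]
      exact (map_ne_zero _).mpr (hT c hc)
    have hle : ∀ c ∈ s.erase b, ‖P.σ i (T c)‖ ≤ ‖P.σ i (T b')‖ := by
      intro c hc
      have h1 := hmax' c hc
      simp only [P.lg_inl] at h1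
      exact (Real.log_le_log_iff (hpos c (Finset.mem_erase.mp hc).2) (hpos b' hb's.2)).mp h1
    have h2 : ‖P.σ i (T b)‖ ≤ ((s.card : ℝ) + 1) * ‖P.σ i (T b')‖ := by
      rw [hsum, map_neg, norm_neg, map_sum]
      refine (norm_sum_le _ _).trans ((Finset.sum_le_sum hle).trans ?_)
      rw [Finset.sum_const, nsmul_eq_mul]
      refine mul_le_mul_of_nonneg_right ?_ (norm_nonneg _)
      have h3 : ((s.erase b).card : ℝ) ≤ s.card := by
        exact_mod_cast Finset.card_le_card (Finset.erase_subset _ _)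
      linarith
    rw [P.lg_inl, P.lg_inl, P.arch_inl, one_mul, add_comm,
      ← Real.log_mul (by positivity) (hpos b' hb's.2).ne']
    exact Real.log_le_log (hpos b hb) h2
  · have hpos : ∀ c ∈ s, 0 < P.v j (T c) := fun c hc => (P.v j).pos (hT c hc)
    rw [P.lg_inr, P.lg_inr, P.arch_inr, zero_mul, add_zero]
    refine Real.log_le_log (hpos b hb) ?_
    rw [hsum, AbsoluteValue.map_neg]
    refine P.v_sum_le j _ _ ((P.v j).nonneg _) fun c hc => ?_
    have h1 := hmax' c hc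
    simp only [P.lg_inr] at h1
    exact (Real.log_le_log_iff (hpos c (Finset.mem_erase.mp hc).2) (hpos b' hb's.2)).mp h1

private theorem near_add_le {f : MvPolynomial (Fin 2) ℤ} (F : (Fin 2 →₀ ℕ) → ℝ)
    (hF : ∀ b, 0 ≤ F b) {b c : Fin 2 →₀ ℕ} (hb : b ∈ f.support) (hc : c ∈ f.support)
    (hbc : b ≠ c) : F b + F c ≤ ∑ b ∈ f.support, F b := by
  classical
  rw [← Finset.sum_pair hbc]
  refine Finset.sum_le_sum_of_subset_of_nonneg ?_ fun _ _ _ => hF _
  intro d hd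
  rcases Finset.mem_insert.mp hd with rfl | hd
  · exact hb
  · rw [Finset.mem_singleton.mp hd]
    exact hc

/-- the place where the largest and the second largest term are comparable -/
private theorem near_pair {m : ℕ} (C : Crv m) {K : Type} [Field K] {S : Subring K}
    (P : Places K S) (u : K × K) (hu : UC C S u) (w : P.Pl) :
    ∃ b ∈ C.f.support, ∃ b' ∈ C.f.support, b' ≠ b ∧
      (∀ c ∈ C.f.support, (((c 0 : ℕ) : ℝ) - ((b 0 : ℕ) : ℝ)) * P.lg w u.1 +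
        (((c 1 : ℕ) : ℝ) - ((b 1 : ℕ) : ℝ)) * P.lg w u.2 ≤ er P C.f w) ∧
      |(((b' 0 : ℕ) : ℝ) - ((b 0 : ℕ) : ℝ)) * P.lg w u.1 +
        (((b' 1 : ℕ) : ℝ) - ((b 1 : ℕ) : ℝ)) * P.lg w u.2| ≤ er P C.f w := by
  classical
  have := P.charZero
  have hT : ∀ b ∈ C.f.support, ((coeff b C.f : ℤ) : K) * (u.1 ^ b 0 * u.2 ^ b 1) ≠ 0 := by
    intro b hb
    refine mul_ne_zero (Int.cast_ne_zero.2 (mem_support_iff.mp hb)) ?_
    exact mul_ne_zero (pow_ne_zero _ hu.ne1) (pow_ne_zero _ hu.ne2)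
  have hsum : ∑ b ∈ C.f.support, ((coeff b C.f : ℤ) : K) * (u.1 ^ b 0 * u.2 ^ b 1) = 0 := by
    have h1 := hu.on
    rw [aeval_def, eval₂_eq'] at h1
    simpa [Fin.prod_univ_two] using h1
  have hne : C.f.support.Nonempty := by
    rw [Finset.nonempty_iff_ne_empty, Ne, MvPolynomial.support_eq_empty]
    exact C.irr.ne_zero
  have hlg : ∀ b ∈ C.f.support, P.lg w (((coeff b C.f : ℤ) : K) * (u.1 ^ b 0 * u.2 ^ b 1)) =
      P.lg w ((coeff b C.f : ℤ) : K) + ((b 0 : ℕ) * P.lg w u.1 + (b 1 : ℕ) * P.lg w u.2) := by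
    intro b hb
    rw [P.lg_mul w (Int.cast_ne_zero.2 (mem_support_iff.mp hb))
      (mul_ne_zero (pow_ne_zero _ hu.ne1) (pow_ne_zero _ hu.ne2)),
      P.lg_mul w (pow_ne_zero _ hu.ne1) (pow_ne_zero _ hu.ne2), P.lg_pow, P.lg_pow]
  obtain ⟨b, hb, b', hb', hbb, hmax, hcmp⟩ := near_dom P w C.f.support _ hT hsum hne
  have harch : 0 ≤ P.arch w * Real.log ((C.f.support.card : ℝ) + 1) :=
    mul_nonneg (P.arch_nonneg w) (near_log_card C.f)
  have hone : ∀ c ∈ C.f.support, (((c 0 : ℕ) : ℝ) - ((b 0 : ℕ) : ℝ)) * P.lg w u.1 +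
        (((c 1 : ℕ) : ℝ) - ((b 1 : ℕ) : ℝ)) * P.lg w u.2 ≤ er P C.f w := by
    intro c hc
    by_cases hcb : c = b
    · subst hcb
      rw [sub_self, sub_self, zero_mul, zero_mul, add_zero]
      exact er_nonneg P C.f w
    · have h1 := hmax c hc
      rw [hlg c hc, hlg b hb] at h1
      have h2 := near_add_le (f := C.f) (fun b => |P.lg w ((coeff b C.f : ℤ) : K)|)
        (fun _ => abs_nonneg _) hb hc (Ne.symm hcb)
      have h3 := le_abs_self (P.lg w ((coeff b C.f : ℤ) : K))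
      have h4 := neg_abs_le (P.lg w ((coeff c C.f : ℤ) : K))
      unfold er
      linarith
  refine ⟨b, hb, b', hb', hbb, hone, ?_⟩
  rw [abs_le]
  refine ⟨?_, hone b' hb'⟩
  rw [hlg b hb, hlg b' hb'] at hcmp
  have h2 := near_add_le (f := C.f) (fun b => |P.lg w ((coeff b C.f : ℤ) : K)|)
    (fun _ => abs_nonneg _) hb hb' (Ne.symm hbb)
  have h3 := neg_abs_le (P.lg w ((coeff b C.f : ℤ) : K))
  have h4 := le_abs_self (P.lg w ((coeff b' C.f : ℤ) : K))
  unfold er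
  linarith

theorem near {m : ℕ} (C : Crv m) : ∃ c : ℝ, 0 ≤ c ∧
    ∀ (K : Type) [Field K] (S : Subring K) (P : Places K S) (u : K × K), UC C S u →
      ∀ w, ∃ (j : Fin m) (t : ℝ), 0 ≤ t ∧
        ‖((P.lg w u.1, P.lg w u.2) : ℝ × ℝ) - t • rv (C.ray j)‖ ≤ c * er P C.f w := by
  classical
  obtain ⟨B, hB⟩ : ∃ B : ℕ, ∀ b ∈ C.f.support, b 0 ≤ B ∧ b 1 ≤ B := by
    refine ⟨∑ b ∈ C.f.support, (b 0 + b 1), fun b hb => ?_⟩
    have h := Finset.single_le_sum (f := fun b : Fin 2 →₀ ℕ => b 0 + b 1)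
      (fun _ _ => Nat.zero_le _) hb
    constructor <;> omega
  refine ⟨1 + B + 2 * B ^ 2, by positivity, ?_⟩
  intro K _ S P u hu w
  obtain ⟨b, hb, b', hb', hbb, hone, hpair⟩ := near_pair C P u hu w
  set e := er P C.f w with he
  have he0 : 0 ≤ e := er_nonneg P C.f w
  set l₁ := P.lg w u.1
  set l₂ := P.lg w u.2
  -- the primitive vector
  have hv : (((b' 0 : ℕ) : ℤ) - ((b 0 : ℕ) : ℤ)) ≠ 0 ∨ (((b' 1 : ℕ) : ℤ) - ((b 1 : ℕ) : ℤ)) ≠ 0 := by
    by_contra hcon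
    push Not at hcon
    apply hbb
    ext i
    fin_cases i
    · have := hcon.1
      simp only [Fin.zero_eta]
      omega
    · have := hcon.2
      simp only [Fin.mk_one]
      omega
  have hg : 0 < Int.gcd (((b' 0 : ℕ) : ℤ) - ((b 0 : ℕ) : ℤ))
      (((b' 1 : ℕ) : ℤ) - ((b 1 : ℕ) : ℤ)) := by
    rw [Int.gcd_pos_iff]
    exact hv
  obtain ⟨p, q, hpq, hp, hq⟩ := Int.exists_gcd_one hg
  set g := Int.gcd (((b' 0 : ℕ) : ℤ) - ((b 0 : ℕ) : ℤ)) (((b' 1 : ℕ) : ℤ) - ((b 1 : ℕ) : ℤ)) with hgdef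
  have hcop : IsCoprime p q := Int.isCoprime_iff_gcd_eq_one.mpr hpq
  have hpq0 : p ≠ 0 ∨ q ≠ 0 := by
    by_contra hcon
    push Not at hcon
    rw [hcon.1, hcon.2] at hcop
    exact not_isCoprime_zero_zero hcop
  have hpR : ((b' 0 : ℕ) : ℝ) - ((b 0 : ℕ) : ℝ) = p * g := by exact_mod_cast hp
  have hqR : ((b' 1 : ℕ) : ℝ) - ((b 1 : ℕ) : ℝ) = q * g := by exact_mod_cast hq
  have hgR : (1 : ℝ) ≤ g := by exact_mod_cast hg
  have hlin : |(p : ℝ) * l₁ + q * l₂| ≤ e := by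
    rw [hpR, hqR] at hpair
    have h1 : (p : ℝ) * g * l₁ + q * g * l₂ = g * ((p : ℝ) * l₁ + q * l₂) := by ring
    rw [h1, abs_mul, abs_of_pos (by linarith)] at hpair
    have h2 : |(p : ℝ) * l₁ + q * l₂| ≤ g * |(p : ℝ) * l₁ + q * l₂| :=
      le_mul_of_one_le_left (abs_nonneg _) hgR
    linarith
  have hpB : |p| ≤ B := by
    have h1 : |p| ≤ |p * g| := by
      rw [abs_mul]
      refine le_mul_of_one_le_right (abs_nonneg _) ?_
      rw [abs_of_nonneg (by positivity)]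
      exact_mod_cast hg
    rw [← hp] at h1
    have h2 := (hB b hb).1
    have h3 := (hB b' hb').1
    refine h1.trans (abs_le.mpr ⟨?_, ?_⟩) <;> omega
  have hqB : |q| ≤ B := by
    have h1 : |q| ≤ |q * g| := by
      rw [abs_mul]
      refine le_mul_of_one_le_right (abs_nonneg _) ?_
      rw [abs_of_nonneg (by positivity)]
      exact_mod_cast hg
    rw [← hq] at h1
    have h2 := (hB b hb).2
    have h3 := (hB b' hb').2
    refine h1.trans (abs_le.mpr ⟨?_, ?_⟩) <;> omega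
  obtain ⟨n, t, hn, ht, h1, h2⟩ := near_geom p q hpq0 l₁ l₂ e hlin
  have hncop : IsCoprime n.1 n.2 := by
    rcases hn with rfl | rfl
    · exact hcop.symm.neg_left
    · exact hcop.symm.neg_right
  have hnorth : n.1 * p + n.2 * q = 0 := by
    rcases hn with rfl | rfl <;> ring
  have hn1 : |n.1| ≤ B := by
    rcases hn with rfl | rfl
    · simpa using hqB
    · exact hqB
  have hn2 : |n.2| ≤ B := by
    rcases hn with rfl | rfl
    · exact hpB
    · simpa using hpB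
  have hcB : (1 : ℝ) ≤ 1 + B + 2 * B ^ 2 := by
    have : (0 : ℝ) ≤ B + 2 * B ^ 2 := by positivity
    linarith
  by_cases hcase : ∀ c ∈ C.f.support,
      n.1 * (c 0 : ℤ) + n.2 * (c 1 : ℤ) ≤ n.1 * (b 0 : ℤ) + n.2 * (b 1 : ℤ)
  · have hedge : IsEdge C.f n := by
      refine ⟨b, hb, b', hb', Ne.symm hbb, ?_, hcase⟩
      have h3 : n.1 * (((b' 0 : ℕ) : ℤ) - ((b 0 : ℕ) : ℤ)) +
          n.2 * (((b' 1 : ℕ) : ℤ) - ((b 1 : ℕ) : ℤ)) = 0 := by
        rw [hp, hq]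
        linear_combination (g : ℤ) * hnorth
      linarith
    obtain ⟨j, hj⟩ := C.all n hncop hedge
    refine ⟨j, t, ht, ?_⟩
    rw [hj]
    refine le_trans ?_ (le_mul_of_one_le_left he0 hcB)
    rw [Prod.norm_def]
    refine max_le ?_ ?_
    · simpa [rv] using h1
    · simpa [rv] using h2
  · push Not at hcase
    obtain ⟨c, hc, hcn⟩ := hcase
    obtain ⟨j, _, _⟩ := C.two
    refine ⟨j, 0, le_rfl, ?_⟩
    have h3 := hone c hc
    have hk : (1 : ℝ) ≤ n.1 * (((c 0 : ℕ) : ℝ) - ((b 0 : ℕ) : ℝ)) +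
        n.2 * (((c 1 : ℕ) : ℝ) - ((b 1 : ℕ) : ℝ)) := by
      have h4 : (1 : ℤ) ≤ n.1 * (((c 0 : ℕ) : ℤ) - ((b 0 : ℕ) : ℤ)) +
        n.2 * (((c 1 : ℕ) : ℤ) - ((b 1 : ℕ) : ℤ)) := by linarith
      exact_mod_cast h4
    have hd1 : |(((c 0 : ℕ) : ℝ) - ((b 0 : ℕ) : ℝ))| ≤ B := by
      have h2 := (hB b hb).1
      have h3 := (hB c hc).1
      have h4 : |(((c 0 : ℕ) : ℤ) - ((b 0 : ℕ) : ℤ))| ≤ B := abs_le.mpr ⟨by omega, by omega⟩
      exact_mod_cast h4
    have hd2 : |(((c 1 : ℕ) : ℝ) - ((b 1 : ℕ) : ℝ))| ≤ B := by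
      have h2 := (hB b hb).2
      have h3 := (hB c hc).2
      have h4 : |(((c 1 : ℕ) : ℤ) - ((b 1 : ℕ) : ℤ))| ≤ B := abs_le.mpr ⟨by omega, by omega⟩
      exact_mod_cast h4
    set d₁ := (((c 0 : ℕ) : ℝ) - ((b 0 : ℕ) : ℝ))
    set d₂ := (((c 1 : ℕ) : ℝ) - ((b 1 : ℕ) : ℝ))
    have hB0 : (0 : ℝ) ≤ B := Nat.cast_nonneg _
    have h5 : |d₁ * (l₁ - t * n.1)| ≤ B * e := by
      rw [abs_mul]
      exact mul_le_mul hd1 h1 (abs_nonneg _) hB0
    have h6 : |d₂ * (l₂ - t * n.2)| ≤ B * e := by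
      rw [abs_mul]
      exact mul_le_mul hd2 h2 (abs_nonneg _) hB0
    have ht2 : t ≤ e + 2 * (B * e) := by
      have h7 : t * 1 ≤ t * (n.1 * d₁ + n.2 * d₂) := mul_le_mul_of_nonneg_left hk ht
      have h8 := neg_abs_le (d₁ * (l₁ - t * n.1))
      have h9 := neg_abs_le (d₂ * (l₂ - t * n.2))
      nlinarith
    have hn1R : |(n.1 : ℝ)| ≤ B := by exact_mod_cast hn1
    have hn2R : |(n.2 : ℝ)| ≤ B := by exact_mod_cast hn2
    have h10 : |l₁| ≤ (1 + B + 2 * B ^ 2) * e := by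
      have h11 : l₁ = (l₁ - t * n.1) + t * n.1 := by ring
      rw [h11]
      refine (abs_add_le _ _).trans ?_
      have h12 : |t * (n.1 : ℝ)| ≤ (e + 2 * (B * e)) * B := by
        rw [abs_mul, abs_of_nonneg ht]
        exact mul_le_mul ht2 hn1R (abs_nonneg _) (by positivity)
      nlinarith
    have h20 : |l₂| ≤ (1 + B + 2 * B ^ 2) * e := by
      have h11 : l₂ = (l₂ - t * n.2) + t * n.2 := by ring
      rw [h11]
      refine (abs_add_le _ _).trans ?_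
      have h12 : |t * (n.2 : ℝ)| ≤ (e + 2 * (B * e)) * B := by
        rw [abs_mul, abs_of_nonneg ht]
        exact mul_le_mul ht2 hn2R (abs_nonneg _) (by positivity)
      nlinarith
    rw [zero_smul, sub_zero, Prod.norm_def]
    exact max_le h10 h20

end Pool.Agent.PC
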