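import Pool.Agent.Lib.MP_c95b3b_ag_PC.DefsK
import Pool.Agent.Lib.MP_c95b3b_ag_AL.MB

/-! Project PC, module KD: many characters near the orthogonal complement of `F` with different
orders. -/

namespace Pool.Agent.PC

open Pool.Agent.L3 Module

namespace CharsK

variable {ι : Type}

/-- the linear map which takes the rays `ρ i` to the first ray of a line -/
def gl (ρ u : ι → ℤ × ℤ) : (ι → ℝ × ℝ) →ₗ[ℝ] (ι → ℝ × ℝ) where
  toFun := fun w i => (-(((u i).1 : ℝ) * (w i).1 + ((u i).2 : ℝ) * (w i).2),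
    ((ρ i).2 : ℝ) * (w i).1 - ((ρ i).1 : ℝ) * (w i).2)
  map_add' := fun v w => by
    funext i
    refine Prod.ext ?_ ?_
    · simp
      ring
    · simp
      ring
  map_smul' := fun c v => by
    funext i
    refine Prod.ext ?_ ?_
    · simp
      ring
    · simp
      ring

theorem gl_apply (ρ u : ι → ℤ × ℤ) (w : ι → ℝ × ℝ) (i : ι) :
    gl ρ u w i = (-(((u i).1 : ℝ) * (w i).1 + ((u i).2 : ℝ) * (w i).2),
      ((ρ i).2 : ℝ) * (w i).1 - ((ρ i).1 : ℝ) * (w i).2) := rfl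

/-- the transposed map -/
def tr (ρ u : ι → ℤ × ℤ) (a : ι → ℤ × ℤ) : ι → ℤ × ℤ := fun i =>
  (-(u i).1 * (a i).1 + (ρ i).2 * (a i).2, -(u i).2 * (a i).1 - (ρ i).1 * (a i).2)

theorem key_tr (ρ u : ι → ℤ × ℤ) (hu : ∀ i, (u i).1 * (ρ i).1 + (u i).2 * (ρ i).2 = 1)
    (a : ι → ℤ × ℤ) (i : ι) : key (ρ i) (tr ρ u a i) = KP.key 0 (a i) := by
  have h : key (ρ i) (tr ρ u a i) =
      ((u i).1 * (ρ i).1 + (u i).2 * (ρ i).2) * (a i).1 := by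
    simp only [key, tr]
    ring
  rw [h, hu i, one_mul]
  rfl

theorem pz_tr [Fintype ι] (ρ u : ι → ℤ × ℤ) (h : ι → ℝ) (a : ι → ℤ × ℤ) (v : ι → ℝ × ℝ) :
    pz h (tr ρ u a) v =
      ∑ i, h i * (((a i).1 : ℝ) * (gl ρ u v i).1 + ((a i).2 : ℝ) * (gl ρ u v i).2) := by
  unfold pz
  refine Finset.sum_congr rfl fun i _ => ?_
  simp only [tr, gl_apply]
  push_cast
  ring

theorem of_gl {ρ u : ι → ℤ × ℤ} (hu : ∀ i, (u i).1 * (ρ i).1 + (u i).2 * (ρ i).2 = 1)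
    {v : ι → ℝ × ℝ} {l : ι → ℝ} (h : gl ρ u v = KP.vec (fun _ => 0) l) : v = vec ρ l := by
  funext i
  have h1 : (-(((u i).1 : ℝ) * (v i).1 + ((u i).2 : ℝ) * (v i).2),
      ((ρ i).2 : ℝ) * (v i).1 - ((ρ i).1 : ℝ) * (v i).2) = l i • ((-1 : ℝ), (0 : ℝ)) :=
    congrFun h i
  have h2 : -(((u i).1 : ℝ) * (v i).1 + ((u i).2 : ℝ) * (v i).2) = -l i := by
    have := congrArg Prod.fst h1
    simpa using this
  have h3 : ((ρ i).2 : ℝ) * (v i).1 - ((ρ i).1 : ℝ) * (v i).2 = 0 := by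
    have := congrArg Prod.snd h1
    simpa using this
  have h4 : ((u i).1 : ℝ) * ((ρ i).1 : ℝ) + ((u i).2 : ℝ) * ((ρ i).2 : ℝ) = 1 := by
    exact_mod_cast hu i
  refine Prod.ext ?_ ?_
  · change (v i).1 = l i * ((ρ i).1 : ℝ)
    linear_combination (-(v i).1) * h4 - ((ρ i).1 : ℝ) * h2 + ((u i).2 : ℝ) * h3
  · change (v i).2 = l i * ((ρ i).2 : ℝ)
    linear_combination (-(v i).2) * h4 - ((ρ i).2 : ℝ) * h2 - ((u i).1 : ℝ) * h3

theorem abs_bd {p q a b : ℤ} {d : ℕ} {B H : ℝ} (ha : |a| ≤ d) (hb : |b| ≤ d)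
    (hB : |(p : ℝ)| + |(q : ℝ)| ≤ B) (hd : (d : ℝ) ≤ H) :
    |((p * a + q * b : ℤ) : ℝ)| ≤ B * H := by
  have h1 : |(a : ℝ)| ≤ d := by exact_mod_cast ha
  have h2 : |(b : ℝ)| ≤ d := by exact_mod_cast hb
  have h0 : (0 : ℝ) ≤ d := Nat.cast_nonneg d
  push_cast
  calc |(p : ℝ) * a + q * b| ≤ |(p : ℝ) * a| + |(q : ℝ) * b| := abs_add_le _ _
    _ = |(p : ℝ)| * |(a : ℝ)| + |(q : ℝ)| * |(b : ℝ)| := by rw [abs_mul, abs_mul]
    _ ≤ |(p : ℝ)| * d + |(q : ℝ)| * d := by gcongr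
    _ = (|(p : ℝ)| + |(q : ℝ)|) * d := by ring
    _ ≤ B * d := by gcongr
    _ ≤ B * H := by
      have : 0 ≤ B := le_trans (by positivity) hB
      gcongr

end CharsK

open CharsK in
theorem chars {ι : Type} [Fintype ι] [DecidableEq ι] (F : Submodule ℝ (ι → ℝ × ℝ)) (x : ℕ)
    (ρ : ι → ℤ × ℤ) (hρ : ∀ i, IsCoprime (ρ i).1 (ρ i).2)
    (hF : finrank ℝ (F ⊓ cel Finset.univ ρ : Submodule ℝ _) ≤ x) :
    ∃ a B : ℝ, 0 < a ∧ 1 ≤ B ∧ ∀ κ : ℝ, 0 < κ → κ ≤ 1 → ∃ η : ℝ, 0 < η ∧ ∀ h : ι → ℝ,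
      (∀ i, 0 < h i ∧ h i ≤ η) →
      ∃ s : Finset (ι → ℤ × ℤ), (∀ a ∈ s, EB h B a) ∧
        (∀ a ∈ s, ∀ f ∈ F, |pz h a f| ≤ κ * ‖f‖) ∧
        Set.InjOn (fun (a : ι → ℤ × ℤ) i => key (ρ i) (a i)) s ∧
        a * κ ^ x * ∏ i, (h i)⁻¹ ≤ s.card := by
  obtain ⟨u, hu⟩ : ∃ u : ι → ℤ × ℤ, ∀ i, (u i).1 * (ρ i).1 + (u i).2 * (ρ i).2 = 1 := by
    choose p q hpq using hρ
    exact ⟨fun i => (p i, q i), hpq⟩
  have hF' : finrank ℝ (F.map (gl ρ u) ⊓ KP.cel Finset.univ (fun _ => 0) : Submodule ℝ _) ≤ x := by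
    have h1 : F.map (gl ρ u) ⊓ KP.cel Finset.univ (fun _ => 0) ≤
        (F ⊓ cel Finset.univ ρ).map (gl ρ u) := by
      rintro w ⟨⟨v, hv, rfl⟩, h2⟩
      obtain ⟨l, -, h3⟩ := KP.mem_cel.1 h2
      refine ⟨v, ⟨hv, ?_⟩, rfl⟩
      exact mem_cel.2 ⟨l, fun i hi => absurd (Finset.mem_univ i) hi, of_gl hu h3⟩
    exact (Submodule.finrank_mono h1).trans ((Submodule.finrank_map_le _ _).trans hF)
  obtain ⟨a₀, ha₀, hch⟩ := AL.chars_ms (F.map (gl ρ u)) x (fun _ => 0) hF'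
  obtain ⟨c, hc1, hc⟩ : ∃ c : ℝ, 1 ≤ c ∧ ∀ v, ‖gl ρ u v‖ ≤ c * ‖v‖ := by
    let Ψ := LinearMap.toContinuousLinearMap (gl ρ u)
    refine ⟨‖Ψ‖ + 1, by linarith [norm_nonneg Ψ], ?_⟩
    intro v
    have h2 : ‖gl ρ u v‖ ≤ ‖Ψ‖ * ‖v‖ := Ψ.le_opNorm v
    nlinarith [norm_nonneg v]
  have hc0 : 0 < c := by linarith
  set B : ℝ := 1 + ∑ i, (|((u i).1 : ℝ)| + |((u i).2 : ℝ)| + |((ρ i).1 : ℝ)| + |((ρ i).2 : ℝ)|)
    with hB
  have hBi : ∀ i, |((u i).1 : ℝ)| + |((u i).2 : ℝ)| + |((ρ i).1 : ℝ)| + |((ρ i).2 : ℝ)| ≤ B := by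
    intro i
    have h1 := Finset.single_le_sum (f := fun i => |((u i).1 : ℝ)| + |((u i).2 : ℝ)| +
      |((ρ i).1 : ℝ)| + |((ρ i).2 : ℝ)|) (fun j _ => by positivity) (Finset.mem_univ i)
    rw [hB]
    linarith
  have hB1 : 1 ≤ B := by
    have h1 : 0 ≤ ∑ i, (|((u i).1 : ℝ)| + |((u i).2 : ℝ)| + |((ρ i).1 : ℝ)| + |((ρ i).2 : ℝ)|) :=
      Finset.sum_nonneg fun i _ => by positivity
    rw [hB]
    linarith
  refine ⟨a₀ * (1 / c) ^ x, B, by positivity, hB1, ?_⟩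
  intro κ hκ0 hκ1
  obtain ⟨η, hη, hs⟩ := hch (κ / c) (by positivity) (by
    rw [div_le_one hc0]
    linarith)
  refine ⟨η, hη, ?_⟩
  intro h hh
  obtain ⟨s, hs1, hs2, hs3, hs4⟩ := hs h hh
  have hinj : Set.InjOn (tr ρ u) s := by
    intro a ha b hb hab
    apply hs3 ha hb
    funext i
    change KP.key 0 (a i) = KP.key 0 (b i)
    rw [← key_tr ρ u hu a i, ← key_tr ρ u hu b i, hab]
  refine ⟨s.image (tr ρ u), ?_, ?_, ?_, ?_⟩
  · intro a' ha' i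
    obtain ⟨a, ha, rfl⟩ := Finset.mem_image.1 ha'
    have h1 := hs1 a ha i
    have h2 : ((AL.dg (h i) : ℕ) : ℝ) ≤ (h i)⁻¹ :=
      Nat.floor_le (inv_nonneg.2 (hh i).1.le)
    have h3 := hBi i
    have h4 := abs_nonneg ((u i).1 : ℝ)
    have h5 := abs_nonneg ((u i).2 : ℝ)
    have h6 := abs_nonneg ((ρ i).1 : ℝ)
    have h7 := abs_nonneg ((ρ i).2 : ℝ)
    constructor
    · refine abs_bd (p := -(u i).1) (q := (ρ i).2) h1.1 h1.2 ?_ h2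
      push_cast
      rw [abs_neg]
      linarith
    · have h8 : (tr ρ u a i).2 = -(u i).2 * (a i).1 + -(ρ i).1 * (a i).2 := by
        simp only [tr]
        ring
      rw [h8]
      refine abs_bd (p := -(u i).2) (q := -(ρ i).1) h1.1 h1.2 ?_ h2
      push_cast
      rw [abs_neg, abs_neg]
      linarith
  · intro a' ha' f hf
    obtain ⟨a, ha, rfl⟩ := Finset.mem_image.1 ha'
    rw [pz_tr]
    refine (hs2 a ha (gl ρ u f) (Submodule.mem_map_of_mem hf)).trans ?_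
    calc κ / c * ‖gl ρ u f‖ ≤ κ / c * (c * ‖f‖) := by
          have := hc f
          gcongr
      _ = κ * ‖f‖ := by field_simp
  · intro a' ha' b' hb' hab
    obtain ⟨a, ha, rfl⟩ := Finset.mem_image.1 (Finset.mem_coe.1 ha')
    obtain ⟨b, hb, rfl⟩ := Finset.mem_image.1 (Finset.mem_coe.1 hb')
    have h1 : a = b := by
      apply hs3 ha hb
      funext i
      have h2 := congrFun hab i
      simp only [key_tr ρ u hu] at h2
      exact h2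
    rw [h1]
  · rw [Finset.card_image_of_injOn hinj]
    refine le_trans (le_of_eq ?_) hs4
    rw [div_pow κ, div_pow, one_pow]
    ring

end Pool.Agent.PC
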