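import Pool.Agent.Lib.MP_c95b3b_ag_PC.DefsK
import Pool.Agent.Lib.MP_c95b3b_ag_AL.MA

/-! Project PC, module KE: the number of the conditions at a bad cell. -/

namespace Pool.Agent.PC

open Pool.Agent.L3 Module

/-- numbering of a finite set -/
private theorem CountK_index {α : Type} (s : Finset α) :
    ∃ f : α → ℕ, (∀ x ∈ s, f x < s.card) ∧ ∀ x ∈ s, ∀ y ∈ s, f x = f y → x = y := by
  classical
  refine ⟨fun x => if h : x ∈ s then (s.equivFin ⟨x, h⟩ : ℕ) else 0, ?_, ?_⟩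
  · intro x hx
    simp only [dif_pos hx]
    exact (s.equivFin ⟨x, hx⟩).2
  · intro x hx y hy hxy
    simp only [dif_pos hx, dif_pos hy] at hxy
    have h1 := s.equivFin.injective (Fin.ext hxy)
    exact congrArg Subtype.val h1

open Classical in
theorem count_kil {ι : Type} [Fintype ι] [DecidableEq ι] (F : Submodule ℝ (ι → ℝ × ℝ)) (x : ℕ)
    (R : Finset ι) (ρ : ι → ℤ × ℤ) (hρ : ∀ i, IsCoprime (ρ i).1 (ρ i).2)
    (h2 : x < finrank ℝ (F ⊓ cel R ρ : Submodule ℝ _)) (B : ℝ) (hB : 1 ≤ B) :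
    ∃ C : ℝ, 0 < C ∧ ∀ (h : ι → ℝ) (t : ℝ) (Z : ι → Finset (ℤ × ℤ)) (T : ι → ℤ),
      (∀ i, 0 < h i ∧ h i ≤ t ∧ h i ≤ 1) →
      (∀ i, ∀ τ ∈ Z i, |((key (ρ i) τ : ℤ) : ℝ)| ≤ B * (h i)⁻¹) →
      (∀ i, ((Z i).card : ℝ) ≤ B * (h i)⁻¹) →
      (∀ i ∈ R, ∀ α : ℤ, α < T i → (((Z i).filter fun τ => key (ρ i) τ = α).card : ℝ) ≤ B) →
      ((((Fintype.piFinset Z).filter fun τ : ι → ℤ × ℤ => (∀ i ∈ R, key (ρ i) (τ i) < T i) ∧
        ∀ w ∈ wsp F R ρ, |∑ i, h i * ((key (ρ i) (τ i) : ℤ) : ℝ) * w i| ≤ t * ‖w‖).card : ℕ) : ℝ)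
          ≤ C * t ^ (x + 1) * ∏ i, (h i)⁻¹ := by
  obtain ⟨A, hA0, hA⟩ := Pool.Agent.AL.count_ms (wsp F R ρ) (x + 1)
    (by rw [finrank_wsp F R hρ]; exact h2)
  set c : ℝ := 2 * B + 4 with hc
  have hc5 : 5 ≤ c := by rw [hc]; linarith
  have hc0 : 0 < c := by linarith
  set n : ℕ := ⌊B⌋₊ with hn
  have hn1 : 1 ≤ n := by
    rw [hn]
    exact Nat.le_floor (by exact_mod_cast hB)
  have hn0 : (0 : ℝ) < n := by exact_mod_cast hn1
  refine ⟨(n : ℝ) ^ Fintype.card ι * (A * (c / 5) ^ Fintype.card ι), by positivity,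
    fun h t Z T hh hZ hZc hfib => ?_⟩
  set A₀ := (Fintype.piFinset Z).filter fun τ : ι → ℤ × ℤ => (∀ i ∈ R, key (ρ i) (τ i) < T i) ∧
        ∀ w ∈ wsp F R ρ, |∑ i, h i * ((key (ρ i) (τ i) : ℤ) : ℝ) * w i| ≤ t * ‖w‖ with hA₀
  have hmemZ : ∀ τ ∈ A₀, ∀ i, τ i ∈ Z i := fun τ hτ =>
    Fintype.mem_piFinset.1 (Finset.mem_filter.1 hτ).1
  choose idx hidx1 hidx2 using fun i => CountK_index (Z i)
  let K : ι → ℕ := fun i => ⌈B * (h i)⁻¹⌉₊
  have hK : ∀ i, B * (h i)⁻¹ ≤ (K i : ℝ) := fun i => Nat.le_ceil _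
  have hK' : ∀ i, (K i : ℝ) ≤ B * (h i)⁻¹ + 1 := fun i =>
    (Nat.ceil_lt_add_one (mul_nonneg (by linarith) (inv_pos.2 (hh i).1).le)).le
  let D : ι → ℕ := fun i => if i ∈ R then 2 * K i else (Z i).card
  let sh : ι → ℝ := fun i => if i ∈ R then (K i : ℝ) else 0
  let φ : (ι → ℤ × ℤ) → (ι → ℕ) := fun τ i =>
    if i ∈ R then (key (ρ i) (τ i) + K i).toNat else idx i (τ i)
  -- the integers `key + K`
  have hint : ∀ i, ∀ σ ∈ Z i, 0 ≤ key (ρ i) σ + K i ∧ key (ρ i) σ + K i ≤ 2 * K i := by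
    intro i σ hσ
    have h1 := abs_le.1 ((hZ i σ hσ).trans (hK i))
    have h3 : (-(K i : ℤ)) ≤ key (ρ i) σ := by exact_mod_cast h1.1
    have h4 : key (ρ i) σ ≤ (K i : ℤ) := by exact_mod_cast h1.2
    constructor <;> linarith
  have hφR : ∀ τ ∈ A₀, ∀ i ∈ R, ((φ τ i : ℕ) : ℤ) = key (ρ i) (τ i) + K i := by
    intro τ hτ i hi
    have h1 : φ τ i = (key (ρ i) (τ i) + K i).toNat := if_pos hi
    rw [h1]
    exact Int.toNat_of_nonneg (hint i _ (hmemZ τ hτ i)).1
  have hφR' : ∀ τ ∈ A₀, ∀ i ∈ R, ((φ τ i : ℕ) : ℝ) - K i = ((key (ρ i) (τ i) : ℤ) : ℝ) := by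
    intro τ hτ i hi
    have h1 := hφR τ hτ i hi
    have h3 : ((φ τ i : ℕ) : ℝ) = ((key (ρ i) (τ i) : ℤ) : ℝ) + K i := by exact_mod_cast h1
    rw [h3]
    ring
  have hφN : ∀ (τ : ι → ℤ × ℤ) (i : ι), i ∉ R → φ τ i = idx i (τ i) := fun τ i hi => if_neg hi
  -- the fibres
  have hfibre : ∀ d ∈ A₀.image φ, (A₀.filter fun τ => φ τ = d).card ≤ n ^ Fintype.card ι := by
    intro d hd
    obtain ⟨τ₀, hτ₀, rfl⟩ := Finset.mem_image.1 hd
    have hle : (A₀.filter fun τ => φ τ = φ τ₀).card ≤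
        (Fintype.piFinset fun i : ι => if i ∈ R then
          (Z i).filter (fun σ => key (ρ i) σ = key (ρ i) (τ₀ i)) else {τ₀ i}).card := by
      refine Finset.card_le_card ?_
      intro τ hτ
      obtain ⟨hτ1, hτ2⟩ := Finset.mem_filter.1 hτ
      rw [Fintype.mem_piFinset]
      intro i
      by_cases hi : i ∈ R
      · rw [if_pos hi, Finset.mem_filter]
        refine ⟨hmemZ τ hτ1 i, ?_⟩
        have h1 := hφR τ hτ1 i hi
        have h3 := hφR τ₀ hτ₀ i hi
        rw [hτ2] at h1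
        linarith
      · rw [if_neg hi, Finset.mem_singleton]
        have h1 := congrFun hτ2 i
        rw [hφN τ i hi, hφN τ₀ i hi] at h1
        exact hidx2 i _ (hmemZ τ hτ1 i) _ (hmemZ τ₀ hτ₀ i) h1
    refine hle.trans ?_
    rw [Fintype.card_piFinset]
    refine (Finset.prod_le_prod' (fun i _ => ?_ : ∀ i ∈ (Finset.univ : Finset ι), _ ≤ n)).trans ?_
    · by_cases hi : i ∈ R
      · rw [if_pos hi, hn]
        exact Nat.le_floor (hfib i hi _ ((Finset.mem_filter.1 hτ₀).2.1 i hi))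
      · rw [if_neg hi, Finset.card_singleton]
        exact hn1
    · rw [Finset.prod_const, Finset.card_univ]
  have hmain := Finset.card_le_mul_card_image A₀ (n ^ Fintype.card ι) hfibre
  -- the image
  have hcount := hA (fun i => 5 / c * h i) t D sh
    (fun i => ⟨by have := (hh i).1; positivity, by
      have h1 := (hh i).1
      have h3 : 5 / c ≤ 1 := by rw [div_le_one hc0]; exact hc5
      calc 5 / c * h i ≤ 1 * h i := mul_le_mul_of_nonneg_right h3 h1.le
        _ = h i := one_mul _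
        _ ≤ t := (hh i).2.1⟩)
    (fun i => by
      have h1 := (hh i).1
      have h3 := (hh i).2.2
      have h4 : ((D i : ℝ) + 1) * h i ≤ c := by
        by_cases hi : i ∈ R
        · have h5 : D i = 2 * K i := if_pos hi
          rw [h5]
          push_cast
          have h6 := hK' i
          calc (2 * (K i : ℝ) + 1) * h i ≤ (2 * (B * (h i)⁻¹ + 1) + 1) * h i :=
                mul_le_mul_of_nonneg_right (by linarith) h1.le
            _ = 2 * B * ((h i)⁻¹ * h i) + 3 * h i := by ring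
            _ = 2 * B + 3 * h i := by rw [inv_mul_cancel₀ h1.ne', mul_one]
            _ ≤ c := by rw [hc]; linarith
        · have h5 : D i = (Z i).card := if_neg hi
          rw [h5]
          calc (((Z i).card : ℝ) + 1) * h i ≤ (B * (h i)⁻¹ + 1) * h i :=
                mul_le_mul_of_nonneg_right (by linarith [hZc i]) h1.le
            _ = B * ((h i)⁻¹ * h i) + h i := by ring
            _ = B + h i := by rw [inv_mul_cancel₀ h1.ne', mul_one]
            _ ≤ c := by rw [hc]; linarith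
      calc ((D i : ℝ) + 1) * (5 / c * h i) = 5 / c * (((D i : ℝ) + 1) * h i) := by ring
        _ ≤ 5 / c * c := mul_le_mul_of_nonneg_left h4 (by positivity)
        _ = 5 := by field_simp)
  have himg : ((A₀.image φ).card : ℝ) ≤ A * t ^ (x + 1) * ∏ i, (5 / c * h i)⁻¹ := by
    refine le_trans ?_ hcount
    norm_cast
    refine Finset.card_le_card ?_
    intro d hd
    obtain ⟨τ, hτ, rfl⟩ := Finset.mem_image.1 hd
    refine Finset.mem_filter.2 ⟨?_, ?_⟩
    · refine (@Fintype.mem_piFinset ι (fun a b => Classical.propDecidable (a = b)) _ _ _ _).2 ?_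
      intro i
      rw [Finset.mem_range]
      by_cases hi : i ∈ R
      · have h5 : D i = 2 * K i := if_pos hi
        have h1 := hφR τ hτ i hi
        have h3 := (hint i _ (hmemZ τ hτ i)).2
        rw [h5]
        rw [← h1] at h3
        have h4 : φ τ i ≤ 2 * K i := by exact_mod_cast h3
        omega
      · have h5 : D i = (Z i).card := if_neg hi
        rw [h5, hφN τ i hi]
        have := hidx1 i _ (hmemZ τ hτ i)
        omega
    · intro w hw
      have hw0 := (mem_wsp hρ hw).2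
      have h1 := (Finset.mem_filter.1 hτ).2.2 w hw
      have h3 : ∑ i, 5 / c * h i * (((φ τ i : ℕ) : ℝ) - sh i) * w i =
          5 / c * ∑ i, h i * ((key (ρ i) (τ i) : ℤ) : ℝ) * w i := by
        rw [Finset.mul_sum]
        refine Finset.sum_congr rfl fun i _ => ?_
        by_cases hi : i ∈ R
        · have h5 : sh i = (K i : ℝ) := if_pos hi
          rw [h5, hφR' τ hτ i hi]
          ring
        · rw [hw0 i hi]
          ring
      have h4 : |∑ i, 5 / c * h i * (((φ τ i : ℕ) : ℝ) - sh i) * w i| ≤ t * ‖w‖ := by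
        rw [h3, abs_mul, abs_of_pos (by positivity : (0 : ℝ) < 5 / c)]
        have h5 : 5 / c ≤ 1 := by rw [div_le_one hc0]; exact hc5
        calc 5 / c * |∑ i, h i * ((key (ρ i) (τ i) : ℤ) : ℝ) * w i|
            ≤ 1 * |∑ i, h i * ((key (ρ i) (τ i) : ℤ) : ℝ) * w i| :=
              mul_le_mul_of_nonneg_right h5 (abs_nonneg _)
          _ = |∑ i, h i * ((key (ρ i) (τ i) : ℤ) : ℝ) * w i| := one_mul _
          _ ≤ t * ‖w‖ := h1
      exact h4
  have hprod : ∏ i, (5 / c * h i)⁻¹ = (c / 5) ^ Fintype.card ι * ∏ i, (h i)⁻¹ := by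
    calc ∏ i, (5 / c * h i)⁻¹ = ∏ i : ι, (c / 5 * (h i)⁻¹) := by
          refine Finset.prod_congr rfl fun i _ => ?_
          rw [mul_inv, inv_div]
      _ = _ := by rw [Finset.prod_mul_distrib, Finset.prod_const, Finset.card_univ]
  have hmain' : (A₀.card : ℝ) ≤ (n : ℝ) ^ Fintype.card ι * ((A₀.image φ).card : ℝ) := by
    exact_mod_cast hmain
  calc (A₀.card : ℝ) ≤ (n : ℝ) ^ Fintype.card ι * ((A₀.image φ).card : ℝ) := hmain'
    _ ≤ (n : ℝ) ^ Fintype.card ι * (A * t ^ (x + 1) * ∏ i, (5 / c * h i)⁻¹) :=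
        mul_le_mul_of_nonneg_left himg (by positivity)
    _ = _ := by rw [hprod]; ring

end Pool.Agent.PC
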