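import Pool.Agent.Lib.MP_c95b3b_ag_PC.DefsK

/-! Project PC, module KB: expansion of the characters at a ray of the curve. -/

namespace Pool.Agent.PC

open MvPolynomial

/-! ### Expansions in the coordinates `s`, `X` -/

/-- distance from the interval `[0, l)` -/
def ExD (l r : ℤ) : ℤ := max 0 (max (r - l + 1) (-r))

/-- the data of the curve in the coordinates `s`, `X` -/
structure ExDat {ι : Type} (I : Finset ι) (w m r : ι → ℤ) (b₀ b₁ : ι) (l d c₀ : ℤ) : Prop where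
  h0 : b₀ ∈ I
  h1 : b₁ ∈ I
  m0 : m b₀ = 0
  m1 : m b₁ = 0
  r0 : r b₀ = 0
  r1 : r b₁ = l
  l1 : 1 ≤ l
  mn : ∀ b ∈ I, 0 ≤ m b
  md : ∀ b ∈ I, m b ≤ d
  rc : ∀ b ∈ I, |r b| ≤ c₀
  edge : ∀ b ∈ I, m b = 0 → 0 ≤ r b ∧ r b ≤ l
  e0 : ∀ b ∈ I, m b = 0 → r b = 0 → b = b₀
  e1 : ∀ b ∈ I, m b = 0 → r b = l → b = b₁

/-- the equation of the curve -/
def ExRel {ι : Type} (I : Finset ι) (w m r : ι → ℤ) {A : Type} [CommRing A] (s X : Aˣ) : Prop :=
  ∑ b ∈ I, (w b : A) * ((s ^ m b * X ^ r b : Aˣ) : A) = 0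

/-- the exponents of the expansions -/
def ExZ (T l d B : ℤ) (p : ℤ × ℤ) : Prop :=
  (p.1 < T ∧ 0 ≤ p.2 ∧ p.2 < l) ∨ (T ≤ p.1 ∧ p.1 ≤ T + d ∧ |p.2| ≤ B)

/-- the monomials -/
noncomputable def ExM {A : Type} [CommRing A] (s X : Aˣ) (p : ℤ × ℤ) : A :=
  ((s ^ p.1 * X ^ p.2 : Aˣ) : A)

/-- `D ^ Φ * s ^ p.1 * X ^ p.2` has an expansion -/
def ExOK {ι : Type} (I : Finset ι) (w m r : ι → ℤ) (T l d B L₀ D : ℤ) (Φ : ℕ) (p : ℤ × ℤ) :
    Prop :=
  ∃ e : ℤ × ℤ →₀ ℤ, (∀ q, |e q| ≤ L₀ ^ Φ) ∧ (∀ q, e q ≠ 0 → p.1 ≤ q.1 ∧ ExZ T l d B q) ∧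
    ∀ (A : Type) [CommRing A] (s X : Aˣ), ExRel I w m r s X →
      ((D ^ Φ : ℤ) : A) * ExM s X p = Finsupp.linearCombination ℤ (ExM (A := A) s X) e

theorem ExM_mul {A : Type} [CommRing A] (s X : Aˣ) (p q : ℤ × ℤ) :
    ExM s X p * ExM s X q = ExM s X (p + q) := by
  unfold ExM
  rw [← Units.val_mul]
  congr 1
  rw [Prod.fst_add, Prod.snd_add, zpow_add, zpow_add]
  exact mul_mul_mul_comm _ _ _ _

theorem ExOK_self {ι : Type} {I : Finset ι} {w m r : ι → ℤ} {T l d B L₀ D : ℤ}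
    (hD : |D| ≤ L₀) (Φ : ℕ) {p : ℤ × ℤ} (hp : ExZ T l d B p) :
    ExOK I w m r T l d B L₀ D Φ p := by
  classical
  refine ⟨Finsupp.single p (D ^ Φ), fun q => ?_, fun q hq => ?_, fun A _ s X _ => ?_⟩
  · rw [Finsupp.single_apply]
    split_ifs
    · rw [abs_pow]
      exact pow_le_pow_left₀ (abs_nonneg _) hD _
    · rw [abs_zero]
      exact pow_nonneg ((abs_nonneg _).trans hD) _
  · rw [Finsupp.single_apply] at hq
    split_ifs at hq with h
    · subst h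
      exact ⟨le_rfl, hp⟩
    · exact absurd rfl hq
  · rw [Finsupp.linearCombination_single, zsmul_eq_mul]

theorem ExOK_step {ι : Type} {I : Finset ι} {w m r : ι → ℤ} {T l d B L₀ D : ℤ} {Φ : ℕ}
    {p : ℤ × ℤ} {c : ι} (hc : c ∈ I) (hmc : m c = 0) (hm : ∀ b ∈ I, 0 ≤ m b) {w' : ℤ}
    (hD : D = w' * w c) (hL : |w'| * ∑ b ∈ I, |w b| ≤ L₀)
    (h : ∀ b ∈ I, b ≠ c → ExOK I w m r T l d B L₀ D Φ (p.1 + m b, p.2 - r c + r b)) :
    ExOK I w m r T l d B L₀ D (Φ + 1) p := by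
  classical
  have hL0 : 0 ≤ L₀ := (mul_nonneg (abs_nonneg _) (Finset.sum_nonneg fun _ _ => abs_nonneg _)).trans
    hL
  have hch : ∀ b, ∃ e : ℤ × ℤ →₀ ℤ, b ∈ I.erase c → (∀ q, |e q| ≤ L₀ ^ Φ) ∧
      (∀ q, e q ≠ 0 → p.1 + m b ≤ q.1 ∧ ExZ T l d B q) ∧
      ∀ (A : Type) [CommRing A] (s X : Aˣ), ExRel I w m r s X →
        ((D ^ Φ : ℤ) : A) * ExM s X (p.1 + m b, p.2 - r c + r b) =
          Finsupp.linearCombination ℤ (ExM (A := A) s X) e := by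
    intro b
    by_cases hb : b ∈ I.erase c
    · obtain ⟨e, he⟩ := h b (Finset.mem_of_mem_erase hb) (Finset.ne_of_mem_erase hb)
      exact ⟨e, fun _ => he⟩
    · exact ⟨0, fun h => absurd h hb⟩
  choose e he using hch
  refine ⟨-∑ b ∈ I.erase c, (w' * w b) • e b, fun q => ?_, fun q hq => ?_, fun A _ s X hr => ?_⟩
  · rw [Finsupp.neg_apply, abs_neg, Finsupp.finsetSum_apply]
    refine (Finset.abs_sum_le_sum_abs _ _).trans ?_
    calc ∑ b ∈ I.erase c, |((w' * w b) • e b) q|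
        ≤ ∑ b ∈ I.erase c, |w'| * |w b| * L₀ ^ Φ := by
          refine Finset.sum_le_sum fun b hb => ?_
          rw [Finsupp.smul_apply, smul_eq_mul, abs_mul, abs_mul]
          exact mul_le_mul_of_nonneg_left ((he b hb).1 q)
            (mul_nonneg (abs_nonneg _) (abs_nonneg _))
      _ ≤ ∑ b ∈ I, |w'| * |w b| * L₀ ^ Φ := by
          refine Finset.sum_le_sum_of_subset_of_nonneg (Finset.erase_subset _ _) fun b _ _ => ?_
          exact mul_nonneg (mul_nonneg (abs_nonneg _) (abs_nonneg _)) (pow_nonneg hL0 _)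
      _ = |w'| * (∑ b ∈ I, |w b|) * L₀ ^ Φ := by
          rw [Finset.mul_sum, Finset.sum_mul]
      _ ≤ L₀ * L₀ ^ Φ := mul_le_mul_of_nonneg_right hL (pow_nonneg hL0 _)
      _ = L₀ ^ (Φ + 1) := (pow_succ' _ _).symm
  · rw [Finsupp.neg_apply, Finsupp.finsetSum_apply, neg_ne_zero] at hq
    obtain ⟨b, hb, hbq⟩ := Finset.exists_ne_zero_of_sum_ne_zero hq
    rw [Finsupp.smul_apply, smul_eq_mul] at hbq
    have h1 := (he b hb).2.1 q (right_ne_zero_of_mul hbq)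
    have h2 := hm b (Finset.mem_of_mem_erase hb)
    exact ⟨by omega, h1.2⟩
  · have h1 : (w c : A) * ExM s X p =
        -∑ b ∈ I.erase c, (w b : A) * ExM s X (p.1 + m b, p.2 - r c + r b) := by
      have h2 : (∑ b ∈ I, (w b : A) * ExM s X (m b, r b)) * ExM s X (p.1, p.2 - r c) = 0 := by
        have : ∑ b ∈ I, (w b : A) * ExM s X (m b, r b) = 0 := hr
        rw [this, zero_mul]
      rw [Finset.sum_mul, ← Finset.add_sum_erase _ _ hc] at h2
      have h3 : (w c : A) * ExM s X (m c, r c) * ExM s X (p.1, p.2 - r c) =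
          (w c : A) * ExM s X p := by
        rw [mul_assoc, ExM_mul, hmc]
        congr 2
        ext
        · simp
        · simp
      rw [h3] at h2
      rw [eq_neg_iff_add_eq_zero, ← h2]
      congr 1
      refine Finset.sum_congr rfl fun b _ => ?_
      rw [mul_assoc, ExM_mul]
      congr 2
      ext
      · exact add_comm _ _
      · show p.2 - r c + r b = r b + (p.2 - r c)
        exact add_comm _ _
    have h4 : ((D ^ (Φ + 1) : ℤ) : A) * ExM s X p =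
        (w' : A) * ((D ^ Φ : ℤ) : A) * ((w c : A) * ExM s X p) := by
      rw [pow_succ]
      have : ((D ^ Φ * D : ℤ) : A) = ((D ^ Φ : ℤ) : A) * ((w' : A) * (w c : A)) := by
        rw [Int.cast_mul]
        congr 1
        rw [hD, Int.cast_mul]
      rw [this]
      ring
    rw [h4, h1, map_neg, map_sum, mul_neg, Finset.mul_sum]
    congr 1
    refine Finset.sum_congr rfl fun b hb => ?_
    rw [map_smul, ← (he b hb).2.2 A s X hr, zsmul_eq_mul]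
    push_cast
    ring

theorem ExD_nonneg (l r : ℤ) : 0 ≤ ExD l r := le_max_left _ _

theorem ExOK_main {ι : Type} {I : Finset ι} {w m r : ι → ℤ} {b₀ b₁ : ι} {l d c₀ : ℤ}
    (h : ExDat I w m r b₀ b₁ l d c₀) {T B L₀ : ℤ} (hL0 : |w b₀ * w b₁| ≤ L₀)
    (hL1 : |w b₀| * ∑ b ∈ I, |w b| ≤ L₀) (hL2 : |w b₁| * ∑ b ∈ I, |w b| ≤ L₀) (Φ : ℕ) :
    (Φ : ℤ) + 2 * l + c₀ ≤ B → ∀ α ρ : ℤ,
      ((α < T ∧ ExD l ρ + (c₀ + 1) * (T - α) ≤ Φ) ∨ (T ≤ α ∧ α ≤ T + d ∧ |ρ| ≤ B)) →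
        ExOK I w m r T l d B L₀ (w b₀ * w b₁) Φ (α, ρ) := by
  have hc0 : 0 ≤ c₀ := (abs_nonneg _).trans (h.rc _ h.h0)
  induction Φ with
  | zero =>
    intro _ α ρ hα
    rcases hα with ⟨h1, h2⟩ | h1
    · exfalso
      have h3 : 1 ≤ (c₀ + 1) * (T - α) := by nlinarith
      have h4 := ExD_nonneg l ρ
      push_cast at h2
      omega
    · exact ExOK_self hL0 0 (Or.inr h1)
  | succ Φ ih =>
    intro hB α ρ hα
    push_cast at hB
    have ih' := ih (by omega)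
    rcases hα with ⟨h1, h2⟩ | h1
    swap
    · exact ExOK_self hL0 _ (Or.inr h1)
    push_cast at h2
    have h3 : 1 ≤ (c₀ + 1) * (T - α) := by nlinarith
    by_cases hz : 0 ≤ ρ ∧ ρ < l
    · exact ExOK_self hL0 _ (Or.inl ⟨h1, hz⟩)
    -- the common step
    have key : ∀ b ∈ I, ∀ c : ℤ, (c = 0 ∨ c = l) →
        (m b = 0 → ExD l (ρ - c + r b) + 1 ≤ ExD l ρ) →
        ExD l (ρ - c + r b) ≤ ExD l ρ + c₀ →
        ((α + m b < T ∧ ExD l (ρ - c + r b) + (c₀ + 1) * (T - (α + m b)) ≤ Φ) ∨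
          (T ≤ α + m b ∧ α + m b ≤ T + d ∧ |ρ - c + r b| ≤ B)) := by
      intro b hb c hcl hm0 hm1
      have g1 := h.mn b hb
      have g2 := h.md b hb
      have g3 := abs_le.1 (h.rc b hb)
      have hl := h.l1
      rcases lt_or_ge (α + m b) T with h5 | h5
      · left
        refine ⟨h5, ?_⟩
        rcases eq_or_lt_of_le g1 with h6 | h6
        · have h7 := hm0 h6.symm
          rw [← h6, add_zero]
          omega
        · have h8 : (c₀ + 1) * (T - (α + m b)) ≤ (c₀ + 1) * (T - α) - (c₀ + 1) := by nlinarith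
          omega
      · right
        refine ⟨h5, by omega, ?_⟩
        rw [abs_le]
        unfold ExD at h2
        constructor
        · rcases hcl with rfl | rfl <;> omega
        · rcases hcl with rfl | rfl <;> omega
    rcases lt_or_ge ρ l with hρ | hρ
    · -- `ρ < 0`, pivot `b₀`
      have hneg : ρ < 0 := by
        by_contra hcon
        exact hz ⟨by omega, hρ⟩
      refine ExOK_step h.h0 h.m0 h.mn (w' := w b₁) (mul_comm _ _) hL2 fun b hb hne => ?_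
      have g3 := abs_le.1 (h.rc b hb)
      have hl := h.l1
      show ExOK I w m r T l d B L₀ (w b₀ * w b₁) Φ (α + m b, ρ - r b₀ + r b)
      rw [h.r0]
      refine ih' _ _ (key b hb 0 (Or.inl rfl) (fun hm0 => ?_) ?_)
      · have g4 := h.edge b hb hm0
        have g5 : r b ≠ 0 := fun h0 => hne (h.e0 b hb hm0 h0)
        unfold ExD
        omega
      · unfold ExD
        omega
    · -- `l ≤ ρ`, pivot `b₁`
      refine ExOK_step h.h1 h.m1 h.mn (w' := w b₀) rfl hL1 fun b hb hne => ?_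
      have g3 := abs_le.1 (h.rc b hb)
      have hl := h.l1
      show ExOK I w m r T l d B L₀ (w b₀ * w b₁) Φ (α + m b, ρ - r b₁ + r b)
      rw [h.r1]
      refine ih' _ _ (key b hb l (Or.inr rfl) (fun hm0 => ?_) ?_)
      · have g4 := h.edge b hb hm0
        have g5 : r b ≠ l := fun h0 => hne (h.e1 b hb hm0 h0)
        unfold ExD
        omega
      · unfold ExD
        omega

/-! ### Change of the coordinates -/

/-- the second coordinate of an exponent -/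
def ExC (σ a : ℤ × ℤ) : ℤ := σ.1 * a.2 - σ.2 * a.1

/-- the exponent with given coordinates -/
def ExE (ρ σ p : ℤ × ℤ) : ℤ × ℤ := (p.1 * σ.1 + p.2 * ρ.2, p.1 * σ.2 - p.2 * ρ.1)

theorem key_ExE {ρ σ : ℤ × ℤ} (hσ : key ρ σ = 1) (p : ℤ × ℤ) : key ρ (ExE ρ σ p) = p.1 := by
  unfold key at *
  unfold ExE
  linear_combination p.1 * hσ

theorem ExC_ExE {ρ σ : ℤ × ℤ} (hσ : key ρ σ = 1) (p : ℤ × ℤ) : ExC σ (ExE ρ σ p) = p.2 := by
  unfold key at hσ
  unfold ExE ExC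
  linear_combination p.2 * hσ

theorem ExE_eta {ρ σ : ℤ × ℤ} (hσ : key ρ σ = 1) (a : ℤ × ℤ) :
    ExE ρ σ (key ρ a, ExC σ a) = a := by
  unfold key at *
  unfold ExE ExC
  ext
  · show -(a.1 * ρ.1 + a.2 * ρ.2) * σ.1 + (σ.1 * a.2 - σ.2 * a.1) * ρ.2 = a.1
    linear_combination a.1 * hσ
  · show -(a.1 * ρ.1 + a.2 * ρ.2) * σ.2 - (σ.1 * a.2 - σ.2 * a.1) * ρ.1 = a.2
    linear_combination a.2 * hσ

theorem ExM_coord {A : Type} [CommRing A] (x y : Aˣ) (ρ σ p : ℤ × ℤ) :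
    ExM (x ^ σ.1 * y ^ σ.2) (x ^ ρ.2 * y ^ (-ρ.1)) p =
      ((x ^ (ExE ρ σ p).1 * y ^ (ExE ρ σ p).2 : Aˣ) : A) := by
  unfold ExM ExE
  congr 1
  rw [mul_zpow, mul_zpow, ← zpow_mul, ← zpow_mul, ← zpow_mul, ← zpow_mul, mul_mul_mul_comm,
    ← zpow_add, ← zpow_add]
  congr 2
  · ring
  · ring

/-- exponents of polynomials as pairs of integers -/
def ExP (b : Fin 2 →₀ ℕ) : ℤ × ℤ := ((b 0 : ℤ), (b 1 : ℤ))

theorem ExP_inj {b c : Fin 2 →₀ ℕ} (h : ExP b = ExP c) : b = c := by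
  have h0 : (b 0 : ℤ) = c 0 := congrArg Prod.fst h
  have h1 : (b 1 : ℤ) = c 1 := congrArg Prod.snd h
  ext i
  fin_cases i
  · exact_mod_cast h0
  · exact_mod_cast h1

theorem ExP_eq {ρ σ : ℤ × ℤ} (hσ : key ρ σ = 1) {b c : Fin 2 →₀ ℕ}
    (hk : key ρ (ExP b) = key ρ (ExP c)) (hx : ExC σ (ExP b) = ExC σ (ExP c)) : b = c := by
  apply ExP_inj
  rw [← ExE_eta hσ (ExP b), ← ExE_eta hσ (ExP c), hk, hx]

theorem ExRel_of {f : MvPolynomial (Fin 2) ℤ} {ρ σ : ℤ × ℤ} (hσ : key ρ σ = 1) (k₀ x₀ : ℤ)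
    {A : Type} [CommRing A] (x y : Aˣ) (h : aeval ![(x : A), (y : A)] f = 0) :
    ExRel f.support (fun b => f.coeff b) (fun b => key ρ (ExP b) - k₀)
      (fun b => ExC σ (ExP b) - x₀) (x ^ σ.1 * y ^ σ.2) (x ^ ρ.2 * y ^ (-ρ.1)) := by
  have h1 : aeval ![(x : A), (y : A)] f = ∑ b ∈ f.support, ((f.coeff b : ℤ) : A) *
      ((x ^ (ExP b).1 * y ^ (ExP b).2 : Aˣ) : A) := by
    rw [aeval_def, eval₂_eq']
    refine Finset.sum_congr rfl fun b _ => ?_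
    rw [Fin.prod_univ_two]
    simp [ExP]
  unfold ExRel
  have h2 : ∀ b : Fin 2 →₀ ℕ, (((x ^ σ.1 * y ^ σ.2) ^ (key ρ (ExP b) - k₀) *
      (x ^ ρ.2 * y ^ (-ρ.1)) ^ (ExC σ (ExP b) - x₀) : Aˣ) : A) =
      ((x ^ (ExP b).1 * y ^ (ExP b).2 : Aˣ) : A) *
        ExM (x ^ σ.1 * y ^ σ.2) (x ^ ρ.2 * y ^ (-ρ.1)) (-k₀, -x₀) := by
    intro b
    have h3 : ExM (x ^ σ.1 * y ^ σ.2) (x ^ ρ.2 * y ^ (-ρ.1)) (key ρ (ExP b), ExC σ (ExP b)) =
        ((x ^ (ExP b).1 * y ^ (ExP b).2 : Aˣ) : A) := by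
      rw [ExM_coord, ExE_eta hσ]
    rw [← h3, ExM_mul]
    rfl
  rw [Finset.sum_congr rfl fun b _ => by rw [h2 b, ← mul_assoc], ← Finset.sum_mul, ← h1, h,
    zero_mul]

theorem expand_data (f : MvPolynomial (Fin 2) ℤ) (ρ σ : ℤ × ℤ) (hσ : key ρ σ = 1)
    (hρ : IsEdge f ρ) :
    ∃ (k₀ x₀ : ℤ) (b₀ b₁ : Fin 2 →₀ ℕ) (l d c₀ : ℤ), f.coeff b₀ ≠ 0 ∧ f.coeff b₁ ≠ 0 ∧
      ExDat f.support (fun b => f.coeff b) (fun b => key ρ (ExP b) - k₀)
        (fun b => ExC σ (ExP b) - x₀) b₀ b₁ l d c₀ := by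
  classical
  obtain ⟨a, ha, b, hb, hab, heq, hmax⟩ := hρ
  obtain ⟨I, hI⟩ : ∃ I, I = f.support.filter fun c => key ρ (ExP c) = key ρ (ExP a) := ⟨_, rfl⟩
  have haI : a ∈ I := by
    rw [hI]
    exact Finset.mem_filter.2 ⟨ha, rfl⟩
  have hbI : b ∈ I := by
    rw [hI]
    refine Finset.mem_filter.2 ⟨hb, ?_⟩
    unfold key ExP
    show -((b 0 : ℤ) * ρ.1 + (b 1 : ℤ) * ρ.2) = -((a 0 : ℤ) * ρ.1 + (a 1 : ℤ) * ρ.2)
    linarith
  have hkey : ∀ c ∈ f.support, key ρ (ExP a) ≤ key ρ (ExP c) := by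
    intro c hc
    have := hmax c hc
    unfold key ExP
    show -((a 0 : ℤ) * ρ.1 + (a 1 : ℤ) * ρ.2) ≤ -((c 0 : ℤ) * ρ.1 + (c 1 : ℤ) * ρ.2)
    linarith
  obtain ⟨b₀, hb₀, hmin₀⟩ := Finset.exists_min_image I (fun c => ExC σ (ExP c)) ⟨a, haI⟩
  obtain ⟨b₁, hb₁, hmax₁⟩ := Finset.exists_max_image I (fun c => ExC σ (ExP c)) ⟨a, haI⟩
  have hmem : ∀ c, c ∈ I ↔ c ∈ f.support ∧ key ρ (ExP c) = key ρ (ExP a) := by
    intro c
    rw [hI, Finset.mem_filter]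
  have hs₀ := (hmem b₀).1 hb₀
  have hs₁ := (hmem b₁).1 hb₁
  have hne : ExC σ (ExP a) ≠ ExC σ (ExP b) := fun h =>
    hab (ExP_eq hσ ((hmem b).1 hbI).2.symm h)
  have h1 := hmin₀ a haI
  have h2 := hmin₀ b hbI
  have h3 := hmax₁ a haI
  have h4 := hmax₁ b hbI
  refine ⟨key ρ (ExP a), ExC σ (ExP b₀), b₀, b₁, ExC σ (ExP b₁) - ExC σ (ExP b₀),
    ∑ c ∈ f.support, |key ρ (ExP c) - key ρ (ExP a)|,
    ∑ c ∈ f.support, |ExC σ (ExP c) - ExC σ (ExP b₀)|,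
    mem_support_iff.1 hs₀.1, mem_support_iff.1 hs₁.1, ?_⟩
  refine ⟨hs₀.1, hs₁.1, ?_, ?_, ?_, ?_, ?_, ?_, ?_, ?_, ?_, ?_, ?_⟩
  · show key ρ (ExP b₀) - key ρ (ExP a) = 0
    rw [hs₀.2, sub_self]
  · show key ρ (ExP b₁) - key ρ (ExP a) = 0
    rw [hs₁.2, sub_self]
  · exact sub_self _
  · rfl
  · omega
  · intro c hc
    exact sub_nonneg.2 (hkey c hc)
  · intro c hc
    exact (le_abs_self _).trans (Finset.single_le_sum
      (f := fun c => |key ρ (ExP c) - key ρ (ExP a)|) (fun _ _ => abs_nonneg _) hc)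
  · intro c hc
    exact Finset.single_le_sum
      (f := fun c => |ExC σ (ExP c) - ExC σ (ExP b₀)|) (fun _ _ => abs_nonneg _) hc
  · intro c hc hm
    have hcI : c ∈ I := (hmem c).2 ⟨hc, sub_eq_zero.1 hm⟩
    have g1 := hmin₀ c hcI
    have g2 := hmax₁ c hcI
    constructor
    · show 0 ≤ ExC σ (ExP c) - ExC σ (ExP b₀)
      omega
    · show ExC σ (ExP c) - ExC σ (ExP b₀) ≤ ExC σ (ExP b₁) - ExC σ (ExP b₀)
      omega
  · intro c _ hm hr
    exact ExP_eq hσ ((sub_eq_zero.1 hm).trans hs₀.2.symm) (sub_eq_zero.1 hr)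
  · intro c _ hm hr
    exact ExP_eq hσ ((sub_eq_zero.1 hm).trans hs₁.2.symm) (sub_left_injective hr)

/-! ### The exponents of the expansions -/

/-- the coordinates of the exponents -/
noncomputable def ExZf (T l d B : ℤ) : Finset (ℤ × ℤ) :=
  (Finset.Ico (-T) T ×ˢ Finset.Ico 0 l) ∪ (Finset.Icc T (T + d) ×ˢ Finset.Icc (-B) B)

theorem mem_ExZf {T l d B : ℤ} (hT : 0 ≤ T) {p : ℤ × ℤ} :
    p ∈ ExZf T l d B ↔ -T ≤ p.1 ∧ ExZ T l d B p := by
  unfold ExZf ExZ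
  rw [Finset.mem_union, Finset.mem_product, Finset.mem_product, Finset.mem_Ico, Finset.mem_Ico,
    Finset.mem_Icc, Finset.mem_Icc, abs_le]
  constructor
  · rintro (⟨⟨h1, h2⟩, h3⟩ | ⟨⟨h1, h2⟩, h3⟩)
    · exact ⟨h1, Or.inl ⟨h2, h3⟩⟩
    · exact ⟨by omega, Or.inr ⟨h1, h2, h3⟩⟩
  · rintro ⟨h0, ⟨h1, h2⟩ | ⟨h1, h2, h3⟩⟩
    · exact Or.inl ⟨⟨h0, h1⟩, h2⟩
    · exact Or.inr ⟨⟨h1, h2⟩, h3⟩

theorem card_ExZf {T l d B : ℤ} (hT : 0 ≤ T) (hl : 0 ≤ l) (hd : 0 ≤ d) (hB : 0 ≤ B) :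
    ((ExZf T l d B).card : ℤ) ≤ 2 * T * l + (d + 1) * (2 * B + 1) := by
  unfold ExZf
  have h := Finset.card_union_le (Finset.Ico (-T) T ×ˢ Finset.Ico 0 l)
    (Finset.Icc T (T + d) ×ˢ Finset.Icc (-B) B)
  rw [Finset.card_product, Finset.card_product, Int.card_Ico, Int.card_Ico, Int.card_Icc,
    Int.card_Icc] at h
  have h' : (((Finset.Ico (-T) T ×ˢ Finset.Ico 0 l) ∪
      (Finset.Icc T (T + d) ×ˢ Finset.Icc (-B) B)).card : ℤ) ≤
      ((T - -T).toNat : ℤ) * ((l - 0).toNat : ℤ) +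
        ((T + d + 1 - T).toNat : ℤ) * ((B + 1 - -B).toNat : ℤ) := by exact_mod_cast h
  rw [Int.toNat_of_nonneg (by omega), Int.toNat_of_nonneg (by omega),
    Int.toNat_of_nonneg (by omega), Int.toNat_of_nonneg (by omega)] at h'
  refine h'.trans (le_of_eq ?_)
  ring

theorem expand (f : MvPolynomial (Fin 2) ℤ) (ρ : ℤ × ℤ) (hc : IsCoprime ρ.1 ρ.2)
    (hρ : IsEdge f ρ) :
    ∃ L : ℕ, 1 ≤ L ∧ ∀ N T : ℕ, (|ρ.1| + |ρ.2|) * N ≤ T →
      ∃ (D : ℤ) (Z : Finset (ℤ × ℤ)) (e : ℤ × ℤ → ℤ × ℤ → ℤ), D ≠ 0 ∧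
        |D| ≤ 2 ^ (L * (N + T + 1)) ∧
        (∀ τ ∈ Z, |τ.1| ≤ L * (N + T + 1) ∧ |τ.2| ≤ L * (N + T + 1)) ∧
        Z.card ≤ L * (N + T + 1) ∧
        (∀ α : ℤ, α < T → (Z.filter fun τ => key ρ τ = α).card ≤ L) ∧
        (∀ a τ, |e a τ| ≤ 2 ^ (L * (N + T + 1))) ∧
        ∀ a : ℤ × ℤ, |a.1| ≤ N → |a.2| ≤ N →
          (∀ τ, e a τ ≠ 0 → key ρ a ≤ key ρ τ) ∧
          ∀ (A : Type) [CommRing A] (x y : Aˣ), aeval ![(x : A), (y : A)] f = 0 →
            (D : A) * ((x ^ a.1 * y ^ a.2 : Aˣ) : A) =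
              ∑ τ ∈ Z, (e a τ : A) * ((x ^ τ.1 * y ^ τ.2 : Aˣ) : A) := by
  classical
  obtain ⟨u, v, huv⟩ := hc
  obtain ⟨σ, hσd⟩ : ∃ σ : ℤ × ℤ, σ = (-u, -v) := ⟨_, rfl⟩
  have hσ : key ρ σ = 1 := by
    rw [hσd]
    unfold key
    show -(-u * ρ.1 + -v * ρ.2) = 1
    linarith
  obtain ⟨k₀, x₀, b₀, b₁, l, d, c₀, hw₀, hw₁, hdat⟩ := expand_data f ρ σ hσ hρ
  have hl1 := hdat.l1
  have hd0 : 0 ≤ d := (hdat.mn _ hdat.h0).trans (hdat.md _ hdat.h0)
  have hc0 : 0 ≤ c₀ := (abs_nonneg _).trans (hdat.rc _ hdat.h0)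
  obtain ⟨W, hW⟩ : ∃ W : ℤ, W = ∑ b ∈ f.support, |f.coeff b| := ⟨_, rfl⟩
  have hW0 : 0 ≤ W := by
    rw [hW]
    exact Finset.sum_nonneg fun _ _ => abs_nonneg _
  obtain ⟨L₀, hL₀⟩ : ∃ L₀ : ℤ, L₀ = |f.coeff b₀ * f.coeff b₁| + |f.coeff b₀| * W +
    |f.coeff b₁| * W := ⟨_, rfl⟩
  have hn1 : 0 ≤ |f.coeff b₀| * W := mul_nonneg (abs_nonneg _) hW0
  have hn2 : 0 ≤ |f.coeff b₁| * W := mul_nonneg (abs_nonneg _) hW0
  have hn3 : 0 ≤ |f.coeff b₀ * f.coeff b₁| := abs_nonneg _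
  have hL0a : |f.coeff b₀ * f.coeff b₁| ≤ L₀ := by omega
  have hL0b : |f.coeff b₀| * ∑ b ∈ f.support, |f.coeff b| ≤ L₀ := by
    rw [← hW]
    omega
  have hL0c : |f.coeff b₁| * ∑ b ∈ f.support, |f.coeff b| ≤ L₀ := by
    rw [← hW]
    omega
  have hL00 : 0 ≤ L₀ := hn3.trans hL0a
  obtain ⟨C, hC⟩ : ∃ C : ℕ, C = σ.1.natAbs + σ.2.natAbs := ⟨_, rfl⟩
  obtain ⟨V, hV⟩ : ∃ V : ℕ, V = (c₀ + 1).toNat := ⟨_, rfl⟩
  have hVz : (V : ℤ) = c₀ + 1 := by
    rw [hV]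
    exact Int.toNat_of_nonneg (by omega)
  obtain ⟨K, hK⟩ : ∃ K : ℤ, K = 1 + d + C + 2 * V + 2 * l + c₀ := ⟨_, rfl⟩
  obtain ⟨R, hR⟩ : ∃ R : ℤ, R = |σ.1| + |σ.2| + |ρ.1| + |ρ.2| := ⟨_, rfl⟩
  have hR0 : 0 ≤ R := by
    rw [hR]
    positivity
  have hK0 : 0 ≤ K := by
    rw [hK]
    positivity
  obtain ⟨Lz, hLz⟩ : ∃ Lz : ℤ, Lz = L₀ * K + R * K + (2 * l + (d + 1) * (2 * K + 1)) + l + 1 :=
    ⟨_, rfl⟩
  have hk1 : 0 ≤ L₀ * K := mul_nonneg hL00 hK0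
  have hk2 : 0 ≤ R * K := mul_nonneg hR0 hK0
  have hk3 : 0 ≤ (d + 1) * (2 * K + 1) := by positivity
  have hLz1 : 1 ≤ Lz := by omega
  obtain ⟨L, hL⟩ : ∃ L : ℕ, L = Lz.toNat := ⟨_, rfl⟩
  have hLc : (L : ℤ) = Lz := by
    rw [hL]
    exact Int.toNat_of_nonneg (by omega)
  refine ⟨L, by omega, fun N T hNT => ?_⟩
  obtain ⟨M, hM⟩ : ∃ M : ℕ, M = N + T + 1 := ⟨_, rfl⟩
  have hMz : (M : ℤ) = N + T + 1 := by
    rw [hM]
    push_cast
    ring
  have hM1 : (1 : ℤ) ≤ M := by omega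
  obtain ⟨Φ, hΦ⟩ : ∃ Φ : ℕ, Φ = C * N + 2 * V * T := ⟨_, rfl⟩
  obtain ⟨B, hB⟩ : ∃ B : ℤ, B = Φ + 2 * l + c₀ := ⟨_, rfl⟩
  have hB0 : 0 ≤ B := by
    rw [hB]
    positivity
  have hN0 : (0 : ℤ) ≤ N := Int.natCast_nonneg N
  have hT0 : (0 : ℤ) ≤ T := Int.natCast_nonneg T
  have hΦz : (Φ : ℤ) = C * N + 2 * V * T := by
    rw [hΦ]
    push_cast
    ring
  have hΦM : (Φ : ℤ) ≤ (C + 2 * V) * M := by
    have h1 : (0 : ℤ) ≤ C * (T + 1) := by positivity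
    have h2 : (0 : ℤ) ≤ 2 * V * (N + 1) := by positivity
    calc (Φ : ℤ) ≤ C * N + 2 * V * T + C * (T + 1) + 2 * V * (N + 1) := by
          rw [hΦz]
          linarith
      _ = (C + 2 * V) * M := by
          rw [hMz]
          ring
  have hBM : T + d + B ≤ K * M := by
    have h1 : (T : ℤ) ≤ M := by omega
    have h2 : d ≤ d * M := le_mul_of_one_le_right hd0 hM1
    have h3 : 2 * l + c₀ ≤ (2 * l + c₀) * M := le_mul_of_one_le_right (by omega) hM1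
    calc (T : ℤ) + d + B ≤ M + d * M + ((C + 2 * V) * M + (2 * l + c₀) * M) := by
          rw [hB]
          linarith
      _ = K * M := by
          rw [hK]
          ring
  have hMe : N + T + 1 = M := hM.symm
  have hpow : L₀ ^ Φ ≤ 2 ^ (L * (N + T + 1)) := by
    rw [hMe]
    have h1 : L₀ ≤ 2 ^ L₀.toNat := by
      have h2 : L₀.toNat < 2 ^ L₀.toNat := Nat.lt_two_pow_self
      have h3 : ((L₀.toNat : ℕ) : ℤ) < 2 ^ L₀.toNat := by exact_mod_cast h2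
      rw [Int.toNat_of_nonneg hL00] at h3
      exact h3.le
    calc L₀ ^ Φ ≤ (2 ^ L₀.toNat) ^ Φ := pow_le_pow_left₀ hL00 h1 _
      _ = 2 ^ (L₀.toNat * Φ) := (pow_mul _ _ _).symm
      _ ≤ 2 ^ (L * M) := by
          apply pow_le_pow_right₀ (by norm_num)
          have h2 : ((L₀.toNat * Φ : ℕ) : ℤ) ≤ ((L * M : ℕ) : ℤ) := by
            push_cast
            rw [Int.toNat_of_nonneg hL00, hLc]
            calc L₀ * Φ ≤ L₀ * ((C + 2 * V) * M) := mul_le_mul_of_nonneg_left hΦM hL00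
              _ ≤ L₀ * (K * M) := by
                  apply mul_le_mul_of_nonneg_left _ hL00
                  apply mul_le_mul_of_nonneg_right _ (by omega)
                  rw [hK]
                  omega
              _ = (L₀ * K) * M := by ring
              _ ≤ Lz * M := by
                  apply mul_le_mul_of_nonneg_right _ (by omega)
                  omega
          exact_mod_cast h2
  -- bounds of the coordinates of the exponents
  have hbd : ∀ a : ℤ × ℤ, |a.1| ≤ N → |a.2| ≤ N → |key ρ a| ≤ T ∧ |ExC σ a| ≤ C * N := by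
    intro a h1 h2
    constructor
    · unfold key
      rw [abs_neg]
      calc |a.1 * ρ.1 + a.2 * ρ.2| ≤ |a.1 * ρ.1| + |a.2 * ρ.2| := abs_add_le _ _
        _ = |a.1| * |ρ.1| + |a.2| * |ρ.2| := by rw [abs_mul, abs_mul]
        _ ≤ N * |ρ.1| + N * |ρ.2| := add_le_add (mul_le_mul_of_nonneg_right h1 (abs_nonneg _))
            (mul_le_mul_of_nonneg_right h2 (abs_nonneg _))
        _ = (|ρ.1| + |ρ.2|) * N := by ring
        _ ≤ T := hNT
    · unfold ExC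
      calc |σ.1 * a.2 - σ.2 * a.1| ≤ |σ.1 * a.2| + |σ.2 * a.1| := abs_sub _ _
        _ = |σ.1| * |a.2| + |σ.2| * |a.1| := by rw [abs_mul, abs_mul]
        _ ≤ |σ.1| * N + |σ.2| * N := add_le_add (mul_le_mul_of_nonneg_left h2 (abs_nonneg _))
            (mul_le_mul_of_nonneg_left h1 (abs_nonneg _))
        _ = C * N := by
            rw [hC]
            push_cast
            ring
  have hch : ∀ a : ℤ × ℤ, ∃ E : ℤ × ℤ →₀ ℤ, (∀ q, |E q| ≤ L₀ ^ Φ) ∧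
      (|a.1| ≤ N → |a.2| ≤ N → (∀ q, E q ≠ 0 → key ρ a ≤ q.1 ∧ ExZ T l d B q) ∧
        ∀ (A : Type) [CommRing A] (s X : Aˣ),
          ExRel f.support (fun b => f.coeff b) (fun b => key ρ (ExP b) - k₀)
            (fun b => ExC σ (ExP b) - x₀) s X →
          (((f.coeff b₀ * f.coeff b₁) ^ Φ : ℤ) : A) * ExM s X (key ρ a, ExC σ a) =
            Finsupp.linearCombination ℤ (ExM (A := A) s X) E) := by
    intro a
    by_cases ha : |a.1| ≤ N ∧ |a.2| ≤ N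
    · obtain ⟨h1, h2⟩ := hbd a ha.1 ha.2
      obtain ⟨E, h3, h4, h5⟩ := ExOK_main hdat (T := T) (B := B) (L₀ := L₀) hL0a hL0b hL0c Φ
        (by omega) (key ρ a) (ExC σ a) (by
          have h3 := abs_le.1 h1
          have h4 := abs_le.1 h2
          rcases eq_or_lt_of_le h3.2 with h5 | h5
          · right
            refine ⟨h5.ge, by omega, h2.trans ?_⟩
            rw [hB, hΦz]
            have : (0 : ℤ) ≤ 2 * V * T := by positivity
            omega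
          · left
            refine ⟨h5, ?_⟩
            have h6 : ExD l (ExC σ a) ≤ C * N := by
              unfold ExD
              have : (0 : ℤ) ≤ C * N := by positivity
              omega
            have h7 : (c₀ + 1) * (T - key ρ a) ≤ (c₀ + 1) * (2 * T) :=
              mul_le_mul_of_nonneg_left (by omega) (by omega)
            have h8 : (c₀ + 1) * (2 * T) = 2 * V * T := by
              rw [hVz]
              ring
            rw [hΦz]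
            omega)
      exact ⟨E, h3, fun _ _ => ⟨h4, h5⟩⟩
    · exact ⟨0, fun q => by simpa using pow_nonneg hL00 Φ, fun h1 h2 => absurd ⟨h1, h2⟩ ha⟩
  choose E hE1 hE2 using hch
  have hinj : Function.Injective (ExE ρ σ) := by
    intro p q hpq
    have h1 := key_ExE hσ p
    have h2 := ExC_ExE hσ p
    rw [hpq, key_ExE hσ q] at h1
    rw [hpq, ExC_ExE hσ q] at h2
    exact Prod.ext h1.symm h2.symm
  refine ⟨(f.coeff b₀ * f.coeff b₁) ^ Φ, (ExZf T l d B).image (ExE ρ σ),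
    fun a τ => E a (key ρ τ, ExC σ τ), pow_ne_zero _ (mul_ne_zero hw₀ hw₁), ?_, ?_, ?_, ?_, ?_, ?_⟩
  · rw [abs_pow]
    exact (pow_le_pow_left₀ (abs_nonneg _) hL0a _).trans hpow
  · intro τ hτ
    obtain ⟨p, hp, rfl⟩ := Finset.mem_image.1 hτ
    rw [mem_ExZf hT0] at hp
    have h1 : |p.1| ≤ T + d := by
      rw [abs_le]
      rcases hp.2 with ⟨g1, _, _⟩ | ⟨g1, g2, _⟩
      · exact ⟨by omega, by omega⟩
      · exact ⟨by omega, by omega⟩
    have h2 : |p.2| ≤ B := by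
      rcases hp.2 with ⟨_, g1, g2⟩ | ⟨_, _, g1⟩
      · rw [abs_le]
        constructor
        · omega
        · have : (0 : ℤ) ≤ Φ := Int.natCast_nonneg Φ
          omega
      · exact g1
    have h3 : ((L : ℤ)) * (N + T + 1) = Lz * M := by
      rw [hLc, hMz]
    rw [h3]
    have h4 : R * (T + d + B) ≤ Lz * M := by
      calc R * (T + d + B) ≤ R * (K * M) := mul_le_mul_of_nonneg_left hBM hR0
        _ = (R * K) * M := by ring
        _ ≤ Lz * M := by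
            apply mul_le_mul_of_nonneg_right _ (by omega)
            omega
    have hTd : 0 ≤ T + d := by omega
    have a1 := abs_nonneg σ.1
    have a2 := abs_nonneg σ.2
    have a3 := abs_nonneg ρ.1
    have a4 := abs_nonneg ρ.2
    have hR1 : |σ.1| ≤ R := by omega
    have hR2 : |σ.2| ≤ R := by omega
    have hR3 : |ρ.1| ≤ R := by omega
    have hR4 : |ρ.2| ≤ R := by omega
    constructor
    · show |p.1 * σ.1 + p.2 * ρ.2| ≤ Lz * M
      refine le_trans ?_ h4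
      calc |p.1 * σ.1 + p.2 * ρ.2| ≤ |p.1 * σ.1| + |p.2 * ρ.2| := abs_add_le _ _
        _ = |p.1| * |σ.1| + |p.2| * |ρ.2| := by rw [abs_mul, abs_mul]
        _ ≤ (T + d) * R + B * R := add_le_add (mul_le_mul h1 hR1 a1 hTd)
            (mul_le_mul h2 hR4 a4 hB0)
        _ = R * (T + d + B) := by ring
    · show |p.1 * σ.2 - p.2 * ρ.1| ≤ Lz * M
      refine le_trans ?_ h4
      calc |p.1 * σ.2 - p.2 * ρ.1| ≤ |p.1 * σ.2| + |p.2 * ρ.1| := abs_sub _ _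
        _ = |p.1| * |σ.2| + |p.2| * |ρ.1| := by rw [abs_mul, abs_mul]
        _ ≤ (T + d) * R + B * R := add_le_add (mul_le_mul h1 hR2 a2 hTd)
            (mul_le_mul h2 hR3 a3 hB0)
        _ = R * (T + d + B) := by ring
  · have h1 : (((ExZf T l d B).image (ExE ρ σ)).card : ℤ) ≤ (L * M : ℕ) := by
      have h2 : (((ExZf T l d B).image (ExE ρ σ)).card : ℤ) ≤ ((ExZf T l d B).card : ℤ) := by
        exact_mod_cast Finset.card_image_le
      refine h2.trans ((card_ExZf hT0 (by omega) hd0 hB0).trans ?_)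
      push_cast
      rw [hLc]
      have h3 : 2 * T * l ≤ 2 * l * M := by
        have h7 : (T : ℤ) ≤ M := by omega
        have h8 := mul_le_mul_of_nonneg_left h7 (by omega : 0 ≤ 2 * l)
        calc 2 * (T : ℤ) * l = 2 * l * T := by ring
          _ ≤ 2 * l * M := h8
      have h4 : B ≤ K * M := by omega
      have h5 : (d + 1) * (2 * B + 1) ≤ (d + 1) * (2 * K + 1) * M := by
        have h6 : 2 * B + 1 ≤ (2 * K + 1) * M := by
          calc 2 * B + 1 ≤ 2 * (K * M) + M := by linarith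
            _ = (2 * K + 1) * M := by ring
        calc (d + 1) * (2 * B + 1) ≤ (d + 1) * ((2 * K + 1) * M) :=
              mul_le_mul_of_nonneg_left h6 (by omega)
          _ = (d + 1) * (2 * K + 1) * M := by ring
      calc 2 * T * l + (d + 1) * (2 * B + 1) ≤ (2 * l + (d + 1) * (2 * K + 1)) * M := by
            linarith
        _ ≤ Lz * M := by
            apply mul_le_mul_of_nonneg_right _ (by omega)
            omega
    rw [hMe]
    exact_mod_cast h1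
  · intro α hα
    have h1 : ((ExZf T l d B).image (ExE ρ σ)).filter (fun τ => key ρ τ = α) ⊆
        (({α} : Finset ℤ) ×ˢ Finset.Ico 0 l).image (ExE ρ σ) := by
      intro τ hτ
      rw [Finset.mem_filter] at hτ
      obtain ⟨p, hp, rfl⟩ := Finset.mem_image.1 hτ.1
      have h2 := hτ.2
      rw [key_ExE hσ] at h2
      rw [mem_ExZf hT0] at hp
      refine Finset.mem_image_of_mem _ ?_
      rw [Finset.mem_product, Finset.mem_singleton, Finset.mem_Ico]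
      rcases hp.2 with ⟨_, g1, g2⟩ | ⟨g1, _⟩
      · exact ⟨h2, g1, g2⟩
      · omega
    have h2 := (Finset.card_le_card h1).trans Finset.card_image_le
    rw [Finset.card_product, Finset.card_singleton, one_mul, Int.card_Ico] at h2
    refine h2.trans ?_
    have h3 : ((l - 0).toNat : ℤ) ≤ (L : ℤ) := by
      rw [Int.toNat_of_nonneg (by omega)]
      omega
    exact_mod_cast h3
  · intro a τ
    exact (hE1 a _).trans hpow
  · intro a h1 h2
    obtain ⟨h3, h4⟩ := hE2 a h1 h2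
    refine ⟨fun τ hτ => (h3 _ hτ).1, fun A _ x y hf => ?_⟩
    have h5 := h4 A _ _ (ExRel_of hσ k₀ x₀ x y hf)
    rw [ExM_coord, ExE_eta hσ, Finsupp.linearCombination_apply] at h5
    rw [h5, Finset.sum_image fun p _ q _ h => hinj h]
    have hsub : (E a).support ⊆ ExZf T l d B := by
      intro q hq
      rw [Finsupp.mem_support_iff] at hq
      have h6 := h3 q hq
      have h7 := abs_le.1 (hbd a h1 h2).1
      rw [mem_ExZf hT0]
      exact ⟨by omega, h6.2⟩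
    have h8 := Finsupp.sum_of_support_subset (E a) hsub
      (fun i c => c • ExM (x ^ σ.1 * y ^ σ.2) (x ^ ρ.2 * y ^ (-ρ.1)) i)
      (fun q _ => zero_smul ℤ _)
    rw [h8]
    refine Finset.sum_congr rfl fun q _ => ?_
    rw [zsmul_eq_mul, ExM_coord]
    show (((E a) q : ℤ) : A) * _ = (((E a) (key ρ (ExE ρ σ q), ExC σ (ExE ρ σ q)) : ℤ) : A) * _
    rw [key_ExE hσ, ExC_ExE hσ]

end Pool.Agent.PC
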