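import Pool.Agent.Lib.MP_c95b3b_ag_PC.DefsK
import Pool.Agent.Lib.MP_c95b3b_ag_PC.Expand
import Pool.Agent.Lib.MP_c95b3b_ag_PC.CharsK
import Pool.Agent.Lib.MP_c95b3b_ag_PC.CountK
import Pool.Agent.Lib.MP_c95b3b_ag_AL.MC
import Pool.Agent.Lib.MP_c95b3b_ag_AL.ME

/-! Project PC, module KF: the auxiliary function. -/

namespace Pool.Agent.PC

open Pool.Agent.L3 Module

namespace KF

theorem abs_key_le (ρ a : ℤ × ℤ) {M : ℝ} (h1 : |((a.1 : ℤ) : ℝ)| ≤ M)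
    (h2 : |((a.2 : ℤ) : ℝ)| ≤ M) :
    |((key ρ a : ℤ) : ℝ)| ≤ (|((ρ.1 : ℤ) : ℝ)| + |((ρ.2 : ℤ) : ℝ)|) * M := by
  have e : ((key ρ a : ℤ) : ℝ) = -((a.1 : ℝ) * ρ.1 + (a.2 : ℝ) * ρ.2) := by
    unfold key
    push_cast
    ring
  rw [e, abs_neg]
  refine (abs_add_le _ _).trans ?_
  rw [abs_mul, abs_mul]
  have h3 : |((a.1 : ℤ) : ℝ)| * |((ρ.1 : ℤ) : ℝ)| ≤ M * |((ρ.1 : ℤ) : ℝ)| :=
    mul_le_mul_of_nonneg_right h1 (abs_nonneg _)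
  have h4 : |((a.2 : ℤ) : ℝ)| * |((ρ.2 : ℤ) : ℝ)| ≤ M * |((ρ.2 : ℤ) : ℝ)| :=
    mul_le_mul_of_nonneg_right h2 (abs_nonneg _)
  linarith

section
variable {ι : Type} [Fintype ι]

/-- a bound for the sizes of the rays -/
noncomputable def kb (ρ : ι → ℤ × ℤ) : ℝ :=
  1 + ∑ i, (|(((ρ i).1 : ℤ) : ℝ)| + |(((ρ i).2 : ℤ) : ℝ)|)

theorem le_kb (ρ : ι → ℤ × ℤ) (i : ι) :
    |(((ρ i).1 : ℤ) : ℝ)| + |(((ρ i).2 : ℤ) : ℝ)| ≤ kb ρ := by
  have h1 : |(((ρ i).1 : ℤ) : ℝ)| + |(((ρ i).2 : ℤ) : ℝ)| ≤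
      ∑ i, (|(((ρ i).1 : ℤ) : ℝ)| + |(((ρ i).2 : ℤ) : ℝ)|) :=
    Finset.single_le_sum (f := fun i => |(((ρ i).1 : ℤ) : ℝ)| + |(((ρ i).2 : ℤ) : ℝ)|)
      (fun j _ => add_nonneg (abs_nonneg _) (abs_nonneg _)) (Finset.mem_univ i)
  unfold kb
  linarith

theorem one_le_kb (ρ : ι → ℤ × ℤ) : 1 ≤ kb ρ := by
  have : 0 ≤ ∑ i, (|(((ρ i).1 : ℤ) : ℝ)| + |(((ρ i).2 : ℤ) : ℝ)|) :=
    Finset.sum_nonneg fun j _ => add_nonneg (abs_nonneg _) (abs_nonneg _)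
  unfold kb
  linarith

/-! ## The geometric inequality -/

/-- the inequality for the exponents `a` -/
theorem base (F : Submodule ℝ (ι → ℝ × ℝ)) (ρ : ι → ℤ × ℤ) (h : ι → ℝ) (hh : ∀ i, 0 < h i)
    (κ B : ℝ) (a : ι → ℤ × ℤ) (ha : EB h B a) (ha2 : ∀ f ∈ F, |pz h a f| ≤ κ * ‖f‖)
    (l : ι → ℝ) (f : ι → ℝ × ℝ) (hf : f ∈ F) :
    |pz h a (vec ρ l)| ≤ κ * ‖f‖ + 2 * B * Fintype.card ι * ‖vec ρ l - f‖ := by
  have h3 : pz h a (vec ρ l) = pz h a f + pz h a (vec ρ l - f) := by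
    rw [pz_sub]
    ring
  rw [h3]
  exact (abs_add_le _ _).trans (add_le_add (ha2 f hf) (abs_pz_le h hh B a _ ha))

theorem case1 (F : Submodule ℝ (ι → ℝ × ℝ)) (R : Finset ι) (ρ : ι → ℤ × ℤ)
    (h : ι → ℝ) (hh : ∀ i, 0 < h i) (A κ B A3 : ℝ) (hA : 0 ≤ A) (hκ1 : κ ≤ 1)
    (hA3 : A + kb ρ * B ≤ A3) (hB : 0 ≤ B)
    (a : ι → ℤ × ℤ) (ha : EB h B a) (ha2 : ∀ f ∈ F, |pz h a f| ≤ κ * ‖f‖) (τ : ι → ℤ × ℤ)
    (hkey : ∀ i, key (ρ i) (a i) ≤ key (ρ i) (τ i))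
    (i₀ : ι) (hi₀ : i₀ ∈ R) (hT : A3 * (h i₀)⁻¹ ≤ ((key (ρ i₀) (τ i₀) : ℤ) : ℝ))
    (l : ι → ℝ) (f : ι → ℝ × ℝ) (μ : ℝ) (hf : f ∈ F) (hμ : 0 ≤ μ) (hl : ∀ i, 0 ≤ l i)
    (hlR : ∀ i ∈ R, μ ≤ l i) :
    pz h τ (vec ρ l) ≤ -(A * κ * μ) + κ * ‖f‖ + 2 * B * Fintype.card ι * ‖vec ρ l - f‖ := by
  have hb := (abs_le.mp (base F ρ h hh κ B a ha ha2 l f hf)).2
  rw [pz_vec] at hb ⊢
  have hi := hh i₀
  -- the contribution of the component `i₀`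
  have h4 : h i₀ * ((key (ρ i₀) (a i₀) : ℤ) : ℝ) ≤ kb ρ * B := by
    have h5 := (le_abs_self _).trans (abs_key_le (ρ i₀) (a i₀) (ha i₀).1 (ha i₀).2)
    calc h i₀ * ((key (ρ i₀) (a i₀) : ℤ) : ℝ)
        ≤ h i₀ * ((|(((ρ i₀).1 : ℤ) : ℝ)| + |(((ρ i₀).2 : ℤ) : ℝ)|) * (B * (h i₀)⁻¹)) :=
          mul_le_mul_of_nonneg_left h5 hi.le
      _ = (h i₀ * (h i₀)⁻¹) * ((|(((ρ i₀).1 : ℤ) : ℝ)| + |(((ρ i₀).2 : ℤ) : ℝ)|) * B) := by ring
      _ = (|(((ρ i₀).1 : ℤ) : ℝ)| + |(((ρ i₀).2 : ℤ) : ℝ)|) * B := by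
          rw [mul_inv_cancel₀ hi.ne', one_mul]
      _ ≤ kb ρ * B := mul_le_mul_of_nonneg_right (le_kb ρ i₀) hB
  have h6 : A3 ≤ h i₀ * ((key (ρ i₀) (τ i₀) : ℤ) : ℝ) := by
    calc A3 = h i₀ * (A3 * (h i₀)⁻¹) := by
          rw [mul_comm A3, ← mul_assoc, mul_inv_cancel₀ hi.ne', one_mul]
      _ ≤ h i₀ * ((key (ρ i₀) (τ i₀) : ℤ) : ℝ) := mul_le_mul_of_nonneg_left hT hi.le
  have h7 : A ≤ h i₀ * ((key (ρ i₀) (τ i₀) : ℤ) : ℝ) - h i₀ * ((key (ρ i₀) (a i₀) : ℤ) : ℝ) := by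
    linarith
  have h8 : A * μ ≤ ∑ i, (h i * ((key (ρ i) (τ i) : ℤ) : ℝ) * l i -
      h i * ((key (ρ i) (a i) : ℤ) : ℝ) * l i) := by
    have h9 : ∀ i ∈ (Finset.univ : Finset ι), 0 ≤ h i * ((key (ρ i) (τ i) : ℤ) : ℝ) * l i -
        h i * ((key (ρ i) (a i) : ℤ) : ℝ) * l i := by
      intro i _
      have h10 : ((key (ρ i) (a i) : ℤ) : ℝ) ≤ ((key (ρ i) (τ i) : ℤ) : ℝ) := by
        exact_mod_cast hkey i
      have h11 : h i * ((key (ρ i) (a i) : ℤ) : ℝ) ≤ h i * ((key (ρ i) (τ i) : ℤ) : ℝ) :=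
        mul_le_mul_of_nonneg_left h10 (hh i).le
      have h12 := mul_le_mul_of_nonneg_right h11 (hl i)
      linarith
    refine le_trans ?_ (Finset.single_le_sum h9 (Finset.mem_univ i₀))
    calc A * μ ≤ (h i₀ * ((key (ρ i₀) (τ i₀) : ℤ) : ℝ) -
          h i₀ * ((key (ρ i₀) (a i₀) : ℤ) : ℝ)) * l i₀ :=
          mul_le_mul h7 (hlR i₀ hi₀) hμ (hA.trans h7)
      _ = h i₀ * ((key (ρ i₀) (τ i₀) : ℤ) : ℝ) * l i₀ -
          h i₀ * ((key (ρ i₀) (a i₀) : ℤ) : ℝ) * l i₀ := by ring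
  rw [Finset.sum_sub_distrib] at h8
  have h13 : A * κ * μ ≤ A * μ := by
    have h14 : A * κ ≤ A := by nlinarith
    exact mul_le_mul_of_nonneg_right h14 hμ
  have hb' := (abs_le.mp (base F ρ h hh κ B a ha ha2 l f hf)).2
  rw [pz_vec] at hb'
  linarith

theorem case2 (F : Submodule ℝ (ι → ℝ × ℝ)) (R : Finset ι) (ρ : ι → ℤ × ℤ)
    (hρ : ∀ i, IsCoprime (ρ i).1 (ρ i).2)
    (h : ι → ℝ) (hh : ∀ i, 0 < h i) (A κ B : ℝ) (hκ : 0 ≤ κ)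
    (a : ι → ℤ × ℤ) (ha : EB h B a) (ha2 : ∀ f ∈ F, |pz h a f| ≤ κ * ‖f‖) (τ : ι → ℤ × ℤ)
    (hkey : ∀ i, key (ρ i) (a i) ≤ key (ρ i) (τ i))
    (hnk : ∃ w ∈ wsp F R ρ, ((A + rb ρ + 1) * κ) * ‖w‖ <
      |∑ i, h i * ((key (ρ i) (τ i) : ℤ) : ℝ) * w i|)
    (l : ι → ℝ) (f : ι → ℝ × ℝ) (μ : ℝ) (hf : f ∈ F) (hμ : 0 ≤ μ) (hl : ∀ i, 0 ≤ l i)
    (hlR : ∀ i ∈ R, μ ≤ l i) :
    pz h τ (vec ρ l) ≤ -(A * κ * μ) + κ * ‖f‖ + 2 * B * Fintype.card ι * ‖vec ρ l - f‖ := by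
  obtain ⟨w₀, hw₀, hw₀'⟩ := hnk
  have hw₀n : 0 < ‖w₀‖ := by
    rw [norm_pos_iff]
    rintro rfl
    simp at hw₀'
  obtain ⟨w, hw, hwn, hwT⟩ : ∃ w ∈ wsp F R ρ, ‖w‖ = 1 ∧ ((A + rb ρ + 1) * κ) <
      ∑ i, h i * ((key (ρ i) (τ i) : ℤ) : ℝ) * w i := by
    have h3 : ∀ r : ℝ, ∑ i, h i * ((key (ρ i) (τ i) : ℤ) : ℝ) * (r • w₀) i =
        r * ∑ i, h i * ((key (ρ i) (τ i) : ℤ) : ℝ) * w₀ i := by
      intro r
      rw [Finset.mul_sum]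
      refine Finset.sum_congr rfl fun i _ => ?_
      simp only [Pi.smul_apply, smul_eq_mul]
      ring
    have h4 : ((A + rb ρ + 1) * κ) < ‖w₀‖⁻¹ *
        |∑ i, h i * ((key (ρ i) (τ i) : ℤ) : ℝ) * w₀ i| := by
      rw [inv_mul_eq_div, lt_div_iff₀ hw₀n]
      exact hw₀'
    rcases le_or_gt 0 (∑ i, h i * ((key (ρ i) (τ i) : ℤ) : ℝ) * w₀ i) with h5 | h5
    · refine ⟨‖w₀‖⁻¹ • w₀, Submodule.smul_mem _ _ hw₀, ?_, ?_⟩
      · rw [norm_smul, norm_inv, norm_norm, inv_mul_cancel₀ hw₀n.ne']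
      · rw [h3]
        rwa [abs_of_nonneg h5] at h4
    · refine ⟨(-‖w₀‖⁻¹) • w₀, Submodule.smul_mem _ _ hw₀, ?_, ?_⟩
      · rw [norm_smul, norm_neg, norm_inv, norm_norm, inv_mul_cancel₀ hw₀n.ne']
      · rw [h3]
        rw [abs_of_neg h5] at h4
        linarith
  obtain ⟨hwF, hwR⟩ := mem_wsp hρ hw
  have hpos : ∀ i, 0 ≤ l i - μ * w i := by
    intro i
    by_cases hi : i ∈ R
    · have h3 : |w i| ≤ 1 := by
        rw [← hwn]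
        exact norm_le_pi_norm w i
      have h4 := (abs_le.mp h3).2
      nlinarith [hlR i hi]
    · rw [hwR i hi, mul_zero, sub_zero]
      exact hl i
  have hmain : ∑ i, h i * ((key (ρ i) (a i) : ℤ) : ℝ) * (l i - μ * w i) ≤
      ∑ i, h i * ((key (ρ i) (τ i) : ℤ) : ℝ) * (l i - μ * w i) := by
    refine Finset.sum_le_sum fun i _ => mul_le_mul_of_nonneg_right
      (mul_le_mul_of_nonneg_left ?_ (hh i).le) (hpos i)
    exact_mod_cast hkey i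
  have e1 : ∑ i, h i * ((key (ρ i) (a i) : ℤ) : ℝ) * (l i - μ * w i) =
      - pz h a (vec ρ l) + μ * pz h a (vec ρ w) := by
    rw [pz_vec, pz_vec, neg_neg, mul_neg, Finset.mul_sum, ← sub_eq_add_neg,
      ← Finset.sum_sub_distrib]
    refine Finset.sum_congr rfl fun i _ => ?_
    ring
  have e2 : ∑ i, h i * ((key (ρ i) (τ i) : ℤ) : ℝ) * (l i - μ * w i) =
      ∑ i, h i * ((key (ρ i) (τ i) : ℤ) : ℝ) * l i -
        μ * ∑ i, h i * ((key (ρ i) (τ i) : ℤ) : ℝ) * w i := by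
    rw [Finset.mul_sum, ← Finset.sum_sub_distrib]
    refine Finset.sum_congr rfl fun i _ => ?_
    ring
  have b1 := base F ρ h hh κ B a ha ha2 l f hf
  have b2 : |pz h a (vec ρ w)| ≤ κ * rb ρ := by
    have h3 := ha2 _ hwF
    have h4 := norm_vec_le ρ w
    rw [hwn, mul_one] at h4
    exact h3.trans (mul_le_mul_of_nonneg_left h4 hκ)
  have b3 := (abs_le.mp b1).2
  have b4 := (abs_le.mp b2).1
  have b5 : μ * (-(κ * rb ρ)) ≤ μ * pz h a (vec ρ w) := mul_le_mul_of_nonneg_left b4 hμ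
  have b6 : μ * ((A + rb ρ + 1) * κ) ≤
      μ * ∑ i, h i * ((key (ρ i) (τ i) : ℤ) : ℝ) * w i :=
    mul_le_mul_of_nonneg_left hwT.le hμ
  have b7 : 0 ≤ μ * κ := mul_nonneg hμ hκ
  have b8 : μ * ((A + rb ρ + 1) * κ) + μ * (-(κ * rb ρ)) = A * κ * μ + μ * κ := by ring
  rw [e1, e2] at hmain
  rw [pz_vec]
  linarith

end

/-! ## The product of the expansions -/

theorem same {m : ℕ} {ι : Type} [Fintype ι] [DecidableEq ι] (C : ι → Crv m)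
    (N : ι → ℕ) (D : ι → ℤ) (Z : ι → Finset (ℤ × ℤ)) (e : ι → ℤ × ℤ → ℤ × ℤ → ℤ)
    (he : ∀ i (a : ℤ × ℤ), |a.1| ≤ N i → |a.2| ≤ N i → ∀ (A : Type) [CommRing A] (x y : Aˣ),
      MvPolynomial.aeval ![(x : A), (y : A)] (C i).f = 0 →
        (D i : A) * ((x ^ a.1 * y ^ a.2 : Aˣ) : A) =
          ∑ τ ∈ Z i, (e i a τ : A) * ((x ^ τ.1 * y ^ τ.2 : Aˣ) : A))
    (s : Finset (ι → ℤ × ℤ)) (hs : ∀ a ∈ s, ∀ i, |(a i).1| ≤ N i ∧ |(a i).2| ≤ N i)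
    (q : (ι → ℤ × ℤ) → ℤ) (c : (ι → ℤ × ℤ) → ℤ)
    (hc : ∀ τ, c τ = ∑ a ∈ s, q a * ∏ i, e i (a i) (τ i)) :
    SameZ C (∏ i, D i) s q ((Fintype.piFinset Z).filter fun τ => c τ ≠ 0) c := by
  intro A _ x y hxy
  unfold lval
  have h1 : ∑ t ∈ (Fintype.piFinset Z).filter (fun τ => c τ ≠ 0), algebraMap ℤ A (c t) *
      ((∏ i, (x i ^ (t i).1 * y i ^ (t i).2) : Aˣ) : A) =
      ∑ t ∈ Fintype.piFinset Z, algebraMap ℤ A (c t) *
      ((∏ i, (x i ^ (t i).1 * y i ^ (t i).2) : Aˣ) : A) := by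
    refine Finset.sum_subset (Finset.filter_subset _ _) fun τ hτ hτ2 => ?_
    have h3 : c τ = 0 := by
      by_contra hcon
      exact hτ2 (Finset.mem_filter.mpr ⟨hτ, hcon⟩)
    rw [h3, map_zero, zero_mul]
  rw [h1, Finset.mul_sum]
  have h2 : ∀ a ∈ s, ((∏ i, D i : ℤ) : A) * (algebraMap ℤ A (q a) *
      ((∏ i, (x i ^ (a i).1 * y i ^ (a i).2) : Aˣ) : A)) =
      ∑ τ ∈ Fintype.piFinset Z, algebraMap ℤ A (q a * ∏ i, e i (a i) (τ i)) *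
        ((∏ i, (x i ^ (τ i).1 * y i ^ (τ i).2) : Aˣ) : A) := by
    intro a ha
    have h3 : ((∏ i, D i : ℤ) : A) * ((∏ i, (x i ^ (a i).1 * y i ^ (a i).2) : Aˣ) : A) =
        ∑ τ ∈ Fintype.piFinset Z, ((∏ i, e i (a i) (τ i) : ℤ) : A) *
          ((∏ i, (x i ^ (τ i).1 * y i ^ (τ i).2) : Aˣ) : A) := by
      rw [Units.coe_prod, Int.cast_prod, ← Finset.prod_mul_distrib]
      have h4 : ∀ i ∈ (Finset.univ : Finset ι),
          (D i : A) * ((x i ^ (a i).1 * y i ^ (a i).2 : Aˣ) : A) =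
            ∑ τ ∈ Z i, (e i (a i) τ : A) * ((x i ^ τ.1 * y i ^ τ.2 : Aˣ) : A) :=
        fun i _ => he i (a i) (hs a ha i).1 (hs a ha i).2 A (x i) (y i) (hxy i)
      rw [Finset.prod_congr rfl h4, Finset.prod_univ_sum]
      refine Finset.sum_congr rfl fun τ _ => ?_
      rw [Finset.prod_mul_distrib, Units.coe_prod, Int.cast_prod]
    calc ((∏ i, D i : ℤ) : A) * (algebraMap ℤ A (q a) *
          ((∏ i, (x i ^ (a i).1 * y i ^ (a i).2) : Aˣ) : A))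
        = algebraMap ℤ A (q a) * (((∏ i, D i : ℤ) : A) *
          ((∏ i, (x i ^ (a i).1 * y i ^ (a i).2) : Aˣ) : A)) := by ring
      _ = _ := by
          rw [h3, Finset.mul_sum]
          refine Finset.sum_congr rfl fun τ _ => ?_
          rw [map_mul, mul_assoc]
          congr 1
  rw [Finset.sum_congr rfl h2, Finset.sum_comm]
  refine Finset.sum_congr rfl fun τ _ => ?_
  rw [← Finset.sum_mul, ← map_sum, ← hc τ]

end KF

theorem exists_Q {m : ℕ} {ι : Type} [Fintype ι] [DecidableEq ι] (C : ι → Crv m)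
    (F : Submodule ℝ (ι → ℝ × ℝ)) (x : ℕ) (j' : ι → Fin m)
    (h1 : finrank ℝ (F ⊓ cel Finset.univ (rr C j') : Submodule ℝ _) ≤ x)
    (R : Finset ι) (j : ι → Fin m)
    (h2 : x < finrank ℝ (F ⊓ cel R (rr C j) : Submodule ℝ _)) (A : ℝ) (hA : 0 ≤ A) :
    ∃ κ η A1 : ℝ, 0 < κ ∧ κ ≤ 1 ∧ 0 < η ∧ 1 ≤ A1 ∧ ∀ h : ι → ℝ, (∀ i, 0 < h i ∧ h i ≤ η) →
      ∃ (s : Finset (ι → ℤ × ℤ)) (q : (ι → ℤ × ℤ) → ℤ),
        (∃ a ∈ s, q a ≠ 0) ∧ Set.InjOn (fun (a : ι → ℤ × ℤ) i => key (rr C j' i) (a i)) s ∧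
        (∀ a ∈ s, EB h A1 a) ∧
        Real.log (∑ a ∈ s, |(q a : ℝ)|) ≤ A1 * ∑ i, (h i)⁻¹ ∧
        (∀ a ∈ s, ∀ v ∈ F, pz h a v ≤ κ * ‖v‖) ∧
        ∃ (D : ℤ) (T : Finset (ι → ℤ × ℤ)) (c : (ι → ℤ × ℤ) → ℤ), D ≠ 0 ∧
          Real.log |(D : ℝ)| ≤ A1 * ∑ i, (h i)⁻¹ ∧ SameZ C D s q T c ∧
          (∀ t ∈ T, EB h A1 t) ∧
          Real.log (∑ t ∈ T, |(c t : ℝ)|) ≤ A1 * ∑ i, (h i)⁻¹ ∧
          ∀ t ∈ T, ∀ (l : ι → ℝ) (v : ι → ℝ × ℝ) (μ : ℝ), v ∈ F → 0 ≤ μ → (∀ i, 0 ≤ l i) →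
            (∀ i ∈ R, μ ≤ l i) →
            pz h t (vec (rr C j) l) ≤ -(A * κ * μ) + κ * ‖v‖ + A1 * ‖vec (rr C j) l - v‖ := by
  classical
  have hρ : ∀ i, IsCoprime (rr C j i).1 (rr C j i).2 := fun i => (C i).cop (j i)
  have hρ' : ∀ i, IsCoprime (rr C j' i).1 (rr C j' i).2 := fun i => (C i).cop (j' i)
  obtain ⟨a₀, B₀, ha₀, hB₀, hchar⟩ := chars F x (rr C j') hρ' h1
  choose L hL1 hLx using fun i => expand (C i).f (rr C j i) (hρ i) ((C i).edge (j i))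
  set ρ := rr C j with hρdef
  have hK1 := KF.one_le_kb ρ
  set K : ℝ := KF.kb ρ with hK
  set Lr : ℝ := 1 + ∑ i, (L i : ℝ) with hLr
  have hLr0 : ∀ i, (L i : ℝ) ≤ Lr := by
    intro i
    have h3 : (L i : ℝ) ≤ ∑ i, (L i : ℝ) :=
      Finset.single_le_sum (f := fun i => (L i : ℝ)) (fun j _ => Nat.cast_nonneg _)
        (Finset.mem_univ i)
    rw [hLr]
    linarith
  have hLr1 : 1 ≤ Lr := by
    have h3 : 0 ≤ ∑ i, (L i : ℝ) := Finset.sum_nonneg fun j _ => Nat.cast_nonneg _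
    rw [hLr]
    linarith
  set A3 : ℝ := A + K * (B₀ + 1) with hA3
  have hA30 : 0 ≤ A3 := by rw [hA3]; positivity
  set G : ℝ := Lr * (B₀ + A3 + 3) with hG
  have hG1 : B₀ + A3 + 3 ≤ G := by
    rw [hG]
    nlinarith
  have hG2 : Lr ≤ G := by
    rw [hG]
    nlinarith
  have hG0 : 0 < G := by linarith
  have hBb : 1 ≤ K * G := by nlinarith
  obtain ⟨C₁, hC₁, hcount⟩ := count_kil F x R ρ hρ h2 (K * G) hBb
  have hrb := one_le_rb ρ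
  obtain ⟨κ, hκ0, hκ1, hκ⟩ := Pool.Agent.AL.ME.params C₁ a₀ (A + rb ρ) hC₁ ha₀ (by linarith) x
  obtain ⟨η₀, hη₀, hη⟩ := hchar κ hκ0 hκ1
  have hT : 0 < (A + rb ρ + 1) * κ := by positivity
  have hcard0 : (0 : ℝ) ≤ 2 * B₀ * Fintype.card ι := by positivity
  refine ⟨κ, min η₀ (min 1 ((A + rb ρ + 1) * κ)), 20 * G + 2 * B₀ * Fintype.card ι, hκ0, hκ1,
    by positivity, by linarith, fun h hh => ?_⟩
  have hh0 : ∀ i, 0 < h i := fun i => (hh i).1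
  have hh1 : ∀ i, h i ≤ 1 := fun i => (hh i).2.trans ((min_le_right _ _).trans (min_le_left _ _))
  have hhT : ∀ i, h i ≤ (A + rb ρ + 1) * κ :=
    fun i => (hh i).2.trans ((min_le_right _ _).trans (min_le_right _ _))
  have hinv1 : ∀ i, 1 ≤ (h i)⁻¹ := fun i => (one_le_inv₀ (hh0 i)).mpr (hh1 i)
  have hH0 : 0 ≤ ∑ i, (h i)⁻¹ := Finset.sum_nonneg fun i _ => (zero_le_one.trans (hinv1 i))
  obtain ⟨s, hs1, hs2, hs3, hs4⟩ := hη h fun i => ⟨hh0 i, (hh i).2.trans (min_le_left _ _)⟩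
  -- the sizes
  set N : ι → ℕ := fun i => ⌈B₀ * (h i)⁻¹⌉₊ with hN
  set T : ι → ℕ := fun i => ⌈A3 * (h i)⁻¹⌉₊ with hTdef
  have hN1 : ∀ i, B₀ * (h i)⁻¹ ≤ (N i : ℝ) := fun i => Nat.le_ceil _
  have hT1 : ∀ i, A3 * (h i)⁻¹ ≤ (T i : ℝ) := fun i => Nat.le_ceil _
  have hN2 : ∀ i, (N i : ℝ) ≤ (B₀ + 1) * (h i)⁻¹ := by
    intro i
    have h3 : (N i : ℝ) < B₀ * (h i)⁻¹ + 1 := Nat.ceil_lt_add_one (by
      have := hinv1 i
      positivity)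
    have h4 := hinv1 i
    linarith
  have hT2 : ∀ i, (T i : ℝ) ≤ (A3 + 1) * (h i)⁻¹ := by
    intro i
    have h3 : (T i : ℝ) < A3 * (h i)⁻¹ + 1 := Nat.ceil_lt_add_one (by
      have := hinv1 i
      positivity)
    have h4 := hinv1 i
    linarith
  have hNT : ∀ i, (|(ρ i).1| + |(ρ i).2|) * (N i : ℤ) ≤ (T i : ℤ) := by
    intro i
    have h3 : (|(((ρ i).1 : ℤ) : ℝ)| + |(((ρ i).2 : ℤ) : ℝ)|) * (N i : ℝ) ≤ (T i : ℝ) := by
      calc (|(((ρ i).1 : ℤ) : ℝ)| + |(((ρ i).2 : ℤ) : ℝ)|) * (N i : ℝ)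
          ≤ K * (N i : ℝ) := mul_le_mul_of_nonneg_right (KF.le_kb ρ i) (Nat.cast_nonneg _)
        _ ≤ K * ((B₀ + 1) * (h i)⁻¹) := mul_le_mul_of_nonneg_left (hN2 i) (by linarith)
        _ = (K * (B₀ + 1)) * (h i)⁻¹ := by ring
        _ ≤ A3 * (h i)⁻¹ := by
            refine mul_le_mul_of_nonneg_right ?_ (zero_le_one.trans (hinv1 i))
            rw [hA3]
            linarith
        _ ≤ (T i : ℝ) := hT1 i
    exact_mod_cast h3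
  choose D Z e hD0 hDb hZb hZc hZf heb hex using fun i => hLx i (N i) (T i) (hNT i)
  set M : ι → ℕ := fun i => L i * (N i + T i + 1) with hM
  have hMG : ∀ i, (M i : ℝ) ≤ G * (h i)⁻¹ := by
    intro i
    have h3 := hN2 i
    have h4 := hT2 i
    have h5 := hinv1 i
    simp only [hM]
    push_cast
    calc (L i : ℝ) * ((N i : ℝ) + (T i : ℝ) + 1)
        ≤ Lr * ((B₀ + A3 + 3) * (h i)⁻¹) := by
          refine mul_le_mul (hLr0 i) ?_ (by positivity) (by linarith)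
          linarith
      _ = G * (h i)⁻¹ := by rw [hG]; ring
  have hNM : ∀ i, N i ≤ M i := by
    intro i
    simp only [hM]
    have h3 := hL1 i
    nlinarith
  set S : ℕ := ∑ i, M i with hS
  have hSH : (S : ℝ) ≤ G * ∑ i, (h i)⁻¹ := by
    rw [hS, Finset.mul_sum]
    push_cast
    exact Finset.sum_le_sum fun i _ => hMG i
  set Y : ℕ := 2 ^ (4 * S) with hY
  have hY1 : 1 ≤ Y := Nat.one_le_two_pow
  have h2SY : (2 : ℕ) ^ S ≤ Y := by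
    rw [hY]
    exact Nat.pow_le_pow_right (by norm_num) (by omega)
  have hsN : ∀ a ∈ s, ∀ i, |(a i).1| ≤ (N i : ℤ) ∧ |(a i).2| ≤ (N i : ℤ) := by
    intro a ha i
    have h3 := hs1 a ha i
    refine ⟨?_, ?_⟩
    · have h4 := h3.1.trans (hN1 i)
      exact_mod_cast h4
    · have h4 := h3.2.trans (hN1 i)
      exact_mod_cast h4
  have hsY : s.card ≤ Y := by
    refine (Pool.Agent.AL.ME.card_s_le N s hsN).trans ?_
    rw [hY, hS]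
    refine Nat.pow_le_pow_right (by norm_num) ?_
    exact Nat.mul_le_mul_left 4 (Finset.sum_le_sum fun i _ => hNM i)
  have hZc' : ∀ i, (Z i).card ≤ M i := fun i => hZc i
  set box : Finset (ι → ℤ × ℤ) := Fintype.piFinset Z with hbox
  have hboxY : box.card ≤ Y := by
    refine le_trans ?_ h2SY
    rw [hbox, Fintype.card_piFinset, hS, ← Finset.prod_pow_eq_pow_sum]
    exact Finset.prod_le_prod' fun i _ => (hZc' i).trans Nat.lt_two_pow_self.le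
  have hprod : ∀ (a τ : ι → ℤ × ℤ), |∏ i, e i (a i) (τ i)| ≤ (Y : ℤ) := by
    intro a τ
    have h3 : |∏ i, e i (a i) (τ i)| ≤ ((2 ^ S : ℕ) : ℤ) := by
      rw [Finset.abs_prod, hS, ← Finset.prod_pow_eq_pow_sum]
      push_cast
      exact Finset.prod_le_prod (fun i _ => abs_nonneg _) fun i _ => heb i (a i) (τ i)
    exact h3.trans (by exact_mod_cast h2SY)
  have hDY : |∏ i, D i| ≤ (Y : ℤ) := by
    have h3 : |∏ i, D i| ≤ ((2 ^ S : ℕ) : ℤ) := by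
      rw [Finset.abs_prod, hS, ← Finset.prod_pow_eq_pow_sum]
      push_cast
      exact Finset.prod_le_prod (fun i _ => abs_nonneg _) fun i _ => hDb i
    exact h3.trans (by exact_mod_cast h2SY)
  -- the killed indices
  set Kil : Finset (ι → ℤ × ℤ) := box.filter fun τ =>
    (∀ i ∈ R, key (ρ i) (τ i) < (T i : ℤ)) ∧ ∀ w ∈ wsp F R ρ,
      |∑ i, h i * ((key (ρ i) (τ i) : ℤ) : ℝ) * w i| ≤ ((A + rb ρ + 1) * κ) * ‖w‖ with hKil
  have hZr : ∀ i, ∀ τ ∈ Z i, |((τ.1 : ℤ) : ℝ)| ≤ G * (h i)⁻¹ ∧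
      |((τ.2 : ℤ) : ℝ)| ≤ G * (h i)⁻¹ := by
    intro i τ hτ
    have h3 := hZb i τ hτ
    have h4 : |((τ.1 : ℤ) : ℝ)| ≤ (M i : ℝ) := by
      simp only [hM]
      exact_mod_cast h3.1
    have h5 : |((τ.2 : ℤ) : ℝ)| ≤ (M i : ℝ) := by
      simp only [hM]
      exact_mod_cast h3.2
    exact ⟨h4.trans (hMG i), h5.trans (hMG i)⟩
  have hcard : 2 * Kil.card ≤ s.card := by
    have h3 := hcount h ((A + rb ρ + 1) * κ) Z (fun i => (T i : ℤ))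
      (fun i => ⟨hh0 i, hhT i, hh1 i⟩) (fun i τ hτ => by
        have h4 := KF.abs_key_le (ρ i) τ (hZr i τ hτ).1 (hZr i τ hτ).2
        have h5 : 0 ≤ G * (h i)⁻¹ := mul_nonneg hG0.le (zero_le_one.trans (hinv1 i))
        refine h4.trans ?_
        rw [mul_assoc K G]
        exact mul_le_mul_of_nonneg_right (KF.le_kb ρ i) h5)
      (fun i => by
        have h4 : ((Z i).card : ℝ) ≤ (M i : ℝ) := by exact_mod_cast hZc' i
        refine (h4.trans (hMG i)).trans ?_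
        have h5 : 0 ≤ G * (h i)⁻¹ := mul_nonneg hG0.le (zero_le_one.trans (hinv1 i))
        rw [mul_assoc K G]
        exact le_mul_of_one_le_left h5 hK1)
      (fun i _ α hα => by
        have h4 : ((((Z i).filter fun τ => key (ρ i) τ = α).card : ℕ) : ℝ) ≤ (L i : ℝ) := by
          exact_mod_cast hZf i α hα
        refine h4.trans ((hLr0 i).trans (hG2.trans ?_))
        exact le_mul_of_one_le_left hG0.le hK1)
    have h4 : (Kil.card : ℝ) ≤ C₁ * ((A + rb ρ + 1) * κ) ^ (x + 1) * ∏ i, (h i)⁻¹ := by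
      refine le_trans (le_of_eq ?_) h3
      refine congrArg (fun m : Finset (ι → ℤ × ℤ) => ((m.card : ℕ) : ℝ)) ?_
      ext α
      simp only [hKil, hbox, Finset.mem_filter, Fintype.mem_piFinset]
    have h5 : 0 < ∏ i, (h i)⁻¹ := Finset.prod_pos fun i _ => inv_pos.mpr (hh0 i)
    have h6 : (2 : ℝ) * Kil.card ≤ s.card := by
      refine le_trans ?_ hs4
      calc (2 : ℝ) * Kil.card
          ≤ 2 * (C₁ * ((A + rb ρ + 1) * κ) ^ (x + 1) * ∏ i, (h i)⁻¹) := by linarith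
        _ = (2 * (C₁ * ((A + rb ρ + 1) * κ) ^ (x + 1))) * ∏ i, (h i)⁻¹ := by ring
        _ ≤ (a₀ * κ ^ x) * ∏ i, (h i)⁻¹ := mul_le_mul_of_nonneg_right hκ h5.le
    exact_mod_cast h6
  have hspos : 0 < s.card := by
    have h5 : 0 < ∏ i, (h i)⁻¹ := Finset.prod_pos fun i _ => inv_pos.mpr (hh0 i)
    have h6 : (0 : ℝ) < s.card := lt_of_lt_of_le (by positivity) hs4
    exact_mod_cast h6
  obtain ⟨t, ht0, ht', htY⟩ := Pool.Agent.AL.siegel_ms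
    (fun (α : {α // α ∈ Kil}) (a : {a // a ∈ s}) => ∏ i, e i (a.1 i) (α.1 i)) Y hY1
    (fun α a => hprod a.1 α.1) (by simpa [Fintype.card_coe] using hcard)
    (by simpa [Fintype.card_coe] using hspos)
  set q : (ι → ℤ × ℤ) → ℤ := fun a => if h : a ∈ s then t ⟨a, h⟩ else 0 with hq
  have hqs : ∀ a : {a // a ∈ s}, q a.1 = t a := by
    intro a
    simp only [hq]
    rw [dif_pos a.2]
  have hqsum : ∀ g : (ι → ℤ × ℤ) → ℤ, ∑ a ∈ s, q a * g a = ∑ a : {a // a ∈ s}, t a * g a.1 := by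
    intro g
    rw [← Finset.sum_attach]
    rw [Finset.univ_eq_attach]
    refine Finset.sum_congr rfl fun a _ => ?_
    rw [hqs a]
  obtain ⟨b₀, hb₀⟩ : ∃ a, t a ≠ 0 := by
    by_contra hcon
    push Not at hcon
    exact ht0 (funext hcon)
  have hq₀ : q b₀.1 ≠ 0 := by rw [hqs]; exact hb₀
  have hYr : (1 : ℝ) ≤ (Y : ℝ) := by exact_mod_cast hY1
  have hqa : ∀ a ∈ s, |(q a : ℝ)| ≤ (Y : ℝ) ^ 2 := by
    intro a ha
    have h3 := htY ⟨a, ha⟩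
    rw [← hqs ⟨a, ha⟩, Fintype.card_coe] at h3
    have h4 : |(q a : ℝ)| ≤ (s.card : ℝ) * (Y : ℝ) := by exact_mod_cast h3
    have h5 : (s.card : ℝ) ≤ (Y : ℝ) := by exact_mod_cast hsY
    refine h4.trans ?_
    rw [pow_two]
    exact mul_le_mul_of_nonneg_right h5 (by positivity)
  have hsr : (s.card : ℝ) ≤ (Y : ℝ) := by exact_mod_cast hsY
  have hqS : ∑ a ∈ s, |(q a : ℝ)| ≤ (Y : ℝ) ^ 3 := by
    refine (Finset.sum_le_sum hqa).trans ?_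
    rw [Finset.sum_const, nsmul_eq_mul]
    calc (s.card : ℝ) * (Y : ℝ) ^ 2 ≤ (Y : ℝ) * (Y : ℝ) ^ 2 :=
          mul_le_mul_of_nonneg_right hsr (by positivity)
      _ = (Y : ℝ) ^ 3 := by ring
  have hYc : (Y : ℝ) = (2 : ℝ) ^ (4 * S) := by rw [hY]; push_cast; rfl
  set c : (ι → ℤ × ℤ) → ℤ := fun τ => ∑ a ∈ s, q a * ∏ i, e i (a i) (τ i) with hc
  have hcY : ∀ τ, |(c τ : ℝ)| ≤ (Y : ℝ) ^ 4 := by
    intro τ
    simp only [hc]
    push_cast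
    refine (Finset.abs_sum_le_sum_abs _ _).trans ?_
    have h3 : ∀ a ∈ s, |(q a : ℝ) * ∏ i, (e i (a i) (τ i) : ℝ)| ≤ |(q a : ℝ)| * (Y : ℝ) := by
      intro a _
      rw [abs_mul]
      refine mul_le_mul_of_nonneg_left ?_ (abs_nonneg _)
      have h4 := hprod a τ
      exact_mod_cast h4
    refine (Finset.sum_le_sum h3).trans ?_
    rw [← Finset.sum_mul]
    calc (∑ a ∈ s, |(q a : ℝ)|) * (Y : ℝ) ≤ (Y : ℝ) ^ 3 * (Y : ℝ) :=
          mul_le_mul_of_nonneg_right hqS (by positivity)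
      _ = (Y : ℝ) ^ 4 := by ring
  have hend : ∀ y : ℝ, y ≤ 20 * (G * ∑ i, (h i)⁻¹) →
      y ≤ (20 * G + 2 * B₀ * Fintype.card ι) * ∑ i, (h i)⁻¹ := by
    intro y hy
    have h3 := mul_nonneg hcard0 hH0
    nlinarith
  have hEB : ∀ (a : ι → ℤ × ℤ) (B : ℝ), B ≤ G → EB h B a →
      EB h (20 * G + 2 * B₀ * Fintype.card ι) a := by
    intro a B hB ha i
    have h3 := zero_le_one.trans (hinv1 i)
    have h4 : B * (h i)⁻¹ ≤ (20 * G + 2 * B₀ * Fintype.card ι) * (h i)⁻¹ :=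
      mul_le_mul_of_nonneg_right (by linarith) h3
    exact ⟨(ha i).1.trans h4, (ha i).2.trans h4⟩
  refine ⟨s, q, ⟨b₀.1, b₀.2, hq₀⟩, hs3, fun a ha => hEB a B₀ (by linarith) (hs1 a ha), ?_,
    fun a ha v hv => (le_abs_self _).trans (hs2 a ha v hv), ∏ i, D i,
    box.filter fun τ => c τ ≠ 0, c, Finset.prod_ne_zero_iff.mpr fun i _ => hD0 i, ?_, ?_, ?_, ?_,
    ?_⟩
  · refine hend _ ?_
    refine Pool.Agent.AL.ME.log_bd (Finset.sum_nonneg fun a _ => abs_nonneg _) ?_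
      (by norm_num : 3 ≤ 5) hSH
    rw [← hYc]
    exact hqS
  · refine hend _ ?_
    refine Pool.Agent.AL.ME.log_bd (abs_nonneg _) ?_ (by norm_num : 1 ≤ 5) hSH
    rw [← hYc, pow_one]
    exact_mod_cast hDY
  · exact KF.same C N D Z e (fun i a h3 h4 => (hex i a h3 h4).2) s hsN q c fun τ => rfl
  · intro τ hτ
    refine hEB τ G le_rfl fun i => ?_
    exact hZr i (τ i) (Fintype.mem_piFinset.mp (Finset.mem_filter.mp hτ).1 i)
  · refine hend _ ?_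
    refine Pool.Agent.AL.ME.log_bd (Finset.sum_nonneg fun a _ => abs_nonneg _) ?_ (le_refl 5) hSH
    rw [← hYc]
    refine (Finset.sum_le_sum fun α _ => hcY α).trans ?_
    rw [Finset.sum_const, nsmul_eq_mul]
    have h3 : (((box.filter fun α => c α ≠ 0).card : ℕ) : ℝ) ≤ (Y : ℝ) := by
      exact_mod_cast (Finset.card_le_card (Finset.filter_subset _ _)).trans hboxY
    calc (((box.filter fun α => c α ≠ 0).card : ℕ) : ℝ) * (Y : ℝ) ^ 4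
        ≤ (Y : ℝ) * (Y : ℝ) ^ 4 := mul_le_mul_of_nonneg_right h3 (by positivity)
      _ = (Y : ℝ) ^ 5 := by ring
  · intro τ hτ l v μ hv hμ hl hlR
    obtain ⟨hτb, hcτ⟩ := Finset.mem_filter.mp hτ
    have hnk : τ ∉ Kil := by
      intro hk
      apply hcτ
      simp only [hc]
      rw [hqsum]
      exact ht' ⟨τ, hk⟩
    obtain ⟨a, ha, hqa'⟩ : ∃ a ∈ s, q a * ∏ i, e i (a i) (τ i) ≠ 0 := by
      by_contra hcon
      push Not at hcon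
      apply hcτ
      simp only [hc]
      exact Finset.sum_eq_zero hcon
    have hkey : ∀ i, key (ρ i) (a i) ≤ key (ρ i) (τ i) := by
      intro i
      have h3 : e i (a i) (τ i) ≠ 0 := by
        intro h0
        apply hqa'
        rw [Finset.prod_eq_zero (Finset.mem_univ i) h0, mul_zero]
      exact (hex i (a i) (hsN a ha i).1 (hsN a ha i).2).1 (τ i) h3
    have hfin : pz h τ (vec ρ l) ≤
        -(A * κ * μ) + κ * ‖v‖ + 2 * B₀ * Fintype.card ι * ‖vec ρ l - v‖ := by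
      by_cases hR : ∀ i ∈ R, key (ρ i) (τ i) < (T i : ℤ)
      · have hw : ∃ w ∈ wsp F R ρ, ((A + rb ρ + 1) * κ) * ‖w‖ <
            |∑ i, h i * ((key (ρ i) (τ i) : ℤ) : ℝ) * w i| := by
          by_contra hcon
          push Not at hcon
          apply hnk
          rw [hKil]
          exact Finset.mem_filter.mpr ⟨hτb, hR, hcon⟩
        exact KF.case2 F R ρ hρ h hh0 A κ B₀ hκ0.le a (hs1 a ha) (fun f hf => hs2 a ha f hf) τ
          hkey hw l v μ hv hμ hl hlR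
      · push Not at hR
        obtain ⟨i₀, hi₀, hTi⟩ := hR
        have h3 : A3 * (h i₀)⁻¹ ≤ ((key (ρ i₀) (τ i₀) : ℤ) : ℝ) := by
          refine (hT1 i₀).trans ?_
          exact_mod_cast hTi
        exact KF.case1 F R ρ h hh0 A κ B₀ A3 hA hκ1 (by rw [hA3]; nlinarith) (by linarith) a
          (hs1 a ha) (fun f hf => hs2 a ha f hf) τ hkey i₀ hi₀ h3 l v μ hv hμ hl hlR
    refine hfin.trans ?_
    have h4 : 2 * B₀ * Fintype.card ι * ‖vec ρ l - v‖ ≤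
        (20 * G + 2 * B₀ * Fintype.card ι) * ‖vec ρ l - v‖ :=
      mul_le_mul_of_nonneg_right (by linarith) (norm_nonneg _)
    linarith

end Pool.Agent.PC
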