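import Pool.Agent.Lib.MP_c95b3b_ag_AL.Defs

/-! Project PC (MP_c95b3b_ag): special points of products of `k` plane curves. Definitions. -/

namespace Pool.Agent.PC

open Pool.Agent.L3 Pool.Agent.AL Module MvPolynomial

/-- the largest value of the linear form `u` on the exponents of `f` is attained at least twice,
that is, `u` is the direction of a ray of the tropical curve of `f` -/
def IsEdge (f : MvPolynomial (Fin 2) ℤ) (u : ℤ × ℤ) : Prop :=
  ∃ a ∈ f.support, ∃ b ∈ f.support, a ≠ b ∧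
    u.1 * (a 0 : ℤ) + u.2 * (a 1 : ℤ) = u.1 * (b 0 : ℤ) + u.2 * (b 1 : ℤ) ∧
    ∀ c ∈ f.support, u.1 * (c 0 : ℤ) + u.2 * (c 1 : ℤ) ≤ u.1 * (a 0 : ℤ) + u.2 * (a 1 : ℤ)

/-- pairing of exponents with the ray `u` -/
def pr (u a : ℤ × ℤ) : ℤ := a.1 * u.1 + a.2 * u.2

/-- a plane curve over the rational numbers with its rays. For the rays in `good`: if a Laurent
polynomial over an algebraically closed field `E` vanishes at a generic point of a component of the
curve, then its leading part in the direction of the ray vanishes at a certain algebraic point of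
the torus -/
structure Crv (m : ℕ) where
  f : MvPolynomial (Fin 2) ℤ
  irr : Irreducible f
  degX : 0 < f.degreeOf 0
  degY : 0 < f.degreeOf 1
  ray : Fin m → ℤ × ℤ
  cop : ∀ j, IsCoprime (ray j).1 (ray j).2
  edge : ∀ j, IsEdge f (ray j)
  all : ∀ u : ℤ × ℤ, IsCoprime u.1 u.2 → IsEdge f u → ∃ j, ray j = u
  good : Finset (Fin m)
  two : ∃ j ∈ good, ∃ j' ∈ good, (ray j).1 * (ray j').2 ≠ (ray j).2 * (ray j').1
  ind : ∀ (E : Subfield ℂ) (x y : ℂ), IsAlgClosed E → Transcendental E x →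
    aeval ![x, y] f = 0 → ∀ j ∈ good, ∃ z₁ z₂ : ℂ, z₁ ≠ 0 ∧ z₂ ≠ 0 ∧ IsAlgebraic ℚ z₁ ∧
      IsAlgebraic ℚ z₂ ∧ ∀ (s : Finset (ℤ × ℤ)) (c : ℤ × ℤ → ℂ) (κ : ℤ), (∀ a ∈ s, c a ∈ E) →
        (∀ a ∈ s, c a ≠ 0 → pr (ray j) a ≤ κ) → ∑ a ∈ s, c a * (x ^ a.1 * y ^ a.2) = 0 →
        ∑ a ∈ s with pr (ray j) a = κ, c a * (z₁ ^ a.1 * z₂ ^ a.2) = 0

/-- the polynomial as a polynomial in the second variable -/
noncomputable def toY : MvPolynomial (Fin 2) ℤ →ₐ[ℤ] Polynomial (Polynomial ℤ) :=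
  aeval ![Polynomial.C Polynomial.X, Polynomial.X]

/-- `η` is the Taylor series at `x` of the root with the value `y` -/
structure IsTay (f : MvPolynomial (Fin 2) ℤ) {A : Type} [CommRing A] (x y : A)
    (η : PowerSeries A) : Prop where
  const : PowerSeries.constantCoeff η = y
  root : aeval ![PowerSeries.C x + PowerSeries.X, η] f = 0

/-- `Bd` is squarefree, its roots are the bad values of the first coordinate, `G` has only bad
roots and kills the denominators -/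
structure IsBad {m : ℕ} (C : Crv m) (Bd G : Polynomial ℤ) : Prop where
  sep : (Bd.map (Int.castRingHom ℚ)).Separable
  deg : 1 ≤ Bd.natDegree
  zero : Bd.eval 0 = 0
  ne : G ≠ 0
  dvd : ∃ (c : ℤ) (k : ℕ), c ≠ 0 ∧ G ∣ Polynomial.C c * Bd ^ k
  der : ∃ U V : MvPolynomial (Fin 2) ℤ,
    Polynomial.aeval (X 0 : MvPolynomial (Fin 2) ℤ) G = U * C.f + V * pderiv 1 C.f
  con : ∃ U V : MvPolynomial (Fin 2) ℤ,
    Polynomial.aeval (X 0 : MvPolynomial (Fin 2) ℤ) G = U * C.f + V * X 1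
  lead : (toY C.f).leadingCoeff ∣ G

section
variable {m : ℕ} {ι : Type}

/-- the points of the product of the curves with coordinates in the units of a ring -/
def OnC (C : ι → Crv m) {A : Type} [CommRing A] (x y : ι → Aˣ) : Prop :=
  ∀ i, aeval ![(x i : A), (y i : A)] (C i).f = 0

/-- the value of the Laurent polynomial `∑ q t * ∏ x i ^ (t i).1 * y i ^ (t i).2` -/
noncomputable def lval [Fintype ι] {R A : Type} [CommRing R] [CommRing A] [Algebra R A]
    (T : Finset (ι → ℤ × ℤ)) (q : (ι → ℤ × ℤ) → R) (x y : ι → Aˣ) : A :=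
  ∑ t ∈ T, algebraMap R A (q t) * ((∏ i, (x i ^ (t i).1 * y i ^ (t i).2) : Aˣ) : A)

/-- two Laurent polynomials, with coefficients in `ℤ` and in `K`, define the same function on the
product of the curves -/
def SameC [Fintype ι] (C : ι → Crv m) (T₀ : Finset (ι → ℤ × ℤ)) (q₀ : (ι → ℤ × ℤ) → ℤ)
    {K : Type} [Field K] (T : Finset (ι → ℤ × ℤ)) (q : (ι → ℤ × ℤ) → K) : Prop :=
  ∀ (A : Type) [CommRing A] [Algebra K A] (x y : ι → Aˣ), OnC C x y →
    lval T₀ q₀ x y = lval T q x y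

/-- the Laurent polynomial divides the polynomial `N` in the coordinates `x` on the product of the
curves -/
def DvdC [Fintype ι] (C : ι → Crv m) (T₀ : Finset (ι → ℤ × ℤ)) (q₀ : (ι → ℤ × ℤ) → ℤ)
    (N : MvPolynomial ι ℤ) : Prop :=
  ∀ (A : Type) [CommRing A] (x y : ι → Aˣ), OnC C x y →
    lval T₀ q₀ x y ∣ aeval (fun i => (x i : A)) N

/-- `u` is a point of the curve with coordinates in the units of `S` -/
structure UC (C : Crv m) {K : Type} [Field K] (S : Subring K) (u : K × K) : Prop where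
  ne1 : u.1 ≠ 0
  ne2 : u.2 ≠ 0
  on : aeval ![u.1, u.2] C.f = 0
  mem1 : u.1 ∈ S
  mem2 : u.2 ∈ S
  inv1 : u.1⁻¹ ∈ S
  inv2 : u.2⁻¹ ∈ S

/-- **(STAR)** for products of curves: the product formula with error `ε * M` for Laurent
polynomials `V` of multidegree `O (M / s i)` and height `O (M / s1)`. The representation of `V`
at the place `w` may have coefficients in `K`. -/
def StarC [Fintype ι] (C : ι → Crv m) {K : Type} [Field K] {S : Subring K} (P : Places K S)
    (U : ι → K × K) (s : ι → ℝ) (s1 A ε : ℝ) : Prop :=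
  ∀ (M : ℝ) (T₀ : Finset (ι → ℤ × ℤ)) (q₀ : (ι → ℤ × ℤ) → ℤ) (N : MvPolynomial ι ℤ)
    (b L : P.Pl → ℝ), s1 ≤ M → (∀ i, s i ≤ M) → N ≠ 0 →
    (∀ i, (N.degreeOf i : ℝ) ≤ A * M / s i) → Real.log (l1 N) ≤ A * M / s1 → DvdC C T₀ q₀ N →
    (∀ w, 0 ≤ L w) → P.avg L ≤ A * M / s1 →
    (∀ w, ∃ (T : Finset (ι → ℤ × ℤ)) (q : (ι → ℤ × ℤ) → K), SameC C T₀ q₀ T q ∧
      (∀ t ∈ T, ∀ i, |((t i).1 : ℝ)| ≤ A * M / s i ∧ |((t i).2 : ℝ)| ≤ A * M / s i) ∧
      (∀ t ∈ T, absP w (q t) ≤ Real.exp (L w)) ∧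
      ∀ t ∈ T, ∑ i, (((t i).1 : ℝ) * P.lg w (U i).1 + ((t i).2 : ℝ) * P.lg w (U i).2) ≤ b w) →
    -(ε * M) ≤ P.avg b

/-- the two functions which measure the distance from the bad values of the coordinate `x` -/
noncomputable def gyC (Bd : Polynomial ℤ) (ε : Bool) {K : Type} [Field K] (x : K) : K :=
  if ε then Polynomial.aeval x Bd else x

/-- the radius -/
noncomputable def rad (Bd : Polynomial ℤ) {K : Type} [Field K] {S : Subring K} {P : Places K S}
    (w : P.Pl) (x : K) : ℝ := min (absP w (Polynomial.aeval x Bd)) (absP w x)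

end

end Pool.Agent.PC
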