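import Pool.Agent.Lib.MP_c95b3b_ag_PC.DefsK
import Pool.Agent.Lib.MP_c95b3b_ag_PN.Fin

/-! Project PC, module KN: interface to the norm polynomial. -/

namespace Pool.Agent.PC

open MvPolynomial Pool.Agent.AL

/-- a Laurent polynomial whose exponents have different orders at a family of good rays divides
a non-zero polynomial in the coordinates `x` -/
theorem exists_norm {m : ℕ} {ι : Type} [Fintype ι] [DecidableEq ι] (C : ι → Crv m) :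
    ∃ B : ℝ, 1 ≤ B ∧ ∀ (D : ι → ℕ) (T₀ : Finset (ι → ℤ × ℤ)) (q₀ : (ι → ℤ × ℤ) → ℤ)
      (j : ι → Fin m), (∀ i, j i ∈ (C i).good) →
      (∀ t ∈ T₀, ∀ i, |(t i).1| ≤ D i ∧ |(t i).2| ≤ D i) →
      Set.InjOn (fun (t : ι → ℤ × ℤ) i => pr ((C i).ray (j i)) (t i)) T₀ →
      (∃ t ∈ T₀, q₀ t ≠ 0) →
      ∃ N : MvPolynomial ι ℤ, N ≠ 0 ∧ (∀ i, (N.degreeOf i : ℝ) ≤ B * (D i + 1)) ∧
        Real.log (l1 N) ≤ B * (Real.log (∑ t ∈ T₀, |(q₀ t : ℝ)|) + ∑ i, ((D i : ℝ) + 1)) ∧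
        DvdC C T₀ q₀ N :=
  PN.exists_norm C

end Pool.Agent.PC
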