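import Pool.Agent.Lib.MP_c95b3b_ag_PC.DefsK
import Pool.Agent.Lib.MP_c95b3b_ag_PC.ExistsQK
import Pool.Agent.Lib.MP_c95b3b_ag_PC.NormK
import Pool.Agent.Lib.MP_c95b3b_ag_L3.Place2

/-! Project PC, module KG: no mass in bad cells. -/

namespace Pool.Agent.PC

open Pool.Agent.L3 Module

namespace KG

open Pool.Agent.AL MvPolynomial

theorem norm_f_le {E : Type} [SeminormedAddCommGroup E] (a f : E) : ‖f‖ ≤ ‖a‖ + ‖a - f‖ := by
  have h : f = a - (a - f) := by abel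
  calc ‖f‖ = ‖a - (a - f)‖ := by rw [← h]
    _ ≤ _ := norm_sub_le _ _

/-- the logarithm of the sum of the absolute values of integers is not negative -/
theorem log_sum_nonneg {σ : Type} (T : Finset σ) (c : σ → ℤ) :
    0 ≤ Real.log (∑ t ∈ T, |(c t : ℝ)|) := by
  have h : ∑ t ∈ T, |(c t : ℝ)| = ((∑ t ∈ T, |c t| : ℤ) : ℝ) := by
    push_cast
    rfl
  rw [h]
  exact Real.log_intCast_nonneg _

theorem abs_le_exp {σ : Type} (T : Finset σ) (c : σ → ℤ) (t : σ) (ht : t ∈ T) :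
    |(c t : ℝ)| ≤ Real.exp (Real.log (∑ t ∈ T, |(c t : ℝ)|)) :=
  (Finset.single_le_sum (f := fun t => |(c t : ℝ)|) (fun _ _ => abs_nonneg _) ht).trans
    (Real.le_exp_log _)

theorem one_le_abs {D : ℤ} (hD : D ≠ 0) : (1 : ℝ) ≤ |(D : ℝ)| := by
  have h : (1 : ℤ) ≤ |D| := Int.one_le_abs hD
  exact_mod_cast h

section
variable {ι : Type} [Fintype ι] {m : ℕ}

theorem same_cast (C : ι → Crv m) (T : Finset (ι → ℤ × ℤ)) (q : (ι → ℤ × ℤ) → ℤ)
    {K : Type} [Field K] : SameC C T q T (fun t => ((q t : ℤ) : K)) := by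
  intro A _ _ x y _
  unfold lval
  refine Finset.sum_congr rfl fun t _ => ?_
  rw [map_intCast, eq_intCast]

theorem same_div (C : ι → Crv m) (s : Finset (ι → ℤ × ℤ)) (q : (ι → ℤ × ℤ) → ℤ)
    (T : Finset (ι → ℤ × ℤ)) (c : (ι → ℤ × ℤ) → ℤ) (D : ℤ) (h : SameZ C D s q T c)
    {K : Type} [Field K] (hD : ((D : ℤ) : K) ≠ 0) :
    SameC C s q T (fun t => ((c t : ℤ) : K) / ((D : ℤ) : K)) := by
  intro A _ _ x y hxy
  have h1 := h A x y hxy
  have h2 : lval T (fun t => ((c t : ℤ) : K) / ((D : ℤ) : K)) x y =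
      algebraMap K A ((D : K))⁻¹ * lval T c x y := by
    unfold lval
    rw [Finset.mul_sum]
    refine Finset.sum_congr rfl fun t _ => ?_
    simp only
    rw [div_eq_inv_mul, map_mul, map_intCast, eq_intCast, mul_assoc]
  rw [h2, ← h1, ← mul_assoc]
  have h3 : algebraMap K A ((D : K))⁻¹ * (D : A) = 1 := by
    have h4 : (D : A) = algebraMap K A (D : K) := by rw [map_intCast]
    rw [h4, ← map_mul, inv_mul_cancel₀ hD, map_one]
  rw [h3, one_mul]

theorem sum_lg_eq {K : Type} [Field K] {S : Subring K} (P : Places K S) (U : ι → K × K)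
    (s : ι → ℝ) (hs : ∀ i, 0 < s i) (M : ℝ) (hM : 0 < M) (t : ι → ℤ × ℤ) (w : P.Pl) :
    ∑ i, (((t i).1 : ℝ) * P.lg w (U i).1 + ((t i).2 : ℝ) * P.lg w (U i).2) =
      M * pz (fun i => s i / M) t (lsc P U s w) := by
  unfold pz
  rw [Finset.mul_sum]
  refine Finset.sum_congr rfl fun i _ => ?_
  have h1 := (hs i).ne'
  have h2 := hM.ne'
  simp only [lsc, lvc, Prod.smul_fst, Prod.smul_snd, smul_eq_mul]
  field_simp

/-- the bound for the logarithms of the coefficients -/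
noncomputable def Lw {K : Type} [Field K] {S : Subring K} (P : Places K S) (a : ℝ) (D : ℤ)
    (w : P.Pl) : ℝ := Sum.elim (fun _ => a) (fun j => -Real.log (P.v j (D : K))) w

theorem Lw_nonneg {K : Type} [Field K] {S : Subring K} (P : Places K S) {a : ℝ} (ha : 0 ≤ a)
    {D : ℤ} (hD : D ≠ 0) (w : P.Pl) : 0 ≤ Lw P a D w := by
  rcases w with i | j
  · exact ha
  · have h := Real.log_nonpos (PL2.v_int_pos P j hD).le (P.v_int j D)
    change 0 ≤ -Real.log (P.v j (D : K))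
    linarith

theorem avg_Lw {K : Type} [Field K] {S : Subring K} (P : Places K S) (a : ℝ)
    {D : ℤ} (hD : D ≠ 0) : P.avg (Lw P a D) ≤ a + Real.log |(D : ℝ)| := by
  have h := PL2.sum_int P D hD
  unfold Places.avg
  rw [div_le_iff₀ P.D_cast_pos, Fintype.sum_sum_type]
  simp only [Lw, Sum.elim_inl, Sum.elim_inr, Finset.sum_const, Finset.card_univ,
    Fintype.card_fin, nsmul_eq_mul]
  nlinarith

theorem absP_cast {K : Type} [Field K] {S : Subring K} (P : Places K S) {a : ℝ} (ha : 0 ≤ a)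
    {D : ℤ} (hD : D ≠ 0) (w : P.Pl) (c : ℤ) (hc : |(c : ℝ)| ≤ Real.exp a) :
    absP w ((c : ℤ) : K) ≤ Real.exp (Lw P a D w) := by
  rcases w with i | j
  · change ‖P.σ i ((c : ℤ) : K)‖ ≤ Real.exp a
    rw [map_intCast, Complex.norm_intCast]
    exact hc
  · refine (P.v_int j c).trans ?_
    exact Real.one_le_exp (Lw_nonneg P ha hD (Sum.inr j))

theorem absP_div {K : Type} [Field K] {S : Subring K} (P : Places K S) {a : ℝ}
    {D : ℤ} (hD : D ≠ 0) (w : P.Pl) (c : ℤ) (hc : |(c : ℝ)| ≤ Real.exp a) :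
    absP w (((c : ℤ) : K) / ((D : ℤ) : K)) ≤ Real.exp (Lw P a D w) := by
  rcases w with i | j
  · change ‖P.σ i (((c : ℤ) : K) / ((D : ℤ) : K))‖ ≤ Real.exp a
    rw [map_div₀, map_intCast, map_intCast, norm_div, Complex.norm_intCast,
      Complex.norm_intCast]
    refine le_trans ?_ hc
    exact div_le_self (abs_nonneg _) (one_le_abs hD)
  · change P.v j (((c : ℤ) : K) / ((D : ℤ) : K)) ≤ Real.exp (-Real.log (P.v j (D : K)))
    have hp := PL2.v_int_pos P j hD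
    rw [map_div₀, Real.exp_neg, Real.exp_log hp, div_eq_mul_inv]
    exact mul_le_of_le_one_left (inv_nonneg.mpr hp.le) (P.v_int j c)

end

end KG

open Classical in
theorem no_mass {m : ℕ} {ι : Type} [Fintype ι] [DecidableEq ι] (C : ι → Crv m)
    (F : Submodule ℝ (ι → ℝ × ℝ)) (x : ℕ) (j' : ι → Fin m) (hj' : ∀ i, j' i ∈ (C i).good)
    (h1 : finrank ℝ (F ⊓ cel Finset.univ (rr C j') : Submodule ℝ _) ≤ x)
    (R : Finset ι) (j : ι → Fin m)
    (h2 : x < finrank ℝ (F ⊓ cel R (rr C j) : Submodule ℝ _))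
    (r ε B Eb : ℝ) (hr : 0 < r) (hε : 0 < ε) :
    ∃ δ H0 A ε0 : ℝ, 0 < δ ∧ 0 < ε0 ∧
      ∀ (K : Type) [Field K] (S : Subring K) (P : Places K S) (U : ι → K × K) (s : ι → ℝ)
        (s1 : ℝ) (f : P.Pl → ι → ℝ × ℝ) (g : P.Pl → ℝ) (V : P.Pl → Prop),
        (∀ i, UC (C i) S (U i)) → H0 ≤ s1 → 1 ≤ s1 → (∀ i, s1 ≤ s i) →
        StarC C P U s s1 A ε0 →
        P.avg (fun w => ‖lsc P U s w‖) ≤ B → (∀ w, f w ∈ F) →
        P.avg (fun w => ‖lsc P U s w - f w‖) ≤ δ → (∀ w, 0 ≤ g w) → P.avg g ≤ Eb →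
        (∀ w, V w → ∃ l : ι → ℝ, (∀ i, 0 ≤ l i) ∧ (∀ i ∈ R, r * ‖lsc P U s w‖ ≤ l i) ∧
          ‖lsc P U s w - vec (rr C j) l‖ ≤ g w / s1) →
        P.avg (fun w => if V w then ‖lsc P U s w‖ else 0) ≤ ε := by
  obtain ⟨B', hB'1, hB'B⟩ : ∃ B' : ℝ, 1 ≤ B' ∧ B ≤ B' := ⟨max B 1, le_max_right _ _, le_max_left _ _⟩
  have hrε : 0 < r * ε := mul_pos hr hε
  obtain ⟨A', hA'def⟩ : ∃ A' : ℝ, A' = 4 * (B' + 1) / (r * ε) := ⟨_, rfl⟩
  have hA' : 0 < A' := by rw [hA'def]; positivity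
  obtain ⟨κ, η, A1, hκ, hκ1, hη, hA1, hQ⟩ := exists_Q C F x j' h1 R j h2 A' hA'.le
  obtain ⟨Bn, hBn1, hBn⟩ := exists_norm (m := m) C
  have hne : Nonempty ι := by
    by_contra hn
    rw [not_nonempty_iff] at hn
    have h3 : finrank ℝ (F ⊓ cel R (rr C j) : Submodule ℝ (ι → ℝ × ℝ)) = 0 :=
      Module.finrank_zero_of_subsingleton
    omega
  obtain ⟨n, hn⟩ : ∃ n : ℝ, n = (Fintype.card ι : ℝ) := ⟨_, rfl⟩
  have hn1 : 1 ≤ n := by
    rw [hn]
    exact_mod_cast Fintype.card_pos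
  have hA10 : 0 < A1 := by linarith
  obtain ⟨c1, hc1⟩ : ∃ c1 : ℝ, c1 = A1 + 2 * A1 * n := ⟨_, rfl⟩
  have hc10 : 0 < c1 := by rw [hc1]; positivity
  obtain ⟨AA, hAA⟩ : ∃ AA : ℝ, AA = Bn * (3 * A1 + 1) * n := ⟨_, rfl⟩
  have hBn0 : 0 < Bn := by linarith
  have hAA1 : 3 * A1 * n ≤ AA := by
    rw [hAA]
    have h3 : 3 * A1 ≤ Bn * (3 * A1 + 1) := by nlinarith
    exact mul_le_mul_of_nonneg_right h3 (by linarith)
  have hAA2 : A1 ≤ AA := by nlinarith
  have hAA3 : Bn * (A1 + 1) ≤ AA := by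
    rw [hAA]
    have h3 : Bn * (A1 + 1) ≤ Bn * (3 * A1 + 1) :=
      mul_le_mul_of_nonneg_left (by linarith) hBn0.le
    have h4 : 0 ≤ Bn * (3 * A1 + 1) := by positivity
    nlinarith
  have hAA4 : Bn * ((2 * A1 + 1) * n) ≤ AA := by
    rw [hAA]
    have h3 : (2 * A1 + 1) * n ≤ (3 * A1 + 1) * n :=
      mul_le_mul_of_nonneg_right (by linarith) (by linarith)
    calc Bn * ((2 * A1 + 1) * n) ≤ Bn * ((3 * A1 + 1) * n) :=
          mul_le_mul_of_nonneg_left h3 hBn0.le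
      _ = Bn * (3 * A1 + 1) * n := by ring
  refine ⟨min 1 (κ / (κ + c1)), c1 * max Eb 0 / κ, AA, κ, by positivity, hκ, ?_⟩
  intro K _ S P U s s1 f g V hU hH hs1 hs hstar hB hf hδ hg0 hgE hV
  have hs10 : 0 < s1 := by linarith
  have hspos : ∀ i, 0 < s i := fun i => lt_of_lt_of_le hs10 (hs i)
  obtain ⟨N, hN⟩ : ∃ N : ℝ, N = 1 / η + 1 := ⟨_, rfl⟩
  have hN1 : 1 ≤ N := by
    rw [hN]
    have : 0 < 1 / η := by positivity
    linarith
  have hNη : 1 ≤ η * N := by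
    rw [hN, mul_add, mul_one_div_cancel hη.ne']
    linarith
  obtain ⟨M, hM⟩ : ∃ M : ℝ, M = N * ∑ i, s i := ⟨_, rfl⟩
  have hsum_ge : ∀ i, s i ≤ ∑ j, s j := fun i =>
    Finset.single_le_sum (fun j _ => (hspos j).le) (Finset.mem_univ i)
  have hsum0 : 0 ≤ ∑ j, s j := Finset.sum_nonneg fun j _ => (hspos j).le
  have hsM : ∀ i, s i ≤ M := by
    intro i
    rw [hM]
    nlinarith [hsum_ge i]
  have hs1M : s1 ≤ M := (hs hne.some).trans (hsM _)
  have hM0 : 0 < M := lt_of_lt_of_le hs10 hs1M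
  have hh : ∀ i, 0 < s i / M ∧ s i / M ≤ η := by
    intro i
    refine ⟨div_pos (hspos i) hM0, ?_⟩
    rw [div_le_iff₀ hM0, hM]
    have h3 : s i ≤ ∑ j, s j := hsum_ge i
    have h4 : ∑ j, s j ≤ (η * N) * ∑ j, s j := by nlinarith
    linarith
  obtain ⟨T0, q, hq0, hinj, he1, hl1, hp1, D, T, c, hD0, hDl, hsame, he2, hl2, hp2⟩ :=
    hQ (fun i => s i / M) hh
  -- sizes
  have hinv : ∀ i, (s i / M)⁻¹ = M / s i := fun i => inv_div _ _
  have hMs : 0 ≤ M / s1 := by positivity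
  have h1Ms : ∀ i, 1 ≤ M / s i := fun i => (one_le_div (hspos i)).mpr (hsM i)
  have hMsi : ∀ i, M / s i ≤ M / s1 := fun i => div_le_div_of_nonneg_left hM0.le hs10 (hs i)
  have hsumi : ∑ i, (s i / M)⁻¹ ≤ n * (M / s1) := by
    have h4 : ∀ i ∈ (Finset.univ : Finset ι), (s i / M)⁻¹ ≤ M / s1 := by
      intro i _
      rw [hinv]
      exact hMsi i
    refine (Finset.sum_le_sum h4).trans ?_
    rw [Finset.sum_const, Finset.card_univ, nsmul_eq_mul, hn]
  have hsz : A1 * ∑ i, (s i / M)⁻¹ ≤ (A1 * n) * (M / s1) := by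
    calc A1 * ∑ i, (s i / M)⁻¹ ≤ A1 * (n * (M / s1)) :=
          mul_le_mul_of_nonneg_left hsumi hA10.le
      _ = (A1 * n) * (M / s1) := by ring
  obtain ⟨Dg, hDg⟩ : ∃ Dg : ι → ℕ, Dg = fun i => ⌊A1 * (s i / M)⁻¹⌋₊ := ⟨_, rfl⟩
  have hDgle : ∀ i, (Dg i : ℝ) ≤ A1 * (M / s i) := by
    intro i
    have h3 : 0 ≤ A1 * (s i / M)⁻¹ := by
      have := (hh i).1
      positivity
    have h4 := Nat.floor_le h3
    rw [hDg]
    rw [hinv] at h4
    simpa [hinv] using h4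
  have hDgb : ∀ t ∈ T0, ∀ i, |(t i).1| ≤ (Dg i : ℤ) ∧ |(t i).2| ≤ (Dg i : ℤ) := by
    intro t ht i
    have h3 := he1 t ht i
    have aux : ∀ z : ℤ, |(z : ℝ)| ≤ A1 * (s i / M)⁻¹ → |z| ≤ (Dg i : ℤ) := by
      intro z hz
      have h4 : (z.natAbs : ℝ) ≤ A1 * (s i / M)⁻¹ := by
        rw [Nat.cast_natAbs]
        push_cast
        exact hz
      have h5 : z.natAbs ≤ Dg i := by
        rw [hDg]
        exact Nat.le_floor h4
      rw [Int.abs_eq_natAbs]
      exact_mod_cast h5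
    exact ⟨aux _ h3.1, aux _ h3.2⟩
  have hinj' : Set.InjOn (fun (t : ι → ℤ × ℤ) i => pr ((C i).ray (j' i)) (t i)) T0 := by
    intro a ha b hb hab
    refine hinj ha hb ?_
    funext i
    have h3 := congrFun hab i
    simp only at h3
    change key (rr C j' i) (a i) = key (rr C j' i) (b i)
    rw [key_eq, key_eq]
    change - pr ((C i).ray (j' i)) (a i) = - pr ((C i).ray (j' i)) (b i)
    rw [h3]
  obtain ⟨Nm, hNm0, hNmd, hNml, hNmD⟩ := hBn Dg T0 q j' hj' hDgb hinj' hq0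
  have hlq0 := KG.log_sum_nonneg T0 q
  have hlc0 := KG.log_sum_nonneg T c
  obtain ⟨lq, hlq⟩ : ∃ lq : ℝ, lq = Real.log (∑ a ∈ T0, |(q a : ℝ)|) := ⟨_, rfl⟩
  obtain ⟨lc, hlc⟩ : ∃ lc : ℝ, lc = Real.log (∑ t ∈ T, |(c t : ℝ)|) := ⟨_, rfl⟩
  rw [← hlq] at hlq0 hl1 hNml
  rw [← hlc] at hlc0 hl2
  have hdeg : ∀ i, (Nm.degreeOf i : ℝ) ≤ AA * M / s i := by
    intro i
    have h3 : (Dg i : ℝ) + 1 ≤ (A1 + 1) * (M / s i) := by
      have := hDgle i
      have := h1Ms i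
      linarith
    have h5 : 0 ≤ M / s i := div_nonneg hM0.le (hspos i).le
    calc (Nm.degreeOf i : ℝ) ≤ Bn * (Dg i + 1) := hNmd i
      _ ≤ Bn * ((A1 + 1) * (M / s i)) := mul_le_mul_of_nonneg_left h3 hBn0.le
      _ = (Bn * (A1 + 1)) * (M / s i) := by ring
      _ ≤ AA * (M / s i) := mul_le_mul_of_nonneg_right hAA3 h5
      _ = AA * M / s i := by ring
  have hlogN : Real.log (AL.l1 Nm) ≤ AA * M / s1 := by
    have h3 : ∑ i, ((Dg i : ℝ) + 1) ≤ ((A1 + 1) * n) * (M / s1) := by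
      have h4 : ∀ i ∈ (Finset.univ : Finset ι), (Dg i : ℝ) + 1 ≤ (A1 + 1) * (M / s1) := by
        intro i _
        have h5 := hDgle i
        have h6 := h1Ms i
        have h7 : (A1 + 1) * (M / s i) ≤ (A1 + 1) * (M / s1) :=
          mul_le_mul_of_nonneg_left (hMsi i) (by linarith)
        linarith
      refine (Finset.sum_le_sum h4).trans ?_
      rw [Finset.sum_const, Finset.card_univ, nsmul_eq_mul, ← hn]
      exact le_of_eq (by ring)
    have h4 : lq + ∑ i, ((Dg i : ℝ) + 1) ≤ ((2 * A1 + 1) * n) * (M / s1) := by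
      have h5 := hl1.trans hsz
      calc lq + ∑ i, ((Dg i : ℝ) + 1) ≤ (A1 * n) * (M / s1) + ((A1 + 1) * n) * (M / s1) :=
            add_le_add h5 h3
        _ = ((2 * A1 + 1) * n) * (M / s1) := by ring
    calc Real.log (AL.l1 Nm) ≤ Bn * (lq + ∑ i, ((Dg i : ℝ) + 1)) := hNml
      _ ≤ Bn * (((2 * A1 + 1) * n) * (M / s1)) := mul_le_mul_of_nonneg_left h4 hBn0.le
      _ = (Bn * ((2 * A1 + 1) * n)) * (M / s1) := by ring
      _ ≤ AA * (M / s1) := mul_le_mul_of_nonneg_right hAA4 hMs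
      _ = AA * M / s1 := by ring
  have hLavg : P.avg (KG.Lw P (lq + lc) D) ≤ AA * M / s1 := by
    refine (KG.avg_Lw P (lq + lc) hD0).trans ?_
    have h3 := hl1.trans hsz
    have h4 := hl2.trans hsz
    have h5 := hDl.trans hsz
    calc lq + lc + Real.log |(D : ℝ)|
        ≤ (A1 * n) * (M / s1) + (A1 * n) * (M / s1) + (A1 * n) * (M / s1) :=
          add_le_add (add_le_add h3 h4) h5
      _ = (3 * A1 * n) * (M / s1) := by ring
      _ ≤ AA * (M / s1) := mul_le_mul_of_nonneg_right hAA1 hMs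
      _ = AA * M / s1 := by ring
  have hexp : ∀ (z : ℤ) (i : ι), |(z : ℝ)| ≤ A1 * (s i / M)⁻¹ → |(z : ℝ)| ≤ AA * M / s i := by
    intro z i hz
    rw [hinv] at hz
    have h5 : 0 ≤ M / s i := div_nonneg hM0.le (hspos i).le
    calc |(z : ℝ)| ≤ A1 * (M / s i) := hz
      _ ≤ AA * (M / s i) := mul_le_mul_of_nonneg_right hAA2 h5
      _ = AA * M / s i := by ring
  have hchar := P.charZero
  have hDK : ((D : ℤ) : K) ≠ 0 := Int.cast_ne_zero.mpr hD0
  obtain ⟨β, hβ⟩ : ∃ β : P.Pl → ℝ, β = fun w =>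
      ((-(A' * κ * r)) * (if V w then ‖lsc P U s w‖ else 0) + κ * ‖lsc P U s w‖) +
        ((κ + c1) * ‖lsc P U s w - f w‖ + c1 / s1 * g w) := ⟨_, rfl⟩
  have key : ∀ w, ∃ (T' : Finset (ι → ℤ × ℤ)) (q' : (ι → ℤ × ℤ) → K), SameC C T0 q T' q' ∧
      (∀ t ∈ T', ∀ i, |((t i).1 : ℝ)| ≤ AA * M / s i ∧ |((t i).2 : ℝ)| ≤ AA * M / s i) ∧
      (∀ t ∈ T', AL.absP w (q' t) ≤ Real.exp (KG.Lw P (lq + lc) D w)) ∧
      ∀ t ∈ T', ∑ i, (((t i).1 : ℝ) * P.lg w (U i).1 + ((t i).2 : ℝ) * P.lg w (U i).2) ≤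
        M * β w := by
    intro w
    have hgw := hg0 w
    have hfn := KG.norm_f_le (lsc P U s w) (f w)
    have hfk : κ * ‖f w‖ ≤ κ * (‖lsc P U s w‖ + ‖lsc P U s w - f w‖) :=
      mul_le_mul_of_nonneg_left hfn hκ.le
    have hn0 : 0 ≤ ‖lsc P U s w - f w‖ := norm_nonneg _
    have hc1n : 0 ≤ A1 * ‖lsc P U s w - f w‖ := mul_nonneg hA10.le hn0
    have hmn : 0 ≤ A1 * n * ‖lsc P U s w - f w‖ :=
      mul_nonneg (mul_nonneg hA10.le (by linarith)) hn0
    have hgs : 0 ≤ g w / s1 := div_nonneg hgw hs10.le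
    have hgs1 : 0 ≤ A1 * (g w / s1) := mul_nonneg hA10.le hgs
    have hgs2 : 0 ≤ A1 * n * (g w / s1) :=
      mul_nonneg (mul_nonneg hA10.le (by linarith)) hgs
    have e16 : c1 / s1 * g w = A1 * (g w / s1) + 2 * (A1 * n * (g w / s1)) := by
      rw [hc1]
      ring
    have e17 : (κ + c1) * ‖lsc P U s w - f w‖ = κ * ‖lsc P U s w - f w‖ +
        A1 * ‖lsc P U s w - f w‖ + 2 * (A1 * n * ‖lsc P U s w - f w‖) := by
      rw [hc1]
      ring
    by_cases hVw : V w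
    · refine ⟨T, fun t => ((c t : ℤ) : K) / ((D : ℤ) : K), KG.same_div C T0 q T c D hsame hDK,
        fun t ht i => ⟨hexp _ i (he2 t ht i).1, hexp _ i (he2 t ht i).2⟩,
        fun t ht => ?_, fun t ht => ?_⟩
      · refine KG.absP_div P hD0 w (c t) ?_
        refine (KG.abs_le_exp T c t ht).trans ?_
        rw [← hlc]
        exact Real.exp_le_exp.mpr (by linarith)
      obtain ⟨l, hl0, hlR, hln⟩ := hV w hVw
      rw [KG.sum_lg_eq P U s hspos M hM0 t w]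
      refine mul_le_mul_of_nonneg_left ?_ hM0.le
      have hsplit : lsc P U s w = vec (rr C j) l + (lsc P U s w - vec (rr C j) l) := by abel
      have hpt : pz (fun i => s i / M) t (lsc P U s w) =
          pz (fun i => s i / M) t (vec (rr C j) l) +
            pz (fun i => s i / M) t (lsc P U s w - vec (rr C j) l) := by
        rw [← pz_add, ← hsplit]
      have hb := hp2 t ht l (f w) (r * ‖lsc P U s w‖) (hf w)
        (mul_nonneg hr.le (norm_nonneg _)) hl0 hlR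
      have hab := (le_abs_self _).trans (abs_pz_le (fun i => s i / M) (fun i => (hh i).1) A1 t
        (lsc P U s w - vec (rr C j) l) (he2 t ht))
      rw [← hn] at hab
      have h3 : ‖vec (rr C j) l - f w‖ ≤ g w / s1 + ‖lsc P U s w - f w‖ := by
        have h4 : vec (rr C j) l - f w = (lsc P U s w - f w) - (lsc P U s w - vec (rr C j) l) := by
          abel
        rw [h4]
        refine (norm_sub_le _ _).trans ?_
        linarith
      have h4 : A1 * ‖vec (rr C j) l - f w‖ ≤ A1 * (g w / s1 + ‖lsc P U s w - f w‖) :=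
        mul_le_mul_of_nonneg_left h3 hA10.le
      have h5 : 2 * A1 * n * ‖lsc P U s w - vec (rr C j) l‖ ≤ 2 * A1 * n * (g w / s1) :=
        mul_le_mul_of_nonneg_left hln (by positivity)
      rw [hpt, hβ]
      simp only [if_pos hVw]
      rw [e16, e17]
      linarith [hb, hab, h4, h5, hfk, hmn, hgs2]
    · refine ⟨T0, fun t => ((q t : ℤ) : K), KG.same_cast C T0 q,
        fun t ht i => ⟨hexp _ i (he1 t ht i).1, hexp _ i (he1 t ht i).2⟩,
        fun t ht => ?_, fun t ht => ?_⟩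
      · refine KG.absP_cast P (by linarith) hD0 w (q t) ?_
        refine (KG.abs_le_exp T0 q t ht).trans ?_
        rw [← hlq]
        exact Real.exp_le_exp.mpr (by linarith)
      rw [KG.sum_lg_eq P U s hspos M hM0 t w]
      refine mul_le_mul_of_nonneg_left ?_ hM0.le
      have hsplit : lsc P U s w = f w + (lsc P U s w - f w) := by abel
      have hpt : pz (fun i => s i / M) t (lsc P U s w) =
          pz (fun i => s i / M) t (f w) + pz (fun i => s i / M) t (lsc P U s w - f w) := by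
        rw [← pz_add, ← hsplit]
      have hb := hp1 t ht (f w) (hf w)
      have hab := (le_abs_self _).trans (abs_pz_le (fun i => s i / M) (fun i => (hh i).1) A1 t
        (lsc P U s w - f w) (he1 t ht))
      rw [← hn] at hab
      rw [hpt, hβ]
      simp only [if_neg hVw]
      rw [e16, e17]
      linarith [hb, hab, hfk, hmn, hgs2]
  have hst := hstar M T0 q Nm (fun w => M * β w) (KG.Lw P (lq + lc) D) hs1M hsM hNm0 hdeg hlogN
    hNmD (KG.Lw_nonneg P (by linarith) hD0) hLavg key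
  rw [P.avg_mul] at hst
  have hst2 : -κ ≤ P.avg β := by
    have h3 : M * (-κ) ≤ M * P.avg β := by linarith
    exact le_of_mul_le_mul_left h3 hM0
  rw [hβ, P.avg_add, P.avg_add, P.avg_add, P.avg_mul, P.avg_mul, P.avg_mul, P.avg_mul]
    at hst2
  obtain ⟨mass, hmass⟩ : ∃ t : ℝ, t = P.avg (fun w => if V w then ‖lsc P U s w‖ else 0) :=
    ⟨_, rfl⟩
  rw [← hmass] at hst2 ⊢
  have h9 : κ * P.avg (fun w => ‖lsc P U s w‖) ≤ κ * B' :=
    mul_le_mul_of_nonneg_left (hB.trans hB'B) hκ.le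
  have h10 : (κ + c1) * P.avg (fun w => ‖lsc P U s w - f w‖) ≤ κ := by
    have h13 : P.avg (fun w => ‖lsc P U s w - f w‖) ≤ κ / (κ + c1) :=
      hδ.trans (min_le_right _ _)
    rw [le_div_iff₀ (by linarith)] at h13
    linarith
  have h11 : c1 / s1 * P.avg g ≤ κ := by
    have h12 : c1 * max Eb 0 ≤ κ * s1 := by
      rw [div_le_iff₀ hκ] at hH
      linarith
    have h13 : P.avg g ≤ max Eb 0 := hgE.trans (le_max_left _ _)
    have h14 : c1 * P.avg g ≤ c1 * max Eb 0 := mul_le_mul_of_nonneg_left h13 hc10.le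
    rw [div_mul_eq_mul_div, div_le_iff₀ hs10]
    linarith
  have h13 : κ * (A' * r * mass) ≤ κ * (B' + 3) := by linarith
  have h14 : A' * r * mass ≤ B' + 3 := le_of_mul_le_mul_left h13 hκ
  have h16 : A' * r * ε = 4 * (B' + 1) := by
    rw [hA'def]
    field_simp
  have h17 : (A' * r) * mass ≤ (A' * r) * ε := by
    rw [h16]
    linarith
  exact le_of_mul_le_mul_left h17 (mul_pos hA' hr)

end Pool.Agent.PC
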