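import Pool.Agent.Lib.MP_c95b3b_ag_PC.DefsK
import Pool.Agent.Lib.MP_c95b3b_ag_PC.Near
import Pool.Agent.Lib.MP_c95b3b_ag_PC.NoMassK
import Pool.Agent.Lib.MP_c95b3b_ag_AL.MG

/-! Project PC, module KH: the mass is near the small cells. -/

namespace Pool.Agent.PC

open Pool.Agent.L3 Module

/-- the sum of the errors of the curves -/
noncomputable def erC {m : ℕ} {ι : Type} [Fintype ι] (C : ι → Crv m) {K : Type} [Field K]
    {S : Subring K} (P : Places K S) (w : P.Pl) : ℝ := ∑ i, er P (C i).f w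

theorem erC_nonneg {m : ℕ} {ι : Type} [Fintype ι] (C : ι → Crv m) {K : Type} [Field K]
    {S : Subring K} (P : Places K S) (w : P.Pl) : 0 ≤ erC C P w :=
  Finset.sum_nonneg fun i _ => er_nonneg P (C i).f w

theorem avg_erC_le {m : ℕ} {ι : Type} [Fintype ι] (C : ι → Crv m) : ∃ E : ℝ, 0 ≤ E ∧
    ∀ (K : Type) [Field K] (S : Subring K) (P : Places K S), P.avg (erC C P) ≤ E := by
  choose E hE0 hE using fun i => avg_er_le (C i).f
  refine ⟨∑ i, E i, Finset.sum_nonneg fun i _ => hE0 i, ?_⟩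
  intro K _ S P
  have h1 : P.avg (erC C P) = ∑ i, P.avg (er P (C i).f) := by
    rw [← P.avg_sum]
    rfl
  rw [h1]
  exact Finset.sum_le_sum fun i _ => hE i K S P

/-- the error at the archimedean places is bounded -/
theorem erC_inl_le {m : ℕ} {ι : Type} [Fintype ι] (C : ι → Crv m) : ∃ E : ℝ, 0 ≤ E ∧
    ∀ (K : Type) [Field K] (S : Subring K) (P : Places K S) (i : Fin P.D),
      erC C P (.inl i) ≤ E := by
  refine ⟨∑ j : ι, (Real.log (((C j).f.support.card : ℝ) + 1) +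
    ∑ b ∈ (C j).f.support,
      abs (Real.log (abs ((MvPolynomial.coeff b (C j).f : ℤ) : ℝ)))), ?_, ?_⟩
  · refine Finset.sum_nonneg fun j _ => add_nonneg ?_ (Finset.sum_nonneg fun b _ => abs_nonneg _)
    refine Real.log_nonneg ?_
    have h : (0 : ℝ) ≤ ((C j).f.support.card : ℝ) := Nat.cast_nonneg _
    linarith
  · intro K _ S P i
    refine Finset.sum_le_sum fun j _ => le_of_eq ?_
    unfold er
    rw [P.arch_inl, one_mul]
    congr 1
    refine Finset.sum_congr rfl fun b _ => ?_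
    rw [P.lg_inl, map_intCast, Complex.norm_intCast]

namespace KH

/-- (STAR) is monotone -/
theorem starC_mono {m : ℕ} {ι : Type} [Fintype ι] (C : ι → Crv m) {K : Type} [Field K]
    {S : Subring K} (P : Places K S) (U : ι → K × K) (s : ι → ℝ) (s1 A A' ε ε' : ℝ)
    (h1 : 0 < s1) (hs : ∀ i, 0 < s i) (hA : A' ≤ A) (hε : ε ≤ ε')
    (H : StarC C P U s s1 A ε) : StarC C P U s s1 A' ε' := by
  intro M T₀ q₀ N b L hM hMs hN hdeg hl1 hdvd hL0 hLavg hw
  have hM0 : 0 < M := lt_of_lt_of_le h1 hM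
  have hle : ∀ y : ℝ, 0 < y → A' * M / y ≤ A * M / y := by
    intro y hy
    exact div_le_div_of_nonneg_right (mul_le_mul_of_nonneg_right hA hM0.le) hy.le
  have hres := H M T₀ q₀ N b L hM hMs hN (fun i => (hdeg i).trans (hle _ (hs i)))
    (hl1.trans (hle _ h1)) hdvd hL0 (hLavg.trans (hle _ h1)) (fun w => by
      obtain ⟨T, q, e1, e2, e3, e4⟩ := hw w
      exact ⟨T, q, e1, fun t ht i => ⟨((e2 t ht i).1).trans (hle _ (hs i)),
        ((e2 t ht i).2).trans (hle _ (hs i))⟩, e3, e4⟩)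
  have : ε * M ≤ ε' * M := mul_le_mul_of_nonneg_right hε hM0.le
  linarith

/-- the scaled point -/
theorem pt_near (x y : ℝ × ℝ) (t e s s1 : ℝ) (h1 : 0 < s1) (hs : s1 ≤ s)
    (h : ‖x - t • y‖ ≤ e) : ‖s⁻¹ • x - (t / s) • y‖ ≤ e / s1 := by
  have hs0 : 0 < s := lt_of_lt_of_le h1 hs
  have e1 : s⁻¹ • x - (t / s) • y = s⁻¹ • (x - t • y) := by
    rw [smul_sub, smul_smul, div_eq_inv_mul]
  rw [e1, norm_smul, Real.norm_of_nonneg (inv_nonneg.2 hs0.le)]
  calc s⁻¹ * ‖x - t • y‖ ≤ s1⁻¹ * e :=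
        mul_le_mul (inv_anti₀ h1 hs) h (norm_nonneg _) (inv_nonneg.2 h1.le)
    _ = e / s1 := by ring

/-- the truncated vector lies in the cell and is near the vector of logarithms -/
theorem trunc {ι : Type} [Fintype ι] [DecidableEq ι] (L : ι → ℝ × ℝ) (a : ℝ) (ha : 0 ≤ a)
    (ρ : ι → ℤ × ℤ) (t : ι → ℝ) (R : Finset ι) (c b : ℝ) (hc : 0 ≤ c) (ht : ∀ i, 0 ≤ t i)
    (hb : ∀ i, ‖rv (ρ i)‖ ≤ b) (h : ∀ i, ‖L i - t i • rv (ρ i)‖ ≤ a)
    (hR : ∀ i, i ∉ R → t i ≤ c) (hb0 : 0 ≤ b) :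
    vec ρ (fun i => if i ∈ R then t i else 0) ∈ cel R ρ ∧
      ‖L - vec ρ (fun i => if i ∈ R then t i else 0)‖ ≤ a + c * b := by
  refine ⟨⟨_, fun i hi => if_neg hi, rfl⟩, ?_⟩
  have hcb : 0 ≤ c * b := mul_nonneg hc hb0
  rw [pi_norm_le_iff_of_nonneg (by linarith)]
  intro i
  rw [Pi.sub_apply, vec_apply]
  split_ifs with hi
  · exact (h i).trans (by linarith)
  · rw [zero_smul, sub_zero]
    have h1 : L i = (L i - t i • rv (ρ i)) + t i • rv (ρ i) := by abel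
    rw [h1]
    refine (norm_add_le _ _).trans (add_le_add (h i) ?_)
    rw [norm_smul, Real.norm_of_nonneg (ht i)]
    exact mul_le_mul (hR i hi) (hb i) (norm_nonneg _) hc

end KH

open Classical in
theorem cover {m : ℕ} {ι : Type} [Fintype ι] [DecidableEq ι] (C : ι → Crv m)
    (F : Submodule ℝ (ι → ℝ × ℝ)) (x : ℕ) (j' : ι → Fin m) (hj' : ∀ i, j' i ∈ (C i).good)
    (h1 : finrank ℝ (F ⊓ cel Finset.univ (rr C j') : Submodule ℝ _) ≤ x)
    (η ε B : ℝ) (hη : 0 < η) (hε : 0 < ε) :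
    ∃ δ H0 A ε0 : ℝ, 0 < δ ∧ 0 < ε0 ∧
      ∀ (K : Type) [Field K] (S : Subring K) (P : Places K S) (U : ι → K × K) (s : ι → ℝ)
        (s1 : ℝ) (f : P.Pl → ι → ℝ × ℝ),
        (∀ i, UC (C i) S (U i)) → H0 ≤ s1 → 1 ≤ s1 → (∀ i, s1 ≤ s i) →
        StarC C P U s s1 A ε0 →
        P.avg (fun w => ‖lsc P U s w‖) ≤ B → (∀ w, f w ∈ F) →
        P.avg (fun w => ‖lsc P U s w - f w‖) ≤ δ →
        P.avg (fun w => if ∀ v ∈ Good C F x, η * (‖lsc P U s w‖ + erC C P w) ≤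
          ‖lsc P U s w - v‖ then ‖lsc P U s w‖ else 0) ≤ ε := by
  have hne : Nonempty (Finset ι × (ι → Fin m)) := ⟨(∅, j')⟩
  -- the constants of the curves
  choose c hc0 hc using fun i => near (C i)
  obtain ⟨c0, hc0def⟩ : ∃ c0, c0 = ∑ i, c i := ⟨_, rfl⟩
  have hc00 : 0 ≤ c0 := hc0def ▸ Finset.sum_nonneg fun i _ => hc0 i
  have hci : ∀ i, c i ≤ c0 := fun i =>
    hc0def ▸ Finset.single_le_sum (fun k _ => hc0 k) (Finset.mem_univ i)
  obtain ⟨b0, hb0def⟩ : ∃ b0, b0 = 1 + ∑ i, ∑ j, ‖rv ((C i).ray j)‖ := ⟨_, rfl⟩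
  have hb01 : 1 ≤ b0 := by
    have : 0 ≤ ∑ i, ∑ j, ‖rv ((C i).ray j)‖ :=
      Finset.sum_nonneg fun i _ => Finset.sum_nonneg fun j _ => norm_nonneg _
    rw [hb0def]
    linarith
  have hbij : ∀ i j, ‖rv ((C i).ray j)‖ ≤ b0 := by
    intro i j
    have e1 : ‖rv ((C i).ray j)‖ ≤ ∑ j, ‖rv ((C i).ray j)‖ :=
      Finset.single_le_sum (f := fun j => ‖rv ((C i).ray j)‖)
        (fun k _ => norm_nonneg _) (Finset.mem_univ j)
    have e2 : ∑ j, ‖rv ((C i).ray j)‖ ≤ ∑ i, ∑ j, ‖rv ((C i).ray j)‖ :=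
      Finset.single_le_sum (f := fun i => ∑ j, ‖rv ((C i).ray j)‖)
        (fun k _ => Finset.sum_nonneg fun j _ => norm_nonneg _) (Finset.mem_univ i)
    rw [hb0def]
    linarith
  obtain ⟨E, hE0, hE⟩ := avg_erC_le C
  -- the constant of the distances
  choose C' hC1' hC' using fun p : Finset ι × (ι → Fin m) =>
    KP.dist_inf F (cel p.1 (rr C p.2))
  obtain ⟨p1, hp1⟩ := Finite.exists_max C'
  obtain ⟨D, hDdef⟩ : ∃ D, D = C' p1 := ⟨_, rfl⟩
  have hD1 : 1 ≤ D := hDdef ▸ hC1' p1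
  have hD : ∀ p : Finset ι × (ι → Fin m), ∀ v ∈ cel p.1 (rr C p.2), ∀ f ∈ F,
      ∃ u ∈ F ⊓ cel p.1 (rr C p.2), ‖v - u‖ ≤ D * ‖v - f‖ := by
    intro p v hv f hf
    obtain ⟨u, hu, h⟩ := hC' p v hv f hf
    refine ⟨u, hu, h.trans ?_⟩
    rw [hDdef]
    exact mul_le_mul_of_nonneg_right (hp1 p) (norm_nonneg _)
  obtain ⟨r, hrdef⟩ : ∃ r, r = η / (8 * (1 + D) * b0) := ⟨_, rfl⟩
  have h1D : 0 < 1 + D := by linarith
  have hb00 : 0 < b0 := by linarith
  have hr : 0 < r := by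
    rw [hrdef]
    positivity
  have hr8 : 8 * (1 + D) * (r * b0) = η := by
    rw [hrdef]
    field_simp
  obtain ⟨n, hn⟩ : ∃ n : ℝ, n = Fintype.card (Finset ι × (ι → Fin m)) := ⟨_, rfl⟩
  have hn0 : 0 < n := by
    rw [hn]
    exact_mod_cast Fintype.card_pos
  -- the data of the bad pairs
  have key : ∀ p : Finset ι × (ι → Fin m), ∃ δ H0 A ε0 : ℝ, 0 < δ ∧ 0 < ε0 ∧
      (x < finrank ℝ (F ⊓ cel p.1 (rr C p.2) : Submodule ℝ _) →
      ∀ (K : Type) [Field K] (S : Subring K) (P : Places K S) (U : ι → K × K) (s : ι → ℝ)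
        (s1 : ℝ) (f : P.Pl → ι → ℝ × ℝ) (g : P.Pl → ℝ) (V : P.Pl → Prop),
        (∀ i, UC (C i) S (U i)) → H0 ≤ s1 → 1 ≤ s1 → (∀ i, s1 ≤ s i) →
        StarC C P U s s1 A ε0 →
        P.avg (fun w => ‖lsc P U s w‖) ≤ B → (∀ w, f w ∈ F) →
        P.avg (fun w => ‖lsc P U s w - f w‖) ≤ δ → (∀ w, 0 ≤ g w) → P.avg g ≤ c0 * E →
        (∀ w, V w → ∃ l : ι → ℝ, (∀ i, 0 ≤ l i) ∧ (∀ i ∈ p.1, r * ‖lsc P U s w‖ ≤ l i) ∧
          ‖lsc P U s w - vec (rr C p.2) l‖ ≤ g w / s1) →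
        P.avg (fun w => @ite ℝ (V w) (Classical.propDecidable _) ‖lsc P U s w‖ 0) ≤
          ε / (2 * n)) := by
    intro p
    by_cases hp : x < finrank ℝ (F ⊓ cel p.1 (rr C p.2) : Submodule ℝ _)
    · obtain ⟨δ, H0, A, ε0, hδ, hε0, h⟩ := no_mass C F x j' hj' h1 p.1 p.2 hp r (ε / (2 * n)) B
        (c0 * E) hr (by positivity)
      exact ⟨δ, H0, A, ε0, hδ, hε0, fun _ => h⟩
    · exact ⟨1, 0, 0, 1, one_pos, one_pos, fun h => absurd h hp⟩
  choose δ' H0' A' ε0' hδ' hε0' hmass using key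
  obtain ⟨p2, hp2⟩ := Finite.exists_min δ'
  obtain ⟨p3, hp3⟩ := Finite.exists_max H0'
  obtain ⟨p4, hp4⟩ := Finite.exists_max A'
  obtain ⟨p5, hp5⟩ := Finite.exists_min ε0'
  refine ⟨min (δ' p2) (ε * r / 2), max (H0' p3) ((1 + D) * c0 / η), A' p4, ε0' p5,
    lt_min (hδ' p2) (by positivity), hε0' p5, ?_⟩
  intro K _ S P U s s1 f hU hH hs1 hs hst hB hf hδ
  have hs10 : 0 < s1 := by linarith
  have hs0 : ∀ i, 0 < s i := fun i => lt_of_lt_of_le hs10 (hs i)
  have hH1 : (1 + D) * c0 ≤ η * s1 := by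
    have := (le_max_right _ _).trans hH
    rwa [div_le_iff₀ hη, mul_comm s1 η] at this
  have hH2 : ∀ p, H0' p ≤ s1 := fun p =>
    (hp3 p).trans ((le_max_left _ _).trans hH)
  have hδ1 : ∀ p, P.avg (fun w => ‖lsc P U s w - f w‖) ≤ δ' p := fun p =>
    hδ.trans ((min_le_left _ _).trans (hp2 p))
  have hδ2 : P.avg (fun w => ‖lsc P U s w - f w‖) ≤ ε * r / 2 :=
    hδ.trans (min_le_right _ _)
  have hst1 : ∀ p, StarC C P U s s1 (A' p) (ε0' p) := fun p =>
    KH.starC_mono C P U s s1 (A' p4) (A' p) (ε0' p5) (ε0' p) hs10 hs0 (hp4 p) (hp5 p) hst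
  have her : ∀ w, 0 ≤ erC C P w := erC_nonneg C P
  have hg0 : ∀ w, 0 ≤ c0 * erC C P w := fun w => mul_nonneg hc00 (her w)
  have hgavg : P.avg (fun w => c0 * erC C P w) ≤ c0 * E := by
    rw [P.avg_mul]
    exact mul_le_mul_of_nonneg_left (hE K S P) hc00
  choose j t0 ht0 hj0 using fun (i : ι) (w : P.Pl) => hc i K S P (U i) (hU i) w
  obtain ⟨t, htdef⟩ : ∃ t : ι → P.Pl → ℝ, t = fun i w => t0 i w / s i := ⟨_, rfl⟩
  have ht : ∀ i w, 0 ≤ t i w := by
    intro i w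
    rw [htdef]
    exact div_nonneg (ht0 i w) (hs0 i).le
  have hj : ∀ i w, ‖lsc P U s w i - t i w • rv ((C i).ray (j i w))‖ ≤
      c0 * erC C P w / s1 := by
    intro i w
    have e1 : c i * er P (C i).f w ≤ c0 * erC C P w := by
      refine mul_le_mul (hci i) ?_ (er_nonneg P (C i).f w) hc00
      exact Finset.single_le_sum (f := fun i => er P (C i).f w)
        (fun k _ => er_nonneg P (C k).f w) (Finset.mem_univ i)
    rw [htdef]
    exact KH.pt_near _ _ (t0 i w) _ (s i) s1 hs10 (hs i) ((hj0 i w).trans e1)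
  have ha0 : ∀ w, 0 ≤ c0 * erC C P w / s1 := fun w => div_nonneg (hg0 w) hs10.le
  let ρw : P.Pl → ι → Fin m := fun w i => j i w
  let Rw : P.Pl → Finset ι := fun w => Finset.univ.filter fun i => r * ‖lsc P U s w‖ ≤ t i w
  let bad : Finset (Finset ι × (ι → Fin m)) :=
    Finset.univ.filter fun p => x < finrank ℝ (F ⊓ cel p.1 (rr C p.2) : Submodule ℝ _)
  let T : Finset ι × (ι → Fin m) → P.Pl → ℝ := fun p w =>
    @ite ℝ ((Rw w, ρw w) = p) (Classical.propDecidable _) ‖lsc P U s w‖ 0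
  have hT0 : ∀ p w, 0 ≤ T p w := by
    intro p w
    simp only [T]
    split_ifs
    · exact norm_nonneg _
    · exact le_rfl
  have hTavg : ∀ p ∈ bad, P.avg (T p) ≤ ε / (2 * n) := by
    intro p hp
    exact hmass p (Finset.mem_filter.1 hp).2 K S P U s s1 f (fun w => c0 * erC C P w)
      (fun w => (Rw w, ρw w) = p) hU
      (hH2 p) hs1 hs (hst1 p) hB hf (hδ1 p) hg0 hgavg (by
        rintro w rfl
        refine ⟨fun i => t i w, fun i => ht i w, fun i hi => (Finset.mem_filter.1 hi).2, ?_⟩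
        rw [pi_norm_le_iff_of_nonneg (ha0 w)]
        exact fun i => hj i w)
  have hpt : ∀ w, (if ∀ v ∈ Good C F x, η * (‖lsc P U s w‖ + erC C P w) ≤ ‖lsc P U s w - v‖
          then ‖lsc P U s w‖ else 0) ≤ ∑ p ∈ bad, T p w + 1 / r * ‖lsc P U s w - f w‖ := by
    intro w
    have hS : 0 ≤ ∑ p ∈ bad, T p w := Finset.sum_nonneg fun p _ => hT0 p w
    have hN : 0 ≤ 1 / r * ‖lsc P U s w - f w‖ := by positivity
    split_ifs with hw
    swap
    · linarith
    by_cases hb : x < finrank ℝ (F ⊓ cel (Rw w) (rr C (ρw w)) : Submodule ℝ _)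
    · have hm : (Rw w, ρw w) ∈ bad := Finset.mem_filter.2 ⟨Finset.mem_univ _, hb⟩
      have h2 := Finset.single_le_sum (fun p _ => hT0 p w) hm
      have h3 : T (Rw w, ρw w) w = ‖lsc P U s w‖ := if_pos rfl
      linarith
    · by_contra hlt
      push Not at hlt hb
      have hfw : ‖lsc P U s w - f w‖ < r * ‖lsc P U s w‖ := by
        have : 1 / r * ‖lsc P U s w - f w‖ < ‖lsc P U s w‖ := by linarith
        rw [div_mul_eq_mul_div, one_mul, div_lt_iff₀ hr] at this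
        linarith
      have hpos : 0 < ‖lsc P U s w‖ := by
        by_contra h0
        push Not at h0
        have := mul_nonpos_of_nonneg_of_nonpos hr.le h0
        have := norm_nonneg (lsc P U s w - f w)
        linarith
      obtain ⟨hv, hvn⟩ := KH.trunc (lsc P U s w) _ (ha0 w) (rr C (ρw w)) (fun i => t i w)
        (Rw w) (r * ‖lsc P U s w‖) b0 (by positivity) (fun i => ht i w)
        (fun i => hbij i (j i w)) (fun i => hj i w) (by
          intro i hi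
          have : ¬ (r * ‖lsc P U s w‖ ≤ t i w) := fun h =>
            hi (Finset.mem_filter.2 ⟨Finset.mem_univ _, h⟩)
          exact (not_le.1 this).le) hb00.le
      obtain ⟨u, hu, hun⟩ := hD (Rw w, ρw w) _ hv (f w) (hf w)
      have hg := hw u ⟨_, _, hu, hb⟩
      set v := vec (rr C (ρw w)) (fun i => if i ∈ Rw w then t i w else 0) with hvdef
      have e1 : ‖lsc P U s w - u‖ ≤ ‖lsc P U s w - v‖ + ‖v - u‖ := by
        have : lsc P U s w - u = (lsc P U s w - v) + (v - u) := by abel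
        rw [this]
        exact norm_add_le _ _
      have e2 : ‖v - f w‖ ≤ ‖lsc P U s w - v‖ + ‖lsc P U s w - f w‖ := by
        have : v - f w = -(lsc P U s w - v) + (lsc P U s w - f w) := by abel
        rw [this]
        refine (norm_add_le _ _).trans ?_
        rw [norm_neg]
      have e3 : D * ‖v - f w‖ ≤ D * (‖lsc P U s w - v‖ + ‖lsc P U s w - f w‖) :=
        mul_le_mul_of_nonneg_left e2 (by linarith)
      have e4 : (1 + D) * ‖lsc P U s w - v‖ ≤
          (1 + D) * (c0 * erC C P w / s1 + r * ‖lsc P U s w‖ * b0) :=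
        mul_le_mul_of_nonneg_left hvn h1D.le
      have e50 : r * ‖lsc P U s w‖ ≤ r * ‖lsc P U s w‖ * b0 :=
        le_mul_of_one_le_right (by positivity) hb01
      have e5 : D * ‖lsc P U s w - f w‖ ≤ (1 + D) * (r * ‖lsc P U s w‖ * b0) := by
        have h5 : ‖lsc P U s w - f w‖ ≤ r * ‖lsc P U s w‖ * b0 := hfw.le.trans e50
        exact mul_le_mul (by linarith) h5 (norm_nonneg _) h1D.le
      have e6 : (1 + D) * (c0 * erC C P w / s1) ≤ η * erC C P w := by
        have h5 : (1 + D) * c0 / s1 ≤ η := by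
          rw [div_le_iff₀ hs10]
          exact hH1
        calc (1 + D) * (c0 * erC C P w / s1) = (1 + D) * c0 / s1 * erC C P w := by ring
          _ ≤ η * erC C P w := mul_le_mul_of_nonneg_right h5 (her w)
      have e7 : 8 * ((1 + D) * (r * ‖lsc P U s w‖ * b0)) = η * ‖lsc P U s w‖ := by
        rw [← hr8]
        ring
      have e8 : 0 < η * ‖lsc P U s w‖ := by positivity
      have e9 : D * ‖v - f w‖ = D * ‖v - f w‖ := rfl
      nlinarith
  calc P.avg (fun w => if ∀ v ∈ Good C F x, η * (‖lsc P U s w‖ + erC C P w) ≤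
            ‖lsc P U s w - v‖ then ‖lsc P U s w‖ else 0)
      ≤ P.avg (fun w => ∑ p ∈ bad, T p w + 1 / r * ‖lsc P U s w - f w‖) := P.avg_mono hpt
    _ = ∑ p ∈ bad, P.avg (T p) + 1 / r * P.avg (fun w => ‖lsc P U s w - f w‖) := by
        rw [P.avg_add, P.avg_sum, P.avg_mul]
    _ ≤ n * (ε / (2 * n)) + 1 / r * (ε * r / 2) := by
        refine add_le_add ?_ (mul_le_mul_of_nonneg_left hδ2 (by positivity))
        refine (Finset.sum_le_sum hTavg).trans ?_
        rw [Finset.sum_const, nsmul_eq_mul]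
        refine mul_le_mul_of_nonneg_right ?_ (by positivity)
        rw [hn]
        exact_mod_cast Finset.card_le_univ bad
    _ = ε := by
        field_simp
        ring

end Pool.Agent.PC
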