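import Pool.Agent.Lib.MP_c95b3b_ag_PC.RadoK
import Pool.Agent.Lib.MP_c95b3b_ag_PC.CoverK

/-! Project PC, module KI: bigness. -/

namespace Pool.Agent.PC

open Pool.Agent.L3 Module
open Pool.Agent.KP (supp)

/-- the small cells of dimension zero contain only zero -/
theorem good_zero_bigK {m : ℕ} {ι : Type} [Fintype ι] (C : ι → Crv m)
    (F : Submodule ℝ (ι → ℝ × ℝ)) {v : ι → ℝ × ℝ} (hv : v ∈ Good C F 0) : v = 0 := by
  obtain ⟨R, j, hv, hf⟩ := hv
  have h1 : (F ⊓ cel R (rr C j) : Submodule ℝ _) = ⊥ := by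
    apply Submodule.finrank_eq_zero.1
    omega
  rw [h1] at hv
  exact (Submodule.mem_bot ℝ).1 hv

theorem big {m : ℕ} {ι : Type} [Fintype ι] [DecidableEq ι] (C : ι → Crv m)
    (F : Submodule ℝ (ι → ℝ × ℝ))
    (hF : ∀ I : Finset ι, finrank ℝ (F ⊓ supp I : Submodule ℝ _) ≤ I.card) (B : ℝ) :
    ∃ δ H0 A ε0 : ℝ, 0 < δ ∧ 0 < ε0 ∧
      ∀ (K : Type) [Field K] (S : Subring K) (P : Places K S) (U : ι → K × K) (s : ι → ℝ)
        (s1 : ℝ) (f : P.Pl → ι → ℝ × ℝ),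
        (∀ i, UC (C i) S (U i)) → H0 ≤ s1 → 1 ≤ s1 → (∀ i, s1 ≤ s i) →
        StarC C P U s s1 A ε0 →
        P.avg (fun w => ‖lsc P U s w‖) ≤ B → (∀ w, f w ∈ F) →
        P.avg (fun w => ‖lsc P U s w - f w‖) ≤ δ →
        P.avg (fun w => ‖lsc P U s w‖) < 1 := by
  obtain ⟨j', hj', hr⟩ := rado C F 0 (fun I => by simpa using hF I)
  obtain ⟨E, hE0, hE⟩ := avg_erC_le C
  obtain ⟨η, hηdef⟩ : ∃ η : ℝ, η = min (1 / 4) (1 / (8 * (E + 1))) := ⟨_, rfl⟩
  have hη : 0 < η := by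
    rw [hηdef]
    positivity
  have hη4 : η ≤ 1 / 4 := hηdef ▸ min_le_left _ _
  have hηE : η * (8 * (E + 1)) ≤ 1 := by
    have h : η ≤ 1 / (8 * (E + 1)) := hηdef ▸ min_le_right _ _
    rwa [le_div_iff₀ (by positivity)] at h
  obtain ⟨δ, H0, A, ε0, hδ, hε0, hmain⟩ := cover C F 0 j' hj' hr η (1 / 4) B hη (by norm_num)
  refine ⟨δ, H0, A, ε0, hδ, hε0, ?_⟩
  intro K _ S P U s s1 f hU hH0 hs1 hs hst hB hf hd
  classical
  have h1 := hmain K S P U s s1 f hU hH0 hs1 hs hst hB hf hd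
  have h2 : P.avg (fun w => ‖lsc P U s w‖) ≤
      P.avg (fun w => (if ∀ v ∈ Good C F 0, η * (‖lsc P U s w‖ + erC C P w) ≤
        ‖lsc P U s w - v‖ then ‖lsc P U s w‖ else 0) + 2 * η * erC C P w) := by
    apply Places.avg_mono
    intro w
    have her : 0 ≤ erC C P w := erC_nonneg C P w
    have h3 : 0 ≤ 2 * η * erC C P w := by positivity
    by_cases hc : ∀ v ∈ Good C F 0, η * (‖lsc P U s w‖ + erC C P w) ≤ ‖lsc P U s w - v‖
    · rw [if_pos hc]
      linarith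
    · rw [if_neg hc]
      push Not at hc
      obtain ⟨v, hv, hlt⟩ := hc
      rw [good_zero_bigK C F hv, sub_zero] at hlt
      have h4 : η * ‖lsc P U s w‖ ≤ 1 / 4 * ‖lsc P U s w‖ :=
        mul_le_mul_of_nonneg_right hη4 (norm_nonneg _)
      have h5 : 0 ≤ η * erC C P w := by positivity
      nlinarith
  have h6 : P.avg (fun w => 2 * η * erC C P w) ≤ 1 / 4 := by
    have e1 : P.avg (fun w => 2 * η * erC C P w) = 2 * η * P.avg (erC C P) := P.avg_mul _ _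
    rw [e1]
    have e2 : 2 * η * P.avg (erC C P) ≤ 2 * η * E :=
      mul_le_mul_of_nonneg_left (hE K S P) (by positivity)
    nlinarith
  rw [Places.avg_add] at h2
  linarith

end Pool.Agent.PC
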