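import Pool.Agent.Lib.MP_c95b3b_ag_PC.KDat

/-! Project PC, module KJ: scaled vectors at one point. -/

namespace Pool.Agent.PC

open Pool.Agent.L3 Pool.Agent.AL Module

section
variable {m k : ℕ} {C : Fin k → Crv m} {fc : Fin k → Polynomial (Polynomial ℂ)} {θ : ℝ}
  {K : Type} [Field K] {U : Fin k → K × K} {E : Submodule ℝ (Fin k → ℝ × ℝ)}

private theorem KJ_scl_apply (τ : Fin k → ℝ) (v : Fin k → ℝ × ℝ) (i : Fin k) :
    scl τ v i = τ i • v i := rfl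

theorem scaled_avg (d : PDC C fc θ K U E) (τ : Fin k → ℝ) (hτ : ∀ i, 0 < τ i) (B : ℝ)
    (h : ∀ i, d.P.avg (fun w => ‖lvc d.P U w i‖) ≤ B * τ i) :
    d.P.avg (fun w => ‖scl (fun i => (τ i)⁻¹) (lvc d.P U w)‖) ≤ k * B := by
  have key : ∀ w, ‖scl (fun i => (τ i)⁻¹) (lvc d.P U w)‖ ≤
      ∑ i, (τ i)⁻¹ * ‖lvc d.P U w i‖ := by
    intro w
    refine (Pool.Agent.KP.norm_le_sum _).trans
      (le_of_eq (Finset.sum_congr rfl fun i _ => ?_))
    rw [KJ_scl_apply, norm_smul, Real.norm_of_nonneg (inv_nonneg.mpr (hτ i).le)]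
  refine (d.P.avg_mono key).trans ?_
  rw [d.P.avg_sum]
  have h2 : ∀ i ∈ (Finset.univ : Finset (Fin k)),
      d.P.avg (fun w => (τ i)⁻¹ * ‖lvc d.P U w i‖) ≤ B := by
    intro i _
    have hp : 0 < τ i := hτ i
    rw [d.P.avg_mul]
    have h3 := mul_le_mul_of_nonneg_left (h i) (inv_nonneg.mpr hp.le)
    have h4 : (τ i)⁻¹ * (B * τ i) = B := by
      rw [mul_comm B, ← mul_assoc, inv_mul_cancel₀ hp.ne', one_mul]
    rwa [h4] at h3
  refine (Finset.sum_le_card_nsmul _ _ _ h2).trans (le_of_eq ?_)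
  rw [Finset.card_univ, Fintype.card_fin, nsmul_eq_mul]

/-- the scaled logarithms of the coordinates `f i` are near the approximations -/
theorem scaled_near (d : PDC C fc θ K U E) (τ : Fin k → ℝ) {ι : Type}
    [Fintype ι] (f : ι → Fin k) (e : d.P.Pl → Fin k → ℝ × ℝ) (ε V : ℝ) (hε : 0 ≤ ε)
    (he : ∀ w, ‖scl (fun i => (τ i)⁻¹) (lvc d.P U w) - e w‖ ≤
      ε * ‖scl (fun i => (τ i)⁻¹) (lvc d.P U w)‖)
    (hV : d.P.avg (fun w => ‖scl (fun i => (τ i)⁻¹) (lvc d.P U w)‖) ≤ V) :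
    d.P.avg (fun w => ‖lsc d.P (U ∘ f) (τ ∘ f) w - e w ∘ f‖) ≤ ε * V := by
  have key : ∀ w, ‖lsc d.P (U ∘ f) (τ ∘ f) w - e w ∘ f‖ ≤
      ε * ‖scl (fun i => (τ i)⁻¹) (lvc d.P U w)‖ := by
    intro w
    have hnn : 0 ≤ ε * ‖scl (fun i => (τ i)⁻¹) (lvc d.P U w)‖ :=
      mul_nonneg hε (norm_nonneg _)
    refine (pi_norm_le_iff_of_nonneg hnn).2 fun i => ?_
    have e1 : (lsc d.P (U ∘ f) (τ ∘ f) w - e w ∘ f) i =
        (scl (fun i => (τ i)⁻¹) (lvc d.P U w) - e w) (f i) := rfl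
    rw [e1]
    exact (norm_le_pi_norm _ (f i)).trans (he w)
  refine (d.P.avg_mono key).trans ?_
  rw [d.P.avg_mul]
  exact mul_le_mul_of_nonneg_left hV hε

end

/-- the proportion of the places with large values -/
theorem markovK {K : Type} [Field K] {S : Subring K} (P : Places K S) (f : P.Pl → ℝ)
    (hf : ∀ w, 0 ≤ f w) (t θ : ℝ) (ht : 0 < t) (h : P.avg f ≤ t * θ) (s : Finset (Fin P.D))
    (hs : ∀ i ∈ s, t ≤ f (.inl i)) : (s.card : ℝ) ≤ θ * P.D := by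
  have h1 := P.sum_le_of_avg_le h
  have h2 := P.sum_inl_le hf
  have h3 : ∑ i ∈ s, f (.inl i) ≤ ∑ i, f (.inl i) :=
    Finset.sum_le_sum_of_subset_of_nonneg (Finset.subset_univ s) fun i _ _ => hf _
  have h4 := Finset.card_nsmul_le_sum s (fun i => f (.inl i)) t hs
  rw [nsmul_eq_mul] at h4
  have h5 : t * (s.card : ℝ) ≤ t * (θ * P.D) := by nlinarith
  exact le_of_mul_le_mul_left h5 ht

theorem zero_mem_Good {m : ℕ} {ι : Type} [Fintype ι] [DecidableEq ι] (C : ι → Crv m)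
    (F : Submodule ℝ (ι → ℝ × ℝ)) (x : ℕ) (h : Nonempty (ι → Fin m)) :
    (0 : ι → ℝ × ℝ) ∈ Good C F x := by
  obtain ⟨j⟩ := h
  refine ⟨∅, j, Submodule.zero_mem _, ?_⟩
  have h : F ⊓ cel ∅ (rr C j) = (⊥ : Submodule ℝ (ι → ℝ × ℝ)) := by
    rw [eq_bot_iff]
    intro v hv
    obtain ⟨l, hl, rfl⟩ := hv.2
    rw [Submodule.mem_bot]
    funext i
    simp [vec, hl i]
  rw [h, finrank_bot]
  exact Nat.zero_le _

end Pool.Agent.PC
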