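import Pool.Agent.Lib.MP_c95b3b_ag_PC.BigK
import Pool.Agent.Lib.MP_c95b3b_ag_PC.ScaledK

/-! Project PC, module KK: the limit is large enough. -/

namespace Pool.Agent.PC

open Pool.Agent.L3 Pool.Agent.AL Module
open Pool.Agent.KP (supp pr1 pr0)

namespace KK

variable {ι K : Type} [Field K] {S : Subring K}

theorem avg_lsc_apply (P : Places K S) (U : ι → K × K) (s : ι → ℝ) (i : ι) (hs : 0 < s i) :
    P.avg (fun w => ‖lsc P U s w i‖) = (s i)⁻¹ * P.avg (fun w => ‖lvc P U w i‖) := by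
  rw [← P.avg_mul]
  congr 1
  funext w
  change ‖(s i)⁻¹ • lvc P U w i‖ = _
  rw [norm_smul, Real.norm_of_nonneg (inv_nonneg.mpr hs.le)]

theorem avg_lsc_le [Fintype ι] (P : Places K S) (U : ι → K × K) (s : ι → ℝ) (B : ℝ)
    (hs : ∀ i, 0 < s i) (h : ∀ i, P.avg (fun w => ‖lvc P U w i‖) ≤ B * s i) :
    P.avg (fun w => ‖lsc P U s w‖) ≤ Fintype.card ι * B := by
  refine (P.avg_mono fun w => Pool.Agent.KP.norm_le_sum (lsc P U s w)).trans ?_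
  rw [P.avg_sum]
  refine (Finset.sum_le_card_nsmul _ _ B fun i _ => ?_).trans ?_
  · rw [avg_lsc_apply P U s i (hs i)]
    have h1 := mul_le_mul_of_nonneg_left (h i) (inv_nonneg.mpr (hs i).le)
    have h2 : (s i)⁻¹ * (B * s i) = B := by
      have := (hs i).ne'
      field_simp
    rw [h2] at h1
    exact h1
  · simp

theorem one_le_avg_lsc [Fintype ι] (P : Places K S) (U : ι → K × K) (s : ι → ℝ) (i : ι)
    (hs : 0 < s i) (h : s i ≤ P.avg (fun w => ‖lvc P U w i‖)) :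
    1 ≤ P.avg (fun w => ‖lsc P U s w‖) := by
  have h1 : P.avg (fun w => ‖lsc P U s w i‖) ≤ P.avg (fun w => ‖lsc P U s w‖) :=
    P.avg_mono fun w => norm_le_pi_norm (lsc P U s w) i
  refine le_trans ?_ h1
  rw [avg_lsc_apply P U s i hs]
  have h2 := mul_le_mul_of_nonneg_left h (inv_nonneg.mpr hs.le)
  rwa [inv_mul_cancel₀ hs.ne'] at h2

end KK

theorem core_big (m k : ℕ) (B : ℝ) (hB : 0 ≤ B) (Cv : Fin k → Crv m)
    (fc : Fin k → Polynomial (Polynomial ℂ)) (θ : ℝ) (C : Finset (Fin k))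
    (E0 : Submodule ℝ (Fin k → ℝ × ℝ)) (I : Finset {i // i ∈ C}) (hne : I ≠ Finset.univ)
    (hI : ∀ J : Finset {i // i ∉ I}, finrank ℝ
        ((E0.map (pr1 C)).map (LinearMap.funLeft ℝ (ℝ × ℝ)
          (Subtype.val : {i // i ∉ I} → {i // i ∈ C})) ⊓ supp J :
          Submodule ℝ _) ≤ J.card) :
    ∃ ε H0 A ε0 : ℝ, 0 < ε ∧ 0 < ε0 ∧ ∀ (K : Type) [Field K] (U : Fin k → K × K)
      (E : Submodule ℝ (Fin k → ℝ × ℝ)) (d : PDC Cv fc θ K U E) (τ : Fin k → ℝ) (s1 : ℝ),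
      H0 ≤ s1 → 1 ≤ s1 → (∀ i, 1 ≤ τ i) → (∀ i ∈ C, s1 ≤ τ i) →
      (∀ i, d.P.avg (fun w => ‖lvc d.P U w i‖) ≤ B * τ i) →
      (∀ i ∈ C, τ i ≤ d.P.avg (fun w => ‖lvc d.P U w i‖)) →
      (∀ v ∈ E.map (scl fun i => (τ i)⁻¹), ∃ e0 ∈ E0, ‖v - e0‖ ≤ ε * ‖v‖) →
      StarC (fun i : {i // i ∉ I} => Cv i.1.1) d.P (fun i : {i // i ∉ I} => U i.1.1)
        (fun i => τ i.1.1) s1 A ε0 → False := by
  obtain ⟨i0, hi0⟩ : ∃ i0, i0 ∉ I := by
    by_contra h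
    push Not at h
    exact hne (Finset.eq_univ_iff_forall.2 h)
  obtain ⟨δ, H0, A, ε0, hδ, hε0, hbig⟩ := big (fun i : {i // i ∉ I} => Cv i.1.1) _ hI
    (Fintype.card {i // i ∉ I} * B)
  have hV : (0 : ℝ) ≤ k * B := by positivity
  have hε : 0 < δ / (k * B + 1) := by positivity
  refine ⟨δ / (k * B + 1), H0, A, ε0, hε, hε0, ?_⟩
  intro K _ U E d τ s1 hH0 hs1 hτ hτC havg havg2 hE hStar
  have hf : ∀ i : {i // i ∉ I}, s1 ≤ τ i.1.1 := fun i => hτC _ i.1.2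
  have hτ0 : ∀ i, 0 < τ i := fun i => lt_of_lt_of_le one_pos (hτ i)
  have hex : ∀ w, ∃ e0 ∈ E0, ‖scl (fun i => (τ i)⁻¹) (lvc d.P U w) - e0‖ ≤
      δ / (k * B + 1) * ‖scl (fun i => (τ i)⁻¹) (lvc d.P U w)‖ :=
    fun w => hE _ (Submodule.mem_map_of_mem (d.mem w))
  choose e he he' using hex
  have h1 := scaled_avg d τ hτ0 B havg
  have h2 := scaled_near d τ (fun i : {i // i ∉ I} => i.1.1) e
    (δ / (k * B + 1)) (k * B) hε.le he' h1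
  have h3 : δ / (k * B + 1) * (k * B) ≤ δ := by
    rw [div_mul_eq_mul_div, div_le_iff₀ (by positivity)]
    nlinarith
  have h5 := KK.avg_lsc_le d.P (U ∘ fun i : {i // i ∉ I} => i.1.1)
    (τ ∘ fun i : {i // i ∉ I} => i.1.1) B (fun i => hτ0 _) (fun i => havg _)
  have h6 := hbig K d.S d.P (U ∘ fun i : {i // i ∉ I} => i.1.1)
    (τ ∘ fun i : {i // i ∉ I} => i.1.1) s1 (fun w => e w ∘ fun i : {i // i ∉ I} => i.1.1)
    (fun i => d.uc _) hH0 hs1 hf hStar h5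
    (fun w => ⟨pr1 C (e w), ⟨e w, he w, rfl⟩, rfl⟩) (h2.trans h3)
  have h7 := KK.one_le_avg_lsc d.P (U ∘ fun i : {i // i ∉ I} => i.1.1)
    (τ ∘ fun i : {i // i ∉ I} => i.1.1) ⟨i0, hi0⟩ (hτ0 _) (havg2 _ i0.2)
  linarith

end Pool.Agent.PC
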