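import Pool.Agent.Lib.MP_c95b3b_ag_PC.KDat
import Pool.Agent.Lib.MP_c95b3b_ag_PT.Main

/-! Project PC, module KT: Theorem T for curves with arbitrary finite index types. -/

namespace Pool.Agent.PC

open Pool.Agent.L3 Module MvPolynomial

theorem T_curves' {ι : Type} [Fintype ι] [Nonempty ι] (q : ℕ)
    (f : ι → Polynomial (Polynomial ℂ)) (hf : ∀ i, Irreducible (f i))
    (hfin : ∀ i, PT.LogFin (f i)) (B θ : ℝ) (hθ : 0 < θ) : ∃ η : ℝ, 0 < η ∧
    ∃ 𝒬 : Finset (MvPolynomial ι ℤ), (∀ Q ∈ 𝒬, Q ≠ 0) ∧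
      ∀ (K : Type) [Field K] (S : Subring K) (P : Places K S) (U : ι → K × K),
        (∀ i, (U i).1 ∈ S ∧ (U i).1 ≠ 0 ∧ (U i).2 ≠ 0) →
        P.avg (fun w => ‖lvc P U w‖) ≤ B →
        ∀ (p : Fin q → ι → ℝ × ℝ) (E : Fin q → Submodule ℝ (ι → ℝ × ℝ)) (s : Finset (Fin P.D)),
          (∀ l, finrank ℝ (E l) < Fintype.card ι) → θ * P.D ≤ s.card →
          (∀ i ∈ s, ∀ a, (f a).evalEval (P.σ i (U a).1) (P.σ i (U a).2) = 0) →
          (∀ i ∈ s, ∃ l, ∃ e ∈ E l, ‖lvc P U (.inl i) - p l - e‖ ≤ η) →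
          ∃ Q ∈ 𝒬, aeval (fun i => (U i).1) Q = 0 := by
  classical
  have hk : 1 ≤ Fintype.card ι := Fintype.card_pos
  set r : ι ≃ Fin (Fintype.card ι) := Fintype.equivFin ι with hr
  obtain ⟨η, hη, 𝒬, h𝒬, main⟩ := PT.T_curves (Fintype.card ι) q hk (fun i => f (r.symm i))
    (fun i => hf _) (fun i => hfin _) (Fintype.card ι * (2 * B)) θ hθ
  refine ⟨η, hη, 𝒬.image (MvPolynomial.rename r.symm), ?_, ?_⟩
  · intro Q hQ
    obtain ⟨Q', hQ', rfl⟩ := Finset.mem_image.mp hQ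
    intro h0
    apply h𝒬 Q' hQ'
    apply MvPolynomial.rename_injective _ r.symm.injective
    rw [h0, map_zero]
  · intro K _ S P U hU hB p E s hE hs hon hnear
    have h1 : P.avg (fun w => ∑ a, (|P.lg w (U (r.symm a)).1| + |P.lg w (U (r.symm a)).2|)) ≤
        Fintype.card ι * (2 * B) := by
      have h2 : P.avg (fun w => ∑ a, (|P.lg w (U (r.symm a)).1| + |P.lg w (U (r.symm a)).2|))
          ≤ P.avg (fun w => (Fintype.card ι * 2 : ℝ) * ‖lvc P U w‖) := by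
        apply P.avg_mono
        intro w
        have h3 : ∀ a ∈ (Finset.univ : Finset (Fin (Fintype.card ι))),
            |P.lg w (U (r.symm a)).1| + |P.lg w (U (r.symm a)).2| ≤ 2 * ‖lvc P U w‖ := by
          intro a _
          have h4 : ‖lvc P U w (r.symm a)‖ ≤ ‖lvc P U w‖ := norm_le_pi_norm (lvc P U w) (r.symm a)
          have h5 : |P.lg w (U (r.symm a)).1| ≤ ‖lvc P U w (r.symm a)‖ :=
            norm_fst_le (lvc P U w (r.symm a))
          have h6 : |P.lg w (U (r.symm a)).2| ≤ ‖lvc P U w (r.symm a)‖ :=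
            norm_snd_le (lvc P U w (r.symm a))
          linarith
        refine (Finset.sum_le_sum h3).trans ?_
        rw [Finset.sum_const, Finset.card_univ, Fintype.card_fin, nsmul_eq_mul, mul_assoc]
      refine h2.trans ?_
      rw [P.avg_mul, mul_assoc]
      exact mul_le_mul_of_nonneg_left (mul_le_mul_of_nonneg_left hB (by norm_num))
        (Nat.cast_nonneg _)
    have h4 : ∀ l, finrank ℝ ((E l).map (LinearEquiv.funCongrLeft ℝ (ℝ × ℝ) r.symm :
        (ι → ℝ × ℝ) →ₗ[ℝ] (Fin (Fintype.card ι) → ℝ × ℝ)) : Submodule ℝ _)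
        < Fintype.card ι := fun l =>
      (LinearEquiv.finrank_map_eq (LinearEquiv.funCongrLeft ℝ (ℝ × ℝ) r.symm)
        (E l)).trans_lt (hE l)
    have h6 : ∀ i ∈ s, ∃ l, ∃ e ∈ (E l).map (LinearEquiv.funCongrLeft ℝ (ℝ × ℝ) r.symm :
        (ι → ℝ × ℝ) →ₗ[ℝ] (Fin (Fintype.card ι) → ℝ × ℝ)),
        ‖(fun a => (P.lg (.inl i) (U (r.symm a)).1, P.lg (.inl i) (U (r.symm a)).2)) -
          (p l ∘ r.symm) - e‖ ≤ η := by
      intro i hi
      obtain ⟨l, e, he, hle⟩ := hnear i hi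
      refine ⟨l, LinearEquiv.funCongrLeft ℝ (ℝ × ℝ) r.symm e,
        Submodule.mem_map_of_mem he, le_trans ?_ hle⟩
      rw [pi_norm_le_iff_of_nonneg (norm_nonneg _)]
      intro a
      exact norm_le_pi_norm (lvc P U (.inl i) - p l - e) (r.symm a)
    obtain ⟨Q, hQ, hval⟩ := main K S P (fun a => (U (r.symm a)).1) (fun a => (U (r.symm a)).2)
      (fun a => (hU _).1) (fun a => (hU _).2) h1 (fun l => p l ∘ r.symm) _ s h4 hs
      (fun i hi a => hon i hi (r.symm a)) h6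
    refine ⟨MvPolynomial.rename r.symm Q, Finset.mem_image_of_mem _ hQ, ?_⟩
    rw [MvPolynomial.aeval_rename]
    exact hval

end Pool.Agent.PC
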