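import Pool.Agent.Lib.MP_c95b3b_ag_PC.RadoK
import Pool.Agent.Lib.MP_c95b3b_ag_PC.CoverK
import Pool.Agent.Lib.MP_c95b3b_ag_PC.ScaledK
import Pool.Agent.Lib.MP_c95b3b_ag_PC.TPrimeK
import Pool.Agent.Lib.MP_c95b3b_ag_KP.Core

/-! Project PC, module KL: the bounded coordinates. -/

namespace Pool.Agent.PC

open Pool.Agent.L3 Pool.Agent.AL Module MvPolynomial
open Pool.Agent.KP (supp pr1 pr0)

namespace KL

section
variable {m k : ℕ} {Cv : Fin k → Crv m} {fc : Fin k → Polynomial (Polynomial ℂ)} {θ : ℝ}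
  {K : Type} [Field K] {U : Fin k → K × K} {E : Submodule ℝ (Fin k → ℝ × ℝ)}

/-- the members of `E0` with first part in `G`, projected to the second part -/
noncomputable def cut (C : Finset (Fin k)) (E0 : Submodule ℝ (Fin k → ℝ × ℝ))
    (G : Submodule ℝ ({i // i ∈ C} → ℝ × ℝ)) : Submodule ℝ ({i // i ∉ C} → ℝ × ℝ) :=
  (E0 ⊓ G.comap (pr1 C)).map (pr0 C)

/-- the scaled vectors -/
noncomputable def vv (d : PDC Cv fc θ K U E) (τ : Fin k → ℝ) (w : d.P.Pl) : Fin k → ℝ × ℝ :=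
  scl (fun i => (τ i)⁻¹) (lvc d.P U w)

/-- the curves of the coordinates in `C` -/
def cw (Cv : Fin k → Crv m) (C : Finset (Fin k)) : {i // i ∈ C} → Crv m := fun i => Cv i.1

/-- the scaled logarithms of the coordinates in `C` -/
noncomputable def ls (d : PDC Cv fc θ K U E) (τ : Fin k → ℝ) (C : Finset (Fin k)) (w : d.P.Pl) :
    {i // i ∈ C} → ℝ × ℝ :=
  lsc d.P (fun i : {i // i ∈ C} => U i.1) (fun i => τ i.1) w

theorem scl_apply (σ : Fin k → ℝ) (v : Fin k → ℝ × ℝ) (i : Fin k) :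
    scl σ v i = σ i • v i := rfl

theorem pr0_vv (d : PDC Cv fc θ K U E) (τ : Fin k → ℝ) (C : Finset (Fin k))
    (hτ : ∀ i, i ∉ C → τ i = 1) (w : d.P.Pl) :
    pr0 C (vv d τ w) = pr0 C (lvc d.P U w) := by
  funext i
  rw [KP.pr0_apply, KP.pr0_apply]
  simp only [Function.comp_apply, vv, scl_apply]
  rw [hτ i.1 i.2, inv_one, one_smul]

theorem pr1_vv (d : PDC Cv fc θ K U E) (τ : Fin k → ℝ) (C : Finset (Fin k)) (w : d.P.Pl) :
    pr1 C (vv d τ w) = ls d τ C w := rfl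

theorem avg_ls (d : PDC Cv fc θ K U E) (τ : Fin k → ℝ) (C : Finset (Fin k)) (B s1 : ℝ)
    (hs1 : 1 ≤ s1) (hC : ∀ i ∈ C, s1 ≤ τ i)
    (h : ∀ i, d.P.avg (fun w => ‖lvc d.P U w i‖) ≤ B * τ i) :
    d.P.avg (fun w => ‖ls d τ C w‖) ≤ Fintype.card {i // i ∈ C} * B := by
  refine (d.P.avg_mono fun w => KP.norm_le_sum (ls d τ C w)).trans ?_
  rw [d.P.avg_sum]
  have h2 : ∀ i ∈ (Finset.univ : Finset {i // i ∈ C}), d.P.avg (fun w => ‖ls d τ C w i‖) ≤ B := by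
    intro i _
    have h3 : s1 ≤ τ i.1 := hC i.1 i.2
    have h4 : 0 < τ i.1 := by linarith
    have h5 : ∀ w, ‖ls d τ C w i‖ = (τ i.1)⁻¹ * ‖lvc d.P U w i.1‖ := by
      intro w
      have h6 : ls d τ C w i = (τ i.1)⁻¹ • lvc d.P U w i.1 := rfl
      rw [h6, norm_smul, Real.norm_of_nonneg (inv_nonneg.mpr h4.le)]
    simp only [h5]
    rw [d.P.avg_mul]
    have h6 := mul_le_mul_of_nonneg_left (h i.1) (inv_nonneg.mpr h4.le)
    have h7 : (τ i.1)⁻¹ * (B * τ i.1) = B := by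
      field_simp
    rw [h7] at h6
    exact h6
  refine (Finset.sum_le_card_nsmul _ _ _ h2).trans (le_of_eq ?_)
  rw [Finset.card_univ, nsmul_eq_mul]

theorem avg_out (d : PDC Cv fc θ K U E) (τ : Fin k → ℝ) (C : Finset (Fin k)) (B : ℝ)
    (hC' : ∀ i, i ∉ C → τ i = 1)
    (h : ∀ i, d.P.avg (fun w => ‖lvc d.P U w i‖) ≤ B * τ i) :
    d.P.avg (fun w => ‖lvc d.P (fun i : {i // i ∉ C} => U i.1) w‖) ≤
      Fintype.card {i // i ∉ C} * B := by
  refine (d.P.avg_mono fun w =>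
    KP.norm_le_sum (lvc d.P (fun i : {i // i ∉ C} => U i.1) w)).trans ?_
  rw [d.P.avg_sum]
  have h2 : ∀ i ∈ (Finset.univ : Finset {i // i ∉ C}),
      d.P.avg (fun w => ‖lvc d.P (fun i : {i // i ∉ C} => U i.1) w i‖) ≤ B := by
    intro i _
    have h3 := h i.1
    rw [hC' i.1 i.2, mul_one] at h3
    exact h3
  refine (Finset.sum_le_card_nsmul _ _ _ h2).trans (le_of_eq ?_)
  rw [Finset.card_univ, nsmul_eq_mul]

/-- one place -/
theorem embed (d : PDC Cv fc θ K U E) (τ : Fin k → ℝ) (C : Finset (Fin k))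
    (hC' : ∀ i, i ∉ C → τ i = 1)
    (E0 : Submodule ℝ (Fin k → ℝ × ℝ)) (x : ℕ) (CF : ℝ) (hCF : 0 ≤ CF)
    (hlift : ∀ e ∈ E0, ∃ e' ∈ E0, pr1 C e' = pr1 C e ∧ ‖e'‖ ≤ CF * ‖pr1 C e‖)
    (w : d.P.Pl) (e : Fin k → ℝ × ℝ) (he0 : e ∈ E0) (ε W Er η : ℝ) (hε : 0 ≤ ε) (hη : 0 ≤ η)
    (he : ‖vv d τ w - e‖ ≤ ε * ‖vv d τ w‖) (hW : ‖vv d τ w‖ ≤ W)
    (v : {i // i ∈ C} → ℝ × ℝ) (hv : v ∈ Good (cw Cv C) (E0.map (pr1 C)) x)
    (hlt : ‖ls d τ C w - v‖ ≤ η * (‖ls d τ C w‖ + Er)) :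
    ∃ (R : Finset {i // i ∈ C}) (j : {i // i ∈ C} → Fin m),
      finrank ℝ (E0.map (pr1 C) ⊓ cel R (rr (cw Cv C) j) : Submodule ℝ _) ≤ x ∧
      ∃ b ∈ cut C E0 (E0.map (pr1 C) ⊓ cel R (rr (cw Cv C) j)),
        ‖pr0 C (lvc d.P U w) - b‖ ≤ ε * W + CF * (ε * W + η * (W + Er)) := by
  obtain ⟨R, j, hvm, hfin⟩ := hv
  refine ⟨R, j, hfin, ?_⟩
  obtain ⟨a, ha, hav⟩ := hvm.1
  obtain ⟨e', he', h1, h2⟩ := hlift (e - a) (E0.sub_mem he0 ha)
  have h3 : pr1 C (e - e') = v := by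
    rw [map_sub, h1, map_sub, sub_sub_cancel, hav]
  refine ⟨pr0 C (e - e'), ⟨e - e', ⟨E0.sub_mem he0 he', ?_⟩, rfl⟩, ?_⟩
  · change pr1 C (e - e') ∈ E0.map (pr1 C) ⊓ cel R (rr (cw Cv C) j)
    rw [h3]
    exact hvm
  have h4 : pr0 C (lvc d.P U w) - pr0 C (e - e') = pr0 C ((vv d τ w - e) + e') := by
    rw [← pr0_vv d τ C hC' w, ← map_sub]
    congr 1
    abel
  rw [h4]
  refine (KP.norm_pr0_le C _).trans ((norm_add_le _ _).trans (add_le_add ?_ ?_))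
  · exact he.trans (mul_le_mul_of_nonneg_left hW hε)
  · refine h2.trans (mul_le_mul_of_nonneg_left ?_ hCF)
    have h6 : ‖ls d τ C w‖ ≤ ‖vv d τ w‖ := KP.norm_pr1_le C (vv d τ w)
    have h7 : pr1 C (e - a) = (ls d τ C w - v) - pr1 C (vv d τ w - e) := by
      rw [map_sub, map_sub, hav, pr1_vv]
      abel
    have h8 : ‖pr1 C (vv d τ w - e)‖ ≤ ε * W :=
      (KP.norm_pr1_le C _).trans (he.trans (mul_le_mul_of_nonneg_left hW hε))
    have h9 : η * (‖ls d τ C w‖ + Er) ≤ η * (W + Er) :=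
      mul_le_mul_of_nonneg_left (by linarith) hη
    rw [h7]
    refine (norm_sub_le _ _).trans ?_
    linarith

theorem log_le_erC {ι : Type} [Fintype ι] (C : ι → Crv m) (i0 : ι)
    {S : Subring K} (P : Places K S) (i : Fin P.D) : Real.log 2 ≤ erC C P (.inl i) := by
  have h1 : er P (C i0).f (.inl i) ≤ erC C P (.inl i) :=
    Finset.single_le_sum (f := fun j => er P (C j).f (.inl i))
      (fun j _ => er_nonneg P (C j).f (.inl i)) (Finset.mem_univ i0)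
  refine le_trans ?_ h1
  have h2 : 0 ≤ ∑ b ∈ (C i0).f.support, |P.lg (.inl i) ((coeff b (C i0).f : ℤ) : K)| :=
    Finset.sum_nonneg fun _ _ => abs_nonneg _
  have h3 : (1 : ℝ) ≤ ((C i0).f.support.card : ℝ) := by
    have h4 : 0 < (C i0).f.support.card := by
      rw [Finset.card_pos, Finset.nonempty_iff_ne_empty]
      intro h5
      exact (C i0).irr.ne_zero (MvPolynomial.support_eq_empty.mp h5)
    exact_mod_cast h4
  have h4 : Real.log 2 ≤ Real.log (((C i0).f.support.card : ℝ) + 1) :=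
    Real.log_le_log (by norm_num) (by linarith)
  unfold er
  rw [P.arch_inl, one_mul]
  linarith

open Classical in
/-- many of the embeddings are good -/
theorem many (d : PDC Cv fc θ K U E) (hθ : 0 < θ) (τ : Fin k → ℝ) (C : Finset (Fin k))
    (F : Submodule ℝ ({i // i ∈ C} → ℝ × ℝ)) (x : ℕ) (hne : Nonempty ({i // i ∈ C} → Fin m))
    (η W : ℝ) (hη : 0 < η) (hW : 0 < W) (h1 : d.P.avg (fun w => ‖vv d τ w‖) ≤ W * (θ / 4))
    (h2 : d.P.avg (fun w => if ∀ v ∈ Good (cw Cv C) F x, η * (‖ls d τ C w‖ + erC (cw Cv C) d.P w) ≤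
      ‖ls d τ C w - v‖ then ‖ls d τ C w‖ else 0) ≤ η * Real.log 2 * (θ / 4)) :
    ∃ s : Finset (Fin d.P.D), θ / 2 * (d.P.D : ℝ) ≤ s.card ∧ s ⊆ d.emb ∧
      ∀ i ∈ s, ‖vv d τ (.inl i)‖ ≤ W ∧ ∃ v ∈ Good (cw Cv C) F x,
        ‖ls d τ C (.inl i) - v‖ ≤
          η * (‖ls d τ C (.inl i)‖ + erC (cw Cv C) d.P (.inl i)) := by
  set far : d.P.Pl → Prop := fun w => ∀ v ∈ Good (cw Cv C) F x,
    η * (‖ls d τ C w‖ + erC (cw Cv C) d.P w) < ‖ls d τ C w - v‖ with hfar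
  set s1 : Finset (Fin d.P.D) := Finset.univ.filter fun i => W ≤ ‖vv d τ (.inl i)‖ with hs1
  set s2 : Finset (Fin d.P.D) := Finset.univ.filter fun i => far (.inl i) with hs2
  have hlog : 0 < Real.log 2 := Real.log_pos (by norm_num)
  have hD : (0 : ℝ) < d.P.D := d.P.D_cast_pos
  have c1 : (s1.card : ℝ) ≤ θ / 4 * d.P.D :=
    markovK d.P (fun w => ‖vv d τ w‖) (fun _ => norm_nonneg _) W (θ / 4) hW h1 s1 fun i hi =>
      (Finset.mem_filter.mp hi).2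
  have h0 : (0 : {i // i ∈ C} → ℝ × ℝ) ∈ Good (cw Cv C) F x := zero_mem_Good _ F x hne
  have hfarm : ∀ i ∈ s2, far (.inl i) := fun i hi => (Finset.mem_filter.mp hi).2
  have c2 : (s2.card : ℝ) ≤ θ / 4 * d.P.D := by
    rcases isEmpty_or_nonempty {i // i ∈ C} with hC | ⟨⟨i0⟩⟩
    · have h3 : s2 = ∅ := by
        refine Finset.eq_empty_of_forall_notMem fun i hi => ?_
        have h4 := hfarm i hi 0 h0
        have h5 : ls d τ C (.inl i) = 0 := Subsingleton.elim _ _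
        rw [h5, sub_zero, norm_zero, zero_add] at h4
        exact absurd (mul_nonneg hη.le (erC_nonneg (cw Cv C) d.P (.inl i))) (not_le.mpr h4)
      rw [h3, Finset.card_empty, Nat.cast_zero]
      positivity
    · refine markovK d.P (fun w => if ∀ v ∈ Good (cw Cv C) F x,
          η * (‖ls d τ C w‖ + erC (cw Cv C) d.P w) ≤ ‖ls d τ C w - v‖ then ‖ls d τ C w‖ else 0)
        (fun w => ?_) (η * Real.log 2) (θ / 4) (by positivity) h2 s2 ?_
      · split_ifs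
        · exact norm_nonneg _
        · exact le_rfl
      · intro i hi
        have h3 : far (.inl i) := hfarm i hi
        rw [if_pos fun v hv => (h3 v hv).le]
        have h4 := h3 0 h0
        rw [sub_zero] at h4
        have h5 := norm_nonneg (ls d τ C (.inl i))
        have h6 := mul_le_mul_of_nonneg_left (log_le_erC (cw Cv C) i0 d.P i) hη.le
        nlinarith [mul_nonneg hη.le h5]
  refine ⟨d.emb \ (s1 ∪ s2), ?_, Finset.sdiff_subset, ?_⟩
  · have h3 : (d.emb.card : ℝ) ≤ ((d.emb \ (s1 ∪ s2)).card : ℝ) + ((s1 ∪ s2).card : ℝ) := by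
      have h4 : d.emb.card ≤ (d.emb \ (s1 ∪ s2)).card + (s1 ∪ s2).card := by
        have h5 := Finset.card_sdiff_add_card d.emb (s1 ∪ s2)
        have h6 : d.emb.card ≤ (d.emb ∪ (s1 ∪ s2)).card :=
          Finset.card_le_card Finset.subset_union_left
        omega
      exact_mod_cast h4
    have h4 : ((s1 ∪ s2).card : ℝ) ≤ s1.card + s2.card := by
      exact_mod_cast Finset.card_union_le s1 s2
    have h5 := d.card
    linarith
  · intro i hi
    rw [Finset.mem_sdiff, Finset.mem_union, not_or] at hi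
    refine ⟨?_, ?_⟩
    · by_contra h
      exact hi.2.1 (Finset.mem_filter.mpr ⟨Finset.mem_univ _, (not_le.mp h).le⟩)
    · by_contra h
      push Not at h
      exact hi.2.2 (Finset.mem_filter.mpr ⟨Finset.mem_univ _, fun v hv => h v hv⟩)

end

end KL

theorem core_large (m k : ℕ) (B : ℝ) (hB : 0 ≤ B) (Cv : Fin k → Crv m)
    (fc : Fin k → Polynomial (Polynomial ℂ)) (hfc : ∀ i, Irreducible (fc i))
    (hfin : ∀ i, PT.LogFin (fc i)) (θ : ℝ) (hθ : 0 < θ) (C : Finset (Fin k))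
    (E0 : Submodule ℝ (Fin k → ℝ × ℝ)) (hE0 : finrank ℝ E0 < k)
    (h1 : Fintype.card {i // i ∈ C} ≤ finrank ℝ (E0.map (pr1 C)))
    (h2 : ∀ I' : Finset {i // i ∈ C}, finrank ℝ (E0.map (pr1 C) ⊓ supp I' : Submodule ℝ _) ≤
      I'.card + (finrank ℝ (E0.map (pr1 C)) - Fintype.card {i // i ∈ C})) :
    ∃ ε H0 A ε0 : ℝ, 0 < ε ∧ 0 < ε0 ∧ ∃ 𝒬 : Finset (MvPolynomial {i // i ∉ C} ℤ),
      (∀ Q ∈ 𝒬, Q ≠ 0) ∧ ∀ (K : Type) [Field K] (U : Fin k → K × K)
      (E : Submodule ℝ (Fin k → ℝ × ℝ)) (d : PDC Cv fc θ K U E) (τ : Fin k → ℝ) (s1 : ℝ),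
      H0 ≤ s1 → 1 ≤ s1 → (∀ i ∈ C, s1 ≤ τ i) → (∀ i, i ∉ C → τ i = 1) →
      (∀ i, d.P.avg (fun w => ‖lvc d.P U w i‖) ≤ B * τ i) →
      (∀ v ∈ E.map (scl fun i => (τ i)⁻¹), ∃ e0 ∈ E0, ‖v - e0‖ ≤ ε * ‖v‖) →
      StarC (fun i : {i // i ∈ C} => Cv i.1) d.P (fun i : {i // i ∈ C} => U i.1)
        (fun i => τ i.1) s1 A ε0 →
      ∃ Q ∈ 𝒬, aeval (fun i : {i // i ∉ C} => (U i.1).1) Q = 0 := by
  classical
  set F := E0.map (pr1 C) with hF
  set x := finrank ℝ F - Fintype.card {i // i ∈ C} with hx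
  obtain ⟨j', hjg, hj'⟩ := rado (KL.cw Cv C) F x h2
  have hcard : Fintype.card {i // i ∈ C} + Fintype.card {i // i ∉ C} = k := by
    rw [← Fintype.card_sum, Fintype.card_congr (Equiv.sumCompl (fun i => i ∈ C)),
      Fintype.card_fin]
  have hFE : finrank ℝ F ≤ finrank ℝ E0 := Submodule.finrank_map_le _ _
  have hcut : ∀ (R : Finset {i // i ∈ C}) (j : {i // i ∈ C} → Fin m),
      finrank ℝ (F ⊓ cel R (rr (KL.cw Cv C) j) : Submodule ℝ _) ≤ x →
      finrank ℝ (KL.cut C E0 (F ⊓ cel R (rr (KL.cw Cv C) j))) < Fintype.card {i // i ∉ C} := by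
    intro R j h
    have h3 := KP.dim_bound (pr0 C) (pr1 C) E0 (F ⊓ cel R (rr (KL.cw Cv C) j)) inf_le_left
    have h4 : finrank ℝ (KL.cut C E0 (F ⊓ cel R (rr (KL.cw Cv C) j))) = finrank ℝ
      ((E0 ⊓ (F ⊓ cel R (rr (KL.cw Cv C) j)).comap (pr1 C)).map (pr0 C) : Submodule ℝ _) := rfl
    rw [← h4, ← hF] at h3
    omega
  have hpos : 0 < Fintype.card {i // i ∉ C} := by omega
  have : Nonempty {i // i ∉ C} := Fintype.card_pos_iff.mp hpos
  -- Theorem T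
  let T : Type := Finset {i // i ∈ C} × ({i // i ∈ C} → Fin m)
  obtain ⟨ηT, hηT, 𝒬T, h𝒬T, hT⟩ := T_curves' (ι := {i // i ∉ C}) (Fintype.card T)
    (fun i => fc i.1) (fun i => hfc i.1) (fun i => hfin i.1)
    (Fintype.card {i // i ∉ C} * B) (θ / 2) (by positivity)
  obtain ⟨CF, hCF1, hlift⟩ := KP.exists_lift (pr1 C) E0
  obtain ⟨Er, hEr0, hEr⟩ := erC_inl_le (KL.cw Cv C)
  set V : ℝ := k * B with hV
  have hV0 : 0 ≤ V := by positivity
  set W : ℝ := 4 * (V + 1) / θ with hW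
  have hW0 : 0 < W := by positivity
  have hCF0 : 0 < CF := lt_of_lt_of_le one_pos hCF1
  set η : ℝ := ηT / (4 * CF * (W + Er + 1)) with hη
  have hη0 : 0 < η := by positivity
  have hlog : 0 < Real.log 2 := Real.log_pos (by norm_num)
  obtain ⟨δ, H0, A, ε0, hδ, hε0, hcov⟩ := cover (KL.cw Cv C) F x j' hjg hj' η
    (η * Real.log 2 * (θ / 4)) (Fintype.card {i // i ∈ C} * B) hη0 (by positivity)
  set ε : ℝ := min (δ / (V + 1)) (ηT / (4 * CF * (W + 1))) with hε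
  have hε1 : 0 < ε := lt_min (by positivity) (by positivity)
  refine ⟨ε, H0, A, ε0, hε1, hε0, 𝒬T, h𝒬T, ?_⟩
  intro K _ U E d τ s1 hH hs1 hC hC' hav hlim hstar
  have hs0 : 0 < s1 := by linarith
  have hτ1 : ∀ i, 0 < τ i := by
    intro i
    by_cases hi : i ∈ C
    · exact lt_of_lt_of_le hs0 (hC i hi)
    · rw [hC' i hi]
      exact one_pos
  -- the approximations
  have hmem : ∀ w, KL.vv d τ w ∈ E.map (scl fun i => (τ i)⁻¹) := fun w =>
    Submodule.mem_map_of_mem (d.mem w)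
  choose e he0 he using fun w => hlim _ (hmem w)
  have hVn : d.P.avg (fun w => ‖KL.vv d τ w‖) ≤ V := scaled_avg d τ hτ1 B hav
  have hnear : d.P.avg (fun w => ‖KL.ls d τ C w - pr1 C (e w)‖) ≤ δ := by
    refine (scaled_near d τ (Subtype.val : {i // i ∈ C} → Fin k) e ε V hε1.le he hVn).trans ?_
    have h4 : ε * V ≤ δ / (V + 1) * V := mul_le_mul_of_nonneg_right (min_le_left _ _) hV0
    have h5 : δ / (V + 1) * V = δ * (V / (V + 1)) := by
      field_simp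
    have h6 : V / (V + 1) ≤ 1 := by
      rw [div_le_one (by positivity)]
      linarith
    nlinarith
  have hcovn := hcov K d.S d.P (fun i : {i // i ∈ C} => U i.1) (fun i => τ i.1) s1
    (fun w => pr1 C (e w)) (fun i => d.uc _) hH hs1 (fun i => hC i.1 i.2) hstar
    (KL.avg_ls d τ C B s1 hs1 hC hav) (fun w => Submodule.mem_map_of_mem (he0 w)) hnear
  have hWθ : W * (θ / 4) = V + 1 := by
    rw [hW]
    field_simp
  obtain ⟨s, hs, hse, hsg⟩ := KL.many d hθ τ C F x ⟨j'⟩ η W hη0 hW0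
    (hVn.trans (by rw [hWθ]; linarith)) hcovn
  -- conclusion
  let eq := Fintype.equivFin T
  let Ef : T → Submodule ℝ ({i // i ∉ C} → ℝ × ℝ) := fun t =>
    if finrank ℝ (F ⊓ cel t.1 (rr (KL.cw Cv C) t.2) : Submodule ℝ _) ≤ x then
      KL.cut C E0 (F ⊓ cel t.1 (rr (KL.cw Cv C) t.2)) else ⊥
  have hfinal := hT K d.S d.P (fun i : {i // i ∉ C} => U i.1)
    (fun i => ⟨(d.uc i.1).mem1, (d.uc i.1).ne1, (d.uc i.1).ne2⟩)
    (KL.avg_out d τ C B hC' hav)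
    (fun _ => 0) (fun l => Ef (eq.symm l)) s ?_ hs
    (fun i hi a => d.on i (hse hi) a.1) ?_
  · exact hfinal
  · intro l
    by_cases h : finrank ℝ (F ⊓ cel (eq.symm l).1 (rr (KL.cw Cv C) (eq.symm l).2) :
        Submodule ℝ _) ≤ x
    · have h3 : Ef (eq.symm l) =
          KL.cut C E0 (F ⊓ cel (eq.symm l).1 (rr (KL.cw Cv C) (eq.symm l).2)) := if_pos h
      rw [h3]
      exact hcut _ _ h
    · have h3 : Ef (eq.symm l) = ⊥ := if_neg h
      rw [h3, finrank_bot]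
      exact hpos
  · intro i hi
    obtain ⟨h3, v, hv, h4⟩ := hsg i hi
    obtain ⟨R, j, hR, b, hb, h5⟩ := KL.embed d τ C hC' E0 x CF hCF0.le hlift (.inl i)
      (e (.inl i)) (he0 _) ε W (erC (KL.cw Cv C) d.P (.inl i)) η hε1.le hη0.le (he _) h3 v hv h4
    refine ⟨eq ⟨R, j⟩, b, ?_, ?_⟩
    · have h6 : Ef (eq.symm (eq ⟨R, j⟩)) = KL.cut C E0 (F ⊓ cel R (rr (KL.cw Cv C) j)) := by
        rw [Equiv.symm_apply_apply]
        exact if_pos hR
      change b ∈ Ef (eq.symm (eq ⟨R, j⟩))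
      rw [h6]
      exact hb
    · rw [sub_zero]
      refine h5.trans ?_
      have hε2 : CF * (ε * (W + 1)) ≤ ηT / 4 := by
        have h6 : CF * (ε * (W + 1)) ≤ CF * (ηT / (4 * CF * (W + 1)) * (W + 1)) := by
          gcongr
          exact min_le_right _ _
        refine h6.trans (le_of_eq ?_)
        field_simp
      have hη1 : CF * (η * (W + Er + 1)) = ηT / 4 := by
        rw [hη]
        field_simp
      have h6 : CF * (η * (W + erC (KL.cw Cv C) d.P (.inl i))) ≤ CF * (η * (W + Er + 1)) :=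
        mul_le_mul_of_nonneg_left (mul_le_mul_of_nonneg_left (by linarith [hEr K d.S d.P i])
          hη0.le) hCF0.le
      have h7 : ε * W ≤ CF * (ε * (W + 1)) := by
        have h8 : ε * W ≤ ε * (W + 1) := by nlinarith
        have h9 : (0:ℝ) ≤ ε * (W + 1) := by positivity
        nlinarith
      have h9 : CF * (ε * W) ≤ CF * (ε * (W + 1)) :=
        mul_le_mul_of_nonneg_left (mul_le_mul_of_nonneg_left (by linarith) hε1.le) hCF0.le
      nlinarith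

end Pool.Agent.PC
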