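import Pool.Agent.Lib.MP_c95b3b_ag_PC.KFin
import Pool.Agent.Lib.MP_c95b3b_ag_L3.FD1

/-! Project PC, module FF: from number fields to the complex numbers. -/

namespace Pool.Agent.PC

open Pool.Agent.L3 Module MvPolynomial

/-- multiplicative relations between units, and the points on the curves, are preserved -/
theorem specialC_map {A L K : Type} [CommRing A] [Field L] [Field K] (f : A →+* L)
    (hf : Function.Injective f) (g : A →+* K) {k r : ℕ} (h0 : Fin k → Polynomial (Polynomial A))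
    (x y x' y' : Fin k → A) (hx : ∀ i, x i * x' i = 1) (hy : ∀ i, y i * y' i = 1)
    (h : SpecialC r (fun i => chg f (h0 i)) (fun i => f (x i)) (fun i => f (y i))) :
    SpecialC r (fun i => chg g (h0 i)) (fun i => g (x i)) (fun i => g (y i)) := by
  obtain ⟨h1, Λ, hr, hΛ⟩ := h
  have hS : Special r (fun i => f (x' i)) (fun i => f ((fun _ => 0 : Fin k → A) i))
      (fun i => f (x i)) (fun i => f (y i)) := by
    refine ⟨fun i => ⟨(h1 i).1, (h1 i).2.1, ?_⟩, Λ, hr, hΛ⟩
    show f (x' i) * f (x i) + f 0 * f (y i) = 1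
    rw [map_zero, zero_mul, add_zero, ← map_mul, mul_comm, hx, map_one]
  obtain ⟨h2, Λ', hr', hΛ'⟩ := FD.special_map f hf g x' (fun _ => 0) x y x' y' hx hy hS
  refine ⟨fun i => ⟨(h2 i).1, (h2 i).2.1, ?_⟩, Λ', hr', hΛ'⟩
  show (chg g (h0 i)).evalEval (g (x i)) (g (y i)) = 0
  rw [evalEval_chg]
  have h3 : (chg f (h0 i)).evalEval (f (x i)) (f (y i)) = 0 := (h1 i).2.2
  rw [evalEval_chg] at h3
  have h4 : (h0 i).evalEval (x i) (y i) = 0 := hf (by rw [h3, map_zero])
  rw [h4, map_zero]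

/-- a polynomial whose coefficients lie in the image of a ring homomorphism -/
theorem exists_chg {R S : Type} [CommRing R] [CommRing S] (φ : R →+* S)
    (f : Polynomial (Polynomial S)) (h : ∀ a b, (f.coeff a).coeff b ∈ Set.range φ) :
    ∃ f0 : Polynomial (Polynomial R), chg φ f0 = f := by
  have h1 : f ∈ Polynomial.lifts (Polynomial.mapRingHom φ) := by
    rw [Polynomial.lifts_iff_coeff_lifts]
    intro a
    have h2 : f.coeff a ∈ Polynomial.lifts φ := by
      rw [Polynomial.lifts_iff_coeff_lifts]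
      exact fun b => h a b
    obtain ⟨q, hq⟩ := h2
    exact ⟨q, hq⟩
  obtain ⟨q, hq⟩ := h1
  exact ⟨q, hq⟩

theorem complex_of_nfC (k r : ℕ)
    (H : ∀ (K0 : Type) [Field K0] [NumberField K0] (φ0 : K0 →+* ℂ)
      (f0 : Fin k → Polynomial (Polynomial K0)), (∀ i, Irreducible (chg φ0 (f0 i))) →
      (∀ i, PT.LogFin (chg φ0 (f0 i))) →
      ∃ F : MvPolynomial (Fin k) ℤ, F ≠ 0 ∧
        ∀ (K : Type) [Field K] [NumberField K] [Algebra K0 K] (x y : Fin k → K),
          SpecialC r (fun i => chg (algebraMap K0 K) (f0 i)) x y → aeval x F = 0)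
    (fc : Fin k → Polynomial (Polynomial ℂ)) (irr : ∀ i, Irreducible (fc i))
    (alg : ∀ i a b, IsAlgebraic ℚ (((fc i).coeff a).coeff b)) (fin : ∀ i, PT.LogFin (fc i)) :
    ∃ F : MvPolynomial (Fin k) ℤ, F ≠ 0 ∧ ∀ x y : Fin k → ℂ, SpecialC r fc x y →
      aeval x F = 0 := by
  set S : Set ℂ := ⋃ i : Fin k, ⋃ a ∈ (fc i).support, ⋃ b ∈ ((fc i).coeff a).support,
    {((fc i).coeff a).coeff b} with hS
  have hSfin : S.Finite := by
    refine Set.finite_iUnion fun i => ?_
    refine (Finset.finite_toSet (fc i).support).biUnion fun a _ => ?_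
    exact (Finset.finite_toSet ((fc i).coeff a).support).biUnion fun b _ =>
      Set.finite_singleton _
  let K0 : IntermediateField ℚ ℂ := IntermediateField.adjoin ℚ S
  have hfin : FiniteDimensional ℚ K0 := by
    have : Finite S := hSfin
    refine IntermediateField.finiteDimensional_adjoin fun z hz => ?_
    rw [hS] at hz
    simp only [Set.mem_iUnion, Set.mem_singleton_iff] at hz
    obtain ⟨i, a, _, b, _, rfl⟩ := hz
    exact (alg i a b).isIntegral
  have : NumberField K0 := ⟨⟩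
  have hmem : ∀ i a b, ((fc i).coeff a).coeff b ∈ K0 := by
    intro i a b
    by_cases h1 : (fc i).coeff a = 0
    · rw [h1, Polynomial.coeff_zero]
      exact K0.zero_mem
    by_cases h2 : ((fc i).coeff a).coeff b = 0
    · rw [h2]
      exact K0.zero_mem
    apply IntermediateField.subset_adjoin ℚ S
    rw [hS]
    simp only [Set.mem_iUnion, Set.mem_singleton_iff]
    exact ⟨i, a, Polynomial.mem_support_iff.mpr h1, b, Polynomial.mem_support_iff.mpr h2, rfl⟩
  let φ0 : K0 →+* ℂ := algebraMap K0 ℂ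
  choose f0 hf0 using fun i => exists_chg φ0 (fc i) (fun a b => ⟨⟨_, hmem i a b⟩, rfl⟩)
  obtain ⟨F, hF, H'⟩ := H K0 φ0 f0 (fun i => by rw [hf0]; exact irr i)
    (fun i => by rw [hf0]; exact fin i)
  refine ⟨F, hF, fun x y hxy => ?_⟩
  by_contra hne
  let e : ℂ := MvPolynomial.aeval x F
  have he : e ≠ 0 := hne
  let T : Set ℂ := (Set.range x ∪ Set.range y) ∪ (Set.range (fun i => (x i)⁻¹) ∪
    Set.range (fun i => (y i)⁻¹)) ∪ {e⁻¹}
  have hTfin : T.Finite := (((Set.finite_range _).union (Set.finite_range _)).union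
    ((Set.finite_range _).union (Set.finite_range _))).union (Set.finite_singleton _)
  let A : Subalgebra K0 ℂ := Algebra.adjoin K0 T
  have hA : Algebra.FiniteType K0 A := by
    rw [← Subalgebra.fg_iff_finiteType]
    exact Subalgebra.fg_def.mpr ⟨T, hTfin, rfl⟩
  obtain ⟨K, _, _, _, ⟨φ⟩⟩ := FD.exists_point K0 A
  have hTA : ∀ z ∈ T, z ∈ A := fun z hz => Algebra.subset_adjoin hz
  let X : Fin k → A := fun i => ⟨x i, hTA _ (Or.inl (Or.inl (Or.inl ⟨i, rfl⟩)))⟩
  let Y : Fin k → A := fun i => ⟨y i, hTA _ (Or.inl (Or.inl (Or.inr ⟨i, rfl⟩)))⟩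
  let X' : Fin k → A := fun i => ⟨(x i)⁻¹, hTA _ (Or.inl (Or.inr (Or.inl ⟨i, rfl⟩)))⟩
  let Y' : Fin k → A := fun i => ⟨(y i)⁻¹, hTA _ (Or.inl (Or.inr (Or.inr ⟨i, rfl⟩)))⟩
  let E' : A := ⟨e⁻¹, hTA _ (Or.inr rfl)⟩
  have hX : ∀ i, X i * X' i = 1 := fun i => Subtype.ext (mul_inv_cancel₀ (hxy.1 i).1)
  have hY : ∀ i, Y i * Y' i = 1 := fun i => Subtype.ext (mul_inv_cancel₀ (hxy.1 i).2.1)
  have hsub : ((A.subtype : A →+* ℂ).comp (algebraMap K0 A)) = φ0 := rfl
  have hS0 : SpecialC r (fun i => chg (A.subtype : A →+* ℂ) (chg (algebraMap K0 A) (f0 i)))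
      (fun i => (A.subtype : A →+* ℂ) (X i)) (fun i => (A.subtype : A →+* ℂ) (Y i)) := by
    simp only [chg_chg, hsub, hf0]
    exact hxy
  have hS1 := specialC_map (A.subtype : A →+* ℂ) Subtype.val_injective (φ : A →+* K)
    (fun i => chg (algebraMap K0 A) (f0 i)) X Y X' Y' hX hY hS0
  have hcomm : (φ : A →+* K).comp (algebraMap K0 A) = algebraMap K0 K :=
    RingHom.ext fun z => φ.commutes z
  have hS2 : SpecialC r (fun i => chg (algebraMap K0 K) (f0 i))
      (fun i => (φ : A →+* K) (X i)) (fun i => (φ : A →+* K) (Y i)) := by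
    simpa only [chg_chg, hcomm] using hS1
  have h0 := H' K _ _ hS2
  let G : A := MvPolynomial.aeval X F
  have h1 : (φ : A →+* K) G = 0 := by
    rw [← h0]
    have h2 := MvPolynomial.map_aeval X (φ : A →+* K) F
    rw [h2]
    have h3 : (φ : A →+* K).comp (algebraMap ℤ A) = algebraMap ℤ K := Subsingleton.elim _ _
    rw [h3, MvPolynomial.coe_eval₂Hom, ← MvPolynomial.aeval_def]
  have h2 : A.subtype G = e := by
    have h2 := MvPolynomial.map_aeval X (A.subtype : A →+* ℂ) F
    have h3 : (A.subtype : A →+* ℂ).comp (algebraMap ℤ A) = algebraMap ℤ ℂ :=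
      Subsingleton.elim _ _
    rw [h3, MvPolynomial.coe_eval₂Hom, ← MvPolynomial.aeval_def] at h2
    exact h2
  have h3 : G * E' = 1 := Subtype.ext (by
    change A.subtype G * e⁻¹ = 1
    rw [h2]
    exact mul_inv_cancel₀ he)
  have h4 := congrArg (φ : A →+* K) h3
  rw [map_mul, h1, zero_mul, map_one] at h4
  exact zero_ne_one h4

end Pool.Agent.PC
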