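import Pool.Agent.Lib.MP_c95b3b_ag_PC.FNum
import Pool.Agent.Lib.MP_c95b3b_ag_PC.FCplx

/-! Project PC, the theorem. -/

namespace Pool.Agent.PC

open Pool.Agent.L3 Module MvPolynomial

theorem curves (k : ℕ) (f : Fin k → Polynomial (Polynomial ℂ)) (irr : ∀ i, Irreducible (f i))
    (alg : ∀ i a b, IsAlgebraic ℚ (((f i).coeff a).coeff b)) (fin : ∀ i, PT.LogFin (f i)) :
    ∃ F : MvPolynomial (Fin k) ℤ, F ≠ 0 ∧ ∀ x y : Fin k → ℂ, SpecialC (k + 1) f x y →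
      aeval x F = 0 :=
  complex_of_nfC k (k + 1)
    (fun K0 _ _ φ0 f0 h1 h2 => curves_nf k K0 φ0 f0 h1 h2) f irr alg fin

end Pool.Agent.PC
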