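import Pool.Agent.Lib.MP_c95b3b_ag_PC.DefsD
import Pool.Agent.Lib.MP_c95b3b_ag_AL.NE
import Pool.Agent.Lib.MP_c95b3b_ag_AL.NF

/-! Project PC (MP_c95b3b_ag), module DA: Lemma NA. -/

namespace Pool.Agent.PC

open Pool.Agent.L3 Pool.Agent.AL Module MvPolynomial

namespace DA

section expand
variable {ι Λ : Type} [Fintype ι] [DecidableEq ι] [Fintype Λ] [DecidableEq Λ] {d : ℕ}

/-- expansion of the determinant `T e t` -/
theorem gTD_expand {K : Type} [Field K] (Bd : ι → Polynomial ℤ) (ε : ι → Bool)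
    (c : Cf ι Λ d → K) (P : ι → K) (a : Λ → K)
    (e : Λ → ι) (t : Λ) (x : ι → K) (ha : ∀ l, a l = ∑ i, x i * (gyD Bd ε P i * gG c P l i)) :
    gTD Bd ε c P a e t = ∑ i, x i * gDD Bd ε c P (Function.update e t i) := by
  have ha' : a = ∑ i, x i • (fun l => gyD Bd ε P i * gG c P l i) := by
    funext l
    rw [ha l, Finset.sum_apply]
    rfl
  unfold gTD gDD
  rw [← Matrix.cramer_apply, ha', map_sum, Finset.sum_apply]
  refine Finset.sum_congr rfl fun i _ => ?_
  rw [map_smul, Pi.smul_apply, smul_eq_mul, Matrix.cramer_apply]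
  congr 2
  ext l s
  rw [Matrix.updateCol_apply, Matrix.of_apply, Matrix.of_apply]
  by_cases h : s = t
  · subst h
    rw [if_pos rfl, Function.update_self]
  · rw [if_neg h, Function.update_of_ne h]

end expand

/-- the value of an integer polynomial -/
noncomputable def ev {A : Type} [CommRing A] (u : A) (p : Polynomial ℤ) : A :=
  Polynomial.eval₂ (Int.castRingHom A) u p

theorem aeval_eq_ev {A : Type} [CommRing A] (u : A) (p : Polynomial ℤ) :
    Polynomial.aeval u p = ev u p := rfl

/-- ring homomorphisms and integer polynomials -/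
theorem map_ev {R S : Type} [CommRing R] [CommRing S] (f : R →+* S) (x : R) (p : Polynomial ℤ) :
    f (ev x p) = ev (f x) p := by
  unfold ev
  rw [Polynomial.hom_eval₂]
  congr 1
  exact RingHom.ext_int _ _

/-- the chain rule -/
theorem chain {R : Type} [CommRing R] (E : R →+ R)
    (hEl : ∀ a b, E (a * b) = a * E b + b * E a) (p : Polynomial ℤ) (u : R) :
    E (ev u p) = ev u (Polynomial.derivative p) * E u := by
  let E' : Derivation ℤ R R := Derivation.mk' E.toIntLinearMap (fun a b => hEl a b)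
  exact E'.map_aeval p u

section rings
variable {ι Λ : Type} [Fintype ι] [DecidableEq ι] [Fintype Λ] [DecidableEq Λ] {d : ℕ}
variable {R S : Type} [CommRing R] [CommRing S]

/-- `gyD` over rings -/
noncomputable def yR (Bd : ι → Polynomial ℤ) (ε : ι → Bool) (P : ι → R) (i : ι) : R :=
  if ε i then ev (P i) (Bd i) else P i

/-- `gDD` over rings -/
noncomputable def DR (Bd : ι → Polynomial ℤ) (ε : ι → Bool) (c : Cf ι Λ d → R) (P : ι → R)
    (e : Λ → ι) : R :=
  (Matrix.of fun l t => yR Bd ε P (e t) * NF.GR c P l (e t)).det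

/-- `gTD` over rings -/
noncomputable def TR (Bd : ι → Polynomial ℤ) (ε : ι → Bool) (c : Cf ι Λ d → R) (P : ι → R)
    (a : Λ → R) (e : Λ → ι) (t : Λ) : R :=
  ((Matrix.of fun l t => yR Bd ε P (e t) * NF.GR c P l (e t)).updateCol t a).det

theorem map_yR (Bd : ι → Polynomial ℤ) (f : R →+* S) (ε : ι → Bool) (P : ι → R) (i : ι) :
    f (yR Bd ε P i) = yR Bd ε (fun i => f (P i)) i := by
  unfold yR
  split_ifs with h
  · exact map_ev f (P i) (Bd i)
  · rfl

theorem map_DR (Bd : ι → Polynomial ℤ) (f : R →+* S) (ε : ι → Bool) (c : Cf ι Λ d → R)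
    (P : ι → R) (e : Λ → ι) :
    f (DR Bd ε c P e) = DR Bd ε (fun α => f (c α)) (fun i => f (P i)) e := by
  unfold DR
  rw [RingHom.map_det]
  congr 1
  ext l t
  rw [RingHom.mapMatrix_apply, Matrix.map_apply, Matrix.of_apply, Matrix.of_apply, map_mul,
    map_yR, NF.map_GR]

theorem map_TR (Bd : ι → Polynomial ℤ) (f : R →+* S) (ε : ι → Bool) (c : Cf ι Λ d → R)
    (P : ι → R) (a : Λ → R) (e : Λ → ι) (t : Λ) :
    f (TR Bd ε c P a e t) =
      TR Bd ε (fun α => f (c α)) (fun i => f (P i)) (fun l => f (a l)) e t := by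
  unfold TR
  rw [RingHom.map_det]
  congr 1
  ext l s
  rw [RingHom.mapMatrix_apply, Matrix.map_apply, Matrix.updateCol_apply, Matrix.updateCol_apply,
    Matrix.of_apply, Matrix.of_apply]
  by_cases h : s = t
  · rw [if_pos h, if_pos h]
  · rw [if_neg h, if_neg h, map_mul, map_yR, NF.map_GR]

end rings

section laurent
variable {Ω : Type} [Field Ω] [CharZero Ω]

/-- the derivative does not lower the order -/
theorem order_der (D' : Ω → Ω) (hD0 : D' 0 = 0) (E : HahnSeries ℤ Ω →+ HahnSeries ℤ Ω)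
    (hE : ∀ f γ, (E f).coeff γ = D' (f.coeff γ)) (y : HahnSeries ℤ Ω) (hy : E y ≠ 0) :
    y.order ≤ (E y).order := by
  by_contra hlt
  push Not at hlt
  have h1 : (E y).coeff (E y).order ≠ 0 := fun h => hy (HahnSeries.coeff_order_eq_zero.mp h)
  apply h1
  rw [hE, HahnSeries.coeff_eq_zero_of_lt_order hlt, hD0]

/-- the ring homomorphism from the rational numbers -/
noncomputable def jP : ℚ →+* PowerSeries Ω := (PowerSeries.C).comp (algebraMap ℚ Ω)

/-- a series of order at least `0` is a power series -/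
theorem exists_ps {u : HahnSeries ℤ Ω} (hu : 0 ≤ u.order) :
    ∃ p : PowerSeries Ω, HahnSeries.ofPowerSeries ℤ Ω p = u :=
  NE.mem_range fun _ hj => HahnSeries.coeff_eq_zero_of_lt_order (lt_of_lt_of_le hj hu)

theorem order_ps (p : PowerSeries Ω) : 0 ≤ (HahnSeries.ofPowerSeries ℤ Ω p).order := by
  by_contra hlt
  push Not at hlt
  by_cases h0 : HahnSeries.ofPowerSeries ℤ Ω p = 0
  · rw [h0, HahnSeries.order_zero] at hlt
    exact lt_irrefl _ hlt
  have h1 : (HahnSeries.ofPowerSeries ℤ Ω p).coeff (HahnSeries.ofPowerSeries ℤ Ω p).order ≠ 0 :=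
    fun h => h0 (HahnSeries.coeff_order_eq_zero.mp h)
  apply h1
  generalize (HahnSeries.ofPowerSeries ℤ Ω p).order = o at hlt
  rw [HahnSeries.ofPowerSeries_apply]
  refine HahnSeries.embDomain_of_notMem_range ?_
  rintro ⟨m, hm⟩
  have h2 : ((m : ℕ) : ℤ) = o := hm
  omega

/-- if the order of `u` is negative then the order of a nonconstant polynomial in `u` is at most
the order of `u` -/
theorem order_le_of_neg (p : Polynomial ℤ) (hdeg : 1 ≤ p.natDegree) (u : HahnSeries ℤ Ω)
    (hu : u.order < 0) : (ev u p).order ≤ u.order := by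
  have hu0 : u ≠ 0 := by
    rintro rfl
    rw [HahnSeries.order_zero] at hu
    exact lt_irrefl _ hu
  have hc : (ev u p).coeff (p.natDegree • u.order) ≠ 0 := by
    unfold ev
    rw [Polynomial.eval₂_eq_sum_range, HahnSeries.coeff_sum, Finset.sum_range_succ,
      Finset.sum_eq_zero, zero_add]
    · have h1 : (Int.castRingHom (HahnSeries ℤ Ω)) (p.coeff p.natDegree) * u ^ p.natDegree =
          HahnSeries.C ((p.coeff p.natDegree : ℤ) : Ω) * u ^ p.natDegree := by
        rw [map_intCast]
        rfl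
      rw [h1, HahnSeries.C_mul_eq_smul, HahnSeries.coeff_smul, ← HahnSeries.order_pow, smul_eq_mul]
      refine mul_ne_zero ?_ ?_
      · rw [Int.cast_ne_zero, Polynomial.coeff_natDegree, Ne, Polynomial.leadingCoeff_eq_zero]
        rintro rfl
        simp at hdeg
      · intro h
        exact pow_ne_zero _ hu0 (HahnSeries.coeff_order_eq_zero.mp h)
    · intro k hk
      have hk' := Finset.mem_range.mp hk
      have h1 : (Int.castRingHom (HahnSeries ℤ Ω)) (p.coeff k) * u ^ k =
          HahnSeries.C ((p.coeff k : ℤ) : Ω) * u ^ k := by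
        rw [map_intCast]
        rfl
      rw [h1, HahnSeries.C_mul_eq_smul, HahnSeries.coeff_smul]
      rw [HahnSeries.coeff_eq_zero_of_lt_order, smul_zero]
      rw [HahnSeries.order_pow, nsmul_eq_mul, nsmul_eq_mul]
      have : (k : ℤ) < (p.natDegree : ℤ) := by exact_mod_cast hk'
      nlinarith
  refine (HahnSeries.order_le_of_coeff_ne_zero hc).trans ?_
  rw [nsmul_eq_mul]
  have : (1 : ℤ) ≤ (p.natDegree : ℤ) := by exact_mod_cast hdeg
  nlinarith

/-- the new point: the quotient of the derivative of `u` by a squarefree polynomial in `u` has no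
negative coefficients -/
theorem order_div_neg (D' : Ω → Ω) (hD0 : D' 0 = 0) (E : HahnSeries ℤ Ω →+ HahnSeries ℤ Ω)
    (hEl : ∀ a b, E (a * b) = a * E b + b * E a)
    (hE : ∀ f γ, (E f).coeff γ = D' (f.coeff γ)) (Bd : Polynomial ℤ)
    (hBd : (Bd.map (Int.castRingHom ℚ)).Separable) (hdeg : 1 ≤ Bd.natDegree)
    (u : HahnSeries ℤ Ω) (hv : ev u Bd ≠ 0) (x : HahnSeries ℤ Ω)
    (hx : x * ev u Bd = E u) (n : ℤ) (hn : n < 0) : x.coeff n = 0 := by
  by_cases hx0 : x = 0
  · rw [hx0]; rfl
  have hEu : E u ≠ 0 := by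
    rw [← hx]
    exact mul_ne_zero hx0 hv
  suffices h : (ev u Bd).order ≤ (E u).order by
    apply HahnSeries.coeff_eq_zero_of_lt_order
    have ho := HahnSeries.order_mul hx0 hv
    rw [hx] at ho
    linarith
  have hou := order_der D' hD0 E hE u hEu
  rcases lt_or_ge u.order 0 with hneg | hpos
  · exact (order_le_of_neg Bd hdeg u hneg).trans hou
  obtain ⟨p, rfl⟩ := exists_ps hpos
  set f : PowerSeries Ω →+* HahnSeries ℤ Ω := HahnSeries.ofPowerSeries ℤ Ω with hf
  have hmap : ∀ q : Polynomial ℤ, ev (f p) q = f (ev p q) :=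
    fun q => (map_ev f p q).symm
  rcases eq_or_lt_of_le (α := ℤ) (by rw [hmap]; exact order_ps _ :
    (0 : ℤ) ≤ (ev (f p) Bd).order) with h0 | h0
  · rw [← h0]
    exact hpos.trans hou
  -- the constant coefficient of `Bd u` is zero
  have hcv : PowerSeries.constantCoeff (ev p Bd) = 0 := by
    have h1 := HahnSeries.ofPowerSeries_apply_coeff (Γ := ℤ) (ev p Bd) 0
    rw [← PowerSeries.coeff_zero_eq_constantCoeff_apply, ← h1, Nat.cast_zero]
    apply HahnSeries.coeff_eq_zero_of_lt_order
    have h2 := hmap Bd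
    rw [hf] at h2
    rw [← h2]
    exact h0
  obtain ⟨a, b, hab⟩ := hBd
  have hcd : PowerSeries.constantCoeff (ev p (Polynomial.derivative Bd)) ≠ 0 := by
    intro hz
    have h1 := congrArg (fun q => PowerSeries.constantCoeff (Polynomial.eval₂ (jP (Ω := Ω)) p q)) hab
    simp only [Polynomial.eval₂_add, Polynomial.eval₂_mul, Polynomial.eval₂_one, map_add, map_mul,
      map_one, Polynomial.derivative_map] at h1
    have h2 : ∀ q : Polynomial ℤ, Polynomial.eval₂ (jP (Ω := Ω)) p (q.map (Int.castRingHom ℚ)) =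
        ev p q := by
      intro q
      rw [Polynomial.eval₂_map]
      unfold ev
      congr 1
      exact RingHom.ext_int _ _
    rw [h2, h2, hcv, hz, mul_zero, mul_zero, add_zero] at h1
    exact zero_ne_one h1
  have hod : (ev (f p) (Polynomial.derivative Bd)).order ≤ 0 := by
    rw [hmap]
    apply HahnSeries.order_le_of_coeff_ne_zero
    have h1 := HahnSeries.ofPowerSeries_apply_coeff (Γ := ℤ)
      (ev p (Polynomial.derivative Bd)) 0
    rw [Nat.cast_zero] at h1
    rw [hf, h1, PowerSeries.coeff_zero_eq_constantCoeff_apply]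
    exact hcd
  have hd0 : ev (f p) (Polynomial.derivative Bd) ≠ 0 := by
    rw [hmap]
    intro hz
    have h1 := HahnSeries.ofPowerSeries_apply_coeff (Γ := ℤ)
      (ev p (Polynomial.derivative Bd)) 0
    rw [← hf, hz, PowerSeries.coeff_zero_eq_constantCoeff_apply] at h1
    exact hcd h1.symm
  have hEv := chain E hEl Bd (f p)
  have hEv0 : E (ev (f p) Bd) ≠ 0 := by
    rw [hEv]
    exact mul_ne_zero hd0 hEu
  have h1 := order_der D' hD0 E hE (ev (f p) Bd) hEv0
  rw [hEv, HahnSeries.order_mul hd0 hEu] at h1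
  linarith

end laurent

end DA

section
variable {ι Λ : Type} [Fintype ι] [DecidableEq ι] [Fintype Λ] [DecidableEq Λ] {d : ℕ}

theorem lemmaNAC {F L : Type} [Field F] [CharZero F] [Field L] [Algebra F L]
    (Bd : ι → Polynomial ℤ) (hBd : ∀ i, ((Bd i).map (Int.castRingHom ℚ)).Separable)
    (hdeg : ∀ i, 1 ≤ (Bd i).natDegree)
    (D : Derivation ℚ F F) (c : Cf ι Λ d → F) (P : ι → L)
    (hP : ∀ i, P i ≠ 0 ∧ Polynomial.aeval (P i) (Bd i) ≠ 0)
    (hroot : ∀ l, gv (fun α => algebraMap F L (c α)) P l = 0) (ε : ι → Bool) (e0 : Λ → ι) (t0 : Λ)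
    (hT : gTD Bd ε (fun α => algebraMap F L (c α)) P (ga (fun α => algebraMap F L (D (c α))) P)
      e0 t0 ≠ 0)
    (hD : ∃ e, gDD Bd ε (fun α => algebraMap F L (c α)) P e ≠ 0) :
    ∃ p : (Λ → ι) → MvPolynomial (Λ → ι) F,
      ∑ e, (gDD Bd ε (fun α => algebraMap F L (c α)) P e /
          gTD Bd ε (fun α => algebraMap F L (c α)) P
            (ga (fun α => algebraMap F L (D (c α))) P) e0 t0) *
        aeval (fun e => gDD Bd ε (fun α => algebraMap F L (c α)) P e /
          gTD Bd ε (fun α => algebraMap F L (c α)) P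
            (ga (fun α => algebraMap F L (D (c α))) P) e0 t0) (p e) = 1 := by
  classical
  set T : L := gTD Bd ε (fun α => algebraMap F L (c α)) P
    (ga (fun α => algebraMap F L (D (c α))) P) e0 t0 with hTd
  set z : (Λ → ι) → L := fun e => gDD Bd ε (fun α => algebraMap F L (c α)) P e / T with hzd
  let Z : Finset L := Finset.univ.image z
  have hZr : (Z : Set L) = Set.range z := by
    rw [Finset.coe_image, Finset.coe_univ, Set.image_univ]
  by_cases hid : Ideal.span {w : Algebra.adjoin F (Z : Set L) | (w : L) ∈ Z} = ⊤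
  · exact NF.case_top z (Z : Set L) hZr hid
  exfalso
  let X : Finset L := Finset.univ.image P ∪ Finset.univ.image (gyD Bd ε P) ∪ {T}
  have hgy : ∀ i, gyD Bd ε P i ≠ 0 := by
    intro i
    unfold gyD gyC
    split_ifs with h
    · exact (hP i).2
    · exact (hP i).1
  have hZ : ∃ w ∈ Z, w ≠ 0 := by
    obtain ⟨e, he⟩ := hD
    exact ⟨z e, Finset.mem_image_of_mem _ (Finset.mem_univ _), div_ne_zero he hT⟩
  have hX : ∀ x ∈ X, x ≠ 0 := by
    intro x hx
    rcases Finset.mem_union.mp hx with hx | hx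
    · rcases Finset.mem_union.mp hx with hx | hx
      · obtain ⟨i, _, rfl⟩ := Finset.mem_image.mp hx
        exact (hP i).1
      · obtain ⟨i, _, rfl⟩ := Finset.mem_image.mp hx
        exact hgy i
    · rw [Finset.mem_singleton.mp hx]
      exact hT
  obtain ⟨B, φ, hφC, hφZ, hφX⟩ := arc Z X hZ hX hid
  obtain ⟨D', hD'⟩ := Pool.Agent.MLD.dext (k := ℚ) D
  obtain ⟨E, hEl, hE⟩ := NF.hcoef' (Γ := ℤ) D'
  -- the point in `B`
  have hPB : ∀ i, P i ∈ B := fun i => (hφX (P i) (Finset.mem_union_left _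
    (Finset.mem_union_left _ (Finset.mem_image_of_mem _ (Finset.mem_univ _))))).1
  let PB : ι → B := fun i => ⟨P i, hPB i⟩
  let cB : Cf ι Λ d → B := fun α => algebraMap F B (c α)
  let bB : Cf ι Λ d → B := fun α => algebraMap F B (D (c α))
  let vB : B →+* L := B.val.toRingHom
  let PM : ι → LaurentSeries (AlgebraicClosure F) := fun i => φ (PB i)
  let cM : Cf ι Λ d → LaurentSeries (AlgebraicClosure F) := fun α => φ (cB α)
  let bM : Cf ι Λ d → LaurentSeries (AlgebraicClosure F) := fun α => φ (bB α)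
  let aB : Λ → B := fun l => - NF.vR bB PB l
  have hvinj : Function.Injective vB := Subtype.val_injective
  have hTB : vB (DA.TR Bd ε cB PB aB e0 t0) = T := by
    rw [DA.map_TR]
    have h : (fun l => vB (aB l)) = ga (fun α => algebraMap F L (D (c α))) P := by
      funext l
      show vB (- NF.vR bB PB l) = - gv (fun α => algebraMap F L (D (c α))) P l
      rw [map_neg, NF.map_vR]
      rfl
    rw [h]
    rfl
  have hDB : ∀ e, vB (DA.DR Bd ε cB PB e) = gDD Bd ε (fun α => algebraMap F L (c α)) P e := by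
    intro e
    rw [DA.map_DR]
    rfl
  have hzB : ∀ e, ∃ h : z e ∈ B, ∀ n ≤ 0, (φ ⟨z e, h⟩).coeff n = 0 := fun e =>
    hφZ (z e) (Finset.mem_image_of_mem _ (Finset.mem_univ _))
  choose hzB hzc using hzB
  let zB : (Λ → ι) → B := fun e => ⟨z e, hzB e⟩
  have hDz : ∀ e, DA.DR Bd ε cB PB e = zB e * DA.TR Bd ε cB PB aB e0 t0 := by
    intro e
    apply hvinj
    rw [map_mul, hTB, hDB]
    show gDD Bd ε (fun α => algebraMap F L (c α)) P e =
      gDD Bd ε (fun α => algebraMap F L (c α)) P e / T * T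
    rw [div_mul_cancel₀ _ hT]
  have hinv : ∀ b : B, vB b ∈ X → φ b ≠ 0 := by
    intro b hb h
    have h2 := (hφX (vB b) hb).2
    have h3 : b * ⟨(vB b)⁻¹, h2⟩ = 1 := by
      apply hvinj
      rw [map_mul, map_one]
      show vB b * (vB b)⁻¹ = 1
      exact mul_inv_cancel₀ (hX _ hb)
    have h4 := congrArg φ h3
    rw [map_mul, h, zero_mul, map_one] at h4
    exact zero_ne_one h4
  have hTM : φ (DA.TR Bd ε cB PB aB e0 t0) ≠ 0 := by
    apply hinv
    rw [hTB]
    exact Finset.mem_union_right _ (Finset.mem_singleton_self T)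
  have hyM : ∀ i, gyD Bd ε PM i ≠ 0 := by
    intro i
    have h1 : gyD Bd ε PM i = φ (DA.yR Bd ε PB i) := (DA.map_yR Bd φ ε PB i).symm
    rw [h1]
    apply hinv
    have h2 : vB (DA.yR Bd ε PB i) = gyD Bd ε P i := DA.map_yR Bd vB ε PB i
    rw [h2]
    exact Finset.mem_union_left _ (Finset.mem_union_right _
      (Finset.mem_image_of_mem _ (Finset.mem_univ _)))
  let x : ι → LaurentSeries (AlgebraicClosure F) := fun i => E (PM i) / gyD Bd ε PM i
  have hxy : ∀ i, x i * gyD Bd ε PM i = E (PM i) := fun i => div_mul_cancel₀ _ (hyM i)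
  have hx0 : ∀ i, ∀ n < 0, (x i).coeff n = 0 := by
    intro i n hn
    by_cases h : ε i = true
    · have h1 : gyD Bd ε PM i = DA.ev (PM i) (Bd i) := if_pos h
      refine DA.order_div_neg (fun w => D' w) (map_zero D') E hEl hE (Bd i) (hBd i) (hdeg i) (PM i)
        ?_ (x i) ?_ n hn
      · rw [← h1]
        exact hyM i
      · rw [← h1]
        exact hxy i
    · have h1 : gyD Bd ε PM i = PM i := if_neg h
      refine NF.coeff_div_neg (fun w => D' w) (map_zero D') E hE (gyD Bd ε PM i) (hyM i) (x i) ?_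
        n hn
      rw [hxy, h1]
  have hEc : (fun α => E (cM α)) = bM := by
    funext α
    show E (φ (algebraMap F B (c α))) = φ (algebraMap F B (D (c α)))
    rw [hφC, hφC]
    ext n
    rw [hE, HahnSeries.C_apply, HahnSeries.C_apply]
    by_cases hn : n = 0
    · subst hn
      rw [HahnSeries.coeff_single_same, HahnSeries.coeff_single_same, hD']
    · rw [HahnSeries.coeff_single_of_ne hn, HahnSeries.coeff_single_of_ne hn, map_zero]
  have haM : ∀ l, φ (aB l) = ∑ i, x i * (gyD Bd ε PM i * gG cM PM l i) := by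
    intro l
    have h0 : NF.vR cM PM l = 0 := by
      have h1 : NF.vR cB PB l = 0 := by
        apply hvinj
        rw [NF.map_vR, map_zero]
        exact hroot l
      have h2 := congrArg φ h1
      rw [NF.map_vR, map_zero] at h2
      exact h2
    have h3 := NF.der_vR' E hEl cM PM l
    rw [h0, map_zero, hEc] at h3
    have h4 : φ (aB l) = - NF.vR bM PM l := by
      show φ (- NF.vR bB PB l) = _
      rw [map_neg, NF.map_vR]
    rw [h4, neg_eq_iff_add_eq_zero]
    rw [h3]
    congr 1
    refine Finset.sum_congr rfl fun i _ => ?_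
    rw [← hxy i]
    show _ = _ * _
    rw [show (gG cM PM l i) = NF.GR cM PM l i from rfl]
    ring
  have key := DA.gTD_expand Bd ε cM PM (fun l => φ (aB l)) e0 t0 x haM
  have k1 : gTD Bd ε cM PM (fun l => φ (aB l)) e0 t0 = φ (DA.TR Bd ε cB PB aB e0 t0) :=
    (DA.map_TR Bd φ ε cB PB aB e0 t0).symm
  have k2 : ∀ e, gDD Bd ε cM PM e = φ (zB e) * φ (DA.TR Bd ε cB PB aB e0 t0) := by
    intro e
    rw [← map_mul, ← hDz]
    exact (DA.map_DR Bd φ ε cB PB e).symm
  have k3 : ∑ i, x i * φ (zB (Function.update e0 t0 i)) = 1 := by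
    apply mul_right_cancel₀ hTM
    rw [one_mul, Finset.sum_mul]
    rw [k1] at key
    rw [key]
    refine Finset.sum_congr rfl fun i _ => ?_
    rw [k2, key, mul_assoc]
  have k4 : (∑ i, x i * φ (zB (Function.update e0 t0 i))).coeff 0 = 0 := by
    rw [HahnSeries.coeff_sum]
    exact Finset.sum_eq_zero fun i _ => NF.coeff_mul_zero _ _ (hx0 i) (hzc _)
  rw [k3, HahnSeries.coeff_one, if_pos rfl] at k4
  exact one_ne_zero k4

end

end Pool.Agent.PC
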