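import Pool.Agent.Lib.MP_c95b3b_ag_PC.DefsD
import Pool.Agent.Lib.MP_c95b3b_ag_PC.DA
import Pool.Agent.Lib.MP_c95b3b_ag_AL.NG
import Pool.Agent.Lib.MP_c95b3b_ag_AL.NH
import Pool.Agent.Lib.MP_c95b3b_ag_AL.NI

/-! Project PC (MP_c95b3b_ag), module DB: the certificates in the generic situation. -/

namespace Pool.Agent.PC

open Pool.Agent.L3 Pool.Agent.AL Module MvPolynomial

open NI in
theorem exists_certC {ι Λ : Type} [Fintype ι] [DecidableEq ι] [Fintype Λ] [DecidableEq Λ] {d : ℕ}
    {L : Type} [Field L] [CharZero L]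
    (Bd : ι → Polynomial ℤ) (hBd : ∀ i, ((Bd i).map (Int.castRingHom ℚ)).Separable)
    (hdeg : ∀ i, 1 ≤ (Bd i).natDegree) (c : Cf ι Λ d → L) (P : ι → L)
    (hP : AlgebraicIndependent ℚ P) (hroot : ∀ l, gv c P l = 0) (col : Λ → ι)
    (hdiag : ∀ l l', gG c P l (col l') ≠ 0 ↔ l = l') : ∃ Z : Cert ι Λ d, COk Bd Z c P := by
  classical
  obtain ⟨m, D, b, hb, hspan⟩ := der_basis c
  obtain ⟨E, hE⟩ := exists_dual P hP
  -- the columns are combinations of the `a k`
  have hcol : ∀ i, ∃ x : Fin m → L, ∀ l,
      gG c P l i = ∑ k, x k * ga (fun α => aeval c (b k α)) P l := by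
    intro i
    obtain ⟨x, hx⟩ := hspan (E i)
    refine ⟨x, fun l => ?_⟩
    have h1 := der_gv (E i) c P l
    rw [hroot l, map_zero] at h1
    have h2 : ∑ j, gG c P l j * (E i) (P j) = gG c P l i := by
      simp only [hE, mul_ite, mul_one, mul_zero]
      rw [Finset.sum_ite_eq]
      simp
    have h3 : (fun α => (E i) (c α)) = fun α => ∑ k, x k * aeval c (b k α) := by
      funext α
      have := hx ⟨c α, IntermediateField.subset_adjoin ℚ _ ⟨α, rfl⟩⟩
      rw [show ((⟨c α, IntermediateField.subset_adjoin ℚ _ ⟨α, rfl⟩⟩ :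
        IntermediateField.adjoin ℚ (Set.range c)) : L) = c α from rfl] at this
      rw [this]
      apply Finset.sum_congr rfl
      intro k _
      rw [hb k α]
    rw [h2, h3, gv_sum] at h1
    unfold ga
    simp only [mul_neg, Finset.sum_neg_distrib]
    linear_combination -h1
  have hP0 : ∀ i, P i ≠ 0 ∧ Polynomial.aeval (P i) (Bd i) ≠ 0 := by
    intro i
    have ht : Transcendental ℚ (P i) := hP.transcendental i
    constructor
    · intro h
      rw [h] at ht
      exact ht isAlgebraic_zero
    · intro h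
      refine ht ⟨(Bd i).map (Int.castRingHom ℚ), ?_, ?_⟩
      · rw [Ne, Polynomial.map_eq_zero_iff (RingHom.injective_int _)]
        intro h0
        have h1 := hdeg i
        rw [h0, Polynomial.natDegree_zero] at h1
        omega
      · rw [Polynomial.aeval_def, Polynomial.eval₂_map]
        have h2 : (algebraMap ℚ L).comp (Int.castRingHom ℚ) = algebraMap ℤ L :=
          RingHom.ext_int _ _
        rw [h2, ← Polynomial.aeval_def]
        exact h
  have hfull : ∀ ε, gDD Bd ε c P col ≠ 0 := by
    intro ε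
    unfold gDD
    have hmat : (Matrix.of fun l t => gyD Bd ε P (col t) * gG c P l (col t)) =
        Matrix.diagonal fun t => gyD Bd ε P (col t) * gG c P t (col t) := by
      ext l t
      by_cases h : l = t
      · subst h
        simp
      · rw [Matrix.diagonal_apply_ne _ h, Matrix.of_apply]
        have : gG c P l (col t) = 0 := by
          by_contra hne
          exact h ((hdiag l t).1 hne)
        rw [this, mul_zero]
    rw [hmat, Matrix.det_diagonal, Finset.prod_ne_zero_iff]
    intro t _
    apply mul_ne_zero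
    · unfold gyD gyC
      split_ifs
      · exact (hP0 _).2
      · exact (hP0 _).1
    · exact (hdiag t t).2 rfl
  -- the certificates
  let F : IntermediateField ℚ L := IntermediateField.adjoin ℚ (Set.range c)
  let c0 : Cf ι Λ d → F := fun α => ⟨c α, IntermediateField.subset_adjoin ℚ _ ⟨α, rfl⟩⟩
  let T : Fin m → (ι → Bool) → (Λ → ι) → Λ → L := fun k ε e t =>
    gTD Bd ε c P (ga (fun α => aeval c (b k α)) P) e t
  have hDb : ∀ k, (fun α => algebraMap F L (D k (c0 α))) = fun α => aeval c (b k α) := by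
    intro k
    funext α
    exact hb k α
  have hp : ∀ k ε e t, ∃ p : (Λ → ι) → MvPolynomial (Λ → ι) F, T k ε e t ≠ 0 →
      ∑ e', (gDD Bd ε c P e' / T k ε e t) *
        aeval (fun e' => gDD Bd ε c P e' / T k ε e t) (p e') = 1 := by
    intro k ε e t
    by_cases hT : T k ε e t = 0
    · exact ⟨0, fun h => absurd hT h⟩
    · have := lemmaNAC Bd hBd hdeg (D k) c0 P hP0 (fun l => hroot l) ε e t
        (by rw [hDb k]; exact hT) ⟨col, hfull ε⟩
      rw [hDb k] at this
      obtain ⟨p, hp⟩ := this
      exact ⟨p, fun _ => hp⟩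
  choose p hp using hp
  let N : ℕ := Finset.univ.sup fun q : Fin m × (ι → Bool) × (Λ → ι) × Λ × (Λ → ι) =>
    (p q.1 q.2.1 q.2.2.1 q.2.2.2.1 q.2.2.2.2).totalDegree
  have hN : ∀ k ε e t e', ∀ ν ∈ (p k ε e t e').support, ν.degree ≤ N := by
    intro k ε e t e' ν hν
    have h1 : ν.degree ≤ (p k ε e t e').totalDegree := by
      rw [Finsupp.degree_apply]
      exact le_totalDegree hν
    refine h1.trans ?_
    exact Finset.le_sup (f := fun q : Fin m × (ι → Bool) × (Λ → ι) × Λ × (Λ → ι) =>
      (p q.1 q.2.1 q.2.2.1 q.2.2.2.1 q.2.2.2.2).totalDegree) (Finset.mem_univ (k, ε, e, t, e'))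
  have hden : ∀ k ε e t, ∃ G : MvPolynomial (Cf ι Λ d) ℤ, aeval c G ≠ 0 ∧
      ∃ h : (Λ → ι) → ((Λ → ι) →₀ ℕ) → MvPolynomial (Cf ι Λ d) ℤ, ∀ e', ∀ ν ∈ (p k ε e t e').support,
        aeval c G * ((coeff ν (p k ε e t e') : F) : L) = aeval c (h e' ν) := by
    intro k ε e t
    obtain ⟨G, hG, hs⟩ := exists_common (B := (Λ → ι) × ((Λ → ι) →₀ ℕ)) c
      (Finset.univ.biUnion fun e' : Λ → ι => (p k ε e t e').support.image fun ν => (e', ν))
      (fun q => ((coeff q.2 (p k ε e t q.1) : F) : L)) (fun q _ => (coeff q.2 (p k ε e t q.1)).2)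
    have : ∀ q : (Λ → ι) × ((Λ → ι) →₀ ℕ), ∃ h : MvPolynomial (Cf ι Λ d) ℤ,
        q ∈ (Finset.univ.biUnion fun e' : Λ → ι => (p k ε e t e').support.image fun ν => (e', ν)) →
        aeval c G * ((coeff q.2 (p k ε e t q.1) : F) : L) = aeval c h := by
      intro q
      by_cases hq : q ∈
        (Finset.univ.biUnion fun e' : Λ → ι => (p k ε e t e').support.image fun ν => (e', ν))
      · obtain ⟨h, hh⟩ := hs q hq
        exact ⟨h, fun _ => hh⟩
      · exact ⟨0, fun h => absurd h hq⟩
    choose h hh using this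
    refine ⟨G, hG, fun e' ν => h (e', ν), fun e' ν hν => hh (e', ν) ?_⟩
    rw [Finset.mem_biUnion]
    exact ⟨e', Finset.mem_univ _, Finset.mem_image.2 ⟨ν, hν, rfl⟩⟩
  choose G hG h hh using hden
  refine ⟨⟨m, b, G, N, fun k ε e t e' => hom N (p k ε e t e').support (h k ε e t e'),
    fun k ε e t e' => hom_isHomogeneous N _ _ (hN k ε e t e')⟩, ?_, fun ε => ⟨col, hfull ε⟩,
    fun k ε e t => hG k ε e t, ?_⟩
  · -- span
    intro v
    choose x hx using hcol
    refine ⟨fun k => ∑ l', v l' / gG c P l' (col l') * x (col l') k, fun l => ?_⟩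
    simp only [Finset.sum_mul]
    rw [Finset.sum_comm]
    have h1 : ∀ l', ∑ k, v l' / gG c P l' (col l') * x (col l') k *
        ga (fun α => aeval c (b k α)) P l = v l' / gG c P l' (col l') * gG c P l (col l') := by
      intro l'
      rw [hx (col l') l, Finset.mul_sum]
      apply Finset.sum_congr rfl
      intro k _
      ring
    rw [Finset.sum_congr rfl fun l' _ => h1 l', Finset.sum_eq_single l]
    · rw [div_mul_cancel₀]
      exact (hdiag l l).2 rfl
    · intro l' _ hne
      have : gG c P l (col l') = 0 := by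
        by_contra hc
        exact hne ((hdiag l l').1 hc).symm
      rw [this, mul_zero]
    · intro hl
      exact absurd (Finset.mem_univ l) hl
  · intro k ε e t hT
    have hT' : T k ε e t ≠ 0 := hT
    have key := hp k ε e t hT'
    have hq : ∀ e', gQ c (T k ε e t) (gDD Bd ε c P) (hom N (p k ε e t e').support (h k ε e t e')) =
        aeval c (G k ε e t) * T k ε e t ^ N *
          aeval (fun e' => gDD Bd ε c P e' / T k ε e t) (p k ε e t e') := by
      intro e'
      have hsup : ((map (algebraMap F L) (p k ε e t e')).support) = (p k ε e t e').support :=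
        support_map_of_injective _ (algebraMap F L).injective
      have := gQ_hom c N (map (algebraMap F L) (p k ε e t e')) (h k ε e t e') (G k ε e t)
        (by
          intro ν hν
          rw [hsup] at hν
          rw [coeff_map]
          exact hh k ε e t e' ν hν)
        (by
          intro ν hν
          rw [hsup] at hν
          exact hN k ε e t e' ν hν) (T k ε e t) hT' (gDD Bd ε c P)
      rw [hsup] at this
      rw [this]
      congr 1
      rw [aeval_map_algebraMap]
    show aeval c (G k ε e t) * T k ε e t ^ (N + 1) = ∑ e', gDD Bd ε c P e' *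
      gQ c (T k ε e t) (gDD Bd ε c P) (hom N (p k ε e t e').support (h k ε e t e'))
    calc aeval c (G k ε e t) * T k ε e t ^ (N + 1)
        = aeval c (G k ε e t) * T k ε e t ^ (N + 1) * ∑ e', (gDD Bd ε c P e' / T k ε e t) *
          aeval (fun e' => gDD Bd ε c P e' / T k ε e t) (p k ε e t e') := by rw [key, mul_one]
      _ = _ := by
        rw [Finset.mul_sum]
        apply Finset.sum_congr rfl
        intro e' _
        rw [hq e', pow_succ]
        field_simp

end Pool.Agent.PC
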