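import Pool.Agent.Lib.MP_c95b3b_ag_PC.DefsD
import Pool.Agent.Lib.MP_c95b3b_ag_AL.NJ

/-! Project PC (MP_c95b3b_ag), module DC: transfer. -/

namespace Pool.Agent.PC

open Pool.Agent.L3 Pool.Agent.AL Module MvPolynomial

namespace DC

section universal

variable {ι Λ : Type} [Fintype ι] [DecidableEq ι] [Fintype Λ] [DecidableEq Λ] {d : ℕ}

/-- the chosen one of `Bd i (P i)` and `P i` in the universal ring -/
noncomputable def ugy (Bd : ι → Polynomial ℤ) (ε : ι → Bool) (i : ι) : NJ.UR ι Λ d :=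
  if ε i then Polynomial.aeval (NJ.up i : NJ.UR ι Λ d) (Bd i) else NJ.up i

theorem ev_ugy {K : Type} [Field K] (Bd : ι → Polynomial ℤ) (c : Cf ι Λ d → K) (P : ι → K)
    (ε : ι → Bool) (i : ι) : NJ.ev c P (ugy Bd ε i) = gyD Bd ε P i := by
  unfold ugy gyD gyC
  by_cases h : ε i
  · simp only [h, if_true]
    rw [← Polynomial.aeval_algHom_apply, NJ.ev_up]
  · simp [h, NJ.ev_up]

noncomputable def ugD (Bd : ι → Polynomial ℤ) (ε : ι → Bool) (e : Λ → ι) : NJ.UR ι Λ d :=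
  (Matrix.of fun l t => ugy Bd ε (e t) * NJ.ugG l (e t)).det

theorem ev_ugD {K : Type} [Field K] (Bd : ι → Polynomial ℤ) (c : Cf ι Λ d → K) (P : ι → K)
    (ε : ι → Bool) (e : Λ → ι) : NJ.ev c P (ugD Bd ε e) = gDD Bd ε c P e := by
  unfold ugD gDD
  rw [AlgHom.map_det]
  congr 1
  ext l t
  simp only [AlgHom.mapMatrix_apply, Matrix.map_apply, Matrix.of_apply, map_mul, ev_ugy,
    NJ.ev_ugG]

noncomputable def ugT (Bd : ι → Polynomial ℤ) (ε : ι → Bool) (a : Λ → NJ.UR ι Λ d) (e : Λ → ι)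
    (t : Λ) : NJ.UR ι Λ d :=
  ((Matrix.of fun l t => ugy Bd ε (e t) * NJ.ugG l (e t)).updateCol t a).det

theorem ev_ugT {K : Type} [Field K] (Bd : ι → Polynomial ℤ) (c : Cf ι Λ d → K) (P : ι → K)
    (ε : ι → Bool) (a : Λ → NJ.UR ι Λ d) (e : Λ → ι) (t : Λ) :
    NJ.ev c P (ugT Bd ε a e t) = gTD Bd ε c P (fun l => NJ.ev c P (a l)) e t := by
  unfold ugT gTD
  rw [AlgHom.map_det]
  congr 1
  ext l s
  simp only [AlgHom.mapMatrix_apply, Matrix.map_apply, Matrix.updateCol_apply, Matrix.of_apply]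
  by_cases h : s = t
  · simp [h]
  · simp [h, ev_ugy, NJ.ev_ugG]

end universal

end DC

theorem transfer_certC {ι Λ : Type} [Fintype ι] [DecidableEq ι] [Fintype Λ] [DecidableEq Λ]
    {d : ℕ} (Bd : ι → Polynomial ℤ)
    (𝒰 : Ultrafilter ℕ) (K : ℕ → Type) [∀ n, Field (K n)] (e : ∀ n, K n →+* ℂ)
    (P : ∀ n, ι → K n) (c : ∀ n, Cf ι Λ d → K n) (Z : Cert ι Λ d)
    (h : COk Bd Z (fun α => gm 𝒰 fun n => e n (c n α)) (fun i => gm 𝒰 fun n => e n (P n i))) :
    ∀ᶠ n in (𝒰 : Filter ℕ), COk Bd Z (c n) (P n) := by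
  classical
  -- span
  obtain ⟨ks, hks⟩ := NJ.exists_det _ h.span
  have hdet : ∀ {F : Type} [Field F] (c' : Cf ι Λ d → F) (P' : ι → F),
      (Matrix.of fun t l => ga (fun α => aeval c' (Z.b (ks t) α)) P' l).det =
        NJ.ev c' P' (Matrix.of fun t l => NJ.uga (Z.b (ks t)) l).det := by
    intro F _ c' P'
    rw [AlgHom.map_det]
    congr 1
    ext t l
    simp only [AlgHom.mapMatrix_apply, Matrix.map_apply, Matrix.of_apply, NJ.ev_uga]
  have h1 : ∀ᶠ n in (𝒰 : Filter ℕ), (Matrix.of fun t l =>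
      ga (fun α => aeval (c n) (Z.b (ks t) α)) (P n) l).det ≠ 0 := by
    rw [hdet] at hks
    filter_upwards [NJ.transfer_ne 𝒰 K e P c _ hks] with n hn
    rw [hdet]
    exact hn
  -- full
  have h2 : ∀ᶠ n in (𝒰 : Filter ℕ), ∀ ε, ∃ e, gDD Bd ε (c n) (P n) e ≠ 0 := by
    rw [Filter.eventually_all]
    intro ε
    obtain ⟨e', he'⟩ := h.full ε
    rw [← DC.ev_ugD] at he'
    filter_upwards [NJ.transfer_ne 𝒰 K e P c _ he'] with n hn
    refine ⟨e', ?_⟩
    rw [← DC.ev_ugD]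
    exact hn
  -- ne
  have h3 : ∀ᶠ n in (𝒰 : Filter ℕ), ∀ k ε e t, aeval (c n) (Z.E k ε e t) ≠ 0 := by
    rw [Filter.eventually_all]
    intro k
    rw [Filter.eventually_all]
    intro ε
    rw [Filter.eventually_all]
    intro e'
    rw [Filter.eventually_all]
    intro t
    have h4 := h.ne k ε e' t
    rw [← NJ.ev_inc _ (fun i => gm 𝒰 fun n => e n (P n i))] at h4
    filter_upwards [NJ.transfer_ne 𝒰 K e P c _ h4] with n hn
    rw [← NJ.ev_inc _ (P n)]
    exact hn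
  -- cert
  have h5 : ∀ᶠ n in (𝒰 : Filter ℕ), ∀ k ε e t,
      gTD Bd ε (c n) (P n) (ga (fun α => aeval (c n) (Z.b k α)) (P n)) e t ≠ 0 →
      aeval (c n) (Z.E k ε e t) *
        gTD Bd ε (c n) (P n) (ga (fun α => aeval (c n) (Z.b k α)) (P n)) e t ^ (Z.N + 1) =
      ∑ e', gDD Bd ε (c n) (P n) e' *
        gQ (c n) (gTD Bd ε (c n) (P n) (ga (fun α => aeval (c n) (Z.b k α)) (P n)) e t)
        (gDD Bd ε (c n) (P n)) (Z.Q k ε e t e') := by
    rw [Filter.eventually_all]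
    intro k
    rw [Filter.eventually_all]
    intro ε
    rw [Filter.eventually_all]
    intro e'
    rw [Filter.eventually_all]
    intro t
    have hT : ∀ {F : Type} [Field F] (c' : Cf ι Λ d → F) (P' : ι → F),
        gTD Bd ε c' P' (ga (fun α => aeval c' (Z.b k α)) P') e' t =
          NJ.ev c' P' (DC.ugT Bd ε (NJ.uga (Z.b k)) e' t) := by
      intro F _ c' P'
      rw [DC.ev_ugT]
      congr 1
      funext l
      rw [NJ.ev_uga]
    have hS : ∀ {F : Type} [Field F] (c' : Cf ι Λ d → F) (P' : ι → F),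
        aeval c' (Z.E k ε e' t) *
          gTD Bd ε c' P' (ga (fun α => aeval c' (Z.b k α)) P') e' t ^ (Z.N + 1) -
        ∑ e'', gDD Bd ε c' P' e'' *
          gQ c' (gTD Bd ε c' P' (ga (fun α => aeval c' (Z.b k α)) P') e' t)
          (gDD Bd ε c' P') (Z.Q k ε e' t e'') =
          NJ.ev c' P' (NJ.inc (Z.E k ε e' t) * DC.ugT Bd ε (NJ.uga (Z.b k)) e' t ^ (Z.N + 1) -
            ∑ e'', DC.ugD Bd ε e'' * NJ.ugQ (DC.ugT Bd ε (NJ.uga (Z.b k)) e' t) (DC.ugD Bd ε)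
              (Z.Q k ε e' t e'')) := by
      intro F _ c' P'
      simp only [map_sub, map_mul, map_pow, map_sum, NJ.ev_inc, NJ.ev_ugQ, DC.ev_ugD, hT]
    by_cases h6 : gTD Bd ε (fun α => gm 𝒰 fun n => e n (c n α)) (fun i => gm 𝒰 fun n => e n (P n i))
        (ga (fun α => aeval (fun α => gm 𝒰 fun n => e n (c n α)) (Z.b k α))
          (fun i => gm 𝒰 fun n => e n (P n i))) e' t = 0
    · rw [hT] at h6
      filter_upwards [(NJ.transfer_ev 𝒰 K e P c _).1 h6] with n hn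
      intro h7
      rw [hT] at h7
      exact absurd hn h7
    · have h7 := h.cert k ε e' t h6
      rw [← sub_eq_zero, hS] at h7
      filter_upwards [(NJ.transfer_ev 𝒰 K e P c _).1 h7] with n hn
      intro _
      rw [← sub_eq_zero, hS]
      exact hn
  filter_upwards [h1, h2, h3, h5] with n a1 a2 a3 a4
  exact ⟨fun v => NJ.span_of_det _ ks a1 v, a2, a3, a4⟩

end Pool.Agent.PC
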