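import Pool.Agent.Lib.MP_c95b3b_ag_PC.DefsD
import Pool.Agent.Lib.MP_c95b3b_ag_AL.NK
import Pool.Agent.Lib.MP_c95b3b_ag_AL.NL

/-! Project PC (MP_c95b3b_ag), module DD: the size of the lifts. -/

namespace Pool.Agent.PC

open Pool.Agent.L3 Pool.Agent.AL Module MvPolynomial

namespace DD

section
variable {ι Λ : Type} [Fintype ι] [DecidableEq ι] [Fintype Λ] [DecidableEq Λ] {d : ℕ}
variable {K : Type} [Field K] {S : Subring K} {P : Places K S}

/-- the key estimate: the quotient of the maxima -/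
theorem key_bound (Z : Cert ι Λ d) (k : Fin Z.m) (cz : Cf ι Λ d → ℤ) (DD : (Λ → ι) → K)
    (ε : ι → Bool) (e1 : Λ → ι) (t1 : Λ) (w : P.Pl) {Ds Ts : ℝ} (hD : 0 < Ds) (hDT : Ds ≤ Ts)
    (hE : aeval cz (Z.E k ε e1 t1) ≠ (0 : ℤ))
    (hDs : ∀ e, absP w (DD e) ≤ Ds)
    (T : K) (hT : absP w T = Ts)
    (hc : aeval (fun a => (cz a : K)) (Z.E k ε e1 t1) * T ^ (Z.N + 1) =
      ∑ e', DD e' *
        gQ (fun a => (cz a : K)) T DD (Z.Q k ε e1 t1 e')) :
    Ts / Ds ≤ Real.exp (NL.sg P Z k cz (ε, e1, t1) w) := by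
  have hTs : 0 < Ts := hD.trans_le hDT
  have hch := P.charZero
  have hDs' : ∀ e, absP w (DD e) ≤ Ts := fun e => (hDs e).trans hDT
  have h1 := congrArg (absP w) hc
  rw [NL.absP_mul, NL.absP_pow, hT, NL.aeval_cast] at h1
  rw [div_le_iff₀ hD]
  rcases w with i | j
  · rw [NL.absP_int_inl] at h1
    have hE1 : (1 : ℝ) ≤ |((aeval cz (Z.E k ε e1 t1) : ℤ) : ℝ)| := by
      have := Int.one_le_abs hE
      exact_mod_cast this
    have h2 : |((aeval cz (Z.E k ε e1 t1) : ℤ) : ℝ)| * Ts ^ (Z.N + 1) ≤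
        NL.co Z k (ε, e1, t1) cz * (Ds * Ts ^ Z.N) := by
      rw [h1]
      refine (NL.absP_sum_inl_le i _ _).trans ?_
      unfold NL.co
      rw [Finset.sum_mul]
      refine Finset.sum_le_sum fun e' _ => ?_
      rw [NL.absP_mul]
      have h3 := NL.gQ_bound_inl cz T DD Z.N (Z.Q k ε e1 t1 e')
        (Z.hom k ε e1 t1 e') i hT.le hDs'
      calc _ ≤ Ds * ((∑ ν ∈ (Z.Q k ε e1 t1 e').support,
            |((aeval cz (coeff ν (Z.Q k ε e1 t1 e')) : ℤ) : ℝ)|) * Ts ^ Z.N) :=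
            mul_le_mul (hDs e') h3 (NL.absP_nonneg _ _) hD.le
        _ = _ := by ring
    have h4 : Ts ^ (Z.N + 1) ≤ NL.co Z k (ε, e1, t1) cz * (Ds * Ts ^ Z.N) :=
      le_trans (by nlinarith [pow_pos hTs (Z.N + 1)]) h2
    have h5 : 0 < Ts ^ Z.N := pow_pos hTs _
    have h6 : Ts ≤ NL.co Z k (ε, e1, t1) cz * Ds := by
      have : Ts * Ts ^ Z.N ≤ (NL.co Z k (ε, e1, t1) cz * Ds) * Ts ^ Z.N := by
        calc Ts * Ts ^ Z.N = Ts ^ (Z.N + 1) := by ring
          _ ≤ _ := h4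
          _ = _ := by ring
      exact le_of_mul_le_mul_right this h5
    have h7 := NL.co_nonneg Z k (ε, e1, t1) cz
    simp only [NL.sg, Sum.elim_inl]
    rw [Real.exp_log (by linarith)]
    nlinarith
  · have hv : 0 < P.v j (((aeval cz (Z.E k ε e1 t1) : ℤ)) : K) := PL2.v_int_pos P j hE
    have h2 : P.v j (((aeval cz (Z.E k ε e1 t1) : ℤ)) : K) * Ts ^ (Z.N + 1) ≤ Ds * Ts ^ Z.N := by
      have h1' : P.v j (((aeval cz (Z.E k ε e1 t1) : ℤ)) : K) * Ts ^ (Z.N + 1) = _ := h1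
      rw [h1']
      refine P.v_sum_le j _ _ (by positivity) fun e' _ => ?_
      rw [map_mul]
      exact mul_le_mul (hDs e') (NL.gQ_bound_inr cz T DD Z.N
        (Z.Q k ε e1 t1 e') (Z.hom k ε e1 t1 e') j hTs.le hT.le hDs') ((P.v j).nonneg _) hD.le
    have h5 : 0 < Ts ^ Z.N := pow_pos hTs _
    have h6 : P.v j (((aeval cz (Z.E k ε e1 t1) : ℤ)) : K) * Ts ≤ Ds := by
      have : (P.v j (((aeval cz (Z.E k ε e1 t1) : ℤ)) : K) * Ts) * Ts ^ Z.N ≤ Ds * Ts ^ Z.N := by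
        calc _ = P.v j (((aeval cz (Z.E k ε e1 t1) : ℤ)) : K) * Ts ^ (Z.N + 1) := by ring
          _ ≤ _ := h2
      exact le_of_mul_le_mul_right this h5
    simp only [NL.sg, Sum.elim_inr]
    rw [Real.exp_neg, Real.exp_log hv, inv_mul_eq_div, le_div_iff₀ hv]
    linarith

end

end DD

theorem lift_boundC {ι Λ : Type} [Fintype ι] [DecidableEq ι] [Fintype Λ] [DecidableEq Λ] {d : ℕ}
    (Bd : ι → Polynomial ℤ) (Z : Cert ι Λ d) : ∃ A : ℝ, 0 ≤ A ∧
    ∀ (K : Type) [Field K] (S : Subring K) (P : Places K S) (U : ι → K) (cz : Cf ι Λ d → ℤ)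
      (h : ℝ), 0 ≤ h → (∀ α, Real.log |(cz α : ℝ)| ≤ h) →
      (∀ i, U i ≠ 0 ∧ Polynomial.aeval (U i) (Bd i) ≠ 0) →
      COk Bd Z (fun α => (cz α : K)) U → ∀ k, ∃ σ : P.Pl → ℝ, (∀ w, 0 ≤ σ w) ∧
        P.avg σ ≤ A * (1 + h) ∧ ∀ w, ∃ η : ι → K,
          (∀ l, ∑ i, gG (fun α => (cz α : K)) U l i * η i =
            ga (fun α => aeval (fun α => (cz α : K)) (Z.b k α)) U l) ∧
          ∀ i, absP w (η i) ≤ Real.exp (σ w) * rad (Bd i) w (U i) := by
  choose C1 hC1 h1 using fun p : Fin Z.m × ((ι → Bool) × (Λ → ι) × Λ) =>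
    (NL.gr_co Z p.1 p.2).log_one_add (NL.co_nonneg Z p.1 p.2)
  choose C2 hC2 h2 using fun p : Fin Z.m × ((ι → Bool) × (Λ → ι) × Λ) =>
    NL.gr_aeval (Z.E p.1 p.2.1 p.2.2.1 p.2.2.2)
  refine ⟨∑ p, (C1 p + C2 p), Finset.sum_nonneg fun p _ => add_nonneg (hC1 p) (hC2 p), ?_⟩
  intro K _ S P U cz h hh hcz hU hOk k
  have hch := P.charZero
  have hE : ∀ ε e t, aeval cz (Z.E k ε e t) ≠ (0 : ℤ) := by
    intro ε e t h0
    have h3 := hOk.ne k ε e t
    rw [NL.aeval_cast, h0] at h3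
    exact h3 Int.cast_zero
  refine ⟨fun w => ∑ x, NL.sg P Z k cz x w, fun w => Finset.sum_nonneg fun x _ =>
    NL.sg_nonneg Z k cz x w, ?_, ?_⟩
  · rw [P.avg_sum]
    have h3 : ∀ x : (ι → Bool) × (Λ → ι) × Λ,
        P.avg (NL.sg P Z k cz x) ≤ (C1 (k, x) + C2 (k, x)) * (1 + h) := by
      intro x
      have e1 := NL.avg_sg_le (P := P) Z k cz x (hE x.1 x.2.1 x.2.2)
      have e2 := h1 (k, x) cz h hh hcz
      have e3 : |((aeval cz (Z.E k x.1 x.2.1 x.2.2) : ℤ) : ℝ)| ≤ Real.exp (C2 (k, x) * (1 + h)) :=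
        h2 (k, x) cz h hh hcz
      have e4 : 0 < |((aeval cz (Z.E k x.1 x.2.1 x.2.2) : ℤ) : ℝ)| :=
        abs_pos.2 (Int.cast_ne_zero.2 (hE x.1 x.2.1 x.2.2))
      rw [← Real.log_le_iff_le_exp e4] at e3
      simp only at e2
      linarith
    calc ∑ x, P.avg (fun w => NL.sg P Z k cz x w)
        ≤ ∑ x, (C1 (k, x) + C2 (k, x)) * (1 + h) := Finset.sum_le_sum fun x _ => h3 x
      _ = (∑ x, (C1 (k, x) + C2 (k, x))) * (1 + h) := by rw [Finset.sum_mul]
      _ ≤ (∑ p, (C1 p + C2 p)) * (1 + h) := by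
          refine mul_le_mul_of_nonneg_right ?_ (by linarith)
          rw [Fintype.sum_prod_type
            (fun p : Fin Z.m × ((ι → Bool) × (Λ → ι) × Λ) => C1 p + C2 p)]
          exact Finset.single_le_sum (f := fun k' => ∑ x, (C1 (k', x) + C2 (k', x)))
            (fun k' _ => Finset.sum_nonneg fun x _ => add_nonneg (hC1 _) (hC2 _))
            (Finset.mem_univ k)
  · intro w
    classical
    set c : Cf ι Λ d → K := fun α => (cz α : K) with hc
    set a : Λ → K := ga (fun α => aeval c (Z.b k α)) U with ha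
    set ε : ι → Bool := fun i => decide
      (absP w (Polynomial.aeval (U i) (Bd i)) ≤ absP w (U i)) with hε
    have hgy : ∀ i, absP w (gyD Bd ε U i) = rad (Bd i) w (U i) := by
      intro i
      by_cases hi : absP w (Polynomial.aeval (U i) (Bd i)) ≤ absP w (U i)
      · simp only [gyD, gyC, rad, hε, hi, decide_true, if_true, min_eq_left]
      · simp only [gyD, gyC, rad, hε, hi, decide_false, Bool.false_eq_true, if_false]
        rw [min_eq_right (not_le.1 hi).le]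
    obtain ⟨e0, he0⟩ := hOk.full ε
    have : Nonempty (Λ → ι) := ⟨e0⟩
    obtain ⟨e, he⟩ := Finite.exists_max fun e : Λ → ι => absP w (gDD Bd ε c U e)
    have hD : 0 < absP w (gDD Bd ε c U e) := (NL.absP_pos w he0).trans_le (he e0)
    have hD0 : gDD Bd ε c U e ≠ 0 := by
      intro h0
      rw [h0, NL.absP_zero] at hD
      exact lt_irrefl _ hD
    obtain ⟨x, hx1, hx2⟩ := cramer_max (fun i l => gyD Bd ε U i * gG c U l i) a e hD0
    refine ⟨fun i => x i * gyD Bd ε U i, fun l => ?_, fun i => ?_⟩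
    · rw [← hx1 l]
      refine Finset.sum_congr rfl fun i _ => ?_
      ring
    · rw [NL.absP_mul, hgy]
      refine mul_le_mul_of_nonneg_right ?_ (le_min (NL.absP_nonneg w _) (NL.absP_nonneg w _))
      rcases hx2 i with h0 | ⟨t, ht⟩
      · rw [h0, NL.absP_zero]
        exact (Real.exp_pos _).le
      · have ht' : x i = gTD Bd ε c U a e t / gDD Bd ε c U e := ht
        rw [ht', NL.absP_div w _ hD0]
        rcases le_or_gt (absP w (gTD Bd ε c U a e t)) (absP w (gDD Bd ε c U e)) with hle | hlt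
        · refine ((div_le_one hD).2 hle).trans (Real.one_le_exp ?_)
          exact Finset.sum_nonneg fun x _ => NL.sg_nonneg Z k cz x w
        · have : Nonempty ((Λ → ι) × Λ) := ⟨(e, t)⟩
          obtain ⟨⟨e1, t1⟩, h3⟩ := Finite.exists_max fun p : (Λ → ι) × Λ =>
            absP w (gTD Bd ε c U a p.1 p.2)
          have h4 : absP w (gTD Bd ε c U a e t) ≤ absP w (gTD Bd ε c U a e1 t1) := h3 (e, t)
          have h5 : gTD Bd ε c U a e1 t1 ≠ 0 := by
            intro h0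
            rw [h0, NL.absP_zero] at h4
            have := hD.trans hlt
            linarith
          have h6 := DD.key_bound Z k cz (gDD Bd ε c U) ε e1 t1 w hD (hlt.le.trans h4)
            (hE ε e1 t1) he (gTD Bd ε c U a e1 t1) rfl (hOk.cert k ε e1 t1 h5)
          refine (div_le_div_of_nonneg_right h4 hD.le).trans (h6.trans (Real.exp_le_exp.2 ?_))
          exact Finset.single_le_sum (f := fun x => NL.sg P Z k cz x w)
            (fun x _ => NL.sg_nonneg Z k cz x w) (Finset.mem_univ (ε, e1, t1))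

end Pool.Agent.PC
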