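import Pool.Agent.Lib.MP_c95b3b_ag_PC.DefsD
import Pool.Agent.Lib.MP_c95b3b_ag_PC.DB
import Pool.Agent.Lib.MP_c95b3b_ag_PC.DC
import Pool.Agent.Lib.MP_c95b3b_ag_PC.DD
import Pool.Agent.Lib.MP_c95b3b_ag_AL.NM

/-! Project PC (MP_c95b3b_ag), module DE: deformation vectors. -/

namespace Pool.Agent.PC

open Pool.Agent.L3 Pool.Agent.AL Module MvPolynomial

namespace DE

theorem aeval_one_var {ι : Type} {K : Type} [Field K] (U : ι → K) (i : ι) (B : Polynomial ℤ) :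
    aeval U (Polynomial.aeval (X i : MvPolynomial ι ℤ) B) = Polynomial.aeval (U i) B := by
  rw [← Polynomial.aeval_algHom_apply (aeval U : MvPolynomial ι ℤ →ₐ[ℤ] K) (X i) B, aeval_X]

theorem one_var_ne {ι : Type} (i : ι) (B : Polynomial ℤ) (hB : B ≠ 0) :
    (Polynomial.aeval (X i : MvPolynomial ι ℤ) B) ≠ 0 := by
  intro h
  exact hB (transcendental_iff.1 (MvPolynomial.transcendental_X ℤ i) B h)

end DE

theorem defoC {ι Λ : Type} [Fintype ι] [DecidableEq ι] [Fintype Λ] [DecidableEq Λ] (col : Λ → ι)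
    (Bd : ι → Polynomial ℤ) (hBd : ∀ i, ((Bd i).map (Int.castRingHom ℚ)).Separable)
    (hdeg : ∀ i, 1 ≤ (Bd i).natDegree)
    (𝒰 : Ultrafilter ℕ) (K : ℕ → Type) [∀ n, Field (K n)] (e : ∀ n, K n →+* ℂ)
    (U : ∀ n, ι → K n)
    (hgen : ∀ Q : MvPolynomial ι ℤ, Q ≠ 0 → ∀ᶠ n in (𝒰 : Filter ℕ), aeval (U n) Q ≠ 0) (d : ℕ)
    (g : ∀ _ : ℕ, Λ → MvPolynomial ι ℤ)
    (hd : ∀ᶠ n in (𝒰 : Filter ℕ), ∀ l i, (g n l).degreeOf i ≤ d)
    (hroot : ∀ᶠ n in (𝒰 : Filter ℕ), ∀ l, aeval (U n) (g n l) = 0)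
    (hdiag : ∀ᶠ n in (𝒰 : Filter ℕ), ∀ l l', aeval (U n) (pderiv (col l') (g n l)) ≠ 0 ↔ l = l') :
    ∃ (m : ℕ) (A : ℝ), 0 ≤ A ∧ ∀ᶠ n in (𝒰 : Filter ℕ), ∃ a : Fin m → Λ → K n,
      (∀ k l, a k l ∈ Subring.closure (Set.range (U n))) ∧
      (∀ v : Λ → K n, ∃ x : Fin m → K n, ∀ l, v l = ∑ k, x k * a k l) ∧
      ∀ (S : Subring (K n)) (P : Places (K n) S) (h : ℝ), 0 ≤ h →
        (∀ l, Real.log (l1 (g n l)) ≤ h) → ∀ k, ∃ σ : P.Pl → ℝ,
          (∀ w, 0 ≤ σ w) ∧ P.avg σ ≤ A * (1 + h) ∧ ∀ w, ∃ η : ι → K n,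
            (∀ l, ∑ i, aeval (U n) (pderiv i (g n l)) * η i = a k l) ∧
            ∀ i, absP w (η i) ≤ Real.exp (σ w) * rad (Bd i) w (U n i) := by
  have : CharZero (Filter.Germ (𝒰 : Filter ℕ) ℂ) := NM.germ_charZero 𝒰
  have hP := NM.algInd 𝒰 K e U hgen
  have hroot' : ∀ l, gv (fun α => gm 𝒰 fun n => e n (NM.cz d (g n) α : K n))
      (fun i => gm 𝒰 fun n => e n (U n i)) l = 0 := by
    intro l
    rw [NM.gv_gm, NM.gm_eq_zero]
    filter_upwards [hd, hroot] with n h1 h2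
    rw [← NM.aeval_eq (g n) h1 (U n) l, h2 l, map_zero]
  have hdiag' : ∀ l l', gG (fun α => gm 𝒰 fun n => e n (NM.cz d (g n) α : K n))
      (fun i => gm 𝒰 fun n => e n (U n i)) l (col l') ≠ 0 ↔ l = l' := by
    intro l l'
    rw [NM.gG_gm, ne_eq, NM.gm_eq_zero]
    constructor
    · intro h
      by_contra hne
      refine h ?_
      filter_upwards [hd, hdiag] with n h1 h2
      rw [← NM.aeval_pderiv_eq (g n) h1 (U n) l (col l')]
      have h3 := (h2 l l').not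
      rw [not_not] at h3
      rw [h3.2 hne, map_zero]
    · intro h hz
      obtain ⟨n, h1, h2, h3⟩ := (hd.and (hdiag.and hz)).exists
      rw [← NM.aeval_pderiv_eq (g n) h1 (U n) l (col l')] at h3
      exact (h2 l l').2 h ((map_eq_zero (e n)).1 h3)
  have hU1 : ∀ᶠ n in (𝒰 : Filter ℕ), ∀ i, U n i ≠ 0 := by
    rw [Filter.eventually_all]
    intro i
    filter_upwards [hgen (X i) (X_ne_zero i)] with n hn
    rwa [aeval_X] at hn
  have hU2 : ∀ᶠ n in (𝒰 : Filter ℕ), ∀ i, Polynomial.aeval (U n i) (Bd i) ≠ 0 := by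
    rw [Filter.eventually_all]
    intro i
    have hB : Bd i ≠ 0 := by
      intro h0
      have := hdeg i
      rw [h0, Polynomial.natDegree_zero] at this
      omega
    filter_upwards [hgen _ (DE.one_var_ne i (Bd i) hB)] with n hn
    rwa [DE.aeval_one_var] at hn
  obtain ⟨Z, hZ⟩ := exists_certC Bd hBd hdeg _ _ hP hroot' col hdiag'
  have hZ' := transfer_certC Bd 𝒰 K e U (fun n α => (NM.cz d (g n) α : K n)) Z hZ
  obtain ⟨A, hA, hb⟩ := lift_boundC Bd Z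
  refine ⟨Z.m, A, hA, ?_⟩
  filter_upwards [hd, hZ', hU1, hU2] with n h1 h2 hu1 hu2
  refine ⟨fun k l => ga (fun α => aeval (fun α => (NM.cz d (g n) α : K n)) (Z.b k α)) (U n) l,
    fun k l => NM.mem_closure _ _ _ _, h2.span, ?_⟩
  intro S P h h0 hl k
  obtain ⟨σ, s1, s2, s3⟩ := hb (K n) S P (U n) (NM.cz d (g n)) h h0 (NM.log_cz h0 hl)
    (fun i => ⟨hu1 i, hu2 i⟩) h2 k
  refine ⟨σ, s1, s2, fun w => ?_⟩
  obtain ⟨η, t1, t2⟩ := s3 w
  refine ⟨η, fun l => ?_, t2⟩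
  refine Eq.trans ?_ (t1 l)
  exact Finset.sum_congr rfl fun i _ => by rw [NM.aeval_pderiv_eq (g n) h1 (U n) l i]

end Pool.Agent.PC
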