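import Pool.Agent.Lib.MP_c95b3b_ag_PC.Defs
import Pool.Agent.Lib.MP_c95b3b_ag_AL.DefsN

/-! Project PC: definitions for the deformation vectors. -/

namespace Pool.Agent.PC

open Pool.Agent.L3 Pool.Agent.AL Module MvPolynomial

section
variable {ι Λ : Type} [Fintype ι] [DecidableEq ι] [Fintype Λ] [DecidableEq Λ] {d : ℕ}

/-- the chosen one of `Bd i (P i)` and `P i` -/
noncomputable def gyD {K : Type} [Field K] (Bd : ι → Polynomial ℤ) (ε : ι → Bool) (P : ι → K)
    (i : ι) : K := gyC (Bd i) (ε i) (P i)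

/-- the determinants `D e` -/
noncomputable def gDD {K : Type} [Field K] (Bd : ι → Polynomial ℤ) (ε : ι → Bool)
    (c : Cf ι Λ d → K) (P : ι → K) (e : Λ → ι) : K :=
  (Matrix.of fun l t => gyD Bd ε P (e t) * gG c P l (e t)).det

/-- the determinants `T e t` -/
noncomputable def gTD {K : Type} [Field K] (Bd : ι → Polynomial ℤ) (ε : ι → Bool)
    (c : Cf ι Λ d → K) (P : ι → K) (a : Λ → K) (e : Λ → ι) (t : Λ) : K :=
  ((Matrix.of fun l t => gyD Bd ε P (e t) * gG c P l (e t)).updateCol t a).det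

/-- the certificates hold for the coefficients `c` and the point `P` -/
structure COk (Bd : ι → Polynomial ℤ) (Z : Cert ι Λ d) {K : Type} [Field K] (c : Cf ι Λ d → K)
    (P : ι → K) : Prop where
  span : ∀ v : Λ → K, ∃ x : Fin Z.m → K, ∀ l,
    v l = ∑ k, x k * ga (fun α => aeval c (Z.b k α)) P l
  full : ∀ ε, ∃ e, gDD Bd ε c P e ≠ 0
  ne : ∀ k ε e t, aeval c (Z.E k ε e t) ≠ 0
  cert : ∀ k ε e t, gTD Bd ε c P (ga (fun α => aeval c (Z.b k α)) P) e t ≠ 0 →
    aeval c (Z.E k ε e t) * gTD Bd ε c P (ga (fun α => aeval c (Z.b k α)) P) e t ^ (Z.N + 1) =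
      ∑ e', gDD Bd ε c P e' * gQ c (gTD Bd ε c P (ga (fun α => aeval c (Z.b k α)) P) e t)
        (gDD Bd ε c P) (Z.Q k ε e t e')

end

end Pool.Agent.PC
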