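import Pool.Agent.Lib.MP_c95b3b_ag_PC.Defs
import Pool.Agent.Lib.MP_c95b3b_ag_AL.DefsM

/-! Project PC (MP_c95b3b_ag): special points of products of plane curves. Definitions for the
K+ part: rays, cells, scaled vectors of logarithms. -/

namespace Pool.Agent.PC

open Pool.Agent.L3 Module
open Pool.Agent.KP (supp pr1 pr0)

/-! ## Rays -/

/-- a pair of integers as a vector -/
def rv (ρ : ℤ × ℤ) : ℝ × ℝ := ((ρ.1 : ℝ), (ρ.2 : ℝ))

/-- the order of the character `x ^ a.1 * y ^ a.2` at the ray `ρ` -/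
def key (ρ a : ℤ × ℤ) : ℤ := -(a.1 * ρ.1 + a.2 * ρ.2)

theorem key_eq (ρ a : ℤ × ℤ) : key ρ a = - pr ρ a := rfl

section
variable {ι : Type}

/-- the family with the lengths `l` in the directions `ρ` -/
def vec (ρ : ι → ℤ × ℤ) (l : ι → ℝ) : ι → ℝ × ℝ := fun i => l i • rv (ρ i)

/-- families supported on `I` with components in the lines spanned by the `ρ i` -/
def cel (I : Finset ι) (ρ : ι → ℤ × ℤ) : Submodule ℝ (ι → ℝ × ℝ) where
  carrier := {v | ∃ l : ι → ℝ, (∀ i, i ∉ I → l i = 0) ∧ v = vec ρ l}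
  add_mem' := fun {v w} hv hw => by
    obtain ⟨l, hl, rfl⟩ := hv
    obtain ⟨m, hm, rfl⟩ := hw
    refine ⟨l + m, fun i hi => by simp [hl i hi, hm i hi], ?_⟩
    funext i
    simp [vec, add_smul]
  zero_mem' := ⟨0, fun i _ => rfl, by funext i; simp [vec]⟩
  smul_mem' := fun c v hv => by
    obtain ⟨l, hl, rfl⟩ := hv
    refine ⟨c • l, fun i hi => by simp [hl i hi], ?_⟩
    funext i
    simp [vec, mul_smul]

/-- the rays with the numbers `j i` -/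
def rr {m : ℕ} (C : ι → Crv m) (j : ι → Fin m) : ι → ℤ × ℤ := fun i => (C i).ray (j i)

/-- the vectors of the small cells of `F` -/
def Good {m : ℕ} (C : ι → Crv m) (F : Submodule ℝ (ι → ℝ × ℝ)) (x : ℕ) : Set (ι → ℝ × ℝ) :=
  {v | ∃ (R : Finset ι) (j : ι → Fin m), v ∈ F ⊓ cel R (rr C j) ∧
    finrank ℝ (F ⊓ cel R (rr C j) : Submodule ℝ _) ≤ x}

/-- scaled pairing of exponents with vectors -/
noncomputable def pz [Fintype ι] (h : ι → ℝ) (a : ι → ℤ × ℤ) (v : ι → ℝ × ℝ) : ℝ :=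
  ∑ i, h i * (((a i).1 : ℝ) * (v i).1 + ((a i).2 : ℝ) * (v i).2)

/-- the exponents `a i` are bounded by `B / h i` -/
def EB (h : ι → ℝ) (B : ℝ) (a : ι → ℤ × ℤ) : Prop :=
  ∀ i, |((a i).1 : ℝ)| ≤ B * (h i)⁻¹ ∧ |((a i).2 : ℝ)| ≤ B * (h i)⁻¹

/-- `D` times the first Laurent polynomial is equal to the second one on the product of the
curves -/
def SameZ [Fintype ι] {m : ℕ} (C : ι → Crv m) (D : ℤ) (s : Finset (ι → ℤ × ℤ))
    (q : (ι → ℤ × ℤ) → ℤ) (T : Finset (ι → ℤ × ℤ)) (c : (ι → ℤ × ℤ) → ℤ) : Prop :=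
  ∀ (A : Type) [CommRing A] (x y : ι → Aˣ), OnC C x y →
    (D : A) * lval s q x y = lval T c x y

/-- the vectors of the logarithms of the absolute values -/
noncomputable def lvc {K : Type} [Field K] {S : Subring K} (P : Places K S) (U : ι → K × K)
    (w : P.Pl) : ι → ℝ × ℝ := fun i => (P.lg w (U i).1, P.lg w (U i).2)

/-- the vectors of the logarithms, scaled -/
noncomputable def lsc {K : Type} [Field K] {S : Subring K} (P : Places K S) (U : ι → K × K)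
    (s : ι → ℝ) (w : P.Pl) : ι → ℝ × ℝ := fun i => (s i)⁻¹ • lvc P U w i

end

/-! ## Basic properties -/

theorem coprime_ne {ρ : ℤ × ℤ} (h : IsCoprime ρ.1 ρ.2) : ρ.1 ≠ 0 ∨ ρ.2 ≠ 0 := by
  by_contra hcon
  push Not at hcon
  rw [hcon.1, hcon.2] at h
  exact (not_isCoprime_zero_zero h)

theorem rv_ne_zero {ρ : ℤ × ℤ} (h : IsCoprime ρ.1 ρ.2) : rv ρ ≠ 0 := by
  intro h0
  have h1 : ((ρ.1 : ℝ)) = 0 := congrArg Prod.fst h0
  have h2 : ((ρ.2 : ℝ)) = 0 := congrArg Prod.snd h0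
  have h3 : ρ.1 = 0 := by exact_mod_cast h1
  have h4 : ρ.2 = 0 := by exact_mod_cast h2
  rcases coprime_ne h with h5 | h5
  · exact h5 h3
  · exact h5 h4

theorem one_le_norm_rv {ρ : ℤ × ℤ} (h : IsCoprime ρ.1 ρ.2) : 1 ≤ ‖rv ρ‖ := by
  have h0 := coprime_ne h
  rw [Prod.norm_def]
  rcases h0 with h0 | h0
  · refine le_max_of_le_left ?_
    have h1 : (1 : ℤ) ≤ |ρ.1| := Int.one_le_abs h0
    simp only [rv, Real.norm_eq_abs]
    exact_mod_cast h1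
  · refine le_max_of_le_right ?_
    have h1 : (1 : ℤ) ≤ |ρ.2| := Int.one_le_abs h0
    simp only [rv, Real.norm_eq_abs]
    exact_mod_cast h1

section
variable {ι : Type}

theorem vec_apply (ρ : ι → ℤ × ℤ) (l : ι → ℝ) (i : ι) : vec ρ l i = l i • rv (ρ i) := rfl

theorem mem_cel {I : Finset ι} {ρ : ι → ℤ × ℤ} {v : ι → ℝ × ℝ} :
    v ∈ cel I ρ ↔ ∃ l : ι → ℝ, (∀ i, i ∉ I → l i = 0) ∧ v = vec ρ l := Iff.rfl

theorem vec_sub (ρ : ι → ℤ × ℤ) (l m : ι → ℝ) : vec ρ (l - m) = vec ρ l - vec ρ m := by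
  funext i
  simp [vec, sub_smul]

theorem vec_smul (ρ : ι → ℤ × ℤ) (c : ℝ) (l : ι → ℝ) : vec ρ (c • l) = c • vec ρ l := by
  funext i
  simp [vec, mul_smul]

/-- `vec` as a linear map -/
def vecL (ρ : ι → ℤ × ℤ) : (ι → ℝ) →ₗ[ℝ] (ι → ℝ × ℝ) where
  toFun := vec ρ
  map_add' := fun v w => by
    funext i
    simp [vec, add_smul]
  map_smul' := fun c v => by
    funext i
    simp [vec, mul_smul]

theorem vecL_inj {ρ : ι → ℤ × ℤ} (hρ : ∀ i, IsCoprime (ρ i).1 (ρ i).2) :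
    Function.Injective (vecL ρ) := by
  intro v w h
  funext i
  have h1 : vec ρ v i = vec ρ w i := congrFun h i
  rw [vec_apply, vec_apply] at h1
  have h2 : (v i - w i) • rv (ρ i) = 0 := by rw [sub_smul, h1, sub_self]
  rcases smul_eq_zero.mp h2 with h3 | h3
  · linarith
  · exact absurd h3 (rv_ne_zero (hρ i))

/-- the lengths of the members of `F` in the cell -/
def wsp (F : Submodule ℝ (ι → ℝ × ℝ)) (R : Finset ι) (ρ : ι → ℤ × ℤ) :
    Submodule ℝ (ι → ℝ) := (F ⊓ cel R ρ).comap (vecL ρ)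

theorem mem_wsp {F : Submodule ℝ (ι → ℝ × ℝ)} {R : Finset ι} {ρ : ι → ℤ × ℤ}
    (hρ : ∀ i, IsCoprime (ρ i).1 (ρ i).2)
    {w : ι → ℝ} (hw : w ∈ wsp F R ρ) : vec ρ w ∈ F ∧ ∀ i, i ∉ R → w i = 0 := by
  have h : vec ρ w ∈ F ⊓ cel R ρ := hw
  refine ⟨h.1, ?_⟩
  obtain ⟨l, hl, h2⟩ := mem_cel.mp h.2
  have h3 : w = l := vecL_inj hρ h2
  rw [h3]
  exact hl

theorem finrank_wsp [Fintype ι] (F : Submodule ℝ (ι → ℝ × ℝ)) (R : Finset ι)
    {ρ : ι → ℤ × ℤ} (hρ : ∀ i, IsCoprime (ρ i).1 (ρ i).2) :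
    finrank ℝ (wsp F R ρ) = finrank ℝ (F ⊓ cel R ρ : Submodule ℝ _) := by
  have h1 : (wsp F R ρ).map (vecL ρ) = F ⊓ cel R ρ := by
    unfold wsp
    rw [Submodule.map_comap_eq]
    refine inf_eq_right.mpr ?_
    intro v hv
    obtain ⟨l, _, h2⟩ := mem_cel.mp hv.2
    exact ⟨l, h2.symm⟩
  rw [← h1]
  exact (Submodule.equivMapOfInjective (vecL ρ) (vecL_inj hρ) (wsp F R ρ)).finrank_eq

variable [Fintype ι]

theorem norm_le_norm_vec {ρ : ι → ℤ × ℤ} (hρ : ∀ i, IsCoprime (ρ i).1 (ρ i).2) (l : ι → ℝ) :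
    ‖l‖ ≤ ‖vec ρ l‖ := by
  rw [pi_norm_le_iff_of_nonneg (norm_nonneg _)]
  intro i
  refine le_trans ?_ (norm_le_pi_norm _ i)
  rw [vec_apply, norm_smul]
  exact le_mul_of_one_le_right (norm_nonneg _) (one_le_norm_rv (hρ i))

/-- a bound for the norms of the rays -/
noncomputable def rb (ρ : ι → ℤ × ℤ) : ℝ := 1 + ∑ i, ‖rv (ρ i)‖

theorem one_le_rb (ρ : ι → ℤ × ℤ) : 1 ≤ rb ρ := by
  have : 0 ≤ ∑ i, ‖rv (ρ i)‖ := Finset.sum_nonneg fun i _ => norm_nonneg _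
  unfold rb
  linarith

theorem norm_vec_le (ρ : ι → ℤ × ℤ) (l : ι → ℝ) : ‖vec ρ l‖ ≤ rb ρ * ‖l‖ := by
  have h0 : 0 ≤ rb ρ * ‖l‖ := mul_nonneg (zero_le_one.trans (one_le_rb ρ)) (norm_nonneg _)
  rw [pi_norm_le_iff_of_nonneg h0]
  intro i
  rw [vec_apply, norm_smul, mul_comm]
  refine mul_le_mul ?_ (norm_le_pi_norm l i) (norm_nonneg _) (zero_le_one.trans (one_le_rb ρ))
  have : ‖rv (ρ i)‖ ≤ ∑ i, ‖rv (ρ i)‖ :=
    Finset.single_le_sum (fun j _ => norm_nonneg (rv (ρ j))) (Finset.mem_univ i)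
  unfold rb
  linarith

theorem pz_sub (h : ι → ℝ) (a : ι → ℤ × ℤ) (v w : ι → ℝ × ℝ) :
    pz h a (v - w) = pz h a v - pz h a w := by
  unfold pz
  rw [← Finset.sum_sub_distrib]
  refine Finset.sum_congr rfl fun i _ => ?_
  simp
  ring

theorem pz_add (h : ι → ℝ) (a : ι → ℤ × ℤ) (v w : ι → ℝ × ℝ) :
    pz h a (v + w) = pz h a v + pz h a w := by
  unfold pz
  rw [← Finset.sum_add_distrib]
  refine Finset.sum_congr rfl fun i _ => ?_
  simp
  ring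

theorem pz_vec (h : ι → ℝ) (a : ι → ℤ × ℤ) (ρ : ι → ℤ × ℤ) (l : ι → ℝ) :
    pz h a (vec ρ l) = - ∑ i, h i * (key (ρ i) (a i) : ℝ) * l i := by
  unfold pz
  rw [← Finset.sum_neg_distrib]
  refine Finset.sum_congr rfl fun i _ => ?_
  rw [vec_apply]
  simp only [rv, key, Prod.smul_fst, Prod.smul_snd, smul_eq_mul]
  push_cast
  ring

theorem abs_pz_le (h : ι → ℝ) (hh : ∀ i, 0 < h i) (B : ℝ) (a : ι → ℤ × ℤ) (v : ι → ℝ × ℝ)
    (ha : EB h B a) : |pz h a v| ≤ 2 * B * Fintype.card ι * ‖v‖ := by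
  unfold pz
  refine (Finset.abs_sum_le_sum_abs _ _).trans ?_
  have hb : ∀ i ∈ (Finset.univ : Finset ι),
      |h i * (((a i).1 : ℝ) * (v i).1 + ((a i).2 : ℝ) * (v i).2)| ≤ 2 * B * ‖v‖ := by
    intro i _
    have h1 := (ha i).1
    have h2 := (ha i).2
    have h3 : |(v i).1| ≤ ‖v‖ := (norm_fst_le (v i)).trans (norm_le_pi_norm v i)
    have h4 : |(v i).2| ≤ ‖v‖ := (norm_snd_le (v i)).trans (norm_le_pi_norm v i)
    have h5 : 0 ≤ B * (h i)⁻¹ := (abs_nonneg _).trans h1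
    rw [abs_mul, abs_of_pos (hh i)]
    calc h i * |((a i).1 : ℝ) * (v i).1 + ((a i).2 : ℝ) * (v i).2|
        ≤ h i * (|((a i).1 : ℝ)| * |(v i).1| + |((a i).2 : ℝ)| * |(v i).2|) := by
          refine mul_le_mul_of_nonneg_left ?_ (hh i).le
          rw [← abs_mul, ← abs_mul]
          exact abs_add_le _ _
      _ ≤ h i * (B * (h i)⁻¹ * ‖v‖ + B * (h i)⁻¹ * ‖v‖) := by
          refine mul_le_mul_of_nonneg_left ?_ (hh i).le
          gcongr
      _ = (h i * (h i)⁻¹) * (2 * B * ‖v‖) := by ring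
      _ = 2 * B * ‖v‖ := by rw [mul_inv_cancel₀ (hh i).ne', one_mul]
  refine (Finset.sum_le_sum hb).trans ?_
  rw [Finset.sum_const, Finset.card_univ, nsmul_eq_mul]
  exact le_of_eq (by ring)

end

end Pool.Agent.PC
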