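import Pool.Agent.Lib.MP_c95b3b_ag_PC.Defs

/-! Project PC: definitions for part S. -/

namespace Pool.Agent.PC

open Pool.Agent.L3 Pool.Agent.AL Module MvPolynomial

section
variable {ι κ K : Type} [Field K]

/-- a power series in `z` as a power series in `τ` and `z` -/
noncomputable def inZ [Finite ι] [Finite κ] (F : MvPowerSeries ι K) : MvPowerSeries (κ ⊕ ι) K :=
  MvPowerSeries.rename (Sum.inr : ι → κ ⊕ ι) F

/-- the point `Ξ(z) + ξ` -/
noncomputable def gpt [Finite ι] (Ξ : ι → MvPowerSeries ι K) (i : ι) : MvPowerSeries (ι ⊕ ι) K :=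
  inZ (Ξ i) + MvPowerSeries.X (Sum.inl i)

/-- the radius of the ring element at a place: `1 / (8 (card κ + 1))` at the archimedean places -/
noncomputable def dl {S : Subring K} {P : Places K S} (cw : P.Pl → ℝ) (n : ℕ) (w : P.Pl) : ℝ :=
  Real.exp (-(cw w) - P.arch w * Real.log (8 * (n + 1)))

end

end Pool.Agent.PC
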