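import Pool.Agent.Lib.MP_c95b3b_ag_PC.CoreK
import Pool.Agent.Lib.MP_c95b3b_ag_AL.MO

/-! Project PC, module FC: compactness. -/

namespace Pool.Agent.PC

open Pool.Agent.L3 Module MvPolynomial

/-- finitely many polynomials are enough for all data with the same constants -/
theorem compactC (m k : ℕ) (Cv : Fin k → Crv m) (fc : Fin k → Polynomial (Polynomial ℂ))
    (hfc : ∀ i, Irreducible (fc i)) (hfin : ∀ i, PT.LogFin (fc i)) (θ : ℝ) (hθ : 0 < θ) :
    ∃ 𝒬 : Finset (MvPolynomial (Fin k) ℤ), (∀ Q ∈ 𝒬, Q ≠ 0) ∧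
      ∀ D : DatC Cv fc θ, ∃ Q ∈ 𝒬, aeval (fun i => (D.U i).1) Q = 0 := by
  classical
  by_contra hcon
  push Not at hcon
  have hcount : Countable {Q : MvPolynomial (Fin k) ℤ // Q ≠ 0} := by
    have : Countable (MvPolynomial (Fin k) ℤ) := by
      rw [← Cardinal.mk_le_aleph0_iff]
      exact MvPolynomial.cardinalMk_le_max.trans (by simp)
    infer_instance
  have hne : Nonempty {Q : MvPolynomial (Fin k) ℤ // Q ≠ 0} := ⟨⟨1, one_ne_zero⟩⟩
  obtain ⟨e, he⟩ := exists_surjective_nat {Q : MvPolynomial (Fin k) ℤ // Q ≠ 0}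
  have h1 : ∀ n : ℕ, ∃ D : DatC Cv fc θ,
      ∀ l ≤ n, aeval (fun i => (D.U i).1) (e l).1 ≠ 0 := by
    intro n
    obtain ⟨D, hD⟩ := hcon ((Finset.range (n + 1)).image fun l => (e l).1) (by
      intro Q hQ
      obtain ⟨l, _, rfl⟩ := Finset.mem_image.mp hQ
      exact (e l).2)
    refine ⟨D, fun l hl => hD _ (Finset.mem_image.mpr ⟨l, ?_, rfl⟩)⟩
    exact Finset.mem_range.mpr (Nat.lt_succ_of_le hl)
  choose D hD using h1
  refine core m k Cv fc hfc hfin θ hθ (Filter.hyperfilter ℕ) D fun Q hQ => ?_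
  obtain ⟨l, hl⟩ := he ⟨Q, hQ⟩
  have h2 : ∀ᶠ n in Filter.atTop, l ≤ n := Filter.eventually_ge_atTop l
  have h3 : (↑(Filter.hyperfilter ℕ) : Filter ℕ) ≤ Filter.atTop := by
    rw [← Nat.cofinite_eq_atTop]
    exact Filter.hyperfilter_le_cofinite
  filter_upwards [h3 h2] with n hn
  have h4 := hD n l hn
  rwa [hl] at h4

end Pool.Agent.PC
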