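import Pool.Agent.Lib.MP_c95b3b_ag_PC.KFin

/-! Project PC, module FG: the product of the curves has points which are not zeros of a given
polynomial. -/

namespace Pool.Agent.PC

open Polynomial

namespace FNon

/-- a curve with finitely many points with given absolute values which has a point in the torus has
positive degree in the second variable -/
theorem natDegree_ne (f : ℂ[X][X]) (fin : PT.LogFin f) (a b : ℂ) (ha : a ≠ 0)
    (hb : b ≠ 0) (hab : f.evalEval a b = 0) : f.natDegree ≠ 0 := by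
  intro h0
  have h1 : f = C (f.coeff 0) := eq_C_of_natDegree_eq_zero h0
  have h2 : (f.coeff 0).eval a = 0 := by
    rw [h1, evalEval_C] at hab
    exact hab
  have h3 := fin ‖a‖ 1 (norm_pos_iff.2 ha) one_pos
  refine Set.not_infinite.2 h3 ?_
  have h5 : ((fun t : ℝ => (a, ((Circle.exp t : Circle) : ℂ))) '' Set.Icc 0 1).Infinite := by
    refine (Set.Icc_infinite one_pos).image ?_
    intro s hs t ht h
    have h6 : Circle.exp s = Circle.exp t := Circle.ext (Prod.ext_iff.1 h).2
    have h7 : ∀ u ∈ Set.Icc (0 : ℝ) 1, Complex.arg (Circle.exp u) = u := by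
      intro u hu
      refine Circle.arg_exp ?_ ?_
      · have := Real.pi_pos
        linarith [hu.1]
      · have := Real.pi_gt_three
        linarith [hu.2]
    rw [← h7 s hs, ← h7 t ht, h6]
  refine h5.mono ?_
  rintro p ⟨t, _, rfl⟩
  refine ⟨?_, rfl, ?_⟩
  · rw [h1, evalEval_C]
    exact h2
  · exact Circle.norm_coe _

theorem coeff_zero_ne (f : ℂ[X][X]) (irr : Irreducible f) (a b : ℂ)
    (hb : b ≠ 0) (hab : f.evalEval a b = 0) : f.coeff 0 ≠ 0 := by
  intro h0
  have h1 : X ∣ f := X_dvd_iff.2 h0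
  obtain ⟨g, hg⟩ := h1
  rcases irr.isUnit_or_isUnit hg with h | h
  · exact not_isUnit_X h
  · have h2 : (f.evalEval a b) = b * g.evalEval a b := by
      rw [hg, evalEval_mul, evalEval_X]
    rw [h2] at hab
    have h3 : g.evalEval a b = 0 := (mul_eq_zero.1 hab).resolve_left hb
    have h4 : IsUnit (g.evalEval a b) := by
      have := h.map (evalEvalRingHom a b)
      exact this
    rw [h3] at h4
    exact not_isUnit_zero h4

/-- all but finitely many values of the first coordinate occur -/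
theorem infinite (f : ℂ[X][X]) (irr : Irreducible f) (fin : PT.LogFin f) (a b : ℂ) (ha : a ≠ 0)
    (hb : b ≠ 0) (hab : f.evalEval a b = 0) :
    {x : ℂ | x ≠ 0 ∧ ∃ y, y ≠ 0 ∧ f.evalEval x y = 0}.Infinite := by
  have hd := natDegree_ne f fin a b ha hb hab
  have h0 := coeff_zero_ne f irr a b hb hab
  have hl : f.leadingCoeff ≠ 0 := leadingCoeff_ne_zero.2 irr.ne_zero
  have hg : X * (f.coeff 0 * f.leadingCoeff) ≠ 0 := mul_ne_zero X_ne_zero (mul_ne_zero h0 hl)
  have hfin : {x : ℂ | (X * (f.coeff 0 * f.leadingCoeff)).eval x = 0}.Finite := by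
    refine (finite_setOfPred_isRoot hg).subset ?_
    intro x hx
    exact hx
  refine hfin.infinite_compl.mono ?_
  intro x hx
  have hx' : (X * (f.coeff 0 * f.leadingCoeff)).eval x ≠ 0 := hx
  rw [eval_mul, eval_mul, eval_X] at hx'
  have hx0 : x ≠ 0 := left_ne_zero_of_mul hx'
  have hx1 : (f.coeff 0).eval x ≠ 0 := left_ne_zero_of_mul (right_ne_zero_of_mul hx')
  have hx2 : f.leadingCoeff.eval x ≠ 0 := right_ne_zero_of_mul (right_ne_zero_of_mul hx')
  have hnd : (f.map (evalRingHom x)).natDegree = f.natDegree :=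
    natDegree_map_of_leadingCoeff_ne_zero _ hx2
  have hdeg : (f.map (evalRingHom x)).degree ≠ 0 := by
    intro h
    have := natDegree_eq_of_degree_eq_some h
    rw [hnd] at this
    exact hd this
  obtain ⟨y, hy⟩ := IsAlgClosed.exists_root _ hdeg
  refine ⟨hx0, y, ?_, ?_⟩
  · rintro rfl
    have h1 : (f.map (evalRingHom x)).coeff 0 = 0 := by
      rw [coeff_zero_eq_eval_zero]
      exact hy
    rw [coeff_map] at h1
    exact hx1 h1
  · rw [← map_evalRingHom_eval]
    exact hy

end FNon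

theorem exists_pointC (k : ℕ) (f : Fin k → ℂ[X][X]) (irr : ∀ i, Irreducible (f i))
    (fin : ∀ i, PT.LogFin (f i))
    (nd : ∀ i, ∃ x y : ℂ, x ≠ 0 ∧ y ≠ 0 ∧ (f i).evalEval x y = 0)
    (F : MvPolynomial (Fin k) ℤ) (hF : F ≠ 0) :
    ∃ x y : Fin k → ℂ, (∀ i, x i ≠ 0 ∧ y i ≠ 0 ∧ (f i).evalEval (x i) (y i) = 0) ∧
      MvPolynomial.aeval x F ≠ 0 := by
  by_contra hcon
  push Not at hcon
  have hinf : ∀ i, {x : ℂ | x ≠ 0 ∧ ∃ y, y ≠ 0 ∧ (f i).evalEval x y = 0}.Infinite := by
    intro i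
    obtain ⟨a, b, ha, hb, hab⟩ := nd i
    exact FNon.infinite (f i) (irr i) (fin i) a b ha hb hab
  have h1 : MvPolynomial.map (Int.castRingHom ℂ) F = 0 := by
    refine MvPolynomial.funext_set (fun i => {x : ℂ | x ≠ 0 ∧ ∃ y, y ≠ 0 ∧
      (f i).evalEval x y = 0}) (fun i => hinf i) ?_
    intro x hx
    have hx' : ∀ i, x i ≠ 0 ∧ ∃ y, y ≠ 0 ∧ (f i).evalEval (x i) y = 0 := fun i =>
      hx i (Set.mem_univ i)
    choose hx0 y hy0 hy using hx'
    have h2 := hcon x y fun i => ⟨hx0 i, hy0 i, hy i⟩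
    rw [map_zero, MvPolynomial.eval_map]
    rw [MvPolynomial.aeval_def] at h2
    exact h2
  have h2 : Function.Injective (MvPolynomial.map (σ := Fin k) (Int.castRingHom ℂ)) :=
    MvPolynomial.map_injective _ Int.cast_injective
  exact hF (h2 (by rw [h1, map_zero]))

end Pool.Agent.PC
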