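import Pool.Agent.Lib.MP_c95b3b_ag_PC.Curves
import Pool.Agent.Lib.MP_c95b3b_ag_PC.FNon

/-! Project PC, module FH: conjugate curves, and the theorem for the product of the curves. -/

namespace Pool.Agent.PC

open Polynomial

theorem specialC_map {k : ℕ} (r : ℕ) (f : Fin k → ℂ[X][X]) (σ : ℂ →+* ℂ) (x y : Fin k → ℂ)
    (h : SpecialC r f x y) :
    SpecialC r (fun i => chg σ (f i)) (fun i => σ (x i)) (fun i => σ (y i)) := by
  obtain ⟨h1, Λ, hr, hΛ⟩ := h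
  refine ⟨fun i => ⟨?_, ?_, ?_⟩, Λ, hr, fun m hm => ?_⟩
  · exact (map_ne_zero σ).2 (h1 i).1
  · exact (map_ne_zero σ).2 (h1 i).2.1
  · rw [evalEval_chg, (h1 i).2.2, map_zero]
  · have h2 := congrArg σ (hΛ m hm)
    rw [map_prod, map_one] at h2
    rw [← h2]
    refine Finset.prod_congr rfl fun i _ => ?_
    rw [map_mul, map_zpow₀, map_zpow₀]

theorem curves_conj (k : ℕ) (f : Fin k → ℂ[X][X]) (irr : ∀ i, Irreducible (f i))
    (alg : ∀ i a b, IsAlgebraic ℚ (((f i).coeff a).coeff b)) (σ : ℂ ≃+* ℂ)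
    (fin : ∀ i, PT.LogFin (chg (σ : ℂ →+* ℂ) (f i))) :
    ∃ F : MvPolynomial (Fin k) ℤ, F ≠ 0 ∧ ∀ x y : Fin k → ℂ, SpecialC (k + 1) f x y →
      MvPolynomial.aeval x F = 0 := by
  obtain ⟨F, hF, h⟩ := curves k (fun i => chg (σ : ℂ →+* ℂ) (f i)) (fun i => by
    have h1 : chg (σ : ℂ →+* ℂ) (f i) = Polynomial.mapEquiv (Polynomial.mapEquiv σ) (f i) := rfl
    rw [h1]
    exact (MulEquiv.irreducible_iff _).2 (irr i)) (fun i a b => by
    have h1 : ((chg (σ : ℂ →+* ℂ) (f i)).coeff a).coeff b = σ (((f i).coeff a).coeff b) := by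
      unfold chg
      rw [coeff_map, coe_mapRingHom, coeff_map]
      rfl
    rw [h1]
    exact IsAlgebraic.algHom (RingHom.toRatAlgHom (σ : ℂ →+* ℂ)) (alg i a b)) fin
  refine ⟨F, hF, fun x y hxy => ?_⟩
  have h1 := h _ _ (specialC_map (k + 1) f (σ : ℂ →+* ℂ) x y hxy)
  have h2 : MvPolynomial.aeval (fun i => (σ : ℂ →+* ℂ) (x i)) F =
      (σ : ℂ →+* ℂ) (MvPolynomial.aeval x F) := by
    rw [MvPolynomial.aeval_def, MvPolynomial.aeval_def, MvPolynomial.hom_eval₂]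
    congr 1
    exact RingHom.ext_int _ _
  rw [h2] at h1
  exact (map_eq_zero (σ : ℂ →+* ℂ)).1 h1

theorem exists_pointC' (k : ℕ) (f : Fin k → ℂ[X][X]) (irr : ∀ i, Irreducible (f i))
    (σ : ℂ ≃+* ℂ) (fin : ∀ i, PT.LogFin (chg (σ : ℂ →+* ℂ) (f i)))
    (nd : ∀ i, ∃ x y : ℂ, x ≠ 0 ∧ y ≠ 0 ∧ (f i).evalEval x y = 0)
    (F : MvPolynomial (Fin k) ℤ) (hF : F ≠ 0) :
    ∃ x y : Fin k → ℂ, (∀ i, x i ≠ 0 ∧ y i ≠ 0 ∧ (f i).evalEval (x i) (y i) = 0) ∧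
      MvPolynomial.aeval x F ≠ 0 := by
  obtain ⟨x, y, hxy, hne⟩ := exists_pointC k (fun i => chg (σ : ℂ →+* ℂ) (f i)) (fun i => by
    have h1 : chg (σ : ℂ →+* ℂ) (f i) = Polynomial.mapEquiv (Polynomial.mapEquiv σ) (f i) := rfl
    rw [h1]
    exact (MulEquiv.irreducible_iff _).2 (irr i)) fin (fun i => by
    obtain ⟨x, y, hx, hy, h⟩ := nd i
    refine ⟨σ x, σ y, (map_ne_zero σ).2 hx, (map_ne_zero σ).2 hy, ?_⟩
    have := evalEval_chg (σ : ℂ →+* ℂ) (f i) x y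
    rw [h, map_zero] at this
    exact this) F hF
  have hx : ∀ i, (σ : ℂ →+* ℂ) (σ.symm (x i)) = x i := fun i => σ.apply_symm_apply (x i)
  have hy : ∀ i, (σ : ℂ →+* ℂ) (σ.symm (y i)) = y i := fun i => σ.apply_symm_apply (y i)
  refine ⟨fun i => σ.symm (x i), fun i => σ.symm (y i), fun i => ⟨?_, ?_, ?_⟩, ?_⟩
  · exact (map_ne_zero σ.symm).2 (hxy i).1
  · exact (map_ne_zero σ.symm).2 (hxy i).2.1
  · have h1 := evalEval_chg (σ : ℂ →+* ℂ) (f i) (σ.symm (x i)) (σ.symm (y i))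
    rw [hx, hy, (hxy i).2.2] at h1
    exact (map_eq_zero (σ : ℂ →+* ℂ)).1 h1.symm
  · intro h0
    apply hne
    have h2 : MvPolynomial.aeval (fun i => (σ : ℂ →+* ℂ) (σ.symm (x i))) F =
        (σ : ℂ →+* ℂ) (MvPolynomial.aeval (fun i => σ.symm (x i)) F) := by
      rw [MvPolynomial.aeval_def, MvPolynomial.aeval_def, MvPolynomial.hom_eval₂]
      congr 1
      exact RingHom.ext_int _ _
    rw [h0, map_zero] at h2
    simp only [hx] at h2
    exact h2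

end Pool.Agent.PC
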