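import Pool.Agent.Lib.MP_c95b3b_ag_PC.KFin
import Pool.Agent.Lib.MP_c95b3b_ag_PX.Main

/-! Project PC, module FD: interface to the curves over the rational numbers. -/

namespace Pool.Agent.PC

open Pool.Agent.L3 Module MvPolynomial

theorem exists_crv (k : ℕ) (fc : Fin k → Polynomial (Polynomial ℂ))
    (irr : ∀ i, Irreducible (fc i))
    (alg : ∀ i a b, IsAlgebraic ℚ (((fc i).coeff a).coeff b)) (fin : ∀ i, PT.LogFin (fc i))
    (nd : ∀ i, ∃ x y : ℂ, x ≠ 0 ∧ y ≠ 0 ∧ (fc i).evalEval x y = 0) :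
    ∃ (m : ℕ) (C : Fin k → Crv m), ∀ i x y, (fc i).evalEval x y = 0 →
      aeval ![x, y] (C i).f = 0 :=
  PX.exists_crv k fc irr alg fin nd

end Pool.Agent.PC
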