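import Pool.Agent.Lib.MP_c95b3b_ag_PC.KFin
import Pool.Agent.Lib.MP_c95b3b_ag_PC.FPlace
import Pool.Agent.Lib.MP_c95b3b_ag_AL.MN

/-! Project PC, module FB: number fields. -/

namespace Pool.Agent.PC

open Pool.Agent.L3 Module MvPolynomial

/-- a ring homomorphism commutes with the evaluation of an integer polynomial -/
private theorem fsetup_map_aeval {K L : Type} [Field K] [Field L] (e : K →+* L) (x y : K)
    (f : MvPolynomial (Fin 2) ℤ) : e (aeval ![x, y] f) = aeval ![e x, e y] f := by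
  have h := MvPolynomial.comp_aeval_apply (f := ![x, y]) e.toIntAlgHom f
  have h2 : (fun i => e.toIntAlgHom (![x, y] i)) = ![e x, e y] := by
    funext i
    fin_cases i <;> rfl
  rw [h2] at h
  exact h

/-- the values of `f0` under an embedding -/
private theorem fsetup_eval {K0 K L : Type} [Field K0] [Field K] [Field L] [Algebra K0 K]
    (φ0 : K0 →+* L) (f : Polynomial (Polynomial K0)) (e : K →+* L)
    (he : e.comp (algebraMap K0 K) = φ0) (x y : K)
    (h : (chg (algebraMap K0 K) f).evalEval x y = 0) :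
    (chg φ0 f).evalEval (e x) (e y) = 0 := by
  rw [← he, ← chg_chg, evalEval_chg, h, map_zero]

private theorem fsetup_height {K : Type} [Field K] [NumberField K] {R : Subring K}
    (P : Places K R) {x y : K} (hx0 : x ≠ 0) (hy0 : y ≠ 0) (hx : x ∈ R) (hy : y ∈ R)
    (hxi : x⁻¹ ∈ R) (hyi : y⁻¹ ∈ R)
    (hPH : ∀ x : K, P.avg (fun w => max 0 (P.lg w x)) ≤ Height.logHeight₁ x / finrank ℚ K)
    (hPx : Height.logHeight₁ x / finrank ℚ K ≤ P.avg (fun w => max 0 (P.lg w x)))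
    (hPy : Height.logHeight₁ y / finrank ℚ K ≤ P.avg (fun w => max 0 (P.lg w y))) :
    (Height.logHeight₁ x + Height.logHeight₁ y) / finrank ℚ K ≤
        P.avg (fun w => ‖((P.lg w x, P.lg w y) : ℝ × ℝ)‖) ∧
      P.avg (fun w => ‖((P.lg w x, P.lg w y) : ℝ × ℝ)‖) ≤
        4 * ((Height.logHeight₁ x + Height.logHeight₁ y) / finrank ℚ K) := by
  have h1 := FB.avg_abs_eq P (P.avg_lg_unit hx0 hx hxi)
  have h2 := FB.avg_abs_eq P (P.avg_lg_unit hy0 hy hyi)
  have h3 : P.avg (fun w => |P.lg w x| + |P.lg w y|) ≤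
      2 * P.avg (fun w => ‖((P.lg w x, P.lg w y) : ℝ × ℝ)‖) := by
    rw [← P.avg_mul]
    refine P.avg_mono fun w => ?_
    rw [Prod.norm_def]
    have h4 := le_max_left ‖P.lg w x‖ ‖P.lg w y‖
    have h5 := le_max_right ‖P.lg w x‖ ‖P.lg w y‖
    rw [Real.norm_eq_abs, Real.norm_eq_abs] at h4 h5
    simp only [Real.norm_eq_abs]
    linarith
  have h4 : P.avg (fun w => ‖((P.lg w x, P.lg w y) : ℝ × ℝ)‖) ≤
      P.avg (fun w => |P.lg w x| + |P.lg w y|) := by
    refine P.avg_mono fun w => ?_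
    rw [Prod.norm_def]
    simp only [Real.norm_eq_abs]
    exact max_le_add_of_nonneg (abs_nonneg _) (abs_nonneg _)
  rw [P.avg_add, h1, h2] at h3 h4
  have h5 := hPH x
  have h6 := hPH y
  have h7 : 0 ≤ P.avg (fun w => max 0 (P.lg w x)) := P.avg_nonneg fun w => le_max_left _ _
  have h8 : 0 ≤ P.avg (fun w => max 0 (P.lg w y)) := P.avg_nonneg fun w => le_max_left _ _
  rw [add_div]
  constructor <;> linarith

theorem setup_c (m k : ℕ) (Cv : Fin k → Crv m) (K0 : Type) [Field K0] [NumberField K0]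
    (φ0 : K0 →+* ℂ) (f0 : Fin k → Polynomial (Polynomial K0))
    (hC : ∀ i (x y : ℂ), (chg φ0 (f0 i)).evalEval x y = 0 → aeval ![x, y] (Cv i).f = 0)
    (K : Type) [Field K] [NumberField K] [Algebra K0 K] (e : K →+* ℂ)
    (he : e.comp (algebraMap K0 K) = φ0) (x y : Fin k → K)
    (hsp : SpecialC (k + 1) (fun i => chg (algebraMap K0 K) (f0 i)) x y) :
    ∃ E : Submodule ℝ (Fin k → ℝ × ℝ), finrank ℝ E < k ∧ ∃ ht : Fin k → ℝ,
      ∀ X : Finset K, (∀ z ∈ X, z ≠ 0) →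
        ∃ d : PDC Cv (fun i => chg φ0 (f0 i)) (1 / (finrank ℚ K0 : ℝ)) K
          (fun i => (x i, y i)) E, (∀ z ∈ X, z⁻¹ ∈ d.S) ∧
          ∀ i, ht i ≤ d.P.avg (fun w => ‖lvc d.P (fun i => (x i, y i)) w i‖) ∧
            d.P.avg (fun w => ‖lvc d.P (fun i => (x i, y i)) w i‖) ≤ 4 * ht i := by
  classical
  obtain ⟨hxy, Λ, hr, hΛ⟩ := hsp
  have hx0 : ∀ i, x i ≠ 0 := fun i => (hxy i).1
  have hy0 : ∀ i, y i ≠ 0 := fun i => (hxy i).2.1
  have hev : ∀ i, (chg (algebraMap K0 K) (f0 i)).evalEval (x i) (y i) = 0 := fun i => (hxy i).2.2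
  refine ⟨FB.annih k Λ, by have := FB.finrank_annih k (k + 1) Λ hr; omega,
    fun i => (Height.logHeight₁ (x i) + Height.logHeight₁ (y i)) / finrank ℚ K, ?_⟩
  intro X₀ hX₀
  set X : Finset K := (Finset.univ.image x ∪ Finset.univ.image y) ∪ X₀ with hX
  have hXx : ∀ i, x i ∈ X := fun i => Finset.mem_union_left _ (Finset.mem_union_left _
    (Finset.mem_image_of_mem _ (Finset.mem_univ i)))
  have hXy : ∀ i, y i ∈ X := fun i => Finset.mem_union_left _ (Finset.mem_union_right _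
    (Finset.mem_image_of_mem _ (Finset.mem_univ i)))
  have hXX : ∀ z ∈ X₀, z ∈ X := fun z hz => Finset.mem_union_right _ hz
  have hX0 : ∀ z ∈ X, z ≠ 0 := by
    intro z hz
    rcases Finset.mem_union.1 hz with hz | hz
    · rcases Finset.mem_union.1 hz with h | h
      · obtain ⟨i, -, rfl⟩ := Finset.mem_image.1 h
        exact hx0 i
      · obtain ⟨i, -, rfl⟩ := Finset.mem_image.1 h
        exact hy0 i
    · exact hX₀ z hz
  set R : Subring K := Subring.closure ((X : Set K) ∪ {y | ∃ x ∈ X, y = x⁻¹}) with hR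
  obtain ⟨P, S, hD, hS, hPH, hPX⟩ : ∃ (P : Places K R) (S : Finset (Fin P.D)),
      P.D = finrank ℚ K0 * S.card ∧ (∀ i ∈ S, (P.σ i).comp (algebraMap K0 K) = φ0) ∧
      (∀ x : K, P.avg (fun w => max 0 (P.lg w x)) ≤ Height.logHeight₁ x / finrank ℚ K) ∧
      ∀ x ∈ X, Height.logHeight₁ x / finrank ℚ K ≤ P.avg (fun w => max 0 (P.lg w x)) :=
    exists_places_ext K0 φ0 K X hX0
  have hmem : ∀ z ∈ X, z ∈ R := fun z hz => Subring.subset_closure (Or.inl hz)
  have hinv : ∀ z ∈ X, z⁻¹ ∈ R := fun z hz => Subring.subset_closure (Or.inr ⟨z, hz, rfl⟩)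
  have huc : ∀ i, UC (Cv i) R ((fun i => (x i, y i)) i) := by
    intro i
    refine ⟨hx0 i, hy0 i, ?_, hmem _ (hXx i), hmem _ (hXy i), hinv _ (hXx i), hinv _ (hXy i)⟩
    apply e.injective
    rw [map_zero]
    have h1 := fsetup_map_aeval e (x i) (y i) (Cv i).f
    rw [hC i _ _ (fsetup_eval φ0 (f0 i) e he (x i) (y i) (hev i))] at h1
    exact h1
  have hcard : 1 / (finrank ℚ K0 : ℝ) * (P.D : ℝ) ≤ (S.card : ℝ) := by
    have h1 : (finrank ℚ K0 : ℝ) ≠ 0 := by
      have : 0 < finrank ℚ K0 := finrank_pos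
      positivity
    have h2 : (P.D : ℝ) = (finrank ℚ K0 : ℝ) * (S.card : ℝ) := by exact_mod_cast hD
    rw [h2, one_div, inv_mul_cancel_left₀ h1]
  have hE : ∀ w, lvc P (fun i => (x i, y i)) w ∈ FB.annih k Λ := by
    intro w m hm
    have h1 := hΛ m hm
    have h2 : P.lg w (∏ i, x i ^ (m i).1 * y i ^ (m i).2) = 0 := by rw [h1, P.lg_one]
    rw [FB.lg_prod P w _ _
      (fun i _ => mul_ne_zero (zpow_ne_zero _ (hx0 i)) (zpow_ne_zero _ (hy0 i)))] at h2
    rw [← h2]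
    refine Finset.sum_congr rfl fun i _ => ?_
    rw [P.lg_mul w (zpow_ne_zero _ (hx0 i)) (zpow_ne_zero _ (hy0 i)), P.lg_zpow, P.lg_zpow]
    rfl
  refine ⟨⟨R, P, huc, hE, S, hcard, ?_⟩, fun z hz => hinv _ (hXX z hz), fun i => ?_⟩
  · intro i hi a
    exact fsetup_eval φ0 (f0 a) (P.σ i) (hS i hi) (x a) (y a) (hev a)
  · exact fsetup_height P (hx0 i) (hy0 i) (hmem _ (hXx i)) (hmem _ (hXy i)) (hinv _ (hXx i))
      (hinv _ (hXy i)) hPH (hPX _ (hXx i)) (hPX _ (hXy i))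

end Pool.Agent.PC
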