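import Pool.Agent.Lib.MP_c95b3b_ag_PC.FComp
import Pool.Agent.Lib.MP_c95b3b_ag_PC.FSetup
import Pool.Agent.Lib.MP_c95b3b_ag_PC.FCrv

/-! Project PC, module FE: special points over number fields. -/

namespace Pool.Agent.PC

open Pool.Agent.L3 Module MvPolynomial

/-- an extension of the embedding -/
private theorem fnum_lift {K0 : Type} [Field K0] [NumberField K0] (φ0 : K0 →+* ℂ)
    (K : Type) [Field K] [NumberField K] [Algebra K0 K] :
    ∃ e : K →+* ℂ, e.comp (algebraMap K0 K) = φ0 := by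
  let _ : Algebra K0 ℂ := φ0.toAlgebra
  have hsc : IsScalarTower ℚ K0 K := IsScalarTower.of_algebraMap_eq' (RingHom.ext_rat _ _)
  have halg : Algebra.IsAlgebraic K0 K := Algebra.IsAlgebraic.tower_top (K := ℚ) K0
  let e : K →ₐ[K0] ℂ := IsAlgClosed.lift
  refine ⟨e.toRingHom, ?_⟩
  ext z
  exact e.commutes z

/-- coefficients of the complex polynomial -/
private theorem fnum_coeff {K0 : Type} [Field K0] (φ0 : K0 →+* ℂ)
    (f : Polynomial (Polynomial K0)) (a b : ℕ) :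
    ((chg φ0 f).coeff a).coeff b = φ0 ((f.coeff a).coeff b) := by
  unfold chg
  rw [Polynomial.coeff_map, Polynomial.coe_mapRingHom, Polynomial.coeff_map]

theorem curves_nf (k : ℕ) (K0 : Type) [Field K0] [NumberField K0] (φ0 : K0 →+* ℂ)
    (f0 : Fin k → Polynomial (Polynomial K0)) (hirr : ∀ i, Irreducible (chg φ0 (f0 i)))
    (hfin : ∀ i, PT.LogFin (chg φ0 (f0 i))) :
    ∃ F : MvPolynomial (Fin k) ℤ, F ≠ 0 ∧
      ∀ (K : Type) [Field K] [NumberField K] [Algebra K0 K] (x y : Fin k → K),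
        SpecialC (k + 1) (fun i => chg (algebraMap K0 K) (f0 i)) x y → aeval x F = 0 := by
  classical
  by_cases hnd : ∀ i, ∃ x y : ℂ, x ≠ 0 ∧ y ≠ 0 ∧ (chg φ0 (f0 i)).evalEval x y = 0
  · obtain ⟨m, Cv, hC⟩ := exists_crv k (fun i => chg φ0 (f0 i)) hirr (fun i a b => by
      rw [fnum_coeff]
      have h1 : IsAlgebraic ℚ (((f0 i).coeff a).coeff b) := Algebra.IsAlgebraic.isAlgebraic _
      exact (isIntegral_algHom_iff φ0.toRatAlgHom φ0.injective).2 h1.isIntegral |>.isAlgebraic)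
      hfin hnd
    have hθ : (0 : ℝ) < 1 / (finrank ℚ K0 : ℝ) := by
      have : 0 < finrank ℚ K0 := finrank_pos
      positivity
    obtain ⟨𝒬, h𝒬, hQ⟩ := compactC m k Cv (fun i => chg φ0 (f0 i)) hirr hfin _ hθ
    refine ⟨∏ Q ∈ 𝒬, Q, Finset.prod_ne_zero_iff.mpr h𝒬, ?_⟩
    intro K _ _ _ x y hsp
    obtain ⟨e, he⟩ := fnum_lift φ0 K
    obtain ⟨E, hE, ht, hpl⟩ := setup_c m k Cv K0 φ0 f0 hC K e he x y hsp
    let d : DatC Cv (fun i => chg φ0 (f0 i)) (1 / (finrank ℚ K0 : ℝ)) :=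
      { K := K
        fld := inferInstance
        e := e
        U := fun i => (x i, y i)
        E := E
        hE := hE
        ht := ht
        pl := hpl }
    obtain ⟨Q, hQm, hQ0⟩ := hQ d
    rw [map_prod]
    exact Finset.prod_eq_zero hQm hQ0
  · rw [not_forall] at hnd
    obtain ⟨i, hi⟩ := hnd
    refine ⟨1, one_ne_zero, ?_⟩
    intro K _ _ _ x y hsp
    exfalso
    obtain ⟨e, he⟩ := fnum_lift φ0 K
    obtain ⟨h1, h2, h3⟩ := hsp.1 i
    refine hi ⟨e (x i), e (y i), ?_, ?_, ?_⟩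
    · rw [map_ne_zero]
      exact h1
    · rw [map_ne_zero]
      exact h2
    · rw [← he, ← chg_chg, evalEval_chg, h3, map_zero]

end Pool.Agent.PC
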