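import Pool.Agent.Lib.MP_c95b3b_ag_PC.DefsK
import Pool.Agent.Lib.MP_c95b3b_ag_PT.Defs

/-! Project PC, definitions for the sequences of special points. -/

namespace Pool.Agent.PC

open Pool.Agent.L3 Module

/-- places for the point `U` whose vectors of logarithms lie in `E`; for the embeddings in `emb`
the coordinates lie on the complex curves `fc` -/
structure PDC {m k : ℕ} (C : Fin k → Crv m) (fc : Fin k → Polynomial (Polynomial ℂ)) (θ : ℝ)
    (K : Type) [Field K] (U : Fin k → K × K) (E : Submodule ℝ (Fin k → ℝ × ℝ)) where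
  S : Subring K
  P : Places K S
  uc : ∀ i, UC (C i) S (U i)
  mem : ∀ w, lvc P U w ∈ E
  emb : Finset (Fin P.D)
  card : θ * P.D ≤ emb.card
  on : ∀ i ∈ emb, ∀ a, (fc a).evalEval (P.σ i (U a).1) (P.σ i (U a).2) = 0

/-- one term of a sequence of counterexamples; the places can be chosen such that given elements
are units -/
structure DatC {m k : ℕ} (C : Fin k → Crv m) (fc : Fin k → Polynomial (Polynomial ℂ)) (θ : ℝ)
    where
  K : Type
  fld : Field K
  e : K →+* ℂ
  U : Fin k → K × K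
  E : Submodule ℝ (Fin k → ℝ × ℝ)
  hE : finrank ℝ E < k
  ht : Fin k → ℝ
  pl : ∀ X : Finset K, (∀ x ∈ X, x ≠ 0) → ∃ d : PDC C fc θ K U E, (∀ x ∈ X, x⁻¹ ∈ d.S) ∧
    ∀ i, ht i ≤ d.P.avg (fun w => ‖lvc d.P U w i‖) ∧
      d.P.avg (fun w => ‖lvc d.P U w i‖) ≤ 4 * ht i

attribute [instance] DatC.fld

end Pool.Agent.PC
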