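import Pool.Agent.Lib.MP_c95b3b_ag_PC.KDat

/-! Project PC: special points of products of plane curves, definitions for the final part. -/

namespace Pool.Agent.PC

open Polynomial

/-- the point `(x, y)` lies on the product of the curves `f i = 0` (the value at `(x, y)` is
`(f i).evalEval x y`), has non-zero coordinates, and its coordinates satisfy at least `r`
independent multiplicative relations -/
def SpecialC {K : Type} [Field K] {k : ℕ} (r : ℕ) (f : Fin k → K[X][X]) (x y : Fin k → K) :
    Prop :=
  (∀ i, x i ≠ 0 ∧ y i ≠ 0 ∧ (f i).evalEval (x i) (y i) = 0) ∧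
    ∃ Λ : Submodule ℤ (Fin k → ℤ × ℤ), r ≤ Module.finrank ℤ Λ ∧
      ∀ m ∈ Λ, ∏ i, x i ^ (m i).1 * y i ^ (m i).2 = 1

/-- change of the coefficients -/
noncomputable def chg {R S : Type} [CommRing R] [CommRing S] (φ : R →+* S) (f : R[X][X]) :
    S[X][X] := f.map (mapRingHom φ)

theorem evalEval_chg {R S : Type} [CommRing R] [CommRing S] (φ : R →+* S) (f : R[X][X])
    (x y : R) : (chg φ f).evalEval (φ x) (φ y) = φ (f.evalEval x y) := by
  unfold chg
  exact map_mapRingHom_evalEval φ f x y

theorem chg_chg {R S T : Type} [CommRing R] [CommRing S] [CommRing T] (φ : R →+* S)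
    (ψ : S →+* T) (f : R[X][X]) : chg ψ (chg φ f) = chg (ψ.comp φ) f := by
  unfold chg
  rw [Polynomial.map_map]
  congr 1
  exact RingHom.ext fun p => by simp [Polynomial.map_map]

end Pool.Agent.PC
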