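import Pool.Agent.Lib.MP_c95b3b_ag_PC.DefsS
import Pool.Agent.Lib.MP_c95b3b_ag_AL.ZA
import Pool.Agent.Lib.MP_c95b3b_ag_AL.BD

/-! Project PC (MP_c95b3b_ag), module SA: leading forms along the branch. -/

namespace Pool.Agent.PC

open Pool.Agent.L3 Pool.Agent.AL Module MvPolynomial

namespace SA

section
variable {ι : Type} {K : Type} [Field K]

/-- the degree in the first group of variables -/
def dL [Fintype ι] (δ : ι ⊕ ι →₀ ℕ) : ℕ := ∑ i, δ (Sum.inl i)

/-- the weight in the second group of variables -/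
def wR [Fintype ι] (H : ι → ℕ) (δ : ι ⊕ ι →₀ ℕ) : ℕ := ∑ i, δ (Sum.inr i) * H i

theorem dL_add [Fintype ι] (δ ε : ι ⊕ ι →₀ ℕ) : dL (δ + ε) = dL δ + dL ε := by
  unfold dL
  rw [← Finset.sum_add_distrib]
  rfl

theorem wR_add [Fintype ι] (H : ι → ℕ) (δ ε : ι ⊕ ι →₀ ℕ) : wR H (δ + ε) = wR H δ + wR H ε := by
  unfold wR
  rw [← Finset.sum_add_distrib]
  refine Finset.sum_congr rfl fun i _ => ?_
  rw [Finsupp.add_apply, add_mul]

theorem dL_sumElim [Fintype ι] (α γ : ι →₀ ℕ) : dL (Finsupp.sumElim α γ) = α.degree := by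
  unfold dL
  rw [Finsupp.degree_eq_sum]
  rfl

theorem wR_sumElim [Fintype ι] (H : ι → ℕ) (α γ : ι →₀ ℕ) :
    wR H (Finsupp.sumElim α γ) = wt H γ := rfl

/-- the two parts of an exponent -/
theorem split (δ : ι ⊕ ι →₀ ℕ) : ∃ α γ : ι →₀ ℕ, δ = Finsupp.sumElim α γ := by
  refine ⟨Finsupp.comapDomain Sum.inl δ Sum.inl_injective.injOn,
    Finsupp.comapDomain Sum.inr δ Sum.inr_injective.injOn, ?_⟩
  ext x
  rcases x with x | x <;> rfl

/-- the leading bidegree -/
structure IsLead [Fintype ι] (H : ι → ℕ) (F : MvPowerSeries (ι ⊕ ι) K) (p ω : ℕ) : Prop where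
  low : ∀ δ, MvPowerSeries.coeff δ F ≠ 0 → p ≤ dL δ
  low2 : ∀ δ, MvPowerSeries.coeff δ F ≠ 0 → dL δ = p → ω ≤ wR H δ
  ex : ∃ δ, MvPowerSeries.coeff δ F ≠ 0 ∧ dL δ = p ∧ wR H δ = ω

theorem exists_lead [Fintype ι] (H : ι → ℕ) {F : MvPowerSeries (ι ⊕ ι) K} (hF : F ≠ 0) :
    ∃ p ω, IsLead H F p ω := by
  classical
  have h0 : ∃ p, ∃ δ, MvPowerSeries.coeff δ F ≠ 0 ∧ dL δ = p := by
    by_contra h
    apply hF
    ext δ
    rw [map_zero]
    by_contra h'
    exact h ⟨_, δ, h', rfl⟩
  obtain ⟨δ₁, h1, h1'⟩ := Nat.find_spec h0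
  have hmin : ∀ δ, MvPowerSeries.coeff δ F ≠ 0 → Nat.find h0 ≤ dL δ := fun δ hδ =>
    Nat.find_min' h0 ⟨δ, hδ, rfl⟩
  generalize hp : Nat.find h0 = p at *
  have h2 : ∃ ω, ∃ δ, MvPowerSeries.coeff δ F ≠ 0 ∧ dL δ = p ∧ wR H δ = ω :=
    ⟨_, δ₁, h1, h1', rfl⟩
  obtain ⟨δ₂, h3, h4, h5⟩ := Nat.find_spec h2
  refine ⟨p, Nat.find h2, hmin, ?_, δ₂, h3, h4, h5⟩
  intro δ h6 h7
  exact Nat.find_min' h2 ⟨δ, h6, h7, rfl⟩

/-- the part of a given bidegree -/
noncomputable def inF [Fintype ι] [DecidableEq ι] (H : ι → ℕ) (p ω : ℕ)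
    (F : MvPowerSeries (ι ⊕ ι) K) : MvPolynomial (ι ⊕ ι) K :=
  ∑ δ ∈ (Finset.Iic (Finsupp.equivFunOnFinite.symm
    (Sum.elim (fun _ => p) (fun _ => ω) : ι ⊕ ι → ℕ))).filter
      (fun δ => dL δ = p ∧ wR H δ = ω), monomial δ (MvPowerSeries.coeff δ F)

theorem coeff_inF [Fintype ι] [DecidableEq ι] (H : ι → ℕ) (hH : ∀ i, 0 < H i) (p ω : ℕ)
    (F : MvPowerSeries (ι ⊕ ι) K) (δ : ι ⊕ ι →₀ ℕ) : coeff δ (inF H p ω F) =
      if dL δ = p ∧ wR H δ = ω then MvPowerSeries.coeff δ F else 0 := by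
  classical
  unfold inF
  rw [coeff_sum]
  by_cases h : dL δ = p ∧ wR H δ = ω
  · rw [if_pos h, Finset.sum_eq_single_of_mem δ]
    · rw [coeff_monomial, if_pos rfl]
    · rw [Finset.mem_filter, Finset.mem_Iic]
      refine ⟨?_, h⟩
      intro x
      rcases x with x | x
      · have h1 : δ (Sum.inl x) ≤ dL δ :=
          Finset.single_le_sum (f := fun i => δ (Sum.inl i)) (fun _ _ => Nat.zero_le _)
            (Finset.mem_univ x)
        rw [h.1] at h1
        exact h1
      · have h1 : δ (Sum.inr x) * H x ≤ wR H δ :=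
          Finset.single_le_sum (f := fun i => δ (Sum.inr i) * H i) (fun _ _ => Nat.zero_le _)
            (Finset.mem_univ x)
        rw [h.2] at h1
        exact le_trans (Nat.le_mul_of_pos_right _ (hH x)) h1
    · intro b _ hb
      rw [coeff_monomial, if_neg hb]
  · rw [if_neg h]
    refine Finset.sum_eq_zero fun b hb => ?_
    rw [coeff_monomial, if_neg]
    rintro rfl
    exact h (Finset.mem_filter.mp hb).2

theorem IsLead.inF_ne [Fintype ι] [DecidableEq ι] {H : ι → ℕ} (hH : ∀ i, 0 < H i)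
    {F : MvPowerSeries (ι ⊕ ι) K} {p ω : ℕ} (h : IsLead H F p ω) : inF H p ω F ≠ 0 := by
  obtain ⟨δ, h1, h2, h3⟩ := h.ex
  intro h0
  have h4 := coeff_inF H hH p ω F δ
  rw [h0, coeff_zero, if_pos ⟨h2, h3⟩] at h4
  exact h1 h4.symm

/-- the exponents of a product -/
theorem IsLead.mul_low [Fintype ι] [DecidableEq ι] {H : ι → ℕ} {F G : MvPowerSeries (ι ⊕ ι) K}
    {p ω p' ω' : ℕ} (hF : IsLead H F p ω) (hG : IsLead H G p' ω') {δ : ι ⊕ ι →₀ ℕ}
    (hδ : MvPowerSeries.coeff δ (F * G) ≠ 0) (hd : dL δ = p + p') : ω + ω' ≤ wR H δ := by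
  classical
  rw [MvPowerSeries.coeff_mul] at hδ
  obtain ⟨x, hx, hx'⟩ := Finset.exists_ne_zero_of_sum_ne_zero hδ
  rw [Finset.HasAntidiagonal.mem_antidiagonal] at hx
  have h1 := left_ne_zero_of_mul hx'
  have h2 := right_ne_zero_of_mul hx'
  have h3 := hF.low _ h1
  have h4 := hG.low _ h2
  rw [← hx, dL_add] at hd
  have h5 := hF.low2 _ h1 (by omega)
  have h6 := hG.low2 _ h2 (by omega)
  rw [← hx, wR_add]
  omega

theorem IsLead.mul_inF [Fintype ι] [DecidableEq ι] {H : ι → ℕ} (hH : ∀ i, 0 < H i)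
    {F G : MvPowerSeries (ι ⊕ ι) K} {p ω p' ω' : ℕ} (hF : IsLead H F p ω)
    (hG : IsLead H G p' ω') (δ : ι ⊕ ι →₀ ℕ) :
    coeff δ (inF H p ω F * inF H p' ω' G) =
      if dL δ = p + p' ∧ wR H δ = ω + ω' then MvPowerSeries.coeff δ (F * G) else 0 := by
  classical
  rw [coeff_mul]
  by_cases h : dL δ = p + p' ∧ wR H δ = ω + ω'
  · rw [if_pos h, MvPowerSeries.coeff_mul]
    refine Finset.sum_congr rfl fun x hx => ?_
    rw [Finset.HasAntidiagonal.mem_antidiagonal] at hx
    rw [coeff_inF H hH, coeff_inF H hH]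
    have hd := h.1
    have hw := h.2
    rw [← hx, dL_add] at hd
    rw [← hx, wR_add] at hw
    by_cases h0 : MvPowerSeries.coeff x.1 F * MvPowerSeries.coeff x.2 G = 0
    · rw [h0]
      split_ifs
      · exact h0
      · exact mul_zero _
      · exact zero_mul _
      · exact mul_zero _
    · have h1 := left_ne_zero_of_mul h0
      have h2 := right_ne_zero_of_mul h0
      have h3 := hF.low _ h1
      have h4 := hG.low _ h2
      have h5 := hF.low2 _ h1 (by omega)
      have h6 := hG.low2 _ h2 (by omega)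
      rw [if_pos ⟨by omega, by omega⟩, if_pos ⟨by omega, by omega⟩]
  · rw [if_neg h]
    refine Finset.sum_eq_zero fun x hx => ?_
    rw [Finset.HasAntidiagonal.mem_antidiagonal] at hx
    rw [coeff_inF H hH, coeff_inF H hH]
    by_cases h1 : dL x.1 = p ∧ wR H x.1 = ω
    · by_cases h2 : dL x.2 = p' ∧ wR H x.2 = ω'
      · exfalso
        apply h
        rw [← hx, dL_add, wR_add, h1.1, h1.2, h2.1, h2.2]
        exact ⟨rfl, rfl⟩
      · rw [if_neg h2, mul_zero]
    · rw [if_neg h1, zero_mul]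

theorem coeff_inZ [Finite ι] [DecidableEq ι] (f : MvPowerSeries ι K) (β γ : ι →₀ ℕ) :
    MvPowerSeries.coeff (Finsupp.sumElim β γ) (inZ f : MvPowerSeries (ι ⊕ ι) K) =
      if β = 0 then MvPowerSeries.coeff γ f else 0 := by
  classical
  unfold inZ
  split_ifs with h
  · subst h
    have h1 : Finsupp.sumElim (0 : ι →₀ ℕ) γ =
        Finsupp.embDomain (⟨Sum.inr, Sum.inr_injective⟩ : ι ↪ ι ⊕ ι) γ := by
      rw [Finsupp.embDomain_eq_mapDomain, Finsupp.sumElim_eq_add, Finsupp.mapDomain_zero,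
        zero_add]
      rfl
    rw [h1]
    exact MvPowerSeries.coeff_embDomain_rename
      (⟨Sum.inr, Sum.inr_injective⟩ : ι ↪ ι ⊕ ι) f γ
  · refine MvPowerSeries.coeff_rename_eq_zero _ f ?_
    rintro ⟨x, hx⟩
    apply h
    ext i
    have h1 := DFunLike.congr_fun hx (Sum.inl i)
    rw [Finsupp.sumElim_inl] at h1
    rw [← h1, Finsupp.mapDomain_of_notMem_range]
    · rfl
    · rintro ⟨y, hy⟩
      exact Sum.inr_ne_inl hy

/-- polynomials with coefficients in the power series as power series -/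
noncomputable def Th [Finite ι] :
    MvPolynomial ι (MvPowerSeries ι K) →+* MvPowerSeries (ι ⊕ ι) K :=
  eval₂Hom ((MvPowerSeries.rename (R := K) (Sum.inr : ι → ι ⊕ ι)) :
    MvPowerSeries ι K →+* MvPowerSeries (ι ⊕ ι) K) (fun i => MvPowerSeries.X (Sum.inl i))

theorem Th_W [Finite ι] (Ξ : ι → MvPowerSeries ι K) (N : MvPolynomial ι ℤ) :
    Th (BD.W Ξ N) = aeval (gpt Ξ) N := by
  have h : (Th (ι := ι) (K := K)).comp (BD.W Ξ).toRingHom =
      (aeval (gpt Ξ) : MvPolynomial ι ℤ →ₐ[ℤ] MvPowerSeries (ι ⊕ ι) K).toRingHom := by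
    apply MvPolynomial.ringHom_ext
    · intro r
      simp
    · intro i
      simp [BD.W, Th, gpt, inZ]
  exact congrArg (fun φ => φ N) h

theorem prod_X [Fintype ι] (m : ι →₀ ℕ) :
    (m.prod fun i k => (MvPowerSeries.X (Sum.inl i) : MvPowerSeries (ι ⊕ ι) K) ^ k) =
      MvPowerSeries.monomial (Finsupp.sumElim m 0) 1 := by
  classical
  have h1 : (m.prod fun i k => (MvPowerSeries.X (Sum.inl i) : MvPowerSeries (ι ⊕ ι) K) ^ k) =
      (((monomial (Finsupp.sumElim m 0) 1 : MvPolynomial (ι ⊕ ι) K)) :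
        MvPowerSeries (ι ⊕ ι) K) := by
    have h2 : (monomial (Finsupp.sumElim m 0) 1 : MvPolynomial (ι ⊕ ι) K) =
        m.prod fun i k => (X (Sum.inl i) : MvPolynomial (ι ⊕ ι) K) ^ k := by
      rw [monomial_eq, C_1, one_mul, Finsupp.prod_fintype _ _ (fun i => pow_zero _),
        Finsupp.prod_fintype _ _ (fun i => pow_zero _), Fintype.prod_sum_type]
      simp
    rw [h2]
    have h3 := map_finsuppProd (MvPolynomial.coeToMvPowerSeries.ringHom (σ := ι ⊕ ι) (R := K)) m
      (fun i k => (X (Sum.inl i) : MvPolynomial (ι ⊕ ι) K) ^ k)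
    refine Eq.trans ?_ h3.symm
    refine Finsupp.prod_congr fun i _ => ?_
    simp
  rw [h1, coe_monomial]

theorem coeff_Th [Fintype ι] (F : MvPolynomial ι (MvPowerSeries ι K)) (α γ : ι →₀ ℕ) :
    MvPowerSeries.coeff (Finsupp.sumElim α γ) (Th F) =
      MvPowerSeries.coeff γ (coeff α F) := by
  classical
  induction F using MvPolynomial.induction_on' with
  | monomial m f =>
    have h1 : Th (monomial m f) = (inZ f : MvPowerSeries (ι ⊕ ι) K) *
        MvPowerSeries.monomial (Finsupp.sumElim m 0) 1 := by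
      unfold Th
      rw [eval₂Hom_monomial, prod_X]
      rfl
    rw [h1, MvPowerSeries.coeff_mul_monomial, coeff_monomial]
    by_cases hm : m = α
    · subst hm
      rw [if_pos rfl, if_pos]
      · have h2 : Finsupp.sumElim m γ - Finsupp.sumElim m 0 =
            (Finsupp.sumElim 0 γ : ι ⊕ ι →₀ ℕ) := by
          ext x
          rcases x with x | x <;> simp
        rw [h2, coeff_inZ, if_pos rfl, mul_one]
      · intro x
        rcases x with x | x <;> simp
    · rw [if_neg hm, map_zero]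
      split_ifs with h3
      · have h2 : Finsupp.sumElim α γ - Finsupp.sumElim m 0 =
            (Finsupp.sumElim (α - m) γ : ι ⊕ ι →₀ ℕ) := by
          ext x
          rcases x with x | x <;> simp
        rw [h2, coeff_inZ, if_neg, zero_mul]
        intro h4
        apply hm
        ext i
        have h5 := DFunLike.congr_fun h4 i
        have h6 := h3 (Sum.inl i)
        simp only [Finsupp.sumElim_inl] at h6
        rw [Finsupp.tsub_apply, Finsupp.zero_apply] at h5
        omega
      · rfl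
  | add f g hf hg =>
    rw [map_add, map_add, hf, hg, coeff_add, map_add]

theorem coeff_gpt [Fintype ι] (Ξ : ι → MvPowerSeries ι K) (N : MvPolynomial ι ℤ)
    (α γ : ι →₀ ℕ) :
    MvPowerSeries.coeff (Finsupp.sumElim α γ) (aeval (gpt Ξ) N) =
      MvPowerSeries.coeff γ (coeff α (BD.W Ξ N)) := by
  rw [← Th_W, coeff_Th]

end

end SA

open SA in
theorem init_forms {ι : Type} [Fintype ι] [DecidableEq ι] {K : Type} [Field K] [CharZero K]
    (I : Finset ι) (P : ι → K) (g : ι → MvPolynomial ι ℤ) (Ξ : ι → MvPowerSeries ι K)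
    (hΞ : IsBranch I P g Ξ) (H : ι → ℕ) (hH : ∀ i, 0 < H i) (N : MvPolynomial ι ℤ) (hN : N ≠ 0)
    (V V' : MvPowerSeries (ι ⊕ ι) K) (hVN : V * V' = aeval (gpt Ξ) N)
    (hV : ∀ δ : ι ⊕ ι →₀ ℕ, (∃ i, i ∉ I ∧ δ (Sum.inr i) ≠ 0) → MvPowerSeries.coeff δ V = 0)
    (hinv : ∀ i ∈ I, MvPowerSeries.pderiv K (Sum.inr i) V =
      ∑ i', inZ (MvPowerSeries.pderiv K i (Ξ i')) * MvPowerSeries.pderiv K (Sum.inl i') V) :
    ∃ (p : ℕ) (γ : ι →₀ ℕ) (L : MvPolynomial ι K), L ≠ 0 ∧ L.IsHomogeneous p ∧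
      (∀ i, i ∉ I → γ i = 0) ∧ (∀ α, coeff α L ≠ 0 → ∀ i, α i ≤ N.degreeOf i) ∧
      (∀ i ∈ I, ∑ i', C (MvPowerSeries.coeff (Finsupp.single i 1) (Ξ i')) * pderiv i' L = 0) ∧
      (∃ α : ι →₀ ℕ, aeval Ξ (hs α N) ≠ 0 ∧
        ∀ γ', wt H γ' < wt H γ → MvPowerSeries.coeff γ' (aeval Ξ (hs α N)) = 0) ∧
      ∀ α : ι →₀ ℕ, α.degree = p → coeff α L = MvPowerSeries.coeff (Finsupp.sumElim α γ) V := by
  classical
  have hNN : (aeval (gpt Ξ) N : MvPowerSeries (ι ⊕ ι) K) ≠ 0 := by
    intro h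
    apply BD.W_ne Ξ N hN
    ext α γ
    rw [← coeff_gpt, h, map_zero, coeff_zero, map_zero]
  have hV0 : V ≠ 0 := by
    rintro rfl
    rw [zero_mul] at hVN
    exact hNN hVN.symm
  have hV0' : V' ≠ 0 := by
    rintro rfl
    rw [mul_zero] at hVN
    exact hNN hVN.symm
  obtain ⟨p, ω, hl⟩ := exists_lead H hV0
  obtain ⟨p', ω', hl'⟩ := exists_lead H hV0'
  obtain ⟨δ₀, hδ1, hδ2, hδ3⟩ := hl.ex
  obtain ⟨α₀, γ, rfl⟩ := split δ₀
  rw [dL_sumElim] at hδ2
  rw [wR_sumElim] at hδ3
  set A := inF H p ω V with hA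
  set B := inF H p' ω' V' with hB
  have hAne : A ≠ 0 := hl.inF_ne hH
  have hBne : B ≠ 0 := hl'.inF_ne hH
  have hAB : ∀ δ, coeff δ (A * B) =
      if dL δ = p + p' ∧ wR H δ = ω + ω' then
        MvPowerSeries.coeff δ (aeval (gpt Ξ) N) else 0 := by
    intro δ
    rw [← hVN]
    exact hl.mul_inF hH hl' δ
  -- the form
  set L : MvPolynomial ι K := ∑ α ∈ (Finset.univ : Finset ι).finsuppAntidiag p,
    monomial α (MvPowerSeries.coeff (Finsupp.sumElim α γ) V) with hL
  have hLc : ∀ α, coeff α L = if α.degree = p then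
      MvPowerSeries.coeff (Finsupp.sumElim α γ) V else 0 := by
    intro α
    rw [hL, coeff_sum]
    by_cases h : α.degree = p
    · rw [if_pos h, Finset.sum_eq_single_of_mem α]
      · rw [coeff_monomial, if_pos rfl]
      · rw [Finset.mem_finsuppAntidiag]
        refine ⟨?_, Finset.subset_univ _⟩
        rw [← h, Finsupp.degree_eq_sum]
      · intro b _ hb
        rw [coeff_monomial, if_neg hb]
    · rw [if_neg h]
      refine Finset.sum_eq_zero fun b hb => ?_
      rw [coeff_monomial, if_neg]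
      rintro rfl
      apply h
      rw [Finset.mem_finsuppAntidiag] at hb
      rw [← hb.1, Finsupp.degree_eq_sum]
  have hLdeg : ∀ α, coeff α L ≠ 0 → α.degree = p ∧
      MvPowerSeries.coeff (Finsupp.sumElim α γ) V ≠ 0 := by
    intro α hα
    rw [hLc] at hα
    by_cases h : α.degree = p
    · rw [if_pos h] at hα
      exact ⟨h, hα⟩
    · rw [if_neg h] at hα
      exact absurd rfl hα
  have hdegN : ∀ δ i, coeff δ (A * B) ≠ 0 → δ (Sum.inl i) ≤ N.degreeOf i := by
    intro δ i hδ
    rw [hAB] at hδ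
    by_cases hc : dL δ = p + p' ∧ wR H δ = ω + ω'
    · rw [if_pos hc] at hδ
      obtain ⟨α, γ', rfl⟩ := split δ
      rw [coeff_gpt] at hδ
      rw [Finsupp.sumElim_inl]
      have h1 : coeff α (BD.W Ξ N) ≠ 0 := by
        intro h
        rw [h, map_zero] at hδ
        exact hδ rfl
      exact (monomial_le_degreeOf i (mem_support_iff.2 h1)).trans (BD.degreeOf_W Ξ N i)
    · rw [if_neg hc] at hδ
      exact absurd rfl hδ
  refine ⟨p, γ, L, ?_, ?_, ?_, ?_, ?_, ?_, ?_⟩
  · intro h
    have h1 := hLc α₀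
    rw [h, coeff_zero, if_pos hδ2] at h1
    exact hδ1 h1.symm
  · intro α hα
    exact (DFunLike.congr_fun Finsupp.degree_eq_weight_one α).symm.trans (hLdeg α hα).1
  · intro i hi
    by_contra h
    exact hδ1 (hV _ ⟨i, hi, h⟩)
  · intro α hα i
    obtain ⟨h1, h2⟩ := hLdeg α hα
    have h3 : coeff (Finsupp.sumElim α γ) A ≠ 0 := by
      rw [hA, coeff_inF H hH, if_pos ⟨by rw [dL_sumElim, h1], by rw [wR_sumElim, hδ3]⟩]
      exact h2
    have h4 : (Finsupp.sumElim α γ : ι ⊕ ι →₀ ℕ) (Sum.inl i) ≤ A.degreeOf (Sum.inl i) :=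
      monomial_le_degreeOf _ (mem_support_iff.2 h3)
    have h5 : A.degreeOf (Sum.inl i) ≤ (A * B).degreeOf (Sum.inl i) := by
      rw [degreeOf_mul_eq hAne hBne]
      exact Nat.le_add_right _ _
    have h6 : (A * B).degreeOf (Sum.inl i) ≤ N.degreeOf i := by
      rw [degreeOf_le_iff]
      intro m hm
      exact hdegN m i (mem_support_iff.1 hm)
    exact h4.trans (h5.trans h6)
  · intro i hi
    ext α
    rw [coeff_zero, coeff_sum]
    have h1 : ∀ i', coeff α (C (MvPowerSeries.coeff (Finsupp.single i 1) (Ξ i')) *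
        pderiv i' L) = MvPowerSeries.coeff (Finsupp.single i 1) (Ξ i') *
          (coeff (α + Finsupp.single i' 1) L * (α i' + 1)) := by
      intro i'
      rw [coeff_C_mul, coeff_pderiv]
    rw [Finset.sum_congr rfl fun i' _ => h1 i']
    by_cases hd : α.degree + 1 = p
    · have h2 := congrArg (MvPowerSeries.coeff (Finsupp.sumElim α γ)) (hinv i hi)
      have h3 : MvPowerSeries.coeff (Finsupp.sumElim α γ)
          (MvPowerSeries.pderiv K (Sum.inr i) V) = 0 := by
        rw [MvPowerSeries.coeff_pderiv]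
        have h4 : MvPowerSeries.coeff (Finsupp.sumElim α γ + Finsupp.single (Sum.inr i) 1) V =
            0 := by
          by_contra h
          have h5 := hl.low _ h
          rw [dL_add, dL_sumElim] at h5
          have h6 : dL (Finsupp.single (Sum.inr i) 1 : ι ⊕ ι →₀ ℕ) = 0 := by
            unfold dL
            simp
          omega
        rw [h4, zero_mul]
      rw [h3, map_sum] at h2
      rw [h2]
      refine Finset.sum_congr rfl fun i' _ => ?_
      have hdeg : (α + Finsupp.single i' 1).degree = p := by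
        rw [map_add, Finsupp.degree_single, hd]
      rw [hLc, if_pos hdeg, MvPowerSeries.coeff_mul, Finset.sum_eq_single
        ((0 : ι ⊕ ι →₀ ℕ), (Finsupp.sumElim α γ : ι ⊕ ι →₀ ℕ))]
      · have h7 : MvPowerSeries.coeff (0 : ι ⊕ ι →₀ ℕ)
            (inZ (MvPowerSeries.pderiv K i (Ξ i')) : MvPowerSeries (ι ⊕ ι) K) =
            MvPowerSeries.coeff (Finsupp.single i 1) (Ξ i') := by
          rw [← Finsupp.sumElim_zero_zero, coeff_inZ, if_pos rfl, MvPowerSeries.coeff_pderiv]
          simp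
        have h8 : (Finsupp.sumElim (α + Finsupp.single i' 1) γ : ι ⊕ ι →₀ ℕ) =
            Finsupp.sumElim α γ + Finsupp.single (Sum.inl i') 1 := by
          ext x
          rcases x with x | x
          · simp [Finsupp.single_apply]
          · simp
        simp only []
        rw [h7, MvPowerSeries.coeff_pderiv, h8, Finsupp.sumElim_inl]
      · intro x hx hne
        rw [Finset.HasAntidiagonal.mem_antidiagonal] at hx
        obtain ⟨β₁, γ₁, h9⟩ := split x.1
        obtain ⟨β₂, γ₂, h10⟩ := split x.2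
        rw [h9, coeff_inZ]
        split_ifs with h11
        · subst h11
          have h12 : γ₁ + γ₂ = γ := by
            ext j
            have := DFunLike.congr_fun hx (Sum.inr j)
            rw [h9, h10] at this
            exact this
          have h13 : β₂ = α := by
            ext j
            have := DFunLike.congr_fun hx (Sum.inl j)
            rw [h9, h10] at this
            simpa using this
          have h14 : γ₁ ≠ 0 := by
            rintro rfl
            apply hne
            rw [zero_add] at h12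
            refine Prod.ext ?_ ?_
            · rw [h9]
              exact Finsupp.sumElim_zero_zero
            · rw [h10, h13, h12]
          have h15 : 0 < wt H γ₁ := by
            obtain ⟨j, hj⟩ := Finsupp.ne_iff.1 h14
            unfold wt
            refine Finset.sum_pos' (fun _ _ => Nat.zero_le _) ⟨j, Finset.mem_univ j, ?_⟩
            exact Nat.mul_pos (Nat.pos_of_ne_zero hj) (hH j)
          have h16 : wt H γ = wt H γ₁ + wt H γ₂ := by
            rw [← h12]
            unfold wt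
            rw [← Finset.sum_add_distrib]
            refine Finset.sum_congr rfl fun j _ => ?_
            rw [Finsupp.add_apply, add_mul]
          have h17 : MvPowerSeries.coeff x.2 (MvPowerSeries.pderiv K (Sum.inl i') V) = 0 := by
            rw [MvPowerSeries.coeff_pderiv]
            have h18 : MvPowerSeries.coeff (x.2 + Finsupp.single (Sum.inl i') 1) V = 0 := by
              by_contra h
              have h19 : dL (x.2 + Finsupp.single (Sum.inl i') 1) = p := by
                rw [h10, h13, dL_add, dL_sumElim]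
                have h20 : dL (Finsupp.single (Sum.inl i') 1 : ι ⊕ ι →₀ ℕ) = 1 := by
                  unfold dL
                  simp [Finsupp.single_apply]
                omega
              have h21 := hl.low2 _ h h19
              rw [wR_add, h10, wR_sumElim] at h21
              have h22 : wR H (Finsupp.single (Sum.inl i') 1 : ι ⊕ ι →₀ ℕ) = 0 := by
                unfold wR
                simp
              omega
            rw [h18, zero_mul]
          rw [h17, mul_zero]
        · rw [zero_mul]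
      · intro h
        exact absurd (Finset.HasAntidiagonal.mem_antidiagonal.2 (zero_add _)) h
    · refine Finset.sum_eq_zero fun i' _ => ?_
      rw [hLc, if_neg, zero_mul, mul_zero]
      rw [map_add, Finsupp.degree_single]
      exact hd
  · obtain ⟨δN, hδN⟩ := MvPolynomial.ne_zero_iff.1 (mul_ne_zero hAne hBne)
    rw [hAB] at hδN
    by_cases hc : dL δN = p + p' ∧ wR H δN = ω + ω'
    · rw [if_pos hc] at hδN
      obtain ⟨α, γ', rfl⟩ := split δN
      rw [coeff_gpt] at hδN
      refine ⟨α, ?_, ?_⟩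
      · intro h
        rw [BD.coeff_W, h, map_zero] at hδN
        exact hδN rfl
      · intro γ'' hw
        by_contra h
        rw [← BD.coeff_W, ← coeff_gpt, ← hVN] at h
        have h1 := hl.mul_low hl' h (by rw [dL_sumElim, ← hc.1, dL_sumElim])
        rw [wR_sumElim] at h1
        omega
    · rw [if_neg hc] at hδN
      exact absurd rfl hδN
  · intro α hα
    rw [hLc, if_pos hα]

end Pool.Agent.PC
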