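import Pool.Agent.Lib.MP_c95b3b_ag_PC.DefsS

/-! Project PC (MP_c95b3b_ag), module SB: linear substitutions. -/

namespace Pool.Agent.PC

open Pool.Agent.L3 Pool.Agent.AL Module MvPolynomial

namespace SB

variable {ι κ : Type} [Fintype ι] [Fintype κ] {K : Type} [Field K] (v : κ → ι → K)

/-- the linear forms -/
noncomputable def T (i : ι) : MvPolynomial κ K := ∑ k, C (v k i) * X k

/-- the family which is substituted -/
noncomputable def fam : ι ⊕ ι → MvPowerSeries (κ ⊕ ι) K :=
  Sum.elim (fun i => ∑ k, MvPowerSeries.C (v k i) * MvPowerSeries.X (Sum.inl k))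
    (fun i => MvPowerSeries.X (Sum.inr i))

/-- the same family in the polynomial ring -/
noncomputable def famP : ι ⊕ ι → MvPolynomial (κ ⊕ ι) K :=
  Sum.elim (fun i => rename Sum.inl (T v i)) (fun i => X (Sum.inr i))

omit [Fintype ι] in
theorem fam_eq (s : ι ⊕ ι) : fam v s = ((famP v s : MvPolynomial (κ ⊕ ι) K) :
    MvPowerSeries (κ ⊕ ι) K) := by
  rcases s with i | i
  · have h1 : famP v (Sum.inl i) = ∑ k, C (v k i) * X (Sum.inl k) := by
      simp [famP, T]
    rw [h1]
    have h2 : ((∑ k, C (v k i) * X (Sum.inl k) : MvPolynomial (κ ⊕ ι) K) :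
        MvPowerSeries (κ ⊕ ι) K) =
        MvPolynomial.coeToMvPowerSeries.ringHom (∑ k, C (v k i) * X (Sum.inl k)) := rfl
    rw [h2, map_sum]
    simp [fam]
  · simp [fam, famP]

omit [Fintype ι] in
theorem const_fam (s : ι ⊕ ι) : MvPowerSeries.constantCoeff (fam v s) = 0 := by
  rcases s with i | i
  · simp [fam]
  · simp [fam]

theorem hasSubst : MvPowerSeries.HasSubst (fam v) :=
  MvPowerSeries.hasSubst_of_constantCoeff_zero (const_fam v)

theorem prod_famP (d : ι ⊕ ι →₀ ℕ) : (d.prod fun s e => famP v s ^ e) =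
    rename Sum.inl (∏ i, T v i ^ d (Sum.inl i)) *
      monomial (Finsupp.sumElim 0 (d.comapDomain Sum.inr Sum.inr_injective.injOn)) 1 := by
  rw [Finsupp.prod_fintype _ _ (by simp), Fintype.prod_sum_type]
  congr 1
  · simp [famP]
  · have h1 : (monomial (Finsupp.sumElim (0 : κ →₀ ℕ)
        (d.comapDomain Sum.inr Sum.inr_injective.injOn)) (1 : K) : MvPolynomial (κ ⊕ ι) K) =
        ∏ s : κ ⊕ ι, X s ^ (Finsupp.sumElim (0 : κ →₀ ℕ)
          (d.comapDomain Sum.inr Sum.inr_injective.injOn)) s := by
      rw [monomial_eq, Finsupp.prod_fintype _ _ (by simp), C_1, one_mul]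
    rw [h1, Fintype.prod_sum_type]
    simp [famP]

theorem coeff_prod [DecidableEq ι] (β : κ →₀ ℕ) (γ : ι →₀ ℕ) (d : ι ⊕ ι →₀ ℕ) :
    MvPowerSeries.coeff (Finsupp.sumElim β γ) (d.prod fun s e => fam v s ^ e) =
      if (d.comapDomain Sum.inr Sum.inr_injective.injOn) = γ then
        coeff β (∏ i, T v i ^ d (Sum.inl i)) else 0 := by
  classical
  have h0 : (d.prod fun s e => fam v s ^ e) =
      ((d.prod fun s e => famP v s ^ e : MvPolynomial (κ ⊕ ι) K) :
        MvPowerSeries (κ ⊕ ι) K) := by
    have h2 : ((d.prod fun s e => famP v s ^ e : MvPolynomial (κ ⊕ ι) K) :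
        MvPowerSeries (κ ⊕ ι) K) =
        MvPolynomial.coeToMvPowerSeries.ringHom (d.prod fun s e => famP v s ^ e) := rfl
    rw [h2, map_finsuppProd]
    refine Finsupp.prod_congr fun s _ => ?_
    rw [map_pow, fam_eq]
    rfl
  rw [h0, coeff_coe, prod_famP, coeff_mul_monomial']
  set γ' := d.comapDomain Sum.inr Sum.inr_injective.injOn with hγ'
  set P := ∏ i, T v i ^ d (Sum.inl i) with hP
  by_cases hle : Finsupp.sumElim (0 : κ →₀ ℕ) γ' ≤ Finsupp.sumElim β γ
  · rw [if_pos hle, mul_one]
    have hsub : Finsupp.sumElim β γ - Finsupp.sumElim (0 : κ →₀ ℕ) γ' =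
        Finsupp.sumElim β (γ - γ') := by
      ext s
      rcases s with k | i
      · simp
      · simp
    rw [hsub]
    by_cases h : γ' = γ
    · rw [if_pos h, h]
      have h3 : Finsupp.sumElim β (γ - γ) = β.mapDomain (Sum.inl : κ → κ ⊕ ι) := by
        ext s
        rcases s with k | i
        · rw [Finsupp.sumElim_inl, Finsupp.mapDomain_apply Sum.inl_injective]
        · rw [Finsupp.sumElim_inr, Finsupp.mapDomain_of_notMem_range _ _ (by simp)]
          simp
      rw [h3, coeff_rename_mapDomain _ Sum.inl_injective]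
    · rw [if_neg h]
      apply coeff_rename_eq_zero
      intro u hu
      exfalso
      apply h
      ext i
      have h4 := DFunLike.congr_fun hu (Sum.inr i)
      rw [Finsupp.mapDomain_of_notMem_range _ _ (by simp), Finsupp.sumElim_inr] at h4
      have h5 := hle (Sum.inr i)
      rw [Finsupp.sumElim_inr, Finsupp.sumElim_inr] at h5
      rw [Finsupp.tsub_apply] at h4
      omega
  · rw [if_neg hle, if_neg]
    intro h
    apply hle
    rw [h]
    intro s
    rcases s with k | i
    · rw [Finsupp.sumElim_inl]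
      exact Nat.zero_le _
    · rw [Finsupp.sumElim_inr, Finsupp.sumElim_inr]

/-- products of linear forms -/
theorem degree_eq (β : κ →₀ ℕ) (α : ι → ℕ) (h : coeff β (∏ i, T v i ^ α i) ≠ 0) :
    β.degree = ∑ i, α i := by
  classical
  have h1 : (∏ i, T v i ^ α i).IsHomogeneous (∑ i, 1 * α i) := by
    refine IsHomogeneous.prod _ _ _ fun i _ => ?_
    refine IsHomogeneous.pow ?_ _
    refine IsHomogeneous.sum _ _ _ fun k _ => ?_
    simpa using (isHomogeneous_C κ (v k i)).mul (isHomogeneous_X K k)
  have h2 := h1 h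
  refine ((DFunLike.congr_fun Finsupp.degree_eq_weight_one β).trans h2).trans ?_
  simp

theorem formula [DecidableEq ι] (V : MvPowerSeries (ι ⊕ ι) K) (β : κ →₀ ℕ) (γ : ι →₀ ℕ)
    (L : MvPolynomial ι K) (hL : L.IsHomogeneous β.degree)
    (hc : ∀ α : ι →₀ ℕ, α.degree = β.degree →
      coeff α L = MvPowerSeries.coeff (Finsupp.sumElim α γ) V) :
    MvPowerSeries.coeff (Finsupp.sumElim β γ) (MvPowerSeries.subst (fam v) V) =
      coeff β (aeval (fun i => T v i) L) := by
  classical
  rw [MvPowerSeries.coeff_subst (hasSubst v)]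
  have hinj : Function.Injective (fun α : ι →₀ ℕ => Finsupp.sumElim α γ) := by
    intro α α' h
    ext i
    have := DFunLike.congr_fun h (Sum.inl i)
    simpa using this
  rw [finsum_eq_sum_of_support_subset (s := L.support.image fun α => Finsupp.sumElim α γ)]
  · rw [Finset.sum_image (fun a _ b _ h => hinj h), aeval_def, eval₂_eq', coeff_sum]
    refine Finset.sum_congr rfl fun α hα => ?_
    have h1 : α.degree = β.degree := by
      have h2 := hL (MvPolynomial.mem_support_iff.1 hα)
      exact (DFunLike.congr_fun Finsupp.degree_eq_weight_one α).trans h2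
    rw [coeff_prod, if_pos (by ext i; simp), ← hc α h1, smul_eq_mul, algebraMap_eq, coeff_C_mul]
    simp
  · intro d hd
    rw [Function.mem_support, coeff_prod] at hd
    have h1 : d.comapDomain Sum.inr Sum.inr_injective.injOn = γ := by
      by_contra h
      rw [if_neg h, smul_zero] at hd
      exact hd rfl
    rw [if_pos h1] at hd
    have h2 : MvPowerSeries.coeff d V ≠ 0 := left_ne_zero_of_smul hd
    have h3 := degree_eq v β _ (right_ne_zero_of_smul hd)
    set α : ι →₀ ℕ := d.comapDomain Sum.inl Sum.inl_injective.injOn with hα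
    have h4 : Finsupp.sumElim α γ = d := by
      ext s
      rcases s with i | i
      · simp [hα]
      · rw [← h1]
        simp
    have h5 : α.degree = β.degree := by
      rw [h3, Finsupp.degree_eq_sum]
      refine Finset.sum_congr rfl fun i _ => ?_
      simp [hα]
    rw [Finset.mem_coe, Finset.mem_image]
    refine ⟨α, ?_, h4⟩
    rw [MvPolynomial.mem_support_iff, hc α h5, h4]
    exact h2

end SB

theorem exists_lin {ι κ : Type} [Fintype ι] [DecidableEq ι] [Fintype κ] [DecidableEq κ]
    {K : Type} [Field K] (v : κ → ι → K) :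
    ∃ Φ : MvPowerSeries (ι ⊕ ι) K →ₐ[K] MvPowerSeries (κ ⊕ ι) K,
      (∀ i, Φ (MvPowerSeries.X (Sum.inl i)) =
        ∑ k, MvPowerSeries.C (v k i) * MvPowerSeries.X (Sum.inl k)) ∧
      (∀ F : MvPowerSeries ι K, Φ (inZ F) = inZ F) ∧
      (∀ F, MvPowerSeries.constantCoeff (Φ F) = MvPowerSeries.constantCoeff F) ∧
      (∀ (c : PowerSeries K) (u : MvPowerSeries (ι ⊕ ι) K), MvPowerSeries.constantCoeff u = 0 →
        Φ (PowerSeries.subst u c) = PowerSeries.subst (Φ u) c) ∧
      ∀ (V : MvPowerSeries (ι ⊕ ι) K) (β : κ →₀ ℕ) (γ : ι →₀ ℕ) (L : MvPolynomial ι K),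
        L.IsHomogeneous β.degree →
        (∀ α : ι →₀ ℕ, α.degree = β.degree →
          coeff α L = MvPowerSeries.coeff (Finsupp.sumElim α γ) V) →
        MvPowerSeries.coeff (Finsupp.sumElim β γ) (Φ V) =
          coeff β (aeval (fun i => (∑ k, C (v k i) * X k : MvPolynomial κ K)) L) := by
  have ha := SB.hasSubst v
  refine ⟨MvPowerSeries.substAlgHom (R := K) ha, ?_, ?_, ?_, ?_, ?_⟩
  · intro i
    rw [MvPowerSeries.substAlgHom_X]
    rfl
  · intro F
    unfold inZ
    rw [MvPowerSeries.rename_eq_subst, MvPowerSeries.rename_eq_subst,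
      MvPowerSeries.substAlgHom_apply,
      MvPowerSeries.subst_comp_subst_apply (MvPowerSeries.HasSubst.X_comp _) ha]
    congr 1
    funext i
    rw [Function.comp_apply, MvPowerSeries.subst_X ha]
    rfl
  · intro F
    rw [MvPowerSeries.substAlgHom_apply]
    have h1 : F = MvPowerSeries.C (MvPowerSeries.constantCoeff F) +
        (F - MvPowerSeries.C (MvPowerSeries.constantCoeff F)) := by ring
    have h2 : MvPowerSeries.constantCoeff
        (F - MvPowerSeries.C (MvPowerSeries.constantCoeff F)) = 0 := by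
      rw [map_sub, MvPowerSeries.constantCoeff_C, sub_self]
    conv_lhs => rw [h1, MvPowerSeries.subst_add ha, map_add, MvPowerSeries.subst_C,
      MvPowerSeries.constantCoeff_C,
      MvPowerSeries.constantCoeff_subst_eq_zero ha (SB.const_fam v) h2, add_zero]
  · intro c u hu
    have hu' : PowerSeries.HasSubst u := PowerSeries.HasSubst.of_constantCoeff_zero hu
    rw [MvPowerSeries.substAlgHom_apply, MvPowerSeries.substAlgHom_apply, PowerSeries.subst_def,
      PowerSeries.subst_def, MvPowerSeries.subst_comp_subst_apply hu'.const ha]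
  · intro V β γ L hL hc
    rw [MvPowerSeries.substAlgHom_apply]
    exact SB.formula v V β γ L hL hc

end Pool.Agent.PC
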