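import Pool.Agent.Lib.MP_c95b3b_ag_PC.Defs
import Pool.Agent.Lib.MP_c95b3b_ag_AL.ZA

/-! Project PC (MP_c95b3b_ag), module YA: Taylor series, universal numerators. -/

namespace Pool.Agent.PC

open Pool.Agent.L3 Pool.Agent.AL Module MvPolynomial

namespace YA

/-- the ring of the coefficients -/
abbrev R : Type := MvPolynomial (Fin 2) ℤ

/-- the shifted polynomial -/
noncomputable def F (f : R) : MvPolynomial (Fin 2) R :=
  aeval (fun i => (C (X i) + X i : MvPolynomial (Fin 2) R)) f

theorem rescale_C {K : Type} [Field K] (a c : K) :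
    PowerSeries.rescale a (PowerSeries.C c) = PowerSeries.C c := by
  ext n
  rw [PowerSeries.coeff_rescale, PowerSeries.coeff_C]
  split
  · rename_i h
    rw [h, pow_zero, one_mul]
  · rw [mul_zero]

/-- the Taylor expansion -/
theorem taylor (f : R) {B : Type} [CommRing B] [Algebra ℤ B] (u v : Fin 2 → B) :
    aeval (fun i => u i + v i) f =
      eval₂Hom ((aeval u : R →ₐ[ℤ] B) : R →+* B) v (F f) := by
  unfold F
  induction f using MvPolynomial.induction_on with
  | C a => simp
  | add p q hp hq => rw [map_add, map_add, map_add, hp, hq]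
  | mul_X p i hp =>
    rw [map_mul, map_mul, map_mul, hp]
    simp

/-- the Taylor expansion as a sum -/
theorem taylor_sum (f : R) {B : Type} [CommRing B] [Algebra ℤ B] (u v : Fin 2 → B) :
    aeval (fun i => u i + v i) f =
      ∑ α ∈ (F f).support, aeval u (coeff α (F f)) * (v 0 ^ α 0 * v 1 ^ α 1) := by
  rw [taylor, coe_eval₂Hom, eval₂_eq']
  refine Finset.sum_congr rfl (fun α _ => ?_)
  rw [Fin.prod_univ_two]
  rfl

theorem coeff_zero_F (f : R) : coeff 0 (F f) = f := by
  unfold F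
  induction f using MvPolynomial.induction_on with
  | C a =>
    rw [algHom_C, MvPolynomial.algebraMap_apply, coeff_zero_C]
    rfl
  | add p q hp hq => rw [map_add, coeff_add, hp, hq]
  | mul_X p i hp =>
    rw [map_mul, aeval_X, mul_add, coeff_add, mul_comm _ (C _), coeff_C_mul, hp, coeff_mul_X']
    simp [mul_comm]

theorem coeff_one_F (f : R) : coeff (Finsupp.single 1 1) (F f) = pderiv 1 f := by
  have h0 := coeff_zero_F
  unfold F at h0 ⊢
  induction f using MvPolynomial.induction_on with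
  | C a =>
    rw [algHom_C, MvPolynomial.algebraMap_apply, pderiv_C]
    rw [coeff_C, if_neg]
    intro h
    have := DFunLike.congr_fun h 1
    simp at this
  | add p q hp hq => rw [map_add, coeff_add, hp, hq, map_add]
  | mul_X p i hp =>
    rw [map_mul, aeval_X, mul_add, coeff_add, mul_comm _ (C _), coeff_C_mul, hp, coeff_mul_X',
      Derivation.leibniz]
    by_cases hi : i = 1
    · subst hi
      rw [if_pos (by simp), tsub_self, h0, pderiv_X_self, smul_eq_mul, smul_eq_mul, mul_one,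
        add_comm]
    · rw [if_neg, pderiv_X_of_ne hi, smul_zero, smul_eq_mul, add_zero, zero_add]
      intro h
      rw [Finsupp.mem_support_iff] at h
      exact h (Finsupp.single_eq_of_ne hi)

/-- the exponents of the other terms -/
noncomputable def S (f : R) : Finset (Fin 2 →₀ ℕ) := by
  classical
  exact (F f).support.filter (fun α => α ≠ 0 ∧ α ≠ Finsupp.single 1 1)

theorem mem_S {f : R} {α : Fin 2 →₀ ℕ} (h : α ∈ S f) : 1 ≤ α 0 ∨ 2 ≤ α 1 := by
  classical
  unfold S at h
  rw [Finset.mem_filter] at h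
  obtain ⟨-, h0, h1⟩ := h
  by_contra hc
  push Not at hc
  obtain ⟨ha, hb⟩ := hc
  have h2 : α 1 = 0 ∨ α 1 = 1 := by omega
  rcases h2 with h2 | h2
  · apply h0
    ext i
    fin_cases i
    · simp
      omega
    · simpa using h2
  · apply h1
    ext i
    fin_cases i
    · simp
      omega
    · simpa using h2

/-- splitting of the sum -/
theorem sum_split (f : R) {B : Type} [CommRing B] (g : (Fin 2 →₀ ℕ) → B)
    (hg : ∀ α, coeff α (F f) = 0 → g α = 0) :
    ∑ α ∈ (F f).support, g α = g 0 + g (Finsupp.single 1 1) + ∑ α ∈ S f, g α := by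
  classical
  have hne : (0 : Fin 2 →₀ ℕ) ≠ Finsupp.single 1 1 := by
    intro h
    have := DFunLike.congr_fun h 1
    simp at this
  have h0 : (0 : Fin 2 →₀ ℕ) ∉ S f := by
    unfold S
    simp
  have h1 : (Finsupp.single 1 1 : Fin 2 →₀ ℕ) ∉ S f := by
    unfold S
    simp
  have h2 : (0 : Fin 2 →₀ ℕ) ∉ insert (Finsupp.single 1 1) (S f) := by
    rw [Finset.mem_insert, not_or]
    exact ⟨hne, h0⟩
  have h3 : (F f).support ⊆ insert 0 (insert (Finsupp.single 1 1) (S f)) := by
    intro α hα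
    rw [Finset.mem_insert, Finset.mem_insert]
    by_cases ha : α = 0
    · exact Or.inl ha
    · by_cases hb : α = Finsupp.single 1 1
      · exact Or.inr (Or.inl hb)
      · refine Or.inr (Or.inr ?_)
        unfold S
        rw [Finset.mem_filter]
        exact ⟨hα, ha, hb⟩
  rw [Finset.sum_subset h3 (fun α _ hα => hg α (notMem_support_iff.mp hα)),
    Finset.sum_insert h2, Finset.sum_insert h1]
  ring

end YA

theorem tay_unique {K : Type} [Field K] (f : MvPolynomial (Fin 2) ℤ) (x y : K)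
    (η η' : PowerSeries K) (h : IsTay f x y η) (h' : IsTay f x y η')
    (hd : aeval ![x, y] (pderiv 1 f) ≠ 0) : η = η' := by
  classical
  set u : Fin 2 → PowerSeries K := ![PowerSeries.C x + PowerSeries.X, η] with hu
  set d : PowerSeries K := η' - η with hdd
  set v : Fin 2 → PowerSeries K := ![0, d] with hv
  have h1 : (fun i => u i + v i) = ![PowerSeries.C x + PowerSeries.X, η'] := by
    funext i
    fin_cases i
    · simp [hu, hv]
    · simp [hu, hv, hdd]
  have h2 := YA.taylor_sum f u v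
  rw [h1, h'.root, YA.sum_split f (fun α => aeval u (coeff α (YA.F f)) *
    (v 0 ^ α 0 * v 1 ^ α 1)) (fun α hα => by rw [hα, map_zero, zero_mul]),
    YA.coeff_zero_F, YA.coeff_one_F] at h2
  have h3 : d ^ 2 ∣ ∑ α ∈ YA.S f, aeval u (coeff α (YA.F f)) * (v 0 ^ α 0 * v 1 ^ α 1) := by
    refine Finset.dvd_sum (fun α hα => ?_)
    have hv0 : v 0 = 0 := rfl
    have hv1 : v 1 = d := rfl
    rw [hv0, hv1]
    rcases YA.mem_S hα with h4 | h4
    · rw [zero_pow (by omega), zero_mul, mul_zero]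
      exact dvd_zero _
    · exact Dvd.dvd.mul_left (Dvd.dvd.mul_left (pow_dvd_pow d h4) _) _
  obtain ⟨k, hk⟩ := h3
  rw [hk] at h2
  have hr : aeval u f = 0 := h.root
  have hv1 : v 1 = d := rfl
  have h4 : d * (aeval u (pderiv 1 f) + d * k) = 0 := by
    have : (Finsupp.single 1 1 : Fin 2 →₀ ℕ) 0 = 0 := by simp
    rw [hr, this, Finsupp.single_eq_same, hv1, zero_mul, pow_zero, pow_one, one_mul, zero_add]
      at h2
    rw [h2]
    ring
  have h5 : PowerSeries.constantCoeff (aeval u (pderiv 1 f) + d * k) ≠ 0 := by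
    have h6 : PowerSeries.constantCoeff (aeval u (pderiv 1 f)) =
        aeval ![x, y] (pderiv 1 f) := by
      have h7 : (PowerSeries.constantCoeff : PowerSeries K →+* K).comp
          ((aeval u : YA.R →ₐ[ℤ] PowerSeries K) : YA.R →+* PowerSeries K) =
          ((aeval ![x, y] : YA.R →ₐ[ℤ] K) : YA.R →+* K) := by
        refine MvPolynomial.ringHom_ext (fun r => by simp) (fun i => ?_)
        fin_cases i
        · simp [hu]
        · simp [hu, h.const]
      exact DFunLike.congr_fun h7 (pderiv 1 f)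
    rw [map_add, map_mul, h6, hdd, map_sub, h.const, h'.const, sub_self, zero_mul, add_zero]
    exact hd
  have h8 : aeval u (pderiv 1 f) + d * k ≠ 0 := by
    intro h9
    rw [h9, map_zero] at h5
    exact h5 rfl
  have h9 : d = 0 := (mul_eq_zero.mp h4).resolve_right h8
  rw [hdd, sub_eq_zero] at h9
  exact h9.symm

namespace YA

/-- the numerators of the Taylor coefficients -/
noncomputable def G (f : R) (α : Fin 2 →₀ ℕ) : R :=
  coeff α (F f) * (pderiv 1 f) ^ (2 * α 0 + α 1 - 2)

/-- the operator whose fixed point is the universal series -/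
noncomputable def Phi (f : R) (H : PowerSeries R) : PowerSeries R :=
  -∑ α ∈ S f, PowerSeries.C (G f α) * (PowerSeries.X ^ α 0 * H ^ α 1)

theorem Phi_zero {f : R} {H : PowerSeries R} (h : (PowerSeries.X : PowerSeries R) ∣ H) :
    (PowerSeries.X : PowerSeries R) ∣ Phi f H := by
  unfold Phi
  rw [dvd_neg]
  refine Finset.dvd_sum (fun α hα => Dvd.dvd.mul_left ?_ _)
  rcases mem_S hα with h1 | h1
  · exact Dvd.dvd.mul_right (dvd_pow_self _ (by omega)) _
  · exact Dvd.dvd.mul_left (dvd_pow h (by omega)) _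

theorem Phi_sub {f : R} {H H' : PowerSeries R} (h : (PowerSeries.X : PowerSeries R) ∣ H)
    (h' : (PowerSeries.X : PowerSeries R) ∣ H') (n : ℕ)
    (hn : (PowerSeries.X : PowerSeries R) ^ n ∣ H - H') :
    (PowerSeries.X : PowerSeries R) ^ (n + 1) ∣ Phi f H - Phi f H' := by
  unfold Phi
  rw [neg_sub_neg, ← Finset.sum_sub_distrib]
  refine Finset.dvd_sum (fun α hα => ?_)
  rw [← mul_sub, ← mul_sub]
  refine Dvd.dvd.mul_left ?_ _
  have h2 : (PowerSeries.X : PowerSeries R) ^ n ∣ H' - H := by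
    rw [← neg_sub, dvd_neg]
    exact hn
  rcases mem_S hα with h1 | h1
  · rw [pow_succ']
    exact mul_dvd_mul (dvd_pow_self _ (by omega))
      (h2.trans (sub_dvd_pow_sub_pow _ _ _))
  · refine Dvd.dvd.mul_left ?_ _
    rw [← Commute.mul_geom_sum₂ (Commute.all H' H) (α 1), pow_succ]
    refine mul_dvd_mul h2 (Finset.dvd_sum (fun i hi => ?_))
    rw [Finset.mem_range] at hi
    by_cases h3 : i = 0
    · exact Dvd.dvd.mul_left (dvd_pow h (by omega)) _
    · exact Dvd.dvd.mul_right (dvd_pow h' h3) _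

/-- the iterates -/
noncomputable def It (f : R) : ℕ → PowerSeries R
  | 0 => 0
  | n + 1 => Phi f (It f n)

theorem It_X (f : R) (n : ℕ) : (PowerSeries.X : PowerSeries R) ∣ It f n := by
  induction n with
  | zero => exact dvd_zero _
  | succ n ih => exact Phi_zero ih

theorem It_succ (f : R) (n : ℕ) :
    (PowerSeries.X : PowerSeries R) ^ (n + 1) ∣ It f (n + 1) - It f n := by
  induction n with
  | zero =>
    rw [pow_succ, pow_zero, one_mul]
    exact dvd_sub (It_X f 1) (It_X f 0)
  | succ n ih => exact Phi_sub (It_X f (n + 1)) (It_X f n) (n + 1) ih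

theorem It_add (f : R) (n k : ℕ) :
    (PowerSeries.X : PowerSeries R) ^ (n + 1) ∣ It f (n + k) - It f n := by
  induction k with
  | zero => simp
  | succ k ih =>
    have h1 : It f (n + (k + 1)) - It f n =
        (It f (n + k + 1) - It f (n + k)) + (It f (n + k) - It f n) := by
      rw [← add_assoc]
      ring
    rw [h1]
    exact dvd_add (dvd_trans (pow_dvd_pow _ (by omega)) (It_succ f (n + k))) ih

/-- the universal series -/
noncomputable def Hh (f : R) : PowerSeries R := PowerSeries.mk fun m => PowerSeries.coeff m (It f m)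

theorem Hh_sub (f : R) (n : ℕ) :
    (PowerSeries.X : PowerSeries R) ^ (n + 1) ∣ Hh f - It f n := by
  rw [PowerSeries.X_pow_dvd_iff]
  intro m hm
  rw [map_sub]
  unfold Hh
  rw [PowerSeries.coeff_mk]
  have h1 := It_add f m (n - m)
  rw [PowerSeries.X_pow_dvd_iff] at h1
  have h2 := h1 m (by omega)
  rw [map_sub, Nat.add_sub_cancel' (by omega : m ≤ n), sub_eq_zero] at h2
  rw [h2, sub_self]

theorem Hh_X (f : R) : (PowerSeries.X : PowerSeries R) ∣ Hh f := by
  have h1 := Hh_sub f 0
  rw [zero_add, pow_one] at h1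
  have h2 : It f 0 = 0 := rfl
  rwa [h2, sub_zero] at h1

theorem Hh_fix (f : R) : Phi f (Hh f) = Hh f := by
  have h1 : ∀ n : ℕ, (PowerSeries.X : PowerSeries R) ^ (n + 1) ∣ Phi f (Hh f) - Hh f := by
    intro n
    have h2 := Phi_sub (f := f) (Hh_X f) (It_X f n) (n + 1) (Hh_sub f n)
    have h3 := Hh_sub f (n + 1)
    have h4 : Phi f (Hh f) - Hh f = (Phi f (Hh f) - Phi f (It f n)) -
        (Hh f - It f (n + 1)) := by
      have : It f (n + 1) = Phi f (It f n) := rfl
      rw [this]
      ring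
    rw [h4]
    exact dvd_sub (dvd_trans (pow_dvd_pow _ (by omega)) h2)
      (dvd_trans (pow_dvd_pow _ (by omega)) h3)
  rw [← sub_eq_zero]
  ext n
  have h2 := h1 n
  rw [PowerSeries.X_pow_dvd_iff] at h2
  rw [h2 n (by omega), map_zero]

/-- the bound for the degrees of the coefficients -/
def Bd (D : ℕ) (A : PowerSeries R) (k : ℤ) : Prop :=
  ∀ m : ℕ, PowerSeries.coeff m A ≠ 0 →
    (((PowerSeries.coeff m A).degreeOf 1 : ℕ) : ℤ) + D * k ≤ 2 * D * m

theorem Bd.zero (D : ℕ) (k : ℤ) : Bd D 0 k := by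
  intro m hm
  rw [map_zero] at hm
  exact absurd rfl hm

theorem Bd.sum {D : ℕ} {κ : Type} {s : Finset κ} {A : κ → PowerSeries R} {k : ℤ}
    (h : ∀ i ∈ s, Bd D (A i) k) : Bd D (∑ i ∈ s, A i) k := by
  classical
  intro m hm
  rw [map_sum] at hm ⊢
  obtain ⟨i, hi, hne⟩ := Finset.exists_ne_zero_of_sum_ne_zero hm
  have h0 : (D : ℤ) * k ≤ 2 * D * m := by
    have := h i hi m hne
    have h1 : (0 : ℤ) ≤ (((PowerSeries.coeff m (A i)).degreeOf 1 : ℕ) : ℤ) :=
      Int.natCast_nonneg _
    linarith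
  have h1 : ((((∑ i ∈ s, PowerSeries.coeff m (A i)) : R).degreeOf 1 : ℕ) : ℤ) ≤
      2 * D * m - D * k := by
    have h2 : ((∑ i ∈ s, PowerSeries.coeff m (A i)) : R).degreeOf 1 ≤
        (2 * D * m - D * k).toNat := by
      refine le_trans (degreeOf_sum_le _ _ _) (Finset.sup_le (fun j hj => ?_))
      by_cases hz : PowerSeries.coeff m (A j) = 0
      · rw [hz, degreeOf_zero]
        exact Nat.zero_le _
      · have := h j hj m hz
        rw [Int.le_toNat (by linarith)]
        linarith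
    have h3 : ((2 * D * m - D * k).toNat : ℤ) = 2 * D * m - D * k :=
      Int.toNat_of_nonneg (by linarith)
    rw [← h3]
    exact_mod_cast h2
  linarith

theorem Bd.neg {D : ℕ} {A : PowerSeries R} {k : ℤ} (h : Bd D A k) : Bd D (-A) k := by
  intro m hm
  have h1 : PowerSeries.coeff m (-A) = -PowerSeries.coeff m A := map_neg _ _
  rw [h1] at hm ⊢
  rw [degreeOf_neg]
  exact h m (by rwa [neg_ne_zero] at hm)

theorem Bd.mul {D : ℕ} {A A' : PowerSeries R} {k k' : ℤ} (h : Bd D A k) (h' : Bd D A' k') :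
    Bd D (A * A') (k + k') := by
  classical
  intro m hm
  rw [PowerSeries.coeff_mul] at hm ⊢
  have key : ∀ p ∈ Finset.HasAntidiagonal.antidiagonal m,
      PowerSeries.coeff p.1 A * PowerSeries.coeff p.2 A' ≠ 0 →
      (((PowerSeries.coeff p.1 A * PowerSeries.coeff p.2 A').degreeOf 1 : ℕ) : ℤ) +
        D * (k + k') ≤ 2 * D * m := by
    intro p hp hne
    have h1 := h p.1 (left_ne_zero_of_mul hne)
    have h2 := h' p.2 (right_ne_zero_of_mul hne)
    have h3 : ((PowerSeries.coeff p.1 A * PowerSeries.coeff p.2 A').degreeOf 1 : ℕ) ≤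
        (PowerSeries.coeff p.1 A).degreeOf 1 + (PowerSeries.coeff p.2 A').degreeOf 1 :=
      degreeOf_mul_le _ _ _
    have h4 : p.1 + p.2 = m := Finset.HasAntidiagonal.mem_antidiagonal.mp hp
    have h5 : (m : ℤ) = p.1 + p.2 := by exact_mod_cast h4.symm
    have h6 : (((PowerSeries.coeff p.1 A * PowerSeries.coeff p.2 A').degreeOf 1 : ℕ) : ℤ) ≤
        ((PowerSeries.coeff p.1 A).degreeOf 1 : ℕ) +
          ((PowerSeries.coeff p.2 A').degreeOf 1 : ℕ) := by exact_mod_cast h3
    rw [h5]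
    linarith
  obtain ⟨p, hp, hne⟩ := Finset.exists_ne_zero_of_sum_ne_zero hm
  have h0 : (D : ℤ) * (k + k') ≤ 2 * D * m := by
    have := key p hp hne
    have h1 : (0 : ℤ) ≤ (((PowerSeries.coeff p.1 A * PowerSeries.coeff p.2 A').degreeOf 1
      : ℕ) : ℤ) := Int.natCast_nonneg _
    linarith
  have h2 : (∑ p ∈ Finset.HasAntidiagonal.antidiagonal m,
      PowerSeries.coeff p.1 A * PowerSeries.coeff p.2 A').degreeOf 1 ≤
      (2 * D * m - D * (k + k')).toNat := by
    refine le_trans (degreeOf_sum_le _ _ _) (Finset.sup_le (fun j hj => ?_))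
    by_cases hz : PowerSeries.coeff j.1 A * PowerSeries.coeff j.2 A' = 0
    · rw [hz, degreeOf_zero]
      exact Nat.zero_le _
    · have := key j hj hz
      rw [Int.le_toNat (by linarith)]
      linarith
  have h3 : ((2 * D * m - D * (k + k')).toNat : ℤ) = 2 * D * m - D * (k + k') :=
    Int.toNat_of_nonneg (by linarith)
  have h4 : (((∑ p ∈ Finset.HasAntidiagonal.antidiagonal m,
      PowerSeries.coeff p.1 A * PowerSeries.coeff p.2 A').degreeOf 1 : ℕ) : ℤ) ≤
      2 * D * m - D * (k + k') := by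
    rw [← h3]
    exact_mod_cast h2
  linarith

theorem Bd.one (D : ℕ) : Bd D 1 0 := by
  classical
  intro m hm
  rw [PowerSeries.coeff_one] at hm ⊢
  split at hm
  · rename_i h
    rw [if_pos h, degreeOf_one, h]
    simp
  · exact absurd rfl hm

theorem Bd.pow {D : ℕ} {A : PowerSeries R} {k : ℤ} (h : Bd D A k) (n : ℕ) :
    Bd D (A ^ n) (n * k) := by
  induction n with
  | zero =>
    have h1 := Bd.one D
    rw [pow_zero]
    have h2 : (((0 : ℕ) : ℤ) * k) = 0 := by simp
    rw [h2]
    exact h1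
  | succ n ih =>
    have h1 := ih.mul h
    rw [pow_succ]
    have h2 : (((n + 1 : ℕ) : ℤ) * k) = n * k + k := by push_cast; ring
    rw [h2]
    exact h1

theorem degreeOf_G (f : R) (α : Fin 2 →₀ ℕ) (hα : α ∈ S f) :
    (((G f α).degreeOf 1 : ℕ) : ℤ) ≤ f.degreeOf 1 * (2 * α 0 + α 1 - 1) := by
  have h1 : (coeff α (F f)).degreeOf 1 ≤ f.degreeOf 1 := degreeOf_hs α f 1
  have h2 : ((pderiv 1 f) ^ (2 * α 0 + α 1 - 2)).degreeOf 1 ≤
      (2 * α 0 + α 1 - 2) * f.degreeOf 1 :=
    le_trans (degreeOf_pow_le _ _ _) (Nat.mul_le_mul_left _ (degreeOf_pderiv_le f 1 1))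
  have h3 : (G f α).degreeOf 1 ≤ f.degreeOf 1 + (2 * α 0 + α 1 - 2) * f.degreeOf 1 :=
    le_trans (degreeOf_mul_le _ _ _) (add_le_add h1 h2)
  have h4 : 2 ≤ 2 * α 0 + α 1 := by
    rcases mem_S hα with h | h <;> omega
  have h5 : ((2 * α 0 + α 1 - 2 : ℕ) : ℤ) = 2 * α 0 + α 1 - 2 := by
    push_cast [Nat.cast_sub h4]
    ring
  have h6 : (((G f α).degreeOf 1 : ℕ) : ℤ) ≤
      f.degreeOf 1 + ((2 * α 0 + α 1 - 2 : ℕ) : ℤ) * f.degreeOf 1 := by exact_mod_cast h3
  rw [h5] at h6
  linarith

theorem Bd.Phi {f : R} {H : PowerSeries R} (h : Bd (f.degreeOf 1) H 1) :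
    Bd (f.degreeOf 1) (YA.Phi f H) 1 := by
  classical
  unfold YA.Phi
  refine Bd.neg (Bd.sum (fun α hα => ?_))
  rw [← mul_assoc]
  have h1 : Bd (f.degreeOf 1) (PowerSeries.C (G f α) * PowerSeries.X ^ α 0) (1 - α 1) := by
    intro m hm
    rw [PowerSeries.coeff_C_mul, PowerSeries.coeff_X_pow] at hm ⊢
    split at hm
    · rename_i h2
      rw [if_pos h2, mul_one, h2]
      have h3 := degreeOf_G f α hα
      linarith
    · rw [mul_zero] at hm
      exact absurd rfl hm
  have h2 := h1.mul (h.pow (α 1))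
  have h3 : (1 - (α 1 : ℤ)) + (α 1 : ℤ) * 1 = 1 := by ring
  rw [h3] at h2
  exact h2

theorem Bd_It (f : R) (n : ℕ) : Bd (f.degreeOf 1) (It f n) 1 := by
  induction n with
  | zero => exact Bd.zero _ _
  | succ n ih => exact Bd.Phi ih

theorem degreeOf_Hh (f : R) (j : ℕ) :
    (PowerSeries.coeff j (Hh f)).degreeOf 1 ≤ 2 * f.degreeOf 1 * j := by
  unfold Hh
  rw [PowerSeries.coeff_mk]
  by_cases h : PowerSeries.coeff j (It f j) = 0
  · rw [h, degreeOf_zero]
    exact Nat.zero_le _
  · have h1 := Bd_It f j j h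
    have h2 : (((PowerSeries.coeff j (It f j)).degreeOf 1 : ℕ) : ℤ) ≤
        ((2 * f.degreeOf 1 * j : ℕ) : ℤ) := by
      push_cast
      have : (0 : ℤ) ≤ (f.degreeOf 1 : ℤ) * 1 := by positivity
      linarith
    exact_mod_cast h2

end YA

theorem exists_tay (f : MvPolynomial (Fin 2) ℤ) : ∃ (h : ℕ → MvPolynomial (Fin 2) ℤ) (A : ℕ),
    (∀ j, (h j).degreeOf 1 ≤ A * j) ∧
    ∀ (K : Type) [Field K] (x y : K), aeval ![x, y] f = 0 → aeval ![x, y] (pderiv 1 f) ≠ 0 →
      ∃ η : PowerSeries K, IsTay f x y η ∧ ∀ j, 1 ≤ j → PowerSeries.coeff j η =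
        aeval ![x, y] (h j) / (aeval ![x, y] (pderiv 1 f)) ^ (2 * j - 1) := by
  classical
  refine ⟨fun j => PowerSeries.coeff j (YA.Hh f), 2 * f.degreeOf 1, YA.degreeOf_Hh f, ?_⟩
  intro K _ x y hf hd
  set δ : K := aeval ![x, y] (pderiv 1 f) with hδ
  set φ : YA.R →+* K := ((aeval ![x, y] : YA.R →ₐ[ℤ] K) : YA.R →+* K) with hφ
  set HK : PowerSeries K := PowerSeries.map φ (YA.Hh f) with hHK
  set η : PowerSeries K := PowerSeries.C y + PowerSeries.C δ *
    PowerSeries.rescale ((δ ^ 2)⁻¹) HK with hη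
  have hcoeff : ∀ j, PowerSeries.coeff j HK = aeval ![x, y] (PowerSeries.coeff j (YA.Hh f)) := by
    intro j
    rw [hHK, PowerSeries.coeff_map]
    rfl
  have h0 : PowerSeries.coeff 0 (YA.Hh f) = 0 := by
    rw [PowerSeries.coeff_zero_eq_constantCoeff_apply]
    exact PowerSeries.X_dvd_iff.mp (YA.Hh_X f)
  have hδ2 : δ ^ 2 ≠ 0 := pow_ne_zero 2 hd
  refine ⟨η, ⟨?_, ?_⟩, ?_⟩
  · rw [hη, map_add, map_mul, PowerSeries.constantCoeff_C, PowerSeries.constantCoeff_C,
      ← PowerSeries.coeff_zero_eq_constantCoeff_apply, PowerSeries.coeff_rescale, hcoeff, h0,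
      map_zero, mul_zero, mul_zero, add_zero]
  · have hinj : Function.Injective (PowerSeries.rescale (δ ^ 2) : PowerSeries K →+*
        PowerSeries K) := by
      intro a b hab
      ext n
      have h1 := congrArg (PowerSeries.coeff n) hab
      rw [PowerSeries.coeff_rescale, PowerSeries.coeff_rescale] at h1
      exact mul_left_cancel₀ (pow_ne_zero n hδ2) h1
    apply hinj
    rw [map_zero]
    have hresc : PowerSeries.rescale (δ ^ 2) η = PowerSeries.C y + PowerSeries.C δ * HK := by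
      rw [hη, map_add, map_mul]
      rw [YA.rescale_C, YA.rescale_C, PowerSeries.rescale_rescale, inv_mul_cancel₀ hδ2,
        PowerSeries.rescale_one, RingHom.id_apply]
    set u : Fin 2 → PowerSeries K := ![PowerSeries.C x, PowerSeries.C y] with hu
    set v : Fin 2 → PowerSeries K := ![PowerSeries.C (δ ^ 2) * PowerSeries.X,
      PowerSeries.C δ * HK] with hv
    have h1 : PowerSeries.rescale (δ ^ 2) (aeval ![PowerSeries.C x + PowerSeries.X, η] f) =
        aeval (fun i => u i + v i) f := by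
      have h7 : (PowerSeries.rescale (δ ^ 2) : PowerSeries K →+* PowerSeries K).comp
          ((aeval ![PowerSeries.C x + PowerSeries.X, η] : YA.R →ₐ[ℤ] PowerSeries K) :
            YA.R →+* PowerSeries K) =
          ((aeval (fun i => u i + v i) : YA.R →ₐ[ℤ] PowerSeries K) :
            YA.R →+* PowerSeries K) := by
        refine MvPolynomial.ringHom_ext (fun r => by simp) (fun i => ?_)
        fin_cases i
        · simp [hu, hv, YA.rescale_C, PowerSeries.rescale_X]
        · simp [hu, hv, hresc]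
      exact DFunLike.congr_fun h7 f
    have hu1 : ∀ g : YA.R, aeval u g = PowerSeries.C (aeval ![x, y] g) := by
      intro g
      have h7 : ((aeval u : YA.R →ₐ[ℤ] PowerSeries K) : YA.R →+* PowerSeries K) =
          (PowerSeries.C : K →+* PowerSeries K).comp
            ((aeval ![x, y] : YA.R →ₐ[ℤ] K) : YA.R →+* K) := by
        refine MvPolynomial.ringHom_ext (fun r => by simp) (fun i => ?_)
        fin_cases i
        · simp [hu]
        · simp [hu]
      exact DFunLike.congr_fun h7 g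
    rw [h1, YA.taylor_sum, YA.sum_split f (fun α => aeval u (coeff α (YA.F f)) *
      (v 0 ^ α 0 * v 1 ^ α 1)) (fun α hα => by rw [hα, map_zero, zero_mul]),
      YA.coeff_zero_F, YA.coeff_one_F, hu1, hf, map_zero, zero_mul, zero_add, hu1, ← hδ]
    have hv0 : v 0 = PowerSeries.C (δ ^ 2) * PowerSeries.X := rfl
    have hv1 : v 1 = PowerSeries.C δ * HK := rfl
    have h10 : (Finsupp.single 1 1 : Fin 2 →₀ ℕ) 0 = 0 := by simp
    rw [h10, Finsupp.single_eq_same, pow_zero, pow_one, one_mul, hv1]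
    have hfix : HK = -∑ α ∈ YA.S f, PowerSeries.C (φ (YA.G f α)) *
        (PowerSeries.X ^ α 0 * HK ^ α 1) := by
      have h2 := congrArg (PowerSeries.map φ) (YA.Hh_fix f)
      unfold YA.Phi at h2
      rw [map_neg, map_sum, ← hHK] at h2
      rw [← h2]
      congr 1
      refine Finset.sum_congr rfl (fun α _ => ?_)
      rw [map_mul, map_mul, map_pow, map_pow, PowerSeries.map_C, PowerSeries.map_X, ← hHK, h2]
    have hterm : ∀ α ∈ YA.S f, aeval u (coeff α (YA.F f)) *
        (v 0 ^ α 0 * (PowerSeries.C δ * HK) ^ α 1) =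
        PowerSeries.C (δ ^ 2) * (PowerSeries.C (φ (YA.G f α)) *
        (PowerSeries.X ^ α 0 * HK ^ α 1)) := by
      intro α hα
      have h4 : 2 ≤ 2 * α 0 + α 1 := by
        rcases YA.mem_S hα with h | h <;> omega
      have h5 : δ ^ 2 * φ (YA.G f α) = aeval ![x, y] (coeff α (YA.F f)) *
          (δ ^ (2 * α 0) * δ ^ α 1) := by
        unfold YA.G
        rw [map_mul, map_pow]
        have h6 : φ (pderiv 1 f) = δ := rfl
        have h7 : φ (coeff α (YA.F f)) = aeval ![x, y] (coeff α (YA.F f)) := rfl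
        rw [h6, h7, ← pow_add]
        have h8 : δ ^ (2 * α 0 + α 1) = δ ^ 2 * δ ^ (2 * α 0 + α 1 - 2) := by
          rw [← pow_add, Nat.add_sub_cancel' h4]
        rw [h8]
        ring
      rw [hv0, hu1, ← mul_assoc (PowerSeries.C (δ ^ 2)), ← map_mul, h5, map_mul, map_mul,
        map_pow, map_pow, mul_pow, mul_pow, pow_mul, map_pow]
      ring
    rw [Finset.sum_congr rfl hterm, ← Finset.mul_sum]
    have h11 : ∑ α ∈ YA.S f, PowerSeries.C (φ (YA.G f α)) *
        (PowerSeries.X ^ α 0 * HK ^ α 1) = -HK := by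
      rw [eq_comm, neg_eq_iff_eq_neg]
      exact hfix
    rw [h11, map_pow]
    ring
  · intro j hj
    rw [hη, map_add, PowerSeries.coeff_C, if_neg (by omega), zero_add, PowerSeries.coeff_C_mul,
      PowerSeries.coeff_rescale, hcoeff]
    have h1 : δ ^ (2 * j - 1) * δ = (δ ^ 2) ^ j := by
      rw [← pow_succ, ← pow_mul]
      congr 1
      omega
    rw [eq_div_iff (pow_ne_zero _ hd)]
    have h2 : δ * (((δ ^ 2)⁻¹) ^ j * (aeval ![x, y]) (PowerSeries.coeff j (YA.Hh f))) *
        δ ^ (2 * j - 1) = (δ ^ (2 * j - 1) * δ) * ((δ ^ 2)⁻¹) ^ j *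
        (aeval ![x, y]) (PowerSeries.coeff j (YA.Hh f)) := by ring
    rw [h2, h1, ← mul_pow, mul_inv_cancel₀ hδ2, one_pow, one_mul]

end Pool.Agent.PC
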