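import Pool.Agent.Lib.MP_c95b3b_ag_PC.DefsS
import Pool.Agent.Lib.MP_c95b3b_ag_PC.YA

/-! Project PC (MP_c95b3b_ag), module SC: points of the curves over rings of power series. -/

namespace Pool.Agent.PC

open Pool.Agent.L3 Pool.Agent.AL Module MvPolynomial

namespace SC

/-- the constant coefficient of a substitution -/
theorem const_subst {σ : Type} {K : Type} [Field K] (u : MvPowerSeries σ K)
    (hu : MvPowerSeries.constantCoeff u = 0) (η : PowerSeries K) :
    MvPowerSeries.constantCoeff (PowerSeries.subst u η) = PowerSeries.constantCoeff η := by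
  have ha : PowerSeries.HasSubst u := PowerSeries.HasSubst.of_constantCoeff_zero hu
  have h1 : η = PowerSeries.C (PowerSeries.constantCoeff η) +
      (η - PowerSeries.C (PowerSeries.constantCoeff η)) := by ring
  have h2 : MvPowerSeries.constantCoeff (PowerSeries.subst u
      (η - PowerSeries.C (PowerSeries.constantCoeff η))) = 0 :=
    PowerSeries.constantCoeff_subst_eq_zero hu _ (by simp)
  rw [PowerSeries.subst_sub ha, PowerSeries.subst_C, map_sub, sub_eq_zero] at h2
  rw [h2, MvPowerSeries.constantCoeff_C]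

/-- the coefficients of the inverse -/
theorem inv_coeff {σ : Type} {K : Type} [Field K] {A B : MvPowerSeries σ K}
    (h : A * B = 1) (δ : σ →₀ ℕ) : ∃ s : Finset ((σ →₀ ℕ) × (σ →₀ ℕ)),
      (∀ p ∈ s, p.1 + p.2 = δ ∧ p.1 ≠ 0) ∧
      MvPowerSeries.coeff 0 A * MvPowerSeries.coeff δ B =
        MvPowerSeries.coeff δ (1 : MvPowerSeries σ K) -
          ∑ p ∈ s, MvPowerSeries.coeff p.1 A * MvPowerSeries.coeff p.2 B := by
  classical
  refine ⟨(Finset.HasAntidiagonal.antidiagonal δ).erase (0, δ), ?_, ?_⟩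
  · intro p hp
    rw [Finset.mem_erase, Finset.HasAntidiagonal.mem_antidiagonal] at hp
    refine ⟨hp.2, fun h0 => hp.1 ?_⟩
    have h1 := hp.2
    rw [h0, zero_add] at h1
    exact Prod.ext h0 h1
  · rw [← h, MvPowerSeries.coeff_mul, eq_sub_iff_add_eq]
    exact Finset.add_sum_erase (Finset.HasAntidiagonal.antidiagonal δ)
      (fun p => MvPowerSeries.coeff p.1 A * MvPowerSeries.coeff p.2 B)
      (a := ((0 : σ →₀ ℕ), δ)) (Finset.HasAntidiagonal.mem_antidiagonal.2 (zero_add δ))

/-- the subring of the power series with coefficients in `S` -/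
def SS {σ : Type} {K : Type} [Field K] (S : Subring K) : Subring (MvPowerSeries σ K) where
  carrier := {F | ∀ δ, MvPowerSeries.coeff δ F ∈ S}
  mul_mem' := by
    classical
    intro F G hF hG δ
    rw [MvPowerSeries.coeff_mul]
    exact S.sum_mem fun p _ => S.mul_mem (hF _) (hG _)
  one_mem' := by
    classical
    intro δ
    rw [MvPowerSeries.coeff_one]
    split
    · exact S.one_mem
    · exact S.zero_mem
  add_mem' := by
    intro F G hF hG δ
    rw [map_add]
    exact S.add_mem (hF δ) (hG δ)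
  zero_mem' := by
    intro δ
    rw [map_zero]
    exact S.zero_mem
  neg_mem' := by
    intro F hF δ
    rw [map_neg]
    exact S.neg_mem (hF δ)

theorem mem_SS {σ : Type} {K : Type} [Field K] {S : Subring K} {F : MvPowerSeries σ K} :
    F ∈ SS S ↔ ∀ δ, MvPowerSeries.coeff δ F ∈ S := Iff.rfl

theorem SS_inv {σ : Type} {K : Type} [Field K] {S : Subring K}
    {A B : MvPowerSeries σ K} (h : A * B = 1) (hA : A ∈ SS S)
    (hi : (MvPowerSeries.constantCoeff A)⁻¹ ∈ S) : B ∈ SS S := by
  classical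
  rw [mem_SS]
  have h0 : MvPowerSeries.constantCoeff A ≠ 0 := by
    intro h1
    have h2 := congrArg (MvPowerSeries.constantCoeff) h
    rw [map_mul, h1, zero_mul, map_one] at h2
    exact zero_ne_one h2
  have key : ∀ (n : ℕ) (δ : σ →₀ ℕ), δ.degree = n → MvPowerSeries.coeff δ B ∈ S := by
    intro n
    induction n using Nat.strong_induction_on with
    | _ n ih =>
      intro δ hδ
      obtain ⟨s, hs, h1⟩ := inv_coeff h δ
      have h2 : MvPowerSeries.coeff δ B = (MvPowerSeries.constantCoeff A)⁻¹ *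
          (MvPowerSeries.coeff 0 A * MvPowerSeries.coeff δ B) := by
        rw [MvPowerSeries.coeff_zero_eq_constantCoeff_apply, ← mul_assoc,
          inv_mul_cancel₀ h0, one_mul]
      rw [h2, h1]
      refine S.mul_mem hi (S.sub_mem ((SS S).one_mem δ) (S.sum_mem fun p hp => ?_))
      obtain ⟨h3, h4⟩ := hs p hp
      refine S.mul_mem (hA _) (ih p.2.degree ?_ p.2 rfl)
      rw [← hδ, ← h3, map_add]
      have h5 : p.1.degree ≠ 0 := by
        rw [Ne, Finsupp.degree_eq_zero_iff]
        exact h4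
      omega
  exact fun δ => key _ δ rfl

/-- the subring of the power series which do not involve the variables in `J` -/
def SJ {σ : Type} {K : Type} [Field K] (J : Set σ) : Subring (MvPowerSeries σ K) where
  carrier := {F | ∀ δ : σ →₀ ℕ, (∃ s ∈ J, δ s ≠ 0) → MvPowerSeries.coeff δ F = 0}
  mul_mem' := by
    classical
    rintro F G hF hG δ ⟨s, hs, hδ⟩
    rw [MvPowerSeries.coeff_mul]
    refine Finset.sum_eq_zero fun p hp => ?_
    rw [Finset.HasAntidiagonal.mem_antidiagonal] at hp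
    by_cases h1 : p.1 s = 0
    · have h2 : p.2 s ≠ 0 := by
        intro h3
        apply hδ
        rw [← hp, Finsupp.add_apply, h1, h3]
      rw [hG _ ⟨s, hs, h2⟩, mul_zero]
    · rw [hF _ ⟨s, hs, h1⟩, zero_mul]
  one_mem' := by
    classical
    rintro δ ⟨s, hs, hδ⟩
    rw [MvPowerSeries.coeff_one, if_neg]
    rintro rfl
    exact hδ rfl
  add_mem' := by
    intro F G hF hG δ hδ
    rw [map_add, hF δ hδ, hG δ hδ, add_zero]
  zero_mem' := by
    intro δ _
    rw [map_zero]
  neg_mem' := by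
    intro F hF δ hδ
    rw [map_neg, hF δ hδ, neg_zero]

theorem mem_SJ {σ : Type} {K : Type} [Field K] {J : Set σ} {F : MvPowerSeries σ K} :
    F ∈ SJ J ↔ ∀ δ : σ →₀ ℕ, (∃ s ∈ J, δ s ≠ 0) → MvPowerSeries.coeff δ F = 0 := Iff.rfl

theorem SJ_inv {σ : Type} {K : Type} [Field K] {J : Set σ}
    {A B : MvPowerSeries σ K} (h : A * B = 1) (hA : A ∈ SJ J) : B ∈ SJ J := by
  classical
  rw [mem_SJ]
  have h0 : MvPowerSeries.constantCoeff A ≠ 0 := by
    intro h1
    have h2 := congrArg (MvPowerSeries.constantCoeff) h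
    rw [map_mul, h1, zero_mul, map_one] at h2
    exact zero_ne_one h2
  have key : ∀ (n : ℕ) (δ : σ →₀ ℕ), δ.degree = n → (∃ s ∈ J, δ s ≠ 0) →
      MvPowerSeries.coeff δ B = 0 := by
    intro n
    induction n using Nat.strong_induction_on with
    | _ n ih =>
      rintro δ hδ ⟨t, ht, hδt⟩
      obtain ⟨s, hs, h1⟩ := inv_coeff h δ
      have h2 : MvPowerSeries.coeff 0 A * MvPowerSeries.coeff δ B = 0 := by
        rw [h1, Finset.sum_eq_zero, sub_zero]
        · rw [MvPowerSeries.coeff_one, if_neg]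
          rintro rfl
          exact hδt rfl
        · intro p hp
          obtain ⟨h3, h4⟩ := hs p hp
          by_cases h6 : p.1 t = 0
          · have h7 : p.2 t ≠ 0 := by
              intro h8
              apply hδt
              rw [← h3, Finsupp.add_apply, h6, h8]
            have h5 : p.1.degree ≠ 0 := by
              rw [Ne, Finsupp.degree_eq_zero_iff]
              exact h4
            have h9 : p.2.degree < n := by
              rw [← hδ, ← h3, map_add]
              omega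
            rw [ih p.2.degree h9 p.2 rfl ⟨t, ht, h7⟩, mul_zero]
          · rw [mem_SJ.1 hA _ ⟨t, ht, h6⟩, zero_mul]
      rcases mul_eq_zero.1 h2 with h3 | h3
      · rw [MvPowerSeries.coeff_zero_eq_constantCoeff_apply] at h3
        exact absurd h3 h0
      · exact h3
  exact fun δ => key _ δ rfl

/-- the value lies in every subring which contains the coordinates and their inverses -/
theorem lval_mem_subring {ι : Type} [Fintype ι] {A : Type} [CommRing A] [Algebra ℤ A]
    (S : Subring A)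
    (x y : ι → Aˣ) (hx : ∀ i, (x i : A) ∈ S) (hx' : ∀ i, (((x i)⁻¹ : Aˣ) : A) ∈ S)
    (hy : ∀ i, (y i : A) ∈ S) (hy' : ∀ i, (((y i)⁻¹ : Aˣ) : A) ∈ S)
    (T : Finset (ι → ℤ × ℤ)) (q : (ι → ℤ × ℤ) → ℤ) : lval T q x y ∈ S := by
  have hz : ∀ (z : Aˣ), (z : A) ∈ S → ((z⁻¹ : Aˣ) : A) ∈ S → ∀ n : ℤ,
      ((z ^ n : Aˣ) : A) ∈ S := by
    intro z h1 h2 n
    rcases n with n | n
    · rw [Int.ofNat_eq_natCast, zpow_natCast, Units.val_pow_eq_pow_val]
      exact S.pow_mem h1 n
    · rw [zpow_negSucc, ← inv_pow, Units.val_pow_eq_pow_val]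
      exact S.pow_mem h2 _
  unfold lval
  refine S.sum_mem fun t _ => S.mul_mem ?_ ?_
  · rw [eq_intCast (algebraMap ℤ A)]
    exact intCast_mem S _
  · rw [Units.coe_prod]
    refine S.prod_mem fun i _ => ?_
    rw [Units.val_mul]
    exact S.mul_mem (hz _ (hx i) (hx' i) _) (hz _ (hy i) (hy' i) _)

/-- substitutions lie in the subring -/
theorem SS_subst {σ : Type} {K : Type} [Field K] {S : Subring K} {u : MvPowerSeries σ K}
    (hu : MvPowerSeries.constantCoeff u = 0) (huS : u ∈ SS S) {η : PowerSeries K}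
    (hη : ∀ j, PowerSeries.coeff j η ∈ S) : PowerSeries.subst u η ∈ SS S := by
  have ha : PowerSeries.HasSubst u := PowerSeries.HasSubst.of_constantCoeff_zero hu
  rw [mem_SS]
  intro δ
  rw [PowerSeries.coeff_subst ha]
  refine finsum_induction (· ∈ S) S.zero_mem (fun x y hx hy => S.add_mem hx hy) fun j => ?_
  rw [smul_eq_mul]
  exact S.mul_mem (hη j) ((SS S).pow_mem huS j δ)

theorem SJ_subst {σ : Type} {K : Type} [Field K] {J : Set σ} {u : MvPowerSeries σ K}
    (hu : MvPowerSeries.constantCoeff u = 0) (huS : u ∈ SJ J) (η : PowerSeries K) :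
    PowerSeries.subst u η ∈ SJ J := by
  have ha : PowerSeries.HasSubst u := PowerSeries.HasSubst.of_constantCoeff_zero hu
  rw [mem_SJ]
  intro δ hδ
  rw [PowerSeries.coeff_subst ha]
  refine finsum_induction (· = 0) rfl (fun x y hx hy => by rw [hx, hy, add_zero]) fun j => ?_
  have h1 := (SJ J).pow_mem huS j
  rw [mem_SJ] at h1
  rw [h1 δ hδ, smul_zero]

/-- the chain rule -/
theorem der_aeval {A : Type} [CommRing A] (δ : Derivation ℤ A A) (v : Fin 2 → A)
    (f : MvPolynomial (Fin 2) ℤ) : δ (aeval v f) = ∑ i, aeval v (pderiv i f) * δ (v i) := by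
  induction f using MvPolynomial.induction_on with
  | C a =>
    rw [aeval_C, Derivation.map_algebraMap]
    symm
    refine Finset.sum_eq_zero fun i _ => ?_
    rw [pderiv_C, map_zero, zero_mul]
  | add p q hp hq =>
    rw [map_add, map_add, hp, hq, ← Finset.sum_add_distrib]
    refine Finset.sum_congr rfl fun i _ => ?_
    rw [map_add, map_add, add_mul]
  | mul_X p j hp =>
    rw [map_mul, aeval_X, Derivation.leibniz, hp]
    have h1 : ∀ i, aeval v (pderiv i (p * X j)) * δ (v i) =
        v j * (aeval v (pderiv i p) * δ (v i)) +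
          (if i = j then aeval v p * δ (v j) else 0) := by
      intro i
      rw [Derivation.leibniz, map_add, smul_eq_mul, smul_eq_mul, map_mul, map_mul, aeval_X]
      by_cases hij : i = j
      · subst hij
        rw [pderiv_X_self, map_one, if_pos rfl]
        ring
      · rw [pderiv_X_of_ne (Ne.symm hij), map_zero, if_neg hij]
        ring
    rw [Finset.sum_congr rfl fun i _ => h1 i, Finset.sum_add_distrib, ← Finset.mul_sum,
      Finset.sum_ite_eq' Finset.univ j]
    simp only [Finset.mem_univ, if_true, smul_eq_mul]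
    ring

/-- the constants of a derivation -/
def kerD {A : Type} [CommRing A] (δ : Derivation ℤ A A) : Subring A where
  carrier := {a | δ a = 0}
  mul_mem' := by
    intro a b ha hb
    show δ (a * b) = 0
    rw [Derivation.leibniz, show δ a = 0 from ha, show δ b = 0 from hb, smul_zero, smul_zero,
      add_zero]
  one_mem' := by
    show δ 1 = 0
    exact Derivation.map_one_eq_zero δ
  add_mem' := by
    intro a b ha hb
    show δ (a + b) = 0
    rw [map_add, show δ a = 0 from ha, show δ b = 0 from hb, add_zero]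
  zero_mem' := by
    show δ 0 = 0
    exact map_zero δ
  neg_mem' := by
    intro a ha
    show δ (-a) = 0
    rw [map_neg, show δ a = 0 from ha, neg_zero]

theorem kerD_inv {A : Type} [CommRing A] (δ : Derivation ℤ A A) (z : Aˣ) (h : δ (z : A) = 0) :
    ((z⁻¹ : Aˣ) : A) ∈ kerD δ := by
  show δ ((z⁻¹ : Aˣ) : A) = 0
  rw [Derivation.leibniz_of_mul_eq_one δ (a := ((z⁻¹ : Aˣ) : A)) (b := (z : A)) z.inv_mul, h,
    smul_zero]

theorem split {ι κ : Type} (δ : κ ⊕ ι →₀ ℕ) :
    ∃ (β : κ →₀ ℕ) (γ : ι →₀ ℕ), δ = Finsupp.sumElim β γ := by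
  refine ⟨δ.comapDomain Sum.inl Sum.inl_injective.injOn,
    δ.comapDomain Sum.inr Sum.inr_injective.injOn, ?_⟩
  ext x
  rcases x with x | x <;> simp

theorem coeff_inZ_zero {ι κ : Type} [Finite ι] [Finite κ] {K : Type} [Field K]
    (F : MvPowerSeries ι K) (γ : ι →₀ ℕ) :
    MvPowerSeries.coeff (Finsupp.sumElim (0 : κ →₀ ℕ) γ) (inZ F) = MvPowerSeries.coeff γ F := by
  have h1 : Finsupp.sumElim (0 : κ →₀ ℕ) γ =
      Finsupp.embDomain (⟨Sum.inr, Sum.inr_injective⟩ : ι ↪ κ ⊕ ι) γ := by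
    rw [Finsupp.embDomain_eq_mapDomain, Finsupp.sumElim_eq_add, Finsupp.mapDomain_zero,
      zero_add]
    rfl
  rw [h1]
  exact MvPowerSeries.coeff_embDomain_rename
    (⟨Sum.inr, Sum.inr_injective⟩ : ι ↪ κ ⊕ ι) F γ

theorem coeff_inZ_ne {ι κ : Type} [Finite ι] [Finite κ] {K : Type} [Field K]
    (F : MvPowerSeries ι K) {β : κ →₀ ℕ} (hβ : β ≠ 0) (γ : ι →₀ ℕ) :
    MvPowerSeries.coeff (Finsupp.sumElim β γ) (inZ F) = 0 := by
  refine MvPowerSeries.coeff_rename_eq_zero _ F ?_
  rintro ⟨x, hx⟩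
  apply hβ
  ext i
  have h1 := DFunLike.congr_fun hx (Sum.inl i)
  rw [Finsupp.sumElim_inl] at h1
  rw [← h1, Finsupp.mapDomain_of_notMem_range]
  · rfl
  · rintro ⟨y, hy⟩
    exact Sum.inr_ne_inl hy

end SC

section
variable {m : ℕ}

theorem exists_unit_pt {σ : Type} [Finite σ] {K : Type} [Field K] (C : Crv m) (U : K × K)
    (h1 : U.1 ≠ 0) (h2 : U.2 ≠ 0) (η : PowerSeries K) (hη : IsTay C.f U.1 U.2 η)
    (u : MvPowerSeries σ K) (hu : MvPowerSeries.constantCoeff u = 0) :
    ∃ X Y : (MvPowerSeries σ K)ˣ, (X : MvPowerSeries σ K) = MvPowerSeries.C U.1 + u ∧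
      (Y : MvPowerSeries σ K) = PowerSeries.subst u η ∧
      MvPowerSeries.constantCoeff (Y : MvPowerSeries σ K) = U.2 ∧
      aeval ![(X : MvPowerSeries σ K), (Y : MvPowerSeries σ K)] C.f = 0 := by
  have ha : PowerSeries.HasSubst u := PowerSeries.HasSubst.of_constantCoeff_zero hu
  have h3 : MvPowerSeries.constantCoeff (PowerSeries.subst u η) = U.2 := by
    rw [SC.const_subst u hu, hη.const]
  have h4 : IsUnit (MvPowerSeries.C U.1 + u) := by
    rw [MvPowerSeries.isUnit_iff_constantCoeff, map_add, hu, add_zero,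
      MvPowerSeries.constantCoeff_C]
    exact isUnit_iff_ne_zero.2 h1
  have h5 : IsUnit (PowerSeries.subst u η) := by
    rw [MvPowerSeries.isUnit_iff_constantCoeff, h3]
    exact isUnit_iff_ne_zero.2 h2
  refine ⟨h4.unit, h5.unit, h4.unit_spec, h5.unit_spec, ?_, ?_⟩
  · rw [h5.unit_spec]
    exact h3
  · rw [h4.unit_spec, h5.unit_spec]
    have h6 := congrArg (PowerSeries.substAlgHom (R := K) ha) hη.root
    rw [map_zero] at h6
    have h7 := map_aeval (![PowerSeries.C U.1 + PowerSeries.X, η])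
      ((PowerSeries.substAlgHom (R := K) ha : PowerSeries K →+* MvPowerSeries σ K)) C.f
    have h8 : (fun i => (PowerSeries.substAlgHom (R := K) ha : PowerSeries K →+*
        MvPowerSeries σ K) ((![PowerSeries.C U.1 + PowerSeries.X, η] : Fin 2 → PowerSeries K) i)) =
        ![MvPowerSeries.C U.1 + u, PowerSeries.subst u η] := by
      funext i
      fin_cases i
      · simp [PowerSeries.coe_substAlgHom, PowerSeries.subst_add ha, PowerSeries.subst_X ha]
      · simp [PowerSeries.coe_substAlgHom]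
    rw [h8] at h7
    rw [← h6]
    refine Eq.trans ?_ h7.symm
    rw [aeval_def]
    congr 1
    exact Subsingleton.elim _ _

theorem lval_map {ι : Type} [Fintype ι] {R A B : Type} [CommRing R] [CommRing A] [CommRing B]
    [Algebra R A] [Algebra R B] (φ : A →ₐ[R] B) (T : Finset (ι → ℤ × ℤ)) (q : (ι → ℤ × ℤ) → R)
    (x y : ι → Aˣ) : φ (lval T q x y) =
      lval T q (fun i => Units.map (φ : A →* B) (x i)) (fun i => Units.map (φ : A →* B) (y i)) := by
  unfold lval
  rw [map_sum]
  refine Finset.sum_congr rfl fun t _ => ?_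
  rw [map_mul, AlgHom.commutes]
  congr 1
  have h1 : φ ((∏ i, (x i ^ (t i).1 * y i ^ (t i).2) : Aˣ) : A) =
      ((Units.map (φ : A →* B) (∏ i, (x i ^ (t i).1 * y i ^ (t i).2)) : Bˣ) : B) := rfl
  rw [h1, map_prod]
  congr 1
  refine Finset.prod_congr rfl fun i _ => ?_
  rw [map_mul, map_zpow, map_zpow]

/-- derivations which kill the coordinates `x` kill the value -/
theorem lval_der {ι : Type} [Fintype ι] {A : Type} [CommRing A] (C : ι → Crv m) (x y : ι → Aˣ)
    (h : OnC C x y)
    (hY : ∀ i, IsUnit (aeval ![(x i : A), (y i : A)] (pderiv 1 (C i).f)))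
    (δ : Derivation ℤ A A) (hδ : ∀ i, δ (x i : A) = 0) (T : Finset (ι → ℤ × ℤ))
    (q : (ι → ℤ × ℤ) → ℤ) : δ (lval T q x y) = 0 := by
  have h1 : ∀ i, δ (y i : A) = 0 := by
    intro i
    have h2 := SC.der_aeval δ ![(x i : A), (y i : A)] (C i).f
    rw [h i, map_zero, Fin.sum_univ_two] at h2
    simp only [Matrix.cons_val_zero, Matrix.cons_val_one] at h2
    rw [hδ i, mul_zero, zero_add] at h2
    exact ((hY i).mul_right_eq_zero.1 h2.symm)
  have hS := SC.lval_mem_subring (SC.kerD δ) x y hδ (fun i => SC.kerD_inv δ _ (hδ i)) h1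
    (fun i => SC.kerD_inv δ _ (h1 i)) T q
  exact hS

theorem pderiv_inZ {ι κ : Type} [Finite ι] [Finite κ] {K : Type} [Field K]
    (F : MvPowerSeries ι K) :
    (∀ i, MvPowerSeries.pderiv K (Sum.inr i : κ ⊕ ι) (inZ F) = inZ (MvPowerSeries.pderiv K i F)) ∧
      ∀ k, MvPowerSeries.pderiv K (Sum.inl k : κ ⊕ ι) (inZ F) = 0 := by
  constructor
  · intro i
    ext δ
    rw [MvPowerSeries.coeff_pderiv]
    obtain ⟨β, γ, rfl⟩ := SC.split δ
    have h1 : Finsupp.sumElim β γ + Finsupp.single (Sum.inr i : κ ⊕ ι) 1 =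
        Finsupp.sumElim β (γ + Finsupp.single i 1) := by
      classical
      ext x
      rcases x with x | x
      · simp
      · simp [Finsupp.single_apply]
    rw [h1, Finsupp.sumElim_inr]
    by_cases hβ : β = 0
    · subst hβ
      rw [SC.coeff_inZ_zero, SC.coeff_inZ_zero, MvPowerSeries.coeff_pderiv]
    · rw [SC.coeff_inZ_ne _ hβ, SC.coeff_inZ_ne _ hβ, zero_mul]
  · intro k
    ext δ
    rw [MvPowerSeries.coeff_pderiv, map_zero]
    obtain ⟨β, γ, rfl⟩ := SC.split δ
    have h1 : Finsupp.sumElim β γ + Finsupp.single (Sum.inl k : κ ⊕ ι) 1 =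
        Finsupp.sumElim (β + Finsupp.single k 1) γ := by
      classical
      ext x
      rcases x with x | x
      · simp [Finsupp.single_apply]
      · simp
    rw [h1, SC.coeff_inZ_ne, zero_mul]
    intro h
    have := DFunLike.congr_fun h k
    simp at this

/-- all coefficients of the value lie in `S` -/
theorem lval_mem {ι σ : Type} [Fintype ι] [Finite σ] {K : Type} [Field K] (S : Subring K)
    (U : ι → K × K) (C : ι → Crv m) (hU : ∀ i, UC (C i) S (U i)) (η : ι → PowerSeries K)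
    (hη : ∀ i j, PowerSeries.coeff j (η i) ∈ S) (u : ι → MvPowerSeries σ K)
    (hu : ∀ i, MvPowerSeries.constantCoeff (u i) = 0) (huS : ∀ i δ, MvPowerSeries.coeff δ (u i) ∈ S)
    (X Y : ι → (MvPowerSeries σ K)ˣ)
    (hX : ∀ i, (X i : MvPowerSeries σ K) = MvPowerSeries.C (U i).1 + u i)
    (hY : ∀ i, (Y i : MvPowerSeries σ K) = PowerSeries.subst (u i) (η i))
    (hY0 : ∀ i, MvPowerSeries.constantCoeff (Y i : MvPowerSeries σ K) = (U i).2)
    (T : Finset (ι → ℤ × ℤ)) (q : (ι → ℤ × ℤ) → ℤ) (δ : σ →₀ ℕ) :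
    MvPowerSeries.coeff δ (lval T q X Y) ∈ S := by
  classical
  have hX1 : ∀ i, (X i : MvPowerSeries σ K) ∈ SC.SS S := by
    intro i
    rw [hX i]
    refine (SC.SS S).add_mem ?_ (huS i)
    rw [SC.mem_SS]
    intro δ
    rw [MvPowerSeries.coeff_C]
    split
    · exact (hU i).mem1
    · exact S.zero_mem
  have hX2 : ∀ i, (((X i)⁻¹ : (MvPowerSeries σ K)ˣ) : MvPowerSeries σ K) ∈ SC.SS S := by
    intro i
    refine SC.SS_inv (X i).mul_inv (hX1 i) ?_
    rw [hX i, map_add, hu i, add_zero, MvPowerSeries.constantCoeff_C]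
    exact (hU i).inv1
  have hY1 : ∀ i, (Y i : MvPowerSeries σ K) ∈ SC.SS S := by
    intro i
    rw [hY i]
    exact SC.SS_subst (hu i) (huS i) (hη i)
  have hY2 : ∀ i, (((Y i)⁻¹ : (MvPowerSeries σ K)ˣ) : MvPowerSeries σ K) ∈ SC.SS S := by
    intro i
    refine SC.SS_inv (Y i).mul_inv (hY1 i) ?_
    rw [hY0 i]
    exact (hU i).inv2
  exact SC.lval_mem_subring (SC.SS S) X Y hX1 hX2 hY1 hY2 T q δ

/-- the value does not involve variables which do not occur in the coordinates -/
theorem lval_support {ι σ : Type} [Fintype ι] [Finite σ] {K : Type} [Field K]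
    (J : Set σ) (U : ι → K × K) (η : ι → PowerSeries K) (u : ι → MvPowerSeries σ K)
    (hu : ∀ i, MvPowerSeries.constantCoeff (u i) = 0)
    (huJ : ∀ i (δ : σ →₀ ℕ), (∃ s ∈ J, δ s ≠ 0) → MvPowerSeries.coeff δ (u i) = 0)
    (X Y : ι → (MvPowerSeries σ K)ˣ)
    (hX : ∀ i, (X i : MvPowerSeries σ K) = MvPowerSeries.C (U i).1 + u i)
    (hY : ∀ i, (Y i : MvPowerSeries σ K) = PowerSeries.subst (u i) (η i))
    (T : Finset (ι → ℤ × ℤ)) (q : (ι → ℤ × ℤ) → ℤ) (δ : σ →₀ ℕ) (hδ : ∃ s ∈ J, δ s ≠ 0) :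
    MvPowerSeries.coeff δ (lval T q X Y) = 0 := by
  classical
  have hX1 : ∀ i, (X i : MvPowerSeries σ K) ∈ SC.SJ J := by
    intro i
    rw [hX i]
    refine (SC.SJ J).add_mem ?_ (huJ i)
    rw [SC.mem_SJ]
    rintro δ ⟨s, hs, hδ⟩
    rw [MvPowerSeries.coeff_C, if_neg]
    rintro rfl
    exact hδ rfl
  have hY1 : ∀ i, (Y i : MvPowerSeries σ K) ∈ SC.SJ J := by
    intro i
    rw [hY i]
    exact SC.SJ_subst (hu i) (huJ i) (η i)
  exact SC.lval_mem_subring (SC.SJ J) X Y hX1 (fun i => SC.SJ_inv (X i).mul_inv (hX1 i)) hY1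
    (fun i => SC.SJ_inv (Y i).mul_inv (hY1 i)) T q δ hδ

end

end Pool.Agent.PC
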