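import Pool.Agent.Lib.MP_c95b3b_ag_PC.DefsS
import Pool.Agent.Lib.MP_c95b3b_ag_AL.BA
import Pool.Agent.Lib.MP_c95b3b_ag_AL.BF

/-! Project PC (MP_c95b3b_ag), module SD: norms. -/

namespace Pool.Agent.PC

open Pool.Agent.L3 Pool.Agent.AL Module MvPolynomial

namespace SD

/-- powers of a series without constant coefficient -/
theorem coeff_pow_zero {σ : Type} {K : Type} [CommRing K] (u : MvPowerSeries σ K)
    (hu : MvPowerSeries.constantCoeff u = 0) (γ : σ →₀ ℕ) (n : ℕ) (hn : γ.degree < n) :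
    MvPowerSeries.coeff γ (u ^ n) = 0 :=
  MvPowerSeries.coeff_eq_zero_of_constantCoeff_nilpotent (m := 1) (by rw [hu]; simp) (by omega)

theorem coeff_mul_pow_zero {σ : Type} {K : Type} [CommRing K] (g u : MvPowerSeries σ K)
    (hu : MvPowerSeries.constantCoeff u = 0) (γ : σ →₀ ℕ) (n : ℕ) (hn : γ.degree < n) :
    MvPowerSeries.coeff γ (g * u ^ n) = 0 := by
  classical
  rw [MvPowerSeries.coeff_mul]
  refine Finset.sum_eq_zero fun p hp => ?_
  have hsum : p.1 + p.2 = γ := Finset.HasAntidiagonal.mem_antidiagonal.mp hp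
  have hd : p.2.degree < n := by
    refine lt_of_le_of_lt ?_ hn
    rw [← hsum, map_add]
    exact Nat.le_add_left _ _
  rw [coeff_pow_zero u hu p.2 n hd, mul_zero]

theorem geom_le (t : ENNReal) (ht : 2 * t ≤ 1) (n : ℕ) :
    ∑ j ∈ Finset.range n, t ^ j ≤ 2 := by
  have h : ∑ j ∈ Finset.range n, t ^ j + 2 * t ^ n ≤ 2 := by
    induction n with
    | zero => simp
    | succ n ih =>
      rw [Finset.sum_range_succ]
      calc ∑ j ∈ Finset.range n, t ^ j + t ^ n + 2 * t ^ (n + 1)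
          = ∑ j ∈ Finset.range n, t ^ j + (t ^ n + (2 * t) * t ^ n) := by ring
        _ ≤ ∑ j ∈ Finset.range n, t ^ j + (t ^ n + 1 * t ^ n) := by gcongr
        _ = ∑ j ∈ Finset.range n, t ^ j + 2 * t ^ n := by ring
        _ ≤ 2 := ih
  exact le_trans (le_add_of_nonneg_right zero_le) h

/-- the norm of a sum of a geometric type -/
theorem norm_geom {B : Type} [CommRing B] {κ : ℕ} (hκ : κ ≤ 1) (μ : Nm B κ) (f : ℕ → B)
    (b t : ENNReal) (ht : 2 ^ κ * t ≤ 1) (hf : ∀ j, μ.N (f j) ≤ b * t ^ j) (n : ℕ) :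
    μ.N (∑ j ∈ Finset.range n, f j) ≤ b * 2 ^ κ := by
  rcases Nat.le_one_iff_eq_zero_or_eq_one.mp hκ with h0 | h0
  · subst h0
    rw [pow_zero, one_mul] at ht
    refine le_trans (Nm.sum_le μ hκ _ _ b fun j _ => ?_) (by simp)
    refine le_trans (hf j) ?_
    calc b * t ^ j ≤ b * 1 := mul_le_mul' le_rfl (pow_le_one' ht j)
      _ = b := mul_one b
  · subst h0
    rw [pow_one] at ht
    refine le_trans (BA.sum_le' μ _ _) (le_trans (Finset.sum_le_sum fun j _ => hf j) ?_)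
    rw [← Finset.mul_sum, pow_one]
    exact mul_le_mul' le_rfl (geom_le t ht n)

theorem coeff_subst_sub {σ : Type} {K : Type} [Field K] (u : MvPowerSeries σ K)
    (hu : MvPowerSeries.constantCoeff u = 0) (c : PowerSeries K) (γ : σ →₀ ℕ) (n : ℕ)
    (hn : γ.degree ≤ n) :
    MvPowerSeries.coeff γ (∑ j ∈ Finset.range n, MvPowerSeries.C (PowerSeries.coeff (j + 1) c) *
      u ^ (j + 1)) =
    MvPowerSeries.coeff γ (PowerSeries.subst u c -
      MvPowerSeries.C (PowerSeries.constantCoeff c)) := by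
  classical
  have hs : PowerSeries.HasSubst u := PowerSeries.HasSubst.of_constantCoeff_zero hu
  rw [map_sub, PowerSeries.coeff_subst hs]
  have h1 : ∑ᶠ d : ℕ, PowerSeries.coeff d c • MvPowerSeries.coeff γ (u ^ d) =
      ∑ d ∈ Finset.range (n + 1), PowerSeries.coeff d c • MvPowerSeries.coeff γ (u ^ d) := by
    refine finsum_eq_sum_of_support_subset _ fun d hd => ?_
    rw [Function.mem_support] at hd
    rw [Finset.coe_range, Set.mem_Iio]
    by_contra hcon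
    apply hd
    rw [coeff_pow_zero u hu γ d (by omega), smul_zero]
  rw [h1, Finset.sum_range_succ', map_sum]
  have h2 : PowerSeries.coeff 0 c • MvPowerSeries.coeff γ (u ^ 0) =
      MvPowerSeries.coeff γ (MvPowerSeries.C (PowerSeries.constantCoeff c)) := by
    rw [pow_zero, MvPowerSeries.coeff_one, MvPowerSeries.coeff_C, PowerSeries.coeff_zero_eq_constantCoeff_apply]
    split_ifs <;> simp
  rw [h2, add_sub_cancel_right]
  refine Finset.sum_congr rfl fun j _ => ?_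
  rw [MvPowerSeries.coeff_C_mul, smul_eq_mul]

end SD

theorem psN_subst {σ : Type} [Fintype σ] {K : Type} [Field K] {κ : ℕ} (hκ : κ ≤ 1) (ν : Nm K κ)
    (ρ : σ → ENNReal) (u : MvPowerSeries σ K) (hu : MvPowerSeries.constantCoeff u = 0)
    (c : PowerSeries K) (r b t : ENNReal) (hr : psN ν ρ u ≤ r)
    (hc : ∀ j, 1 ≤ j → ν.N (PowerSeries.coeff j c) * r ^ j ≤ b * t ^ j) (ht : 2 ^ κ * t ≤ 1) :
    psN ν ρ (PowerSeries.subst u c - MvPowerSeries.C (PowerSeries.constantCoeff c)) ≤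
      b * (2 ^ κ * t) := by
  obtain ⟨μ, hμ⟩ := exists_ps ν ρ
  refine psN_le_of_limit ν ρ _ (fun n => ∑ j ∈ Finset.range n,
    MvPowerSeries.C (PowerSeries.coeff (j + 1) c) * u ^ (j + 1)) _ (fun n => ?_) (fun γ => ?_)
  · rw [← hμ]
    refine le_trans (SD.norm_geom hκ μ _ (b * t) t ht (fun j => ?_) n) (le_of_eq (by ring))
    refine le_trans (μ.mul _ _) ?_
    have h1 : μ.N (MvPowerSeries.C (PowerSeries.coeff (j + 1) c)) =
        ν.N (PowerSeries.coeff (j + 1) c) := by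
      rw [hμ, psN_C]
    have h2 : μ.N (u ^ (j + 1)) ≤ r ^ (j + 1) := by
      refine le_trans (Nm.pow_le μ _ _) (pow_le_pow_left' ?_ _)
      rw [hμ]
      exact hr
    rw [h1]
    calc ν.N (PowerSeries.coeff (j + 1) c) * μ.N (u ^ (j + 1))
        ≤ ν.N (PowerSeries.coeff (j + 1) c) * r ^ (j + 1) := mul_le_mul' le_rfl h2
      _ ≤ b * t ^ (j + 1) := hc (j + 1) (by omega)
      _ = b * t * t ^ j := by ring
  · filter_upwards [Filter.eventually_ge_atTop γ.degree] with n hn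
    exact SD.coeff_subst_sub u hu c γ n hn

namespace SD

theorem N_one {K : Type} [Field K] {κ : ℕ} (ν : Nm K κ)
    (hmul : ∀ x y, ν.N (x * y) = ν.N x * ν.N y) (a : K)
    (hna : ν.N a ≠ ⊤) (hna0 : ν.N a ≠ 0) : ν.N 1 = 1 := by
  have h := hmul a 1
  rw [mul_one] at h
  have h2 : ν.N a * ν.N 1 = ν.N a * 1 := by rw [mul_one]; exact h.symm
  exact (ENNReal.mul_right_inj hna0 hna).mp h2

theorem N_pow {K : Type} [Field K] {κ : ℕ} (ν : Nm K κ)
    (hmul : ∀ x y, ν.N (x * y) = ν.N x * ν.N y) (h1 : ν.N 1 = 1) (z : K) (m : ℕ) :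
    ν.N (z ^ m) = ν.N z ^ m := by
  induction m with
  | zero => simp [h1]
  | succ m ih => rw [pow_succ, pow_succ, hmul, ih]

/-- the inverse of a unit near a constant -/
theorem psN_inv {σ : Type} [Fintype σ] {K : Type} [Field K] {κ : ℕ} (hκ : κ ≤ 1) (ν : Nm K κ)
    (ρ : σ → ENNReal) (a : K) (ha : a ≠ 0)
    (X : (MvPowerSeries σ K)ˣ) (v : MvPowerSeries σ K)
    (hv0 : MvPowerSeries.constantCoeff v = 0)
    (hXv : (X : MvPowerSeries σ K) = MvPowerSeries.C a * (1 + v))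
    (h : 2 ^ κ * psN ν ρ v ≤ 1) :
    psN ν ρ ((X⁻¹ : (MvPowerSeries σ K)ˣ) : MvPowerSeries σ K) ≤ ν.N a⁻¹ * 2 ^ κ := by
  obtain ⟨μ, hμ⟩ := exists_ps ν ρ
  have hneg : MvPowerSeries.constantCoeff (-v) = 0 := by rw [map_neg, hv0, neg_zero]
  have haa : (MvPowerSeries.C a⁻¹ : MvPowerSeries σ K) * MvPowerSeries.C a = 1 := by
    rw [← map_mul, inv_mul_cancel₀ ha, map_one]
  have key : ∀ n : ℕ, MvPowerSeries.C a⁻¹ * ∑ j ∈ Finset.range n, (-v) ^ j =
      ((X⁻¹ : (MvPowerSeries σ K)ˣ) : MvPowerSeries σ K) -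
        ((X⁻¹ : (MvPowerSeries σ K)ˣ) : MvPowerSeries σ K) * (-v) ^ n := by
    intro n
    have h1 : (∑ j ∈ Finset.range n, (-v) ^ j) * (1 + v) = 1 - (-v) ^ n := by
      have h2 := geom_sum_mul_neg (-v) n
      rw [sub_neg_eq_add] at h2
      exact h2
    have h3 : (X : MvPowerSeries σ K) * (MvPowerSeries.C a⁻¹ * ∑ j ∈ Finset.range n, (-v) ^ j) =
        1 - (-v) ^ n := by
      rw [hXv, ← h1]
      calc MvPowerSeries.C a * (1 + v) * (MvPowerSeries.C a⁻¹ * ∑ j ∈ Finset.range n, (-v) ^ j)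
          = (MvPowerSeries.C a⁻¹ * MvPowerSeries.C a) *
              ((∑ j ∈ Finset.range n, (-v) ^ j) * (1 + v)) := by ring
        _ = (∑ j ∈ Finset.range n, (-v) ^ j) * (1 + v) := by rw [haa, one_mul]
    have h4 : ((X⁻¹ : (MvPowerSeries σ K)ˣ) : MvPowerSeries σ K) * (X : MvPowerSeries σ K) = 1 :=
      Units.inv_mul X
    calc MvPowerSeries.C a⁻¹ * ∑ j ∈ Finset.range n, (-v) ^ j
        = (((X⁻¹ : (MvPowerSeries σ K)ˣ) : MvPowerSeries σ K) * (X : MvPowerSeries σ K)) *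
            (MvPowerSeries.C a⁻¹ * ∑ j ∈ Finset.range n, (-v) ^ j) := by rw [h4, one_mul]
      _ = ((X⁻¹ : (MvPowerSeries σ K)ˣ) : MvPowerSeries σ K) * ((X : MvPowerSeries σ K) *
            (MvPowerSeries.C a⁻¹ * ∑ j ∈ Finset.range n, (-v) ^ j)) := by ring
      _ = _ := by rw [h3, mul_sub, mul_one]
  refine psN_le_of_limit ν ρ _
    (fun n => MvPowerSeries.C a⁻¹ * ∑ j ∈ Finset.range n, (-v) ^ j) _ (fun n => ?_) (fun γ => ?_)
  · rw [← hμ]
    refine le_trans (μ.mul _ _) ?_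
    have h1 : μ.N (MvPowerSeries.C a⁻¹) = ν.N a⁻¹ := by rw [hμ, psN_C]
    rw [h1]
    refine mul_le_mul' le_rfl ?_
    refine le_trans (norm_geom hκ μ (fun j => (-v) ^ j) 1 (psN ν ρ v) h (fun j => ?_) n)
      (le_of_eq (one_mul _))
    refine le_trans (Nm.pow_le μ _ _) ?_
    rw [μ.neg, hμ, one_mul]
  · filter_upwards [Filter.eventually_ge_atTop (γ.degree + 1)] with n hn
    rw [key n, map_sub, coeff_mul_pow_zero _ (-v) hneg γ n (by omega), sub_zero]

end SD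

theorem psN_zpow {σ : Type} [Fintype σ] {K : Type} [Field K] {κ : ℕ} (hκ : κ ≤ 1) (ν : Nm K κ)
    (hmul : ∀ x y, ν.N (x * y) = ν.N x * ν.N y) (ρ : σ → ENNReal) (a : K) (ha : a ≠ 0)
    (hna : ν.N a ≠ ⊤) (hna0 : ν.N a ≠ 0)
    (X : (MvPowerSeries σ K)ˣ) (hX : MvPowerSeries.constantCoeff (X : MvPowerSeries σ K) = a)
    (h : psN ν ρ ((X : MvPowerSeries σ K) - MvPowerSeries.C a) * 2 ^ κ ≤ ν.N a) (n : ℤ) :
    psN ν ρ ((X ^ n : (MvPowerSeries σ K)ˣ) : MvPowerSeries σ K) ≤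
      ν.N (a ^ n) * 2 ^ (κ * n.natAbs) := by
  obtain ⟨μ, hμ⟩ := exists_ps ν ρ
  have hN1 : ν.N 1 = 1 := SD.N_one ν hmul a hna hna0
  have haa : ν.N a⁻¹ * ν.N a = 1 := by
    rw [← hmul, inv_mul_cancel₀ ha, hN1]
  have hCC : (MvPowerSeries.C a : MvPowerSeries σ K) * MvPowerSeries.C a⁻¹ = 1 := by
    rw [← map_mul, mul_inv_cancel₀ ha, map_one]
  obtain ⟨v, hv⟩ : ∃ v : MvPowerSeries σ K,
      v = MvPowerSeries.C a⁻¹ * ((X : MvPowerSeries σ K) - MvPowerSeries.C a) := ⟨_, rfl⟩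
  have hv0 : MvPowerSeries.constantCoeff v = 0 := by
    have hC : MvPowerSeries.constantCoeff (MvPowerSeries.C a : MvPowerSeries σ K) = a :=
      MvPowerSeries.constantCoeff_C a
    rw [hv, map_mul, map_sub, hX, hC, sub_self, mul_zero]
  have hXv : (X : MvPowerSeries σ K) = MvPowerSeries.C a * (1 + v) := by
    rw [hv, mul_add, mul_one, ← mul_assoc, hCC, one_mul]
    ring
  have hvN : 2 ^ κ * psN ν ρ v ≤ 1 := by
    have h1 : psN ν ρ v ≤ ν.N a⁻¹ * psN ν ρ ((X : MvPowerSeries σ K) - MvPowerSeries.C a) := by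
      rw [hv, ← hμ]
      refine le_trans (μ.mul _ _) (mul_le_mul' (le_of_eq ?_) le_rfl)
      rw [hμ, psN_C]
    calc 2 ^ κ * psN ν ρ v
        ≤ 2 ^ κ * (ν.N a⁻¹ * psN ν ρ ((X : MvPowerSeries σ K) - MvPowerSeries.C a)) :=
          mul_le_mul' le_rfl h1
      _ = ν.N a⁻¹ * (psN ν ρ ((X : MvPowerSeries σ K) - MvPowerSeries.C a) * 2 ^ κ) := by ring
      _ ≤ ν.N a⁻¹ * ν.N a := mul_le_mul' le_rfl h
      _ = 1 := haa
  have hinv := SD.psN_inv hκ ν ρ a ha X v hv0 hXv hvN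
  have hpos : psN ν ρ (X : MvPowerSeries σ K) ≤ ν.N a * 2 ^ κ := by
    rw [hXv, ← hμ]
    refine le_trans (μ.mul _ _) ?_
    have h1 : μ.N (MvPowerSeries.C a) = ν.N a := by rw [hμ, psN_C]
    rw [h1]
    refine mul_le_mul' le_rfl ?_
    have h2 : μ.N v ≤ 1 := by
      rw [hμ]
      refine le_trans ?_ hvN
      calc psN ν ρ v = 1 * psN ν ρ v := (one_mul _).symm
        _ ≤ 2 ^ κ * psN ν ρ v := mul_le_mul' (one_le_pow₀ one_le_two) le_rfl
    rcases Nat.le_one_iff_eq_zero_or_eq_one.mp hκ with h0 | h0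
    · subst h0
      rw [pow_zero]
      exact le_trans (μ.ultra rfl _ _) (max_le μ.one h2)
    · subst h0
      rw [pow_one]
      refine le_trans (μ.add _ _) (le_trans (add_le_add μ.one h2) ?_)
      exact le_of_eq one_add_one_eq_two
  rcases n with m | m
  · have h1 : ((X ^ (Int.ofNat m) : (MvPowerSeries σ K)ˣ) : MvPowerSeries σ K) =
        (X : MvPowerSeries σ K) ^ m := by
      rw [Int.ofNat_eq_natCast, zpow_natCast, Units.val_pow_eq_pow_val]
    have h2 : a ^ (Int.ofNat m) = a ^ m := by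
      rw [Int.ofNat_eq_natCast, zpow_natCast]
    rw [h1, h2, SD.N_pow ν hmul hN1, ← hμ]
    refine le_trans (Nm.pow_le μ _ _) ?_
    rw [hμ]
    refine le_trans (pow_le_pow_left' hpos m) (le_of_eq ?_)
    rw [mul_pow, ← pow_mul]
    simp
  · have h1 : ((X ^ (Int.negSucc m) : (MvPowerSeries σ K)ˣ) : MvPowerSeries σ K) =
        ((X⁻¹ : (MvPowerSeries σ K)ˣ) : MvPowerSeries σ K) ^ (m + 1) := by
      rw [zpow_negSucc, ← inv_pow, Units.val_pow_eq_pow_val]
    have h2 : a ^ (Int.negSucc m) = a⁻¹ ^ (m + 1) := by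
      rw [zpow_negSucc, inv_pow]
    rw [h1, h2, SD.N_pow ν hmul hN1, ← hμ]
    refine le_trans (Nm.pow_le μ _ _) ?_
    rw [hμ]
    refine le_trans (pow_le_pow_left' hinv (m + 1)) (le_of_eq ?_)
    rw [mul_pow, ← pow_mul]
    simp

namespace SD

theorem kap_le {K : Type} [Field K] {S : Subring K} {P : Places K S} (w : P.Pl) : kap w ≤ 1 := by
  rcases w with i | j
  · exact le_refl 1
  · exact zero_le_one

theorem arch_eq {K : Type} [Field K] {S : Subring K} {P : Places K S} (w : P.Pl) :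
    P.arch w = ((kap w : ℕ) : ℝ) := by
  rcases w with i | j
  · change (1 : ℝ) = ((1 : ℕ) : ℝ)
    simp
  · change (0 : ℝ) = ((0 : ℕ) : ℝ)
    simp

theorem absP_mul {K : Type} [Field K] {S : Subring K} {P : Places K S} (w : P.Pl) (x y : K) :
    absP w (x * y) = absP w x * absP w y := by
  rcases w with i | j
  · change ‖P.σ i (x * y)‖ = ‖P.σ i x‖ * ‖P.σ i y‖
    rw [map_mul, norm_mul]
  · change P.v j (x * y) = P.v j x * P.v j y
    rw [map_mul]

theorem absP_zpow {K : Type} [Field K] {S : Subring K} {P : Places K S} (w : P.Pl) (x : K)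
    (n : ℤ) : absP w (x ^ n) = absP w x ^ n := by
  rcases w with i | j
  · change ‖P.σ i (x ^ n)‖ = ‖P.σ i x‖ ^ n
    rw [map_zpow₀, norm_zpow]
  · change P.v j (x ^ n) = P.v j x ^ n
    rw [map_zpow₀]

theorem lg_eq {K : Type} [Field K] {S : Subring K} (P : Places K S) (w : P.Pl) (x : K) :
    P.lg w x = Real.log (absP w x) := rfl

/-- the norm of a power of a unit, real form -/
theorem unit_bound {σ : Type} [Fintype σ] {K : Type} [Field K] {S : Subring K}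
    (P : Places K S) (w : P.Pl) (ν : Nm K (kap w))
    (hν : ∀ x, ν.N x = ENNReal.ofReal (absP w x)) (ρ : σ → ENNReal) (a : K) (ha : a ≠ 0)
    (X : (MvPowerSeries σ K)ˣ) (hX : MvPowerSeries.constantCoeff (X : MvPowerSeries σ K) = a)
    (h : psN ν ρ ((X : MvPowerSeries σ K) - MvPowerSeries.C a) * 2 ^ kap w ≤ ν.N a) (n : ℤ) :
    psN ν ρ ((X ^ n : (MvPowerSeries σ K)ˣ) : MvPowerSeries σ K) ≤
      ENNReal.ofReal (Real.exp ((n : ℝ) * P.lg w a + P.arch w * (|(n : ℝ)| * Real.log 2))) := by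
  have hap : 0 < absP w a := BF.absP_pos w a ha
  have hmul : ∀ x y, ν.N (x * y) = ν.N x * ν.N y := by
    intro x y
    rw [hν, hν, hν, absP_mul, ENNReal.ofReal_mul (BF.absP_nonneg w x)]
  refine le_trans (psN_zpow (kap_le w) ν hmul ρ a ha ?_ ?_ X hX h n) (le_of_eq ?_)
  · rw [hν]
    exact ENNReal.ofReal_ne_top
  · rw [hν]
    exact (ENNReal.ofReal_pos.mpr hap).ne'
  · have h2 : ((2 : ENNReal)) ^ (kap w * n.natAbs) =
        ENNReal.ofReal ((2 : ℝ) ^ (kap w * n.natAbs)) := by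
      rw [ENNReal.ofReal_pow (by norm_num)]
      congr 1
      simp
    rw [hν, absP_zpow, h2, ← ENNReal.ofReal_mul (zpow_nonneg hap.le n)]
    congr 1
    rw [Real.exp_add]
    congr 1
    · rw [lg_eq, mul_comm, Real.exp_mul, Real.exp_log hap, Real.rpow_intCast]
    · have h3 : P.arch w * (|(n : ℝ)| * Real.log 2) = Real.log 2 * ((kap w * n.natAbs : ℕ) : ℝ) := by
        rw [arch_eq, Nat.cast_mul, Nat.cast_natAbs, Int.cast_abs]
        ring
      rw [h3, Real.exp_mul, Real.exp_log (by norm_num), Real.rpow_natCast]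

end SD

theorem local_boundC {ι σ : Type} [Fintype ι] [DecidableEq ι] [Fintype σ] {K : Type} [Field K]
    {S : Subring K} (P : Places K S) (w : P.Pl) (ν : Nm K (kap w))
    (hν : ∀ x, ν.N x = ENNReal.ofReal (absP w x)) (U : ι → K × K)
    (hU : ∀ i, (U i).1 ≠ 0 ∧ (U i).2 ≠ 0) (R : σ → ℝ) (X Y : ι → (MvPowerSeries σ K)ˣ)
    (hX0 : ∀ i, MvPowerSeries.constantCoeff (X i : MvPowerSeries σ K) = (U i).1)
    (hY0 : ∀ i, MvPowerSeries.constantCoeff (Y i : MvPowerSeries σ K) = (U i).2)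
    (hX : ∀ i, psN ν (fun s => ENNReal.ofReal (Real.exp (-(R s))))
      ((X i : MvPowerSeries σ K) - MvPowerSeries.C (U i).1) * 2 ^ kap w ≤ ν.N (U i).1)
    (hY : ∀ i, psN ν (fun s => ENNReal.ofReal (Real.exp (-(R s))))
      ((Y i : MvPowerSeries σ K) - MvPowerSeries.C (U i).2) * 2 ^ kap w ≤ ν.N (U i).2)
    (T : Finset (ι → ℤ × ℤ)) (q : (ι → ℤ × ℤ) → K) (E b L : ℝ)
    (hE : ∀ t ∈ T, ∑ i, (|((t i).1 : ℝ)| + |((t i).2 : ℝ)|) ≤ E)
    (hb : ∀ t ∈ T, ∑ i, (((t i).1 : ℝ) * P.lg w (U i).1 + ((t i).2 : ℝ) * P.lg w (U i).2) ≤ b)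
    (hL : ∀ t ∈ T, absP w (q t) ≤ Real.exp L) (δ : σ →₀ ℕ)
    (hy0 : MvPowerSeries.coeff δ (lval T q X Y) ≠ 0) :
    P.lg w (MvPowerSeries.coeff δ (lval T q X Y)) ≤ b + L + ∑ s, (δ s : ℝ) * R s +
      P.arch w * (Real.log T.card + E * Real.log 2) := by
  obtain ⟨ρ, hρ⟩ : ∃ ρ : σ → ENNReal, ρ = fun s => ENNReal.ofReal (Real.exp (-(R s))) := ⟨_, rfl⟩
  rw [← hρ] at hX hY
  obtain ⟨μ, hμ⟩ := exists_ps ν ρ
  have harch0 : 0 ≤ P.arch w := by
    rw [SD.arch_eq]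
    exact Nat.cast_nonneg _
  have hlog2 : 0 ≤ Real.log 2 := Real.log_nonneg (by norm_num)
  obtain ⟨Bt, hBt⟩ : ∃ Bt : ℝ, Bt = L + b + P.arch w * (E * Real.log 2) := ⟨_, rfl⟩
  have hterm : ∀ t ∈ T, μ.N (algebraMap K (MvPowerSeries σ K) (q t) *
      ((∏ i, (X i ^ (t i).1 * Y i ^ (t i).2) : (MvPowerSeries σ K)ˣ) : MvPowerSeries σ K)) ≤
      ENNReal.ofReal (Real.exp Bt) := by
    intro t ht
    refine le_trans (μ.mul _ _) ?_
    have h1 : μ.N (algebraMap K (MvPowerSeries σ K) (q t)) ≤ ENNReal.ofReal (Real.exp L) := by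
      have h2 : algebraMap K (MvPowerSeries σ K) (q t) = MvPowerSeries.C (q t) := by
        rw [MvPowerSeries.algebraMap_apply]
        rfl
      rw [h2, hμ, psN_C, hν]
      exact ENNReal.ofReal_le_ofReal (hL t ht)
    have h3 : μ.N ((∏ i, (X i ^ (t i).1 * Y i ^ (t i).2) : (MvPowerSeries σ K)ˣ) :
        MvPowerSeries σ K) ≤ ∏ i, ENNReal.ofReal (Real.exp
          ((((t i).1 : ℝ) * P.lg w (U i).1 + ((t i).2 : ℝ) * P.lg w (U i).2) +
            P.arch w * ((|((t i).1 : ℝ)| + |((t i).2 : ℝ)|) * Real.log 2))) := by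
      rw [Units.coe_prod]
      refine le_trans (Nm.prod_le μ _ _) (Finset.prod_le_prod' fun i _ => ?_)
      rw [Units.val_mul]
      refine le_trans (μ.mul _ _) ?_
      rw [hμ]
      refine le_trans (mul_le_mul' (SD.unit_bound P w ν hν ρ _ (hU i).1 (X i) (hX0 i) (hX i) _)
        (SD.unit_bound P w ν hν ρ _ (hU i).2 (Y i) (hY0 i) (hY i) _)) (le_of_eq ?_)
      rw [← ENNReal.ofReal_mul (Real.exp_pos _).le, ← Real.exp_add]
      congr 2
      ring
    refine le_trans (mul_le_mul' h1 h3) ?_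
    rw [← ENNReal.ofReal_prod_of_nonneg (fun i _ => (Real.exp_pos _).le), ← Real.exp_sum,
      ← ENNReal.ofReal_mul (Real.exp_pos _).le, ← Real.exp_add]
    refine ENNReal.ofReal_le_ofReal (Real.exp_le_exp.mpr ?_)
    rw [Finset.sum_add_distrib, ← Finset.mul_sum, ← Finset.sum_mul, hBt]
    have h4 := hb t ht
    have h5 : P.arch w * ((∑ i, (|((t i).1 : ℝ)| + |((t i).2 : ℝ)|)) * Real.log 2) ≤
        P.arch w * (E * Real.log 2) :=
      mul_le_mul_of_nonneg_left (mul_le_mul_of_nonneg_right (hE t ht) hlog2) harch0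
    linarith
  have hsum : μ.N (lval T q X Y) ≤ (T.card : ENNReal) ^ kap w * ENNReal.ofReal (Real.exp Bt) :=
    Nm.sum_le μ (SD.kap_le w) T _ _ hterm
  have hcf := coeff_le_psN ν ρ (lval T q X Y) δ
  rw [← hμ, hν] at hcf
  have hyp : 0 < absP w (MvPowerSeries.coeff δ (lval T q X Y)) := BF.absP_pos w _ hy0
  have hT : 0 < T.card := by
    rcases Finset.eq_empty_or_nonempty T with h | h
    · exfalso
      apply hy0
      rw [h]
      simp [lval]
    · exact Finset.card_pos.mpr h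
  have hTr : (0 : ℝ) < (T.card : ℝ) := by exact_mod_cast hT
  have h8 : (∏ s, ρ s ^ δ s) = ENNReal.ofReal (Real.exp (-∑ s, (δ s : ℝ) * R s)) := by
    rw [hρ, ← Finset.sum_neg_distrib, Real.exp_sum,
      ENNReal.ofReal_prod_of_nonneg (fun i _ => (Real.exp_pos _).le)]
    refine Finset.prod_congr rfl fun s _ => ?_
    rw [← ENNReal.ofReal_pow (Real.exp_pos _).le, ← Real.exp_nat_mul]
    congr 2
    ring
  have h9 : (T.card : ENNReal) ^ kap w = ENNReal.ofReal ((T.card : ℝ) ^ kap w) := by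
    rw [ENNReal.ofReal_pow hTr.le, ENNReal.ofReal_natCast]
  have h7 := le_trans hcf hsum
  rw [h8, h9, ← ENNReal.ofReal_mul hyp.le, ← ENNReal.ofReal_mul (by positivity),
    ENNReal.ofReal_le_ofReal_iff (by positivity)] at h7
  have h10 := Real.log_le_log (mul_pos hyp (Real.exp_pos _)) h7
  rw [Real.log_mul hyp.ne' (Real.exp_pos _).ne', Real.log_mul (pow_pos hTr _).ne'
    (Real.exp_pos _).ne', Real.log_exp, Real.log_exp, Real.log_pow, ← SD.arch_eq, hBt] at h10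
  rw [SD.lg_eq]
  linarith

namespace SD

theorem exp_arch {K : Type} [Field K] {S : Subring K} {P : Places K S} (w : P.Pl) :
    Real.exp (-(P.arch w * Real.log 8)) = ((8 : ℝ) ^ kap w)⁻¹ := by
  rw [Real.exp_neg, arch_eq, mul_comm, Real.exp_mul, Real.exp_log (by norm_num),
    Real.rpow_natCast]

theorem real_pow (y e r x t : ℝ) (hr : 0 < r) (he : 0 < e) (j : ℕ) (hx : x = e⁻¹ * t * r) :
    y * (e / r) ^ j * x ^ j = y * t ^ j := by
  rw [hx, mul_assoc, ← mul_pow]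
  congr 2
  field_simp

end SD

/-- the point near `U` is a good one -/
theorem point_bound {σ : Type} [Fintype σ] {K : Type} [Field K] {S : Subring K}
    (P : Places K S) (w : P.Pl) (ν : Nm K (kap w)) (hν : ∀ x, ν.N x = ENNReal.ofReal (absP w x))
    (Bd : Polynomial ℤ) (U : K × K) (hU1 : U.1 ≠ 0) (hU2 : U.2 ≠ 0) (cw : ℝ) (hcw : 0 ≤ cw)
    (hr : 0 < rad Bd w U.1) (η : PowerSeries K) (hη : PowerSeries.constantCoeff η = U.2)
    (hc : ∀ j, absP w (PowerSeries.coeff j η) ≤ absP w U.2 * (Real.exp cw / rad Bd w U.1) ^ j)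
    (ρ : σ → ENNReal) (u : MvPowerSeries σ K) (hu0 : MvPowerSeries.constantCoeff u = 0)
    (hu : psN ν ρ u ≤ ENNReal.ofReal (Real.exp (-cw - P.arch w * Real.log 8) * rad Bd w U.1)) :
    psN ν ρ u * 2 ^ kap w ≤ ν.N U.1 ∧
      psN ν ρ (PowerSeries.subst u η - MvPowerSeries.C U.2) * 2 ^ kap w ≤ ν.N U.2 := by
  have ha1 : 0 < absP w U.1 := BF.absP_pos w _ hU1
  have ha2 : 0 < absP w U.2 := BF.absP_pos w _ hU2
  have h2r : ((2 : ENNReal)) ^ kap w = ENNReal.ofReal ((2 : ℝ) ^ kap w) := by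
    rw [ENNReal.ofReal_pow (by norm_num)]
    congr 1
    simp
  have hκ := SD.kap_le w
  have h8pos : (0 : ℝ) < ((8 : ℝ) ^ kap w)⁻¹ := by positivity
  have h28 : ((8 : ℝ) ^ kap w)⁻¹ * 2 ^ kap w ≤ 1 := by
    rw [inv_mul_le_iff₀ (by positivity), mul_one]
    exact pow_le_pow_left₀ (by norm_num) (by norm_num) _
  have h48 : (2 : ℝ) ^ kap w * ((8 : ℝ) ^ kap w)⁻¹ * 2 ^ kap w ≤ 1 := by
    have h : (2 : ℝ) ^ kap w * ((8 : ℝ) ^ kap w)⁻¹ * 2 ^ kap w =
        ((8 : ℝ) ^ kap w)⁻¹ * 4 ^ kap w := by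
      have h4 : (4 : ℝ) ^ kap w = 2 ^ kap w * 2 ^ kap w := by
        rw [← mul_pow]
        norm_num
      rw [h4]
      ring
    rw [h, inv_mul_le_iff₀ (by positivity), mul_one]
    exact pow_le_pow_left₀ (by norm_num) (by norm_num) _
  have hexp : Real.exp (-cw - P.arch w * Real.log 8) =
      (Real.exp cw)⁻¹ * ((8 : ℝ) ^ kap w)⁻¹ := by
    rw [← SD.exp_arch, ← Real.exp_neg, ← Real.exp_add, sub_eq_add_neg]
  have hrad1 : rad Bd w U.1 ≤ absP w U.1 := min_le_right _ _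
  constructor
  · refine le_trans (mul_le_mul' hu le_rfl) ?_
    rw [h2r, ← ENNReal.ofReal_mul (by positivity), hν]
    refine ENNReal.ofReal_le_ofReal ?_
    have he : (Real.exp cw)⁻¹ ≤ 1 := inv_le_one_of_one_le₀ (Real.one_le_exp hcw)
    rw [hexp]
    calc (Real.exp cw)⁻¹ * ((8 : ℝ) ^ kap w)⁻¹ * rad Bd w U.1 * 2 ^ kap w
        = (Real.exp cw)⁻¹ * (((8 : ℝ) ^ kap w)⁻¹ * 2 ^ kap w) * rad Bd w U.1 := by ring
      _ ≤ 1 * 1 * rad Bd w U.1 := by
          refine mul_le_mul_of_nonneg_right ?_ hr.le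
          exact mul_le_mul he h28 (by positivity) zero_le_one
      _ ≤ absP w U.1 := by rw [one_mul, one_mul]; exact hrad1
  · have hmain := psN_subst hκ ν ρ u hu0 η
      (ENNReal.ofReal (Real.exp (-cw - P.arch w * Real.log 8) * rad Bd w U.1)) (ν.N U.2)
      (ENNReal.ofReal ((8 : ℝ) ^ kap w)⁻¹) hu (fun j _ => ?_) ?_
    · rw [hη] at hmain
      refine le_trans (mul_le_mul' hmain le_rfl) ?_
      rw [hν, h2r, ← ENNReal.ofReal_mul (by positivity), ← ENNReal.ofReal_mul ha2.le,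
        ← ENNReal.ofReal_mul (by positivity)]
      refine ENNReal.ofReal_le_ofReal ?_
      calc absP w U.2 * (2 ^ kap w * ((8 : ℝ) ^ kap w)⁻¹) * 2 ^ kap w
          = absP w U.2 * (2 ^ kap w * ((8 : ℝ) ^ kap w)⁻¹ * 2 ^ kap w) := by ring
        _ ≤ absP w U.2 * 1 := mul_le_mul_of_nonneg_left h48 ha2.le
        _ = absP w U.2 := mul_one _
    · rw [hν, hν, ← ENNReal.ofReal_pow (by positivity), ← ENNReal.ofReal_pow h8pos.le,
        ← ENNReal.ofReal_mul (BF.absP_nonneg w _), ← ENNReal.ofReal_mul ha2.le]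
      refine ENNReal.ofReal_le_ofReal ?_
      refine le_trans (mul_le_mul_of_nonneg_right (hc j) (by positivity)) (le_of_eq ?_)
      refine SD.real_pow _ _ _ _ _ hr (Real.exp_pos cw) j ?_
      rw [hexp]
    · rw [h2r, ← ENNReal.ofReal_mul (by positivity), mul_comm]
      exact ENNReal.ofReal_le_one.mpr h28

end Pool.Agent.PC
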