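import Pool.Agent.Lib.MP_c95b3b_ag_PC.DefsS
import Pool.Agent.Lib.MP_c95b3b_ag_AL.BG

/-! Project PC (MP_c95b3b_ag), module SE: the radius of convergence of the branch. -/

namespace Pool.Agent.PC

open Pool.Agent.L3 Pool.Agent.AL Pool.Agent.AL.BG Module MvPolynomial

theorem exists_radiusC {ι : Type} [Fintype ι] [DecidableEq ι] {q : ℕ} (blk : ι → Fin (q + 1))
    (I : Finset ι) (d : ℕ) : ∃ A : ℝ, 0 ≤ A ∧
    ∀ (K : Type) [Field K] (S : Subring K) (P : Places K S) (U : ι → K)
      (g : ι → MvPolynomial ι ℤ) (Ξ : ι → MvPowerSeries ι K) (h : Fin (q + 1) → ℝ)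
      (rr : P.Pl → ι → ℝ),
      (∀ i, U i ≠ 0) → (∀ i, U i ∈ S) → IsRel I blk U g → IsBranch I U g Ξ →
      BranchNorm I blk U g Ξ →
      (∀ l, l ∉ I → ∀ i, (g l).degreeOf i ≤ d) → (∀ j, 1 ≤ h j) →
      (∀ l, l ∉ I → Real.log (l1 (g l)) ≤ d * h (blk l)) →
      (∀ i, P.avg (fun w => |P.lg w (U i)|) ≤ h (blk i)) → (∀ w i, 0 < rr w i) →
      (∀ i, P.avg (fun w => |Real.log (rr w i)|) ≤ h (blk i)) →
      ∃ R : P.Pl → Fin (q + 1) → ℝ,
        (∀ j, P.avg (fun w => R w j) ≤ A * h j) ∧
        ∀ (w : P.Pl) (ν : Nm K (kap w)), (∀ x, ν.N x = ENNReal.ofReal (absP w x)) → ∀ i,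
          psN ν (fun i => ENNReal.ofReal (Real.exp (-(R w (blk i)))))
            (Ξ i - MvPowerSeries.C (U i)) ≤ ENNReal.ofReal (rr w i) := by
  classical
  set n : ℕ := Fintype.card ι with hn
  have hlogd : 0 ≤ Real.log ((d:ℝ) + 1) := Real.log_nonneg (by
    have : (0:ℝ) ≤ d := Nat.cast_nonneg d
    linarith)
  have hlog2 : 0 < Real.log 2 := Real.log_pos (by norm_num)
  set Z : ℝ := n * Real.log ((d:ℝ) + 1) + (d + d * n * Real.log 2 + Real.log ((d:ℝ) + 1)) + n * d
    with hZ
  have hZ0 : 0 ≤ Z := by positivity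
  refine ⟨n + n * (1 + 2 * Z), by positivity, ?_⟩
  intro K _ S P U g Ξ h rr hU0 hUS hrel hbr hbn hdeg hh hl1 havg hrr hravg
  -- the data
  set r : P.Pl → ι → ℝ := rr with hr
  set g1 : ι → K := fun l => aeval U (pderiv l (g l)) with hg1
  set Al : P.Pl → ι → ℝ := fun w l => (l1 (g l) * 2 ^ (d * n) * (d + 1)) ^ kap w *
    ∏ i, max 1 (absP w (U i)) ^ (g l).degreeOf i with hAl
  set D : P.Pl → ι → ℝ := fun w l =>
    (((d:ℝ) + 1) ^ n) ^ kap w * Al w l * (absP w (g1 l))⁻¹ with hD
  set r' : P.Pl → ι → ℝ := fun w l => min (r w l) (D w l)⁻¹ with hr'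
  set Rl : P.Pl → ι → ℝ := fun w l => r' w l * (D w l)⁻¹ with hRl
  have hrpos : ∀ (w : P.Pl) (i : ι), 0 < r w i := hrr
  have hg1ne : ∀ l, l ∉ I → g1 l ≠ 0 := fun l hl => hrel.der l hl
  have hgne : ∀ l, l ∉ I → g l ≠ 0 := by
    intro l hl h0
    apply hg1ne l hl
    simp [hg1, h0]
  have hl1pos : ∀ l, l ∉ I → 1 ≤ l1 (g l) := fun l hl => one_le_l1 (hgne l hl)
  have hmaxpos : ∀ (w : P.Pl) (i : ι), (0:ℝ) < max 1 (absP w (U i)) := fun w i =>
    lt_of_lt_of_le zero_lt_one (le_max_left _ _)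
  have hprod1 : ∀ (w : P.Pl) (l : ι), (1:ℝ) ≤ ∏ i, max 1 (absP w (U i)) ^ (g l).degreeOf i := fun w l => by
    calc (1:ℝ) = ∏ _i : ι, (1:ℝ) := by rw [Finset.prod_const_one]
      _ ≤ _ := Finset.prod_le_prod (fun _ _ => zero_le_one) fun i _ =>
        one_le_pow₀ (le_max_left _ _)
  -- bounds by `Al`
  have hbound : ∀ (w : P.Pl) (l : ι), l ∉ I → ∀ f : MvPolynomial ι ℤ, (∀ i, f.degreeOf i ≤ (g l).degreeOf i) →
      l1 f ≤ l1 (g l) * 2 ^ (d * n) * (d + 1) → absP w (aeval U f) ≤ Al w l := by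
    intro w l hl f hf hf1
    refine (absP_aeval w U f).trans ?_
    rw [hAl]
    refine mul_le_mul (pow_le_pow_left₀ (l1_nonneg f) hf1 _)
      (Finset.prod_le_prod (fun i _ => pow_nonneg (hmaxpos w i).le _) fun i _ =>
        pow_le_pow_right₀ (le_max_left _ _) (hf i))
      (Finset.prod_nonneg fun i _ => pow_nonneg (hmaxpos w i).le _) (pow_nonneg ?_ _)
    have := hl1pos l hl
    positivity
  have hsumdeg : ∀ l, l ∉ I → ∑ i, (g l).degreeOf i ≤ d * n := by
    intro l hl
    calc ∑ i, (g l).degreeOf i ≤ ∑ _i : ι, d := Finset.sum_le_sum fun i _ => hdeg l hl i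
      _ = d * n := by rw [Finset.sum_const, Finset.card_univ, smul_eq_mul, mul_comm]
  have hcoeff : ∀ (w : P.Pl) (l : ι), l ∉ I → ∀ γ, absP w (coeff γ (shf U (g l))) ≤ Al w l := by
    intro w l hl γ
    rw [coeff_shf]
    refine hbound w l hl _ (fun i => degreeOf_hs γ (g l) i) ?_
    have h1 := l1_hs γ (g l)
    have h2 := hl1pos l hl
    have h3 : (2:ℝ) ^ (∑ i, (g l).degreeOf i) ≤ 2 ^ (d * n) :=
      pow_le_pow_right₀ (by norm_num) (hsumdeg l hl)
    have h4 : (2:ℝ) ^ (∑ i, (g l).degreeOf i) * l1 (g l) ≤ 2 ^ (d * n) * l1 (g l) :=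
      mul_le_mul_of_nonneg_right h3 (by linarith)
    have h5 : (0:ℝ) ≤ l1 (g l) * 2 ^ (d * n) := by positivity
    have h6 : (0:ℝ) ≤ d := Nat.cast_nonneg d
    nlinarith
  have hg1le : ∀ (w : P.Pl) (l : ι), l ∉ I → absP w (g1 l) ≤ Al w l := by
    intro w l hl
    refine hbound w l hl _ (fun i => degreeOf_pderiv_le (g l) l i) ?_
    have h1 := l1_pderiv (g l) l
    have h2 := hl1pos l hl
    have h3 : (((g l).degreeOf l : ℕ) : ℝ) ≤ d := by exact_mod_cast hdeg l hl l
    have h4 : (((g l).degreeOf l : ℕ) : ℝ) * l1 (g l) ≤ d * l1 (g l) :=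
      mul_le_mul_of_nonneg_right h3 (by linarith)
    have h5 : (1:ℝ) ≤ 2 ^ (d * n) := one_le_pow₀ (by norm_num)
    have h6 : (0:ℝ) ≤ d := Nat.cast_nonneg d
    have h7 : l1 (g l) ≤ l1 (g l) * 2 ^ (d * n) := le_mul_of_one_le_right (by linarith) h5
    have h8 : d * l1 (g l) ≤ d * (l1 (g l) * 2 ^ (d * n)) := mul_le_mul_of_nonneg_left h7 h6
    nlinarith
  have hg1pos : ∀ (w : P.Pl) (l : ι), l ∉ I → 0 < absP w (g1 l) := fun w l hl => absP_pos w (hg1ne l hl)
  have hAlpos : ∀ (w : P.Pl) (l : ι), l ∉ I → 0 < Al w l := fun w l hl =>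
    lt_of_lt_of_le (hg1pos w l hl) (hg1le w l hl)
  have hd1 : (1:ℝ) ≤ ((d:ℝ) + 1) ^ n := one_le_pow₀ (by
    have : (0:ℝ) ≤ d := Nat.cast_nonneg d
    linarith)
  have hD1 : ∀ (w : P.Pl) (l : ι), l ∉ I → 1 ≤ D w l := by
    intro w l hl
    rw [hD]
    have h1 : (1:ℝ) ≤ (((d:ℝ) + 1) ^ n) ^ kap w := one_le_pow₀ hd1
    have h2 := hg1le w l hl
    have h3 := hg1pos w l hl
    have h4 := hAlpos w l hl
    have h5 : absP w (g1 l) ≤ (((d:ℝ) + 1) ^ n) ^ kap w * Al w l :=
      h2.trans (le_mul_of_one_le_left h4.le h1)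
    calc (1:ℝ) = absP w (g1 l) * (absP w (g1 l))⁻¹ := (mul_inv_cancel₀ h3.ne').symm
      _ ≤ _ := mul_le_mul_of_nonneg_right h5 (inv_nonneg.2 h3.le)
  have hDpos : ∀ (w : P.Pl) (l : ι), l ∉ I → 0 < D w l := fun w l hl => lt_of_lt_of_le zero_lt_one (hD1 w l hl)
  have hr'pos : ∀ (w : P.Pl) (l : ι), l ∉ I → 0 < r' w l := fun w l hl =>
    lt_min (hrpos w l) (inv_pos.2 (hDpos w l hl))
  have hr'1 : ∀ (w : P.Pl) (l : ι), l ∉ I → r' w l ≤ 1 := fun w l hl =>
    (min_le_right _ _).trans (inv_le_one_of_one_le₀ (hD1 w l hl))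
  have hRlpos : ∀ (w : P.Pl) (l : ι), l ∉ I → 0 < Rl w l := fun w l hl =>
    mul_pos (hr'pos w l hl) (inv_pos.2 (hDpos w l hl))
  have hRl1 : ∀ (w : P.Pl) (l : ι), l ∉ I → Rl w l ≤ 1 := fun w l hl =>
    mul_le_one₀ (hr'1 w l hl) (inv_nonneg.2 (hDpos w l hl).le)
      (inv_le_one_of_one_le₀ (hD1 w l hl))
  set R : P.Pl → Fin (q + 1) → ℝ := fun w j =>
    (∏ i ∈ I.filter (fun i => blk i = j), min 1 (r w i)) *
      ∏ l ∈ Iᶜ.filter (fun l => blk l = j), Rl w l with hR
  have hA1 : ∀ (w : P.Pl) (i : ι), 0 < min 1 (r w i) := fun w i => lt_min zero_lt_one (hrpos w i)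
  have hmemc : ∀ {l : ι} {j : Fin (q + 1)}, l ∈ Iᶜ.filter (fun l => blk l = j) → l ∉ I := by
    intro l j hl
    exact Finset.mem_compl.1 (Finset.mem_filter.1 hl).1
  have hP1pos : ∀ (w : P.Pl) (j : Fin (q + 1)), 0 < ∏ i ∈ I.filter (fun i => blk i = j), min 1 (r w i) := fun w j =>
    Finset.prod_pos fun i _ => hA1 w i
  have hP2pos : ∀ (w : P.Pl) (j : Fin (q + 1)), 0 < ∏ l ∈ Iᶜ.filter (fun l => blk l = j), Rl w l := fun w j =>
    Finset.prod_pos fun l hl => hRlpos w l (hmemc hl)
  have hP1le : ∀ (w : P.Pl) (j : Fin (q + 1)), ∏ i ∈ I.filter (fun i => blk i = j), min 1 (r w i) ≤ 1 := fun w j =>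
    Finset.prod_le_one (fun i _ => (hA1 w i).le) fun i _ => min_le_left _ _
  have hP2le : ∀ (w : P.Pl) (j : Fin (q + 1)), ∏ l ∈ Iᶜ.filter (fun l => blk l = j), Rl w l ≤ 1 := fun w j =>
    Finset.prod_le_one (fun l hl => (hRlpos w l (hmemc hl)).le) fun l hl => hRl1 w l (hmemc hl)
  have hRpos : ∀ w j, 0 < R w j := fun w j => mul_pos (hP1pos w j) (hP2pos w j)
  refine ⟨fun w j => -Real.log (R w j), ?_, ?_⟩
  · -- averages
    intro j
    have hj0 : 0 ≤ h j := le_trans zero_le_one (hh j)
    have hlv : ∀ (w : P.Pl) (i : ι), -Real.log (min 1 (r w i)) ≤ |Real.log (r w i)| := by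
      intro w i
      rcases le_total 1 (r w i) with h1 | h1
      · rw [min_eq_left h1, Real.log_one, neg_zero]
        exact abs_nonneg _
      · rw [min_eq_right h1]
        exact neg_le_abs _
    -- the logarithm of `D`
    have hlogD : ∀ (w : P.Pl) (l : ι), l ∉ I → Real.log (D w l) =
        (n * Real.log ((d:ℝ) + 1) + (Real.log (l1 (g l)) + (d * n : ℕ) * Real.log 2 +
          Real.log ((d:ℝ) + 1))) * P.arch w +
          ∑ i, ((g l).degreeOf i : ℝ) * Real.log (max 1 (absP w (U i))) - P.lg w (g1 l) := by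
      intro w l hl
      have e1 : (0:ℝ) < (((d:ℝ) + 1) ^ n) ^ kap w := by positivity
      have e2 : (0:ℝ) < l1 (g l) := lt_of_lt_of_le zero_lt_one (hl1pos l hl)
      have e3 : (0:ℝ) < ∏ i, max 1 (absP w (U i)) ^ (g l).degreeOf i :=
        lt_of_lt_of_le zero_lt_one (hprod1 w l)
      have e4 : (0:ℝ) < (l1 (g l) * 2 ^ (d * n) * (d + 1)) ^ kap w := by positivity
      have e5 : (0:ℝ) < (d:ℝ) + 1 := by positivity
      simp only [hD, hAl]
      rw [Real.log_mul (mul_pos e1 (mul_pos e4 e3)).ne' (inv_pos.2 (hg1pos w l hl)).ne',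
        Real.log_mul e1.ne' (mul_pos e4 e3).ne', Real.log_mul e4.ne' e3.ne', Real.log_pow,
        Real.log_pow, Real.log_pow, Real.log_mul (by positivity) e5.ne',
        Real.log_mul e2.ne' (by positivity), Real.log_pow, Real.log_inv, log_absP, kap_cast,
        Real.log_prod (fun i _ => (pow_pos (hmaxpos w i) _).ne')]
      have e6 : ∑ i, Real.log (max 1 (absP w (U i)) ^ (g l).degreeOf i) =
          ∑ i, ((g l).degreeOf i : ℝ) * Real.log (max 1 (absP w (U i))) :=
        Finset.sum_congr rfl fun i _ => Real.log_pow _ _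
      rw [e6]
      ring
    have hlogmax : ∀ (w : P.Pl) (i : ι), Real.log (max 1 (absP w (U i))) ≤ |P.lg w (U i)| := by
      intro w i
      rcases le_total (absP w (U i)) 1 with h1 | h1
      · rw [max_eq_left h1, Real.log_one]
        exact abs_nonneg _
      · rw [max_eq_right h1, log_absP]
        exact le_abs_self _
    have havgD : ∀ l, l ∉ I → P.avg (fun w => Real.log (D w l)) ≤ Z * h (blk l) := by
      intro l hl
      have hjl : 1 ≤ h (blk l) := hh (blk l)
      have h1 : P.avg (fun w => Real.log (D w l)) ≤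
          (n * Real.log ((d:ℝ) + 1) + (Real.log (l1 (g l)) + (d * n : ℕ) * Real.log 2 +
          Real.log ((d:ℝ) + 1))) + ∑ i, ((g l).degreeOf i : ℝ) * P.avg (fun w => |P.lg w (U i)|) -
          P.avg (fun w => P.lg w (g1 l)) := by
        rw [← P.avg_const_arch (n * Real.log ((d:ℝ) + 1) + (Real.log (l1 (g l)) +
          (d * n : ℕ) * Real.log 2 + Real.log ((d:ℝ) + 1)))]
        have h2 : ∑ i, ((g l).degreeOf i : ℝ) * P.avg (fun w => |P.lg w (U i)|) =
            P.avg (fun w => ∑ i, ((g l).degreeOf i : ℝ) * |P.lg w (U i)|) := by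
          rw [P.avg_sum]
          exact Finset.sum_congr rfl fun i _ => (P.avg_mul _ _).symm
        rw [h2, ← P.avg_add, ← P.avg_sub]
        refine P.avg_mono fun w => ?_
        rw [hlogD w l hl]
        have h3 : ∑ i, ((g l).degreeOf i : ℝ) * Real.log (max 1 (absP w (U i))) ≤
            ∑ i, ((g l).degreeOf i : ℝ) * |P.lg w (U i)| :=
          Finset.sum_le_sum fun i _ =>
            mul_le_mul_of_nonneg_left (hlogmax w i) (Nat.cast_nonneg _)
        linarith
      have h2 : 0 ≤ P.avg (fun w => P.lg w (g1 l)) :=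
        P.avg_lg_nonneg (aeval_mem U hUS _) (hg1ne l hl)
      have h3 : ∀ i ∈ (Finset.univ : Finset ι),
          ((g l).degreeOf i : ℝ) * P.avg (fun w => |P.lg w (U i)|) ≤ d * h (blk l) := by
        intro i _
        have h0 : 0 ≤ P.avg (fun w => |P.lg w (U i)|) := P.avg_nonneg fun w => abs_nonneg _
        by_cases hi : i ∈ (g l).vars
        · have hb : blk i = blk l := by
            rcases hrel.vars l hl i hi with rfl | h4
            · rfl
            · exact h4.2
          have h5 := havg i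
          rw [hb] at h5
          have h6 : (((g l).degreeOf i : ℕ) : ℝ) ≤ d := by exact_mod_cast hdeg l hl i
          exact mul_le_mul h6 h5 h0 (Nat.cast_nonneg _)
        · have h7 : (g l).degreeOf i = 0 := by
            by_contra h8
            exact hi (mem_vars_iff_degreeOf_ne_zero.2 h8)
          rw [h7, Nat.cast_zero, zero_mul]
          exact mul_nonneg (Nat.cast_nonneg _) (by linarith)
      have h4 := Finset.sum_le_sum h3
      rw [Finset.sum_const, Finset.card_univ, nsmul_eq_mul, ← hn] at h4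
      have h5 := hl1 l hl
      have h6 : (0:ℝ) ≤ n * Real.log ((d:ℝ) + 1) := by positivity
      have h7 : (0:ℝ) ≤ (d * n : ℕ) * Real.log 2 := by positivity
      have h8 : n * Real.log ((d:ℝ) + 1) ≤ n * Real.log ((d:ℝ) + 1) * h (blk l) :=
        le_mul_of_one_le_right h6 hjl
      have h9 : ((d * n : ℕ) : ℝ) * Real.log 2 ≤ (d * n : ℕ) * Real.log 2 * h (blk l) :=
        le_mul_of_one_le_right h7 hjl
      have h10 : Real.log ((d:ℝ) + 1) ≤ Real.log ((d:ℝ) + 1) * h (blk l) :=
        le_mul_of_one_le_right hlogd hjl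
      have h11 : ((d * n : ℕ) : ℝ) = (d:ℝ) * n := by push_cast; ring
      rw [h11] at h1 h9
      rw [hZ]
      nlinarith
    have hneg : ∀ (w : P.Pl) (l : ι), l ∉ I → -Real.log (Rl w l) ≤ |Real.log (r w l)| + 2 * Real.log (D w l) := by
      intro w l hl
      have h1 : Real.log (Rl w l) = Real.log (r' w l) - Real.log (D w l) := by
        simp only [hRl]
        rw [Real.log_mul (hr'pos w l hl).ne' (inv_pos.2 (hDpos w l hl)).ne', Real.log_inv]
        ring
      have h2 : 0 ≤ Real.log (D w l) := Real.log_nonneg (hD1 w l hl)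
      have h3 : -Real.log (r' w l) ≤ |Real.log (r w l)| + Real.log (D w l) := by
        simp only [hr']
        rcases le_total (r w l) (D w l)⁻¹ with h4 | h4
        · rw [min_eq_left h4]
          have h5 := hlv w l
          have h6 : min 1 (r w l) = r w l :=
            min_eq_right (h4.trans (inv_le_one_of_one_le₀ (hD1 w l hl)))
          rw [h6] at h5
          linarith
        · rw [min_eq_right h4, Real.log_inv]
          have := abs_nonneg (Real.log (r w l))
          linarith
      linarith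
    have h1 : P.avg (fun w => -Real.log (R w j)) ≤
        ∑ i ∈ I.filter (fun i => blk i = j), P.avg (fun w => |Real.log (r w i)|) +
        ∑ l ∈ Iᶜ.filter (fun l => blk l = j), (P.avg (fun w => |Real.log (r w l)|) +
          2 * P.avg (fun w => Real.log (D w l))) := by
      have h2 : ∑ i ∈ I.filter (fun i => blk i = j), P.avg (fun w => |Real.log (r w i)|) +
          ∑ l ∈ Iᶜ.filter (fun l => blk l = j), (P.avg (fun w => |Real.log (r w l)|) +
          2 * P.avg (fun w => Real.log (D w l))) =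
          P.avg (fun w => ∑ i ∈ I.filter (fun i => blk i = j), |Real.log (r w i)| +
            ∑ l ∈ Iᶜ.filter (fun l => blk l = j), (|Real.log (r w l)| + 2 * Real.log (D w l))) := by
        rw [P.avg_add, P.avg_sum, P.avg_sum]
        congr 1
        refine Finset.sum_congr rfl fun l _ => ?_
        rw [P.avg_add, P.avg_mul]
      rw [h2]
      refine P.avg_mono fun w => ?_
      have h3 : Real.log (R w j) = ∑ i ∈ I.filter (fun i => blk i = j), Real.log (min 1 (r w i)) +
          ∑ l ∈ Iᶜ.filter (fun l => blk l = j), Real.log (Rl w l) := by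
        simp only [hR]
        rw [Real.log_mul (hP1pos w j).ne' (hP2pos w j).ne',
          Real.log_prod (fun i _ => (hA1 w i).ne'),
          Real.log_prod (fun l hl => (hRlpos w l (hmemc hl)).ne')]
      rw [h3, neg_add, ← Finset.sum_neg_distrib, ← Finset.sum_neg_distrib]
      exact add_le_add (Finset.sum_le_sum fun i _ => hlv w i)
        (Finset.sum_le_sum fun l hl => hneg w l (hmemc hl))
    have h2 : ∑ i ∈ I.filter (fun i => blk i = j), P.avg (fun w => |Real.log (r w i)|) ≤ n * h j := by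
      have h3 : ∀ i ∈ I.filter (fun i => blk i = j), P.avg (fun w => |Real.log (r w i)|) ≤ h j := by
        intro i hi
        have := hravg i
        rwa [(Finset.mem_filter.1 hi).2] at this
      refine (Finset.sum_le_card_nsmul _ _ _ h3).trans ?_
      rw [nsmul_eq_mul]
      refine mul_le_mul_of_nonneg_right ?_ hj0
      exact_mod_cast Finset.card_le_univ _
    have h3 : ∑ l ∈ Iᶜ.filter (fun l => blk l = j), (P.avg (fun w => |Real.log (r w l)|) +
          2 * P.avg (fun w => Real.log (D w l))) ≤ n * ((1 + 2 * Z) * h j) := by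
      have h4 : ∀ l ∈ Iᶜ.filter (fun l => blk l = j), (P.avg (fun w => |Real.log (r w l)|) +
          2 * P.avg (fun w => Real.log (D w l))) ≤ (1 + 2 * Z) * h j := by
        intro l hl
        have h5 := hravg l
        have h6 := havgD l (hmemc hl)
        rw [(Finset.mem_filter.1 hl).2] at h5 h6
        linarith
      refine (Finset.sum_le_card_nsmul _ _ _ h4).trans ?_
      rw [nsmul_eq_mul]
      refine mul_le_mul_of_nonneg_right ?_ (by positivity)
      exact_mod_cast Finset.card_le_univ _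
    calc _ ≤ n * h j + n * ((1 + 2 * Z) * h j) := h1.trans (add_le_add h2 h3)
      _ = _ := by ring
  · -- norms
    intro w ν hν i
    simp only [neg_neg]
    have hexp : (fun i => ENNReal.ofReal (Real.exp (Real.log (R w (blk i))))) =
        fun i => ENNReal.ofReal (R w (blk i)) := by
      funext i'
      rw [Real.exp_log (hRpos w (blk i'))]
    rw [hexp]
    by_cases hi : i ∈ I
    · rw [hbr.free i hi, add_sub_cancel_left]
      refine (psN_X ν _ i).trans (ENNReal.ofReal_le_ofReal ?_)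
      have h1 : ∏ i' ∈ I.filter (fun i' => blk i' = blk i), min 1 (r w i') ≤ min 1 (r w i) := by
        have h2 : i ∈ I.filter (fun i' => blk i' = blk i) := Finset.mem_filter.2 ⟨hi, rfl⟩
        rw [← Finset.mul_prod_erase _ _ h2]
        exact mul_le_of_le_one_right (hA1 w i).le (Finset.prod_le_one (fun i' _ => (hA1 w i').le)
          fun i' _ => min_le_left _ _)
      calc R w (blk i) ≤ min 1 (r w i) * 1 := by
            simp only [hR]
            exact mul_le_mul h1 (hP2le w _) (hP2pos w _).le (hA1 w i).le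
        _ = min 1 (r w i) := mul_one _
        _ ≤ r w i := min_le_right _ _
    · have hRle : R w (blk i) ≤ Rl w i := by
        have h1 : ∏ l ∈ Iᶜ.filter (fun l => blk l = blk i), Rl w l ≤ Rl w i := by
          have h2 : i ∈ Iᶜ.filter (fun l => blk l = blk i) :=
            Finset.mem_filter.2 ⟨Finset.mem_compl.2 hi, rfl⟩
          rw [← Finset.mul_prod_erase _ _ h2]
          exact mul_le_of_le_one_right (hRlpos w i hi).le (Finset.prod_le_one
            (fun l hl => (hRlpos w l (hmemc (Finset.mem_of_mem_erase hl))).le)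
            fun l hl => hRl1 w l (hmemc (Finset.mem_of_mem_erase hl)))
        calc R w (blk i) ≤ 1 * Rl w i := by
              simp only [hR]
              exact mul_le_mul (hP1le w _) h1 (hP2pos w _).le zero_le_one
          _ = Rl w i := one_mul _
      have hcard : (((shf U (g i)).support.card : ENNReal) ^ kap w * ENNReal.ofReal (Al w i)) ≤
          ENNReal.ofReal ((((d:ℝ) + 1) ^ n) ^ kap w * Al w i) := by
        have h1 : ((shf U (g i)).support.card : ENNReal) = ENNReal.ofReal
            ((shf U (g i)).support.card : ℝ) := (ENNReal.ofReal_natCast _).symm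
        rw [h1, ← ENNReal.ofReal_pow (Nat.cast_nonneg _), ← ENNReal.ofReal_mul (by positivity)]
        refine ENNReal.ofReal_le_ofReal (mul_le_mul_of_nonneg_right ?_ (hAlpos w i hi).le)
        refine pow_le_pow_left₀ (Nat.cast_nonneg _) ?_ _
        have h2 := card_shf U (g i) d (hdeg i hi)
        rw [← hn] at h2
        exact_mod_cast h2
      have hN : ν.N (aeval U (pderiv i (g i)))⁻¹ = ENNReal.ofReal ((absP w (g1 i))⁻¹) := by
        rw [hν, absP_inv]
      have hND : ν.N (aeval U (pderiv i (g i)))⁻¹ *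
          (((shf U (g i)).support.card : ENNReal) ^ kap w * ENNReal.ofReal (Al w i)) ≤
          ENNReal.ofReal (D w i) := by
        rw [hN]
        calc ENNReal.ofReal ((absP w (g1 i))⁻¹) *
              (((shf U (g i)).support.card : ENNReal) ^ kap w * ENNReal.ofReal (Al w i)) ≤
              ENNReal.ofReal ((absP w (g1 i))⁻¹) *
                ENNReal.ofReal ((((d:ℝ) + 1) ^ n) ^ kap w * Al w i) := by gcongr
          _ = ENNReal.ofReal (D w i) := by
              rw [← ENNReal.ofReal_mul (inv_nonneg.2 (hg1pos w i hi).le)]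
              congr 1
              simp only [hD]
              ring
      refine (hbn i hi (kap w) ν (ENNReal.ofReal (Al w i)) (ENNReal.ofReal (r' w i))
        (ENNReal.ofReal (Rl w i)) _ (kap_le w) ?_ ?_ ?_ ?_ ?_ ?_).trans
        (ENNReal.ofReal_le_ofReal (min_le_left _ _))
      · intro γ
        rw [hν]
        exact ENNReal.ofReal_le_ofReal (hcoeff w i hi γ)
      · calc _ ≤ ENNReal.ofReal (D w i) * ENNReal.ofReal (Rl w i) := by gcongr
          _ = ENNReal.ofReal (r' w i) := by
              rw [← ENNReal.ofReal_mul (hDpos w i hi).le]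
              congr 1
              simp only [hRl]
              rw [mul_comm, mul_assoc, inv_mul_cancel₀ (hDpos w i hi).ne', mul_one]
      · calc _ ≤ ENNReal.ofReal (D w i) * ENNReal.ofReal (r' w i) := by gcongr
          _ ≤ 1 := by
              rw [← ENNReal.ofReal_mul (hDpos w i hi).le]
              rw [← ENNReal.ofReal_one]
              refine ENNReal.ofReal_le_ofReal ?_
              calc D w i * r' w i ≤ D w i * (D w i)⁻¹ :=
                    mul_le_mul_of_nonneg_left (min_le_right _ _) (hDpos w i hi).le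
                _ = 1 := mul_inv_cancel₀ (hDpos w i hi).ne'
      · rw [← ENNReal.ofReal_one]
        exact ENNReal.ofReal_le_ofReal (hr'1 w i hi)
      · rw [← ENNReal.ofReal_one]
        exact ENNReal.ofReal_le_ofReal (hRl1 w i hi)
      · intro i' _ hb
        refine ENNReal.ofReal_le_ofReal ?_
        rw [hb]
        exact hRle

end Pool.Agent.PC
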