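import Pool.Agent.Lib.MP_c95b3b_ag_PC.DefsS
import Pool.Agent.Lib.MP_c95b3b_ag_PC.SA
import Pool.Agent.Lib.MP_c95b3b_ag_PC.SB
import Pool.Agent.Lib.MP_c95b3b_ag_PC.SC
import Pool.Agent.Lib.MP_c95b3b_ag_PC.SD
import Pool.Agent.Lib.MP_c95b3b_ag_AL.BC
import Pool.Agent.Lib.MP_c95b3b_ag_AL.BE
import Pool.Agent.Lib.MP_c95b3b_ag_AL.BF

/-! Project PC (MP_c95b3b_ag), module SF: the inequality for a non-zero value. -/

namespace Pool.Agent.PC

open Pool.Agent.L3 Pool.Agent.AL Module MvPolynomial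

namespace SF

section
variable {ι κ K : Type} [Field K]

/-! ## power series in `z` as power series in `τ` and `z` -/

theorem inZ_C [Finite ι] [Finite κ] (a : K) :
    (inZ (MvPowerSeries.C a : MvPowerSeries ι K) : MvPowerSeries (κ ⊕ ι) K) =
      MvPowerSeries.C a := by
  unfold inZ
  exact MvPowerSeries.rename_C _ a

theorem inZ_sub [Finite ι] [Finite κ] (F G : MvPowerSeries ι K) :
    (inZ (F - G) : MvPowerSeries (κ ⊕ ι) K) = inZ F - inZ G := by
  unfold inZ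
  exact map_sub _ F G

theorem const_inZ [Finite ι] [Finite κ] (F : MvPowerSeries ι K) :
    MvPowerSeries.constantCoeff (inZ F : MvPowerSeries (κ ⊕ ι) K) =
      MvPowerSeries.constantCoeff F := by
  unfold inZ
  exact MvPowerSeries.constantCoeff_rename _ F

theorem coeff_inZ_mem [Finite ι] [Finite κ] {S : Subring K} (F : MvPowerSeries ι K)
    (h : ∀ γ, MvPowerSeries.coeff γ F ∈ S) (δ : κ ⊕ ι →₀ ℕ) :
    MvPowerSeries.coeff δ (inZ F : MvPowerSeries (κ ⊕ ι) K) ∈ S := by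
  unfold inZ
  rw [MvPowerSeries.coeff_rename]
  exact S.sum_mem fun γ _ => h γ

theorem coeff_inZ_zero [Finite ι] [Finite κ] (F : MvPowerSeries ι K) (i : ι)
    (h : ∀ γ : ι →₀ ℕ, γ i ≠ 0 → MvPowerSeries.coeff γ F = 0) (δ : κ ⊕ ι →₀ ℕ)
    (hδ : δ (Sum.inr i) ≠ 0) :
    MvPowerSeries.coeff δ (inZ F : MvPowerSeries (κ ⊕ ι) K) = 0 := by
  unfold inZ
  rw [MvPowerSeries.coeff_rename]
  refine Finset.sum_eq_zero fun γ hγ => h γ ?_
  rw [Set.Finite.mem_toFinset, Set.mem_preimage, Set.mem_singleton_iff] at hγ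
  rw [← hγ, Finsupp.mapDomain_apply Sum.inr_injective] at hδ
  exact hδ

theorem coeff_inZ_not_range [Finite ι] [Finite κ] (F : MvPowerSeries ι K) (δ : κ ⊕ ι →₀ ℕ)
    (hδ : δ ∉ Set.range (Finsupp.mapDomain (Sum.inr : ι → κ ⊕ ι))) :
    MvPowerSeries.coeff δ (inZ F : MvPowerSeries (κ ⊕ ι) K) = 0 := by
  unfold inZ
  exact MvPowerSeries.coeff_rename_eq_zero _ F hδ

theorem coeff_inZ_map [Finite ι] [Finite κ] (F : MvPowerSeries ι K) (γ : ι →₀ ℕ) :
    MvPowerSeries.coeff (Finsupp.mapDomain (Sum.inr : ι → κ ⊕ ι) γ)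
      (inZ F : MvPowerSeries (κ ⊕ ι) K) = MvPowerSeries.coeff γ F := by
  have h := MvPowerSeries.coeff_embDomain_rename
    (⟨Sum.inr, Sum.inr_injective⟩ : ι ↪ κ ⊕ ι) F γ
  rw [Finsupp.embDomain_eq_mapDomain] at h
  exact h

theorem prod_map [Fintype ι] [Fintype κ] (ρ : κ ⊕ ι → ENNReal) (γ : ι →₀ ℕ) :
    ∏ s, ρ s ^ (Finsupp.mapDomain (Sum.inr : ι → κ ⊕ ι) γ) s = ∏ i, ρ (Sum.inr i) ^ γ i := by
  rw [Fintype.prod_sum_type]
  have h1 : ∀ k : κ, (Finsupp.mapDomain (Sum.inr : ι → κ ⊕ ι) γ) (Sum.inl k) = 0 := by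
    intro k
    refine Finsupp.mapDomain_of_notMem_range γ _ ?_
    rintro ⟨i, hi⟩
    cases hi
  have h2 : ∀ i : ι, (Finsupp.mapDomain (Sum.inr : ι → κ ⊕ ι) γ) (Sum.inr i) = γ i :=
    fun i => Finsupp.mapDomain_apply Sum.inr_injective γ i
  rw [Finset.prod_eq_one fun k _ => by rw [h1 k, pow_zero], one_mul]
  exact Finset.prod_congr rfl fun i _ => by rw [h2 i]

theorem psN_inZ [Fintype ι] [Fintype κ] {c : ℕ} (ν : Nm K c) (ρ : κ ⊕ ι → ENNReal)
    (F : MvPowerSeries ι K) : psN ν ρ (inZ F : MvPowerSeries (κ ⊕ ι) K) ≤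
      psN ν (fun i => ρ (Sum.inr i)) F := by
  by_cases hc : c = 0
  · unfold psN
    rw [if_pos hc, if_pos hc]
    refine iSup_le fun δ => ?_
    by_cases hδ : δ ∈ Set.range (Finsupp.mapDomain (Sum.inr : ι → κ ⊕ ι))
    · obtain ⟨γ, rfl⟩ := hδ
      rw [coeff_inZ_map, prod_map]
      exact le_iSup (fun γ : ι →₀ ℕ =>
        ν.N (MvPowerSeries.coeff γ F) * ∏ i, ρ (Sum.inr i) ^ γ i) γ
    · rw [coeff_inZ_not_range F δ hδ, ν.zero, zero_mul]
      exact bot_le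
  · unfold psN
    rw [if_neg hc, if_neg hc]
    have hinj : Function.Injective (Finsupp.mapDomain (M := ℕ) (Sum.inr : ι → κ ⊕ ι)) :=
      Finsupp.mapDomain_injective Sum.inr_injective
    have h1 : ∑' δ : κ ⊕ ι →₀ ℕ,
        ν.N (MvPowerSeries.coeff δ (inZ F : MvPowerSeries (κ ⊕ ι) K)) * ∏ s, ρ s ^ δ s =
        ∑' γ : ι →₀ ℕ, ν.N (MvPowerSeries.coeff (Finsupp.mapDomain (Sum.inr : ι → κ ⊕ ι) γ)
          (inZ F : MvPowerSeries (κ ⊕ ι) K)) *
            ∏ s, ρ s ^ (Finsupp.mapDomain (Sum.inr : ι → κ ⊕ ι) γ) s := by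
      refine (hinj.tsum_eq ?_).symm
      intro δ hδ
      by_contra hno
      apply hδ
      change ν.N (MvPowerSeries.coeff δ (inZ F : MvPowerSeries (κ ⊕ ι) K)) * ∏ s, ρ s ^ δ s = 0
      rw [coeff_inZ_not_range F δ hno, ν.zero, zero_mul]
    rw [h1]
    refine le_of_eq (tsum_congr fun γ => ?_)
    rw [coeff_inZ_map, prod_map]

/-! ## changes of the algebra structure over `ℤ` -/

theorem aeval_inst {σ : Type} {B : Type} [CommRing B] (i1 i2 : Algebra ℤ B) (Z : σ → B)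
    (f : MvPolynomial σ ℤ) : @aeval ℤ B σ _ _ i1 Z f = @aeval ℤ B σ _ _ i2 Z f := by
  rw [Subsingleton.elim i1 i2]

theorem lval_inst [Fintype ι] {B : Type} [CommRing B] (i1 i2 : Algebra ℤ B)
    (T : Finset (ι → ℤ × ℤ)) (q : (ι → ℤ × ℤ) → ℤ) (x y : ι → Bˣ) :
    @lval ι _ ℤ B _ _ i1 T q x y = @lval ι _ ℤ B _ _ i2 T q x y := by
  rw [Subsingleton.elim i1 i2]

theorem exists_der {A : Type} [CommRing A] [Algebra K A] (D : Derivation K A A) :
    ∃ δ : Derivation ℤ A A, ∀ z, δ z = D z :=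
  ⟨D.restrictScalars ℤ, fun _ => rfl⟩

theorem exists_int {A B : Type} [CommRing A] [CommRing B] [Algebra K A] [Algebra K B]
    (Φ : A →ₐ[K] B) [Fintype ι] (T : Finset (ι → ℤ × ℤ)) (q : (ι → ℤ × ℤ) → ℤ) (x y : ι → Aˣ) :
    Φ (lval T q x y) = lval T q (fun i => Units.map (Φ : A →* B) (x i))
      (fun i => Units.map (Φ : A →* B) (y i)) :=
  lval_map ((Φ : A →+* B).toIntAlgHom) T q x y

/-! ## points -/

theorem const_aeval {σ : Type} (x y : MvPowerSeries σ K) (f : MvPolynomial (Fin 2) ℤ) :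
    MvPowerSeries.constantCoeff (aeval ![x, y] f) =
      aeval ![MvPowerSeries.constantCoeff x, MvPowerSeries.constantCoeff y] f := by
  induction f using MvPolynomial.induction_on with
  | C a => simp
  | add f g hf hg => simp only [map_add, hf, hg]
  | mul_X f i hf =>
    rw [map_mul, map_mul, map_mul, hf, aeval_X, aeval_X]
    congr 1
    fin_cases i <;> rfl

theorem hom_aeval {A B : Type} [CommRing A] [CommRing B] (φ : A →+* B) (x y : A)
    (f : MvPolynomial (Fin 2) ℤ) : aeval ![φ x, φ y] f = φ (aeval ![x, y] f) := by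
  induction f using MvPolynomial.induction_on with
  | C a => simp
  | add f g hf hg => simp only [map_add, hf, hg]
  | mul_X f i hf =>
    rw [map_mul, map_mul, map_mul, hf, aeval_X, aeval_X]
    congr 1
    fin_cases i <;> rfl

/-- the displacement of the point `Ξ(z) + ξ` -/
noncomputable def uu [Finite ι] (Ξ : ι → MvPowerSeries ι K) (x : ι → K) (i : ι) :
    MvPowerSeries (ι ⊕ ι) K :=
  inZ (Ξ i - MvPowerSeries.C (x i)) + MvPowerSeries.X (Sum.inl i)

theorem C_add_uu [Finite ι] (Ξ : ι → MvPowerSeries ι K) (x : ι → K) (i : ι) :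
    MvPowerSeries.C (x i) + uu Ξ x i = gpt Ξ i := by
  unfold uu gpt
  rw [inZ_sub, inZ_C]
  ring

theorem const_uu [Finite ι] (Ξ : ι → MvPowerSeries ι K) (x : ι → K)
    (h : ∀ i, MvPowerSeries.constantCoeff (Ξ i) = x i) (i : ι) :
    MvPowerSeries.constantCoeff (uu Ξ x i) = 0 := by
  unfold uu
  rw [map_add, const_inZ, map_sub, h i, MvPowerSeries.constantCoeff_C,
    MvPowerSeries.constantCoeff_X, sub_self, add_zero]

theorem uu_support [Finite ι] (Ξ : ι → MvPowerSeries ι K) (x : ι → K) (I : Finset ι)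
    (h : ∀ i γ, (∃ j, j ∉ I ∧ γ j ≠ 0) → MvPowerSeries.coeff γ (Ξ i) = 0) (i : ι)
    (δ : ι ⊕ ι →₀ ℕ) (hδ : ∃ j, j ∉ I ∧ δ (Sum.inr j) ≠ 0) :
    MvPowerSeries.coeff δ (uu Ξ x i) = 0 := by
  classical
  obtain ⟨j, hj, hδ⟩ := hδ
  unfold uu
  rw [map_add, coeff_inZ_zero _ j _ δ hδ, zero_add, MvPowerSeries.coeff_X, if_neg]
  · intro h1
    apply hδ
    rw [h1, Finsupp.single_apply, if_neg]
    intro h2
    cases h2
  · intro γ hγ
    rw [map_sub, h i γ ⟨j, hj, hγ⟩, MvPowerSeries.coeff_C, if_neg, sub_zero]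
    intro h1
    apply hγ
    rw [h1]
    rfl

/-- the derivation along the branch -/
noncomputable def der [Fintype ι] (Ξ : ι → MvPowerSeries ι K) (i : ι) :
    Derivation K (MvPowerSeries (ι ⊕ ι) K) (MvPowerSeries (ι ⊕ ι) K) :=
  MvPowerSeries.pderiv K (Sum.inr i) -
    ∑ i', (inZ (MvPowerSeries.pderiv K i (Ξ i')) : MvPowerSeries (ι ⊕ ι) K) •
      MvPowerSeries.pderiv K (Sum.inl i')

theorem der_apply [Fintype ι] (Ξ : ι → MvPowerSeries ι K) (i : ι)
    (F : MvPowerSeries (ι ⊕ ι) K) : der Ξ i F = MvPowerSeries.pderiv K (Sum.inr i) F -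
      ∑ i', inZ (MvPowerSeries.pderiv K i (Ξ i')) * MvPowerSeries.pderiv K (Sum.inl i') F := by
  classical
  have h1 : ∀ s : Finset ι, (∑ i' ∈ s,
      (inZ (MvPowerSeries.pderiv K i (Ξ i')) : MvPowerSeries (ι ⊕ ι) K) •
        MvPowerSeries.pderiv K (Sum.inl i' : ι ⊕ ι)) F =
      ∑ i' ∈ s, inZ (MvPowerSeries.pderiv K i (Ξ i')) *
        MvPowerSeries.pderiv K (Sum.inl i') F := by
    intro s
    induction s using Finset.induction_on with
    | empty => rw [Finset.sum_empty, Finset.sum_empty, Derivation.zero_apply]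
    | insert a s ha ih =>
      rw [Finset.sum_insert ha, Finset.sum_insert ha, Derivation.add_apply, ih]
      rfl
  unfold der
  rw [Derivation.sub_apply, h1]

theorem der_gpt [Fintype ι] [DecidableEq ι] (Ξ : ι → MvPowerSeries ι K) (i j : ι) :
    der Ξ i (gpt Ξ j) = 0 := by
  have h1 := pderiv_inZ (ι := ι) (κ := ι) (Ξ j)
  rw [der_apply]
  unfold gpt
  simp only [map_add, h1.1, h1.2, MvPowerSeries.pderiv_X]
  rw [Finset.sum_eq_single j]
  · simp
  · intro b _ hb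
    simp [hb.symm]
  · intro h
    exact absurd (Finset.mem_univ _) h

/-- the displacement of the point in the lattice spanned by the vectors `v` -/
noncomputable def wv [Finite ι] [Fintype κ] (Ξ : ι → MvPowerSeries ι K) (x : ι → K)
    (v : κ → ι → K) (i : ι) : MvPowerSeries (κ ⊕ ι) K :=
  inZ (Ξ i - MvPowerSeries.C (x i)) +
    ∑ k, MvPowerSeries.C (v k i) * MvPowerSeries.X (Sum.inl k)

theorem const_wv [Finite ι] [Fintype κ] (Ξ : ι → MvPowerSeries ι K) (x : ι → K)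
    (h : ∀ i, MvPowerSeries.constantCoeff (Ξ i) = x i) (v : κ → ι → K) (i : ι) :
    MvPowerSeries.constantCoeff (wv Ξ x v i) = 0 := by
  unfold wv
  rw [map_add, const_inZ, map_sub, h i, MvPowerSeries.constantCoeff_C, sub_self, zero_add,
    map_sum]
  refine Finset.sum_eq_zero fun k _ => ?_
  rw [map_mul, MvPowerSeries.constantCoeff_X, mul_zero]

theorem wv_mem [Finite ι] [Fintype κ] {S : Subring K} (Ξ : ι → MvPowerSeries ι K) (x : ι → K)
    (hx : ∀ i, x i ∈ S) (hS : ∀ i γ, MvPowerSeries.coeff γ (Ξ i) ∈ S) (v : κ → ι → K)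
    (hv : ∀ k i, v k i ∈ S) (i : ι) (δ : κ ⊕ ι →₀ ℕ) :
    MvPowerSeries.coeff δ (wv Ξ x v i) ∈ S := by
  classical
  unfold wv
  rw [map_add, map_sum]
  refine S.add_mem (coeff_inZ_mem _ (fun γ => ?_) δ) (S.sum_mem fun k _ => ?_)
  · rw [map_sub, MvPowerSeries.coeff_C]
    refine S.sub_mem (hS i γ) ?_
    split_ifs
    · exact hx i
    · exact S.zero_mem
  · rw [MvPowerSeries.coeff_C_mul, MvPowerSeries.coeff_X]
    refine S.mul_mem (hv k i) ?_
    split_ifs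
    · exact S.one_mem
    · exact S.zero_mem

theorem psN_wv [Fintype ι] [Fintype κ] {S : Subring K} {P : Places K S} (w : P.Pl)
    (ν : Nm K (kap w)) (hν : ∀ x, ν.N x = ENNReal.ofReal (absP w x))
    (Ξ : ι → MvPowerSeries ι K) (x : ι → K) (v : κ → ι → K) (i : ι) (ρ : κ ⊕ ι → ENNReal)
    (a r : ℝ) (σ : κ → ℝ) (hr : 0 ≤ r)
    (h1 : psN ν (fun i => ρ (Sum.inr i)) (Ξ i - MvPowerSeries.C (x i)) ≤
      ENNReal.ofReal (Real.exp (-a - P.arch w * Real.log (8 * (Fintype.card κ + 1))) * r))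
    (hρ : ∀ k, ρ (Sum.inl k) = ENNReal.ofReal (Real.exp (-(a + σ k +
      P.arch w * Real.log (8 * (Fintype.card κ + 1))))))
    (hv : ∀ k, absP w (v k i) ≤ Real.exp (σ k) * r) :
    psN ν ρ (wv Ξ x v i) ≤ ENNReal.ofReal (Real.exp (-a - P.arch w * Real.log 8) * r) := by
  obtain ⟨μ, hμ⟩ := exists_ps ν ρ
  have hc : kap w ≤ 1 := by
    rcases w with i | j
    · exact le_refl 1
    · exact zero_le_one
  obtain ⟨b, hb⟩ : ∃ b : ℝ, b =
      Real.exp (-a - P.arch w * Real.log (8 * (Fintype.card κ + 1))) * r := ⟨_, rfl⟩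
  have hb0 : 0 ≤ b := by rw [hb]; positivity
  let f : Option κ → MvPowerSeries (κ ⊕ ι) K := fun o =>
    o.elim (inZ (Ξ i - MvPowerSeries.C (x i)))
      (fun k => MvPowerSeries.C (v k i) * MvPowerSeries.X (Sum.inl k))
  have hf : wv Ξ x v i = ∑ o, f o := by
    unfold wv
    rw [Fintype.sum_option]
    rfl
  have h2 : ∀ o ∈ (Finset.univ : Finset (Option κ)), μ.N (f o) ≤ ENNReal.ofReal b := by
    intro o _
    rcases o with _ | k
    · change μ.N (inZ (Ξ i - MvPowerSeries.C (x i))) ≤ _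
      rw [hμ, hb]
      exact (psN_inZ ν ρ _).trans h1
    · change μ.N (MvPowerSeries.C (v k i) * MvPowerSeries.X (Sum.inl k)) ≤ _
      refine (μ.mul _ _).trans ?_
      rw [hμ, psN_C, hν]
      refine (mul_le_mul' le_rfl ((psN_X ν ρ _).trans (le_of_eq (hρ k)))).trans ?_
      rw [← ENNReal.ofReal_mul (BF.absP_nonneg w _)]
      apply ENNReal.ofReal_le_ofReal
      refine (mul_le_mul_of_nonneg_right (hv k) (Real.exp_pos _).le).trans (le_of_eq ?_)
      rw [hb, mul_right_comm, ← Real.exp_add]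
      congr 2
      ring
  have h3 := Nm.sum_le μ hc Finset.univ f _ h2
  rw [← hf, hμ, Finset.card_univ, Fintype.card_option] at h3
  refine h3.trans ?_
  rw [hb]
  rcases w with i | j
  · change ((Fintype.card κ + 1 : ℕ) : ENNReal) ^ 1 * _ ≤ _
    have e1 : P.arch (Sum.inl i) = 1 := rfl
    rw [pow_one, e1, one_mul, one_mul]
    have h4 : ((Fintype.card κ + 1 : ℕ) : ENNReal) = ENNReal.ofReal ((Fintype.card κ : ℝ) + 1) := by
      rw [← ENNReal.ofReal_natCast]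
      congr 1
      push_cast
      ring
    have hn : (0 : ℝ) < (Fintype.card κ : ℝ) + 1 := by positivity
    rw [h4, ← ENNReal.ofReal_mul hn.le]
    apply ENNReal.ofReal_le_ofReal
    rw [Real.exp_sub, Real.exp_sub, Real.exp_log (by positivity), Real.exp_log (by norm_num)]
    apply le_of_eq
    field_simp
  · change ((Fintype.card κ + 1 : ℕ) : ENNReal) ^ 0 * _ ≤ _
    have e1 : P.arch (Sum.inr j) = 0 := rfl
    rw [pow_zero, e1, zero_mul, zero_mul, one_mul]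

end

end SF

theorem value_boundC {m : ℕ} {ι κ : Type} [Fintype ι] [DecidableEq ι] [Fintype κ] [DecidableEq κ]
    {q : ℕ} {K : Type} [Field K] [CharZero K] {S : Subring K} (P : Places K S)
    (C : ι → Crv m) (Bd : ι → Polynomial ℤ)
    (blk : ι → Fin (q + 1)) (I : Finset ι) (U : ι → K × K) (g : ι → MvPolynomial ι ℤ)
    (Ξ : ι → MvPowerSeries ι K) (hU : ∀ i, UC (C i) S (U i))
    (hder : ∀ i, aeval ![(U i).1, (U i).2] (pderiv 1 (C i).f) ≠ 0)
    (η : ι → PowerSeries K) (hη : ∀ i, IsTay (C i).f (U i).1 (U i).2 (η i))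
    (hηS : ∀ i j, PowerSeries.coeff j (η i) ∈ S) (hrel : IsRel I blk (fun i => (U i).1) g)
    (hΞ : IsBranch I (fun i => (U i).1) g Ξ) (hS : ∀ i γ, MvPowerSeries.coeff γ (Ξ i) ∈ S)
    (cw : P.Pl → ℝ) (hcw : ∀ w, 0 ≤ cw w) (hrad : ∀ w i, 0 < rad (P := P) (Bd i) w (U i).1)
    (hc : ∀ i w j, absP w (PowerSeries.coeff j (η i)) ≤
      absP w (U i).2 * (Real.exp (cw w) / rad (Bd i) w (U i).1) ^ j)
    (R : P.Pl → Fin (q + 1) → ℝ)
    (hR : ∀ (w : P.Pl) (ν : Nm K (kap w)), (∀ x, ν.N x = ENNReal.ofReal (absP w x)) → ∀ i,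
      psN ν (fun i => ENNReal.ofReal (Real.exp (-(R w (blk i)))))
        (Ξ i - MvPowerSeries.C (U i).1) ≤
        ENNReal.ofReal (dl cw (Fintype.card κ) w * rad (Bd i) w (U i).1))
    (bk : κ → Fin (q + 1)) (v : κ → ι → K) (hvS : ∀ k i, v k i ∈ S)
    (hv : ∀ k i, blk i ≠ bk k → v k i = 0)
    (hspan : ∀ x : ι → K, ∃ c : κ → K, ∀ l, l ∉ I →
      ∑ i, aeval (fun i => (U i).1) (pderiv i (g l)) * (x i - ∑ k, c k * v k i) = 0)
    (σ : κ → P.Pl → ℝ)
    (hlift : ∀ k w, ∃ v' : ι → K, (∀ l, l ∉ I →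
        ∑ i, aeval (fun i => (U i).1) (pderiv i (g l)) * (v' i - v k i) = 0) ∧
      ∀ i, absP w (v' i) ≤ Real.exp (σ k w) * rad (Bd i) w (U i).1)
    (H : ι → ℕ) (hH : ∀ i, 0 < H i) (T₀ : Finset (ι → ℤ × ℤ)) (q₀ : (ι → ℤ × ℤ) → ℤ)
    (N : MvPolynomial ι ℤ) (hN : N ≠ 0) (hdvd : DvdC C T₀ q₀ N) (E n : ℝ)
    (b L : P.Pl → ℝ)
    (hb : ∀ w, ∃ (T : Finset (ι → ℤ × ℤ)) (q : (ι → ℤ × ℤ) → K), SameC C T₀ q₀ T q ∧
      (∀ t ∈ T, ∑ i, (|((t i).1 : ℝ)| + |((t i).2 : ℝ)|) ≤ E) ∧ Real.log T.card ≤ n ∧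
      (∀ t ∈ T, absP w (q t) ≤ Real.exp (L w)) ∧
      ∀ t ∈ T, ∑ i, (((t i).1 : ℝ) * P.lg w (U i).1 + ((t i).2 : ℝ) * P.lg w (U i).2) ≤ b w) :
    ∃ (γ : ι →₀ ℕ) (β : κ →₀ ℕ), (∀ i, i ∉ I → γ i = 0) ∧
      (∃ α : ι →₀ ℕ, aeval Ξ (hs α N) ≠ 0 ∧
        ∀ γ', wt H γ' < wt H γ → MvPowerSeries.coeff γ' (aeval Ξ (hs α N)) = 0) ∧
      (∀ j, ∑ k with bk k = j, β k ≤ ∑ i with blk i = j, N.degreeOf i) ∧
      0 ≤ P.avg b + P.avg L + ∑ i, (γ i : ℝ) * P.avg (fun w => R w (blk i)) +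
        ∑ k, (β k : ℝ) * (P.avg (σ k) + P.avg cw + Real.log (8 * (Fintype.card κ + 1))) +
        (n + E * Real.log 2) := by
  obtain ⟨x, hx⟩ : ∃ x : ι → K, ∀ i, x i = (U i).1 := ⟨fun i => (U i).1, fun _ => rfl⟩
  have hx' : (fun i => (U i).1) = x := funext fun i => (hx i).symm
  simp only [hx'] at hrel hΞ hspan hlift
  -- the generic point near `U`
  have hu0 : ∀ i, MvPowerSeries.constantCoeff (SF.uu Ξ x i) = 0 := SF.const_uu Ξ x hΞ.const
  choose X1 Y1 hX1 hY1 hY10 hon1 using fun i =>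
    exists_unit_pt (C i) (U i) (hU i).ne1 (hU i).ne2 (η i) (hη i) (SF.uu Ξ x i) (hu0 i)
  have hX1g : ∀ i, (X1 i : MvPowerSeries (ι ⊕ ι) K) = gpt Ξ i := by
    intro i
    rw [hX1 i, ← hx i, SF.C_add_uu]
  have hOn1 : OnC C X1 Y1 := fun i => (SF.aeval_inst _ _ _ _).trans (hon1 i)
  obtain ⟨V, hVdef⟩ : ∃ V : MvPowerSeries (ι ⊕ ι) K, V = lval T₀ q₀ X1 Y1 := ⟨_, rfl⟩
  have hVall : ∀ inst : Algebra ℤ (MvPowerSeries (ι ⊕ ι) K),
      @lval ι _ ℤ _ _ _ inst T₀ q₀ X1 Y1 = V := by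
    intro inst
    rw [hVdef]
    exact SF.lval_inst _ _ _ _ _ _
  obtain ⟨V', hV'⟩ := hdvd (MvPowerSeries (ι ⊕ ι) K) X1 Y1 hOn1
  have hVN : V * V' = aeval (gpt Ξ) N := by
    rw [hVall] at hV'
    rw [← hV', ← funext hX1g]
    exact SF.aeval_inst _ _ _ _
  have hVs : ∀ δ : ι ⊕ ι →₀ ℕ, (∃ i, i ∉ I ∧ δ (Sum.inr i) ≠ 0) →
      MvPowerSeries.coeff δ V = 0 := by
    intro δ hδ
    rw [hVdef]
    refine lval_support {s | ∃ i, i ∉ I ∧ s = Sum.inr i} U η (SF.uu Ξ x) hu0 ?_ X1 Y1 hX1 hY1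
      T₀ q₀ δ ?_
    · rintro i δ ⟨s, ⟨j, hj, rfl⟩, hs⟩
      exact SF.uu_support Ξ x I hΞ.only i δ ⟨j, hj, hs⟩
    · obtain ⟨i, hi, hδ⟩ := hδ
      exact ⟨Sum.inr i, ⟨i, hi, rfl⟩, hδ⟩
  have hunit : ∀ i, IsUnit (aeval ![(X1 i : MvPowerSeries (ι ⊕ ι) K),
      (Y1 i : MvPowerSeries (ι ⊕ ι) K)] (pderiv 1 (C i).f)) := by
    intro i
    rw [MvPowerSeries.isUnit_iff_constantCoeff, SF.const_aeval, hY10 i, hX1 i, map_add, hu0 i,
      MvPowerSeries.constantCoeff_C, add_zero]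
    exact (hder i).isUnit
  have hinv : ∀ i ∈ I, MvPowerSeries.pderiv K (Sum.inr i) V =
      ∑ i', inZ (MvPowerSeries.pderiv K i (Ξ i')) * MvPowerSeries.pderiv K (Sum.inl i') V := by
    intro i _
    obtain ⟨δ, hδ⟩ := SF.exists_der (SF.der Ξ i)
    have h1 := lval_der C X1 Y1 hOn1 (fun j => by
      have h2 := hunit j
      rw [SF.aeval_inst _ (Ring.toIntAlgebra (MvPowerSeries (ι ⊕ ι) K))] at h2
      exact h2) δ (fun j => by rw [hδ, hX1g j, SF.der_gpt]) T₀ q₀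
    rw [hVall, hδ, SF.der_apply, sub_eq_zero] at h1
    exact h1
  obtain ⟨p, γ, Lf, hL0, hLh, hγ, hLd, hLtan, hbranch, hcoef⟩ :=
    init_forms I x g Ξ hΞ H hH N hN V V' hVN hVs hinv
  let T : Submodule K (ι → K) :=
    { carrier := {v | ∀ l, l ∉ I → ∑ i, aeval x (pderiv i (g l)) * v i = 0}
      add_mem' := by
        intro v v' hv hv' l hl
        have h1 : ∑ i, aeval x (pderiv i (g l)) * (v + v') i =
            ∑ i, aeval x (pderiv i (g l)) * v i + ∑ i, aeval x (pderiv i (g l)) * v' i := by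
          rw [← Finset.sum_add_distrib]
          exact Finset.sum_congr rfl fun i _ => by rw [Pi.add_apply, mul_add]
        rw [h1, hv l hl, hv' l hl, add_zero]
      zero_mem' := by
        intro l _
        simp
      smul_mem' := by
        intro c v hv l hl
        have h1 : ∑ i, aeval x (pderiv i (g l)) * (c • v) i =
            c * ∑ i, aeval x (pderiv i (g l)) * v i := by
          rw [Finset.mul_sum]
          exact Finset.sum_congr rfl fun i _ => by rw [Pi.smul_apply, smul_eq_mul]; ring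
        rw [h1, hv l hl, mul_zero] }
  have hTmem : ∀ v : ι → K, v ∈ T ↔ ∀ l, l ∉ I → ∑ i, aeval x (pderiv i (g l)) * v i = 0 :=
    fun v => Iff.rfl
  have hT : ∀ t ∈ T, ∑ i', MvPolynomial.C (t i') * pderiv i' Lf = 0 := by
    intro t ht
    have h1 : ∀ i', (MvPolynomial.C (t i') : MvPolynomial ι K) * pderiv i' Lf =
        ∑ i ∈ I, MvPolynomial.C (t i) *
          (MvPolynomial.C (MvPowerSeries.coeff (Finsupp.single i 1) (Ξ i')) * pderiv i' Lf) := by
      intro i'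
      conv_lhs => rw [tangent_mem I blk x g hrel Ξ hΞ t ht i']
      rw [map_sum, Finset.sum_mul]
      exact Finset.sum_congr rfl fun i _ => by rw [map_mul, mul_assoc]
    rw [Finset.sum_congr rfl fun i' _ => h1 i', Finset.sum_comm]
    apply Finset.sum_eq_zero
    intro i hi
    rw [← Finset.mul_sum, hLtan i hi, mul_zero]
  have hspan' : ∀ u : ι → K, ∃ c : κ → K, u - ∑ k, c k • v k ∈ T := by
    intro u
    obtain ⟨c, hc⟩ := hspan u
    refine ⟨c, (hTmem _).2 fun l hl => ?_⟩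
    rw [← hc l hl]
    refine Finset.sum_congr rfl fun i _ => ?_
    rw [Pi.sub_apply, Finset.sum_apply]
    rfl
  obtain ⟨β, hβp, hy0, hβd, hβinv⟩ := exists_beta blk bk Lf hL0 p hLh (fun i => N.degreeOf i) hLd
    T hT v hspan' hv
  obtain ⟨y, hy⟩ : ∃ y, y =
      coeff β (aeval (fun i => (∑ k, MvPolynomial.C (v k i) * X k : MvPolynomial κ K)) Lf) :=
    ⟨_, rfl⟩
  rw [← hy] at hy0
  -- the value in the lattice spanned by vectors
  have hlin : ∀ v' : κ → ι → K, ∃ X2 Y2 : ι → (MvPowerSeries (κ ⊕ ι) K)ˣ,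
      (∀ i, (X2 i : MvPowerSeries (κ ⊕ ι) K) = MvPowerSeries.C (U i).1 + SF.wv Ξ x v' i) ∧
      (∀ i, (Y2 i : MvPowerSeries (κ ⊕ ι) K) = PowerSeries.subst (SF.wv Ξ x v' i) (η i)) ∧
      (∀ i, MvPowerSeries.constantCoeff (Y2 i : MvPowerSeries (κ ⊕ ι) K) = (U i).2) ∧
      OnC C X2 Y2 ∧
      (∀ inst : Algebra ℤ (MvPowerSeries (κ ⊕ ι) K),
        coeff β (aeval (fun i => (∑ k, MvPolynomial.C (v' k i) * X k : MvPolynomial κ K)) Lf) =
        MvPowerSeries.coeff (Finsupp.sumElim β γ) (@lval ι _ ℤ _ _ _ inst T₀ q₀ X2 Y2)) := by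
    intro v'
    obtain ⟨Φ, hΦX, hΦZ, hΦc, hΦs, hΦL⟩ := exists_lin (κ := κ) v'
    have hΦu : ∀ i, Φ (SF.uu Ξ x i) = SF.wv Ξ x v' i := by
      intro i
      unfold SF.uu SF.wv
      rw [map_add, hΦZ, hΦX]
    refine ⟨fun i => Units.map (Φ : MvPowerSeries (ι ⊕ ι) K →* MvPowerSeries (κ ⊕ ι) K) (X1 i),
      fun i => Units.map (Φ : MvPowerSeries (ι ⊕ ι) K →* MvPowerSeries (κ ⊕ ι) K) (Y1 i),
      ?_, ?_, ?_, ?_, ?_⟩
    · intro i
      change Φ (X1 i) = _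
      rw [hX1 i, map_add, hΦu, MvPowerSeries.c_eq_algebraMap, MvPowerSeries.c_eq_algebraMap, AlgHom.commutes]
    · intro i
      change Φ (Y1 i) = _
      rw [hY1 i, hΦs _ _ (hu0 i), hΦu]
    · intro i
      change MvPowerSeries.constantCoeff (Φ (Y1 i)) = _
      rw [hΦc, hY10 i]
    · intro i
      have h1 := SF.hom_aeval (Φ : MvPowerSeries (ι ⊕ ι) K →+* MvPowerSeries (κ ⊕ ι) K)
        (X1 i) (Y1 i) (C i).f
      rw [hOn1 i, map_zero] at h1
      exact h1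
    · intro inst
      rw [← hΦL V β γ Lf (by rw [hβp]; exact hLh) (by rw [hβp]; exact hcoef)]
      have h1 := SF.exists_int Φ T₀ q₀ X1 Y1
      rw [hVall] at h1
      rw [h1]
      congr 1
      exact SF.lval_inst _ _ _ _ _ _
  have hyS : y ∈ S := by
    obtain ⟨X2, Y2, hX2, hY2, hY20, _, hco⟩ := hlin v
    rw [hy, hco]
    exact lval_mem S U C hU η hηS (SF.wv Ξ x v) (SF.const_wv Ξ x hΞ.const v)
      (fun i δ => SF.wv_mem Ξ x (fun i => by rw [hx i]; exact (hU i).mem1) hS v hvS i δ) X2 Y2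
      hX2 hY2 hY20 T₀ q₀ _
  have hplace : ∀ w, P.lg w y ≤ b w + L w + ∑ i, (γ i : ℝ) * R w (blk i) +
      ∑ k, (β k : ℝ) * (σ k w + cw w + Real.log (8 * (Fintype.card κ + 1)) * P.arch w) +
      (n + E * Real.log 2) * P.arch w := by
    intro w
    obtain ⟨ν, hν⟩ := exists_nmP P w
    obtain ⟨T', q', hsame, hTE, hlog, hLT, hbT⟩ := hb w
    choose v' hv'1 hv'2 using fun k => hlift k w
    obtain ⟨X2, Y2, hX2, hY2, hY20, hOn2, hco⟩ := hlin v'
    have hyeq : y = MvPowerSeries.coeff (Finsupp.sumElim β γ) (lval T' q' X2 Y2) := by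
      rw [← hsame (MvPowerSeries (κ ⊕ ι) K) X2 Y2 hOn2, ← hco,
        hβinv v' (fun k => (hTmem _).2 fun l hl => ?_), hy]
      rw [← hv'1 k l hl]
      exact Finset.sum_congr rfl fun i _ => by rw [Pi.sub_apply]
    have hr0 : ∀ i, 0 ≤ rad (P := P) (Bd i) w (U i).1 := fun i => (hrad w i).le
    obtain ⟨ρ, hρ⟩ : ∃ ρ : κ ⊕ ι → ℝ, ρ = Sum.elim
        (fun k => cw w + σ k w + P.arch w * Real.log (8 * (Fintype.card κ + 1)))
        (fun i => R w (blk i)) := ⟨_, rfl⟩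
    have hpsN : ∀ i, psN ν (fun s => ENNReal.ofReal (Real.exp (-(ρ s)))) (SF.wv Ξ x v' i) ≤
        ENNReal.ofReal (Real.exp (-(cw w) - P.arch w * Real.log 8) *
          rad (Bd i) w (U i).1) := by
      intro i
      refine SF.psN_wv w ν hν Ξ x v' i _ (cw w) (rad (Bd i) w (U i).1) (fun k => σ k w) (hr0 i)
        ?_ ?_ (fun k => hv'2 k i)
      · have h1 := hR w ν hν i
        rw [← hx i] at h1 ⊢
        rw [hρ]
        exact h1
      · intro k
        rw [hρ]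
        rfl
    have hpt : ∀ i, _ := fun i =>
      point_bound P w ν hν (Bd i) (U i) (hU i).ne1 (hU i).ne2 (cw w) (hcw w) (hrad w i) (η i)
        (hη i).const (fun j => hc i w j) (fun s => ENNReal.ofReal (Real.exp (-(ρ s))))
        (SF.wv Ξ x v' i) (SF.const_wv Ξ x hΞ.const v' i) (hpsN i)
    have hmain := local_boundC P w ν hν U (fun i => ⟨(hU i).ne1, (hU i).ne2⟩) ρ X2 Y2
      (fun i => by
        rw [hX2 i, map_add, SF.const_wv Ξ x hΞ.const v' i, MvPowerSeries.constantCoeff_C,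
          add_zero]) hY20
      (fun i => by
        rw [hX2 i, add_sub_cancel_left]
        exact (hpt i).1)
      (fun i => by
        rw [hY2 i]
        exact (hpt i).2) T' q' E (b w) (L w) hTE hbT hLT (Finsupp.sumElim β γ)
      (by rw [← hyeq]; exact hy0)
    rw [← hyeq, Fintype.sum_sum_type] at hmain
    simp only [Finsupp.sumElim_inl, Finsupp.sumElim_inr] at hmain
    have h4 : P.arch w * (Real.log (T'.card : ℝ) + E * Real.log 2) ≤
        P.arch w * (n + E * Real.log 2) :=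
      mul_le_mul_of_nonneg_left (by linarith) (P.arch_nonneg w)
    have h5 : ∑ k, (β k : ℝ) * ρ (Sum.inl k) =
        ∑ k, (β k : ℝ) * (σ k w + cw w + Real.log (8 * (Fintype.card κ + 1)) * P.arch w) := by
      refine Finset.sum_congr rfl fun k _ => ?_
      rw [hρ, Sum.elim_inl]
      ring
    have h6 : ∑ i, (γ i : ℝ) * ρ (Sum.inr i) = ∑ i, (γ i : ℝ) * R w (blk i) := by
      refine Finset.sum_congr rfl fun i _ => ?_
      rw [hρ, Sum.elim_inr]
    rw [h5, h6] at hmain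
    linarith [mul_comm (P.arch w) (n + E * Real.log 2)]
  refine ⟨γ, β, hγ, hbranch, hβd, ?_⟩
  have hfin := (P.avg_lg_nonneg hyS hy0).trans (P.avg_mono hplace)
  rw [P.avg_add, P.avg_add, P.avg_add, P.avg_add, P.avg_const_arch, P.avg_sum, P.avg_sum] at hfin
  have e1 : ∀ i, P.avg (fun w => (γ i : ℝ) * R w (blk i)) =
      (γ i : ℝ) * P.avg (fun w => R w (blk i)) := fun i => P.avg_mul _ _
  have e2 : ∀ k, P.avg (fun w => (β k : ℝ) *
      (σ k w + cw w + Real.log (8 * (Fintype.card κ + 1)) * P.arch w)) =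
      (β k : ℝ) * (P.avg (σ k) + P.avg cw + Real.log (8 * (Fintype.card κ + 1))) := by
    intro k
    rw [P.avg_mul, P.avg_add, P.avg_add, P.avg_const_arch]
  rw [Finset.sum_congr rfl fun i _ => e1 i, Finset.sum_congr rfl fun k _ => e2 k] at hfin
  exact hfin

end Pool.Agent.PC
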