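import Pool.Agent.Lib.MP_c95b3b_ag_PC.Defs

/-! Project PC (MP_c95b3b_ag), module YB: the bad polynomial. -/

namespace Pool.Agent.PC

open Pool.Agent.L3 Pool.Agent.AL Module MvPolynomial

namespace YB

/-- the inverse of `toY` -/
noncomputable def ofY : Polynomial (Polynomial ℤ) →+* MvPolynomial (Fin 2) ℤ :=
  Polynomial.eval₂RingHom
    ((Polynomial.aeval (X 0 : MvPolynomial (Fin 2) ℤ)).toRingHom : Polynomial ℤ →+* _) (X 1)

theorem ofY_C (r : Polynomial ℤ) :
    ofY (Polynomial.C r) = Polynomial.aeval (X 0 : MvPolynomial (Fin 2) ℤ) r := by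
  simp [ofY]

theorem ofY_X : ofY Polynomial.X = X 1 := by
  simp [ofY]

theorem toY_X0 : toY (X 0) = Polynomial.C Polynomial.X := by
  simp [toY]

theorem toY_X1 : toY (X 1) = Polynomial.X := by
  simp [toY]

theorem ofY_toY (f : MvPolynomial (Fin 2) ℤ) : ofY (toY f) = f := by
  induction f using MvPolynomial.induction_on with
  | C a =>
    have h1 : toY (C a) = Polynomial.C (Polynomial.C a) := by
      unfold toY
      rw [aeval_C]
      rfl
    rw [h1, ofY_C, Polynomial.aeval_C]
    rfl
  | add p q hp hq => rw [map_add, map_add, hp, hq]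
  | mul_X p i hp =>
    rw [map_mul, map_mul, hp]
    congr 1
    fin_cases i
    · change ofY (toY (X 0)) = X 0
      rw [toY_X0, ofY_C, Polynomial.aeval_X]
    · change ofY (toY (X 1)) = X 1
      rw [toY_X1, ofY_X]

theorem toY_aeval (r : Polynomial ℤ) :
    toY (Polynomial.aeval (X 0 : MvPolynomial (Fin 2) ℤ) r) = Polynomial.C r := by
  induction r using Polynomial.induction_on' with
  | add p q hp hq => rw [map_add, map_add, hp, hq, map_add]
  | monomial n a =>
    rw [Polynomial.aeval_monomial, map_mul, map_pow, toY_X0, ← Polynomial.C_pow]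
    have h1 : toY ((algebraMap ℤ (MvPolynomial (Fin 2) ℤ)) a) = Polynomial.C (Polynomial.C a) := by
      rw [AlgHom.commutes]
      rfl
    rw [h1, ← Polynomial.C_mul, Polynomial.C_mul_X_pow_eq_monomial]

theorem toY_ofY (P : Polynomial (Polynomial ℤ)) : toY (ofY P) = P := by
  induction P using Polynomial.induction_on' with
  | add p q hp hq => rw [map_add, map_add, hp, hq]
  | monomial n a =>
    rw [← Polynomial.C_mul_X_pow_eq_monomial, map_mul, map_mul, map_pow, map_pow, ofY_C, ofY_X,
      toY_aeval, toY_X1]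

/-- `toY` as a ring isomorphism -/
noncomputable def eY : MvPolynomial (Fin 2) ℤ ≃+* Polynomial (Polynomial ℤ) :=
  RingEquiv.ofRingHom (toY : MvPolynomial (Fin 2) ℤ →ₐ[ℤ] _).toRingHom ofY
    (RingHom.ext toY_ofY) (RingHom.ext ofY_toY)

theorem eY_apply (f : MvPolynomial (Fin 2) ℤ) : eY f = toY f := rfl

theorem toY_monomial (u : Fin 2 →₀ ℕ) (a : ℤ) :
    toY (monomial u a) = Polynomial.monomial (u 1) (Polynomial.monomial (u 0) a) := by
  unfold toY
  rw [aeval_monomial, Finsupp.prod_fintype _ _ (fun i => pow_zero _), Fin.prod_univ_two]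
  have h2 : (algebraMap ℤ (Polynomial (Polynomial ℤ))) a = Polynomial.C (Polynomial.C a) := rfl
  rw [h2]
  change Polynomial.C (Polynomial.C a) * (Polynomial.C Polynomial.X ^ u 0 *
    Polynomial.X ^ u 1) = _
  rw [← Polynomial.C_mul_X_pow_eq_monomial, ← Polynomial.C_mul_X_pow_eq_monomial, map_mul,
    map_pow, mul_assoc]

theorem coeff_toY (f : MvPolynomial (Fin 2) ℤ) (k j : ℕ) :
    ((toY f).coeff k).coeff j = coeff (Finsupp.single 0 j + Finsupp.single 1 k) f := by
  induction f using MvPolynomial.induction_on' with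
  | monomial u a =>
    rw [toY_monomial, Polynomial.coeff_monomial, coeff_monomial]
    by_cases hk : u 1 = k
    · rw [if_pos hk, Polynomial.coeff_monomial]
      by_cases hj : u 0 = j
      · rw [if_pos hj, if_pos]
        ext i
        fin_cases i
        · simpa using hj
        · simpa using hk
      · rw [if_neg hj, if_neg]
        rintro rfl
        apply hj
        simp
    · rw [if_neg hk, Polynomial.coeff_zero, if_neg]
      rintro rfl
      apply hk
      simp
  | add p q hp hq => rw [map_add, Polynomial.coeff_add, Polynomial.coeff_add, hp, hq, coeff_add]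

theorem toY_pderiv (f : MvPolynomial (Fin 2) ℤ) :
    toY (pderiv 1 f) = Polynomial.derivative (toY f) := by
  induction f using MvPolynomial.induction_on' with
  | monomial u a =>
    rw [pderiv_monomial, toY_monomial, toY_monomial, Polynomial.derivative_monomial]
    have h1 : (u - Finsupp.single 1 1 : Fin 2 →₀ ℕ) 1 = u 1 - 1 := by
      rw [Finsupp.tsub_apply, Finsupp.single_eq_same]
    have h2 : (u - Finsupp.single 1 1 : Fin 2 →₀ ℕ) 0 = u 0 := by
      rw [Finsupp.tsub_apply, Finsupp.single_eq_of_ne (by decide), Nat.sub_zero]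
    rw [h1, h2]
    congr 1
    have h3 : ((u 1 : ℕ) : Polynomial ℤ) = Polynomial.C ((u 1 : ℕ) : ℤ) := by simp
    rw [h3, mul_comm (Polynomial.monomial (u 0) a), Polynomial.C_mul_monomial, mul_comm]
  | add p q hp hq => rw [map_add, map_add, hp, hq, map_add, map_add]

/-- evaluation through `toY` -/
theorem eval_toY {A : Type} [CommRing A] (x y : A) (f : MvPolynomial (Fin 2) ℤ) :
    ((toY f).map (Polynomial.aeval x : Polynomial ℤ →ₐ[ℤ] A).toRingHom).eval y =
      aeval ![x, y] f := by
  induction f using MvPolynomial.induction_on' with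
  | monomial u a =>
    rw [toY_monomial, Polynomial.map_monomial, Polynomial.eval_monomial, aeval_monomial,
      Finsupp.prod_fintype _ _ (fun i => pow_zero _), Fin.prod_univ_two]
    have h1 : (Polynomial.aeval x : Polynomial ℤ →ₐ[ℤ] A).toRingHom
        (Polynomial.monomial (u 0) a) = algebraMap ℤ A a * x ^ u 0 :=
      Polynomial.aeval_monomial x
    rw [h1, mul_assoc]
    rfl
  | add p q hp hq =>
    rw [map_add, Polynomial.map_add, Polynomial.eval_add, hp, hq, map_add]

theorem eval_pderiv {A : Type} [CommRing A] (x y : A) (f : MvPolynomial (Fin 2) ℤ) :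
    (Polynomial.derivative
      ((toY f).map (Polynomial.aeval x : Polynomial ℤ →ₐ[ℤ] A).toRingHom)).eval y =
      aeval ![x, y] (pderiv 1 f) := by
  rw [← eval_toY, toY_pderiv, Polynomial.derivative_map]

end YB

section
variable {m : ℕ}

theorem natDegree_toY (f : MvPolynomial (Fin 2) ℤ) : (toY f).natDegree = f.degreeOf 1 := by
  apply le_antisymm
  · rw [Polynomial.natDegree_le_iff_coeff_eq_zero]
    intro k hk
    ext j
    rw [YB.coeff_toY, Polynomial.coeff_zero]
    by_contra h
    have h3 := monomial_le_degreeOf 1 (MvPolynomial.mem_support_iff.mpr h)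
    rw [Finsupp.add_apply, Finsupp.single_eq_same,
      Finsupp.single_eq_of_ne (by decide), zero_add] at h3
    omega
  · rw [degreeOf_le_iff]
    intro u hu
    apply Polynomial.le_natDegree_of_ne_zero
    intro h
    have h1 : ((toY f).coeff (u 1)).coeff (u 0) = 0 := by rw [h, Polynomial.coeff_zero]
    rw [YB.coeff_toY] at h1
    apply MvPolynomial.mem_support_iff.mp hu
    rw [← h1]
    congr 1
    ext i
    fin_cases i <;> simp

namespace YB

theorem irr_toY (C : Crv m) : Irreducible (toY C.f) := by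
  rw [← eY_apply]
  exact (MulEquiv.irreducible_iff eY).mpr C.irr

theorem natDegree_ne (C : Crv m) : (toY C.f).natDegree ≠ 0 := by
  rw [natDegree_toY]
  exact C.degY.ne'

theorem prim_toY (C : Crv m) : (toY C.f).IsPrimitive :=
  (irr_toY C).isPrimitive (natDegree_ne C)

theorem irr_frac (C : Crv m) :
    Irreducible ((toY C.f).map (algebraMap (Polynomial ℤ) (FractionRing (Polynomial ℤ)))) :=
  (prim_toY C).irreducible_iff_irreducible_map_fraction_map.mp (irr_toY C)

theorem exists_res (C : Crv m) : ∃ (R : Polynomial ℤ) (a b : Polynomial (Polynomial ℤ)),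
    R ≠ 0 ∧ toY C.f * a + Polynomial.derivative (toY C.f) * b = Polynomial.C R := by
  set p := toY C.f with hp
  have hinj : Function.Injective (algebraMap (Polynomial ℤ) (FractionRing (Polynomial ℤ))) :=
    IsFractionRing.injective _ _
  have hd0 : p.natDegree ≠ 0 := natDegree_ne C
  have hder : Polynomial.derivative p ≠ 0 := by
    intro h
    exact hd0 (Polynomial.derivative_eq_zero.mp h)
  have hcop : IsCoprime (p.map (algebraMap (Polynomial ℤ) (FractionRing (Polynomial ℤ))))
      ((Polynomial.derivative p).map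
        (algebraMap (Polynomial ℤ) (FractionRing (Polynomial ℤ)))) := by
    rw [(irr_frac C).coprime_iff_not_dvd]
    intro hdvd
    have h1 := Polynomial.eq_zero_of_dvd_of_natDegree_lt hdvd (by
      rw [Polynomial.natDegree_map_eq_of_injective hinj,
        Polynomial.natDegree_map_eq_of_injective hinj]
      exact Polynomial.natDegree_derivative_lt hd0)
    exact hder ((Polynomial.map_eq_zero_iff hinj).mp h1)
  have hres := Polynomial.resultant_ne_zero _ _ hcop
  rw [Polynomial.natDegree_map_eq_of_injective hinj,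
    Polynomial.natDegree_map_eq_of_injective hinj, Polynomial.resultant_map_map] at hres
  obtain ⟨a, b, -, -, hab⟩ := Polynomial.exists_mul_add_mul_eq_C_resultant p
    (Polynomial.derivative p) le_rfl le_rfl (Or.inl hd0)
  refine ⟨_, a, b, ?_, hab⟩
  intro h
  apply hres
  rw [h, map_zero]

theorem coeff_zero_ne (C : Crv m) : (toY C.f).coeff 0 ≠ 0 := by
  intro h
  have h1 : Polynomial.X ∣ toY C.f := Polynomial.X_dvd_iff.mpr h
  obtain ⟨u, hu⟩ := h1
  have h2 := (irr_toY C).isUnit_or_isUnit hu
  rcases h2 with h2 | h2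
  · exact Polynomial.not_isUnit_X h2
  · obtain ⟨r, hr, hru⟩ := Polynomial.isUnit_iff.mp h2
    obtain ⟨s, hs, hsr⟩ := Polynomial.isUnit_iff.mp hr
    have h3 : C.f = X 1 * MvPolynomial.C s := by
      rw [← ofY_toY C.f, hu, map_mul, ofY_X, ← hru, ofY_C, ← hsr, Polynomial.aeval_C]
      rfl
    have h4 := C.degX
    rw [h3] at h4
    have h5 := degreeOf_mul_le (0 : Fin 2) (X 1) (MvPolynomial.C s : MvPolynomial (Fin 2) ℤ)
    rw [degreeOf_C, degreeOf_X_of_ne (by decide)] at h5
    omega

/-- the squarefree part of an integer polynomial with the root `0` -/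
theorem exists_sqfree (G : Polynomial ℤ) (hG : G ≠ 0) (h0 : Polynomial.X ∣ G) :
    ∃ Bd : Polynomial ℤ, (Bd.map (Int.castRingHom ℚ)).Separable ∧ 1 ≤ Bd.natDegree ∧
      Bd.eval 0 = 0 ∧ ∃ (c : ℤ) (k : ℕ), c ≠ 0 ∧ G ∣ Polynomial.C c * Bd ^ k := by
  classical
  have hcast : Function.Injective (Int.castRingHom ℚ) := Int.cast_injective
  set GQ := G.map (Int.castRingHom ℚ) with hGQ
  have hGQ0 : GQ ≠ 0 := by
    rw [hGQ, Ne, Polynomial.map_eq_zero_iff hcast]
    exact hG
  set r := UniqueFactorizationMonoid.radical GQ with hr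
  have hsq : Squarefree r := UniqueFactorizationMonoid.squarefree_radical
  have hr0 : r ≠ 0 := UniqueFactorizationMonoid.radical_ne_zero
  have hXr : Polynomial.X ∣ r := by
    rw [hr, UniqueFactorizationMonoid.dvd_radical_iff_of_irreducible Polynomial.irreducible_X hGQ0]
    have := Polynomial.map_dvd (Int.castRingHom ℚ) h0
    rwa [Polynomial.map_X] at this
  obtain ⟨k, h, hk⟩ := UniqueFactorizationMonoid.exists_dvd_radical_self_pow hGQ0
  rw [← hr] at hk
  obtain ⟨c, hc, hBd⟩ := IsLocalization.integerNormalization_spec (nonZeroDivisors ℤ) r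
  obtain ⟨d, hd, hH⟩ := IsLocalization.integerNormalization_spec (nonZeroDivisors ℤ) h
  set Bd := IsLocalization.integerNormalization (nonZeroDivisors ℤ) r with hBdd
  set H := IsLocalization.integerNormalization (nonZeroDivisors ℤ) h with hHd
  have hc0 : c ≠ 0 := nonZeroDivisors.ne_zero hc
  have hd0 : d ≠ 0 := nonZeroDivisors.ne_zero hd
  have hBd' : Bd.map (Int.castRingHom ℚ) = Polynomial.C (c : ℚ) * r := by
    have e1 : (c • r : Polynomial ℚ) = Polynomial.C (c : ℚ) * r := by
      rw [← Polynomial.smul_eq_C_mul]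
      ext i
      simp
    rw [← e1, ← hBd]
    rfl
  have hH' : H.map (Int.castRingHom ℚ) = Polynomial.C (d : ℚ) * h := by
    have e1 : (d • h : Polynomial ℚ) = Polynomial.C (d : ℚ) * h := by
      rw [← Polynomial.smul_eq_C_mul]
      ext i
      simp
    rw [← e1, ← hH]
    rfl
  have hcQ : (c : ℚ) ≠ 0 := by exact_mod_cast hc0
  have hdQ : (d : ℚ) ≠ 0 := by exact_mod_cast hd0
  have hBdne : Bd ≠ 0 := by
    intro h1
    rw [h1, Polynomial.map_zero] at hBd'
    exact mul_ne_zero (Polynomial.C_ne_zero.mpr hcQ) hr0 hBd'.symm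
  have hev : Bd.eval 0 = 0 := by
    have h1 : (Bd.map (Int.castRingHom ℚ)).eval 0 = 0 := by
      rw [hBd', Polynomial.eval_mul]
      obtain ⟨t, ht⟩ := hXr
      rw [ht, Polynomial.eval_mul, Polynomial.eval_X, zero_mul, mul_zero]
    have h2 : (Bd.map (Int.castRingHom ℚ)).eval 0 = ((Bd.eval 0 : ℤ) : ℚ) := by
      have := Polynomial.eval_map_apply (p := Bd) (Int.castRingHom ℚ) (0 : ℤ)
      simp only [map_zero, eq_intCast] at this
      exact this
    rw [h2] at h1
    exact_mod_cast h1
  refine ⟨Bd, ?_, ?_, hev, d, k, hd0, ?_⟩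
  · rw [hBd', PerfectField.separable_iff_squarefree]
    have hu : IsUnit (Polynomial.C (c : ℚ)) := Polynomial.isUnit_C.mpr (isUnit_iff_ne_zero.mpr hcQ)
    obtain ⟨v, hv⟩ := hu
    have has : Associated (Polynomial.C (c : ℚ) * r) r := by
      refine ⟨v⁻¹, ?_⟩
      rw [← hv]
      rw [mul_comm, ← mul_assoc, Units.inv_mul, one_mul]
    exact (Associated.squarefree_iff has).mpr hsq
  · by_contra hlt
    have h1 : Bd.natDegree = 0 := by omega
    rw [Polynomial.eq_C_of_natDegree_eq_zero h1, Polynomial.eval_C] at hev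
    apply hBdne
    rw [Polynomial.eq_C_of_natDegree_eq_zero h1, hev, Polynomial.C_0]
  · refine ⟨Polynomial.C (c ^ k) * H, ?_⟩
    apply Polynomial.map_injective (Int.castRingHom ℚ) hcast
    rw [Polynomial.map_mul, Polynomial.map_pow, hBd', Polynomial.map_mul, Polynomial.map_mul,
      hH', Polynomial.map_C, Polynomial.map_C, mul_pow, hk, ← hGQ]
    simp only [eq_intCast, Int.cast_pow, Polynomial.C_pow]
    ring

end YB

theorem exists_bad (C : Crv m) : ∃ Bd G : Polynomial ℤ, IsBad C Bd G := by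
  obtain ⟨R, a, b, hR, hab⟩ := YB.exists_res C
  have hf0 := YB.coeff_zero_ne C
  have hlc : (toY C.f).leadingCoeff ≠ 0 := by
    rw [Polynomial.leadingCoeff_ne_zero]
    exact (YB.irr_toY C).ne_zero
  have hG : Polynomial.X * (toY C.f).leadingCoeff * (toY C.f).coeff 0 * R ≠ 0 :=
    mul_ne_zero (mul_ne_zero (mul_ne_zero Polynomial.X_ne_zero hlc) hf0) hR
  obtain ⟨Bd, hsep, hdeg, hzero, hdvd⟩ := YB.exists_sqfree
    (Polynomial.X * (toY C.f).leadingCoeff * (toY C.f).coeff 0 * R) hG
    (Dvd.intro _ (by ring :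
      Polynomial.X * ((toY C.f).leadingCoeff * (toY C.f).coeff 0 * R) = _))
  refine ⟨Bd, Polynomial.X * (toY C.f).leadingCoeff * (toY C.f).coeff 0 * R, hsep, hdeg, hzero,
    hG, hdvd, ?_, ?_, ?_⟩
  · refine ⟨Polynomial.aeval (X 0 : MvPolynomial (Fin 2) ℤ)
      (Polynomial.X * (toY C.f).leadingCoeff * (toY C.f).coeff 0) * YB.ofY a,
      Polynomial.aeval (X 0 : MvPolynomial (Fin 2) ℤ)
      (Polynomial.X * (toY C.f).leadingCoeff * (toY C.f).coeff 0) * YB.ofY b, ?_⟩
    have h1 := congrArg YB.ofY hab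
    rw [map_add, map_mul, map_mul, YB.ofY_toY, ← YB.toY_pderiv, YB.ofY_toY, YB.ofY_C] at h1
    rw [map_mul, ← h1]
    ring
  · refine ⟨Polynomial.aeval (X 0 : MvPolynomial (Fin 2) ℤ)
      (Polynomial.X * (toY C.f).leadingCoeff * R),
      -(Polynomial.aeval (X 0 : MvPolynomial (Fin 2) ℤ)
      (Polynomial.X * (toY C.f).leadingCoeff * R) * YB.ofY (Polynomial.divX (toY C.f))), ?_⟩
    have h1 := congrArg YB.ofY (Polynomial.divX_mul_X_add (toY C.f))
    rw [map_add, map_mul, YB.ofY_X, YB.ofY_C, YB.ofY_toY] at h1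
    have h2 : Polynomial.X * (toY C.f).leadingCoeff * (toY C.f).coeff 0 * R =
        (Polynomial.X * (toY C.f).leadingCoeff * R) * (toY C.f).coeff 0 := by ring
    rw [h2, map_mul]
    linear_combination (Polynomial.aeval (X 0 : MvPolynomial (Fin 2) ℤ)
      (Polynomial.X * (toY C.f).leadingCoeff * R)) * h1
  · exact ⟨Polynomial.X * (toY C.f).coeff 0 * R, by ring⟩

theorem bad_ne {C : Crv m} {Bd G : Polynomial ℤ} (hB : IsBad C Bd G) {K : Type} [Field K]
    [CharZero K] (x : K) (hx : Polynomial.aeval x Bd ≠ 0) :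
    Polynomial.aeval x G ≠ 0 ∧ x ≠ 0 ∧
      ∀ y : K, aeval ![x, y] C.f = 0 → y ≠ 0 ∧ aeval ![x, y] (pderiv 1 C.f) ≠ 0 := by
  have hGx : Polynomial.aeval x G ≠ 0 := by
    obtain ⟨c, k, hc, q, hq⟩ := hB.dvd
    intro h
    have h1 := congrArg (Polynomial.aeval x) hq
    rw [map_mul, map_mul, map_pow, h, zero_mul, Polynomial.aeval_C] at h1
    have h2 : (algebraMap ℤ K) c ≠ 0 := by
      rw [eq_intCast]
      exact_mod_cast hc
    exact mul_ne_zero h2 (pow_ne_zero _ hx) h1
  have hsub : ∀ y : K, Polynomial.aeval x G =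
      aeval ![x, y] (Polynomial.aeval (X 0 : MvPolynomial (Fin 2) ℤ) G) := by
    intro y
    rw [← Polynomial.aeval_algHom_apply, aeval_X]
    rfl
  refine ⟨hGx, ?_, ?_⟩
  · rintro rfl
    apply hx
    have h1 : Polynomial.aeval (0 : K) Bd = ((Bd.coeff 0 : ℤ) : K) := by
      rw [← Polynomial.coeff_zero_eq_aeval_zero']
      simp
    rw [h1, Polynomial.coeff_zero_eq_eval_zero, hB.zero, Int.cast_zero]
  · intro y hy
    constructor
    · rintro rfl
      obtain ⟨U, V, hUV⟩ := hB.con
      apply hGx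
      rw [hsub 0, hUV, map_add, map_mul, map_mul, hy, aeval_X]
      simp
    · intro h
      obtain ⟨U, V, hUV⟩ := hB.der
      apply hGx
      rw [hsub y, hUV, map_add, map_mul, map_mul, hy, h, mul_zero, mul_zero, add_zero]

/-- specialisation from a generic point -/
theorem dvd_of_generic (C : Crv m) {K : Type} [Field K] [CharZero K] (x y : K)
    (hx : Transcendental ℚ x) (hy : aeval ![x, y] C.f = 0) (g : MvPolynomial (Fin 2) ℤ)
    (hg : aeval ![x, y] g = 0) : C.f ∣ g := by
  have hxZ : Transcendental ℤ x := by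
    intro h
    exact hx (h.extendScalars (algebraMap ℤ ℚ).injective_int)
  have hinj : Function.Injective (Polynomial.aeval x : Polynomial ℤ →ₐ[ℤ] K).toRingHom :=
    transcendental_iff_injective.mp hxZ
  set ev : Polynomial ℤ →+* K := (Polynomial.aeval x : Polynomial ℤ →ₐ[ℤ] K).toRingHom with hev
  set φ : FractionRing (Polynomial ℤ) →+* K := IsFractionRing.lift hinj with hφ
  have hφa : φ.comp (algebraMap (Polynomial ℤ) (FractionRing (Polynomial ℤ))) = ev := by
    refine RingHom.ext (fun r => ?_)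
    rw [RingHom.comp_apply, hφ, IsFractionRing.lift_algebraMap]
  have hroot : ∀ f : MvPolynomial (Fin 2) ℤ, Polynomial.eval₂ φ y
      ((toY f).map (algebraMap (Polynomial ℤ) (FractionRing (Polynomial ℤ)))) =
        aeval ![x, y] f := by
    intro f
    rw [Polynomial.eval₂_map, hφa, ← YB.eval_toY, Polynomial.eval_map]
  have hdvd : (toY C.f).map (algebraMap (Polynomial ℤ) (FractionRing (Polynomial ℤ))) ∣
      (toY g).map (algebraMap (Polynomial ℤ) (FractionRing (Polynomial ℤ))) := by
    by_contra hnd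
    obtain ⟨a, b, hab⟩ := (YB.irr_frac C).coprime_iff_not_dvd.mpr hnd
    have h1 := congrArg (Polynomial.eval₂ φ y) hab
    rw [Polynomial.eval₂_add, Polynomial.eval₂_mul, Polynomial.eval₂_mul, hroot, hroot, hy, hg,
      mul_zero, mul_zero, add_zero, Polynomial.eval₂_one] at h1
    exact zero_ne_one h1
  obtain ⟨s, hs⟩ := (YB.prim_toY C).dvd_of_fraction_map_dvd_fraction_map hdvd
  refine ⟨YB.ofY s, ?_⟩
  rw [← YB.ofY_toY g, hs, map_mul, YB.ofY_toY]

end

end Pool.Agent.PC
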