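import Pool.Agent.Lib.MP_c95b3b_ag_PC.Defs
import Pool.Agent.Lib.MP_c95b3b_ag_PC.YA

/-! Project PC (MP_c95b3b_ag), module YD: Taylor series over the field of Laurent series. -/

namespace Pool.Agent.PC

open Pool.Agent.L3 Pool.Agent.AL Module MvPolynomial

namespace YD

/-- the operator `t d/dt` -/
noncomputable def th : LaurentSeries ℂ →+ LaurentSeries ℂ where
  toFun a :=
    { coeff := fun n => (n : ℂ) * a.coeff n
      isPWO_support' := a.isPWO_support.mono (by
        intro n hn
        rw [Function.mem_support] at hn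
        rw [HahnSeries.mem_support]
        exact right_ne_zero_of_mul hn) }
  map_zero' := by
    ext n
    simp
  map_add' a b := by
    ext n
    simp [mul_add]

theorem th_coeff (a : LaurentSeries ℂ) (n : ℤ) : (th a).coeff n = (n : ℂ) * a.coeff n := rfl

theorem th_support (a : LaurentSeries ℂ) : (th a).support ⊆ a.support := by
  intro n hn
  rw [HahnSeries.mem_support, th_coeff] at hn
  rw [HahnSeries.mem_support]
  exact right_ne_zero_of_mul hn

theorem th_mul (a b : LaurentSeries ℂ) : th (a * b) = th a * b + a * th b := by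
  ext n
  rw [HahnSeries.coeff_add, th_coeff, HahnSeries.coeff_mul,
    HahnSeries.coeff_mul_left' a.isPWO_support (th_support a),
    HahnSeries.coeff_mul_right' b.isPWO_support (th_support b), ← Finset.sum_add_distrib,
    Finset.mul_sum]
  apply Finset.sum_congr rfl
  rintro ⟨i, j⟩ hij
  have h := (Finset.mem_antidiagonal.1 hij).2.2
  simp only at h
  simp only [th_coeff]
  rw [← h]
  push_cast
  ring

theorem th_single (M : ℤ) (c : ℂ) : th (HahnSeries.single M c) = HahnSeries.single M ((M : ℂ) * c) := by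
  ext n
  rw [th_coeff]
  by_cases h : n = M
  · subst h
    simp
  · simp [HahnSeries.coeff_single_of_ne h]

theorem th_C (c : ℂ) : th (HahnSeries.C c) = 0 := by
  rw [HahnSeries.C_apply, th_single]
  simp

/-- the derivation with `D x = 1` -/
noncomputable def D (M : ℤ) : LaurentSeries ℂ →+ LaurentSeries ℂ :=
  (AddMonoidHom.mulLeft (HahnSeries.single (-M) ((M : ℂ)⁻¹))).comp th

theorem D_apply (M : ℤ) (a : LaurentSeries ℂ) :
    D M a = HahnSeries.single (-M) ((M : ℂ)⁻¹) * th a := rfl

theorem D_mul (M : ℤ) (a b : LaurentSeries ℂ) : D M (a * b) = D M a * b + a * D M b := by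
  rw [D_apply, D_apply, D_apply, th_mul]
  ring

theorem D_one (M : ℤ) : D M 1 = 0 := by
  have h : (1 : LaurentSeries ℂ) = HahnSeries.C (1 : ℂ) := (map_one _).symm
  rw [D_apply, h, th_C, mul_zero]

theorem D_x {M : ℤ} (hM : M ≠ 0) (α : ℂ) :
    D M (HahnSeries.C α + HahnSeries.single M 1) = 1 := by
  rw [D_apply, map_add, th_C, th_single, zero_add, HahnSeries.single_mul_single]
  have h : (M : ℂ) ≠ 0 := by exact_mod_cast hM
  rw [neg_add_cancel, mul_one, inv_mul_cancel₀ h]
  rfl

/-- the Taylor series -/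
noncomputable def T (M : ℤ) (a : LaurentSeries ℂ) : PowerSeries (LaurentSeries ℂ) :=
  PowerSeries.mk fun j => HahnSeries.C ((j.factorial : ℂ))⁻¹ * ((D M)^[j] a)

theorem coeff_T (M : ℤ) (a : LaurentSeries ℂ) (j : ℕ) :
    PowerSeries.coeff j (T M a) = HahnSeries.C ((j.factorial : ℂ))⁻¹ * ((D M)^[j] a) := by
  rw [T, PowerSeries.coeff_mk]

theorem T_add (M : ℤ) (a b : LaurentSeries ℂ) : T M (a + b) = T M a + T M b := by
  ext1 j
  rw [map_add, coeff_T, coeff_T, coeff_T, iterate_map_add, mul_add]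

theorem nat_eq (n : ℕ) : ((n : LaurentSeries ℂ) + 1) = HahnSeries.C ((n : ℂ) + 1) := by
  rw [map_add, map_natCast, map_one]

theorem nat_ne (n : ℕ) : ((n : LaurentSeries ℂ) + 1) ≠ 0 := by
  rw [nat_eq]
  intro h
  have h2 := congrArg (fun a => HahnSeries.coeff a 0) h
  simp only [HahnSeries.C_apply, HahnSeries.coeff_single_same, HahnSeries.coeff_zero] at h2
  exact absurd h2 (by exact_mod_cast n.succ_ne_zero)

theorem coeff_T_succ (M : ℤ) (a : LaurentSeries ℂ) (n : ℕ) :
    PowerSeries.coeff (n + 1) (T M a) * ((n : LaurentSeries ℂ) + 1) =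
      PowerSeries.coeff n (T M (D M a)) := by
  rw [coeff_T, coeff_T, Function.iterate_succ_apply, nat_eq, mul_right_comm, ← map_mul]
  congr 2
  rw [Nat.factorial_succ]
  have h2 : ((n : ℂ) + 1) ≠ 0 := by exact_mod_cast n.succ_ne_zero
  have h3 : ((n.factorial : ℕ) : ℂ) ≠ 0 := by exact_mod_cast n.factorial_ne_zero
  push_cast
  field_simp

theorem T_mul (M : ℤ) (a b : LaurentSeries ℂ) : T M (a * b) = T M a * T M b := by
  ext1 n
  induction n generalizing a b with
  | zero =>
    rw [PowerSeries.coeff_zero_eq_constantCoeff_apply, PowerSeries.coeff_zero_eq_constantCoeff_apply,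
      map_mul, ← PowerSeries.coeff_zero_eq_constantCoeff_apply,
      ← PowerSeries.coeff_zero_eq_constantCoeff_apply,
      ← PowerSeries.coeff_zero_eq_constantCoeff_apply, coeff_T, coeff_T, coeff_T]
    simp
  | succ n ih =>
    have hd : ∀ a, PowerSeries.derivative (LaurentSeries ℂ) (T M a) = T M (D M a) := by
      intro a
      ext1 k
      rw [PowerSeries.coeff_derivative, coeff_T_succ]
    apply mul_right_cancel₀ (nat_ne n)
    rw [coeff_T_succ, D_mul, T_add, map_add, ih, ih, ← PowerSeries.coeff_derivative,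
      Derivation.leibniz, hd, hd, map_add, smul_eq_mul, smul_eq_mul, add_comm,
      mul_comm (T M b)]

theorem T_const (M : ℤ) {a : LaurentSeries ℂ} (h : D M a = 0) : T M a = PowerSeries.C a := by
  ext1 j
  rw [coeff_T, PowerSeries.coeff_C]
  rcases j with _ | j
  · simp
  · rw [Function.iterate_succ_apply, h, iterate_map_zero, mul_zero, if_neg (Nat.succ_ne_zero j)]

/-- the Taylor series as a ring homomorphism -/
noncomputable def TH (M : ℤ) : LaurentSeries ℂ →+* PowerSeries (LaurentSeries ℂ) where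
  toFun := T M
  map_one' := by rw [T_const M (D_one M), map_one]
  map_mul' := T_mul M
  map_zero' := by rw [T_const M (map_zero _), map_zero]
  map_add' := T_add M

theorem TH_apply (M : ℤ) (a : LaurentSeries ℂ) : TH M a = T M a := rfl

theorem T_x {M : ℤ} {x : LaurentSeries ℂ} (h : D M x = 1) :
    T M x = PowerSeries.C x + PowerSeries.X := by
  ext1 j
  rw [coeff_T, map_add, PowerSeries.coeff_C, PowerSeries.coeff_X]
  rcases j with _ | j
  · simp
  · rcases j with _ | j
    · simp [h]
    · rw [Function.iterate_succ_apply, Function.iterate_succ_apply, h, D_one, iterate_map_zero,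
        mul_zero, if_neg (by omega), if_neg (by omega), add_zero]

theorem aeval_eq {A : Type} [CommRing A] (i : Algebra ℤ A) (v : Fin 2 → A)
    (f : MvPolynomial (Fin 2) ℤ) :
    @aeval ℤ A (Fin 2) _ _ i v f = eval₂ (Int.castRingHom A) v f := by
  rw [@aeval_def ℤ A (Fin 2) _ _ i v f, RingHom.ext_int (algebraMap ℤ A) (Int.castRingHom A)]

theorem isTay (f : MvPolynomial (Fin 2) ℤ) {M : ℤ} {x y : LaurentSeries ℂ} (h : D M x = 1)
    (h0 : eval₂ (Int.castRingHom (LaurentSeries ℂ)) ![x, y] f = 0) :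
    IsTay f x y (T M y) := by
  refine ⟨?_, ?_⟩
  · rw [← PowerSeries.coeff_zero_eq_constantCoeff_apply, coeff_T]
    simp
  · refine (aeval_eq _ _ _).trans ?_
    have h2 := MvPolynomial.eval₂_comp_left (TH M) (Int.castRingHom (LaurentSeries ℂ)) ![x, y] f
    rw [h0, map_zero] at h2
    rw [h2, RingHom.ext_int ((TH M).comp (Int.castRingHom (LaurentSeries ℂ)))
      (Int.castRingHom (PowerSeries (LaurentSeries ℂ)))]
    congr 1
    funext i
    fin_cases i
    · exact (T_x h).symm
    · rfl

/-- the coefficients below `e` vanish -/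
def Ge (e : ℤ) (a : LaurentSeries ℂ) : Prop := ∀ n < e, a.coeff n = 0

theorem Ge.mul {e e' : ℤ} {a b : LaurentSeries ℂ} (ha : Ge e a) (hb : Ge e' b) :
    Ge (e + e') (a * b) := by
  intro n hn
  rw [HahnSeries.coeff_mul]
  apply Finset.sum_eq_zero
  rintro ⟨i, j⟩ hij
  have h := (Finset.mem_antidiagonal.1 hij).2.2
  simp only at h
  rcases lt_or_ge i e with h1 | h1
  · simp only [ha i h1, zero_mul]
  · simp only [hb j (by omega), mul_zero]

theorem Ge.th {e : ℤ} {a : LaurentSeries ℂ} (ha : Ge e a) : Ge e (th a) := by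
  intro n hn
  rw [th_coeff, ha n hn, mul_zero]

theorem Ge.single (e : ℤ) (c : ℂ) : Ge e (HahnSeries.single e c) := by
  intro n hn
  exact HahnSeries.coeff_single_of_ne hn.ne

theorem Ge.cmul {e : ℤ} {a : LaurentSeries ℂ} (c : ℂ) (ha : Ge e a) :
    Ge e (HahnSeries.C c * a) := by
  have h := (Ge.single 0 c).mul ha
  rwa [zero_add] at h

theorem Ge.D {e : ℤ} {a : LaurentSeries ℂ} (M : ℤ) (ha : Ge e a) : Ge (e - M) (D M a) := by
  rw [D_apply]
  have h := (Ge.single (-M) ((M : ℂ)⁻¹)).mul ha.th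
  rwa [neg_add_eq_sub] at h

theorem Ge.iter {e : ℤ} {a : LaurentSeries ℂ} (M : ℤ) (ha : Ge e a) (j : ℕ) :
    Ge (e - M * j) ((YD.D M)^[j] a) := by
  induction j with
  | zero => simpa using ha
  | succ j ih =>
    rw [Function.iterate_succ_apply']
    have h := ih.D M
    have h2 : e - M * j - M = e - M * ((j + 1 : ℕ) : ℤ) := by push_cast; ring
    rwa [h2] at h

end YD

/-- `x = α + t ^ M` or `x = t ^ (-M)`: the coefficient of `ζ ^ j` is `y * t ^ (- M * j)` times a
power series in `t` -/
theorem laurent_tay (f : MvPolynomial (Fin 2) ℤ) (M : ℤ) (hM : M ≠ 0) (α : ℂ)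
    (y : LaurentSeries ℂ) (hy : y ≠ 0) (η : PowerSeries (LaurentSeries ℂ))
    (h0 : aeval ![HahnSeries.C α + HahnSeries.single M 1, y] f = 0)
    (h1 : aeval ![HahnSeries.C α + HahnSeries.single M 1, y] (pderiv 1 f) ≠ 0)
    (hη : IsTay f (HahnSeries.C α + HahnSeries.single M 1) y η) (j : ℕ) (n : ℤ) (hn : n < 0) :
    (PowerSeries.coeff j η * y⁻¹ * HahnSeries.single (M * j) 1).coeff n = 0 := by
  have h0' : eval₂ (Int.castRingHom (LaurentSeries ℂ))
      ![HahnSeries.C α + HahnSeries.single M 1, y] f = 0 := by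
    rw [← h0]
    exact (YD.aeval_eq _ _ _).symm
  have h1' : @aeval ℤ (LaurentSeries ℂ) (Fin 2) _ _ (Ring.toIntAlgebra _)
      ![HahnSeries.C α + HahnSeries.single M 1, y] (pderiv 1 f) ≠ 0 := by
    intro h
    apply h1
    rw [← h]
    exact (YD.aeval_eq _ _ _).trans (YD.aeval_eq _ _ _).symm
  have h2 := YD.isTay f (YD.D_x hM α) h0'
  rw [tay_unique f _ y η (YD.T M y) hη h2 h1', YD.coeff_T]
  have hy1 : YD.Ge y.order y := fun k hk => HahnSeries.coeff_eq_zero_of_lt_order hk
  have hy2 : YD.Ge (-y.order) y⁻¹ := by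
    have h3 := HahnSeries.order_mul hy (inv_ne_zero hy)
    rw [mul_inv_cancel₀ hy, HahnSeries.order_one] at h3
    have h4 : y⁻¹.order = -y.order := by omega
    intro k hk
    apply HahnSeries.coeff_eq_zero_of_lt_order
    rwa [h4]
  have h5 := (((hy1.iter M j).cmul ((j.factorial : ℂ))⁻¹).mul hy2).mul (YD.Ge.single (M * j) 1)
  exact h5 n (by linarith)

end Pool.Agent.PC
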