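import Pool.Agent.Lib.MP_c95b3b_ag_PC.Defs

/-! Project PC (MP_c95b3b_ag), module YE: coefficients of minimal polynomials. -/

namespace Pool.Agent.PC

open Pool.Agent.L3 Pool.Agent.AL Module MvPolynomial

/-- the roots of the minimal polynomial in a large field -/
private theorem minpoly_roots_aux {F E Om : Type} [Field F] [Field E] [Field Om] [Algebra F Om]
    [Algebra.IsAlgebraic F Om] (τ : F →+* E) (g : Polynomial F) (hg : g ≠ 0)
    (hs : (g.map τ).Splits) (y : Om) (hy : Polynomial.aeval y g = 0) (u v : Polynomial F)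
    (hv : Polynomial.aeval y v ≠ 0) {Ω : Type} [Field Ω] [IsAlgClosed Ω] (ι : E →+* Ω) (r' : Ω)
    (hr : ((minpoly F (Polynomial.aeval y u / Polynomial.aeval y v)).map (ι.comp τ)).eval r' = 0) :
    ∃ z : E, (g.map τ).eval z = 0 ∧ (v.map τ).eval z ≠ 0 ∧
      r' = ι ((u.map τ).eval z / (v.map τ).eval z) := by
  classical
  let _ : Algebra F Ω := (ι.comp τ).toAlgebra
  have halg : algebraMap F Ω = ι.comp τ := rfl
  have hev : ∀ (q : Polynomial F) (z : E),
      Polynomial.aeval (ι z) q = ι ((q.map τ).eval z) := by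
    intro q z
    rw [Polynomial.aeval_def, halg, ← Polynomial.eval₂_map, Polynomial.eval₂_hom]
  have hp0 : minpoly F (Polynomial.aeval y u / Polynomial.aeval y v) ≠ 0 :=
    minpoly.ne_zero (Algebra.IsIntegral.isIntegral _)
  have hmem : r' ∈ (minpoly F (Polynomial.aeval y u / Polynomial.aeval y v)).rootSet Ω := by
    rw [Polynomial.mem_rootSet]
    refine ⟨hp0, ?_⟩
    rw [Polynomial.aeval_def, halg, ← Polynomial.eval_map]
    exact hr
  rw [← Algebra.IsAlgebraic.range_eval_eq_rootSet_minpoly] at hmem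
  obtain ⟨ψ, hψ⟩ := hmem
  have hz' : Polynomial.aeval (ψ y) g = 0 := by
    rw [Polynomial.aeval_algHom_apply, hy, map_zero]
  have hgτ : g.map τ ≠ 0 := (Polynomial.map_ne_zero_iff τ.injective).mpr hg
  have hroot : ((g.map τ).map ι).IsRoot (ψ y) := by
    rw [Polynomial.IsRoot.def, Polynomial.map_map, Polynomial.eval_map, ← halg,
      ← Polynomial.aeval_def]
    exact hz'
  rw [← Polynomial.mem_roots (Polynomial.map_ne_zero hgτ), hs.roots_map, Multiset.mem_map]
    at hroot
  obtain ⟨z, hz, hzy⟩ := hroot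
  have hz0 : (g.map τ).eval z = 0 := Polynomial.isRoot_of_mem_roots hz
  have hvz : ψ (Polynomial.aeval y v) = ι ((v.map τ).eval z) := by
    rw [← Polynomial.aeval_algHom_apply, ← hzy, hev]
  have huz : ψ (Polynomial.aeval y u) = ι ((u.map τ).eval z) := by
    rw [← Polynomial.aeval_algHom_apply, ← hzy, hev]
  refine ⟨z, hz0, ?_, ?_⟩
  · intro h0
    rw [h0, map_zero] at hvz
    exact hv ((map_eq_zero ψ).mp hvz)
  · have hψ' : ψ (Polynomial.aeval y u / Polynomial.aeval y v) = r' := hψ
    rw [← hψ', map_div₀, huz, hvz, map_div₀]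

theorem minpoly_roots {F E Om : Type} [Field F] [Field E] [Field Om] [Algebra F Om]
    [Algebra.IsAlgebraic F Om] (τ : F →+* E) (g : Polynomial F) (hg : g ≠ 0)
    (hs : (g.map τ).Splits) (y : Om) (hy : Polynomial.aeval y g = 0) (u v : Polynomial F)
    (hv : Polynomial.aeval y v ≠ 0) :
    ((minpoly F (Polynomial.aeval y u / Polynomial.aeval y v)).map τ).Splits ∧
      ∀ r : E, ((minpoly F (Polynomial.aeval y u / Polynomial.aeval y v)).map τ).eval r = 0 →
        ∃ z : E, (g.map τ).eval z = 0 ∧ (v.map τ).eval z ≠ 0 ∧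
          r = (u.map τ).eval z / (v.map τ).eval z := by
  constructor
  · refine Polynomial.Splits.of_splits_map (algebraMap E (AlgebraicClosure E))
      (IsAlgClosed.splits _) ?_
    intro a ha
    have ha' := Polynomial.isRoot_of_mem_roots ha
    rw [Polynomial.IsRoot.def, Polynomial.map_map] at ha'
    obtain ⟨z, -, -, h⟩ := minpoly_roots_aux τ g hg hs y hy u v hv
      (algebraMap E (AlgebraicClosure E)) a ha'
    exact ⟨_, h.symm⟩
  · intro r hr
    have hr' : ((minpoly F (Polynomial.aeval y u / Polynomial.aeval y v)).map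
        ((algebraMap E (AlgebraicClosure E)).comp τ)).eval
          (algebraMap E (AlgebraicClosure E) r) = 0 := by
      rw [← Polynomial.map_map, Polynomial.eval_map, Polynomial.eval₂_hom, hr, map_zero]
    obtain ⟨z, h1, h2, h3⟩ := minpoly_roots_aux τ g hg hs y hy u v hv
      (algebraMap E (AlgebraicClosure E)) _ hr'
    exact ⟨z, h1, h2, (algebraMap E (AlgebraicClosure E)).injective h3⟩

theorem minpoly_coeff_mem {F E Om : Type} [Field F] [Field E] [Field Om] [Algebra F Om]
    [Algebra.IsAlgebraic F Om] (τ : F →+* E) (O : Subring E) (g : Polynomial F) (hg : g ≠ 0)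
    (hs : (g.map τ).Splits) (y : Om) (hy : Polynomial.aeval y g = 0) (u v : Polynomial F)
    (hv : Polynomial.aeval y v ≠ 0)
    (hO : ∀ z : E, (g.map τ).eval z = 0 → (v.map τ).eval z ≠ 0 →
      (u.map τ).eval z / (v.map τ).eval z ∈ O) (l : ℕ) :
    τ ((minpoly F (Polynomial.aeval y u / Polynomial.aeval y v)).coeff l) ∈ O := by
  obtain ⟨h1, h2⟩ := minpoly_roots τ g hg hs y hy u v hv
  have hm : ((minpoly F (Polynomial.aeval y u / Polynomial.aeval y v)).map τ).Monic :=
    (minpoly.monic (Algebra.IsIntegral.isIntegral _)).map τ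
  have h3 := h1.mem_lift_of_roots_mem_range hm O.subtype (by
    intro a ha
    obtain ⟨z, hz, hvz, rfl⟩ := h2 a (Polynomial.isRoot_of_mem_roots ha)
    exact ⟨⟨_, hO z hz hvz⟩, rfl⟩)
  rw [Polynomial.lifts_iff_coeff_lifts] at h3
  obtain ⟨o, ho⟩ := h3 l
  rw [Polynomial.coeff_map] at ho
  rw [← ho]
  exact o.2

theorem minpoly_mul {F Om : Type} [Field F] [Field Om] [Algebra F Om]
    [Algebra.IsAlgebraic F Om] (c : F) (hc : c ≠ 0) (b : Om) :
    (minpoly F (algebraMap F Om c * b)).natDegree = (minpoly F b).natDegree ∧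
    ∀ l, (minpoly F (algebraMap F Om c * b)).coeff l =
      c ^ ((minpoly F b).natDegree - l) * (minpoly F b).coeff l := by
  have hint : ∀ x : Om, IsIntegral F x := fun x => Algebra.IsIntegral.isIntegral x
  -- the scaled polynomial
  have hroot : ∀ (d : F) (x : Om),
      Polynomial.aeval (algebraMap F Om d * x) ((minpoly F x).scaleRoots d) = 0 := by
    intro d x
    exact Polynomial.scaleRoots_aeval_eq_zero (minpoly.aeval F x)
  have hmon : ∀ (d : F) (x : Om), ((minpoly F x).scaleRoots d).Monic := fun d x =>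
    (Polynomial.monic_scaleRoots_iff d).mpr (minpoly.monic (hint x))
  have hle : ∀ (d : F) (x : Om), (minpoly F (algebraMap F Om d * x)).natDegree ≤
      (minpoly F x).natDegree := by
    intro d x
    have h := Polynomial.natDegree_le_natDegree (minpoly.min F _ (hmon d x) (hroot d x))
    rwa [Polynomial.natDegree_scaleRoots] at h
  have hcc : algebraMap F Om c⁻¹ * (algebraMap F Om c * b) = b := by
    rw [← mul_assoc, ← map_mul, inv_mul_cancel₀ hc, map_one, one_mul]
  have hdeg : (minpoly F (algebraMap F Om c * b)).natDegree = (minpoly F b).natDegree := by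
    refine le_antisymm (hle c b) ?_
    have h := hle c⁻¹ (algebraMap F Om c * b)
    rwa [hcc] at h
  refine ⟨hdeg, fun l => ?_⟩
  have huniq : (minpoly F b).scaleRoots c = minpoly F (algebraMap F Om c * b) := by
    refine minpoly.unique F _ (hmon c b) (hroot c b) fun q hq hq0 => ?_
    have h1 : (minpoly F (algebraMap F Om c * b)).degree ≤ q.degree := minpoly.min F _ hq hq0
    refine le_trans (le_of_eq ?_) h1
    rw [Polynomial.degree_scaleRoots, Polynomial.degree_eq_natDegree
      (minpoly.ne_zero (hint b)), Polynomial.degree_eq_natDegree (minpoly.ne_zero (hint _)), hdeg]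
  rw [← huniq, Polynomial.coeff_scaleRoots, mul_comm]

end Pool.Agent.PC
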