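import Pool.Agent.Lib.MP_c95b3b_ag_PC.Defs
import Pool.Agent.Lib.MP_c95b3b_ag_PC.YA
import Pool.Agent.Lib.MP_c95b3b_ag_PC.YB
import Pool.Agent.Lib.MP_c95b3b_ag_PC.YD
import Pool.Agent.Lib.MP_c95b3b_ag_PC.YE
import Pool.Agent.Lib.Puiseux.Main
import Pool.Agent.Lib.MP_c95b3b_ag_AL.NB

/-! Project PC (MP_c95b3b_ag), module YF: regularity of the coefficients. -/

namespace Pool.Agent.PC

open Pool.Agent.L3 Pool.Agent.AL Module MvPolynomial

namespace YF

/-- the Laurent series without principal part -/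
noncomputable def O : Subring (LaurentSeries ℂ) := (HahnSeries.ofPowerSeries ℤ ℂ).range

theorem mem_O {a : LaurentSeries ℂ} : a ∈ O ↔ ∀ n < 0, a.coeff n = 0 := by
  constructor
  · rintro ⟨p, rfl⟩ n hn
    rw [HahnSeries.ofPowerSeries_apply]
    refine HahnSeries.embDomain_of_notMem_range ?_
    rintro ⟨i, hi⟩
    have : (i : ℤ) = n := hi
    omega
  · intro h
    exact Pool.Agent.Lib.Puiseux.mem_range_of_coeff_neg h

theorem coeff_zero_ofPS (r : PowerSeries ℂ) : (HahnSeries.ofPowerSeries ℤ ℂ r).coeff 0 =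
    PowerSeries.constantCoeff r := by
  have := HahnSeries.ofPowerSeries_apply_coeff (Γ := ℤ) r 0
  simpa using this

theorem coeff_zero_mul {a b : LaurentSeries ℂ} (ha : a ∈ O) (hb : b ∈ O) :
    (a * b).coeff 0 = a.coeff 0 * b.coeff 0 := by
  obtain ⟨p, rfl⟩ := ha
  obtain ⟨q, rfl⟩ := hb
  rw [← map_mul, coeff_zero_ofPS, coeff_zero_ofPS, coeff_zero_ofPS, map_mul]

theorem inv_mem {a : LaurentSeries ℂ} (ha : a ∈ O) (h0 : a.coeff 0 ≠ 0) : a⁻¹ ∈ O := by
  obtain ⟨p, rfl⟩ := ha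
  rw [coeff_zero_ofPS] at h0
  refine ⟨p⁻¹, ?_⟩
  symm
  apply inv_eq_of_mul_eq_one_right
  rw [← map_mul, PowerSeries.mul_inv_cancel _ h0, map_one]

theorem single_mem {n : ℤ} (hn : 0 ≤ n) (a : ℂ) : (HahnSeries.single n a : LaurentSeries ℂ) ∈ O := by
  rw [mem_O]
  intro k hk
  rw [HahnSeries.coeff_single_of_ne]
  omega

/-- the value at a point, as a ring homomorphism -/
noncomputable def ev {A : Type} [CommRing A] (x z : A) : MvPolynomial (Fin 2) ℤ →+* A :=
  eval₂Hom (Int.castRingHom A) ![x, z]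

theorem mv_eq {A : Type} [CommRing A] {inst : Algebra ℤ A} (x z : A) (f : MvPolynomial (Fin 2) ℤ) :
    aeval ![x, z] f = ev x z f := by
  rw [aeval_def, ev, coe_eval₂Hom]
  congr 1
  exact RingHom.ext_int _ _

theorem ev_C {A : Type} [CommRing A] (x z : A) (a : ℤ) : ev x z (C a) = (a : A) := by
  rw [ev, eval₂Hom_C]
  rfl

theorem ev_X0 {A : Type} [CommRing A] (x z : A) : ev x z (X 0) = x := by
  rw [ev, eval₂Hom_X']
  rfl

theorem ev_X1 {A : Type} [CommRing A] (x z : A) : ev x z (X 1) = z := by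
  rw [ev, eval₂Hom_X']
  rfl

theorem ev_mem {R : Type} [CommRing R] (S : Subring R) {x z : R} (hx : x ∈ S) (hz : z ∈ S)
    (f : MvPolynomial (Fin 2) ℤ) : ev x z f ∈ S := by
  induction f using MvPolynomial.induction_on with
  | C a =>
    rw [ev_C]
    exact intCast_mem S a
  | add p q hp hq => rw [map_add]; exact add_mem hp hq
  | mul_X p i hp =>
    rw [map_mul]
    refine mul_mem hp ?_
    fin_cases i
    · exact (ev_X0 x z).symm ▸ hx
    · exact (ev_X1 x z).symm ▸ hz

theorem toY_eval {A B : Type} [CommRing A] [CommRing B] (φ : Polynomial ℤ →+* A) (ψ : A →+* B)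
    (z : B)
    (f : MvPolynomial (Fin 2) ℤ) :
    ((toY f).map φ).eval₂ ψ z = ev (ψ (φ Polynomial.X)) z f := by
  have h : ((Polynomial.eval₂RingHom ψ z).comp (Polynomial.mapRingHom φ)).comp
      (toY : MvPolynomial (Fin 2) ℤ →ₐ[ℤ] _).toRingHom = ev (ψ (φ Polynomial.X)) z := by
    refine MvPolynomial.ringHom_ext' (RingHom.ext_int _ _) fun i => ?_
    fin_cases i
    · exact (by simp [toY] : ((Polynomial.eval₂RingHom ψ z).comp (Polynomial.mapRingHom φ)).comp
        (toY : MvPolynomial (Fin 2) ℤ →ₐ[ℤ] _).toRingHom (X 0) = ψ (φ Polynomial.X)).trans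
        (ev_X0 _ _).symm
    · exact (by simp [toY] : ((Polynomial.eval₂RingHom ψ z).comp (Polynomial.mapRingHom φ)).comp
        (toY : MvPolynomial (Fin 2) ℤ →ₐ[ℤ] _).toRingHom (X 1) = z).trans
        (ev_X1 _ _).symm
  exact congrArg (fun g : MvPolynomial (Fin 2) ℤ →+* B => g f) h

/-- the value of a polynomial in one variable -/
noncomputable def pe {A : Type} [CommRing A] (x : A) : Polynomial ℤ →+* A :=
  Polynomial.eval₂RingHom (Int.castRingHom A) x

theorem po_eq {A : Type} [CommRing A] {inst : Algebra ℤ A} (x : A) (p : Polynomial ℤ) :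
    Polynomial.aeval x p = pe x p := by
  rw [Polynomial.aeval_def, pe, Polynomial.coe_eval₂RingHom]
  congr 1
  exact RingHom.ext_int _ _

theorem pe_X {A : Type} [CommRing A] (x : A) : pe x Polynomial.X = x := by
  rw [pe, Polynomial.coe_eval₂RingHom, Polynomial.eval₂_X]

theorem ev_po {A : Type} [CommRing A] (x z : A) (p : Polynomial ℤ) :
    ev x z (Polynomial.aeval (X 0 : MvPolynomial (Fin 2) ℤ) p) = pe x p := by
  rw [po_eq]
  have h : (ev x z).comp (pe (X 0)) = pe x := by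
    refine Polynomial.ringHom_ext' (RingHom.ext_int _ _) ?_
    rw [RingHom.comp_apply, pe_X, pe_X, ev_X0]
  exact congrArg (fun g : Polynomial ℤ →+* A => g p) h

theorem ringHom_pe {A : Type} [CommRing A] (φ : Polynomial ℤ →+* A) : φ = pe (φ Polynomial.X) := by
  refine Polynomial.ringHom_ext' (RingHom.ext_int _ _) ?_
  rw [pe_X]

/-- the point `α + t ^ N` -/
noncomputable def xf (α : ℂ) (N : ℤ) : LaurentSeries ℂ := HahnSeries.C α + HahnSeries.single N 1

theorem xf_eq (α : ℂ) (N : ℕ) : xf α N =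
    HahnSeries.ofPowerSeries ℤ ℂ (PowerSeries.C α + PowerSeries.X ^ N) := by
  rw [map_add, HahnSeries.ofPowerSeries_C, HahnSeries.ofPowerSeries_X_pow]
  rfl

theorem fin_mem (α : ℂ) (N : ℕ) (hN : N ≠ 0) (P : Polynomial ℂ) :
    P.eval₂ (HahnSeries.C : ℂ →+* LaurentSeries ℂ) (xf α N) ∈ O ∧
      (P.eval₂ (HahnSeries.C : ℂ →+* LaurentSeries ℂ) (xf α N)).coeff 0 = P.eval α := by
  have h1 : P.eval₂ (HahnSeries.C : ℂ →+* LaurentSeries ℂ) (xf α N) =
      HahnSeries.ofPowerSeries ℤ ℂ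
        (P.eval₂ (PowerSeries.C : ℂ →+* PowerSeries ℂ) (PowerSeries.C α + PowerSeries.X ^ N)) := by
    rw [Polynomial.hom_eval₂, ← xf_eq]
    congr 1
    ext1 a
    exact (HahnSeries.ofPowerSeries_C a).symm
  rw [h1]
  refine ⟨⟨_, rfl⟩, ?_⟩
  rw [coeff_zero_ofPS, Polynomial.hom_eval₂, map_add, map_pow, PowerSeries.constantCoeff_X,
    zero_pow hN, add_zero, PowerSeries.constantCoeff_C]
  have h2 : (PowerSeries.constantCoeff : PowerSeries ℂ →+* ℂ).comp PowerSeries.C = RingHom.id ℂ := by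
    ext1 a
    exact PowerSeries.constantCoeff_C a
  rw [h2]
  rfl

theorem pe_map (x : LaurentSeries ℂ) (p : Polynomial ℤ) :
    pe x p = (p.map (Int.castRingHom ℂ)).eval₂
      (HahnSeries.C : ℂ →+* LaurentSeries ℂ) x := by
  rw [Polynomial.eval₂_map, pe, Polynomial.coe_eval₂RingHom]
  congr 1

theorem pe_fin (α : ℂ) (N : ℕ) (hN : N ≠ 0) (p : Polynomial ℤ) :
    pe (xf α N) p ∈ O ∧ (pe (xf α N) p).coeff 0 = pe α p := by
  have h := fin_mem α N hN (p.map (Int.castRingHom ℂ))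
  rw [← pe_map] at h
  refine ⟨h.1, h.2.trans ?_⟩
  rw [Polynomial.eval_map]
  rfl

theorem aeval_rat (α : ℂ) (N : ℕ) (hN : N ≠ 0) (p : Polynomial ℚ) :
    (p.map (algebraMap ℚ ℂ)).eval₂ (HahnSeries.C : ℂ →+* LaurentSeries ℂ) (xf α N) ∈ O ∧
      ((p.map (algebraMap ℚ ℂ)).eval₂ (HahnSeries.C : ℂ →+* LaurentSeries ℂ) (xf α N)).coeff 0 =
        Polynomial.aeval α p := by
  have h := fin_mem α N hN (p.map (algebraMap ℚ ℂ))
  refine ⟨h.1, h.2.trans ?_⟩
  rw [Polynomial.eval_map, Polynomial.aeval_def]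

theorem pe_sum (N : ℕ) (p : Polynomial ℤ) :
    pe (HahnSeries.single (-(N : ℤ)) 1 : LaurentSeries ℂ) p =
      ∑ k ∈ Finset.range (p.natDegree + 1), HahnSeries.single (-((N : ℤ) * k)) (p.coeff k : ℂ) := by
  rw [pe, Polynomial.coe_eval₂RingHom, Polynomial.eval₂_eq_sum_range]
  refine Finset.sum_congr rfl fun k _ => ?_
  have h1 : Int.castRingHom (LaurentSeries ℂ) (p.coeff k) =
      HahnSeries.single (0 : ℤ) (p.coeff k : ℂ) := by
    have h2 : (Int.castRingHom (LaurentSeries ℂ)) =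
        (HahnSeries.C : ℂ →+* LaurentSeries ℂ).comp (Int.castRingHom ℂ) := RingHom.ext_int _ _
    rw [h2]
    rfl
  have h3 : k • (-(N : ℤ)) = -((N : ℤ) * k) := by rw [nsmul_eq_mul]; ring
  rw [h1, HahnSeries.single_pow, one_pow, HahnSeries.single_mul_single, mul_one, zero_add, h3]

/-- the coefficients at infinity -/
theorem inf_coeff (N : ℕ) (hN : N ≠ 0) (p : Polynomial ℤ) (i : ℕ) :
    (pe (HahnSeries.single (-(N : ℤ)) 1 : LaurentSeries ℂ) p).coeff (-((N : ℤ) * i)) =
      p.coeff i := by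
  rw [pe_sum, HahnSeries.coeff_sum]
  have h : ∀ k ∈ Finset.range (p.natDegree + 1),
      (HahnSeries.single (-((N : ℤ) * k)) (p.coeff k : ℂ) : LaurentSeries ℂ).coeff
        (-((N : ℤ) * i)) = if k = i then (p.coeff k : ℂ) else 0 := by
    intro k _
    split_ifs with hk
    · rw [hk, HahnSeries.coeff_single_same]
    · rw [HahnSeries.coeff_single_of_ne]
      intro h
      apply hk
      have h1 : (N : ℤ) * i = N * k := by linarith
      have h2 : (N : ℤ) ≠ 0 := by exact_mod_cast hN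
      exact_mod_cast (mul_left_cancel₀ h2 h1).symm
  rw [Finset.sum_congr rfl h, Finset.sum_ite_eq']
  split_ifs with hi
  · rfl
  · rw [Finset.mem_range, not_lt] at hi
    rw [Polynomial.coeff_eq_zero_of_natDegree_lt (by omega)]
    simp

theorem inf_inj (N : ℕ) (hN : N ≠ 0) :
    Function.Injective (pe (HahnSeries.single (-(N : ℤ)) 1 : LaurentSeries ℂ)) := by
  rw [injective_iff_map_eq_zero]
  intro p hp
  ext i
  have := inf_coeff N hN p i
  rw [hp] at this
  rw [Polynomial.coeff_zero]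
  have h2 : ((p.coeff i : ℤ) : ℂ) = 0 := by rw [← this]; rfl
  exact_mod_cast h2

theorem inf_mem (N : ℕ) (p : Polynomial ℤ) (d : ℕ) (hd : p.natDegree ≤ d) :
    pe (HahnSeries.single (-(N : ℤ)) 1 : LaurentSeries ℂ) p *
      HahnSeries.single ((N : ℤ) * d) 1 ∈ O := by
  rw [pe_sum, Finset.sum_mul]
  refine sum_mem fun k hk => ?_
  rw [Finset.mem_range] at hk
  rw [HahnSeries.single_mul_single]
  refine single_mem ?_ _
  have : (k : ℤ) ≤ d := by exact_mod_cast (by omega : k ≤ d)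
  nlinarith

theorem inf_deg (N : ℕ) (hN : N ≠ 0) (p : Polynomial ℤ) (d : ℕ)
    (h : pe (HahnSeries.single (-(N : ℤ)) 1 : LaurentSeries ℂ) p *
      HahnSeries.single ((N : ℤ) * d) 1 ∈ O) : p.natDegree ≤ d := by
  by_contra hlt
  rw [not_le] at hlt
  have hp : p ≠ 0 := by
    rintro rfl
    simp at hlt
  rw [mem_O] at h
  have h1 := h (-((N : ℤ) * p.natDegree) + (N : ℤ) * d) (by
    have h2 : (d : ℤ) < p.natDegree := by exact_mod_cast hlt
    have h3 : (0 : ℤ) < N := by exact_mod_cast Nat.pos_of_ne_zero hN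
    nlinarith)
  rw [HahnSeries.coeff_mul_single_add, inf_coeff N hN, mul_one, Polynomial.coeff_natDegree] at h1
  apply hp
  rw [← Polynomial.leadingCoeff_eq_zero]
  exact_mod_cast h1

theorem fin_inj (α : ℂ) (N : ℕ) (hN : N ≠ 0) : Function.Injective (pe (xf α N)) := by
  rw [injective_iff_map_eq_zero]
  intro p hp
  by_contra hne
  rw [pe_map] at hp
  have h1 : ∀ P : Polynomial ℂ, P.eval₂ (HahnSeries.C : ℂ →+* LaurentSeries ℂ) (xf α N) =
      HahnSeries.ofPowerSeries ℤ ℂ ((P.comp (Polynomial.C α + Polynomial.X ^ N) :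
        Polynomial ℂ) : PowerSeries ℂ) := by
    intro P
    have h2 : (P.comp (Polynomial.C α + Polynomial.X ^ N) : PowerSeries ℂ) =
        P.eval₂ (PowerSeries.C : ℂ →+* PowerSeries ℂ) (PowerSeries.C α + PowerSeries.X ^ N) := by
      rw [Polynomial.comp]
      have := Polynomial.hom_eval₂ P Polynomial.C (Polynomial.coeToPowerSeries.ringHom (R := ℂ))
        (Polynomial.C α + Polynomial.X ^ N)
      rw [Polynomial.coeToPowerSeries.ringHom_apply] at this
      rw [this, map_add, map_pow]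
      simp only [Polynomial.coeToPowerSeries.ringHom_apply, Polynomial.coe_C, Polynomial.coe_X]
      congr 1
      ext1 a
      simp
    rw [h2, Polynomial.hom_eval₂, ← xf_eq]
    congr 1
    ext1 a
    exact (HahnSeries.ofPowerSeries_C a).symm
  rw [h1] at hp
  have h3 : (p.map (Int.castRingHom ℂ)).comp (Polynomial.C α + Polynomial.X ^ N) = 0 := by
    have h4 := HahnSeries.ofPowerSeries_injective (Γ := ℤ) (hp.trans (map_zero _).symm)
    exact_mod_cast h4
  rw [Polynomial.comp_eq_zero_iff] at h3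
  rcases h3 with h3 | ⟨-, h3⟩
  · apply hne
    exact (Polynomial.map_eq_zero_iff (RingHom.injective_int (Int.castRingHom ℂ))).1 h3
  · have h5 : (Polynomial.C α + Polynomial.X ^ N : Polynomial ℂ).natDegree = N := by
      rw [add_comm]
      exact Polynomial.natDegree_X_pow_add_C
    rw [h3, Polynomial.natDegree_C] at h5
    exact hN h5.symm

end YF

section
variable {m : ℕ}

/-- the generic value of the first coordinate -/
noncomputable def gx : AlgebraicClosure (FractionRing (Polynomial ℤ)) :=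
  algebraMap (Polynomial ℤ) _ Polynomial.X

end

namespace YF

/-- the field of rational functions -/
abbrev F : Type := FractionRing (Polynomial ℤ)

/-- its algebraic closure -/
abbrev Om : Type := AlgebraicClosure (FractionRing (Polynomial ℤ))

theorem algMap_eq : (algebraMap (Polynomial ℤ) Om) = (algebraMap F Om).comp
    (algebraMap (Polynomial ℤ) F) := IsScalarTower.algebraMap_eq _ _ _

theorem pe_gx : (pe gx : Polynomial ℤ →+* Om) = algebraMap (Polynomial ℤ) Om :=
  (ringHom_pe _).symm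

theorem gx_inj : Function.Injective (pe gx : Polynomial ℤ →+* Om) := by
  rw [pe_gx, algMap_eq]
  exact (algebraMap F Om).injective.comp (IsFractionRing.injective (Polynomial ℤ) F)

/-- the extension of a substitution to the rational functions -/
noncomputable def tau (x : LaurentSeries ℂ) (hx : Function.Injective (pe x)) :
    F →+* LaurentSeries ℂ := IsFractionRing.lift hx

theorem tau_apply (x : LaurentSeries ℂ) (hx : Function.Injective (pe x)) (p : Polynomial ℤ) :
    tau x hx (algebraMap (Polynomial ℤ) F p) = pe x p := IsFractionRing.lift_algebraMap hx p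

theorem tau_comp (x : LaurentSeries ℂ) (hx : Function.Injective (pe x)) :
    (tau x hx).comp (algebraMap (Polynomial ℤ) F) = pe x := by
  exact RingHom.ext fun p => tau_apply x hx p

/-- a polynomial as a polynomial in the second variable over the rational functions -/
noncomputable def toF (f : MvPolynomial (Fin 2) ℤ) : Polynomial F :=
  (toY f).map (algebraMap (Polynomial ℤ) F)

theorem toF_eval (x : LaurentSeries ℂ) (hx : Function.Injective (pe x)) (z : LaurentSeries ℂ)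
    (f : MvPolynomial (Fin 2) ℤ) : ((toF f).map (tau x hx)).eval z = ev x z f := by
  rw [Polynomial.eval_map, toF, toY_eval, tau_apply, pe_X]

theorem toF_aeval (y : Om) (f : MvPolynomial (Fin 2) ℤ) :
    Polynomial.aeval y (toF f) = ev gx y f := by
  rw [Polynomial.aeval_def, toF, toY_eval]
  rfl

theorem gen (x : LaurentSeries ℂ) (hx : Function.Injective (pe x)) (S : Subring (LaurentSeries ℂ))
    (f : MvPolynomial (Fin 2) ℤ) (hf : toY f ≠ 0) (hs : ((toY f).map (pe x)).Splits) (y : Om)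
    (hy : ev gx y f = 0) (U V : MvPolynomial (Fin 2) ℤ) (hV : ev gx y V ≠ 0)
    (hO : ∀ z : LaurentSeries ℂ, ev x z f = 0 → ev x z V ≠ 0 → ev x z U / ev x z V ∈ S) (l : ℕ) :
    tau x hx ((minpoly F (ev gx y U / ev gx y V)).coeff l) ∈ S := by
  have h1 : toF f ≠ 0 := by
    rw [toF, Ne, Polynomial.map_eq_zero_iff (IsFractionRing.injective (Polynomial ℤ) F)]
    exact hf
  have h2 : ((toF f).map (tau x hx)).Splits := by
    rw [toF, Polynomial.map_map, tau_comp]
    exact hs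
  rw [← toF_aeval, ← toF_aeval]
  refine minpoly_coeff_mem (tau x hx) S (toF f) h1 h2 y ?_ (toF U) (toF V) ?_ ?_ l
  · rw [toF_aeval, hy]
  · rw [toF_aeval]; exact hV
  · intro z hz hz'
    rw [toF_eval] at hz hz'
    rw [toF_eval, toF_eval]
    exact hO z hz hz'

theorem exists_split (f : MvPolynomial (Fin 2) ℤ) (x : LaurentSeries ℂ) :
    ∃ N : ℕ+, ((toY f).map (pe (Pool.Agent.Lib.Puiseux.subst N x))).Splits := by
  obtain ⟨N, hN⟩ := Pool.Agent.Lib.Puiseux.puiseux ((toY f).map (pe x))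
  refine ⟨N, ?_⟩
  rw [Polynomial.map_map, ringHom_pe ((Pool.Agent.Lib.Puiseux.subst N).comp (pe x)),
    RingHom.comp_apply, pe_X] at hN
  exact hN

theorem exists_split_fin (f : MvPolynomial (Fin 2) ℤ) (α : ℂ) :
    ∃ N : ℕ, N ≠ 0 ∧ ((toY f).map (pe (xf α N))).Splits := by
  obtain ⟨N, hN⟩ := exists_split f (xf α 1)
  refine ⟨N, N.ne_zero, ?_⟩
  have h : Pool.Agent.Lib.Puiseux.subst N (xf α 1) = xf α (N : ℕ) := by
    rw [xf, map_add, xf]
    congr 1
    · have := Pool.Agent.Lib.Puiseux.subst_single N 0 α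
      rw [mul_zero] at this
      exact this
    · rw [Pool.Agent.Lib.Puiseux.subst_single, mul_one]
  rw [h] at hN
  exact hN

theorem exists_split_inf (f : MvPolynomial (Fin 2) ℤ) :
    ∃ N : ℕ, N ≠ 0 ∧
      ((toY f).map (pe (HahnSeries.single (-(N : ℤ)) 1 : LaurentSeries ℂ))).Splits := by
  obtain ⟨N, hN⟩ := exists_split f (HahnSeries.single (-1 : ℤ) 1)
  refine ⟨N, N.ne_zero, ?_⟩
  rw [Pool.Agent.Lib.Puiseux.subst_single, mul_neg, mul_one] at hN
  exact hN

/-- rational functions without finite poles -/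
theorem no_poles (e : F) (h : ∀ α : ℂ, ∃ (N : ℕ) (hN : N ≠ 0),
    tau (xf α N) (fin_inj α N hN) e ∈ O) :
    ∃ (c : ℤ) (p : Polynomial ℤ), c ≠ 0 ∧ algebraMap (Polynomial ℤ) F (Polynomial.C c) * e =
      algebraMap (Polynomial ℤ) F p := by
  classical
  obtain ⟨p, q, hq, rfl⟩ := IsFractionRing.div_surjective (A := Polynomial ℤ) e
  have hq0 : q ≠ 0 := nonZeroDivisors.ne_zero hq
  set P : Polynomial ℚ := p.map (Int.castRingHom ℚ) with hP
  set Q : Polynomial ℚ := q.map (Int.castRingHom ℚ) with hQ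
  have hcast : ∀ r : Polynomial ℤ, ∀ x : LaurentSeries ℂ, pe x r =
      ((r.map (Int.castRingHom ℚ)).map (algebraMap ℚ ℂ)).eval₂
        (HahnSeries.C : ℂ →+* LaurentSeries ℂ) x := by
    intro r x
    rw [pe_map, Polynomial.map_map]
    congr 2
  have hQ0 : Q ≠ 0 := by
    rw [hQ, Ne, Polynomial.map_eq_zero_iff (RingHom.injective_int (Int.castRingHom ℚ))]
    exact hq0
  obtain ⟨P1, Q1, hP1, hQ1, hco⟩ := extract_gcd P Q
  set D := GCDMonoid.gcd P Q with hD
  have hco' : IsCoprime P1 Q1 := (gcd_isUnit_iff P1 Q1).1 hco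
  obtain ⟨u, v, huv⟩ := hco'
  have hdeg : Q1.degree = 0 := by
    by_contra hdeg
    obtain ⟨α, hα⟩ := IsAlgClosed.exists_aeval_eq_zero ℂ Q1 hdeg
    obtain ⟨N, hN, hO⟩ := h α
    have h1 : Polynomial.aeval α P1 ≠ 0 := by
      intro h0
      have := congrArg (Polynomial.aeval α) huv
      rw [map_add, map_mul, map_mul, hα, h0, mul_zero, mul_zero, add_zero, map_one] at this
      exact zero_ne_one this
    set E : Polynomial ℚ →+* LaurentSeries ℂ :=
      (Polynomial.eval₂RingHom (HahnSeries.C : ℂ →+* LaurentSeries ℂ) (xf α N)).comp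
        (Polynomial.mapRingHom (algebraMap ℚ ℂ)) with hE
    have hEr : ∀ r : Polynomial ℤ, pe (xf α N) r = E (r.map (Int.castRingHom ℚ)) := fun r =>
      hcast r _
    have hqx : pe (xf α N) q ≠ 0 := by
      intro h0
      exact hq0 (fin_inj α N hN (h0.trans (map_zero _).symm))
    have h2 : tau (xf α N) (fin_inj α N hN) (algebraMap _ F p / algebraMap _ F q) *
        pe (xf α N) q = pe (xf α N) p := by
      rw [map_div₀, tau_apply, tau_apply, div_mul_cancel₀ _ hqx]
    rw [hEr, hEr, ← hP, ← hQ, hP1, hQ1, map_mul, map_mul] at h2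
    have h3 : E D ≠ 0 := by
      intro h0
      apply hqx
      rw [hEr, ← hQ, hQ1, map_mul, h0, zero_mul]
    have h4 : tau (xf α N) (fin_inj α N hN) (algebraMap _ F p / algebraMap _ F q) * E Q1 =
        E P1 := by
      apply mul_left_cancel₀ h3
      rw [← h2]
      ring
    have h5 := congrArg (fun a : LaurentSeries ℂ => a.coeff 0) h4
    have h6 : E Q1 ∈ O ∧ (E Q1).coeff 0 = Polynomial.aeval α Q1 := aeval_rat α N hN Q1
    have h7 : E P1 ∈ O ∧ (E P1).coeff 0 = Polynomial.aeval α P1 := aeval_rat α N hN P1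
    change (_ * E Q1).coeff 0 = (E P1).coeff 0 at h5
    rw [coeff_zero_mul hO h6.1, h6.2, hα, mul_zero] at h5
    exact h1 (h7.2.symm.trans h5.symm)
  obtain ⟨r, hr⟩ : ∃ r : ℚ, Q1 = Polynomial.C r := ⟨_, Polynomial.eq_C_of_degree_eq_zero hdeg⟩
  have hr0 : r ≠ 0 := by
    rintro rfl
    rw [hr, map_zero, Polynomial.degree_zero] at hdeg
    exact absurd hdeg (by simp)
  have hPQ : P = Q * (Polynomial.C r⁻¹ * P1) := by
    rw [hQ1, hr]
    nth_rewrite 1 [hP1]
    have : Polynomial.C r * Polynomial.C r⁻¹ = 1 := by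
      rw [← Polynomial.C_mul, mul_inv_cancel₀ hr0, Polynomial.C_1]
    linear_combination (-(D * P1)) * this
  obtain ⟨c, hc0, hc⟩ := IsLocalization.integerNormalization_spec (nonZeroDivisors ℤ)
    (Polynomial.C r⁻¹ * P1)
  refine ⟨c, IsLocalization.integerNormalization (nonZeroDivisors ℤ) (Polynomial.C r⁻¹ * P1),
    nonZeroDivisors.ne_zero hc0, ?_⟩
  set R := IsLocalization.integerNormalization (nonZeroDivisors ℤ) (Polynomial.C r⁻¹ * P1)
  have h8 : Polynomial.C c * p = q * R := by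
    apply Polynomial.map_injective (Int.castRingHom ℚ) (RingHom.injective_int _)
    rw [Polynomial.map_mul, Polynomial.map_mul, ← hP, ← hQ, hPQ, Polynomial.map_C]
    have h9 : R.map (Int.castRingHom ℚ) = Polynomial.C (c : ℚ) * (Polynomial.C r⁻¹ * P1) := by
      have h10 : R.map (algebraMap ℤ ℚ) = c • (Polynomial.C r⁻¹ * P1) := hc
      rw [zsmul_eq_mul] at h10
      rw [Polynomial.C_eq_intCast]
      exact h10
    rw [h9]
    simp only [eq_intCast]
    ring
  have hq1 : algebraMap (Polynomial ℤ) F q ≠ 0 := by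
    intro h0
    exact hq0 (IsFractionRing.injective (Polynomial ℤ) F (h0.trans (map_zero _).symm))
  rw [← mul_div_assoc, ← map_mul, h8, map_mul, mul_div_assoc, mul_comm, div_mul_cancel₀ _ hq1]

/-- the numerator of `Bd ^ j * c_j / y` -/
noncomputable def UU (Bd : Polynomial ℤ) (h : MvPolynomial (Fin 2) ℤ) (j : ℕ) :
    MvPolynomial (Fin 2) ℤ := Polynomial.aeval (X 0 : MvPolynomial (Fin 2) ℤ) Bd ^ j * h

/-- the denominator of `Bd ^ j * c_j / y` -/
noncomputable def VV (f : MvPolynomial (Fin 2) ℤ) (j : ℕ) : MvPolynomial (Fin 2) ℤ :=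
  pderiv 1 f ^ (2 * j - 1) * X 1

theorem ev_UU {A : Type} [CommRing A] (Bd : Polynomial ℤ) (h : MvPolynomial (Fin 2) ℤ) (j : ℕ)
    (x z : A) : ev x z (UU Bd h j) = pe x Bd ^ j * ev x z h := by
  rw [UU, map_mul, map_pow, ev_po]

theorem ev_VV {A : Type} [CommRing A] (f : MvPolynomial (Fin 2) ℤ) (j : ℕ) (x z : A) :
    ev x z (VV f j) = ev x z (pderiv 1 f) ^ (2 * j - 1) * z := by
  rw [VV, map_mul, map_pow, ev_X1]

/-- the property of the numerators `h j` -/
def Num (f : MvPolynomial (Fin 2) ℤ) (h : ℕ → MvPolynomial (Fin 2) ℤ) : Prop :=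
  ∀ (K : Type) [Field K] (x y : K), ev x y f = 0 → ev x y (pderiv 1 f) ≠ 0 →
    ∃ η : PowerSeries K, IsTay f x y η ∧ ∀ j, 1 ≤ j → PowerSeries.coeff j η =
      ev x y (h j) / (ev x y (pderiv 1 f)) ^ (2 * j - 1)

theorem exists_num (f : MvPolynomial (Fin 2) ℤ) : ∃ h, Num f h := by
  obtain ⟨h, A, -, hh⟩ := exists_tay f
  refine ⟨h, ?_⟩
  intro K _ x y h0 h1
  rw [← mv_eq] at h0 h1
  obtain ⟨η, hη, hj⟩ := hh K x y h0 h1
  refine ⟨η, hη, fun j hj1 => ?_⟩
  rw [hj j hj1, mv_eq, mv_eq]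

theorem div_eq {K : Type} [Field K] {f : MvPolynomial (Fin 2) ℤ} {Bd : Polynomial ℤ}
    {h : MvPolynomial (Fin 2) ℤ} {j : ℕ} {x z : K} {c : K}
    (hc : c = ev x z h / (ev x z (pderiv 1 f)) ^ (2 * j - 1)) :
    ev x z (UU Bd h j) / ev x z (VV f j) = pe x Bd ^ j * c * z⁻¹ := by
  rw [ev_UU, ev_VV, hc]
  simp only [div_eq_mul_inv, mul_inv]
  ring

/-- the values at the roots over the Laurent series, with the exponents `M` -/
theorem place (f : MvPolynomial (Fin 2) ℤ) (Bd : Polynomial ℤ) (h : ℕ → MvPolynomial (Fin 2) ℤ)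
    (hh : Num f h) (j : ℕ) (hj : 1 ≤ j) (M : ℤ) (hM : M ≠ 0) (α : ℂ) (z : LaurentSeries ℂ)
    (hz : ev (xf α M) z f = 0) (hv : ev (xf α M) z (VV f j) ≠ 0) :
    ∃ D ∈ O, ev (xf α M) z (UU Bd (h j) j) / ev (xf α M) z (VV f j) =
      pe (xf α M) Bd ^ j * D * HahnSeries.single (-(M * j)) 1 := by
  rw [ev_VV] at hv
  have hz0 : z ≠ 0 := right_ne_zero_of_mul hv
  have hf0 : ev (xf α M) z (pderiv 1 f) ≠ 0 := by
    have := left_ne_zero_of_mul hv
    intro h0
    rw [h0, zero_pow (by omega)] at this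
    exact this rfl
  obtain ⟨η, hη, hc⟩ := hh _ _ _ hz hf0
  refine ⟨PowerSeries.coeff j η * z⁻¹ * HahnSeries.single (M * j) 1, ?_, ?_⟩
  · rw [mem_O]
    intro n hn
    exact laurent_tay f M hM α z hz0 η (by rw [mv_eq]; exact hz) (by rw [mv_eq]; exact hf0)
      hη j n hn
  · rw [div_eq (hc j hj)]
    have h1 : (HahnSeries.single (M * j) 1 : LaurentSeries ℂ) * HahnSeries.single (-(M * j)) 1 =
        1 := by
      rw [HahnSeries.single_mul_single, mul_one, add_neg_cancel]
      rfl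
    linear_combination (-(pe (xf α M) Bd ^ j * PowerSeries.coeff j η * z⁻¹)) * h1

theorem pe_eval₂ (α : ℂ) (p : Polynomial ℤ) : pe α p = (p.map (Int.castRingHom ℂ)).eval α := by
  rw [Polynomial.eval_map]
  rfl

/-- the bad values -/
theorem place_bad (f : MvPolynomial (Fin 2) ℤ) (Bd : Polynomial ℤ)
    (h : ℕ → MvPolynomial (Fin 2) ℤ) (hh : Num f h) (j : ℕ) (hj : 1 ≤ j) (N : ℕ) (hN : N ≠ 0)
    (α : ℂ) (hα : pe α Bd = 0) (z : LaurentSeries ℂ) (hz : ev (xf α N) z f = 0)
    (hv : ev (xf α N) z (VV f j) ≠ 0) :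
    ev (xf α N) z (UU Bd (h j) j) / ev (xf α N) z (VV f j) ∈ O := by
  obtain ⟨D, hD, hD2⟩ := place f Bd h hh j hj N (by exact_mod_cast hN) α z hz hv
  rw [hD2]
  rw [pe_eval₂] at hα
  obtain ⟨B1, hB1⟩ := Polynomial.dvd_iff_isRoot.2 hα
  have h1 : pe (xf α N) Bd = HahnSeries.single (N : ℤ) 1 *
      B1.eval₂ (HahnSeries.C : ℂ →+* LaurentSeries ℂ) (xf α N) := by
    rw [pe_map, hB1, Polynomial.eval₂_mul, Polynomial.eval₂_sub, Polynomial.eval₂_X,
      Polynomial.eval₂_C]
    congr 1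
    rw [xf]
    ring
  have h2 : (HahnSeries.single (N : ℤ) 1 : LaurentSeries ℂ) ^ j *
      HahnSeries.single (-((N : ℤ) * j)) 1 = 1 := by
    rw [HahnSeries.single_pow, one_pow, HahnSeries.single_mul_single, mul_one, nsmul_eq_mul,
      mul_comm (j : ℤ) N, add_neg_cancel]
    rfl
  have h3 : pe (xf α N) Bd ^ j * D * HahnSeries.single (-((N : ℤ) * j)) 1 =
      (B1.eval₂ (HahnSeries.C : ℂ →+* LaurentSeries ℂ) (xf α N)) ^ j * D := by
    rw [h1, mul_pow]
    linear_combination ((B1.eval₂ (HahnSeries.C : ℂ →+* LaurentSeries ℂ) (xf α N)) ^ j * D) * h2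
  rw [h3]
  exact mul_mem (pow_mem (fin_mem α N hN B1).1 j) hD

/-- the good values -/
theorem place_good {m : ℕ} (C : Crv m) (Bd G : Polynomial ℤ) (hB : IsBad C Bd G)
    (h : ℕ → MvPolynomial (Fin 2) ℤ) (j : ℕ) (N : ℕ) (hN : N ≠ 0)
    (α : ℂ) (hα : pe α Bd ≠ 0) (z : LaurentSeries ℂ) (hz : ev (xf α N) z C.f = 0) :
    ev (xf α N) z (UU Bd (h j) j) / ev (xf α N) z (VV C.f j) ∈ O := by
  have hG : pe α G ≠ 0 := by
    have := (bad_ne hB α (by rw [po_eq]; exact hα)).1
    rw [po_eq] at this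
    exact this
  obtain ⟨h1, h2⟩ := pe_fin α N hN G
  have hGi : (pe (xf α N) G)⁻¹ ∈ O := inv_mem h1 (by rw [h2]; exact hG)
  have hG0 : pe (xf α N) G ≠ 0 := by
    intro h0
    rw [h0] at h2
    exact hG h2.symm
  -- the leading coefficient
  set lc := (toY C.f).leadingCoeff with hlc
  have hlα : pe α lc ≠ 0 := by
    obtain ⟨e, he⟩ := hB.lead
    intro h0
    apply hG
    rw [he, map_mul, h0, zero_mul]
  obtain ⟨h3, h4⟩ := pe_fin α N hN lc
  have hli : (pe (xf α N) lc)⁻¹ ∈ O := inv_mem h3 (by rw [h4]; exact hlα)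
  have hl0 : pe (xf α N) lc ≠ 0 := by
    intro h0
    rw [h0] at h4
    exact hlα h4.symm
  have hzO : z ∈ O := by
    rw [mem_O]
    set P : Polynomial (LaurentSeries ℂ) :=
      Polynomial.C (pe (xf α N) lc)⁻¹ * (toY C.f).map (pe (xf α N)) with hP
    refine integral_coeff z P ?_ ?_ ?_
    · rw [hP, Polynomial.Monic, Polynomial.leadingCoeff_mul, Polynomial.leadingCoeff_C,
        Polynomial.leadingCoeff_map_of_leadingCoeff_ne_zero _ hl0, inv_mul_cancel₀ hl0]
    · rw [hP, Polynomial.eval_mul]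
      have : ((toY C.f).map (pe (xf α N))).eval z = ev (xf α N) z C.f := by
        have h5 := toY_eval (pe (xf α N)) (RingHom.id _) z C.f
        rw [Polynomial.eval₂_id, RingHom.id_apply, pe_X] at h5
        exact h5
      rw [this, hz, mul_zero]
    · intro k
      rw [← mem_O, hP, Polynomial.coeff_C_mul, Polynomial.coeff_map]
      exact mul_mem hli (pe_fin α N hN _).1
  have hx : xf α N ∈ O := by
    have := (pe_fin α N hN Polynomial.X).1
    rwa [pe_X] at this
  have hzi : z⁻¹ ∈ O := by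
    obtain ⟨U, V, hUV⟩ := hB.con
    have h5 := congrArg (ev (xf α N) z) hUV
    rw [ev_po, map_add, map_mul, map_mul, hz, mul_zero, zero_add, ev_X1] at h5
    have hz0 : z ≠ 0 := by
      rintro rfl
      rw [mul_zero] at h5
      exact hG0 h5
    have h6 : z⁻¹ = ev (xf α N) z V * (pe (xf α N) G)⁻¹ := by
      rw [h5, mul_inv, ← mul_assoc, mul_inv_cancel₀, one_mul]
      intro h0
      rw [h0, zero_mul] at h5
      exact hG0 h5
    rw [h6]
    exact mul_mem (ev_mem O hx hzO V) hGi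
  have hfi : (ev (xf α N) z (pderiv 1 C.f))⁻¹ ∈ O := by
    obtain ⟨U, V, hUV⟩ := hB.der
    have h5 := congrArg (ev (xf α N) z) hUV
    rw [ev_po, map_add, map_mul, map_mul, hz, mul_zero, zero_add] at h5
    have h6 : (ev (xf α N) z (pderiv 1 C.f))⁻¹ = ev (xf α N) z V * (pe (xf α N) G)⁻¹ := by
      rw [h5, mul_inv, ← mul_assoc, mul_inv_cancel₀, one_mul]
      intro h0
      rw [h0, zero_mul] at h5
      exact hG0 h5
    rw [h6]
    exact mul_mem (ev_mem O hx hzO V) hGi
  rw [ev_UU, ev_VV, div_eq_mul_inv, mul_inv, ← inv_pow]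
  exact mul_mem (mul_mem (pow_mem (pe_fin α N hN Bd).1 j) (ev_mem O hx hzO _))
    (mul_mem (pow_mem hfi _) hzi)

end YF

section
variable {m : ℕ}

theorem gx_transcendental : Transcendental ℚ gx := by
  rintro ⟨p, hp, h0⟩
  obtain ⟨c, hc0, hc⟩ := IsLocalization.integerNormalization_spec (nonZeroDivisors ℤ) p
  set R := IsLocalization.integerNormalization (nonZeroDivisors ℤ) p
  have h1 : YF.pe gx R = 0 := by
    have h2 : YF.pe gx R = (R.map (algebraMap ℤ ℚ)).eval₂ (algebraMap ℚ YF.Om) gx := by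
      rw [Polynomial.eval₂_map, YF.pe, Polynomial.coe_eval₂RingHom]
      congr 1
      exact RingHom.ext_int _ _
    have h3 : c • p = Polynomial.C (c : ℚ) * p := by
      rw [zsmul_eq_mul, Polynomial.C_eq_intCast]
    rw [h2, hc, h3, Polynomial.eval₂_mul]
    rw [Polynomial.aeval_def] at h0
    rw [h0, mul_zero]
  have h4 : R = 0 := YF.gx_inj (h1.trans (map_zero _).symm)
  rw [h4, Polynomial.map_zero] at hc
  have h5 : c ≠ 0 := nonZeroDivisors.ne_zero hc0
  rcases smul_eq_zero.1 hc.symm with h6 | h6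
  · exact h5 h6
  · exact hp h6

/-- the coefficients of the minimal polynomial of `Bd ^ j * c_j / y` are polynomials in `x` with
rational coefficients, with bounded degrees -/
theorem regular (C : Crv m) (Bd G : Polynomial ℤ) (hB : IsBad C Bd G)
    (y : AlgebraicClosure (FractionRing (Polynomial ℤ))) (hy : aeval ![gx, y] C.f = 0)
    (η : PowerSeries (AlgebraicClosure (FractionRing (Polynomial ℤ)))) (hη : IsTay C.f gx y η)
    (j : ℕ) (hj : 1 ≤ j) (l : ℕ) :
    ∃ (c : ℤ) (p : Polynomial ℤ), c ≠ 0 ∧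
      algebraMap (Polynomial ℤ) (FractionRing (Polynomial ℤ)) (Polynomial.C c) *
        (minpoly (FractionRing (Polynomial ℤ))
          (Polynomial.aeval gx Bd ^ j * PowerSeries.coeff j η * y⁻¹)).coeff l =
        algebraMap (Polynomial ℤ) (FractionRing (Polynomial ℤ)) p ∧
      p.natDegree ≤ (Bd.natDegree - 1) * j * ((minpoly (FractionRing (Polynomial ℤ))
          (Polynomial.aeval gx Bd ^ j * PowerSeries.coeff j η * y⁻¹)).natDegree - l) := by
  classical
  obtain ⟨h, hh⟩ := YF.exists_num C.f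
  have hBd0 : Bd ≠ 0 := by
    rintro rfl
    have := hB.deg
    rw [Polynomial.natDegree_zero] at this
    omega
  have hBx : YF.pe gx Bd ≠ 0 := by
    intro h0
    exact hBd0 (YF.gx_inj (h0.trans (map_zero _).symm))
  rw [YF.mv_eq] at hy
  obtain ⟨-, hgx0, hbad⟩ := bad_ne hB gx (by rw [YF.po_eq]; exact hBx)
  obtain ⟨hy0, hd⟩ := hbad y (by rw [YF.mv_eq]; exact hy)
  have hd' := hd
  rw [YF.mv_eq] at hd'
  obtain ⟨η', hη', hc⟩ := hh _ _ _ hy hd'
  have hηη : η = η' := tay_unique C.f gx y η η' hη hη' hd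
  rw [← hηη] at hc
  have hV : YF.ev gx y (YF.VV C.f j) ≠ 0 := by
    rw [YF.ev_VV]
    exact mul_ne_zero (pow_ne_zero _ hd') hy0
  have hb : Polynomial.aeval gx Bd ^ j * PowerSeries.coeff j η * y⁻¹ =
      YF.ev gx y (YF.UU Bd (h j) j) / YF.ev gx y (YF.VV C.f j) := by
    rw [YF.div_eq (hc j hj), YF.po_eq]
  have hf : toY C.f ≠ 0 := by
    intro h0
    have h1 := natDegree_toY C.f
    rw [h0, Polynomial.natDegree_zero] at h1
    have h2 := C.degY
    omega
  set b := Polynomial.aeval gx Bd ^ j * PowerSeries.coeff j η * y⁻¹ with hbdef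
  -- finite poles
  obtain ⟨c, p, hc0, hp⟩ := YF.no_poles ((minpoly (FractionRing (Polynomial ℤ)) b).coeff l) (by
    intro α
    obtain ⟨N, hN, hs⟩ := YF.exists_split_fin C.f α
    refine ⟨N, hN, ?_⟩
    rw [hb]
    refine YF.gen _ _ YF.O C.f hf hs y hy _ _ hV ?_ l
    intro z hz hv
    by_cases hα : YF.pe α Bd = 0
    · exact YF.place_bad C.f Bd h hh j hj N hN α hα z hz hv
    · exact YF.place_good C Bd G hB h j N hN α hα z hz)
  refine ⟨c, p, hc0, hp, ?_⟩
  -- the degree
  obtain ⟨N, hN, hs⟩ := YF.exists_split_inf C.f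
  have hx : YF.xf 0 (-(N : ℤ)) = HahnSeries.single (-(N : ℤ)) 1 := by
    rw [YF.xf, map_zero, zero_add]
  set x : LaurentSeries ℂ := HahnSeries.single (-(N : ℤ)) 1 with hxdef
  have hxi : Function.Injective (YF.pe x) := YF.inf_inj N hN
  set E := (Bd.natDegree - 1) * j with hE
  have hX0 : algebraMap (Polynomial ℤ) YF.F Polynomial.X ≠ 0 := by
    intro h0
    exact Polynomial.X_ne_zero (IsFractionRing.injective (Polynomial ℤ) YF.F
      (h0.trans (map_zero _).symm))
  set c0 : YF.F := (algebraMap (Polynomial ℤ) YF.F Polynomial.X ^ E)⁻¹ with hc0def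
  have hc00 : c0 ≠ 0 := inv_ne_zero (pow_ne_zero _ hX0)
  have hcgx : algebraMap YF.F YF.Om c0 = (gx ^ E)⁻¹ := by
    rw [hc0def, map_inv₀, map_pow]
    rfl
  have hcb : algebraMap YF.F YF.Om c0 * b =
      YF.ev gx y (YF.UU Bd (h j) j) / YF.ev gx y (YF.VV C.f j * X 0 ^ E) := by
    rw [hcgx, hb, map_mul, map_pow, YF.ev_X0]
    simp only [div_eq_mul_inv, mul_inv]
    ring
  have hV' : YF.ev gx y (YF.VV C.f j * X 0 ^ E) ≠ 0 := by
    rw [map_mul, map_pow, YF.ev_X0]
    exact mul_ne_zero hV (pow_ne_zero _ hgx0)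
  have hmem := YF.gen x hxi YF.O C.f hf hs y hy (YF.UU Bd (h j) j) (YF.VV C.f j * X 0 ^ E) hV' (by
    intro z hz hv
    rw [map_mul, map_pow, YF.ev_X0] at hv ⊢
    have hv1 := left_ne_zero_of_mul hv
    rw [← hx] at hz hv1
    obtain ⟨D, hD, hD2⟩ := YF.place C.f Bd h hh j hj (-(N : ℤ)) (by
      rw [neg_ne_zero]; exact_mod_cast hN) 0 z hz hv1
    rw [hx] at hD2
    rw [div_mul_eq_div_div, hD2]
    have h1 := YF.inf_mem N Bd Bd.natDegree le_rfl
    have hxE : x ^ E * HahnSeries.single ((N : ℤ) * E) 1 = 1 := by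
      rw [hxdef, HahnSeries.single_pow, one_pow, HahnSeries.single_mul_single, mul_one]
      have : E • (-(N : ℤ)) + (N : ℤ) * E = 0 := by rw [nsmul_eq_mul]; ring
      rw [this]
      rfl
    have hxE' : (x ^ E)⁻¹ = HahnSeries.single ((N : ℤ) * E) 1 := inv_eq_of_mul_eq_one_right hxE
    have h2 : (HahnSeries.single ((N : ℤ) * Bd.natDegree) 1 : LaurentSeries ℂ) ^ j =
        HahnSeries.single (-(-(N : ℤ) * j)) 1 * HahnSeries.single ((N : ℤ) * E) 1 := by
      rw [HahnSeries.single_pow, one_pow, HahnSeries.single_mul_single, mul_one]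
      congr 1
      rw [hE, nsmul_eq_mul]
      have h3 : ((Bd.natDegree - 1 : ℕ) : ℤ) = (Bd.natDegree : ℤ) - 1 := by
        have := hB.deg
        omega
      rw [Nat.cast_mul, h3]
      ring_nf
    have h4 : YF.pe x Bd ^ j * D * HahnSeries.single (-(-(N : ℤ) * j)) 1 / x ^ E =
        (YF.pe x Bd * HahnSeries.single ((N : ℤ) * Bd.natDegree) 1) ^ j * D := by
      rw [div_eq_mul_inv, hxE', mul_pow, h2]
      ring
    rw [h4]
    exact mul_mem (pow_mem h1 j) hD) l
  rw [← hcb, (minpoly_mul c0 hc00 b).2 l, map_mul, map_pow] at hmem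
  set deg := (minpoly YF.F b).natDegree - l with hdeg
  apply YF.inf_deg N hN p (E * deg)
  have h5 : YF.pe x p = YF.pe x (Polynomial.C c) *
      YF.tau x hxi ((minpoly YF.F b).coeff l) := by
    rw [← YF.tau_apply x hxi, ← YF.tau_apply x hxi, ← map_mul]
    exact congrArg _ hp.symm
  have h6 : YF.tau x hxi c0 ^ deg = HahnSeries.single ((N : ℤ) * (E * deg : ℕ)) 1 := by
    have h7 : YF.tau x hxi c0 = HahnSeries.single ((N : ℤ) * E) 1 := by
      rw [hc0def, map_inv₀, map_pow, YF.tau_apply, YF.pe_X]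
      apply inv_eq_of_mul_eq_one_right
      rw [hxdef, HahnSeries.single_pow, one_pow, HahnSeries.single_mul_single, mul_one]
      have : E • (-(N : ℤ)) + (N : ℤ) * E = 0 := by rw [nsmul_eq_mul]; ring
      rw [this]
      rfl
    rw [h7, HahnSeries.single_pow, one_pow]
    congr 1
    rw [nsmul_eq_mul]
    push_cast
    ring_nf
  rw [h6] at hmem
  have h8 : YF.pe x (Polynomial.C c) ∈ YF.O := by
    rw [YF.pe, Polynomial.coe_eval₂RingHom, Polynomial.eval₂_C]
    exact intCast_mem _ c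
  change YF.pe x p * _ ∈ YF.O
  rw [h5]
  have h9 : YF.pe x (Polynomial.C c) * YF.tau x hxi ((minpoly YF.F b).coeff l) *
      HahnSeries.single ((N : ℤ) * (E * deg : ℕ)) 1 = YF.pe x (Polynomial.C c) *
      (HahnSeries.single ((N : ℤ) * (E * deg : ℕ)) 1 *
        YF.tau x hxi ((minpoly YF.F b).coeff l)) := by ring
  rw [h9]
  exact mul_mem h8 hmem

end

end Pool.Agent.PC
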