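import Pool.Agent.Lib.MP_c95b3b_ag_PC.Defs
import Pool.Agent.Lib.MP_c95b3b_ag_PC.YA
import Pool.Agent.Lib.MP_c95b3b_ag_PC.YB
import Pool.Agent.Lib.MP_c95b3b_ag_PC.YE
import Pool.Agent.Lib.MP_c95b3b_ag_PC.YF

/-! Project PC (MP_c95b3b_ag), module YG: integrality. -/

namespace Pool.Agent.PC

open Pool.Agent.L3 Pool.Agent.AL Module MvPolynomial

namespace YG

open YF

/-- the numerators with their degrees -/
def Num2 (f : MvPolynomial (Fin 2) ℤ) (h : ℕ → MvPolynomial (Fin 2) ℤ) (A : ℕ) : Prop :=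
  (∀ j, (h j).degreeOf 1 ≤ A * j) ∧
  ∀ (K : Type) [Field K] (x y : K), ev x y f = 0 → ev x y (pderiv 1 f) ≠ 0 →
    ∃ η : PowerSeries K, IsTay f x y η ∧ ∀ j, 1 ≤ j → PowerSeries.coeff j η =
      ev x y (h j) / (ev x y (pderiv 1 f)) ^ (2 * j - 1)

theorem exists_num2 (f : MvPolynomial (Fin 2) ℤ) : ∃ h A, Num2 f h A := by
  obtain ⟨h, A, hA, hh⟩ := exists_tay f
  refine ⟨h, A, hA, ?_⟩
  intro K _ x y h0 h1
  rw [← mv_eq] at h0 h1
  obtain ⟨η, hη, hj⟩ := hh K x y h0 h1
  refine ⟨η, hη, fun j hj1 => ?_⟩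
  rw [hj j hj1, mv_eq, mv_eq]

/-- `ev` through the polynomial in the second variable -/
theorem ev_eval₂ {A : Type} [CommRing A] (x y : A) (W : MvPolynomial (Fin 2) ℤ) :
    ev x y W = (toY W).eval₂ (pe x) y := by
  have h := toY_eval (pe x) (RingHom.id A) y W
  rw [Polynomial.eval₂_map, RingHom.id_comp, RingHom.id_apply, pe_X] at h
  exact h.symm

/-- the leading coefficient clears the denominators -/
theorem integral_ev (lc : Polynomial ℤ) (y : Om) (hl : IsIntegral (Polynomial ℤ) (pe gx lc * y))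
    (W : MvPolynomial (Fin 2) ℤ) (N : ℕ) (hN : W.degreeOf 1 ≤ N) :
    IsIntegral (Polynomial ℤ) (pe gx lc ^ N * ev gx y W) := by
  rw [ev_eval₂, Polynomial.eval₂_eq_sum_range, Finset.mul_sum]
  refine IsIntegral.sum _ (fun i hi => ?_)
  rw [Finset.mem_range] at hi
  have h1 : i ≤ N := by
    rw [natDegree_toY] at hi
    omega
  have h2 : pe gx lc ^ N * (pe gx ((toY W).coeff i) * y ^ i) =
      pe gx (lc ^ (N - i) * (toY W).coeff i) * (pe gx lc * y) ^ i := by
    rw [map_mul, map_pow, mul_pow]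
    have h3 : pe gx lc ^ N = pe gx lc ^ (N - i) * pe gx lc ^ i := by
      rw [← pow_add, Nat.sub_add_cancel h1]
    rw [h3]
    ring
  rw [h2]
  refine IsIntegral.mul ?_ (hl.pow i)
  rw [pe_gx]
  exact isIntegral_algebraMap

/-- the leading coefficient times the root is integral -/
theorem integral_root (f : MvPolynomial (Fin 2) ℤ) (y : Om) (hy : ev gx y f = 0) :
    IsIntegral (Polynomial ℤ) (pe gx (toY f).leadingCoeff * y) := by
  have h1 : Polynomial.aeval y (toY f) = 0 := by
    rw [Polynomial.aeval_def, ← pe_gx, ← ev_eval₂, hy]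
  have h2 := isIntegral_leadingCoeff_smul (toY f) y h1
  rw [Algebra.smul_def, ← pe_gx] at h2
  exact h2

/-- the division by the constant (Gauss) -/
theorem gauss (c : ℤ) (hc : c ≠ 0) (G q p : Polynomial ℤ) (n : ℕ)
    (h : Polynomial.C c * q = G ^ n * p) :
    ∃ p' : Polynomial ℤ, Polynomial.C (G.content ^ n) * p = Polynomial.C c * p' ∧
      p'.natDegree ≤ p.natDegree := by
  by_cases hG : G = 0
  · subst hG
    by_cases hn : n = 0
    · subst hn
      rw [pow_zero, one_mul] at h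
      refine ⟨q, ?_, ?_⟩
      · rw [pow_zero, Polynomial.C_1, one_mul, h]
      · rw [← h, Polynomial.natDegree_C_mul hc]
    · refine ⟨0, ?_, ?_⟩
      · rw [Polynomial.content_zero, zero_pow hn, Polynomial.C_0, zero_mul, mul_zero]
      · rw [Polynomial.natDegree_zero]
        exact Nat.zero_le _
  have h1 : Polynomial.C c * q = G.primPart ^ n * (Polynomial.C (G.content ^ n) * p) := by
    rw [h]
    conv_lhs => rw [G.eq_C_content_mul_primPart]
    rw [mul_pow, Polynomial.C_pow]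
    ring
  have h2 : c ∣ (Polynomial.C (G.content ^ n) * p).content := by
    have h3 : (Polynomial.C c * q).content = (Polynomial.C (G.content ^ n) * p).content := by
      have hprim : (G.primPart ^ n).IsPrimitive := by
        clear h h1
        induction n with
        | zero =>
          rw [pow_zero]
          exact Polynomial.isPrimitive_one
        | succ n ih =>
          rw [pow_succ]
          exact ih.mul (Polynomial.isPrimitive_primPart G)
      rw [h1, Polynomial.content_mul, hprim.content_eq_one, one_mul]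
    rw [← h3, Polynomial.content_C_mul]
    exact Dvd.dvd.mul_right (dvd_normalize_iff.mpr dvd_rfl) _
  rw [Polynomial.dvd_content_iff_C_dvd] at h2
  obtain ⟨p', hp'⟩ := h2
  refine ⟨p', hp', ?_⟩
  have h4 : (Polynomial.C c * p').natDegree = p'.natDegree := Polynomial.natDegree_C_mul hc
  rw [← h4, ← hp']
  exact Polynomial.natDegree_C_mul_le _ _

/-- the degree -/
theorem degree_le (f : MvPolynomial (Fin 2) ℤ) (hf : toY f ≠ 0) (y : Om) (hy : ev gx y f = 0)
    (U V : MvPolynomial (Fin 2) ℤ) (b : Om) (hb : b = ev gx y U / ev gx y V) :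
    (minpoly F b).natDegree ≤ f.degreeOf 1 := by
  have hint : ∀ z : Om, IsIntegral F z := fun z => Algebra.IsIntegral.isIntegral z
  have hmem : ∀ W : MvPolynomial (Fin 2) ℤ, ev gx y W ∈ IntermediateField.adjoin F {y} := by
    intro W
    rw [← toF_aeval]
    exact IntermediateField.algebra_adjoin_le_adjoin F {y}
      (Polynomial.aeval_mem_adjoin_singleton F y)
  have hbm : b ∈ IntermediateField.adjoin F {y} := by
    rw [hb]
    exact div_mem (hmem U) (hmem V)
  have : FiniteDimensional F (IntermediateField.adjoin F {y}) :=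
    IntermediateField.adjoin.finiteDimensional (hint y)
  have h1 : (minpoly F (⟨b, hbm⟩ : IntermediateField.adjoin F {y})).natDegree ≤
      Module.finrank F (IntermediateField.adjoin F {y}) := minpoly.natDegree_le _
  have h2 : minpoly F (⟨b, hbm⟩ : IntermediateField.adjoin F {y}) = minpoly F b :=
    IntermediateField.minpoly_eq _
  rw [h2, IntermediateField.adjoin.finrank (hint y)] at h1
  refine h1.trans ?_
  have h3 : toF f ≠ 0 := by
    rw [toF, Ne, Polynomial.map_eq_zero_iff (IsFractionRing.injective (Polynomial ℤ) F)]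
    exact hf
  have h4 : Polynomial.aeval y (toF f) = 0 := by
    rw [toF_aeval, hy]
  have h5 := Polynomial.natDegree_le_of_dvd (minpoly.dvd F y h4) h3
  refine h5.trans ?_
  rw [toF]
  refine Polynomial.natDegree_map_le.trans ?_
  rw [natDegree_toY]

end YG

section
variable {m : ℕ}

/-- the denominators are powers of a constant -/
theorem integral_cert (C : Crv m) (Bd G : Polynomial ℤ) (hB : IsBad C Bd G) :
    ∃ (g : ℤ) (A : ℕ), g ≠ 0 ∧ ∀ (y : AlgebraicClosure (FractionRing (Polynomial ℤ)))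
      (η : PowerSeries (AlgebraicClosure (FractionRing (Polynomial ℤ)))),
      aeval ![gx, y] C.f = 0 → IsTay C.f gx y η → ∀ j, 1 ≤ j →
      ∃ μ : Polynomial (Polynomial ℤ), μ.Monic ∧
        μ.map (algebraMap (Polynomial ℤ) (FractionRing (Polynomial ℤ))) =
          minpoly (FractionRing (Polynomial ℤ))
            ((g : AlgebraicClosure (FractionRing (Polynomial ℤ))) ^ (A * j) *
              Polynomial.aeval gx Bd ^ j * PowerSeries.coeff j η * y⁻¹) ∧
        1 ≤ μ.natDegree ∧ μ.natDegree ≤ C.f.degreeOf 1 ∧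
        ∀ l, (μ.coeff l).natDegree ≤ (Bd.natDegree - 1) * j * (μ.natDegree - l) := by
  classical
  obtain ⟨h, A0, hA, hh'⟩ := YG.exists_num2 C.f
  obtain ⟨U, V, hUV⟩ := hB.der
  obtain ⟨U', V', hUV'⟩ := hB.con
  obtain ⟨r, hr⟩ := hB.lead
  set A1 : ℕ := 2 * V.degreeOf 1 + V'.degreeOf 1 + A0 with hA1
  refine ⟨G.content, A1 + 2, ?_, ?_⟩
  · rw [Ne, Polynomial.content_eq_zero_iff]
    exact hB.ne
  intro y η hy hη j hj
  have hreg := regular C Bd G hB y hy η hη j hj
  have hBd0 : Bd ≠ 0 := by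
    rintro rfl
    have := hB.deg
    rw [Polynomial.natDegree_zero] at this
    omega
  have hBx : YF.pe gx Bd ≠ 0 := by
    intro h0
    exact hBd0 (YF.gx_inj (h0.trans (map_zero _).symm))
  rw [YF.mv_eq] at hy
  obtain ⟨-, hgx0, hbad⟩ := bad_ne hB gx (by rw [YF.po_eq]; exact hBx)
  obtain ⟨hy0, hd⟩ := hbad y (by rw [YF.mv_eq]; exact hy)
  have hd' := hd
  rw [YF.mv_eq] at hd'
  obtain ⟨η', hη', hc⟩ := hh' _ _ _ hy hd'
  have hηη : η = η' := tay_unique C.f gx y η η' hη hη' hd
  rw [← hηη] at hc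
  have hb : Polynomial.aeval gx Bd ^ j * PowerSeries.coeff j η * y⁻¹ =
      YF.ev gx y (YF.UU Bd (h j) j) / YF.ev gx y (YF.VV C.f j) := by
    rw [YF.div_eq (hc j hj), YF.po_eq]
  have hf : toY C.f ≠ 0 := by
    intro h0
    have h1 := natDegree_toY C.f
    rw [h0, Polynomial.natDegree_zero] at h1
    have h2 := C.degY
    omega
  set b := Polynomial.aeval gx Bd ^ j * PowerSeries.coeff j η * y⁻¹ with hbdef
  set D := (minpoly (FractionRing (Polynomial ℤ)) b).natDegree with hD
  have hint : ∀ z : YF.Om, IsIntegral YF.F z := fun z => Algebra.IsIntegral.isIntegral z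
  -- the values of `G`
  have hG1 : YF.pe gx G = YF.ev gx y V * YF.ev gx y (pderiv 1 C.f) := by
    have h1 := congrArg (YF.ev gx y) hUV
    rw [YF.ev_po, map_add, map_mul, map_mul, hy, mul_zero, zero_add] at h1
    exact h1
  have hG2 : YF.pe gx G = YF.ev gx y V' * y := by
    have h1 := congrArg (YF.ev gx y) hUV'
    rw [YF.ev_po, map_add, map_mul, map_mul, hy, mul_zero, zero_add, YF.ev_X1] at h1
    exact h1
  set W : MvPolynomial (Fin 2) ℤ := V ^ (2 * j - 1) * V' * YF.UU Bd (h j) j with hW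
  have hWb : YF.pe gx G ^ (2 * j) * b = YF.ev gx y W := by
    have h1 : YF.pe gx G ^ (2 * j) = YF.pe gx G ^ (2 * j - 1) * YF.pe gx G := by
      rw [← pow_succ]
      congr 1
      omega
    rw [h1, hb, YF.ev_VV, hW, map_mul, map_mul, map_pow]
    have h2 : YF.pe gx G ^ (2 * j - 1) = YF.ev gx y V ^ (2 * j - 1) *
        YF.ev gx y (pderiv 1 C.f) ^ (2 * j - 1) := by
      rw [hG1, mul_pow]
    rw [h2, hG2]
    have h3 : YF.ev gx y (pderiv 1 C.f) ^ (2 * j - 1) ≠ 0 := pow_ne_zero _ hd'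
    field_simp
  have hWdeg : W.degreeOf 1 ≤ A1 * j := by
    have h0 : (Polynomial.aeval (X 0 : MvPolynomial (Fin 2) ℤ) Bd).degreeOf 1 = 0 := by
      rw [← natDegree_toY, YB.toY_aeval, Polynomial.natDegree_C]
    have h1 : (Polynomial.aeval (X 0 : MvPolynomial (Fin 2) ℤ) Bd ^ j).degreeOf 1 ≤ 0 := by
      refine (degreeOf_pow_le _ _ _).trans ?_
      rw [h0, mul_zero]
    have h2 : (YF.UU Bd (h j) j).degreeOf 1 ≤ A0 * j := by
      rw [YF.UU]
      refine (degreeOf_mul_le _ _ _).trans ?_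
      have := hA j
      omega
    have h3 : (V ^ (2 * j - 1)).degreeOf 1 ≤ (2 * j - 1) * V.degreeOf 1 := degreeOf_pow_le _ _ _
    have h4 := degreeOf_mul_le 1 (V ^ (2 * j - 1)) V'
    have h5 := degreeOf_mul_le 1 (V ^ (2 * j - 1) * V') (YF.UU Bd (h j) j)
    rw [← hW] at h5
    have h6 : (2 * j - 1) * V.degreeOf 1 ≤ 2 * V.degreeOf 1 * j := by
      calc (2 * j - 1) * V.degreeOf 1 ≤ (2 * j) * V.degreeOf 1 :=
            Nat.mul_le_mul_right _ (Nat.sub_le _ _)
        _ = 2 * V.degreeOf 1 * j := by ring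
    have h7 : V'.degreeOf 1 ≤ V'.degreeOf 1 * j := Nat.le_mul_of_pos_right _ hj
    have h8 : A1 * j = 2 * V.degreeOf 1 * j + V'.degreeOf 1 * j + A0 * j := by
      rw [hA1]
      ring
    omega
  -- integrality of `G ^ (K j) b`
  have hGint : IsIntegral (Polynomial ℤ) (YF.pe gx G ^ ((A1 + 2) * j) * b) := by
    have h1 : YF.pe gx G ^ ((A1 + 2) * j) * b =
        YF.pe gx (r ^ (A1 * j)) * (YF.pe gx (toY C.f).leadingCoeff ^ (A1 * j) * YF.ev gx y W) := by
      have h2 : YF.pe gx G ^ ((A1 + 2) * j) = YF.pe gx G ^ (A1 * j) * YF.pe gx G ^ (2 * j) := by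
        rw [← pow_add]
        congr 1
        ring
      have h3 : YF.pe gx G ^ (A1 * j) = YF.pe gx (r ^ (A1 * j)) *
          YF.pe gx (toY C.f).leadingCoeff ^ (A1 * j) := by
        rw [hr, map_mul, mul_pow, map_pow, mul_comm]
      rw [h2, mul_assoc, hWb, h3, mul_assoc]
    rw [h1]
    refine IsIntegral.mul ?_ (YG.integral_ev _ y (YG.integral_root C.f y hy) W _ hWdeg)
    rw [YF.pe_gx]
    exact isIntegral_algebraMap
  have hGal : YF.pe gx G ^ ((A1 + 2) * j) * b =
      algebraMap YF.F YF.Om (algebraMap (Polynomial ℤ) YF.F (G ^ ((A1 + 2) * j))) * b := by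
    rw [YF.pe_gx, YF.algMap_eq, map_pow, map_pow]
    rfl
  have hinj := IsFractionRing.injective (Polynomial ℤ) YF.F
  have hGne : algebraMap (Polynomial ℤ) YF.F (G ^ ((A1 + 2) * j)) ≠ 0 := by
    intro h0
    exact pow_ne_zero _ hB.ne (hinj (h0.trans (map_zero _).symm))
  obtain ⟨hD1, hcoef1⟩ := minpoly_mul _ hGne b
  have hmin := minpoly.isIntegrallyClosed_eq_field_fractions' YF.F hGint
  rw [hGal] at hmin
  have hq : ∀ l, ∃ q : Polynomial ℤ, algebraMap (Polynomial ℤ) YF.F q =
      algebraMap (Polynomial ℤ) YF.F (G ^ ((A1 + 2) * j)) ^ (D - l) *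
        (minpoly YF.F b).coeff l := by
    intro l
    rw [hD, ← hcoef1 l, hmin, Polynomial.coeff_map]
    exact ⟨_, rfl⟩
  -- the polynomial coefficients
  have hgne : algebraMap (Polynomial ℤ) YF.F (Polynomial.C G.content ^ ((A1 + 2) * j)) ≠ 0 := by
    intro h0
    have h1 := hinj (h0.trans (map_zero _).symm)
    refine pow_ne_zero _ ?_ h1
    rw [Ne, Polynomial.C_eq_zero, Polynomial.content_eq_zero_iff]
    exact hB.ne
  obtain ⟨hD2, hcoef2⟩ := minpoly_mul _ hgne b
  have hp : ∀ l, ∃ p' : Polynomial ℤ, algebraMap (Polynomial ℤ) YF.F p' =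
      (minpoly YF.F (algebraMap YF.F YF.Om (algebraMap (Polynomial ℤ) YF.F
        (Polynomial.C G.content ^ ((A1 + 2) * j))) * b)).coeff l ∧
      p'.natDegree ≤ (Bd.natDegree - 1) * j * (D - l) := by
    intro l
    obtain ⟨c, p, hc0, hcp, hdeg⟩ := hreg l
    obtain ⟨q, hql⟩ := hq l
    have hcq : Polynomial.C c * q = G ^ ((A1 + 2) * j * (D - l)) * p := by
      apply hinj
      have hpw : algebraMap (Polynomial ℤ) YF.F (G ^ ((A1 + 2) * j * (D - l))) =
          algebraMap (Polynomial ℤ) YF.F (G ^ ((A1 + 2) * j)) ^ (D - l) := by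
        rw [← map_pow, ← pow_mul]
      rw [map_mul, map_mul, hql, ← hcp, hpw]
      exact mul_left_comm _ _ _
    obtain ⟨p', hp', hpd⟩ := YG.gauss c hc0 G q p _ hcq
    refine ⟨p', ?_, hpd.trans hdeg⟩
    have hCc : algebraMap (Polynomial ℤ) YF.F (Polynomial.C c) ≠ 0 := by
      intro h0
      have h1 := hinj (h0.trans (map_zero _).symm)
      rw [Polynomial.C_eq_zero] at h1
      exact hc0 h1
    apply mul_left_cancel₀ hCc
    rw [← map_mul, ← hp', map_mul, ← hcp, hcoef2 l, ← map_pow, ← pow_mul, ← hD,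
      Polynomial.C_pow]
    ring
  -- the polynomial
  have hel : algebraMap YF.F YF.Om (algebraMap (Polynomial ℤ) YF.F
      (Polynomial.C G.content ^ ((A1 + 2) * j))) * b =
      (G.content : YF.Om) ^ ((A1 + 2) * j) * Polynomial.aeval gx Bd ^ j *
        PowerSeries.coeff j η * y⁻¹ := by
    rw [hbdef, map_pow, map_pow]
    have h1 : algebraMap YF.F YF.Om (algebraMap (Polynomial ℤ) YF.F
        (Polynomial.C G.content)) = (G.content : YF.Om) := by
      rw [← Polynomial.algebraMap_eq, eq_intCast, map_intCast, map_intCast]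
    rw [h1]
    ring
  have hlift : minpoly YF.F (algebraMap YF.F YF.Om (algebraMap (Polynomial ℤ) YF.F
      (Polynomial.C G.content ^ ((A1 + 2) * j))) * b) ∈
      Polynomial.lifts (algebraMap (Polynomial ℤ) YF.F) := by
    rw [Polynomial.lifts_iff_coeff_lifts]
    intro l
    obtain ⟨p', hp', -⟩ := hp l
    exact ⟨p', hp'⟩
  obtain ⟨μ, hμ, hμd, hμm⟩ := Polynomial.lifts_and_natDegree_eq_and_monic hlift
    (minpoly.monic (hint _))
  refine ⟨μ, hμm, ?_, ?_, ?_, ?_⟩
  · rw [hμ, hel]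
  · rw [hμd, hD2]
    exact minpoly.natDegree_pos (hint b)
  · rw [hμd, hD2]
    exact YG.degree_le C.f hf y hy _ _ b hb
  · intro l
    obtain ⟨p', hp', hpd⟩ := hp l
    have h1 : μ.coeff l = p' := by
      apply hinj
      rw [hp', ← hμ, Polynomial.coeff_map]
    rw [h1, hμd, hD2, ← hD]
    exact hpd

end

end Pool.Agent.PC
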