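import Pool.Agent.Lib.MP_c95b3b_ag_PC.Defs
import Pool.Agent.Lib.MP_c95b3b_ag_PC.YA
import Pool.Agent.Lib.MP_c95b3b_ag_PC.YB
import Pool.Agent.Lib.MP_c95b3b_ag_AL.BB
import Pool.Agent.Lib.MP_c95b3b_ag_AL.BG

/-! Project PC (MP_c95b3b_ag), module YC: bounds on a circle. -/

namespace Pool.Agent.PC

open Pool.Agent.L3 Pool.Agent.AL Module MvPolynomial

namespace YC

/-! ## Killing the second variable of a power series -/

/-- the power series in the first variable -/
noncomputable def res (K : Type) [Field K] : MvPowerSeries (Fin 2) K →+* PowerSeries K where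
  toFun φ := PowerSeries.mk fun j => MvPowerSeries.coeff (Finsupp.single 0 j) φ
  map_one' := by
    classical
    ext j
    rw [PowerSeries.coeff_mk, MvPowerSeries.coeff_one, PowerSeries.coeff_one]
    simp only [Finsupp.single_eq_zero]
  map_mul' := by
    classical
    intro φ ψ
    ext j
    rw [PowerSeries.coeff_mk, MvPowerSeries.coeff_mul, PowerSeries.coeff_mul,
      Finsupp.antidiagonal_single, Finset.sum_map]
    refine Finset.sum_congr rfl fun p _ => ?_
    rw [PowerSeries.coeff_mk, PowerSeries.coeff_mk]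
    rfl
  map_zero' := by
    ext j
    rw [PowerSeries.coeff_mk, map_zero, map_zero]
  map_add' := by
    intro φ ψ
    ext j
    rw [PowerSeries.coeff_mk, map_add, map_add, PowerSeries.coeff_mk, PowerSeries.coeff_mk]

theorem coeff_res {K : Type} [Field K] (φ : MvPowerSeries (Fin 2) K) (j : ℕ) :
    PowerSeries.coeff j (res K φ) = MvPowerSeries.coeff (Finsupp.single 0 j) φ :=
  PowerSeries.coeff_mk j fun j => MvPowerSeries.coeff (Finsupp.single 0 j) φ

theorem res_C {K : Type} [Field K] (a : K) : res K (MvPowerSeries.C a) = PowerSeries.C a := by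
  classical
  ext j
  rw [coeff_res, MvPowerSeries.coeff_C, PowerSeries.coeff_C]
  simp only [Finsupp.single_eq_zero]

theorem res_X {K : Type} [Field K] : res K (MvPowerSeries.X 0) = PowerSeries.X := by
  classical
  ext j
  rw [coeff_res, MvPowerSeries.coeff_X, PowerSeries.coeff_X]
  by_cases hj : j = 1
  · rw [if_pos hj, if_pos (by rw [hj])]
  · rw [if_neg hj, if_neg]
    intro h
    apply hj
    have := congrArg (fun g : Fin 2 →₀ ℕ => g 0) h
    simpa using this

theorem map_aeval' {A B : Type} [CommRing A] [CommRing B] [i1 : Algebra ℤ A] [i2 : Algebra ℤ B]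
    (φ : A →+* B) (Z : Fin 2 → A) (f : MvPolynomial (Fin 2) ℤ) :
    φ (aeval Z f) = aeval (fun i => φ (Z i)) f := by
  induction f using MvPolynomial.induction_on with
  | C a => rw [aeval_C, aeval_C, eq_intCast, eq_intCast, map_intCast]
  | add p q hp hq => rw [map_add, map_add, map_add, hp, hq]
  | mul_X p i hp => rw [map_mul, map_mul, map_mul, hp, aeval_X, aeval_X]

/-! ## The norm of the complex numbers -/

/-- the absolute value of the complex numbers -/
noncomputable def nu : Nm ℂ 1 where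
  N := fun x => ENNReal.ofReal ‖x‖
  zero := by simp
  one := by simp
  neg := fun a => by rw [norm_neg]
  add := fun a b => by
    rw [← ENNReal.ofReal_add (norm_nonneg _) (norm_nonneg _)]
    exact ENNReal.ofReal_le_ofReal (norm_add_le a b)
  mul := fun a b => by
    rw [← ENNReal.ofReal_mul (norm_nonneg _), norm_mul]
  ultra := fun h => absurd h one_ne_zero

/-! ## Compactness -/

theorem cont (g : MvPolynomial (Fin 2) ℤ) :
    Continuous fun p : ℂ × ℂ => (aeval ![p.1, p.2] g : ℂ) := by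
  induction g using MvPolynomial.induction_on with
  | C a => simp only [aeval_C]; exact continuous_const
  | add p q hp hq => simp only [map_add]; exact hp.add hq
  | mul_X p i hp =>
    simp only [map_mul, aeval_X]
    refine hp.mul ?_
    fin_cases i
    · exact continuous_fst
    · exact continuous_snd

theorem lower {X : Type} [TopologicalSpace X] {Z : Set X} (hZ : IsCompact Z) (φ : X → ℂ)
    (hφ : Continuous φ) (hne : ∀ z ∈ Z, φ z ≠ 0) : ∃ c : ℝ, 0 < c ∧ ∀ z ∈ Z, c ≤ ‖φ z‖ := by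
  rcases Z.eq_empty_or_nonempty with h | h
  · exact ⟨1, one_pos, fun z hz => by rw [h] at hz; exact absurd hz (Set.notMem_empty z)⟩
  · obtain ⟨z₀, hz₀, hmin⟩ := hZ.exists_isMinOn h hφ.norm.continuousOn
    exact ⟨‖φ z₀‖, norm_pos_iff.mpr (hne z₀ hz₀), fun z hz => hmin hz⟩

theorem bounded_root {m : ℕ} (C : Crv m) (Bd G : Polynomial ℤ) (hB : IsBad C Bd G) (R : ℝ)
    (hG : ∀ x : ℂ, ‖x‖ = R → Polynomial.aeval x Bd ≠ 0) :
    ∃ Y : ℝ, ∀ x y : ℂ, ‖x‖ = R → aeval ![x, y] C.f = 0 → ‖y‖ ≤ Y := by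
  have hK : IsCompact (Metric.sphere (0 : ℂ) R) := isCompact_sphere 0 R
  have hlc : ∀ x ∈ Metric.sphere (0 : ℂ) R, Polynomial.aeval x (toY C.f).leadingCoeff ≠ 0 := by
    intro x hx h
    have h1 := (bad_ne hB x (hG x (by simpa using hx))).1
    obtain ⟨q, hq⟩ := hB.lead
    apply h1
    rw [hq, map_mul, h, zero_mul]
  obtain ⟨c, hc, hc2⟩ := lower hK (fun x => Polynomial.aeval x (toY C.f).leadingCoeff)
    (Polynomial.continuous_aeval _) hlc
  have hA : ∀ k : ℕ, ∃ A : ℝ, ∀ x ∈ Metric.sphere (0 : ℂ) R,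
      ‖Polynomial.aeval x ((toY C.f).coeff k)‖ ≤ A := fun k =>
    hK.exists_bound_of_continuousOn (Polynomial.continuous_aeval _).continuousOn
  choose A hA using hA
  refine ⟨(∑ k ∈ Finset.range (toY C.f).natDegree, |A k|) / c + 1, ?_⟩
  intro x y hx hy
  have hx' : x ∈ Metric.sphere (0 : ℂ) R := by simpa using hx
  set ev : Polynomial ℤ →+* ℂ := (Polynomial.aeval x : Polynomial ℤ →ₐ[ℤ] ℂ).toRingHom with hev
  have hl : ev (toY C.f).leadingCoeff ≠ 0 := hlc x hx'
  have hroot : ((toY C.f).map ev).IsRoot y := by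
    rw [Polynomial.IsRoot, YB.eval_toY]
    exact hy
  have hp0 : (toY C.f).map ev ≠ 0 := by
    intro h
    have h1 := Polynomial.coeff_map (p := toY C.f) ev (toY C.f).natDegree
    rw [h, Polynomial.coeff_zero] at h1
    exact hl h1.symm
  have h2 := NNReal.coe_lt_coe.mpr (hroot.norm_lt_cauchyBound hp0)
  rw [coe_nnnorm] at h2
  have hnd : ((toY C.f).map ev).natDegree = (toY C.f).natDegree :=
    Polynomial.natDegree_map_of_leadingCoeff_ne_zero ev hl
  have hlead : ((toY C.f).map ev).leadingCoeff = ev (toY C.f).leadingCoeff :=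
    Polynomial.leadingCoeff_map_of_leadingCoeff_ne_zero ev hl
  refine h2.le.trans ?_
  rw [Polynomial.cauchyBound, hnd, hlead]
  push_cast
  have hsup : (((Finset.range (toY C.f).natDegree).sup
      fun i => ‖((toY C.f).map ev).coeff i‖₊ : NNReal) : ℝ) ≤
      ∑ k ∈ Finset.range (toY C.f).natDegree, |A k| := by
    have h3 : (Finset.range (toY C.f).natDegree).sup
        (fun i => ‖((toY C.f).map ev).coeff i‖₊) ≤
        Real.toNNReal (∑ k ∈ Finset.range (toY C.f).natDegree, |A k|) := by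
      refine Finset.sup_le fun k hk => ?_
      rw [← NNReal.coe_le_coe, coe_nnnorm, Real.coe_toNNReal _
        (Finset.sum_nonneg fun k _ => abs_nonneg _), Polynomial.coeff_map]
      exact ((hA k x hx').trans (le_abs_self _)).trans
        (Finset.single_le_sum (f := fun k => |A k|) (fun k _ => abs_nonneg _) hk)
    have h4 := NNReal.coe_le_coe.mpr h3
    rwa [Real.coe_toNNReal _ (Finset.sum_nonneg fun k _ => abs_nonneg _)] at h4
  have hlo : c ≤ ‖ev (toY C.f).leadingCoeff‖ := hc2 x hx'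
  have hS : 0 ≤ ∑ k ∈ Finset.range (toY C.f).natDegree, |A k| :=
    Finset.sum_nonneg fun k _ => abs_nonneg _
  have h5 := div_le_div₀ hS hsup hc hlo
  linarith

theorem compact {m : ℕ} (C : Crv m) (Bd G : Polynomial ℤ) (hB : IsBad C Bd G) (R : ℝ)
    (hG : ∀ x : ℂ, ‖x‖ = R → Polynomial.aeval x Bd ≠ 0) :
    IsCompact {p : ℂ × ℂ | ‖p.1‖ = R ∧ aeval ![p.1, p.2] C.f = 0} := by
  obtain ⟨Y, hY⟩ := bounded_root C Bd G hB R hG
  refine Metric.isCompact_of_isClosed_isBounded ?_ ?_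
  · exact (isClosed_eq continuous_fst.norm continuous_const).inter
      (isClosed_eq (cont C.f) continuous_const)
  · rw [isBounded_iff_forall_norm_le]
    refine ⟨max R Y, fun p hp => ?_⟩
    rw [Prod.norm_def]
    exact max_le_max hp.1.le (hY p.1 p.2 hp.1 hp.2)

/-! ## The Taylor series -/

theorem tay_res (f : MvPolynomial (Fin 2) ℤ) (x y : ℂ) (ξ : MvPowerSeries (Fin 2) ℂ)
    (h0 : MvPowerSeries.constantCoeff ξ = 0)
    (h : aeval (fun i => if i = 1 then MvPowerSeries.C (![x, y] 1) + ξ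
        else MvPowerSeries.C (![x, y] i) + MvPowerSeries.X i : Fin 2 → MvPowerSeries (Fin 2) ℂ)
        f = 0) :
    IsTay f x y (PowerSeries.C y + res ℂ ξ) := by
  constructor
  · rw [map_add, PowerSeries.constantCoeff_C, ← PowerSeries.coeff_zero_eq_constantCoeff_apply,
      coeff_res, Finsupp.single_zero, MvPowerSeries.coeff_zero_eq_constantCoeff_apply, h0, add_zero]
  · have h1 := congrArg (res ℂ) h
    rw [map_aeval', map_zero] at h1
    rw [← h1]
    congr 2
    funext i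
    fin_cases i
    · simp [res_C, res_X]
    · simp [res_C]

end YC

theorem circle_tay {m : ℕ} (C : Crv m) (Bd G : Polynomial ℤ) (hB : IsBad C Bd G) (R : ℝ)
    (hR : 0 < R) (hG : ∀ x : ℂ, ‖x‖ = R → Polynomial.aeval x Bd ≠ 0) :
    ∃ B : ℝ, 1 ≤ B ∧ ∀ (x y : ℂ) (η : PowerSeries ℂ), ‖x‖ = R → aeval ![x, y] C.f = 0 →
      IsTay C.f x y η → ∀ j, 1 ≤ j → ‖PowerSeries.coeff j η * y⁻¹‖ ≤ B ^ j := by
  classical
  have hZ := YC.compact C Bd G hB R hG
  set Z := {p : ℂ × ℂ | ‖p.1‖ = R ∧ aeval ![p.1, p.2] C.f = 0} with hZd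
  obtain ⟨c1, hc1, hc1'⟩ := YC.lower hZ _ (YC.cont (pderiv 1 C.f))
    (fun p hp => ((bad_ne hB p.1 (hG p.1 hp.1)).2.2 p.2 hp.2).2)
  obtain ⟨c2, hc2, hc2'⟩ := YC.lower hZ (fun p => p.2) continuous_snd
    (fun p hp => ((bad_ne hB p.1 (hG p.1 hp.1)).2.2 p.2 hp.2).1)
  -- the Taylor coefficients of the equation
  set Sγ := (aeval (fun i => (MvPolynomial.C (X i) + X i :
    MvPolynomial (Fin 2) (MvPolynomial (Fin 2) ℤ))) C.f).support with hSγ
  obtain ⟨A, hA⟩ := hZ.exists_bound_of_continuousOn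
    (f := fun p : ℂ × ℂ => ∑ γ ∈ Sγ, ‖(aeval ![p.1, p.2] (hs γ C.f) : ℂ)‖)
    (continuous_finsetSum _ fun γ _ => (YC.cont (hs γ C.f)).norm).continuousOn
  have hcoef : ∀ p ∈ Z, ∀ γ, ‖(coeff γ (shf ![p.1, p.2] C.f) : ℂ)‖ ≤ max A 1 := by
    intro p hp γ
    rw [BG.coeff_shf]
    by_cases hγ : γ ∈ Sγ
    · have h1 : ‖(aeval ![p.1, p.2] (hs γ C.f) : ℂ)‖ ≤
          ∑ γ ∈ Sγ, ‖(aeval ![p.1, p.2] (hs γ C.f) : ℂ)‖ :=
        Finset.single_le_sum (f := fun γ => ‖(aeval ![p.1, p.2] (hs γ C.f) : ℂ)‖)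
          (fun _ _ => norm_nonneg _) hγ
      exact (h1.trans ((le_abs_self _).trans (hA p hp))).trans (le_max_left _ _)
    · have h1 : hs γ C.f = 0 := by
        rw [hs]
        exact notMem_support_iff.mp hγ
      rw [h1, map_zero, norm_zero]
      exact le_trans zero_le_one (le_max_right _ _)
  set d := max (C.f.degreeOf 0) (C.f.degreeOf 1) with hd
  have hdeg : ∀ i, C.f.degreeOf i ≤ d := by
    intro i
    fin_cases i
    · exact le_max_left _ _
    · exact le_max_right _ _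
  -- the radii
  set n0 : ℝ := (((d + 1) ^ Fintype.card (Fin 2) : ℕ) : ℝ) with hn0
  have hn0' : 0 < n0 := by rw [hn0]; exact_mod_cast pow_pos (Nat.succ_pos d) _
  have hA1 : 0 < max A 1 := lt_of_lt_of_le one_pos (le_max_right _ _)
  set T : ℝ := c1⁻¹ * (n0 * max A 1) with hT
  have hT0 : 0 < T := mul_pos (inv_pos.mpr hc1) (mul_pos hn0' hA1)
  set r : ℝ := min 1 T⁻¹ with hr
  have hr0 : 0 < r := lt_min one_pos (inv_pos.mpr hT0)
  have hr1 : r ≤ 1 := min_le_left _ _
  have hTr : T * r ≤ 1 := by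
    calc T * r ≤ T * T⁻¹ := mul_le_mul_of_nonneg_left (min_le_right _ _) hT0.le
      _ = 1 := mul_inv_cancel₀ hT0.ne'
  have hrr : 0 < r ^ 2 := pow_pos hr0 2
  have hrr1 : r ^ 2 ≤ 1 := pow_le_one₀ hr0.le hr1
  set M : ℝ := max 1 c2⁻¹ with hM
  have hM1 : 1 ≤ M := le_max_left _ _
  refine ⟨M / r ^ 2, ?_, ?_⟩
  · rw [le_div_iff₀ hrr, one_mul]
    exact hrr1.trans hM1
  intro x y η hx hy hη j hj
  have hp : (x, y) ∈ Z := ⟨hx, hy⟩
  have hder := ((bad_ne hB x (hG x hx)).2.2 y hy).2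
  have hy0 := ((bad_ne hB x (hG x hx)).2.2 y hy).1
  obtain ⟨ξ, hξ0, -, hξ, -, hN⟩ := branch1 ![x, y] (1 : Fin 2) C.f hy hder
  have htay := YC.tay_res C.f x y ξ hξ0 hξ
  have heq := tay_unique C.f x y η _ hη htay hder
  have hcj : PowerSeries.coeff j η = MvPowerSeries.coeff (Finsupp.single 0 j) ξ := by
    rw [heq, map_add, YC.coeff_res, PowerSeries.coeff_C, if_neg (by omega), zero_add]
  -- the norm
  have hinv : YC.nu.N (aeval ![x, y] (pderiv 1 C.f))⁻¹ ≤ ENNReal.ofReal c1⁻¹ := by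
    refine ENNReal.ofReal_le_ofReal ?_
    rw [norm_inv]
    exact inv_anti₀ hc1 (hc1' (x, y) hp)
  have hcard : (((shf ![x, y] C.f).support.card : ENNReal) ^ 1 * ENNReal.ofReal (max A 1)) ≤
      ENNReal.ofReal (n0 * max A 1) := by
    rw [pow_one, ENNReal.ofReal_mul hn0'.le]
    refine mul_le_mul' ?_ le_rfl
    rw [hn0, ENNReal.ofReal_natCast]
    exact_mod_cast BG.card_shf ![x, y] C.f d hdeg
  have hprod : YC.nu.N (aeval ![x, y] (pderiv 1 C.f))⁻¹ *
      (((shf ![x, y] C.f).support.card : ENNReal) ^ 1 * ENNReal.ofReal (max A 1)) ≤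
      ENNReal.ofReal T := by
    rw [hT, ENNReal.ofReal_mul (inv_pos.mpr hc1).le]
    exact mul_le_mul' hinv hcard
  have hps := hN 1 YC.nu (ENNReal.ofReal (max A 1)) (ENNReal.ofReal r) (ENNReal.ofReal (r ^ 2))
    (fun _ => ENNReal.ofReal (r ^ 2)) le_rfl
    (fun γ => ENNReal.ofReal_le_ofReal (hcoef (x, y) hp γ))
    (by
      refine (mul_le_mul' hprod le_rfl).trans ?_
      rw [← ENNReal.ofReal_mul hT0.le]
      refine ENNReal.ofReal_le_ofReal ?_
      calc T * r ^ 2 = T * r * r := by ring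
        _ ≤ 1 * r := mul_le_mul_of_nonneg_right hTr hr0.le
        _ = r := one_mul r)
    (by
      refine (mul_le_mul' hprod le_rfl).trans ?_
      rw [← ENNReal.ofReal_mul hT0.le]
      exact (ENNReal.ofReal_le_ofReal hTr).trans (by rw [ENNReal.ofReal_one]))
    ((ENNReal.ofReal_le_ofReal hr1).trans (by rw [ENNReal.ofReal_one]))
    ((ENNReal.ofReal_le_ofReal hrr1).trans (by rw [ENNReal.ofReal_one]))
    (fun _ _ _ => le_rfl)
  have hco := coeff_le_psN YC.nu (fun _ : Fin 2 => ENNReal.ofReal (r ^ 2)) ξ (Finsupp.single 0 j)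
  have h6 := hco.trans hps
  have h7 : ∏ i : Fin 2, (ENNReal.ofReal (r ^ 2)) ^ (Finsupp.single (0 : Fin 2) j) i =
      ENNReal.ofReal ((r ^ 2) ^ j) := by
    rw [Fin.prod_univ_two, Finsupp.single_eq_same, Finsupp.single_eq_of_ne (by decide), pow_zero,
      mul_one, ENNReal.ofReal_pow hrr.le]
  rw [h7] at h6
  have h8 : ENNReal.ofReal (‖MvPowerSeries.coeff (Finsupp.single 0 j) ξ‖ * (r ^ 2) ^ j) ≤
      ENNReal.ofReal r := by
    rw [ENNReal.ofReal_mul (norm_nonneg _)]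
    exact h6
  have h9 : ‖MvPowerSeries.coeff (Finsupp.single 0 j) ξ‖ * (r ^ 2) ^ j ≤ 1 :=
    ((ENNReal.ofReal_le_ofReal_iff hr0.le).mp h8).trans hr1
  rw [hcj, norm_mul, norm_inv, div_pow]
  have h10 : ‖y‖⁻¹ ≤ M ^ j := by
    calc ‖y‖⁻¹ ≤ c2⁻¹ := inv_anti₀ hc2 (hc2' (x, y) hp)
      _ ≤ M := le_max_right _ _
      _ ≤ M ^ j := le_self_pow₀ hM1 (by omega)
  rw [le_div_iff₀ (pow_pos hrr j)]
  calc ‖MvPowerSeries.coeff (Finsupp.single 0 j) ξ‖ * ‖y‖⁻¹ * (r ^ 2) ^ j
      = (‖MvPowerSeries.coeff (Finsupp.single 0 j) ξ‖ * (r ^ 2) ^ j) * ‖y‖⁻¹ := by ring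
    _ ≤ 1 * M ^ j := mul_le_mul h9 h10 (inv_nonneg.mpr (norm_nonneg _)) zero_le_one
    _ = M ^ j := one_mul _

end Pool.Agent.PC
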