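import Pool.Agent.Lib.MP_c95b3b_ag_PC.Defs
import Pool.Agent.Lib.MP_c95b3b_ag_PC.YA
import Pool.Agent.Lib.MP_c95b3b_ag_PC.YB
import Pool.Agent.Lib.MP_c95b3b_ag_PC.YC
import Pool.Agent.Lib.MP_c95b3b_ag_PC.YE
import Pool.Agent.Lib.MP_c95b3b_ag_PC.YF
import Mathlib

/-! Project PC (MP_c95b3b_ag), module YH: the size of the coefficients. -/

namespace Pool.Agent.PC

open Pool.Agent.L3 Pool.Agent.AL Module MvPolynomial

namespace YH

theorem iteratedDeriv_eval (n : ℕ) : ∀ p : Polynomial ℂ,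
    iteratedDeriv n (fun x => p.eval x) = fun x => ((Polynomial.derivative^[n]) p).eval x := by
  induction n with
  | zero => intro p; simp
  | succ n ih =>
    intro p
    rw [iteratedDeriv_succ']
    have : deriv (fun x => p.eval x) = fun x => (Polynomial.derivative p).eval x := by
      funext x
      exact Polynomial.deriv p
    rw [this, ih, Function.iterate_succ_apply]

theorem cauchy (p : Polynomial ℂ) (R M : ℝ) (hR : 1 ≤ R)
    (h : ∀ x : ℂ, ‖x‖ = R → ‖p.eval x‖ ≤ M) (n : ℕ) : ‖p.coeff n‖ ≤ M := by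
  have hR0 : 0 < R := by linarith
  have h1 := Complex.norm_iteratedDeriv_le_of_forall_mem_sphere_norm_le (c := (0 : ℂ)) (C := M)
    (f := fun x => p.eval x) n hR0 (p.differentiable.diffContOnCl) (by
      intro z hz
      exact h z (by simpa using hz))
  have h2 : iteratedDeriv n (fun x => p.eval x) 0 = (n.factorial : ℂ) * p.coeff n := by
    rw [iteratedDeriv_eval]
    simp only []
    rw [← Polynomial.coeff_zero_eq_eval_zero, Polynomial.coeff_iterate_derivative, Nat.zero_add,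
      Nat.descFactorial_self, nsmul_eq_mul]
  rw [h2, norm_mul, Complex.norm_natCast] at h1
  have hM : 0 ≤ M := le_trans (norm_nonneg _) (h (R : ℂ) (by simp [abs_of_pos hR0]))
  have hf : (0 : ℝ) < n.factorial := by exact_mod_cast n.factorial_pos
  have h3 : (n.factorial : ℝ) * M / R ^ n ≤ n.factorial * M := by
    apply div_le_self (by positivity)
    exact one_le_pow₀ hR
  exact le_of_mul_le_mul_left (h1.trans h3) hf

theorem dense_bound (p : Polynomial ℂ) (R M : ℝ) (hR : 0 < R)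
    (h : ∀ x : ℂ, ‖x‖ = R → Transcendental ℤ x → ‖p.eval x‖ ≤ M) (x : ℂ) (hx : ‖x‖ = R) :
    ‖p.eval x‖ ≤ M := by
  have hc : (circleMap 0 R ⁻¹' {x : ℂ | IsAlgebraic ℤ x}).Countable :=
    (Algebraic.countable ℤ ℂ).preimage_circleMap 0 hR.ne'
  have hd : Dense (circleMap 0 R ⁻¹' {x : ℂ | IsAlgebraic ℤ x})ᶜ := hc.dense_compl ℝ
  have hcl : IsClosed {t : ℝ | ‖p.eval (circleMap 0 R t)‖ ≤ M} := by
    apply isClosed_le _ continuous_const
    exact (p.continuous.comp (continuous_circleMap 0 R)).norm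
  have hsub : (circleMap 0 R ⁻¹' {x : ℂ | IsAlgebraic ℤ x})ᶜ ⊆
      {t : ℝ | ‖p.eval (circleMap 0 R t)‖ ≤ M} := by
    intro t ht
    apply h
    · simp [abs_of_pos hR]
    · exact ht
  have huniv : {t : ℝ | ‖p.eval (circleMap 0 R t)‖ ≤ M} = Set.univ := by
    apply Set.eq_univ_of_univ_subset
    rw [← hd.closure_eq]
    exact hcl.closure_subset_iff.mpr hsub
  have hxm : x ∈ Set.range (circleMap 0 R) := by
    rw [range_circleMap]
    simp [abs_of_pos hR, hx]
  obtain ⟨t, rfl⟩ := hxm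
  have : t ∈ {t : ℝ | ‖p.eval (circleMap 0 R t)‖ ≤ M} := by rw [huniv]; trivial
  exact this

theorem eval_toY {E : Type} [CommRing E] (φ : Polynomial ℤ →+* E) (z : E)
    (p : MvPolynomial (Fin 2) ℤ) :
    Polynomial.eval₂ φ z (toY p) = aeval ![φ Polynomial.X, z] p := by
  have h : ((Polynomial.eval₂RingHom φ z).comp
      (toY : MvPolynomial (Fin 2) ℤ →ₐ[ℤ] Polynomial (Polynomial ℤ)).toRingHom) =
      (aeval ![φ Polynomial.X, z] : MvPolynomial (Fin 2) ℤ →ₐ[ℤ] E).toRingHom := by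
    apply MvPolynomial.ringHom_ext
    · intro r
      simp
    · intro i
      fin_cases i
      · simp [toY]
      · simp [toY]
  exact congrArg (fun q => q p) h

theorem exists_R (Bd : Polynomial ℤ) (h0 : Bd ≠ 0) : ∃ R : ℝ, 1 ≤ R ∧
    ∀ x : ℂ, ‖x‖ = R → Polynomial.aeval x Bd ≠ 0 := by
  classical
  set q : Polynomial ℂ := Bd.map (Int.castRingHom ℂ) with hq
  have hq0 : q ≠ 0 := by
    rw [hq, Polynomial.map_ne_zero_iff (RingHom.injective_int _)]
    exact h0
  obtain ⟨M, hM⟩ := (q.roots.toFinset.image (fun z => ‖z‖)).exists_le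
  refine ⟨max 1 (M + 1), le_max_left _ _, ?_⟩
  intro x hx h
  have hr : q.eval x = 0 := by
    rw [hq, Polynomial.eval_map]
    simpa [Polynomial.aeval_def] using h
  have h1 := hM ‖x‖ (by
    rw [Finset.mem_image]
    exact ⟨x, by simp [hq0, hr], rfl⟩)
  have h2 : M + 1 ≤ ‖x‖ := by rw [hx]; exact le_max_right _ _
  linarith

theorem exists_M (Bd : Polynomial ℤ) (R : ℝ) : ∃ M : ℝ, 0 ≤ M ∧
    ∀ x : ℂ, ‖x‖ = R → ‖Polynomial.aeval x Bd‖ ≤ M := by
  have hc : ContinuousOn (fun x : ℂ => Polynomial.aeval x Bd) (Metric.sphere (0 : ℂ) R) :=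
    (Polynomial.continuous_aeval Bd).continuousOn
  obtain ⟨M, hM⟩ := (isCompact_sphere (0 : ℂ) R).exists_bound_of_continuousOn hc
  refine ⟨max M 0, le_max_right _ _, ?_⟩
  intro x hx
  exact (hM x (by simp [hx])).trans (le_max_left _ _)

theorem aux {m : ℕ} (C : Crv m) (Bd G : Polynomial ℤ) (hB : IsBad C Bd G) (g : ℤ) (A : ℕ) :
    ∃ B : ℝ, 1 ≤ B ∧ ∀ (F0 Om : Type) [Field F0] [Algebra (Polynomial ℤ) F0]
      [IsFractionRing (Polynomial ℤ) F0] [Field Om] [CharZero Om] [Algebra F0 Om]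
      [Algebra.IsAlgebraic F0 Om] (gx y : Om) (η : PowerSeries Om),
      gx = algebraMap F0 Om (algebraMap (Polynomial ℤ) F0 Polynomial.X) →
      aeval ![gx, y] C.f = 0 → IsTay C.f gx y η → ∀ j, 1 ≤ j → ∀ μ : Polynomial (Polynomial ℤ),
        μ.Monic → μ.natDegree ≤ C.f.degreeOf 1 →
        μ.map (algebraMap (Polynomial ℤ) F0) =
          minpoly F0 ((g : Om) ^ (A * j) *
              Polynomial.aeval gx Bd ^ j * PowerSeries.coeff j η * y⁻¹) →
        ∀ l n, l < μ.natDegree → |(((μ.coeff l).coeff n : ℤ) : ℝ)| ≤ B ^ (j * (μ.natDegree - l)) := by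
  classical
  have hBd0 : Bd ≠ 0 := by
    intro h
    have := hB.deg
    rw [h] at this
    simp at this
  obtain ⟨R, hR1, hRB⟩ := YH.exists_R Bd hBd0
  have hR0 : 0 < R := by linarith
  obtain ⟨B1, hB1, hcirc⟩ := circle_tay C Bd G hB R hR0 hRB
  obtain ⟨M1, hM0, hM1⟩ := YH.exists_M Bd R
  obtain ⟨h, A', -, hh⟩ := exists_tay C.f
  set B2 : ℝ := max 1 (|(g : ℝ)| ^ A * M1 * B1) with hB2
  have hB21 : 1 ≤ B2 := le_max_left _ _
  have hB2' : |(g : ℝ)| ^ A * M1 * B1 ≤ B2 := le_max_right _ _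
  set D : ℕ := C.f.degreeOf 1 with hD
  refine ⟨2 ^ D * B2, ?_, ?_⟩
  · have : (1 : ℝ) ≤ 2 ^ D := one_le_pow₀ (by norm_num)
    nlinarith
  intro F0 Om _ _ _ _ _ _ _ gx y η hgx hy hη j hj μ hμ hμd hμm l n hl
  -- nonvanishing at the generic point
  set ψ : Polynomial ℤ →+* Om := (algebraMap F0 Om).comp (algebraMap (Polynomial ℤ) F0) with hψ
  have hψX : ψ Polynomial.X = gx := by rw [hgx, hψ]; rfl
  have hψinj : Function.Injective ψ :=
    (algebraMap F0 Om).injective.comp (IsFractionRing.injective (Polynomial ℤ) F0)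
  have hBgx : Polynomial.aeval gx Bd = ψ Bd := by
    have h1 : (Polynomial.aeval gx : Polynomial ℤ →ₐ[ℤ] Om).toRingHom = ψ := by
      apply Polynomial.ringHom_ext
      · intro a
        simp
      · rw [hψX]
        exact Polynomial.aeval_X gx
    rw [← h1]
    rfl
  have hBgx0 : Polynomial.aeval gx Bd ≠ 0 := by
    rw [hBgx]
    exact (map_ne_zero_iff _ hψinj).mpr hBd0
  obtain ⟨-, -, hgen⟩ := bad_ne hB (gx : Om) hBgx0
  obtain ⟨hy0, hd⟩ := hgen y hy
  obtain ⟨η₁, hη₁, hcoef⟩ := hh Om gx y hy hd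
  have hηη : η = η₁ := tay_unique C.f gx y η η₁ hη hη₁ hd
  -- the polynomials
  set P : MvPolynomial (Fin 2) ℤ → Polynomial F0 :=
    fun q => (toY q).map (algebraMap (Polynomial ℤ) F0) with hP
  have hPy : ∀ q, Polynomial.aeval y (P q) = aeval ![(gx : Om), y] q := by
    intro q
    rw [hP]
    simp only []
    rw [Polynomial.aeval_def, Polynomial.eval₂_map, ← hψ, YH.eval_toY, hψX]
  set u : Polynomial F0 := Polynomial.C (algebraMap (Polynomial ℤ) F0
    (Polynomial.C g ^ (A * j) * Bd ^ j)) * P (h j) with hu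
  set v : Polynomial F0 := (P (pderiv 1 C.f)) ^ (2 * j - 1) * Polynomial.X with hv
  have huy : Polynomial.aeval y u = (g : Om) ^ (A * j) * Polynomial.aeval (gx : Om) Bd ^ j *
      aeval ![(gx : Om), y] (h j) := by
    rw [hu, map_mul, Polynomial.aeval_C, hPy, ← RingHom.comp_apply, ← hψ, map_mul, map_pow,
      map_pow, hBgx]
    simp
  have hvy : Polynomial.aeval y v = (aeval ![(gx : Om), y] (pderiv 1 C.f)) ^ (2 * j - 1) * y := by
    rw [hv, map_mul, map_pow, Polynomial.aeval_X, hPy]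
  have hvy0 : Polynomial.aeval y v ≠ 0 := by
    rw [hvy]
    exact mul_ne_zero (pow_ne_zero _ hd) hy0
  have hb : (g : Om) ^ (A * j) * Polynomial.aeval gx Bd ^ j * PowerSeries.coeff j η * y⁻¹ =
      Polynomial.aeval y u / Polynomial.aeval y v := by
    rw [huy, hvy, hηη, hcoef j hj]
    field_simp
  have hgne : P C.f ≠ 0 := by
    rw [hP]
    simp only []
    rw [Polynomial.map_ne_zero_iff (IsFractionRing.injective (Polynomial ℤ) F0)]
    intro h0
    have h1 := natDegree_toY C.f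
    rw [h0] at h1
    have h2 := C.degY
    simp at h1
    omega
  have hgy : Polynomial.aeval y (P C.f) = 0 := by rw [hPy]; exact hy
  -- pointwise bound
  have key : ∀ x : ℂ, ‖x‖ = R → Transcendental ℤ x →
      ‖((μ.coeff l).map (Int.castRingHom ℂ)).eval x‖ ≤ B2 ^ (j * (μ.natDegree - l)) * 2 ^ D := by
    intro x hx htr
    set φ : Polynomial ℤ →+* ℂ := (Polynomial.aeval x : Polynomial ℤ →ₐ[ℤ] ℂ).toRingHom with hφ
    have hφinj : Function.Injective φ := transcendental_iff_injective.mp htr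
    set τ : F0 →+* ℂ := IsFractionRing.lift hφinj with hτ
    have hτφ : τ.comp (algebraMap (Polynomial ℤ) F0) = φ := by
      apply RingHom.ext
      intro a
      rw [RingHom.comp_apply, hτ, IsFractionRing.lift_algebraMap]
    have hPτ : ∀ q z, ((P q).map τ).eval z = aeval ![x, z] q := by
      intro q z
      rw [hP]
      simp only []
      rw [Polynomial.map_map, hτφ, Polynomial.eval_map, YH.eval_toY]
      have : φ Polynomial.X = x := by
        rw [hφ]
        exact Polynomial.aeval_X x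
      rw [this]
    obtain ⟨hspl, hroots⟩ := minpoly_roots τ (P C.f) hgne (IsAlgClosed.splits _) y hgy u v hvy0
    rw [← hb, ← hμm, Polynomial.map_map, hτφ] at hspl hroots
    have hbd : ∀ r ∈ (μ.map φ).roots, ‖r‖ ≤ B2 ^ j := by
      intro r hr
      have hr' : (μ.map φ).eval r = 0 := Polynomial.isRoot_of_mem_roots hr
      obtain ⟨z, hz, hvz, hrz⟩ := hroots r hr'
      rw [hPτ] at hz
      obtain ⟨-, -, hgen'⟩ := bad_ne hB x (hRB x hx)
      obtain ⟨hz0, hdz⟩ := hgen' z hz
      obtain ⟨η', hη', hcoef'⟩ := hh ℂ x z hz hdz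
      have hc := hcirc x z η' hx hz hη' j hj
      have huz : (u.map τ).eval z = (g : ℂ) ^ (A * j) * Polynomial.aeval x Bd ^ j *
          aeval ![x, z] (h j) := by
        rw [hu, Polynomial.map_mul, Polynomial.eval_mul, hPτ, Polynomial.map_C,
          Polynomial.eval_C, ← RingHom.comp_apply, hτφ, map_mul, map_pow, map_pow]
        rw [hφ]
        simp
      have hvz' : (v.map τ).eval z = (aeval ![x, z] (pderiv 1 C.f)) ^ (2 * j - 1) * z := by
        rw [hv, Polynomial.map_mul, Polynomial.eval_mul, Polynomial.map_pow, Polynomial.eval_pow,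
          hPτ, Polynomial.map_X, Polynomial.eval_X]
      have hrr : r = (g : ℂ) ^ (A * j) * Polynomial.aeval x Bd ^ j *
          (PowerSeries.coeff j η' * z⁻¹) := by
        rw [hrz, huz, hvz', hcoef' j hj]
        field_simp
      rw [hrr, norm_mul, norm_mul, norm_pow, norm_pow, Complex.norm_intCast]
      calc |(g : ℝ)| ^ (A * j) * ‖Polynomial.aeval x Bd‖ ^ j * ‖PowerSeries.coeff j η' * z⁻¹‖
          ≤ |(g : ℝ)| ^ (A * j) * M1 ^ j * B1 ^ j := by
            apply mul_le_mul _ hc (norm_nonneg _) (by positivity)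
            apply mul_le_mul_of_nonneg_left _ (by positivity)
            exact pow_le_pow_left₀ (norm_nonneg _) (hM1 x hx) j
        _ = (|(g : ℝ)| ^ A * M1 * B1) ^ j := by rw [mul_pow, mul_pow, ← pow_mul]
        _ ≤ B2 ^ j := pow_le_pow_left₀ (by positivity) hB2' j
    have hco := Polynomial.coeff_le_of_roots_le l hμ hspl hbd
    have he : ((μ.coeff l).map (Int.castRingHom ℂ)).eval x = (μ.map φ).coeff l := by
      rw [Polynomial.coeff_map, Polynomial.eval_map, hφ]
      rfl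
    rw [he]
    refine hco.trans ?_
    rw [← pow_mul]
    apply mul_le_mul_of_nonneg_left _ (by positivity)
    have h1 : μ.natDegree.choose l ≤ 2 ^ μ.natDegree := Nat.choose_le_two_pow _ _
    have h2 : 2 ^ μ.natDegree ≤ 2 ^ D := Nat.pow_le_pow_right (by norm_num) hμd
    exact_mod_cast h1.trans h2
  have hall := YH.dense_bound _ R _ hR0 key
  have hfin := YH.cauchy _ R _ hR1 hall n
  rw [Polynomial.coeff_map] at hfin
  have hn : ‖(Int.castRingHom ℂ) ((μ.coeff l).coeff n)‖ = |(((μ.coeff l).coeff n : ℤ) : ℝ)| := by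
    simp
  rw [hn] at hfin
  refine hfin.trans ?_
  rw [mul_pow, mul_comm]
  apply mul_le_mul_of_nonneg_right _ (by positivity)
  apply le_self_pow₀ (one_le_pow₀ (by norm_num))
  have : 0 < μ.natDegree - l := by omega
  exact (Nat.mul_pos (by omega) this).ne'


theorem aeval_inst {R : Type} [CommRing R] (i1 i2 : Algebra ℤ R) (x : Fin 2 → R)
    (p : MvPolynomial (Fin 2) ℤ) :
    @MvPolynomial.aeval ℤ R (Fin 2) _ _ i1 x p = @MvPolynomial.aeval ℤ R (Fin 2) _ _ i2 x p := by
  have := Subsingleton.elim i1 i2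
  subst this
  rfl

theorem paeval_inst {R : Type} [CommRing R] (i1 i2 : Algebra ℤ R) (x : R)
    (p : Polynomial ℤ) :
    @Polynomial.aeval ℤ R _ _ i1 x p = @Polynomial.aeval ℤ R _ _ i2 x p := by
  have := Subsingleton.elim i1 i2
  subst this
  rfl

end YH

section
variable {m : ℕ}

theorem size_cert (C : Crv m) (Bd G : Polynomial ℤ) (hB : IsBad C Bd G) (g : ℤ) (A : ℕ) :
    ∃ B : ℝ, 1 ≤ B ∧ ∀ (y : AlgebraicClosure (FractionRing (Polynomial ℤ)))
      (η : PowerSeries (AlgebraicClosure (FractionRing (Polynomial ℤ)))),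
      aeval ![gx, y] C.f = 0 → IsTay C.f gx y η → ∀ j, 1 ≤ j → ∀ μ : Polynomial (Polynomial ℤ),
        μ.Monic → μ.natDegree ≤ C.f.degreeOf 1 →
        μ.map (algebraMap (Polynomial ℤ) (FractionRing (Polynomial ℤ))) =
          minpoly (FractionRing (Polynomial ℤ))
            ((g : AlgebraicClosure (FractionRing (Polynomial ℤ))) ^ (A * j) *
              Polynomial.aeval gx Bd ^ j * PowerSeries.coeff j η * y⁻¹) →
        ∀ l n, l < μ.natDegree → |(((μ.coeff l).coeff n : ℤ) : ℝ)| ≤ B ^ (j * (μ.natDegree - l)) := by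
  obtain ⟨B, hB1, hB2⟩ := YH.aux C Bd G hB g A
  refine ⟨B, hB1, ?_⟩
  intro y η hy hη j hj μ hμ hμd hμm
  refine hB2 (FractionRing (Polynomial ℤ)) (AlgebraicClosure (FractionRing (Polynomial ℤ)))
    gx y η ?_ ?_ hη j hj μ hμ hμd ?_
  · rfl
  · rw [← hy]
    exact YH.aeval_inst _ _ _ _
  · rw [hμm]
    have hBB := YH.paeval_inst (R := AlgebraicClosure (FractionRing (Polynomial ℤ)))
      (AlgebraicClosure.instAlgebra (FractionRing (Polynomial ℤ))) (Ring.toIntAlgebra _) gx Bd
    rw [hBB]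

end

end Pool.Agent.PC
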