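import Pool.Agent.Lib.MP_c95b3b_ag_PC.Defs
import Pool.Agent.Lib.MP_c95b3b_ag_PC.YA
import Pool.Agent.Lib.MP_c95b3b_ag_PC.YB
import Pool.Agent.Lib.MP_c95b3b_ag_PC.YF
import Pool.Agent.Lib.MP_c95b3b_ag_PC.YG
import Pool.Agent.Lib.MP_c95b3b_ag_PC.YH

/-! Project PC (MP_c95b3b_ag), module YI: the certificate. -/

namespace Pool.Agent.PC

open Pool.Agent.L3 Pool.Agent.AL Module MvPolynomial

section
variable {m : ℕ}

/-- values of one-variable polynomials in the first coordinate -/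
private theorem YI_aeval_X0 {K : Type} [Field K] (x y : K) (p : Polynomial ℤ) :
    aeval ![x, y] (Polynomial.aeval (X 0 : MvPolynomial (Fin 2) ℤ) p) = Polynomial.aeval x p := by
  rw [← Polynomial.aeval_algHom_apply]
  simp

/-- values of `toY` -/
private theorem YI_toY {K : Type} [Field K] (x y : K) (f : MvPolynomial (Fin 2) ℤ) :
    ((toY f).map (Polynomial.aeval x : Polynomial ℤ →ₐ[ℤ] K).toRingHom).eval y =
      aeval ![x, y] f := by
  have h : ((Polynomial.evalRingHom y).comp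
      ((Polynomial.mapRingHom (Polynomial.aeval x : Polynomial ℤ →ₐ[ℤ] K).toRingHom).comp
        (toY : MvPolynomial (Fin 2) ℤ →ₐ[ℤ] Polynomial (Polynomial ℤ)).toRingHom)) =
      (aeval ![x, y] : MvPolynomial (Fin 2) ℤ →ₐ[ℤ] K).toRingHom := by
    refine MvPolynomial.ringHom_ext (fun r => ?_) (fun i => ?_)
    · simp
    · fin_cases i <;> simp [toY]
  exact congrArg (fun F : MvPolynomial (Fin 2) ℤ →+* K => F f) h

/-- homogenisation of a polynomial in one variable -/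
private theorem YI_hom {K : Type} [Field K] (p : Polynomial K) (s t : K) (hs : s ≠ 0) :
    ∑ l ∈ Finset.range (p.natDegree + 1), p.coeff l * t ^ l * s ^ (p.natDegree - l) =
      s ^ p.natDegree * p.eval (t / s) := by
  rw [Polynomial.eval_eq_sum_range, Finset.mul_sum]
  refine Finset.sum_congr rfl fun l hl => ?_
  have h1 : l ≤ p.natDegree := Nat.lt_succ_iff.mp (Finset.mem_range.mp hl)
  have h2 : s ^ p.natDegree = s ^ (p.natDegree - l) * s ^ l := by
    rw [← pow_add, Nat.sub_add_cancel h1]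
  rw [div_pow, h2]
  field_simp

private theorem YI_core (C : Crv m) (Bd G : Polynomial ℤ) (hB : IsBad C Bd G)
    {Om : Type} [Field Om] [CharZero Om] [IsAlgClosed Om] (x₀ : Om) (hx₀ : Transcendental ℚ x₀)
    (g : ℤ) (A : ℕ) (B : ℝ) (hg : g ≠ 0) (hB1 : 1 ≤ B)
    (hcert : ∀ (y : Om) (η : PowerSeries Om), aeval ![x₀, y] C.f = 0 → IsTay C.f x₀ y η →
      ∀ j, 1 ≤ j → ∃ μ : Polynomial (Polynomial ℤ),
      μ.Monic ∧ 1 ≤ μ.natDegree ∧ μ.natDegree ≤ C.f.degreeOf 1 ∧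
      (∀ l, (μ.coeff l).natDegree ≤ (Bd.natDegree - 1) * j * (μ.natDegree - l)) ∧
      (∀ l n, l < μ.natDegree → |(((μ.coeff l).coeff n : ℤ) : ℝ)| ≤ B ^ (j * (μ.natDegree - l))) ∧
      (μ.map (Polynomial.aeval x₀ : Polynomial ℤ →ₐ[ℤ] Om).toRingHom).eval
          ((g : Om) ^ (A * j) * Polynomial.aeval x₀ Bd ^ j * PowerSeries.coeff j η * y⁻¹) = 0) :
    ∃ (g : ℤ) (A : ℕ) (B : ℝ), g ≠ 0 ∧ 1 ≤ B ∧ ∀ j, 1 ≤ j → ∃ μ : Polynomial (Polynomial ℤ),
      μ.Monic ∧ 1 ≤ μ.natDegree ∧ μ.natDegree ≤ C.f.degreeOf 1 ∧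
      (∀ l, (μ.coeff l).natDegree ≤ (Bd.natDegree - 1) * j * (μ.natDegree - l)) ∧
      (∀ l n, l < μ.natDegree → |(((μ.coeff l).coeff n : ℤ) : ℝ)| ≤ B ^ (j * (μ.natDegree - l))) ∧
      ∀ (K : Type) [Field K] [CharZero K] (x y : K) (η : PowerSeries K),
        aeval ![x, y] C.f = 0 → Polynomial.aeval x Bd ≠ 0 → IsTay C.f x y η →
        (μ.map (Polynomial.aeval x : Polynomial ℤ →ₐ[ℤ] K).toRingHom).eval
          ((g : K) ^ (A * j) * Polynomial.aeval x Bd ^ j * PowerSeries.coeff j η * y⁻¹) = 0 := by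
  obtain ⟨h, -, -, htay⟩ := exists_tay C.f
  refine ⟨g, A, B, hg, hB1, fun j hj => ?_⟩
  -- the generic point
  have hinj : Function.Injective (Polynomial.aeval x₀ : Polynomial ℤ →ₐ[ℤ] Om).toRingHom := by
    have h1 : Transcendental ℤ x₀ :=
      hx₀.restrictScalars (algebraMap ℤ ℚ).injective_int
    exact transcendental_iff_injective.mp h1
  have hBd : Bd ≠ 0 := by
    intro h0
    have := hB.deg
    rw [h0] at this
    simp at this
  have hBx : Polynomial.aeval x₀ Bd ≠ 0 := fun h0 => hBd (hinj (h0.trans (map_zero _).symm))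
  obtain ⟨y, hy⟩ : ∃ y : Om, aeval ![x₀, y] C.f = 0 := by
    have hdeg : ((toY C.f).map (Polynomial.aeval x₀ : Polynomial ℤ →ₐ[ℤ] Om).toRingHom).degree ≠
        0 := by
      rw [Polynomial.degree_map_eq_of_injective hinj]
      have h1 : 0 < (toY C.f).natDegree := by
        rw [natDegree_toY]
        exact C.degY
      exact (Polynomial.natDegree_pos_iff_degree_pos.mp h1).ne'
    obtain ⟨y, hy⟩ := IsAlgClosed.exists_root _ hdeg
    refine ⟨y, ?_⟩
    rw [← YI_toY]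
    exact hy
  obtain ⟨_, _, hne⟩ := bad_ne hB x₀ hBx
  obtain ⟨hy0, hfy⟩ := hne y hy
  obtain ⟨η, hη, hcoef⟩ := htay _ x₀ y hy hfy
  obtain ⟨μ, hμ, hd1, hd2, hdeg, hsz, hev⟩ := hcert y η hy hη j hj
  refine ⟨μ, hμ, hd1, hd2, hdeg, hsz, ?_⟩
  -- the polynomial `W`
  set W : MvPolynomial (Fin 2) ℤ := ∑ l ∈ Finset.range (μ.natDegree + 1),
    Polynomial.aeval (X 0 : MvPolynomial (Fin 2) ℤ) (μ.coeff l) *
      (MvPolynomial.C g ^ (A * j) * Polynomial.aeval (X 0 : MvPolynomial (Fin 2) ℤ) Bd ^ j *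
        h j) ^ l * ((pderiv 1 C.f) ^ (2 * j - 1) * X 1) ^ (μ.natDegree - l) with hW
  have hWval : ∀ (K : Type) [Field K] (x y : K) (η : PowerSeries K), y ≠ 0 →
      aeval ![x, y] (pderiv 1 C.f) ≠ 0 →
      PowerSeries.coeff j η = aeval ![x, y] (h j) / (aeval ![x, y] (pderiv 1 C.f)) ^ (2 * j - 1) →
      aeval ![x, y] W = ((aeval ![x, y] (pderiv 1 C.f)) ^ (2 * j - 1) * y) ^ μ.natDegree *
        (μ.map (Polynomial.aeval x : Polynomial ℤ →ₐ[ℤ] K).toRingHom).eval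
          ((g : K) ^ (A * j) * Polynomial.aeval x Bd ^ j * PowerSeries.coeff j η * y⁻¹) := by
    intro K _ x y η hy hfy hc
    have hs : (aeval ![x, y] (pderiv 1 C.f)) ^ (2 * j - 1) * y ≠ 0 :=
      mul_ne_zero (pow_ne_zero _ hfy) hy
    have hnd : (μ.map (Polynomial.aeval x : Polynomial ℤ →ₐ[ℤ] K).toRingHom).natDegree =
        μ.natDegree := hμ.natDegree_map _
    have h1 := YI_hom (μ.map (Polynomial.aeval x : Polynomial ℤ →ₐ[ℤ] K).toRingHom)
      ((aeval ![x, y] (pderiv 1 C.f)) ^ (2 * j - 1) * y)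
      ((g : K) ^ (A * j) * Polynomial.aeval x Bd ^ j * aeval ![x, y] (h j)) hs
    rw [hnd] at h1
    have h2 : (g : K) ^ (A * j) * Polynomial.aeval x Bd ^ j * PowerSeries.coeff j η * y⁻¹ =
        ((g : K) ^ (A * j) * Polynomial.aeval x Bd ^ j * aeval ![x, y] (h j)) /
          ((aeval ![x, y] (pderiv 1 C.f)) ^ (2 * j - 1) * y) := by
      rw [hc]
      field_simp
    rw [h2, ← h1, hW, map_sum]
    refine Finset.sum_congr rfl fun l _ => ?_
    simp only [map_mul, map_pow, YI_aeval_X0, Polynomial.coeff_map]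
    congr 1
    · congr 1
      congr 1
      simp
    · simp
  have hWgen : aeval ![x₀, y] W = 0 := by
    rw [hWval _ x₀ y η hy0 hfy (hcoef j hj), hev, mul_zero]
  have hdvd : C.f ∣ W := dvd_of_generic C x₀ y hx₀ hy W hWgen
  intro K _ _ x y₀ η₀ hf hBd0 hη₀
  obtain ⟨_, _, hne0⟩ := bad_ne hB x hBd0
  obtain ⟨hy00, hfy0⟩ := hne0 y₀ hf
  obtain ⟨η₁, hη₁, hcoef₁⟩ := htay K x y₀ hf hfy0
  have he : η₀ = η₁ := tay_unique C.f x y₀ η₀ η₁ hη₀ hη₁ hfy0
  have hW0 : aeval ![x, y₀] W = 0 := by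
    obtain ⟨q, hq⟩ := hdvd
    rw [hq, map_mul, hf, zero_mul]
  have hc : PowerSeries.coeff j η₀ =
      aeval ![x, y₀] (h j) / (aeval ![x, y₀] (pderiv 1 C.f)) ^ (2 * j - 1) := by
    rw [he]
    exact hcoef₁ j hj
  rw [hWval K x y₀ η₀ hy00 hfy0 hc] at hW0
  rcases mul_eq_zero.mp hW0 with h3 | h3
  · exact absurd h3 (pow_ne_zero _ (mul_ne_zero (pow_ne_zero _ hfy0) hy00))
  · exact h3

theorem tay_cert (C : Crv m) (Bd G : Polynomial ℤ) (hB : IsBad C Bd G) :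
    ∃ (g : ℤ) (A : ℕ) (B : ℝ), g ≠ 0 ∧ 1 ≤ B ∧ ∀ j, 1 ≤ j → ∃ μ : Polynomial (Polynomial ℤ),
      μ.Monic ∧ 1 ≤ μ.natDegree ∧ μ.natDegree ≤ C.f.degreeOf 1 ∧
      (∀ l, (μ.coeff l).natDegree ≤ (Bd.natDegree - 1) * j * (μ.natDegree - l)) ∧
      (∀ l n, l < μ.natDegree → |(((μ.coeff l).coeff n : ℤ) : ℝ)| ≤ B ^ (j * (μ.natDegree - l))) ∧
      ∀ (K : Type) [Field K] [CharZero K] (x y : K) (η : PowerSeries K),
        aeval ![x, y] C.f = 0 → Polynomial.aeval x Bd ≠ 0 → IsTay C.f x y η →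
        (μ.map (Polynomial.aeval x : Polynomial ℤ →ₐ[ℤ] K).toRingHom).eval
          ((g : K) ^ (A * j) * Polynomial.aeval x Bd ^ j * PowerSeries.coeff j η * y⁻¹) = 0 := by
  obtain ⟨g, A, hg, hcert⟩ := integral_cert C Bd G hB
  obtain ⟨B, hB1, hsize⟩ := size_cert C Bd G hB g A
  have i1 : (AlgebraicClosure.instAlgebra (FractionRing (Polynomial ℤ)) :
      Algebra ℤ (AlgebraicClosure (FractionRing (Polynomial ℤ)))) =
      Ring.toIntAlgebra (AlgebraicClosure (FractionRing (Polynomial ℤ))) := Subsingleton.elim _ _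
  have hgx : ∀ p : Polynomial ℤ, Polynomial.aeval gx p = algebraMap (Polynomial ℤ)
      (AlgebraicClosure (FractionRing (Polynomial ℤ))) p := by
    intro p
    unfold gx
    rw [Polynomial.aeval_algebraMap_apply, Polynomial.aeval_X_left_apply]
  have hφ : ((Polynomial.aeval gx : Polynomial ℤ →ₐ[ℤ]
      AlgebraicClosure (FractionRing (Polynomial ℤ))).toRingHom) = algebraMap (Polynomial ℤ)
      (AlgebraicClosure (FractionRing (Polynomial ℤ))) := RingHom.ext hgx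
  refine YI_core C Bd G hB gx gx_transcendental g A B hg hB1 ?_
  intro y η hy hη j hj
  rw [← i1] at hy
  obtain ⟨μ, hμ, hmap, hd1, hd2, hdeg⟩ := hcert y η hy hη j hj
  refine ⟨μ, hμ, hd1, hd2, hdeg, hsize y η hy hη j hj μ hμ hd2 hmap, ?_⟩
  have h1 := minpoly.aeval (FractionRing (Polynomial ℤ))
      ((g : AlgebraicClosure (FractionRing (Polynomial ℤ))) ^ (A * j) *
              Polynomial.aeval gx Bd ^ j * PowerSeries.coeff j η * y⁻¹)
  rw [← hmap, Polynomial.aeval_map_algebraMap] at h1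
  rw [← i1, hφ, Polynomial.eval_map]
  exact h1

end

end Pool.Agent.PC
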