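import Pool.Agent.Lib.MP_c95b3b_ag_PC.Defs
import Pool.Agent.Lib.MP_c95b3b_ag_PC.YA
import Pool.Agent.Lib.MP_c95b3b_ag_PC.YB
import Pool.Agent.Lib.MP_c95b3b_ag_PC.YI
import Pool.Agent.Lib.MP_c95b3b_ag_AL.NL

/-! Project PC (MP_c95b3b_ag), module YJ: bounds at the places. -/

namespace Pool.Agent.PC

open Pool.Agent.L3 Pool.Agent.AL Module MvPolynomial

namespace YJ

/-! ### Real inequalities -/

theorem geom_half (D : ℕ) : ∑ l ∈ Finset.range D, (1 / 2 : ℝ) ^ (D - l) = 1 - (1 / 2) ^ D := by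
  induction D with
  | zero => simp
  | succ D ih =>
    rw [Finset.sum_range_succ]
    have h1 : ∑ l ∈ Finset.range D, (1 / 2 : ℝ) ^ (D + 1 - l) =
        (1 / 2) * ∑ l ∈ Finset.range D, (1 / 2 : ℝ) ^ (D - l) := by
      rw [Finset.mul_sum]
      refine Finset.sum_congr rfl fun l hl => ?_
      have : D + 1 - l = (D - l) + 1 := by
        have := Finset.mem_range.1 hl
        omega
      rw [this, pow_succ]
      ring
    rw [h1, ih, Nat.add_sub_cancel_left, pow_succ]
    ring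

theorem le_two_mul {t Q : ℝ} {D : ℕ} (hQ : 0 ≤ Q)
    (h : t ^ D ≤ ∑ l ∈ Finset.range D, Q ^ (D - l) * t ^ l) : t ≤ 2 * Q := by
  by_contra hc
  push Not at hc
  have ht0 : 0 < t := lt_of_le_of_lt (by positivity) hc
  have h1 : ∑ l ∈ Finset.range D, Q ^ (D - l) * t ^ l ≤
      t ^ D * ∑ l ∈ Finset.range D, (1 / 2 : ℝ) ^ (D - l) := by
    rw [Finset.mul_sum]
    refine Finset.sum_le_sum fun l hl => ?_
    have hl' := (Finset.mem_range.1 hl).le
    have h2 : Q ^ (D - l) ≤ (t * (1 / 2)) ^ (D - l) :=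
      pow_le_pow_left₀ hQ (by linarith) _
    calc Q ^ (D - l) * t ^ l ≤ (t * (1 / 2)) ^ (D - l) * t ^ l :=
          mul_le_mul_of_nonneg_right h2 (by positivity)
      _ = t ^ D * (1 / 2 : ℝ) ^ (D - l) := by
          rw [mul_pow]
          have : t ^ D = t ^ (D - l) * t ^ l := by
            rw [← pow_add, Nat.sub_add_cancel hl']
          rw [this]
          ring
  rw [geom_half] at h1
  have h3 : 0 < t ^ D := by positivity
  have h4 : (0 : ℝ) < (1 / 2) ^ D := by positivity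
  nlinarith

/-- the ultrametric version -/
theorem le_of_max {t Q : ℝ} {D : ℕ} (hQ : 0 ≤ Q)
    (h : ∃ l < D, t ^ D ≤ Q ^ (D - l) * t ^ l) : t ≤ Q := by
  by_contra hc
  push Not at hc
  have ht0 : 0 < t := lt_of_le_of_lt hQ hc
  obtain ⟨l, hl, h1⟩ := h
  have h2 : t ^ D = t ^ (D - l) * t ^ l := by
    rw [← pow_add, Nat.sub_add_cancel hl.le]
  rw [h2] at h1
  have h3 := le_of_mul_le_mul_right h1 (by positivity)
  have h4 : Q ^ (D - l) < t ^ (D - l) := pow_lt_pow_left₀ hc hQ (by omega)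
  linarith

section
variable {K : Type} [Field K] {S : Subring K} {P : Places K S}

/-! ### Values of polynomials -/

theorem v_aeval_le (j : Fin P.m) (p : Polynomial ℤ) (x : K) {N : ℕ} (h : p.natDegree ≤ N) :
    P.v j (Polynomial.aeval x p) ≤ (max 1 (P.v j x)) ^ N := by
  rw [Polynomial.aeval_eq_sum_range' (Nat.lt_succ_of_le h)]
  have hM : (1 : ℝ) ≤ max 1 (P.v j x) := le_max_left _ _
  refine P.v_sum_le j _ _ (by positivity) fun n hn => ?_
  rw [zsmul_eq_mul, map_mul, map_pow]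
  calc P.v j (p.coeff n : K) * P.v j x ^ n ≤ 1 * (max 1 (P.v j x)) ^ n :=
        mul_le_mul (P.v_int j _) (pow_le_pow_left₀ ((P.v j).nonneg _) (le_max_right _ _) _)
          (by positivity) zero_le_one
    _ ≤ (max 1 (P.v j x)) ^ N := by
        rw [one_mul]
        exact pow_le_pow_right₀ hM (Nat.lt_succ_iff.1 (Finset.mem_range.1 hn))

theorem norm_aeval_le (i : Fin P.D) (p : Polynomial ℤ) (x : K) {N : ℕ} (h : p.natDegree ≤ N) :
    ‖P.σ i (Polynomial.aeval x p)‖ ≤
      (∑ n ∈ Finset.range (N + 1), |((p.coeff n : ℤ) : ℝ)|) * (max 1 ‖P.σ i x‖) ^ N := by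
  rw [Polynomial.aeval_eq_sum_range' (Nat.lt_succ_of_le h), map_sum, Finset.sum_mul]
  have hM : (1 : ℝ) ≤ max 1 ‖P.σ i x‖ := le_max_left _ _
  refine (norm_sum_le _ _).trans (Finset.sum_le_sum fun n hn => ?_)
  rw [zsmul_eq_mul, map_mul, map_pow, norm_mul, norm_pow, map_intCast, Complex.norm_intCast]
  refine mul_le_mul_of_nonneg_left ?_ (abs_nonneg _)
  exact (pow_le_pow_left₀ (norm_nonneg _) (le_max_right _ _) _).trans
    (pow_le_pow_right₀ hM (Nat.lt_succ_iff.1 (Finset.mem_range.1 hn)))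

theorem root_eq (μ : Polynomial (Polynomial ℤ)) (hμ : μ.Monic) (x z : K)
    (h : (μ.map (Polynomial.aeval x : Polynomial ℤ →ₐ[ℤ] K).toRingHom).eval z = 0) :
    z ^ μ.natDegree = -∑ l ∈ Finset.range μ.natDegree, Polynomial.aeval x (μ.coeff l) * z ^ l := by
  rw [Polynomial.eval_map, Polynomial.eval₂_eq_sum_range, Finset.sum_range_succ,
    hμ.coeff_natDegree, map_one, one_mul] at h
  rw [eq_neg_iff_add_eq_zero, add_comm]
  exact h

theorem root_inr (j : Fin P.m) (μ : Polynomial (Polynomial ℤ)) (hμ : μ.Monic)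
    (hD : 1 ≤ μ.natDegree) (N : ℕ) (hN : ∀ l, (μ.coeff l).natDegree ≤ N * (μ.natDegree - l))
    (x z : K) (h : (μ.map (Polynomial.aeval x : Polynomial ℤ →ₐ[ℤ] K).toRingHom).eval z = 0) :
    P.v j z ≤ (max 1 (P.v j x)) ^ N := by
  have hM : (1 : ℝ) ≤ max 1 (P.v j x) := le_max_left _ _
  have h1 := congrArg (P.v j) (root_eq μ hμ x z h)
  rw [map_pow, AbsoluteValue.map_neg] at h1
  have h0 := (P.v j).nonneg z
  refine le_of_max (D := μ.natDegree) (by positivity) ?_
  by_contra hc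
  push Not at hc
  have hne : (Finset.range μ.natDegree).Nonempty := ⟨0, Finset.mem_range.2 hD⟩
  obtain ⟨l, hl, hl2⟩ := Finset.exists_max_image (Finset.range μ.natDegree)
    (fun l => ((max 1 (P.v j x)) ^ N) ^ (μ.natDegree - l) * P.v j z ^ l) hne
  have h2 := hc l (Finset.mem_range.1 hl)
  have h3 : P.v j (∑ l ∈ Finset.range μ.natDegree, Polynomial.aeval x (μ.coeff l) * z ^ l) ≤
      ((max 1 (P.v j x)) ^ N) ^ (μ.natDegree - l) * P.v j z ^ l := by
    refine P.v_sum_le j _ _ (by positivity) fun n hn => ?_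
    refine le_trans ?_ (hl2 n hn)
    rw [map_mul, map_pow, ← pow_mul]
    exact mul_le_mul_of_nonneg_right (v_aeval_le j _ x (hN n)) (by positivity)
  linarith

theorem root_inl (i : Fin P.D) (μ : Polynomial (Polynomial ℤ)) (hμ : μ.Monic)
    (a k : ℕ) (B : ℝ) (hB : 1 ≤ B)
    (hN : ∀ l, (μ.coeff l).natDegree ≤ a * k * (μ.natDegree - l))
    (hc : ∀ l n, l < μ.natDegree →
      |(((μ.coeff l).coeff n : ℤ) : ℝ)| ≤ B ^ (k * (μ.natDegree - l)))
    (x z : K) (h : (μ.map (Polynomial.aeval x : Polynomial ℤ →ₐ[ℤ] K).toRingHom).eval z = 0) :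
    ‖P.σ i z‖ ≤ 2 * (Real.exp a * B * (max 1 ‖P.σ i x‖) ^ a) ^ k := by
  have hM : (1 : ℝ) ≤ max 1 ‖P.σ i x‖ := le_max_left _ _
  have h1 := congrArg (fun t => ‖P.σ i t‖) (root_eq μ hμ x z h)
  simp only [map_pow, norm_pow, map_neg, norm_neg] at h1
  refine le_two_mul (D := μ.natDegree) (by positivity) ?_
  rw [h1, map_sum]
  refine (norm_sum_le _ _).trans (Finset.sum_le_sum fun l hl => ?_)
  have hl' := Finset.mem_range.1 hl
  rw [map_mul, map_pow, norm_mul, norm_pow]
  refine mul_le_mul_of_nonneg_right ?_ (by positivity)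
  refine (norm_aeval_le i _ x (hN l)).trans ?_
  set E := μ.natDegree - l with hE
  have h2 : ∑ n ∈ Finset.range (a * k * E + 1), |(((μ.coeff l).coeff n : ℤ) : ℝ)| ≤
      ((a * k * E : ℕ) + 1) * B ^ (k * E) := by
    calc _ ≤ ∑ n ∈ Finset.range (a * k * E + 1), B ^ (k * E) :=
          Finset.sum_le_sum fun n _ => hc l n hl'
      _ = _ := by
          rw [Finset.sum_const, Finset.card_range, nsmul_eq_mul]
          push_cast
          ring
  have h3 : (((a * k * E : ℕ) : ℝ) + 1) ≤ Real.exp ((a * k * E : ℕ) : ℝ) := Real.add_one_le_exp _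
  have h4 : Real.exp ((a * k * E : ℕ) : ℝ) = (Real.exp a) ^ (k * E) := by
    rw [← Real.exp_nat_mul]
    congr 1
    push_cast
    ring
  calc _ ≤ (((a * k * E : ℕ) : ℝ) + 1) * B ^ (k * E) * (max 1 ‖P.σ i x‖) ^ (a * k * E) :=
        mul_le_mul_of_nonneg_right h2 (by positivity)
    _ ≤ (Real.exp a) ^ (k * E) * B ^ (k * E) * (max 1 ‖P.σ i x‖) ^ (a * k * E) := by
        rw [← h4]
        gcongr
    _ = _ := by
        rw [← pow_mul, mul_pow, mul_pow, ← pow_mul, mul_assoc a k E]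

/-! ### Comparison with the radius -/

theorem cmp_inr (j : Fin P.m) (p : Polynomial ℤ) (hp : 1 ≤ p.natDegree) (x : K) :
    min (P.v j (Polynomial.aeval x p)) (P.v j x) * (max 1 (P.v j x)) ^ (p.natDegree - 1) ≤
      ((P.v j (p.leadingCoeff : K)) ^ p.natDegree)⁻¹ * P.v j (Polynomial.aeval x p) := by
  have hch := P.charZero
  have hlc : p.leadingCoeff ≠ 0 := by
    rw [Polynomial.leadingCoeff_ne_zero]
    rintro rfl
    simp at hp
  set l : ℝ := P.v j (p.leadingCoeff : K) with hl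
  have hl0 : 0 < l := PL2.v_int_pos P j hlc
  have hl1 : l ≤ 1 := P.v_int j _
  set b := P.v j (Polynomial.aeval x p) with hb
  have hb0 : 0 ≤ b := (P.v j).nonneg _
  have hx0 : 0 ≤ P.v j x := (P.v j).nonneg _
  have hinv : 1 ≤ (l ^ p.natDegree)⁻¹ := (one_le_inv₀ (by positivity)).2 (pow_le_one₀ hl0.le hl1)
  rcases le_or_gt (P.v j x) 1 with h | h
  · rw [max_eq_left h, one_pow, mul_one]
    calc min b (P.v j x) ≤ b := min_le_left _ _
      _ ≤ (l ^ p.natDegree)⁻¹ * b := le_mul_of_one_le_left hb0 hinv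
  rw [max_eq_right h.le]
  rcases le_or_gt (l * P.v j x) 1 with h2 | h2
  · have h3 : (P.v j x) ^ (p.natDegree - 1) ≤ (l ^ p.natDegree)⁻¹ := by
      have h4 : P.v j x ≤ l⁻¹ := by
        rw [← one_div, le_div_iff₀ hl0, mul_comm]
        exact h2
      calc (P.v j x) ^ (p.natDegree - 1) ≤ (P.v j x) ^ p.natDegree :=
            pow_le_pow_right₀ h.le (Nat.sub_le _ _)
        _ ≤ (l⁻¹) ^ p.natDegree := pow_le_pow_left₀ hx0 h4 _
        _ = (l ^ p.natDegree)⁻¹ := inv_pow _ _
    calc min b (P.v j x) * (P.v j x) ^ (p.natDegree - 1) ≤ b * (l ^ p.natDegree)⁻¹ :=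
          mul_le_mul (min_le_left _ _) h3 (by positivity) hb0
      _ = _ := mul_comm _ _
  · have h3 : l * P.v j x ^ p.natDegree ≤ b := by
      by_contra hc
      push Not at hc
      have e1 : (p.leadingCoeff : K) * x ^ p.natDegree = Polynomial.aeval x p -
          ∑ n ∈ Finset.range p.natDegree, (p.coeff n : K) * x ^ n := by
        rw [Polynomial.aeval_eq_sum_range, Finset.sum_range_succ]
        simp only [zsmul_eq_mul]
        rw [Polynomial.leadingCoeff]
        ring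
      have e2 : P.v j (∑ n ∈ Finset.range p.natDegree, (p.coeff n : K) * x ^ n) ≤
          P.v j x ^ (p.natDegree - 1) := by
        refine P.v_sum_le j _ _ (by positivity) fun n hn => ?_
        rw [map_mul, map_pow]
        calc P.v j (p.coeff n : K) * P.v j x ^ n ≤ 1 * P.v j x ^ n :=
              mul_le_mul_of_nonneg_right (P.v_int j _) (by positivity)
          _ = P.v j x ^ n := one_mul _
          _ ≤ _ := pow_le_pow_right₀ h.le (by have := Finset.mem_range.1 hn; omega)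
      have e3 : P.v j x ^ (p.natDegree - 1) < l * P.v j x ^ p.natDegree := by
        have e4 : P.v j x ^ p.natDegree = P.v j x * P.v j x ^ (p.natDegree - 1) := by
          rw [← pow_succ']
          congr 1
          omega
        rw [e4, ← mul_assoc]
        have : 0 < P.v j x ^ (p.natDegree - 1) := by positivity
        nlinarith
      have e5 := congrArg (P.v j) e1
      rw [map_mul, map_pow] at e5
      have e6 : P.v j (Polynomial.aeval x p -
          ∑ n ∈ Finset.range p.natDegree, (p.coeff n : K) * x ^ n) ≤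
          max b (P.v j (∑ n ∈ Finset.range p.natDegree, (p.coeff n : K) * x ^ n)) := by
        rw [sub_eq_add_neg]
        refine (P.nonarch j _ _).trans ?_
        rw [AbsoluteValue.map_neg]
      rw [← e5] at e6
      have e7 := max_lt hc (e2.trans_lt e3)
      linarith
    have h4 : P.v j x ^ p.natDegree ≤ l⁻¹ * b := by
      rw [inv_mul_eq_div, le_div_iff₀ hl0]
      linarith
    calc min b (P.v j x) * (P.v j x) ^ (p.natDegree - 1)
        ≤ P.v j x * (P.v j x) ^ (p.natDegree - 1) :=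
          mul_le_mul_of_nonneg_right (min_le_right _ _) (by positivity)
      _ = P.v j x ^ p.natDegree := by
          rw [← pow_succ']
          congr 1
          omega
      _ ≤ l⁻¹ * b := h4
      _ ≤ (l ^ p.natDegree)⁻¹ * b := by
          refine mul_le_mul_of_nonneg_right ?_ hb0
          refine inv_anti₀ (by positivity) ?_
          calc l ^ p.natDegree ≤ l ^ 1 := pow_le_pow_of_le_one hl0.le hl1 hp
            _ = l := pow_one l

/-- the sum of the absolute values of the coefficients -/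
noncomputable def pl1 (p : Polynomial ℤ) : ℝ :=
  ∑ n ∈ Finset.range (p.natDegree + 1), |((p.coeff n : ℤ) : ℝ)|

theorem one_le_lead {p : Polynomial ℤ} (hp : 1 ≤ p.natDegree) :
    (1 : ℝ) ≤ |((p.leadingCoeff : ℤ) : ℝ)| := by
  have hlc : p.leadingCoeff ≠ 0 := by
    rw [Polynomial.leadingCoeff_ne_zero]
    rintro rfl
    simp at hp
  exact_mod_cast Int.one_le_abs hlc

theorem pl1_eq (p : Polynomial ℤ) : pl1 p = ∑ n ∈ Finset.range p.natDegree,
    |((p.coeff n : ℤ) : ℝ)| + |((p.leadingCoeff : ℤ) : ℝ)| := by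
  rw [pl1, Finset.sum_range_succ]
  rfl

theorem one_le_pl1 {p : Polynomial ℤ} (hp : 1 ≤ p.natDegree) : 1 ≤ pl1 p := by
  rw [pl1_eq]
  have h1 : 0 ≤ ∑ n ∈ Finset.range p.natDegree, |((p.coeff n : ℤ) : ℝ)| :=
    Finset.sum_nonneg fun _ _ => abs_nonneg _
  have := one_le_lead hp
  linarith

theorem cmp_inl (i : Fin P.D) (p : Polynomial ℤ) (hp : 1 ≤ p.natDegree) (x : K) :
    min ‖P.σ i (Polynomial.aeval x p)‖ ‖P.σ i x‖ * (max 1 ‖P.σ i x‖) ^ (p.natDegree - 1) ≤
      (2 * pl1 p) ^ p.natDegree * ‖P.σ i (Polynomial.aeval x p)‖ := by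
  have hl1 := one_le_pl1 hp
  set b := ‖P.σ i (Polynomial.aeval x p)‖ with hb
  set r := ‖P.σ i x‖ with hr
  have hb0 : 0 ≤ b := norm_nonneg _
  have hr0 : 0 ≤ r := norm_nonneg _
  have hC : 2 * pl1 p ≤ (2 * pl1 p) ^ p.natDegree := by
    calc 2 * pl1 p = (2 * pl1 p) ^ 1 := (pow_one _).symm
      _ ≤ _ := pow_le_pow_right₀ (by linarith) hp
  rcases le_or_gt r 1 with h | h
  · rw [max_eq_left h, one_pow, mul_one]
    calc min b r ≤ b := min_le_left _ _
      _ ≤ _ := le_mul_of_one_le_left hb0 (by linarith)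
  rw [max_eq_right h.le]
  rcases le_or_gt r (2 * pl1 p) with h2 | h2
  · calc min b r * r ^ (p.natDegree - 1) ≤ b * (2 * pl1 p) ^ p.natDegree := by
          refine mul_le_mul (min_le_left _ _) ?_ (by positivity) hb0
          calc r ^ (p.natDegree - 1) ≤ r ^ p.natDegree :=
                pow_le_pow_right₀ h.le (Nat.sub_le _ _)
            _ ≤ _ := pow_le_pow_left₀ hr0 h2 _
      _ = _ := mul_comm _ _
  · have h3 : r ^ p.natDegree = r * r ^ (p.natDegree - 1) := by
      rw [← pow_succ']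
      congr 1
      omega
    have e1 : (p.leadingCoeff : K) * x ^ p.natDegree = Polynomial.aeval x p -
        ∑ n ∈ Finset.range p.natDegree, (p.coeff n : K) * x ^ n := by
      rw [Polynomial.aeval_eq_sum_range, Finset.sum_range_succ]
      simp only [zsmul_eq_mul]
      rw [Polynomial.leadingCoeff]
      ring
    have e2 : ‖P.σ i (∑ n ∈ Finset.range p.natDegree, (p.coeff n : K) * x ^ n)‖ ≤
        (∑ n ∈ Finset.range p.natDegree, |((p.coeff n : ℤ) : ℝ)|) * r ^ (p.natDegree - 1) := by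
      rw [map_sum, Finset.sum_mul]
      refine (norm_sum_le _ _).trans (Finset.sum_le_sum fun n hn => ?_)
      rw [map_mul, map_pow, norm_mul, norm_pow, map_intCast, Complex.norm_intCast]
      refine mul_le_mul_of_nonneg_left ?_ (abs_nonneg _)
      exact pow_le_pow_right₀ h.le (by have := Finset.mem_range.1 hn; omega)
    have e3 : |((p.leadingCoeff : ℤ) : ℝ)| * r ^ p.natDegree ≤
        b + (∑ n ∈ Finset.range p.natDegree, |((p.coeff n : ℤ) : ℝ)|) *
          r ^ (p.natDegree - 1) := by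
      have e4 := congrArg (fun t => ‖P.σ i t‖) e1
      simp only [map_mul, map_pow, norm_mul, norm_pow, map_intCast, Complex.norm_intCast,
        map_sub] at e4
      rw [e4]
      exact (norm_sub_le _ _).trans (by linarith)
    have h5 := one_le_lead hp
    have h6 : ∑ n ∈ Finset.range p.natDegree, |((p.coeff n : ℤ) : ℝ)| ≤ pl1 p := by
      rw [pl1_eq]
      linarith
    have h7 : 0 < r ^ (p.natDegree - 1) := by positivity
    have h8 : r ^ p.natDegree ≤ 2 * b := by
      have e5 : r ^ p.natDegree ≤ b + pl1 p * r ^ (p.natDegree - 1) := by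
        calc r ^ p.natDegree ≤ |((p.leadingCoeff : ℤ) : ℝ)| * r ^ p.natDegree :=
              le_mul_of_one_le_left (by positivity) h5
          _ ≤ _ := e3
          _ ≤ _ := by
              have := mul_le_mul_of_nonneg_right h6 h7.le
              linarith
      have e6 : pl1 p * r ^ (p.natDegree - 1) ≤ r ^ p.natDegree / 2 := by
        rw [h3]
        nlinarith
      linarith
    calc min b r * r ^ (p.natDegree - 1) ≤ r * r ^ (p.natDegree - 1) :=
          mul_le_mul_of_nonneg_right (min_le_right _ _) h7.le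
      _ = r ^ p.natDegree := h3.symm
      _ ≤ 2 * b := h8
      _ ≤ _ := mul_le_mul_of_nonneg_right (by linarith) hb0

/-- the last step -/
theorem fin_bound {c y b r M' C1 C2 γ : ℝ} {k : ℕ} (hy : 0 ≤ y) (hb : 0 < b) (hr : 0 < r)
    (hM : 0 ≤ M') (hC1 : 0 ≤ C1) (hγ : 0 < γ) (h1 : γ ^ k * b ^ k * c ≤ y * (C1 * M') ^ k)
    (hcmp : r * M' ≤ C2 * b) : c ≤ y * (C1 * C2 / γ / r) ^ k := by
  have h2 : c ≤ y * (C1 * M' / (γ * b)) ^ k := by
    rw [div_pow, mul_div_assoc', le_div_iff₀ (by positivity), mul_pow]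
    linarith
  refine h2.trans (mul_le_mul_of_nonneg_left ?_ hy)
  refine pow_le_pow_left₀ (by positivity) ?_ k
  rw [div_div, div_le_div_iff₀ (by positivity) (by positivity)]
  have h3 := mul_le_mul_of_nonneg_left hcmp (mul_nonneg hC1 hγ.le)
  linarith

theorem abs_log_min_le {p q : ℝ} : |Real.log (min p q)| ≤ |Real.log p| + |Real.log q| := by
  rcases min_choice p q with h | h
  · rw [h]
    exact le_add_of_nonneg_right (abs_nonneg _)
  · rw [h]
    exact le_add_of_nonneg_left (abs_nonneg _)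

theorem log_max_one_le {r : ℝ} : Real.log (max 1 r) ≤ |Real.log r| := by
  rcases le_or_gt r 1 with h | h
  · rw [max_eq_left h, Real.log_one]
    exact abs_nonneg _
  · rw [max_eq_right h.le]
    exact le_abs_self _

theorem lg_aeval_le (w : P.Pl) (p : Polynomial ℤ) (hp : 1 ≤ p.natDegree) (x : K)
    (h0 : Polynomial.aeval x p ≠ 0) :
    P.lg w (Polynomial.aeval x p) ≤ p.natDegree * |P.lg w x| + Real.log (pl1 p) * P.arch w := by
  have hl1 := one_le_pl1 hp
  have hb := NL.absP_pos w h0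
  rcases w with i | j
  · have h1 := norm_aeval_le i p x le_rfl
    have hb' : 0 < ‖P.σ i (Polynomial.aeval x p)‖ := hb
    rw [P.lg_inl, P.lg_inl, P.arch_inl, mul_one]
    have hM : (1 : ℝ) ≤ max 1 ‖P.σ i x‖ := le_max_left _ _
    have h2 := Real.log_le_log hb' h1
    have h3 : Real.log ((∑ n ∈ Finset.range (p.natDegree + 1), |((p.coeff n : ℤ) : ℝ)|) *
        (max 1 ‖P.σ i x‖) ^ p.natDegree) = Real.log (pl1 p) +
          p.natDegree * Real.log (max 1 ‖P.σ i x‖) := by
      rw [Real.log_mul (by change pl1 p ≠ 0; linarith) (by positivity), Real.log_pow]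
      rfl
    rw [h3] at h2
    have h4 := mul_le_mul_of_nonneg_left (log_max_one_le (r := ‖P.σ i x‖))
      (Nat.cast_nonneg (α := ℝ) p.natDegree)
    linarith
  · have h1 := v_aeval_le j p x le_rfl
    have hb' : 0 < P.v j (Polynomial.aeval x p) := hb
    rw [P.lg_inr, P.lg_inr, P.arch_inr, mul_zero, add_zero]
    have hM : (1 : ℝ) ≤ max 1 (P.v j x) := le_max_left _ _
    have h2 := Real.log_le_log hb' h1
    rw [Real.log_pow] at h2
    have h4 := mul_le_mul_of_nonneg_left (log_max_one_le (r := P.v j x))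
      (Nat.cast_nonneg (α := ℝ) p.natDegree)
    linarith

end

end YJ

section
variable {m : ℕ}

theorem tay_places (C : Crv m) (Bd G : Polynomial ℤ) (hB : IsBad C Bd G) :
    ∃ A : ℝ, 0 ≤ A ∧ ∀ (K : Type) [Field K] (S : Subring K) (P : Places K S),
      ∃ cw : P.Pl → ℝ, (∀ w, 0 ≤ cw w) ∧ P.avg cw ≤ A ∧ ∀ (x y : K) (η : PowerSeries K),
        aeval ![x, y] C.f = 0 → Polynomial.aeval x Bd ≠ 0 → IsTay C.f x y η → ∀ w j,
          absP w (PowerSeries.coeff j η) ≤ absP w y * (Real.exp (cw w) / rad Bd w x) ^ j := by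
  obtain ⟨g, A0, B, hg, hB1, hcert⟩ := tay_cert C Bd G hB
  have hdeg := hB.deg
  have hl1 := YJ.one_le_pl1 hdeg
  have hlc : Bd.leadingCoeff ≠ 0 := by
    rw [Polynomial.leadingCoeff_ne_zero]
    rintro rfl
    simp at hdeg
  set a : ℕ := Bd.natDegree with ha
  set C1 : ℝ := 2 * (Real.exp ((a - 1 : ℕ) : ℝ) * B) with hC1
  set C2 : ℝ := (2 * YJ.pl1 Bd) ^ a with hC2
  have hC1' : 1 ≤ C1 := by
    have h1 : (1 : ℝ) ≤ Real.exp ((a - 1 : ℕ) : ℝ) := Real.one_le_exp (Nat.cast_nonneg _)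
    have h2 : 1 ≤ Real.exp ((a - 1 : ℕ) : ℝ) * B := one_le_mul_of_one_le_of_one_le h1 hB1
    rw [hC1]
    linarith
  have hC2' : 1 ≤ C2 := one_le_pow₀ (by linarith)
  have hlg : 0 ≤ Real.log |((g : ℤ) : ℝ)| :=
    Real.log_nonneg (by exact_mod_cast Int.one_le_abs hg)
  have hll : 0 ≤ Real.log |((Bd.leadingCoeff : ℤ) : ℝ)| :=
    Real.log_nonneg (by exact_mod_cast Int.one_le_abs hlc)
  have hlC : 0 ≤ Real.log (C1 * C2) := Real.log_nonneg (one_le_mul_of_one_le_of_one_le hC1' hC2')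
  refine ⟨Real.log (C1 * C2) + A0 * Real.log |((g : ℤ) : ℝ)| +
    a * Real.log |((Bd.leadingCoeff : ℤ) : ℝ)|, by positivity, ?_⟩
  intro K _ S P
  have hch := P.charZero
  refine ⟨Sum.elim (fun _ => Real.log (C1 * C2)) (fun j => A0 * -Real.log (P.v j (g : K)) +
    a * -Real.log (P.v j (Bd.leadingCoeff : K))), ?_, ?_, ?_⟩
  · rintro (i | j)
    · exact hlC
    · have h1 := Real.log_nonpos ((P.v j).nonneg _) (P.v_int j g)
      have h2 := Real.log_nonpos ((P.v j).nonneg _) (P.v_int j Bd.leadingCoeff)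
      exact add_nonneg (mul_nonneg (Nat.cast_nonneg _) (by linarith))
        (mul_nonneg (Nat.cast_nonneg _) (by linarith))
  · rw [Places.avg, div_le_iff₀ P.D_cast_pos, Fintype.sum_sum_type]
    simp only [Sum.elim_inl, Sum.elim_inr, Finset.sum_const, Finset.card_univ, Fintype.card_fin,
      nsmul_eq_mul, Finset.sum_add_distrib, ← Finset.mul_sum]
    have h1 := mul_le_mul_of_nonneg_left (PL2.sum_int P g hg) (Nat.cast_nonneg (α := ℝ) A0)
    have h2 := mul_le_mul_of_nonneg_left (PL2.sum_int P _ hlc) (Nat.cast_nonneg (α := ℝ) a)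
    nlinarith [h1, h2]
  · intro x y η hxy hx hη w j
    obtain ⟨-, hx0, hyy⟩ := bad_ne hB x hx
    have hy0 := (hyy y hxy).1
    have hr : 0 < rad (P := P) Bd w x := lt_min (NL.absP_pos w hx) (NL.absP_pos w hx0)
    rcases Nat.eq_zero_or_pos j with rfl | hj
    · rw [pow_zero, mul_one, PowerSeries.coeff_zero_eq_constantCoeff_apply, hη.const]
    obtain ⟨μ, hμ, hμ1, -, hμ2, hμ3, hμ4⟩ := hcert j hj
    have hz := hμ4 K x y η hxy hx hη
    rcases w with i | k
    · have h1 := YJ.root_inl (P := P) i μ hμ (a - 1) j B hB1 hμ2 hμ3 x _ hz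
      have h2 := YJ.cmp_inl i Bd hdeg x
      have hb : 0 < ‖P.σ i (Polynomial.aeval x Bd)‖ := NL.absP_pos (P := P) (.inl i) hx
      have hy : 0 < ‖P.σ i y‖ := NL.absP_pos (P := P) (.inl i) hy0
      have hgn : ‖P.σ i (g : K)‖ = |((g : ℤ) : ℝ)| := by
        rw [map_intCast, Complex.norm_intCast]
      have hg1 : (1 : ℝ) ≤ |((g : ℤ) : ℝ)| := by exact_mod_cast Int.one_le_abs hg
      simp only [map_mul, map_pow, map_inv₀, norm_mul, norm_pow, norm_inv, hgn] at h1
      change ‖P.σ i (PowerSeries.coeff j η)‖ ≤ ‖P.σ i y‖ * (Real.exp (Real.log (C1 * C2)) /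
        min ‖P.σ i (Polynomial.aeval x Bd)‖ ‖P.σ i x‖) ^ j
      rw [Real.exp_log (by positivity)]
      have hM : (1 : ℝ) ≤ max 1 ‖P.σ i x‖ := le_max_left _ _
      have key := YJ.fin_bound (c := ‖P.σ i (PowerSeries.coeff j η)‖) (y := ‖P.σ i y‖)
        (b := ‖P.σ i (Polynomial.aeval x Bd)‖)
        (r := min ‖P.σ i (Polynomial.aeval x Bd)‖ ‖P.σ i x‖)
        (M' := (max 1 ‖P.σ i x‖) ^ (a - 1)) (C1 := C1) (C2 := C2) (γ := 1) (k := j) hy.le hb hr
        (by positivity) (by linarith) one_pos ?_ h2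
      · rwa [div_one] at key
      · rw [one_pow, one_mul]
        have h3 : ‖P.σ i (Polynomial.aeval x Bd)‖ ^ j * ‖P.σ i (PowerSeries.coeff j η)‖ ≤
            |((g : ℤ) : ℝ)| ^ (A0 * j) * ‖P.σ i (Polynomial.aeval x Bd)‖ ^ j *
              ‖P.σ i (PowerSeries.coeff j η)‖ := by
          rw [mul_assoc]
          exact le_mul_of_one_le_left (by positivity) (one_le_pow₀ hg1)
        have h4 : |((g : ℤ) : ℝ)| ^ (A0 * j) * ‖P.σ i (Polynomial.aeval x Bd)‖ ^ j *
            ‖P.σ i (PowerSeries.coeff j η)‖ ≤ ‖P.σ i y‖ * (2 * (Real.exp ((a - 1 : ℕ) : ℝ) * B *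
              (max 1 ‖P.σ i x‖) ^ (a - 1)) ^ j) := by
          rw [← div_eq_mul_inv, div_le_iff₀ hy] at h1
          linarith
        refine h3.trans (h4.trans (mul_le_mul_of_nonneg_left ?_ hy.le))
        rw [hC1]
        have h5 : (2 : ℝ) ≤ 2 ^ j := by
          calc (2 : ℝ) = 2 ^ 1 := (pow_one 2).symm
            _ ≤ 2 ^ j := pow_le_pow_right₀ one_le_two hj
        have h6 : (2 * (Real.exp ((a - 1 : ℕ) : ℝ) * B) * (max 1 ‖P.σ i x‖) ^ (a - 1)) ^ j =
            2 ^ j * (Real.exp ((a - 1 : ℕ) : ℝ) * B * (max 1 ‖P.σ i x‖) ^ (a - 1)) ^ j := by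
          rw [← mul_pow]
          congr 1
          ring
        rw [h6]
        exact mul_le_mul_of_nonneg_right h5 (by positivity)
    · have h1 := YJ.root_inr (P := P) k μ hμ hμ1 ((a - 1) * j) hμ2 x _ hz
      have h2 := YJ.cmp_inr k Bd hdeg x
      have hb : 0 < P.v k (Polynomial.aeval x Bd) := (P.v k).pos hx
      have hy : 0 < P.v k y := (P.v k).pos hy0
      have hgp : 0 < P.v k (g : K) := PL2.v_int_pos P k hg
      have hlp : 0 < P.v k (Bd.leadingCoeff : K) := PL2.v_int_pos P k hlc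
      simp only [map_mul, map_pow, map_inv₀] at h1
      change P.v k (PowerSeries.coeff j η) ≤ P.v k y * (Real.exp
        (A0 * -Real.log (P.v k (g : K)) + a * -Real.log (P.v k (Bd.leadingCoeff : K))) /
        min (P.v k (Polynomial.aeval x Bd)) (P.v k x)) ^ j
      have hexp : Real.exp (A0 * -Real.log (P.v k (g : K)) +
          a * -Real.log (P.v k (Bd.leadingCoeff : K))) =
          1 * ((P.v k (Bd.leadingCoeff : K)) ^ a)⁻¹ / (P.v k (g : K)) ^ A0 := by
        rw [Real.exp_add, Real.exp_nat_mul, Real.exp_nat_mul, Real.exp_neg, Real.exp_neg,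
          Real.exp_log hgp, Real.exp_log hlp, inv_pow, inv_pow, one_mul, div_eq_mul_inv, mul_comm]
      rw [hexp]
      have hM : (1 : ℝ) ≤ max 1 (P.v k x) := le_max_left _ _
      refine YJ.fin_bound (M' := (max 1 (P.v k x)) ^ (a - 1))
        (b := P.v k (Polynomial.aeval x Bd)) hy.le hb hr (by positivity) zero_le_one
        (by positivity) ?_ h2
      rw [← div_eq_mul_inv, div_le_iff₀ hy] at h1
      rw [one_mul, ← pow_mul, ← pow_mul]
      linarith

/-- the radius is not too small -/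
theorem avg_rad (C : Crv m) (Bd G : Polynomial ℤ) (hB : IsBad C Bd G) :
    ∃ A : ℝ, 0 ≤ A ∧ ∀ (K : Type) [Field K] (S : Subring K) (P : Places K S) (x : K),
      x ∈ S → x⁻¹ ∈ S → (Polynomial.aeval x Bd)⁻¹ ∈ S → Polynomial.aeval x Bd ≠ 0 →
      (∀ w, 0 < rad (P := P) Bd w x) ∧
      P.avg (fun w => |Real.log (rad Bd w x)|) ≤ A * (1 + P.avg (fun w => |P.lg w x|)) := by
  have hdeg := hB.deg
  have hl1 := YJ.one_le_pl1 hdeg
  have hlog : 0 ≤ Real.log (YJ.pl1 Bd) := Real.log_nonneg hl1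
  refine ⟨2 * Bd.natDegree + 2 * Real.log (YJ.pl1 Bd) + 1, by positivity, ?_⟩
  intro K _ S P x hx1 hx2 hb2 hb0
  have hch := P.charZero
  obtain ⟨-, hx0, -⟩ := bad_ne hB x hb0
  have hb1 : Polynomial.aeval x Bd ∈ S := by
    rw [Polynomial.aeval_eq_sum_range]
    refine S.sum_mem fun n _ => ?_
    rw [zsmul_eq_mul]
    exact S.mul_mem (intCast_mem S _) (S.pow_mem hx1 n)
  refine ⟨fun w => lt_min (NL.absP_pos w hb0) (NL.absP_pos w hx0), ?_⟩
  have h1 : ∀ w : P.Pl, |Real.log (rad Bd w x)| ≤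
      2 * (Bd.natDegree * |P.lg w x| + Real.log (YJ.pl1 Bd) * P.arch w) +
        |P.lg w x| - P.lg w (Polynomial.aeval x Bd) := by
    intro w
    have h2 : |Real.log (rad Bd w x)| ≤ |P.lg w (Polynomial.aeval x Bd)| + |P.lg w x| :=
      YJ.abs_log_min_le
    have h3 := YJ.lg_aeval_le w Bd hdeg x hb0
    have h4 : 0 ≤ Bd.natDegree * |P.lg w x| + Real.log (YJ.pl1 Bd) * P.arch w :=
      add_nonneg (by positivity) (mul_nonneg hlog (P.arch_nonneg w))
    have h5 : |P.lg w (Polynomial.aeval x Bd)| ≤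
        2 * (Bd.natDegree * |P.lg w x| + Real.log (YJ.pl1 Bd) * P.arch w) -
          P.lg w (Polynomial.aeval x Bd) := by
      rw [abs_le]
      constructor <;> linarith
    linarith
  refine (P.avg_mono h1).trans ?_
  have h6 : P.avg (fun w => 2 * (Bd.natDegree * |P.lg w x| +
      Real.log (YJ.pl1 Bd) * P.arch w) + |P.lg w x| - P.lg w (Polynomial.aeval x Bd)) =
      2 * (Bd.natDegree * P.avg (fun w => |P.lg w x|) + Real.log (YJ.pl1 Bd)) +
        P.avg (fun w => |P.lg w x|) := by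
    rw [P.avg_sub, P.avg_lg_unit hb0 hb1 hb2, sub_zero, P.avg_add, P.avg_mul, P.avg_add,
      P.avg_mul, P.avg_const_arch]
  rw [h6]
  have h7 : 0 ≤ P.avg (fun w => |P.lg w x|) := P.avg_nonneg fun _ => abs_nonneg _
  have h8 : 0 ≤ Real.log (YJ.pl1 Bd) * P.avg (fun w => |P.lg w x|) := mul_nonneg hlog h7
  have h9 : (0 : ℝ) ≤ Bd.natDegree := Nat.cast_nonneg _
  nlinarith

end

end Pool.Agent.PC
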