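import Pool.Agent.Lib.MP_c95b3b_ag_PC.DefsS
import Pool.Agent.Lib.MP_c95b3b_ag_PC.YA
import Pool.Agent.Lib.MP_c95b3b_ag_PC.YB
import Pool.Agent.Lib.MP_c95b3b_ag_PC.YJ
import Pool.Agent.Lib.MP_c95b3b_ag_PC.SE
import Pool.Agent.Lib.MP_c95b3b_ag_PC.SF
import Pool.Agent.Lib.MP_c95b3b_ag_PC.DE
import Pool.Agent.Lib.MP_c95b3b_ag_AL.BC
import Pool.Agent.Lib.MP_c95b3b_ag_AL.BI
import Pool.Agent.Lib.MP_c95b3b_ag_AL.SB

/-! Project PC (MP_c95b3b_ag), module SG: (STAR). -/

namespace Pool.Agent.PC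

open Pool.Agent.L3 Pool.Agent.AL Module MvPolynomial

namespace SG

open Pool.Agent.AL.SB (G_zero eta G_eta)

theorem core {m : ℕ} {ι : Type} [Fintype ι] [DecidableEq ι] {q : ℕ} (C : ι → Crv m)
    (Bd : ι → Polynomial ℤ) (blk : ι → Fin (q + 1)) (I : Finset ι) {F : Type} [Field F]
    [CharZero F] (U : ι → F × F) (g : ι → MvPolynomial ι ℤ)
    (hrel : IsRel I blk (fun i => (U i).1) g) (mm : Fin (q + 1) → ℕ)
    (a : ∀ j, Fin (mm j) → {l : ι // l ∉ I ∧ blk l = j} → F)
    (ha1 : ∀ j k l, a j k l ∈ Subring.closure (Set.range fun i => (U i).1))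
    (ha2 : ∀ j (v : {l : ι // l ∉ I ∧ blk l = j} → F),
      ∃ x : Fin (mm j) → F, ∀ l, v l = ∑ k, x k * a j k l)
    {S : Subring F} (P : Places F S) (hU : ∀ i, UC (C i) S (U i))
    (hder : ∀ i, aeval ![(U i).1, (U i).2] (pderiv 1 (C i).f) ≠ 0)
    (η : ι → PowerSeries F) (hη : ∀ i, IsTay (C i).f (U i).1 (U i).2 (η i))
    (hηS : ∀ i j, PowerSeries.coeff j (η i) ∈ S)
    (hX : ∀ l, l ∉ I → (aeval (fun i => (U i).1) (pderiv l (g l)))⁻¹ ∈ S)
    (σ : ∀ j, Fin (mm j) → P.Pl → ℝ)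
    (hσ : ∀ j k w, ∃ η : ι → F, (∀ l : {l : ι // l ∉ I ∧ blk l = j},
        ∑ i, aeval (fun i => (U i).1) (pderiv i (g l)) * η i = a j k l) ∧
      ∀ i, absP w (η i) ≤ Real.exp (σ j k w) * rad (Bd i) w (U i).1)
    (Ξ : ι → MvPowerSeries ι F) (hΞ : IsBranch I (fun i => (U i).1) g Ξ)
    (hS : ∀ i γ, MvPowerSeries.coeff γ (Ξ i) ∈ S)
    (cw : P.Pl → ℝ) (hcw : ∀ w, 0 ≤ cw w) (hrad : ∀ w i, 0 < rad (P := P) (Bd i) w (U i).1)
    (hc : ∀ i w j, absP w (PowerSeries.coeff j (η i)) ≤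
      absP w (U i).2 * (Real.exp (cw w) / rad (Bd i) w (U i).1) ^ j)
    (R : P.Pl → Fin (q + 1) → ℝ)
    (hR : ∀ (w : P.Pl) (ν : Nm F (kap w)), (∀ x, ν.N x = ENNReal.ofReal (absP w x)) → ∀ i,
      psN ν (fun i => ENNReal.ofReal (Real.exp (-(R w (blk i)))))
        (Ξ i - MvPowerSeries.C (U i).1) ≤
        ENNReal.ofReal (dl cw (Fintype.card (Σ j, Fin (mm j))) w * rad (Bd i) w (U i).1))
    (H : ι → ℕ) (hH : ∀ i, 0 < H i) (T₀ : Finset (ι → ℤ × ℤ)) (q₀ : (ι → ℤ × ℤ) → ℤ)
    (N : MvPolynomial ι ℤ) (hN : N ≠ 0) (hdvd : DvdC C T₀ q₀ N) (E n : ℝ)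
    (b L : P.Pl → ℝ)
    (hb : ∀ w, ∃ (T : Finset (ι → ℤ × ℤ)) (q : (ι → ℤ × ℤ) → F), SameC C T₀ q₀ T q ∧
      (∀ t ∈ T, ∑ i, (|((t i).1 : ℝ)| + |((t i).2 : ℝ)|) ≤ E) ∧ Real.log T.card ≤ n ∧
      (∀ t ∈ T, absP w (q t) ≤ Real.exp (L w)) ∧
      ∀ t ∈ T, ∑ i, (((t i).1 : ℝ) * P.lg w (U i).1 + ((t i).2 : ℝ) * P.lg w (U i).2) ≤ b w) :
    ∃ (γ : ι →₀ ℕ) (β : (Σ j, Fin (mm j)) →₀ ℕ), (∀ i, i ∉ I → γ i = 0) ∧
      (∃ α : ι →₀ ℕ, aeval Ξ (hs α N) ≠ 0 ∧
        ∀ γ', wt H γ' < wt H γ → MvPowerSeries.coeff γ' (aeval Ξ (hs α N)) = 0) ∧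
      (∀ j, ∑ k with Sigma.fst k = j, β k ≤ ∑ i with blk i = j, N.degreeOf i) ∧
      0 ≤ P.avg b + P.avg L + ∑ i, (γ i : ℝ) * P.avg (fun w => R w (blk i)) +
        ∑ k : (Σ j, Fin (mm j)), (β k : ℝ) * (P.avg (σ k.1 k.2) + P.avg cw +
          Real.log (8 * (Fintype.card (Σ j, Fin (mm j)) + 1))) +
        (n + E * Real.log 2) := by
  have hclos : Subring.closure (Set.range fun i => (U i).1) ≤ S := by
    rw [Subring.closure_le]
    rintro x ⟨i, rfl⟩
    exact (hU i).mem1
  refine value_boundC P C Bd blk I U g Ξ hU hder η hη hηS hrel hΞ hS cw hcw hrad hc R hR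
    (fun k : Σ j, Fin (mm j) => k.1) (eta blk I (fun i => (U i).1) g mm a) ?_ ?_ ?_
    (fun k => σ k.1 k.2) ?_ H hH T₀ q₀ N hN hdvd E n b L hb
  · intro k i
    unfold eta
    split_ifs with h
    · exact S.mul_mem (hclos (ha1 _ _ _)) (hX i h.1)
    · exact S.zero_mem
  · intro k i hi
    unfold eta
    rw [dif_neg (fun h => hi h.2)]
  · intro v
    have h1 : ∀ j, ∃ x : Fin (mm j) → F, ∀ l : {l : ι // l ∉ I ∧ blk l = j},
        ∑ i, aeval (fun i => (U i).1) (pderiv i (g l)) * v i = ∑ k, x k * a j k l := fun j =>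
      ha2 j (fun l => ∑ i, aeval (fun i => (U i).1) (pderiv i (g l)) * v i)
    choose x hx using h1
    refine ⟨fun k => x k.1 k.2, ?_⟩
    intro l hl
    have h2 : ∑ i, aeval (fun i => (U i).1) (pderiv i (g l)) * (v i - ∑ k : (Σ j, Fin (mm j)),
        x k.1 k.2 * eta blk I (fun i => (U i).1) g mm a k i) =
        ∑ i, aeval (fun i => (U i).1) (pderiv i (g l)) * v i - ∑ k : (Σ j, Fin (mm j)),
          x k.1 k.2 * ∑ i, aeval (fun i => (U i).1) (pderiv i (g l)) *
            eta blk I (fun i => (U i).1) g mm a k i := by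
      simp only [mul_sub, Finset.sum_sub_distrib, Finset.mul_sum]
      congr 1
      rw [Finset.sum_comm]
      refine Finset.sum_congr rfl fun k _ => Finset.sum_congr rfl fun i _ => ?_
      ring
    rw [h2]
    simp only [G_eta hrel a _ l hl]
    rw [Fintype.sum_sigma, Finset.sum_eq_single (blk l)]
    · have h3 := hx (blk l) ⟨l, hl, rfl⟩
      simp only [dite_true]
      rw [h3]
      exact sub_self _
    · intro j _ hj
      apply Finset.sum_eq_zero
      intro k _
      rw [dif_neg (Ne.symm hj), mul_zero]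
    · intro h
      exact absurd (Finset.mem_univ _) h
  · rintro ⟨j, k⟩ w
    obtain ⟨η', hη1, hη2⟩ := hσ j k w
    refine ⟨fun i => if blk i = j then η' i else 0, ?_, ?_⟩
    · intro l hl
      have h2 : ∑ i, aeval (fun i => (U i).1) (pderiv i (g l)) *
          ((if blk i = j then η' i else 0) - eta blk I (fun i => (U i).1) g mm a ⟨j, k⟩ i) =
          ∑ i, aeval (fun i => (U i).1) (pderiv i (g l)) * (if blk i = j then η' i else 0) -
            ∑ i, aeval (fun i => (U i).1) (pderiv i (g l)) *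
              eta blk I (fun i => (U i).1) g mm a ⟨j, k⟩ i := by
        simp only [mul_sub, Finset.sum_sub_distrib]
      rw [h2, G_eta hrel a _ l hl]
      by_cases hj : blk l = j
      · rw [dif_pos hj]
        have h3 := hη1 ⟨l, hl, hj⟩
        rw [← h3, sub_eq_zero]
        apply Finset.sum_congr rfl
        intro i _
        by_cases hi : blk i = j
        · rw [if_pos hi]
        · have hil : i ≠ l := by
            rintro rfl
            exact hi hj
          rw [G_zero hrel hl hil (Or.inr (by rw [hj]; exact hi)), zero_mul, zero_mul]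
      · rw [dif_neg hj, sub_zero]
        apply Finset.sum_eq_zero
        intro i _
        by_cases hi : blk i = j
        · have hil : i ≠ l := by
            rintro rfl
            exact hj hi
          rw [G_zero hrel hl hil (Or.inr (by rw [hi]; exact Ne.symm hj)), zero_mul]
        · rw [if_neg hi, mul_zero]
    · intro i
      by_cases hi : blk i = j
      · simp only [if_pos hi]
        exact hη2 i
      · simp only [if_neg hi]
        have h0 : absP w (0 : F) = 0 := by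
          rcases w with w | w
          · simp [absP]
          · simp [absP]
        rw [h0]
        exact mul_nonneg (Real.exp_pos _).le (hrad w i).le

/-- the number of exponents in a box -/
theorem log_card_le {ι : Type} [Fintype ι] [DecidableEq ι] (T : Finset (ι → ℤ × ℤ)) (r : ι → ℝ)
    (hr : ∀ i, 0 ≤ r i)
    (hT : ∀ t ∈ T, ∀ i, |((t i).1 : ℝ)| ≤ r i ∧ |((t i).2 : ℝ)| ≤ r i) :
    Real.log T.card ≤ ∑ i, 4 * r i := by
  rcases T.eq_empty_or_nonempty with rfl | hne
  · simp only [Finset.card_empty, Nat.cast_zero, Real.log_zero]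
    exact Finset.sum_nonneg fun i _ => by linarith [hr i]
  have hsub : T ⊆ Fintype.piFinset fun i =>
      (Finset.Icc (-⌊r i⌋) ⌊r i⌋ ×ˢ Finset.Icc (-⌊r i⌋) ⌊r i⌋) := by
    intro t ht
    rw [Fintype.mem_piFinset]
    intro i
    obtain ⟨h1, h2⟩ := hT t ht i
    have key : ∀ z : ℤ, |(z : ℝ)| ≤ r i → z ∈ Finset.Icc (-⌊r i⌋) ⌊r i⌋ := by
      intro z hz
      rw [abs_le] at hz
      rw [Finset.mem_Icc]
      constructor
      · have h3 : -z ≤ ⌊r i⌋ := by
          rw [Int.le_floor]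
          push_cast
          linarith
        linarith
      · exact Int.le_floor.2 hz.2
    rw [Finset.mem_product]
    exact ⟨key _ h1, key _ h2⟩
  have hcard := Finset.card_le_card hsub
  rw [Fintype.card_piFinset] at hcard
  have h1 : (T.card : ℝ) ≤ ∏ i, (2 * r i + 1) ^ 2 := by
    calc (T.card : ℝ) ≤ ((∏ i, (Finset.Icc (-⌊r i⌋) ⌊r i⌋ ×ˢ
          Finset.Icc (-⌊r i⌋) ⌊r i⌋).card : ℕ) : ℝ) := by exact_mod_cast hcard
      _ = ∏ i, ((Finset.Icc (-⌊r i⌋) ⌊r i⌋).card : ℝ) ^ 2 := by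
        push_cast
        refine Finset.prod_congr rfl fun i _ => ?_
        rw [Finset.card_product]
        push_cast
        ring
      _ ≤ ∏ i, (2 * r i + 1) ^ 2 := by
        refine Finset.prod_le_prod (fun i _ => by positivity) fun i _ => ?_
        apply pow_le_pow_left₀ (by positivity)
        rw [Int.card_Icc]
        have h2 : 0 ≤ ⌊r i⌋ := Int.floor_nonneg.2 (hr i)
        have h3 : (((⌊r i⌋ + 1 - -⌊r i⌋).toNat : ℕ) : ℝ) = 2 * (⌊r i⌋ : ℝ) + 1 := by
          have h4 : (((⌊r i⌋ + 1 - -⌊r i⌋).toNat : ℕ) : ℤ) = ⌊r i⌋ + 1 - -⌊r i⌋ :=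
            Int.toNat_of_nonneg (by linarith)
          have h5 : (((⌊r i⌋ + 1 - -⌊r i⌋).toNat : ℕ) : ℝ) = ((⌊r i⌋ + 1 - -⌊r i⌋ : ℤ) : ℝ) := by
            exact_mod_cast h4
          rw [h5]
          push_cast
          ring
        rw [h3]
        have h4 := Int.floor_le (r i)
        linarith
  have hpos : (0 : ℝ) < T.card := by exact_mod_cast Finset.card_pos.2 hne
  refine (Real.log_le_log hpos h1).trans ?_
  rw [Real.log_prod (fun i _ => by
    have := hr i
    positivity)]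
  refine Finset.sum_le_sum fun i _ => ?_
  have h5 := hr i
  rw [Real.log_pow]
  have h6 := Real.log_le_sub_one_of_pos (show 0 < 2 * r i + 1 by linarith)
  push_cast
  linarith

theorem aevalZ_mem {ι K : Type} [Field K] {S : Subring K} (x : ι → K) (hx : ∀ i, x i ∈ S)
    (f : MvPolynomial ι ℤ) : aeval x f ∈ S := by
  induction f using MvPolynomial.induction_on with
  | C a =>
    rw [aeval_C, eq_intCast]
    exact intCast_mem S a
  | add p q hp hq =>
    rw [map_add]
    exact S.add_mem hp hq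
  | mul_X p i hp =>
    rw [map_mul, aeval_X]
    exact S.mul_mem hp (hx i)

/-- the theorem if every block is non-empty -/
theorem main {m : ℕ} {ι : Type} [Fintype ι] [DecidableEq ι] {q : ℕ} (C : ι → Crv m)
    (blk : ι → Fin (q + 1)) (hsurj : ∀ j, j = 0 ∨ ∃ i, blk i = j)
    (𝒰 : Ultrafilter ℕ) (K : ℕ → Type) [∀ n, Field (K n)]
    (e : ∀ n, K n →+* ℂ) (U : ∀ n, ι → K n × K n) (s : ℕ → Fin (q + 1) → ℝ)
    (hsc : Scales q 𝒰 s)
    (hgen : ∀ Q : MvPolynomial ι ℤ, Q ≠ 0 →
      ∀ᶠ n in (𝒰 : Filter ℕ), aeval (fun i => (U n i).1) Q ≠ 0) :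
    ∃ X : ∀ n, Finset (K n), (∀ n, ∀ x ∈ X n, x ≠ 0) ∧ ∀ A B ε : ℝ, 0 < ε →
      ∀ᶠ n in (𝒰 : Filter ℕ), ∀ (S : Subring (K n)) (P : Places (K n) S),
        (∀ i, UC (C i) S (U n i)) → (∀ x ∈ X n, x⁻¹ ∈ S) →
        (∀ i, P.avg (fun w => |P.lg w (U n i).1|) ≤ B * s n (blk i)) →
        StarC C P (U n) (fun i => s n (blk i)) (s n 0) A ε := by
  classical
  have hCZ : ∀ n, CharZero (K n) := fun n =>
    ((RingHom.charZero_iff (e n).injective).2 inferInstance)
  -- the curves
  choose Bd G hBG using fun i => exists_bad (C i)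
  choose th tA htd htay using fun i => exists_tay (C i).f
  choose Ac hAc htp using fun i => tay_places (C i) (Bd i) (G i) (hBG i)
  choose Ar hAr har using fun i => avg_rad (C i) (Bd i) (G i) (hBG i)
  obtain ⟨I, d, g, hno, hg⟩ := exists_rel blk 𝒰 K (fun n i => (U n i).1) s hsc
  have hBne : ∀ᶠ n in (𝒰 : Filter ℕ), ∀ i, Polynomial.aeval (U n i).1 (Bd i) ≠ 0 := by
    rw [Filter.eventually_all]
    intro i
    have hB : Bd i ≠ 0 := by
      intro h0
      have := (hBG i).deg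
      rw [h0, Polynomial.natDegree_zero] at this
      omega
    filter_upwards [hgen _ (DE.one_var_ne i (Bd i) hB)] with n hn
    rwa [DE.aeval_one_var] at hn
  -- the deformation vectors of the blocks
  have hdef := fun j : Fin (q + 1) => defoC (fun l : {l : ι // l ∉ I ∧ blk l = j} => (l : ι)) Bd
    (fun i => (hBG i).sep) (fun i => (hBG i).deg) 𝒰 K e (fun n i => (U n i).1)
    hgen d (fun n l => g n l) (by
      filter_upwards [hg] with n hn
      intro l i
      exact (hn.2 l l.2.1).1 i) (by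
      filter_upwards [hg] with n hn
      intro l
      exact hn.1.root l l.2.1) (by
      filter_upwards [hg] with n hn
      intro l l'
      constructor
      · intro h1
        by_contra h2
        apply h1
        refine G_zero hn.1 l.2.1 ?_ (Or.inl l'.2.1)
        intro h3
        exact h2 (Subtype.ext h3.symm)
      · rintro rfl
        exact hn.1.der l l.2.1)
  choose mm Ad hAd hdef using hdef
  obtain ⟨AR, hAR, hradi⟩ := exists_radiusC blk I d
  refine ⟨fun n => ((Finset.univ.filter fun l => l ∉ I ∧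
      aeval (fun i => (U n i).1) (pderiv l (g n l)) ≠ 0).image
        fun l => aeval (fun i => (U n i).1) (pderiv l (g n l))) ∪
      ((Finset.univ.filter fun i => aeval ![(U n i).1, (U n i).2] (pderiv 1 (C i).f) ≠ 0).image
        fun i => aeval ![(U n i).1, (U n i).2] (pderiv 1 (C i).f)) ∪
      ((Finset.univ.filter fun i => Polynomial.aeval (U n i).1 (Bd i) ≠ 0).image
        fun i => Polynomial.aeval (U n i).1 (Bd i)), ?_, ?_⟩
  · intro n x hx
    rw [Finset.mem_union, Finset.mem_union, Finset.mem_image, Finset.mem_image,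
      Finset.mem_image] at hx
    rcases hx with (⟨l, hl, rfl⟩ | ⟨l, hl, rfl⟩) | ⟨l, hl, rfl⟩
    · exact (Finset.mem_filter.1 hl).2.2
    · exact (Finset.mem_filter.1 hl).2
    · exact (Finset.mem_filter.1 hl).2
  intro A B ε hε
  obtain ⟨κ, hκ⟩ : ∃ κ : ℝ, κ = (Fintype.card (Σ j, Fin (mm j)) : ℝ) := ⟨_, rfl⟩
  have hκ0 : 0 ≤ κ := by rw [hκ]; positivity
  have hlogκ : 0 ≤ Real.log (8 * (κ + 1)) := Real.log_nonneg (by linarith)
  obtain ⟨SAc, hSAc⟩ : ∃ x : ℝ, x = ∑ i, Ac i := ⟨_, rfl⟩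
  have hSAc0 : 0 ≤ SAc := by rw [hSAc]; exact Finset.sum_nonneg fun i _ => hAc i
  obtain ⟨SAr, hSAr⟩ : ∃ x : ℝ, x = ∑ i, Ar i := ⟨_, rfl⟩
  have hSAr0 : 0 ≤ SAr := by rw [hSAr]; exact Finset.sum_nonneg fun i _ => hAr i
  have hSAr1 : ∀ i, Ar i ≤ SAr := by
    intro i
    rw [hSAr]
    exact Finset.single_le_sum (f := Ar) (fun i _ => hAr i) (Finset.mem_univ i)
  obtain ⟨cc, hcc⟩ : ∃ x : ℝ, x = SAc + Real.log (8 * (κ + 1)) := ⟨_, rfl⟩
  have hcc0 : 0 ≤ cc := by rw [hcc]; positivity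
  obtain ⟨A', hA'⟩ : ∃ A' : ℝ, A' = max A 1 := ⟨_, rfl⟩
  obtain ⟨B0, hB0'⟩ : ∃ B0 : ℝ, B0 = max B (max d 1) := ⟨_, rfl⟩
  have hAA : A ≤ A' := by rw [hA']; exact le_max_left _ _
  have hA1 : 1 ≤ A' := by rw [hA']; exact le_max_right _ _
  have hA0 : 0 ≤ A' := by linarith
  have hBB0 : B ≤ B0 := by rw [hB0']; exact le_max_left _ _
  have hB01 : 1 ≤ B0 := by rw [hB0']; exact (le_max_right _ _).trans (le_max_right _ _)
  have hB0d : (d : ℝ) ≤ B0 := by rw [hB0']; exact (le_max_left _ _).trans (le_max_right _ _)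
  obtain ⟨B', hB'⟩ : ∃ B' : ℝ, B' = B0 + cc + SAr * (1 + B0) := ⟨_, rfl⟩
  have hB1 : 1 ≤ B' := by
    have : 0 ≤ SAr * (1 + B0) := by positivity
    linarith
  have hBB' : B0 ≤ B' := by
    have : 0 ≤ SAr * (1 + B0) := by positivity
    linarith
  have hB0 : 0 ≤ B' := by linarith
  have hd0 : (0 : ℝ) ≤ d := Nat.cast_nonneg d
  obtain ⟨cI, hcI⟩ : ∃ cI : ℝ, cI = (Fintype.card ι : ℝ) := ⟨_, rfl⟩
  have hcI0 : 0 ≤ cI := by rw [hcI]; positivity
  have hlog2 : 0 < Real.log 2 := Real.log_pos (by norm_num)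
  obtain ⟨C1, hC1⟩ : ∃ C1 : ℝ, C1 = cI * A' * (∑ j, ((1 + d) * Ad j + cc)) + A' +
    4 * cI * A' + 2 * cI * A' * Real.log 2 := ⟨_, rfl⟩
  have hSA : 0 ≤ ∑ j, ((1 + d) * Ad j + cc) := Finset.sum_nonneg fun j _ => by
    have := hAd j
    positivity
  have hC10 : 0 ≤ C1 := by rw [hC1]; positivity
  obtain ⟨θ, hθ⟩ : ∃ θ : ℝ, θ = ε / (2 * (AR * B' + 1)) := ⟨_, rfl⟩
  have hθ0 : 0 < θ := by rw [hθ]; positivity
  have hθ1 : AR * B' * θ ≤ ε / 2 := by
    rw [hθ, mul_div_assoc', div_le_div_iff₀ (by positivity) (by norm_num)]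
    nlinarith [mul_nonneg hAR hB0]
  have hos := order_small blk 𝒰 K (fun n i => (U n i).1) s hsc I d g hno hg
    (A' + cI * A' * Real.log 2) θ (by positivity) hθ0
  have hdef' := Filter.eventually_all.2 hdef
  filter_upwards [hg, hdef', hos, hsc.large (2 * C1 / ε + 1), hsc.sep 1, hBne] with n hn1 hn2 hn3
    hn4 hn5 hn6
  have hCε : 0 ≤ 2 * C1 / ε := by positivity
  have hs1 : 1 ≤ s n 0 := by linarith
  have hs0 : 0 < s n 0 := by linarith
  have hsj : ∀ j, s n 0 ≤ s n j := by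
    intro j
    rcases Nat.eq_zero_or_pos (j : ℕ) with hj | hj
    · have : j = 0 := Fin.ext hj
      rw [this]
    · have h1 := hn5 0 j (Fin.lt_def.2 hj)
      rwa [one_mul] at h1
  have hsj1 : ∀ j, 1 ≤ s n j := fun j => hs1.trans (hsj j)
  have hsj0 : ∀ j, 0 < s n j := fun j => by linarith [hsj1 j]
  have hC1s : C1 / s n 0 ≤ ε / 2 := by
    rw [div_le_div_iff₀ hs0 (by norm_num)]
    have h1 : 2 * C1 / ε ≤ s n 0 := by linarith
    rw [div_le_iff₀ hε] at h1
    linarith
  intro S P hU hX havg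
  choose a ha1 ha2 ha3 using hn2
  have hXS : ∀ l, l ∉ I → (aeval (fun i => (U n i).1) (pderiv l (g n l)))⁻¹ ∈ S := by
    intro l hl
    apply hX
    rw [Finset.mem_union, Finset.mem_union, Finset.mem_image]
    exact Or.inl (Or.inl ⟨l, Finset.mem_filter.2 ⟨Finset.mem_univ _, hl, hn1.1.der l hl⟩, rfl⟩)
  have hfY : ∀ i, aeval ![(U n i).1, (U n i).2] (pderiv 1 (C i).f) ≠ 0 := fun i =>
    ((bad_ne (hBG i) (U n i).1 (hn6 i)).2.2 (U n i).2 (hU i).on).2
  have hfYS : ∀ i, (aeval ![(U n i).1, (U n i).2] (pderiv 1 (C i).f))⁻¹ ∈ S := by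
    intro i
    apply hX
    rw [Finset.mem_union, Finset.mem_union, Finset.mem_image, Finset.mem_image]
    exact Or.inl (Or.inr ⟨i, Finset.mem_filter.2 ⟨Finset.mem_univ _, hfY i⟩, rfl⟩)
  have hBdS : ∀ i, (Polynomial.aeval (U n i).1 (Bd i))⁻¹ ∈ S := by
    intro i
    apply hX
    rw [Finset.mem_union, Finset.mem_image]
    exact Or.inr ⟨i, Finset.mem_filter.2 ⟨Finset.mem_univ _, hn6 i⟩, rfl⟩
  -- the Taylor series
  choose η hη hηc using fun i => htay i (K n) (U n i).1 (U n i).2 (hU i).on (hfY i)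
  have hηS : ∀ i j, PowerSeries.coeff j (η i) ∈ S := by
    intro i j
    rcases Nat.eq_zero_or_pos j with rfl | hj
    · rw [PowerSeries.coeff_zero_eq_constantCoeff_apply, (hη i).const]
      exact (hU i).mem2
    · rw [hηc i j hj, div_eq_mul_inv, ← inv_pow]
      refine S.mul_mem (aevalZ_mem _ (fun k => ?_) _) (S.pow_mem (hfYS i) _)
      fin_cases k
      · exact (hU i).mem1
      · exact (hU i).mem2
  -- the constants at the places
  choose cwi hcwi0 hcwi1 hcwi2 using fun i => htp i (K n) S P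
  obtain ⟨cw, hcwd⟩ : ∃ cw : P.Pl → ℝ, cw = fun w => ∑ i, cwi i w := ⟨_, rfl⟩
  have hcw0 : ∀ w, 0 ≤ cw w := by
    intro w
    rw [hcwd]
    exact Finset.sum_nonneg fun i _ => hcwi0 i w
  have hcwle : ∀ i w, cwi i w ≤ cw w := by
    intro i w
    rw [hcwd]
    exact Finset.single_le_sum (f := fun i => cwi i w) (fun i _ => hcwi0 i w) (Finset.mem_univ i)
  have hcwavg : P.avg cw ≤ SAc := by
    rw [hcwd, P.avg_sum, hSAc]
    exact Finset.sum_le_sum fun i _ => hcwi1 i
  have hradall := fun i => har i (K n) S P (U n i).1 (hU i).mem1 (hU i).inv1 (hBdS i) (hn6 i)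
  have hrad : ∀ w i, 0 < rad (P := P) (Bd i) w (U n i).1 := fun w i => (hradall i).1 w
  have hc : ∀ i w j, absP w (PowerSeries.coeff j (η i)) ≤
      absP w (U n i).2 * (Real.exp (cw w) / rad (Bd i) w (U n i).1) ^ j := by
    intro i w j
    refine (hcwi2 i (U n i).1 (U n i).2 (η i) (hU i).on (hn6 i) (hη i) w j).trans ?_
    have h1 := hrad w i
    have h2 : 0 ≤ absP w (U n i).2 := BF.absP_nonneg w _
    have h3 := Real.exp_le_exp.2 (hcwle i w)
    gcongr
  obtain ⟨Ξ, hΞ, hint, hnorm⟩ := exists_branch I blk (fun i => (U n i).1) (g n) hn1.1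
  have hΞS : ∀ i γ, MvPowerSeries.coeff γ (Ξ i) ∈ S :=
    hint S (fun i => (hU i).mem1) hXS
  have hratio : ∀ j, s n j / s n 0 ≤ s n j := by
    intro j
    rw [div_le_iff₀ hs0]
    nlinarith [hsj0 j]
  have hratio1 : ∀ j, 1 ≤ s n j / s n 0 := by
    intro j
    rw [le_div_iff₀ hs0, one_mul]
    exact hsj j
  have havg' : ∀ i, P.avg (fun w => |P.lg w (U n i).1|) ≤ B0 * s n (blk i) := fun i =>
    (havg i).trans (mul_le_mul_of_nonneg_right hBB0 (hsj0 _).le)
  obtain ⟨R, hR1, hR2⟩ := hradi (K n) S P (fun i => (U n i).1) (g n) Ξ (fun j => B' * s n j)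
    (fun w i => dl cw (Fintype.card (Σ j, Fin (mm j))) w * rad (Bd i) w (U n i).1)
    (fun i => (hU i).ne1) (fun i => (hU i).mem1) hn1.1 hΞ hnorm
    (fun l hl => (hn1.2 l hl).1) (by
      intro j
      nlinarith [hsj1 j]) (by
      intro l hl
      refine (hn1.2 l hl).2.trans ?_
      apply mul_le_mul_of_nonneg_left _ hd0
      refine (hratio _).trans ?_
      nlinarith [hsj1 (blk l)]) (by
      intro i
      refine (havg' i).trans ?_
      exact mul_le_mul_of_nonneg_right hBB' (hsj0 _).le) (by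
      intro w i
      exact mul_pos (Real.exp_pos _) (hrad w i)) (by
      intro i
      have h1 : ∀ w : P.Pl, |Real.log (dl cw (Fintype.card (Σ j, Fin (mm j))) w *
          rad (Bd i) w (U n i).1)| ≤ (cw w + Real.log (8 * (κ + 1)) * P.arch w) +
            |Real.log (rad (Bd i) w (U n i).1)| := by
        intro w
        have h2 : 0 ≤ P.arch w := P.arch_nonneg w
        unfold dl
        rw [Real.log_mul (Real.exp_pos _).ne' (hrad w i).ne']
        refine (abs_add_le _ _).trans (add_le_add ?_ le_rfl)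
        rw [Real.log_exp, ← hκ]
        have h3 : -cw w - P.arch w * Real.log (8 * (κ + 1)) =
            -(cw w + Real.log (8 * (κ + 1)) * P.arch w) := by ring
        rw [h3, abs_neg, abs_of_nonneg]
        have := hcw0 w
        positivity
      refine (P.avg_mono h1).trans ?_
      rw [P.avg_add, P.avg_add, P.avg_const_arch]
      have h2 := (hradall i).2
      have h3 := havg' i
      have h4 := hsj1 (blk i)
      have h5 : Ar i * (1 + P.avg (fun w => |P.lg w (U n i).1|)) ≤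
          SAr * (1 + B0 * s n (blk i)) := by
        apply mul_le_mul (hSAr1 i) (by linarith) _ hSAr0
        have : 0 ≤ P.avg (fun w => |P.lg w (U n i).1|) := P.avg_nonneg fun _ => abs_nonneg _
        linarith
      have h6 : cc ≤ cc * s n (blk i) := le_mul_of_one_le_right hcc0 h4
      have h7 : SAr * (1 + B0 * s n (blk i)) ≤ SAr * (1 + B0) * s n (blk i) := by
        rw [mul_assoc]
        apply mul_le_mul_of_nonneg_left _ hSAr0
        nlinarith
      have h8 : 0 ≤ B0 * s n (blk i) := by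
        have := hsj0 (blk i)
        positivity
      have h9 : B' * s n (blk i) = B0 * s n (blk i) + cc * s n (blk i) +
          SAr * (1 + B0) * s n (blk i) := by rw [hB']; ring
      rw [h9]
      linarith)
  have hσ := fun j (k : Fin (mm j)) => ha3 j S P (d * (s n j / s n 0)) (by
      have := hratio1 j
      positivity) (by
      intro l
      have h1 := (hn1.2 l l.2.1).2
      rw [l.2.2] at h1
      exact h1) k
  choose σ hσ0 hσ1 hσ2 using hσ
  intro M T₀ q₀ N b L hM0 hMi hN hdeg hlogN hdvd hL0' hLavg hb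
  have hMpos : 0 < M := by linarith
  have hMj : ∀ j, s n j ≤ M := by
    intro j
    rcases hsurj j with rfl | ⟨i, rfl⟩
    · exact hM0
    · exact hMi i
  have hAM : ∀ j, A * M / s n j ≤ A' * M / s n j := fun j =>
    div_le_div_of_nonneg_right (mul_le_mul_of_nonneg_right hAA hMpos.le) (hsj0 j).le
  have hAM0 : ∀ j, A' * M / s n j ≤ A' * M / s n 0 := fun j =>
    div_le_div_of_nonneg_left (by positivity) hs0 (hsj j)
  obtain ⟨H, hH⟩ : ∃ H : ι → ℕ, H = fun i => ⌈s n (blk i)⌉₊ := ⟨_, rfl⟩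
  have hH1 : ∀ i, s n (blk i) ≤ H i := fun i => by rw [hH]; exact Nat.le_ceil _
  have hH2 : ∀ i, (H i : ℝ) ≤ 2 * s n (blk i) := by
    intro i
    have h1 := Nat.ceil_lt_add_one (hsj0 (blk i)).le
    have h2 := hsj1 (blk i)
    have h3 : ((H i : ℕ) : ℝ) < s n (blk i) + 1 := by rw [hH]; exact h1
    linarith
  have hHpos : ∀ i, 0 < H i := fun i => by rw [hH]; exact Nat.ceil_pos.2 (hsj0 _)
  obtain ⟨Λ, hΛ⟩ : ∃ Λ : ℝ, Λ = A' * M / s n 0 := ⟨_, rfl⟩
  have hΛ0 : 0 ≤ Λ := by rw [hΛ]; positivity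
  have hAΛ : ∀ j, A * M / s n j ≤ Λ := fun j => by
    rw [hΛ]
    exact (hAM j).trans (hAM0 j)
  obtain ⟨γ, β, hγ0, ⟨α, hα1, hα2⟩, hβ, hfin⟩ := core C Bd blk I (U n) (g n) hn1.1 mm a ha1 ha2 P
    hU hfY η hη hηS hXS σ hσ2 Ξ hΞ hΞS cw hcw0 hrad hc R hR2 H hHpos T₀ q₀ N hN hdvd
    (2 * cI * Λ) (4 * cI * Λ) b L (by
      intro w
      obtain ⟨T, q', h1, h2, h3, h4⟩ := hb w
      refine ⟨T, q', h1, ?_, ?_, h3, h4⟩
      · intro t ht
        have h5 : ∀ i ∈ (Finset.univ : Finset ι), |((t i).1 : ℝ)| + |((t i).2 : ℝ)| ≤ 2 * Λ := by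
          intro i _
          have h6 := h2 t ht i
          have h7 := hAΛ (blk i)
          linarith [h6.1, h6.2]
        refine (Finset.sum_le_sum h5).trans ?_
        rw [Finset.sum_const, nsmul_eq_mul, Finset.card_univ, ← hcI]
        apply le_of_eq
        ring
      · refine (log_card_le T (fun _ => Λ) (fun _ => hΛ0) (fun t ht i => ?_)).trans ?_
        · have h6 := h2 t ht i
          exact ⟨h6.1.trans (hAΛ _), h6.2.trans (hAΛ _)⟩
        · rw [Finset.sum_const, nsmul_eq_mul, Finset.card_univ, ← hcI]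
          apply le_of_eq
          ring)
  -- the order
  have hwt : (wt H γ : ℝ) < θ * M := by
    refine hn3 Ξ H M (hs α N) (wt H γ) hΞ (fun i => ⟨hH1 i, hH2 i⟩) hMj ?_ ?_ hα1 hα2
    · intro i
      have h1 : ((hs α N).degreeOf i : ℝ) ≤ N.degreeOf i := by
        exact_mod_cast degreeOf_hs α N i
      refine h1.trans ((hdeg i).trans ((hAM (blk i)).trans ?_))
      apply div_le_div_of_nonneg_right _ (hsj0 _).le
      apply mul_le_mul_of_nonneg_right _ hMpos.le
      have : 0 ≤ cI * A' * Real.log 2 := by positivity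
      linarith
    · have h1 : hs α N ≠ 0 := by
        intro h2
        rw [h2, map_zero] at hα1
        exact hα1 rfl
      have h2 := l1_hs α N
      have h3 : 0 < l1 (hs α N) := lt_of_lt_of_le one_pos (one_le_l1 h1)
      have h4 : 0 < l1 N := lt_of_lt_of_le one_pos (one_le_l1 hN)
      have h5 := Real.log_le_log h3 h2
      rw [Real.log_mul (by positivity) h4.ne', Real.log_pow] at h5
      refine h5.trans ?_
      have h6 : ((∑ i, N.degreeOf i : ℕ) : ℝ) ≤ cI * Λ := by
        push_cast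
        have h7 : ∀ i ∈ (Finset.univ : Finset ι), (N.degreeOf i : ℝ) ≤ Λ := by
          intro i _
          exact (hdeg i).trans (hAΛ (blk i))
        refine (Finset.sum_le_sum h7).trans ?_
        rw [Finset.sum_const, nsmul_eq_mul, Finset.card_univ, ← hcI]
      have h8 : ((∑ i, N.degreeOf i : ℕ) : ℝ) * Real.log 2 ≤ cI * Λ * Real.log 2 :=
        mul_le_mul_of_nonneg_right h6 hlog2.le
      have h9 : Real.log (l1 N) ≤ Λ := hlogN.trans (hAΛ 0)
      have h10 : (A' + cI * A' * Real.log 2) * M / s n 0 = cI * Λ * Real.log 2 + Λ := by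
        rw [hΛ]
        field_simp
        ring
      rw [h10]
      linarith
  -- the radius part
  have hr : ∑ i, (γ i : ℝ) * P.avg (fun w => R w (blk i)) ≤ AR * B' * (θ * M) := by
    have h1 : ∀ i ∈ (Finset.univ : Finset ι),
        (γ i : ℝ) * P.avg (fun w => R w (blk i)) ≤ AR * B' * ((γ i : ℝ) * H i) := by
      intro i _
      have h2 := hR1 (blk i)
      have h3 : P.avg (fun w => R w (blk i)) ≤ AR * (B' * H i) := by
        refine h2.trans ?_
        apply mul_le_mul_of_nonneg_left _ hAR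
        exact mul_le_mul_of_nonneg_left (hH1 i) hB0
      calc (γ i : ℝ) * P.avg (fun w => R w (blk i)) ≤ (γ i : ℝ) * (AR * (B' * H i)) :=
            mul_le_mul_of_nonneg_left h3 (Nat.cast_nonneg _)
        _ = AR * B' * ((γ i : ℝ) * H i) := by ring
    refine (Finset.sum_le_sum h1).trans ?_
    rw [← Finset.mul_sum]
    apply mul_le_mul_of_nonneg_left _ (by positivity)
    have h4 : ∑ i, (γ i : ℝ) * H i = (wt H γ : ℝ) := by
      unfold wt
      push_cast
      rfl
    rw [h4]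
    exact hwt.le
  -- the deformation part
  have hdpart : ∑ k : (Σ j, Fin (mm j)), (β k : ℝ) * (P.avg (σ k.1 k.2) + P.avg cw +
      Real.log (8 * (κ + 1))) ≤ cI * A' * (∑ j, ((1 + d) * Ad j + cc)) * (M / s n 0) := by
    have h1 : ∑ k : (Σ j, Fin (mm j)), (β k : ℝ) * (P.avg (σ k.1 k.2) + P.avg cw +
        Real.log (8 * (κ + 1))) ≤
        ∑ k : (Σ j, Fin (mm j)), (β k : ℝ) * (((1 + d) * Ad k.1 + cc) * (s n k.1 / s n 0)) := by
      apply Finset.sum_le_sum
      intro k _
      apply mul_le_mul_of_nonneg_left _ (Nat.cast_nonneg _)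
      have h2 := hσ1 k.1 k.2
      have h3 := hratio1 k.1
      have h4 : Ad k.1 * (1 + d * (s n k.1 / s n 0)) ≤ (1 + d) * Ad k.1 * (s n k.1 / s n 0) := by
        have h5 : (1 : ℝ) + d * (s n k.1 / s n 0) ≤ (1 + d) * (s n k.1 / s n 0) := by
          nlinarith
        calc Ad k.1 * (1 + d * (s n k.1 / s n 0)) ≤ Ad k.1 * ((1 + d) * (s n k.1 / s n 0)) :=
              mul_le_mul_of_nonneg_left h5 (hAd _)
          _ = _ := by ring
      have h6 : cc ≤ cc * (s n k.1 / s n 0) := le_mul_of_one_le_right hcc0 h3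
      rw [add_mul]
      linarith
    refine h1.trans ?_
    rw [Fintype.sum_sigma]
    have h2 : ∀ j ∈ (Finset.univ : Finset (Fin (q + 1))),
        ∑ k : Fin (mm j), (β ⟨j, k⟩ : ℝ) * (((1 + d) * Ad j + cc) * (s n j / s n 0)) ≤
        cI * A' * ((1 + d) * Ad j + cc) * (M / s n 0) := by
      intro j _
      rw [← Finset.sum_mul]
      have h3 : ∑ k : Fin (mm j), (β ⟨j, k⟩ : ℝ) ≤ cI * (A' * M / s n j) := by
        have h4 := hβ j
        have h5 : ∑ k with Sigma.fst k = j, β k = ∑ k : Fin (mm j), β ⟨j, k⟩ := by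
          rw [Finset.sum_filter, Fintype.sum_sigma, Finset.sum_eq_single j]
          · simp
          · intro j' _ hj'
            apply Finset.sum_eq_zero
            intro k _
            rw [if_neg hj']
          · intro h
            exact absurd (Finset.mem_univ _) h
        rw [h5] at h4
        have h6 : (∑ k : Fin (mm j), (β ⟨j, k⟩ : ℝ)) ≤
            ∑ i with blk i = j, (N.degreeOf i : ℝ) := by
          exact_mod_cast h4
        refine h6.trans ?_
        have h7 : ∀ i ∈ (Finset.univ.filter fun i => blk i = j),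
            (N.degreeOf i : ℝ) ≤ A' * M / s n j := by
          intro i hi
          have h8 := (Finset.mem_filter.1 hi).2
          have h9 := (hdeg i).trans (hAM (blk i))
          rw [h8] at h9
          exact h9
        refine (Finset.sum_le_sum h7).trans ?_
        rw [Finset.sum_const, nsmul_eq_mul]
        apply mul_le_mul_of_nonneg_right
        · rw [hcI]
          exact_mod_cast Finset.card_le_univ _
        · have := hsj0 j
          positivity
      have h10 : 0 ≤ ((1 + d) * Ad j + cc) * (s n j / s n 0) := by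
        have := hsj0 j
        have := hAd j
        positivity
      refine (mul_le_mul_of_nonneg_right h3 h10).trans ?_
      have h11 := (hsj0 j).ne'
      apply le_of_eq
      field_simp
    refine (Finset.sum_le_sum h2).trans ?_
    apply le_of_eq
    rw [← Finset.sum_mul, ← Finset.mul_sum]
  -- conclusion
  have h1 : (4 * cI * Λ) + (2 * cI * Λ) * Real.log 2 =
      (4 * cI * A' + 2 * cI * A' * Real.log 2) * (M / s n 0) := by
    rw [hΛ]
    ring
  have hLL : P.avg L ≤ A' * (M / s n 0) := by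
    refine hLavg.trans ((hAM 0).trans (le_of_eq ?_))
    ring
  have h2 : 0 ≤ P.avg b + AR * B' * (θ * M) + C1 * (M / s n 0) := by
    have h3 : C1 * (M / s n 0) = cI * A' * (∑ j, ((1 + d) * Ad j + cc)) * (M / s n 0) +
        A' * (M / s n 0) + (4 * cI * A' + 2 * cI * A' * Real.log 2) * (M / s n 0) := by
      rw [hC1]
      ring
    rw [h3]
    rw [← hκ, h1] at hfin
    linarith
  have h4 : C1 * (M / s n 0) ≤ ε / 2 * M := by
    have : C1 * (M / s n 0) = C1 / s n 0 * M := by ring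
    rw [this]
    exact mul_le_mul_of_nonneg_right hC1s hMpos.le
  have h5 : AR * B' * (θ * M) ≤ ε / 2 * M := by
    rw [← mul_assoc]
    exact mul_le_mul_of_nonneg_right hθ1 hMpos.le
  linarith

end SG

theorem starC0 {m : ℕ} {ι : Type} [Fintype ι] [DecidableEq ι] {q : ℕ} (C : ι → Crv m)
    (blk : ι → Fin (q + 1)) (𝒰 : Ultrafilter ℕ) (K : ℕ → Type) [∀ n, Field (K n)]
    (e : ∀ n, K n →+* ℂ) (U : ∀ n, ι → K n × K n) (s : ℕ → Fin (q + 1) → ℝ) (hs : Scales q 𝒰 s)
    (hgen : ∀ Q : MvPolynomial ι ℤ, Q ≠ 0 →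
      ∀ᶠ n in (𝒰 : Filter ℕ), aeval (fun i => (U n i).1) Q ≠ 0) :
    ∃ X : ∀ n, Finset (K n), (∀ n, ∀ x ∈ X n, x ≠ 0) ∧ ∀ A B ε : ℝ, 0 < ε →
      ∀ᶠ n in (𝒰 : Filter ℕ), ∀ (S : Subring (K n)) (P : Places (K n) S),
        (∀ i, UC (C i) S (U n i)) → (∀ x ∈ X n, x⁻¹ ∈ S) →
        (∀ i, P.avg (fun w => |P.lg w (U n i).1|) ≤ B * s n (blk i)) →
        StarC C P (U n) (fun i => s n (blk i)) (s n 0) A ε := by
  classical
  set J : Finset (Fin (q + 1)) := insert 0 (Finset.univ.image blk) with hJ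
  have h0J : (0 : Fin (q + 1)) ∈ J := Finset.mem_insert_self _ _
  have hJpos : 0 < J.card := Finset.card_pos.2 ⟨0, h0J⟩
  obtain ⟨q', hq'⟩ : ∃ q', J.card = q' + 1 := ⟨J.card - 1, by omega⟩
  set f : Fin (q' + 1) ↪o Fin (q + 1) := J.orderEmbOfFin hq' with hf
  have hrange : Set.range f = J := Finset.range_orderEmbOfFin J hq'
  have hf0 : f 0 = 0 := by
    obtain ⟨i, hi⟩ : (0 : Fin (q + 1)) ∈ Set.range f := by
      rw [hrange]
      exact h0J
    apply le_antisymm _ (Fin.zero_le _)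
    rw [← hi]
    exact f.monotone (Fin.zero_le i)
  have hblk : ∀ i, ∃ j, f j = blk i := by
    intro i
    have : blk i ∈ Set.range f := by
      rw [hrange]
      exact Finset.mem_coe.2 (Finset.mem_insert_of_mem
        (Finset.mem_image_of_mem _ (Finset.mem_univ i)))
    exact this
  choose blk' hblk' using hblk
  have hs' : Scales q' 𝒰 (fun n j => s n (f j)) := by
    refine ⟨?_, ?_⟩
    · intro T
      filter_upwards [hs.large T] with n hn
      rw [hf0]
      exact hn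
    · intro T
      filter_upwards [hs.sep T] with n hn
      intro i j hij
      exact hn (f i) (f j) (f.strictMono hij)
  have hsurj : ∀ j, j = 0 ∨ ∃ i, blk' i = j := by
    intro j
    have h1 : f j ∈ J := by
      have : f j ∈ Set.range f := ⟨j, rfl⟩
      rw [hrange] at this
      exact this
    rw [hJ, Finset.mem_insert, Finset.mem_image] at h1
    rcases h1 with h1 | ⟨i, _, h1⟩
    · left
      apply f.injective
      rw [h1, hf0]
    · right
      refine ⟨i, f.injective ?_⟩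
      rw [hblk', h1]
  obtain ⟨X, hX, hmain⟩ := SG.main C blk' hsurj 𝒰 K e U (fun n j => s n (f j)) hs' hgen
  refine ⟨X, hX, ?_⟩
  intro A B ε hε
  filter_upwards [hmain A B ε hε] with n hn
  intro S P hU hXS havg
  have h1 := hn S P hU hXS (by
    intro i
    simp only [hblk']
    exact havg i)
  simp only [hblk', hf0] at h1
  exact h1

end Pool.Agent.PC
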