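import Pool.Agent.Lib.MP_c95b3b_ag_PC.KDat
import Pool.Agent.Lib.MP_c95b3b_ag_PC.SG

/-! Project PC, module KS: interface to the theorem STAR for products of curves. -/

namespace Pool.Agent.PC

open Pool.Agent.L3 Pool.Agent.AL Module MvPolynomial

theorem starC {m : ℕ} {ι : Type} [Fintype ι] [DecidableEq ι] {q : ℕ} (C : ι → Crv m)
    (blk : ι → Fin (q + 1)) (𝒰 : Ultrafilter ℕ) (K : ℕ → Type) [∀ n, Field (K n)]
    (e : ∀ n, K n →+* ℂ) (U : ∀ n, ι → K n × K n) (s : ℕ → Fin (q + 1) → ℝ)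
    (hs : Scales q 𝒰 s)
    (hgen : ∀ Q : MvPolynomial ι ℤ, Q ≠ 0 →
      ∀ᶠ n in (𝒰 : Filter ℕ), aeval (fun i => (U n i).1) Q ≠ 0) :
    ∃ X : ∀ n, Finset (K n), (∀ n, ∀ x ∈ X n, x ≠ 0) ∧ ∀ A B ε : ℝ, 0 < ε →
      ∀ᶠ n in (𝒰 : Filter ℕ), ∀ (S : Subring (K n)) (P : Places (K n) S),
        (∀ i, UC (C i) S (U n i)) → (∀ x ∈ X n, x⁻¹ ∈ S) →
        (∀ i, P.avg (fun w => ‖lvc P (U n) w i‖) ≤ B * s n (blk i)) →
        StarC C P (U n) (fun i => s n (blk i)) (s n 0) A ε := by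
  obtain ⟨X, hX, h⟩ := starC0 C blk 𝒰 K e U s hs hgen
  refine ⟨X, hX, fun A B ε hε => ?_⟩
  filter_upwards [h A B ε hε] with n hn S P hU hXS hB
  refine hn S P hU hXS fun i => le_trans (P.avg_mono fun w => ?_) (hB i)
  exact norm_fst_le (lvc P (U n) w i)

end Pool.Agent.PC
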